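import Mathlib
import Pool.Agent.Lib.MP_daa227_pr_IG.Defs

/-!
# MP_daa227_pr, general potentials: powers
-/

namespace Pool.Agent.IG

open MeasureTheory ProbabilityTheory Finset Filter Topology
open MP_daa227_pr (Chain Zk Zf Gk Gf KU K0 Ren shift seqLaw ExpMom DepOn Good GoodW mom)
open Pool.Agent.AZ (Mod Kv lmg)
open Pool.Agent.IOrd (Sys aS cv)

noncomputable section

namespace PowStep2

/-- `z ^ (s - 1) t ≤ t ^ s` for `0 ≤ t ≤ z` -/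
theorem one {z t s : ℝ} (hs0 : 0 < s) (hs1 : s ≤ 1) (ht0 : 0 ≤ t) (htz : t ≤ z) :
    z ^ (s - 1) * t ≤ t ^ s := by
  rcases ht0.eq_or_lt with h0 | h0
  · rw [← h0, mul_zero, Real.zero_rpow hs0.ne']
  · have h8 : z ^ (s - 1) ≤ t ^ (s - 1) :=
      Real.rpow_le_rpow_of_nonpos h0 htz (by linarith)
    calc z ^ (s - 1) * t ≤ t ^ (s - 1) * t := mul_le_mul_of_nonneg_right h8 h0.le
      _ = t ^ s := by rw [← Real.rpow_add_one h0.ne', sub_add_cancel]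

end PowStep2

/-- If `z ≤ z₀` or `z ≤ e` this is trivial. Otherwise
`z ^ s = z ^ (s - 1) z ≤ z ^ (s - 1) (z₀ + ∑ m T + e)` and `z ^ (s - 1) T ≤ T ^ s` for
`0 ≤ T ≤ z` (`s - 1 ≤ 0`; `T = 0` separately), also for `T = z₀`, `T = e`. Compare
`Lib/MP_daa227_pr_IO/PowStep.lean`. -/
theorem pow_step2 {ι : Type*} (S : Finset ι) {m T : ι → ℝ} {z z₀ e s : ℝ} (hs0 : 0 < s)
    (hs1 : s ≤ 1) (hz : 0 < z) (hz₀ : 0 ≤ z₀) (he : 0 ≤ e) (hm : ∀ i ∈ S, 0 ≤ m i)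
    (hT : ∀ i ∈ S, 0 ≤ T i ∧ T i ≤ z) (h : z ≤ z₀ + ∑ i ∈ S, m i * T i + e) :
    z ^ s ≤ z₀ ^ s + ∑ i ∈ S, m i * T i ^ s + e ^ s := by
  have hsum : 0 ≤ ∑ i ∈ S, m i * T i ^ s :=
    Finset.sum_nonneg fun i hi => mul_nonneg (hm i hi) (Real.rpow_nonneg (hT i hi).1 s)
  have hz₀s : 0 ≤ z₀ ^ s := Real.rpow_nonneg hz₀ s
  have hes : 0 ≤ e ^ s := Real.rpow_nonneg he s
  rcases le_total z z₀ with h1 | h1
  · have h2 := Real.rpow_le_rpow hz.le h1 hs0.le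
    linarith
  rcases le_total z e with h2 | h2
  · have h3 := Real.rpow_le_rpow hz.le h2 hs0.le
    linarith
  have hzs : 0 < z ^ (s - 1) := Real.rpow_pos_of_pos hz _
  have e1 : z ^ (s - 1) * z = z ^ s := by
    rw [← Real.rpow_add_one hz.ne', sub_add_cancel]
  have h3 : z ^ (s - 1) * ∑ i ∈ S, m i * T i ≤ ∑ i ∈ S, m i * T i ^ s := by
    rw [Finset.mul_sum]
    refine Finset.sum_le_sum fun i hi => ?_
    calc z ^ (s - 1) * (m i * T i) = m i * (z ^ (s - 1) * T i) := by ring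
      _ ≤ m i * T i ^ s :=
        mul_le_mul_of_nonneg_left (PowStep2.one hs0 hs1 (hT i hi).1 (hT i hi).2) (hm i hi)
  have h4 := PowStep2.one hs0 hs1 hz₀ h1
  have h5 := PowStep2.one hs0 hs1 he h2
  calc z ^ s = z ^ (s - 1) * z := e1.symm
    _ ≤ z ^ (s - 1) * (z₀ + ∑ i ∈ S, m i * T i + e) := mul_le_mul_of_nonneg_left h hzs.le
    _ = z ^ (s - 1) * z₀ + z ^ (s - 1) * ∑ i ∈ S, m i * T i + z ^ (s - 1) * e := by ring
    _ ≤ z₀ ^ s + ∑ i ∈ S, m i * T i ^ s + e ^ s := by linarith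

end

end Pool.Agent.IG
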