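import Pool.Agent.Lib.MP_daa227_pr_IG.SysG
import Pool.Agent.Lib.MP_daa227_pr_IO.Basic
import Pool.Agent.Lib.MP_daa227_pr_AZ.Lower

/-!
# MP_daa227_pr, general potentials: polynomial lower bounds
-/

namespace Pool.Agent.IG

open MeasureTheory ProbabilityTheory Finset Filter Topology
open MP_daa227_pr (Chain Zk Zf Gk Gf KU K0 Ren shift seqLaw ExpMom DepOn Good GoodW mom)
open Pool.Agent.AZ (Mod Kv lmg)
open Pool.Agent.IOrd (Sys aS cv)

noncomputable section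

/-- `aS x * aS y * aS r ≤ aS N` for `r = N - x - y` (`IOrd.aS_mul`) and
`aS r ≥ c (r + 1) ^ (-A) ≥ c (N + 1) ^ (-A)`. -/
theorem poly {w : ℕ} {μ : Measure ℝ} [IsProbabilityMeasure μ] {Z : ℝ → ℕ → (ℕ → ℝ) → ℝ}
    (hZ : Sys w μ Z) {s : ℝ} (hs0 : 0 ≤ s) (hs1 : s ≤ 1) {c A : ℝ} (hc : 0 < c) (hA : 0 ≤ A)
    (hL : Low μ Z s c A) {d : ℝ} (hd : 0 ≤ d) {x y N : ℕ} (h : x + y ≤ N) :
    aS μ Z s d x * aS μ Z s d y ≤ c⁻¹ * ((N : ℝ) + 1) ^ A * aS μ Z s d N := by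
  obtain ⟨r, rfl⟩ := Nat.exists_eq_add_of_le h
  have h0 : 0 ≤ aS μ Z s d x * aS μ Z s d y :=
    mul_nonneg (Pool.Agent.IOrd.aS_nonneg μ Z s d x) (Pool.Agent.IOrd.aS_nonneg μ Z s d y)
  have h1 : aS μ Z s d x * aS μ Z s d y ≤ aS μ Z s d (x + y) :=
    Pool.Agent.IOrd.aS_mul hZ hs0 hs1 d x y
  have h2 : aS μ Z s d (x + y) * aS μ Z s d r ≤ aS μ Z s d (x + y + r) :=
    Pool.Agent.IOrd.aS_mul hZ hs0 hs1 d (x + y) r
  have hr0 : (0 : ℝ) < (r : ℝ) + 1 := by positivity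
  have hN0 : (0 : ℝ) < ((x + y + r : ℕ) : ℝ) + 1 := by positivity
  have hrN : (r : ℝ) + 1 ≤ ((x + y + r : ℕ) : ℝ) + 1 := by
    have : (r : ℝ) ≤ ((x + y + r : ℕ) : ℝ) := by
      exact_mod_cast Nat.le_add_left r (x + y)
    linarith
  have h3 : c * (((x + y + r : ℕ) : ℝ) + 1) ^ (-A) ≤ aS μ Z s d r := by
    refine le_trans ?_ (hL d hd r)
    apply mul_le_mul_of_nonneg_left _ hc.le
    exact Real.rpow_le_rpow_of_nonpos hr0 hrN (by linarith)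
  have h4 : aS μ Z s d x * aS μ Z s d y * (c * (((x + y + r : ℕ) : ℝ) + 1) ^ (-A)) ≤
      aS μ Z s d (x + y + r) :=
    (mul_le_mul_of_nonneg_left h3 h0).trans
      ((mul_le_mul_of_nonneg_right h1 (Pool.Agent.IOrd.aS_nonneg μ Z s d r)).trans h2)
  have hP : (0 : ℝ) < (((x + y + r : ℕ) : ℝ) + 1) ^ A := Real.rpow_pos_of_pos hN0 A
  rw [Real.rpow_neg hN0.le] at h4
  have h5 := mul_le_mul_of_nonneg_left h4
    (show 0 ≤ c⁻¹ * (((x + y + r : ℕ) : ℝ) + 1) ^ A by positivity)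
  have h6 : c⁻¹ * (((x + y + r : ℕ) : ℝ) + 1) ^ A *
      (aS μ Z s d x * aS μ Z s d y * (c * ((((x + y + r : ℕ) : ℝ) + 1) ^ A)⁻¹)) =
      aS μ Z s d x * aS μ Z s d y := by
    field_simp
  rw [h6] at h5
  exact h5

/-- `Ψ h (2 n) ≥ Ψ η (2 n) ≥ log Kv (-η φ) (2 n)` for `η = max h 1` (`AZ.log_Kv_le_Ψ`,
`AZ.A2_Ψ_anti`) and `PolyCost`. -/
theorem psi_low (M : Mod) (hP : PolyCost M) (h : ℝ) : ∃ c A : ℝ, 0 < c ∧ 0 ≤ A ∧
    ∀ n : ℕ, 1 ≤ n → Real.log (c * (n : ℝ) ^ (-A)) ≤ M.Ψ h (2 * n) := by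
  obtain ⟨c, A, hc, hA, hK⟩ := hP (max h 1) (lt_max_of_lt_right one_pos)
  refine ⟨c, A, hc, hA, fun n hn => ?_⟩
  have hn0 : (0 : ℝ) < n := by exact_mod_cast hn
  have h1 : 0 < c * (n : ℝ) ^ (-A) := mul_pos hc (Real.rpow_pos_of_pos hn0 _)
  have h2 := Real.log_le_log h1 (hK n hn)
  have h3 := Pool.Agent.AZ.Lower.log_Kv_le_Ψ M (max h 1) (d := 2 * n) (even_two_mul n) (by omega)
  exact h2.trans (h3.trans (M.A2_Ψ_anti (le_max_left h 1) (even_two_mul n)))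

/-- the free energy is nonnegative: `psi_low` and `AZ.tendsto_Fr` (`log n / n → 0`) -/
theorem fr_nonneg (M : Mod) (hP : PolyCost M) (h : ℝ) : 0 ≤ M.Fr h := by
  obtain ⟨c, A, hc, hA, hK⟩ := psi_low M hP h
  have hcast : Tendsto (fun n : ℕ => (n : ℝ)) atTop atTop := tendsto_natCast_atTop_atTop
  have h1 : Tendsto (fun n : ℕ => Real.log (c * (n : ℝ) ^ (-A)) / ((2 * n : ℕ) : ℝ))
      atTop (𝓝 0) := by
    have h2 : Tendsto (fun n : ℕ => Real.log c / 2 * (1 / (n : ℝ)) -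
        A / 2 * (Real.log n / n)) atTop (𝓝 (Real.log c / 2 * 0 - A / 2 * 0)) := by
      refine Tendsto.sub ?_ ?_
      · exact (tendsto_one_div_atTop_nhds_zero_nat (𝕜 := ℝ)).const_mul _
      · exact (Pool.Agent.AZ.Lower.tendsto_log_div.comp hcast).const_mul _
    rw [mul_zero, mul_zero, sub_zero] at h2
    refine h2.congr' ?_
    filter_upwards [eventually_gt_atTop 0] with n hn
    have hn0 : (0 : ℝ) < n := by exact_mod_cast hn
    rw [Real.log_mul hc.ne' (Real.rpow_pos_of_pos hn0 _).ne', Real.log_rpow hn0]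
    push_cast
    field_simp
    ring
  refine le_of_tendsto_of_tendsto h1 (M.tendsto_Fr h) ?_
  filter_upwards [eventually_gt_atTop 0] with n hn
  have h6 : (0 : ℝ) < ((2 * n : ℕ) : ℝ) := by
    have : 0 < 2 * n := by omega
    exact_mod_cast this
  exact div_le_div_of_nonneg_right (hK n hn) h6.le

/-- `aS s d n ≥ aS s 0 n` (`IOrd.aS_mono`) `≥ exp (s Ψ hc (2 n))` (Jensen, `IOrd.aS_jensen`) and
`psi_low` at `h = hc`; `n = 0`: `aS = 1`. -/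
theorem aS_low (M : Mod) (hP : PolyCost M) (hc : ℝ) {s : ℝ} (hs0 : 0 < s) (hs1 : s ≤ 1) :
    ∃ c A : ℝ, 0 < c ∧ 0 ≤ A ∧ Low M.μ (Zg M hc) s c A := by
  obtain ⟨c, A, hc0, hA, hK⟩ := psi_low M hP hc
  have hS := sys M hc
  have hcs : 0 < c ^ s := Real.rpow_pos_of_pos hc0 s
  refine ⟨min (c ^ s) 1, A * s, lt_min hcs one_pos, mul_nonneg hA hs0.le, fun d hd n => ?_⟩
  rcases Nat.eq_zero_or_pos n with hn | hn
  · subst hn
    rw [Pool.Agent.IOrd.aS_zero hS]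
    simp
  · have hn0 : (0 : ℝ) < n := by exact_mod_cast hn
    have h1 := Pool.Agent.IOrd.aS_mono hS hs0.le hs1 hd n
    have h2 := Pool.Agent.IOrd.aS_jensen hS hs0.le hs1 0 n
    have h3 : ∫ ω, Real.log (Zg M hc 0 n ω) ∂seqLaw M.μ = M.Ψ hc (2 * n) := by
      unfold Zg Mod.Ψ
      rw [zero_div, sub_zero]
    rw [h3] at h2
    have h4 : (c * (n : ℝ) ^ (-A)) ^ s ≤ Real.exp (s * M.Ψ hc (2 * n)) := by
      have hp : 0 < c * (n : ℝ) ^ (-A) := mul_pos hc0 (Real.rpow_pos_of_pos hn0 _)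
      rw [Real.rpow_def_of_pos hp]
      apply Real.exp_le_exp.2
      rw [mul_comm]
      exact mul_le_mul_of_nonneg_left (hK n hn) hs0.le
    refine le_trans ?_ (h4.trans (h2.trans h1))
    rw [Real.mul_rpow hc0.le (Real.rpow_pos_of_pos hn0 _).le, ← Real.rpow_mul hn0.le]
    have h5 : ((n : ℝ) + 1) ^ (-(A * s)) ≤ (n : ℝ) ^ (-A * s) := by
      rw [neg_mul]
      exact Real.rpow_le_rpow_of_nonpos hn0 (by linarith) (by
        have := mul_nonneg hA hs0.le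
        linarith)
    exact mul_le_mul (min_le_left _ _) h5 (Real.rpow_pos_of_pos (by positivity) _).le hcs.le

end

end Pool.Agent.IG
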