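import Pool.Agent.Lib.MP_daa227_pr_IG.Bridge

/-!
# MP_daa227_pr, general potentials: sums of extended sequences
-/

namespace Pool.Agent.IG

open MeasureTheory ProbabilityTheory Finset Filter Topology
open MP_daa227_pr (Chain Zk Zf Gk Gf KU K0 Ren shift seqLaw ExpMom DepOn Good GoodW mom)
open Pool.Agent.AZ (Mod Kv lmg)
open Pool.Agent.IOrd (Sys aS cv)

noncomputable section

theorem ext_nonneg {u : ℕ → ℝ} (hu : ∀ n, 0 ≤ u n) (m : ℕ) (v : ℤ) : 0 ≤ ext u m v := by
  unfold ext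
  split_ifs
  · exact hu _
  · exact le_rfl

namespace Sums

theorem core {F : ℕ → ℝ} (hF : ∀ x, 0 ≤ F x) (s : Finset ℕ) (φ : ℕ → ℕ) (k B : ℕ)
    (hinj : ∀ a ∈ s, ∀ b ∈ s, φ a = φ b → a = b) (hB : ∀ t ∈ s, (φ t + k) / 2 < B) :
    ∑ t ∈ s, (if Even (φ t + k) then F ((φ t + k) / 2) else 0) ≤ ∑ x ∈ range B, F x := by
  rw [← Finset.sum_filter]
  have hi : ∀ a ∈ s.filter (fun t => Even (φ t + k)), ∀ b ∈ s.filter (fun t => Even (φ t + k)),
      (φ a + k) / 2 = (φ b + k) / 2 → a = b := by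
    intro a ha b hb hab
    rw [Finset.mem_filter] at ha hb
    obtain ⟨ha1, ha2⟩ := ha
    obtain ⟨hb1, hb2⟩ := hb
    apply hinj a ha1 b hb1
    obtain ⟨p, hp⟩ := ha2
    obtain ⟨q, hq⟩ := hb2
    omega
  rw [← Finset.sum_image (f := F) (g := fun t => (φ t + k) / 2) (by
    intro a ha b hb hab
    exact hi a ha b hb hab)]
  apply Finset.sum_le_sum_of_subset_of_nonneg
  · intro x hx
    rw [Finset.mem_image] at hx
    obtain ⟨t, ht, rfl⟩ := hx
    rw [Finset.mem_filter] at ht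
    exact Finset.mem_range.2 (hB t ht.1)
  · intro x _ _
    exact hF x

theorem abs_le {R : ℕ} {v : ℤ} (hv : v ∈ box R) : v.natAbs ≤ R := by
  rw [box, Finset.mem_Icc] at hv
  omega

theorem card_box (R : ℕ) : ((box R).card : ℝ) = 2 * R + 1 := by
  have h : (box R).card = 2 * R + 1 := by
    rw [box, Int.card_Icc]
    omega
  rw [h]
  push_cast
  ring

end Sums

/-- For fixed `v` with `k = |v| ≤ R` the nonzero terms have `r = 2 x - k`, `x ≤ n + k`, and
`2 n - r + k = 2 (n + k - x)`, so the sum over `r` is at most `cv u (n + k)` (injective in `r`). Take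
`n'` = the maximiser of `cv u (n + k)`, `k ≤ R`; the box has `2 R + 1` points. -/
theorem conv_sum {u : ℕ → ℝ} (hu : ∀ n, 0 ≤ u n) (n R : ℕ) :
    ∃ n' ≤ n + R, ∑ r ∈ range (2 * n), ∑ v ∈ box R, ext u r v * ext u (2 * n - r) v ≤
      (2 * R + 1) * cv u n' := by
  obtain ⟨k0, hk0, hmax⟩ := Finset.exists_max_image (range (R + 1)) (fun k => cv u (n + k))
    ⟨0, by simp⟩
  refine ⟨n + k0, by rw [Finset.mem_range] at hk0; omega, ?_⟩
  rw [Finset.sum_comm]
  have h1 : ∀ v ∈ box R, ∑ r ∈ range (2 * n), ext u r v * ext u (2 * n - r) v ≤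
      cv u (n + k0) := by
    intro v hv
    have hk : v.natAbs ≤ R := Sums.abs_le hv
    set k := v.natAbs with hkdef
    have h2 : ∑ r ∈ range (2 * n), ext u r v * ext u (2 * n - r) v =
        ∑ r ∈ range (2 * n), (if Even (r + k) then
          (fun x => u x * u (n + k - x)) ((r + k) / 2) else 0) := by
      apply Finset.sum_congr rfl
      intro r hr
      rw [Finset.mem_range] at hr
      unfold ext
      by_cases he : Even (r + k)
      · have he2 : Even (2 * n - r + k) := by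
          obtain ⟨p, hp⟩ := he
          exact ⟨n + k - p, by omega⟩
        have he3 : (2 * n - r + k) / 2 = n + k - (r + k) / 2 := by
          obtain ⟨p, hp⟩ := he
          omega
        rw [if_pos he, if_pos he, if_pos he2, he3]
      · rw [if_neg he, if_neg he, zero_mul]
    rw [h2]
    refine le_trans (Sums.core (F := fun x => u x * u (n + k - x))
      (fun x => mul_nonneg (hu _) (hu _)) (range (2 * n)) (fun r => r) k (n + k + 1)
      (fun a _ b _ h => h) ?_) ?_
    · intro t ht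
      rw [Finset.mem_range] at ht
      show (t + k) / 2 < n + k + 1
      omega
    · exact hmax k (Finset.mem_range.2 (by omega))
  refine le_trans (Finset.sum_le_sum h1) ?_
  rw [Finset.sum_const, nsmul_eq_mul, Sums.card_box]

/-- For `r < t ≤ 2 n`, `|u|, |v| ≤ R`: `(r + |u|) / 2 + (2 n - t + |v|) / 2 ≤ n + R`. -/
theorem tail_sum {u : ℕ → ℝ} (hu : ∀ n, 0 ≤ u n) (n R : ℕ) {D : ℝ}
    (hD : ∀ x y, x + y ≤ n + R → u x * u y ≤ D) (hD0 : 0 ≤ D) :
    ∑ r ∈ range (2 * n), ∑ t ∈ Finset.Ioc r (2 * n), ∑ a ∈ box R, ∑ b ∈ box R,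
      ext u r a * ext u (2 * n - t) b ≤ (2 * n) ^ 2 * (2 * R + 1) ^ 2 * D := by
  have h1 : ∀ r ∈ range (2 * n), ∀ t ∈ Finset.Ioc r (2 * n), ∀ a ∈ box R, ∀ b ∈ box R,
      ext u r a * ext u (2 * n - t) b ≤ D := by
    intro r hr t ht a ha b hb
    rw [Finset.mem_range] at hr
    rw [Finset.mem_Ioc] at ht
    have ha' := Sums.abs_le ha
    have hb' := Sums.abs_le hb
    unfold ext
    split_ifs
    · apply hD
      omega
    · simpa using hD0
    · simpa using hD0
    · simpa using hD0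
  have h2 : ∀ r ∈ range (2 * n), ∀ t ∈ Finset.Ioc r (2 * n), ∑ a ∈ box R, ∑ b ∈ box R,
      ext u r a * ext u (2 * n - t) b ≤ (2 * R + 1) ^ 2 * D := by
    intro r hr t ht
    refine le_trans (Finset.sum_le_sum (g := fun _ => (2 * R + 1) * D) ?_) ?_
    · intro a ha
      refine le_trans (Finset.sum_le_sum (g := fun _ => D) (fun b hb => h1 r hr t ht a ha b hb)) ?_
      rw [Finset.sum_const, nsmul_eq_mul, Sums.card_box]
    · rw [Finset.sum_const, nsmul_eq_mul, Sums.card_box]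
      apply le_of_eq
      ring
  have hc : (0 : ℝ) ≤ (2 * R + 1) ^ 2 * D := by positivity
  have h3 : ∀ r ∈ range (2 * n), ∑ t ∈ Finset.Ioc r (2 * n), ∑ a ∈ box R, ∑ b ∈ box R,
      ext u r a * ext u (2 * n - t) b ≤ (2 * n) * ((2 * R + 1) ^ 2 * D) := by
    intro r hr
    refine le_trans (Finset.sum_le_sum (g := fun _ => (2 * R + 1) ^ 2 * D)
      (fun t ht => h2 r hr t ht)) ?_
    rw [Finset.sum_const, nsmul_eq_mul]
    apply mul_le_mul_of_nonneg_right _ hc
    rw [Nat.card_Ioc]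
    have : ((2 * n - r : ℕ) : ℝ) ≤ ((2 * n : ℕ) : ℝ) := by
      exact_mod_cast Nat.sub_le _ _
    push_cast at this
    exact this
  refine le_trans (Finset.sum_le_sum (g := fun _ => (2 * n) * ((2 * R + 1) ^ 2 * D)) h3) ?_
  rw [Finset.sum_const, nsmul_eq_mul, Finset.card_range]
  push_cast
  apply le_of_eq
  ring

/-- injective in `t` for fixed `v`; `(t + |v|) / 2 ≤ m + R` -/
theorem left_sum {u : ℕ → ℝ} (hu : ∀ n, 0 ≤ u n) (m R : ℕ) :
    ∑ t ∈ range (2 * m + 1), ∑ v ∈ box R, ext u t v ≤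
      (2 * R + 1) * ∑ f ∈ range (m + R + 1), u f := by
  rw [Finset.sum_comm]
  refine le_trans (Finset.sum_le_sum (g := fun _ => ∑ f ∈ range (m + R + 1), u f) ?_) ?_
  · intro v hv
    have hk : v.natAbs ≤ R := Sums.abs_le hv
    refine Sums.core hu (range (2 * m + 1)) (fun r => r) v.natAbs (m + R + 1)
      (fun a _ b _ h => h) ?_
    intro t ht
    rw [Finset.mem_range] at ht
    show (t + v.natAbs) / 2 < m + R + 1
    omega
  · rw [Finset.sum_const, nsmul_eq_mul, Sums.card_box]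

/-- `2 N - r ≤ 2 (N - m) - 1`, so `(2 N - r + |v|) / 2 ≤ N - m + R - 1` for `R ≥ 1` -/
theorem right_sum {u : ℕ → ℝ} (hu : ∀ n, 0 ≤ u n) {m N R : ℕ} (hm : m < N) (hR : 1 ≤ R) :
    ∑ r ∈ Finset.Ioc (2 * m) (2 * N), ∑ v ∈ box R, ext u (2 * N - r) v ≤
      (2 * R + 1) * ∑ j ∈ range (N - m + R), u j := by
  rw [Finset.sum_comm]
  refine le_trans (Finset.sum_le_sum (g := fun _ => ∑ j ∈ range (N - m + R), u j) ?_) ?_
  · intro v hv
    have hk : v.natAbs ≤ R := Sums.abs_le hv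
    refine Sums.core hu (Finset.Ioc (2 * m) (2 * N)) (fun r => 2 * N - r) v.natAbs (N - m + R)
      ?_ ?_
    · intro a ha b hb h
      rw [Finset.mem_Ioc] at ha hb
      omega
    · intro t ht
      rw [Finset.mem_Ioc] at ht
      show (2 * N - t + v.natAbs) / 2 < N - m + R
      omega
  · rw [Finset.sum_const, nsmul_eq_mul, Sums.card_box]

end

end Pool.Agent.IG
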