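import Pool.Agent.Lib.MP_daa227_pr_IG.MomStr
import Pool.Agent.Lib.MP_daa227_pr_IG.MomDer
import Pool.Agent.Lib.MP_daa227_pr_IG.Sums
import Pool.Agent.Lib.MP_daa227_pr_IG.Poly

/-!
# MP_daa227_pr, general potentials: the two bounds
-/

namespace Pool.Agent.IG

open MeasureTheory ProbabilityTheory Finset Filter Topology
open MP_daa227_pr (Chain Zk Zf Gk Gf KU K0 Ren shift seqLaw ExpMom DepOn Good GoodW mom)
open Pool.Agent.AZ (Mod Kv lmg)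
open Pool.Agent.IOrd (Sys aS cv)

noncomputable section

namespace BdsG

/-- a triple product -/
theorem triple {x y z a b k C : ℝ} (hy : 0 ≤ y) (hz : 0 ≤ z) (hC : 0 ≤ C) (ha : 0 ≤ a)
    (h1 : x ≤ C * a) (h2 : y ≤ k) (h3 : z ≤ C * b) : x * y * z ≤ C * C * k * (a * b) := by
  have e1 : x * y ≤ C * a * k := mul_le_mul h1 h2 hy (mul_nonneg hC ha)
  have hk : 0 ≤ k := hy.trans h2
  have e2 : x * y * z ≤ C * a * k * (C * b) :=
    mul_le_mul e1 h3 hz (mul_nonneg (mul_nonneg hC ha) hk)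
  refine e2.trans (le_of_eq ?_)
  ring

/-- the distance is at most `c` -/
theorem dist_le (M : Mod) {d c : ℝ} (h : d ≤ c * M.Φ) : d / M.Φ ≤ c :=
  (div_le_iff₀ M.Φ_pos).2 h

/-- the power of `N` -/
theorem pow_err {N : ℕ} (hN : 2 ≤ N) {c s A' : ℝ} (hc : 0 < c) (hs : 0 < s) {δ : ℝ}
    (hδ : 0 ≤ δ) (hδc : δ ≤ c) :
    (δ * (c⁻¹ * Real.exp (-(c * ((A' + 3) * Real.log N / (c * s)))))) ^ s ≤
      (N : ℝ) ^ (-(A' + 3)) := by
  have hN0 : (0 : ℝ) < N := by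
    have : (0 : ℕ) < N := by omega
    exact_mod_cast this
  have h1 : δ * (c⁻¹ * Real.exp (-(c * ((A' + 3) * Real.log N / (c * s))))) ≤
      Real.exp (-(c * ((A' + 3) * Real.log N / (c * s)))) := by
    rw [← mul_assoc]
    have h2 : δ * c⁻¹ ≤ 1 := by
      rw [mul_inv_le_iff₀ hc, one_mul]
      exact hδc
    exact (mul_le_mul_of_nonneg_right h2 (Real.exp_pos _).le).trans (one_mul _).le
  have h0 : 0 ≤ δ * (c⁻¹ * Real.exp (-(c * ((A' + 3) * Real.log N / (c * s))))) := by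
    positivity
  refine (Real.rpow_le_rpow h0 h1 hs.le).trans (le_of_eq ?_)
  rw [Real.rpow_def_of_pos hN0, ← Real.exp_mul]
  congr 1
  field_simp

/-- the error term -/
theorem err {n N R : ℕ} (hn : n ≤ N) (hN : 2 ≤ N) {A' : ℝ} (hA' : 0 ≤ A') :
    (N : ℝ) ^ (-(A' + 3)) * ((2 * n) ^ 2 * (((n + R : ℕ) : ℝ) + 1) ^ A') ≤
      4 * ((R : ℝ) + 2) ^ A' / N := by
  have hN0 : (0 : ℝ) < N := by
    have : (0 : ℕ) < N := by omega
    exact_mod_cast this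
  have hN1 : (1 : ℝ) ≤ N := by
    have : (1 : ℕ) ≤ N := by omega
    exact_mod_cast this
  have hnN : (n : ℝ) ≤ N := by exact_mod_cast hn
  have hR0 : (0 : ℝ) ≤ R := Nat.cast_nonneg R
  have hn0 : (0 : ℝ) ≤ n := Nat.cast_nonneg n
  have h1 : ((n + R : ℕ) : ℝ) + 1 ≤ ((R : ℝ) + 2) * N := by
    push_cast
    nlinarith
  have h2 : (((n + R : ℕ) : ℝ) + 1) ^ A' ≤ ((R : ℝ) + 2) ^ A' * (N : ℝ) ^ A' := by
    rw [← Real.mul_rpow (by positivity) hN0.le]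
    exact Real.rpow_le_rpow (by positivity) h1 hA'
  have h3 : (2 * (n : ℝ)) ^ 2 ≤ 4 * (N : ℝ) ^ 2 := by nlinarith
  have h4 : (2 * (n : ℝ)) ^ 2 * (((n + R : ℕ) : ℝ) + 1) ^ A' ≤
      4 * (N : ℝ) ^ 2 * (((R : ℝ) + 2) ^ A' * (N : ℝ) ^ A') :=
    mul_le_mul h3 h2 (by positivity) (by positivity)
  refine (mul_le_mul_of_nonneg_left h4 (by positivity)).trans (le_of_eq ?_)
  have h5 : (N : ℝ) ^ (-(A' + 3)) = ((N : ℝ) ^ A')⁻¹ * ((N : ℝ) ^ 3)⁻¹ := by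
    rw [Real.rpow_neg hN0.le, Real.rpow_add hN0, mul_inv]
    norm_num
  have h6 : (N : ℝ) ^ A' ≠ 0 := (Real.rpow_pos_of_pos hN0 _).ne'
  rw [h5]
  field_simp

end BdsG

/-- The second bound: `mom_str` with `T = 2 m`, `Exc`, `bridge`, `left_sum`, `right_sum`. -/
theorem bound_two (M : Mod) {s : ℝ} (hs0 : 0 < s) (hs1 : s ≤ 1) {hc : ℝ} {R : ℕ} (hR : 1 ≤ R)
    {c K : ℝ} (hc0 : 0 < c) (hK : 0 ≤ K) (hE : Exc M s hc R c K) :
    ∃ C : ℝ, 1 ≤ C ∧ ∀ d, 0 ≤ d → d ≤ c * M.Φ → ∀ m N, m < N → aS M.μ (Zg M hc) s d N ≤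
      C * (∑ f ∈ range (m + R + 1), aS M.μ (Zg M hc) s d f) *
        ∑ j ∈ range (N - m + R), aS M.μ (Zg M hc) s d j := by
  obtain ⟨Cb, hCb, hb⟩ := bridge M hs0 hs1 hc R
  have hCb0 : 0 ≤ Cb := by linarith
  have hC2 : 0 ≤ Cb * Cb * K * ((2 * R + 1) * (2 * R + 1)) := by positivity
  refine ⟨1 + Cb * Cb * K * ((2 * R + 1) * (2 * R + 1)), by linarith,
    fun d hd hdd m N hm => ?_⟩
  have hu : ∀ n, 0 ≤ aS M.μ (Zg M hc) s d n := fun n => ENNReal.toReal_nonneg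
  have hδ : d / M.Φ ≤ c := BdsG.dist_le M hdd
  have h0 : (0 : ℤ) ∈ box R := by
    rw [box, Finset.mem_Icc]
    omega
  have h1 := mom_str M hs0 hs1 (hc - d / M.Φ) R (T := 2 * m) (N := 2 * N) (by omega) h0 h0
  rw [mZ_aS] at h1
  have h2 : ∑ t ∈ range (2 * m + 1), ∑ r ∈ Finset.Ioc (2 * m) (2 * N), ∑ u ∈ box R,
      ∑ v ∈ box R, mZ M s (hc - d / M.Φ) t 0 u * mG M R s (hc - d / M.Φ) (r - t) u v *
        mZ M s (hc - d / M.Φ) (2 * N - r) v 0 ≤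
      ∑ t ∈ range (2 * m + 1), ∑ r ∈ Finset.Ioc (2 * m) (2 * N), ∑ u ∈ box R,
      ∑ v ∈ box R, Cb * Cb * K * (ext (aS M.μ (Zg M hc) s d) t u *
        ext (aS M.μ (Zg M hc) s d) (2 * N - r) v) := by
    refine Finset.sum_le_sum fun t _ => Finset.sum_le_sum fun r _ =>
      Finset.sum_le_sum fun u hu' => Finset.sum_le_sum fun v hv => ?_
    exact BdsG.triple (mG_nonneg _ _ _ _ _ _ _) (mZ_nonneg _ _ _ _ _ _) hCb0
      (ext_nonneg hu t u) (hb d hd t u hu').1 (hE _ (by linarith) (r - t) u hu' v hv)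
      (hb d hd (2 * N - r) v hv).2
  have h3 : ∑ t ∈ range (2 * m + 1), ∑ r ∈ Finset.Ioc (2 * m) (2 * N), ∑ u ∈ box R,
      ∑ v ∈ box R, Cb * Cb * K * (ext (aS M.μ (Zg M hc) s d) t u *
        ext (aS M.μ (Zg M hc) s d) (2 * N - r) v) =
      Cb * Cb * K * ((∑ t ∈ range (2 * m + 1), ∑ u ∈ box R, ext (aS M.μ (Zg M hc) s d) t u) *
        ∑ r ∈ Finset.Ioc (2 * m) (2 * N), ∑ v ∈ box R,
          ext (aS M.μ (Zg M hc) s d) (2 * N - r) v) := by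
    rw [Finset.sum_mul, Finset.mul_sum]
    refine Finset.sum_congr rfl fun t _ => ?_
    rw [Finset.mul_sum, Finset.mul_sum]
    refine Finset.sum_congr rfl fun r _ => ?_
    rw [Finset.sum_mul, Finset.mul_sum]
    refine Finset.sum_congr rfl fun u _ => ?_
    rw [Finset.mul_sum, Finset.mul_sum]
  have h4 := left_sum hu m R
  have h5 := right_sum hu hm hR
  have h6 : 0 ≤ ∑ r ∈ Finset.Ioc (2 * m) (2 * N), ∑ v ∈ box R,
      ext (aS M.μ (Zg M hc) s d) (2 * N - r) v :=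
    Finset.sum_nonneg fun r _ => Finset.sum_nonneg fun v _ => ext_nonneg hu _ _
  have e1 : 0 ≤ ∑ f ∈ range (m + R + 1), aS M.μ (Zg M hc) s d f :=
    Finset.sum_nonneg fun _ _ => hu _
  have e2 : 0 ≤ ∑ j ∈ range (N - m + R), aS M.μ (Zg M hc) s d j :=
    Finset.sum_nonneg fun _ _ => hu _
  have h7 := mul_le_mul h4 h5 h6 (by positivity)
  have h8 := mul_le_mul_of_nonneg_left h7 (show 0 ≤ Cb * Cb * K by positivity)
  refine (h1.trans (h2.trans_eq h3)).trans (h8.trans ?_)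
  have h9 := mul_nonneg e1 e2
  nlinarith

/-- The first bound: `mom_der` with `h = hc`, `δ = d / Φ`, `c / 2` in place of `c` (`d ≤ c Φ / 2`, so
that `hc - δ - c / 2 ≥ hc - c`), `a = (A' + 3) log N / ((c / 2) s)` with the exponent `A'` of `Low`;
`bridge`, `conv_sum`, `tail_sum` with `D = c'⁻¹ (n + R + 1) ^ A' * A` (`poly` with `N = n + R`),
`exp (-(c / 2) a s) = N ^ (-(A' + 3))`, `(δ (c/2)⁻¹) ^ s ≤ 1 ` for `d` small (take also
`d₀ ≤ c Φ / 2`), `n + R + 1 ≤ (R + 2) N`. -/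
theorem bound_one (M : Mod) {s : ℝ} (hs0 : 0 < s) (hs1 : s ≤ 1) {hc : ℝ} {R : ℕ} (hR : 1 ≤ R)
    {c K : ℝ} (hc0 : 0 < c) (hK : 0 ≤ K) (hE : Exc M s hc R c K) {c' A' : ℝ} (hc' : 0 < c')
    (hA' : 0 ≤ A') (hL : Low M.μ (Zg M hc) s c' A') :
    ∃ C : ℝ, 1 ≤ C ∧ ∀ d, 0 ≤ d → d ≤ c * M.Φ / 2 →
      ∀ n N : ℕ, n ≤ N → 2 ≤ N → ∀ A : ℝ, (∀ i ≤ n + R, aS M.μ (Zg M hc) s d i ≤ A) →
        ∃ n' ≤ n + R, aS M.μ (Zg M hc) s d n ≤ aS M.μ (Zg M hc) s 0 n +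
          d * (C * Real.log N) * cv (aS M.μ (Zg M hc) s d) n' + C * A / N := by
  obtain ⟨Cb, hCb, hb⟩ := bridge M hs0 hs1 hc R
  have hCb0 : 0 ≤ Cb := by linarith
  have hΦ := M.Φ_pos
  set C1 : ℝ := (M.Φ)⁻¹ * ((A' + 3) / (c / 2 * s)) * (Cb * Cb * (2 * R + 1)) with hC1
  set C2 : ℝ := Cb * Cb * K * ((2 * R + 1) ^ 2 * c'⁻¹) * (4 * ((R : ℝ) + 2) ^ A') with hC2
  have hC10 : 0 ≤ C1 := by positivity
  have hC20 : 0 ≤ C2 := by positivity
  refine ⟨1 + C1 + C2, by linarith, fun d hd hdd n N hn hN A hA => ?_⟩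
  have hu : ∀ n, 0 ≤ aS M.μ (Zg M hc) s d n := fun n => ENNReal.toReal_nonneg
  have hA0 : 0 ≤ A := (hu 0).trans (hA 0 (Nat.zero_le _))
  have hδ0 : 0 ≤ d / M.Φ := div_nonneg hd hΦ.le
  have hδ : d / M.Φ ≤ c / 2 := BdsG.dist_le M (by linarith)
  have hN0 : (0 : ℝ) < N := by
    have : (0 : ℕ) < N := by omega
    exact_mod_cast this
  have hN1 : (1 : ℝ) ≤ N := by
    have : (1 : ℕ) ≤ N := by omega
    exact_mod_cast this
  have hlog : 0 ≤ Real.log N := Real.log_nonneg hN1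
  have ha : 0 ≤ (A' + 3) * Real.log N / (c / 2 * s) := by positivity
  obtain ⟨n', hn', hconv⟩ := conv_sum hu n R
  refine ⟨n', hn', ?_⟩
  have hcv : 0 ≤ cv (aS M.μ (Zg M hc) s d) n' :=
    Finset.sum_nonneg fun x _ => mul_nonneg (hu _) (hu _)
  have h1 := mom_der M hs0 hs1 R (h := hc) hδ0 ha (half_pos hc0) n
  rw [mZ_aS] at h1
  have h1' : mZ M s hc (2 * n) 0 0 = aS M.μ (Zg M hc) s 0 n := by
    have h := mZ_aS M s hc 0 n
    rwa [zero_div, sub_zero] at h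
  rw [h1'] at h1
  -- the main term
  have h2 : ∑ r ∈ range (2 * n), ∑ v ∈ box R,
      mZ M s (hc - d / M.Φ) r 0 v * mZ M s (hc - d / M.Φ) (2 * n - r) v 0 ≤
      Cb * Cb * (2 * R + 1) * cv (aS M.μ (Zg M hc) s d) n' := by
    have e1 : ∑ r ∈ range (2 * n), ∑ v ∈ box R,
        mZ M s (hc - d / M.Φ) r 0 v * mZ M s (hc - d / M.Φ) (2 * n - r) v 0 ≤
        ∑ r ∈ range (2 * n), ∑ v ∈ box R, Cb * Cb * (ext (aS M.μ (Zg M hc) s d) r v *
          ext (aS M.μ (Zg M hc) s d) (2 * n - r) v) := by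
      refine Finset.sum_le_sum fun r _ => Finset.sum_le_sum fun v hv => ?_
      have h := mul_le_mul (hb d hd r v hv).1 (hb d hd (2 * n - r) v hv).2
        (mZ_nonneg _ _ _ _ _ _) (mul_nonneg hCb0 (ext_nonneg hu r v))
      refine h.trans (le_of_eq ?_)
      ring
    have e2 : ∑ r ∈ range (2 * n), ∑ v ∈ box R, Cb * Cb * (ext (aS M.μ (Zg M hc) s d) r v *
          ext (aS M.μ (Zg M hc) s d) (2 * n - r) v) =
        Cb * Cb * ∑ r ∈ range (2 * n), ∑ v ∈ box R, ext (aS M.μ (Zg M hc) s d) r v *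
          ext (aS M.μ (Zg M hc) s d) (2 * n - r) v := by
      rw [Finset.mul_sum]
      exact Finset.sum_congr rfl fun r _ => by rw [Finset.mul_sum]
    refine (e1.trans_eq e2).trans ((mul_le_mul_of_nonneg_left hconv (by positivity)).trans
      (le_of_eq ?_))
    ring
  -- the error term
  have hD : ∀ x y, x + y ≤ n + R → aS M.μ (Zg M hc) s d x * aS M.μ (Zg M hc) s d y ≤
      c'⁻¹ * (((n + R : ℕ) : ℝ) + 1) ^ A' * A := fun x y hxy =>
    (poly (sys M hc) hs0.le hs1 hc' hA' hL hd hxy).trans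
      (mul_le_mul_of_nonneg_left (hA _ le_rfl) (by positivity))
  have h3 : ∑ r ∈ range (2 * n), ∑ t ∈ Finset.Ioc r (2 * n), ∑ u ∈ box R, ∑ v ∈ box R,
      mZ M s (hc - d / M.Φ) r 0 u * mG M R s (hc - d / M.Φ - c / 2) (t - r) u v *
        mZ M s (hc - d / M.Φ) (2 * n - t) v 0 ≤
      Cb * Cb * K * ((2 * n) ^ 2 * (2 * R + 1) ^ 2 *
        (c'⁻¹ * (((n + R : ℕ) : ℝ) + 1) ^ A' * A)) := by
    have e1 : ∑ r ∈ range (2 * n), ∑ t ∈ Finset.Ioc r (2 * n), ∑ u ∈ box R, ∑ v ∈ box R,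
        mZ M s (hc - d / M.Φ) r 0 u * mG M R s (hc - d / M.Φ - c / 2) (t - r) u v *
          mZ M s (hc - d / M.Φ) (2 * n - t) v 0 ≤
        ∑ r ∈ range (2 * n), ∑ t ∈ Finset.Ioc r (2 * n), ∑ u ∈ box R, ∑ v ∈ box R,
          Cb * Cb * K * (ext (aS M.μ (Zg M hc) s d) r u *
            ext (aS M.μ (Zg M hc) s d) (2 * n - t) v) := by
      refine Finset.sum_le_sum fun r _ => Finset.sum_le_sum fun t _ =>
        Finset.sum_le_sum fun u hu' => Finset.sum_le_sum fun v hv => ?_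
      exact BdsG.triple (mG_nonneg _ _ _ _ _ _ _) (mZ_nonneg _ _ _ _ _ _) hCb0
        (ext_nonneg hu r u) (hb d hd r u hu').1 (hE _ (by linarith) (t - r) u hu' v hv)
        (hb d hd (2 * n - t) v hv).2
    have e2 : ∑ r ∈ range (2 * n), ∑ t ∈ Finset.Ioc r (2 * n), ∑ u ∈ box R, ∑ v ∈ box R,
          Cb * Cb * K * (ext (aS M.μ (Zg M hc) s d) r u *
            ext (aS M.μ (Zg M hc) s d) (2 * n - t) v) =
        Cb * Cb * K * ∑ r ∈ range (2 * n), ∑ t ∈ Finset.Ioc r (2 * n), ∑ u ∈ box R,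
          ∑ v ∈ box R, ext (aS M.μ (Zg M hc) s d) r u *
            ext (aS M.μ (Zg M hc) s d) (2 * n - t) v := by
      rw [Finset.mul_sum]
      refine Finset.sum_congr rfl fun r _ => ?_
      rw [Finset.mul_sum]
      refine Finset.sum_congr rfl fun t _ => ?_
      rw [Finset.mul_sum]
      refine Finset.sum_congr rfl fun u _ => ?_
      rw [Finset.mul_sum]
    exact (e1.trans_eq e2).trans (mul_le_mul_of_nonneg_left
      (tail_sum hu n R hD (by positivity)) (by positivity))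
  have h3' : 0 ≤ ∑ r ∈ range (2 * n), ∑ t ∈ Finset.Ioc r (2 * n), ∑ u ∈ box R, ∑ v ∈ box R,
      mZ M s (hc - d / M.Φ) r 0 u * mG M R s (hc - d / M.Φ - c / 2) (t - r) u v *
        mZ M s (hc - d / M.Φ) (2 * n - t) v 0 :=
    Finset.sum_nonneg fun r _ => Finset.sum_nonneg fun t _ => Finset.sum_nonneg fun u _ =>
      Finset.sum_nonneg fun v _ => mul_nonneg (mul_nonneg (mZ_nonneg _ _ _ _ _ _)
        (mG_nonneg _ _ _ _ _ _ _)) (mZ_nonneg _ _ _ _ _ _)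
  have h4 := BdsG.pow_err hN (c := c / 2) (s := s) (A' := A') (half_pos hc0) hs0 hδ0 hδ
  have h5 := mul_le_mul h4 h3 h3' (by positivity)
  have h6 := BdsG.err (R := R) hn hN hA'
  have h7 : (N : ℝ) ^ (-(A' + 3)) * (Cb * Cb * K * ((2 * n) ^ 2 * (2 * R + 1) ^ 2 *
        (c'⁻¹ * (((n + R : ℕ) : ℝ) + 1) ^ A' * A))) ≤ C2 * A / N := by
    have e := mul_le_mul_of_nonneg_left h6
      (show 0 ≤ Cb * Cb * K * ((2 * R + 1) ^ 2 * c'⁻¹) * A by positivity)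
    refine le_trans (le_of_eq ?_) (e.trans (le_of_eq ?_))
    · ring
    · rw [hC2]
      ring
  have h8 := mul_le_mul_of_nonneg_left h2
    (show 0 ≤ d / M.Φ * ((A' + 3) * Real.log N / (c / 2 * s)) by positivity)
  have h9 : d / M.Φ * ((A' + 3) * Real.log N / (c / 2 * s)) *
      (Cb * Cb * (2 * R + 1) * cv (aS M.μ (Zg M hc) s d) n') =
      d * (C1 * Real.log N) * cv (aS M.μ (Zg M hc) s d) n' := by
    rw [hC1]
    ring
  rw [h9] at h8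
  have h10 := h5.trans h7
  refine h1.trans ?_
  have h11 : d * (C1 * Real.log N) * cv (aS M.μ (Zg M hc) s d) n' ≤
      d * ((1 + C1 + C2) * Real.log N) * cv (aS M.μ (Zg M hc) s d) n' := by
    have : C1 ≤ 1 + C1 + C2 := by linarith
    gcongr
  have h12 : C2 * A / N ≤ (1 + C1 + C2) * A / N := by
    have : C2 ≤ 1 + C1 + C2 := by linarith
    gcongr
  linarith

theorem bdp (M : Mod) {s : ℝ} (hs0 : 0 < s) (hs1 : s ≤ 1) {hc : ℝ} {R : ℕ} (hR : 1 ≤ R)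
    {c K : ℝ} (hc0 : 0 < c) (hK : 0 ≤ K) (hE : Exc M s hc R c K) {c' A' : ℝ} (hc' : 0 < c')
    (hA' : 0 ≤ A') (hL : Low M.μ (Zg M hc) s c' A') : Bdp M.μ (Zg M hc) s := by
  obtain ⟨C₁, hC₁, h1⟩ := bound_one M hs0 hs1 hR hc0 hK hE hc' hA' hL
  obtain ⟨C₂, hC₂, h2⟩ := bound_two M hs0 hs1 hR hc0 hK hE
  have hΦ := M.Φ_pos
  have ha : ∀ d n, 0 ≤ aS M.μ (Zg M hc) s d n := fun d n => ENNReal.toReal_nonneg
  refine ⟨c * M.Φ / 2, max C₁ C₂, R, by positivity, hC₁.trans (le_max_left _ _),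
    fun d hd hdd => ⟨fun n N hn hN A hA => ?_, fun m N hm => ?_⟩⟩
  · obtain ⟨n', hn', h3⟩ := h1 d hd hdd n N hn hN A hA
    refine ⟨n', hn', h3.trans ?_⟩
    have hN0 : (1 : ℝ) ≤ N := by exact_mod_cast (show 1 ≤ N by omega)
    have hlog : 0 ≤ Real.log N := Real.log_nonneg hN0
    have hcv : 0 ≤ cv (aS M.μ (Zg M hc) s d) n' :=
      Finset.sum_nonneg fun x _ => mul_nonneg (ha _ _) (ha _ _)
    have hA0 : 0 ≤ A := (ha d 0).trans (hA 0 (Nat.zero_le _))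
    have hm1 : C₁ ≤ max C₁ C₂ := le_max_left _ _
    gcongr
  · refine (h2 d hd (by nlinarith) m N hm).trans ?_
    have hm2 : C₂ ≤ max C₁ C₂ := le_max_right _ _
    have e1 : 0 ≤ ∑ f ∈ range (m + R + 1), aS M.μ (Zg M hc) s d f :=
      Finset.sum_nonneg fun _ _ => ha _ _
    have e2 : 0 ≤ ∑ j ∈ range (N - m + R), aS M.μ (Zg M hc) s d j :=
      Finset.sum_nonneg fun _ _ => ha _ _
    gcongr

end

end Pool.Agent.IG
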