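import Pool.Agent.Lib.MP_daa227_pr_IG.MomB

/-!
# MP_daa227_pr, general potentials: bridges from the box to the origin
-/

namespace Pool.Agent.IG

open MeasureTheory ProbabilityTheory Finset Filter Topology
open MP_daa227_pr (Chain Zk Zf Gk Gf KU K0 Ren shift seqLaw ExpMom DepOn Good GoodW mom)
open Pool.Agent.AZ (Mod Kv lmg)
open Pool.Agent.IOrd (Sys aS cv)

noncomputable section

/-- the length `m` extended by `|v|`, in units of two; zero for the wrong parity -/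
def ext (u : ℕ → ℝ) (m : ℕ) (v : ℤ) : ℝ := if Even (m + v.natAbs) then u ((m + v.natAbs) / 2) else 0

namespace Bridge

/-- positive moments from the box to the origin -/
theorem pos_to (M : Mod) {s : ℝ} (hs0 : 0 < s) (hs1 : s ≤ 1) (h : ℝ) (v : ℤ) :
    0 < mZ M s h v.natAbs v 0 := by
  have h1 := mZ_pos M hs0 hs1 h v 0
  rwa [sub_zero] at h1

/-- positive moments from the origin to the box -/
theorem pos_from (M : Mod) {s : ℝ} (hs0 : 0 < s) (hs1 : s ≤ 1) (h : ℝ) (v : ℤ) :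
    0 < mZ M s h v.natAbs 0 v := by
  have h1 := mZ_pos M hs0 hs1 h 0 v
  rwa [zero_sub, Int.natAbs_neg] at h1

/-- the arithmetic -/
theorem arith {x b b' a c C : ℝ} (hb : 0 < b) (hbb : b ≤ b') (hx : 0 ≤ x) (ha : 0 ≤ a)
    (h : x * b' ≤ a) (hc : b⁻¹ ≤ c) (hC : c ≤ C) : x ≤ C * a := by
  have h1 : x * b ≤ a := (mul_le_mul_of_nonneg_left hbb hx).trans h
  have h2 : x ≤ b⁻¹ * a := by
    rw [inv_mul_eq_div, le_div_iff₀ hb]
    exact h1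
  exact h2.trans (mul_le_mul_of_nonneg_right (hc.trans hC) ha)

end Bridge

/-- `mZ m 0 v * mZ |v| v 0 ≤ mZ (m + |v|) 0 0` (`mZ_mul`) and `mZ |v| v 0 ≥` its value at `hc`
(`mZ_anti`, `d ≥ 0`), positive by `mZ_pos`; `C` = sum over `v` in the box of the inverses, plus one.
Wrong parity: `mZ_parity`. -/
theorem bridge (M : Mod) {s : ℝ} (hs0 : 0 < s) (hs1 : s ≤ 1) (hc : ℝ) (R : ℕ) :
    ∃ C : ℝ, 1 ≤ C ∧ ∀ d, 0 ≤ d → ∀ m : ℕ, ∀ v ∈ box R,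
      mZ M s (hc - d / M.Φ) m 0 v ≤ C * ext (aS M.μ (Zg M hc) s d) m v ∧
      mZ M s (hc - d / M.Φ) m v 0 ≤ C * ext (aS M.μ (Zg M hc) s d) m v := by
  have hp1 : ∀ v : ℤ, 0 ≤ (mZ M s hc v.natAbs v 0)⁻¹ := fun v =>
    inv_nonneg.2 (mZ_nonneg _ _ _ _ _ _)
  have hp2 : ∀ v : ℤ, 0 ≤ (mZ M s hc v.natAbs 0 v)⁻¹ := fun v =>
    inv_nonneg.2 (mZ_nonneg _ _ _ _ _ _)
  have hS0 : 0 ≤ ∑ v ∈ box R, ((mZ M s hc v.natAbs v 0)⁻¹ + (mZ M s hc v.natAbs 0 v)⁻¹) :=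
    Finset.sum_nonneg fun v _ => add_nonneg (hp1 v) (hp2 v)
  refine ⟨1 + ∑ v ∈ box R, ((mZ M s hc v.natAbs v 0)⁻¹ + (mZ M s hc v.natAbs 0 v)⁻¹),
    by linarith, fun d hd m v hv => ?_⟩
  have hle : hc - d / M.Φ ≤ hc := by
    have h1 : 0 ≤ d / M.Φ := div_nonneg hd M.Φ_pos.le
    linarith
  have hsum : (mZ M s hc v.natAbs v 0)⁻¹ + (mZ M s hc v.natAbs 0 v)⁻¹ ≤
      1 + ∑ v ∈ box R, ((mZ M s hc v.natAbs v 0)⁻¹ + (mZ M s hc v.natAbs 0 v)⁻¹) := by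
    have h1 := Finset.single_le_sum
      (f := fun v : ℤ => (mZ M s hc v.natAbs v 0)⁻¹ + (mZ M s hc v.natAbs 0 v)⁻¹)
      (fun w _ => add_nonneg (hp1 w) (hp2 w)) hv
    have h2 : (mZ M s hc v.natAbs v 0)⁻¹ + (mZ M s hc v.natAbs 0 v)⁻¹ ≤
      ∑ v ∈ box R, ((mZ M s hc v.natAbs v 0)⁻¹ + (mZ M s hc v.natAbs 0 v)⁻¹) := h1
    linarith
  by_cases hE : Even (m + v.natAbs)
  · have hh : 2 * ((m + v.natAbs) / 2) = m + v.natAbs := Nat.two_mul_div_two_of_even hE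
    have hx : ext (aS M.μ (Zg M hc) s d) m v = mZ M s (hc - d / M.Φ) (m + v.natAbs) 0 0 := by
      rw [ext, if_pos hE, ← mZ_aS, hh]
    rw [hx]
    refine ⟨?_, ?_⟩
    · exact Bridge.arith (Bridge.pos_to M hs0 hs1 hc v) (mZ_anti M hs0 hs1 hle _ _ _)
        (mZ_nonneg _ _ _ _ _ _) (mZ_nonneg _ _ _ _ _ _)
        (mZ_mul M hs0 hs1 _ m v.natAbs 0 v 0) (le_add_of_nonneg_right (hp2 v)) hsum
    · have h1 := mZ_mul M hs0 hs1 (hc - d / M.Φ) v.natAbs m 0 v 0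
      rw [mul_comm, add_comm v.natAbs m] at h1
      exact Bridge.arith (Bridge.pos_from M hs0 hs1 hc v) (mZ_anti M hs0 hs1 hle _ _ _)
        (mZ_nonneg _ _ _ _ _ _) (mZ_nonneg _ _ _ _ _ _) h1
        (le_add_of_nonneg_left (hp1 v)) hsum
  · have hx : ext (aS M.μ (Zg M hc) s d) m v = 0 := by rw [ext, if_neg hE]
    rw [hx, mul_zero]
    have hE' : ¬ (m + v.natAbs) % 2 = 0 := fun h => hE (Nat.even_iff.2 h)
    refine ⟨?_, ?_⟩
    · refine (mZ_parity M hs0 _ m 0 v ?_).le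
      intro h
      rw [Int.even_iff] at h
      omega
    · refine (mZ_parity M hs0 _ m v 0 ?_).le
      intro h
      rw [Int.even_iff] at h
      omega

end

end Pool.Agent.IG
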