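import Pool.Agent.Lib.MP_daa227_pr_IG.Defs
import Pool.Agent.Lib.MP_daa227_pr_AZ.Lmg

/-!
# MP_daa227_pr, general potentials: the ratio of two site moments
-/

namespace Pool.Agent.IG

open MeasureTheory ProbabilityTheory Finset Filter Topology
open MP_daa227_pr (Chain Zk Zf Gk Gf KU K0 Ren shift seqLaw ExpMom DepOn Good GoodW mom)
open Pool.Agent.AZ (Mod Kv lmg)
open Pool.Agent.IOrd (Sys aS cv)

noncomputable section

namespace ExcRat

/-- the integrand -/
def FF (s ℓ β hc a b ε x : ℝ) : ℝ :=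
  Real.exp (s * (ℓ * (β * x - (hc - a * ε)) + b * ε * |β * x - (hc - a * ε)|))

theorem exp_bound {s ℓ β hc a b ε x : ℝ} (hs : 0 < s) (hℓ : 0 < ℓ) (hβ : 0 < β) (ha : |a| ≤ 1)
    (hb : |b| ≤ 1) (hε : |ε| ≤ 1) :
    FF s ℓ β hc a b ε x ≤
      Real.exp (s * (ℓ + 1) * (|hc| + 1)) * Real.exp (s * (ℓ + 1) * β * |x|) := by
  rw [← Real.exp_add]
  apply Real.exp_le_exp.2
  have h1 : |β * x - (hc - a * ε)| ≤ β * |x| + |hc| + 1 := by
    have h2 : |a * ε| ≤ 1 := by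
      rw [abs_mul]
      exact mul_le_one₀ ha (abs_nonneg _) hε
    calc |β * x - (hc - a * ε)| ≤ |β * x| + |hc - a * ε| := abs_sub _ _
      _ ≤ |β * x| + (|hc| + |a * ε|) := by
          gcongr
          exact abs_sub _ _
      _ ≤ β * |x| + |hc| + 1 := by
          rw [abs_mul, abs_of_pos hβ]
          linarith
  have h3 : ℓ * (β * x - (hc - a * ε)) ≤ ℓ * (β * |x| + |hc| + 1) :=
    mul_le_mul_of_nonneg_left ((le_abs_self _).trans h1) hℓ.le
  have h4 : b * ε * |β * x - (hc - a * ε)| ≤ 1 * (β * |x| + |hc| + 1) := by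
    have h5 : b * ε ≤ 1 := by
      refine (le_abs_self _).trans ?_
      rw [abs_mul]
      exact mul_le_one₀ hb (abs_nonneg _) hε
    exact mul_le_mul h5 h1 (abs_nonneg _) (by norm_num)
  have h6 : ℓ * (β * x - (hc - a * ε)) + b * ε * |β * x - (hc - a * ε)| ≤
      (ℓ + 1) * (β * |x| + |hc| + 1) := by linarith
  have h7 := mul_le_mul_of_nonneg_left h6 hs.le
  linarith

theorem cont {μ : Measure ℝ} [IsProbabilityMeasure μ] (hμ : ExpMom μ) {s ℓ β hc a b : ℝ}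
    (hs : 0 < s) (hℓ : 0 < ℓ) (hβ : 0 < β) (ha : |a| ≤ 1) (hb : |b| ≤ 1) :
    ContinuousAt (fun ε => ∫ x, FF s ℓ β hc a b ε x ∂μ) 0 := by
  have h1 : ∀ᶠ ε : ℝ in 𝓝 0, |ε| ≤ 1 := by
    have h2 : ContinuousAt (fun ε : ℝ => |ε|) 0 := continuous_abs.continuousAt
    have h3 := h2.eventually (eventually_le_nhds (a := |(0 : ℝ)|) (b := 1) (by simp))
    exact h3
  refine continuousAt_of_dominated (bound := fun x =>
    Real.exp (s * (ℓ + 1) * (|hc| + 1)) * Real.exp (s * (ℓ + 1) * β * |x|)) ?_ ?_ ?_ ?_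
  · refine Filter.Eventually.of_forall fun ε => ?_
    have h2 : Continuous fun x => FF s ℓ β hc a b ε x := by
      unfold FF
      fun_prop
    exact h2.aestronglyMeasurable
  · filter_upwards [h1] with ε hε
    refine ae_of_all _ fun x => ?_
    have h2 : 0 < FF s ℓ β hc a b ε x := Real.exp_pos _
    rw [Real.norm_eq_abs, abs_of_pos h2]
    exact exp_bound hs hℓ hβ ha hb hε
  · exact (hμ.abs _).const_mul _
  · refine ae_of_all _ fun x => ?_
    have h2 : Continuous fun ε => FF s ℓ β hc a b ε x := by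
      unfold FF
      fun_prop
    exact h2.continuousAt

theorem strict {μ : Measure ℝ} [IsProbabilityMeasure μ] (hμ : ExpMom μ)
    (hmean : ∫ x, x ∂μ = 0) (hvar : ∫ x, x ^ 2 ∂μ = 1) {s s₂ ℓ β hc : ℝ}
    (hs0 : 0 < s) (hs : s < s₂) (hℓ : 0 < ℓ) (hβ : 0 < β) :
    ∫ x, Real.exp (s * (ℓ * (β * x - hc))) ∂μ <
      (∫ x, Real.exp (s₂ * (ℓ * (β * x - hc))) ∂μ) ^ (s / s₂) := by
  have hs₂ : 0 < s₂ := hs0.trans hs
  have hint : ∀ t : ℝ, Integrable (fun x => Real.exp (t * (ℓ * (β * x - hc)))) μ := by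
    intro t
    have h1 : (fun x => Real.exp (t * (ℓ * (β * x - hc)))) =
        fun x => Real.exp (-(t * ℓ * hc)) * Real.exp (t * ℓ * β * x) := by
      funext x
      rw [← Real.exp_add]
      congr 1
      ring
    rw [h1]
    exact (hμ _).const_mul _
  have hp : 1 < s₂ / s := (one_lt_div hs0).2 hs
  have hcomp : ∀ x : ℝ, (Real.exp (s * (ℓ * (β * x - hc)))) ^ (s₂ / s) =
      Real.exp (s₂ * (ℓ * (β * x - hc))) := by
    intro x
    rw [← Real.exp_mul]
    congr 1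
    field_simp
  have hJ := (strictConvexOn_rpow hp).ae_eq_const_or_map_average_lt (μ := μ)
    (f := fun x => Real.exp (s * (ℓ * (β * x - hc))))
    (fun x hx => (Real.continuousAt_rpow_const x _ (Or.inr (by linarith))).continuousWithinAt)
    isClosed_Ici (ae_of_all _ fun x => (Real.exp_pos _).le) (hint s)
    (by
      have h2 : (fun x : ℝ => x ^ (s₂ / s)) ∘ (fun x => Real.exp (s * (ℓ * (β * x - hc)))) =
          fun x => Real.exp (s₂ * (ℓ * (β * x - hc))) := by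
        funext x
        exact hcomp x
      rw [h2]
      exact hint s₂)
  rw [average_eq_integral, average_eq_integral] at hJ
  rcases hJ with h | h
  · exfalso
    obtain ⟨c, hc'⟩ : ∃ c : ℝ, ∀ᵐ x ∂μ, x = c := by
      refine ⟨(Real.log (∫ x, Real.exp (s * (ℓ * (β * x - hc))) ∂μ) / (s * ℓ) + hc) / β, ?_⟩
      filter_upwards [h] with x hx
      have hx' : Real.exp (s * (ℓ * (β * x - hc))) =
        ∫ x, Real.exp (s * (ℓ * (β * x - hc))) ∂μ := hx
      rw [← hx', Real.log_exp]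
      field_simp
      ring
    have h1 : ∫ x, x ∂μ = c := by
      rw [integral_congr_ae hc']
      simp
    have h2 : ∫ x, x ^ 2 ∂μ = c ^ 2 := by
      have h3 : (fun x : ℝ => x ^ 2) =ᵐ[μ] fun _ => c ^ 2 := by
        filter_upwards [hc'] with x hx
        rw [hx]
      rw [integral_congr_ae h3]
      simp
    rw [hmean] at h1
    rw [hvar, ← h1] at h2
    norm_num at h2
  · simp only [hcomp] at h
    have hpos : 0 < ∫ x, Real.exp (s * (ℓ * (β * x - hc))) ∂μ := integral_exp_pos (hint s)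
    have h3 := Real.rpow_lt_rpow (Real.rpow_nonneg hpos.le _) h (div_pos hs0 hs₂)
    rw [← Real.rpow_mul hpos.le] at h3
    have h4 : s₂ / s * (s / s₂) = 1 := by field_simp
    rwa [h4, Real.rpow_one] at h3

end ExcRat

/-- Both sides are continuous at `ε = 0`, `c = 0` (dominated convergence, the integrands are
dominated by `exp (A + B |x|)`, `ExpMom.abs`; put `c = ε`), and at `ε = c = 0` the inequality is
strict: `E exp (s X) < (E exp (s₂ X)) ^ (s / s₂)` for `X = ℓ (β x - hc)` not constant (`ℓ β > 0`,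
`M.var`): strict Jensen for `y ^ (s₂ / s)` (`StrictConvexOn.ae_eq_const_or_map_average_lt`), or strict
convexity of `lmg`. -/
theorem ratio (M : Mod) (hℓ : 0 < M.ℓ) (hc : ℝ) {s s₂ : ℝ} (hs0 : 0 < s) (hs : s < s₂) :
    ∃ ε : ℝ, 0 < ε ∧ ∃ c : ℝ, 0 < c ∧
      ∫ x, Real.exp (s * (M.ℓ * (M.β * x - (hc - c)) + ε * |M.β * x - (hc - c)|)) ∂M.μ ≤
      (∫ x, Real.exp (s₂ * (M.ℓ * (M.β * x - hc) - ε * |M.β * x - hc|)) ∂M.μ) ^ (s / s₂) := by
  have := M.prob
  have hs₂ : 0 < s₂ := hs0.trans hs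
  have h1 := ExcRat.cont M.exp_mom (hc := hc) (a := 1) (b := 1) hs0 hℓ M.β_pos (by simp) (by simp)
  have h2 := ExcRat.cont M.exp_mom (hc := hc) (a := 0) (b := -1) hs₂ hℓ M.β_pos (by simp)
    (by simp)
  have hst := ExcRat.strict M.exp_mom M.mean M.var (hc := hc) hs0 hs hℓ M.β_pos
  have e1 : (fun x => ExcRat.FF s M.ℓ M.β hc 1 1 0 x) =
      fun x => Real.exp (s * (M.ℓ * (M.β * x - hc))) := by
    funext x
    simp [ExcRat.FF]
  have e2 : (fun x => ExcRat.FF s₂ M.ℓ M.β hc 0 (-1) 0 x) =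
      fun x => Real.exp (s₂ * (M.ℓ * (M.β * x - hc))) := by
    funext x
    simp [ExcRat.FF]
  have hpos : 0 < ∫ x, ExcRat.FF s₂ M.ℓ M.β hc 0 (-1) 0 x ∂M.μ := by
    rw [e2]
    refine integral_exp_pos ?_
    have h3 : (fun x => Real.exp (s₂ * (M.ℓ * (M.β * x - hc)))) =
        fun x => Real.exp (-(s₂ * M.ℓ * hc)) * Real.exp (s₂ * M.ℓ * M.β * x) := by
      funext x
      rw [← Real.exp_add]
      congr 1
      ring
    rw [h3]
    exact (M.exp_mom _).const_mul _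
  have h2' := h2.rpow_const (p := s / s₂) (Or.inl hpos.ne')
  have hlt : (∫ x, ExcRat.FF s M.ℓ M.β hc 1 1 0 x ∂M.μ) <
      (∫ x, ExcRat.FF s₂ M.ℓ M.β hc 0 (-1) 0 x ∂M.μ) ^ (s / s₂) := by
    rw [e1, e2]
    exact hst
  have h4 := h1.tendsto.eventually_lt h2'.tendsto hlt
  have h5 : ∀ᶠ ε : ℝ in 𝓝[>] 0, (∫ x, ExcRat.FF s M.ℓ M.β hc 1 1 ε x ∂M.μ) <
      (∫ x, ExcRat.FF s₂ M.ℓ M.β hc 0 (-1) ε x ∂M.μ) ^ (s / s₂) :=
    h4.filter_mono nhdsWithin_le_nhds
  obtain ⟨ε, hε, hε0⟩ := (h5.and self_mem_nhdsWithin).exists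
  refine ⟨ε, hε0, ε, hε0, ?_⟩
  have e3 : (fun x => ExcRat.FF s M.ℓ M.β hc 1 1 ε x) = fun x =>
      Real.exp (s * (M.ℓ * (M.β * x - (hc - ε)) + ε * |M.β * x - (hc - ε)|)) := by
    funext x
    simp [ExcRat.FF]
  have e4 : (fun x => ExcRat.FF s₂ M.ℓ M.β hc 0 (-1) ε x) = fun x =>
      Real.exp (s₂ * (M.ℓ * (M.β * x - hc) - ε * |M.β * x - hc|)) := by
    funext x
    simp [ExcRat.FF, sub_eq_add_neg]
  rw [e3, e4] at hε
  exact hε.le

end

end Pool.Agent.IG
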