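import Pool.Agent.Lib.MP_daa227_pr_IG.MomB
import Pool.Agent.Lib.MP_daa227_pr_IG.ExcSand
import Pool.Agent.Lib.MP_daa227_pr_IG.ExcRat

/-!
# MP_daa227_pr, general potentials: excursions below the box when the potential has a positive limit
-/

namespace Pool.Agent.IG

open MeasureTheory ProbabilityTheory Finset Filter Topology
open MP_daa227_pr (Chain Zk Zf Gk Gf KU K0 Ren shift seqLaw ExpMom DepOn Good GoodW mom)
open Pool.Agent.AZ (Mod Kv lmg)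
open Pool.Agent.IOrd (Sys aS cv)

noncomputable section

namespace ExcDown

/-- exponentials of functions of linear growth are integrable -/
theorem int_exp (M : Mod) {g : ℝ → ℝ} (hgm : Measurable g) {A B : ℝ}
    (h : ∀ x, |g x| ≤ A + B * |x|) {s : ℝ} (hs : 0 ≤ s) :
    Integrable (fun x => Real.exp (s * g x)) M.μ := by
  have h1 : Integrable (fun x => Real.exp ((s * B) * |x|) * Real.exp (s * A)) M.μ :=
    (M.exp_mom.abs (s * B)).mul_const _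
  refine h1.mono' ((hgm.const_mul s).exp.aestronglyMeasurable) (ae_of_all _ fun x => ?_)
  rw [Real.norm_of_nonneg (Real.exp_pos _).le, ← Real.exp_add]
  apply Real.exp_le_exp.2
  have h2 := (le_abs_self _).trans (h x)
  have h3 := mul_le_mul_of_nonneg_left h2 hs
  nlinarith

theorem lint_exp {μ : Measure ℝ} {g : ℝ → ℝ} {s : ℝ}
    (hi : Integrable (fun x => Real.exp (s * g x)) μ) :
    ∫⁻ x, ENNReal.ofReal (Real.exp (g x)) ^ s ∂μ =
      ENNReal.ofReal (∫ x, Real.exp (s * g x) ∂μ) := by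
  rw [ofReal_integral_eq_lintegral_ofReal hi (ae_of_all _ fun x => (Real.exp_pos _).le)]
  congr 1
  ext x
  rw [ENNReal.ofReal_rpow_of_pos (Real.exp_pos _), ← Real.exp_mul, mul_comm]

/-- linear growth of the site exponents -/
theorem lin_bd (M : Mod) (a b h x : ℝ) :
    |a * (M.β * x - h) + b * (|M.β * x - h|)| ≤
      (|a| + |b|) * |h| + ((|a| + |b|) * M.β) * |x| := by
  have h1 : |M.β * x - h| ≤ M.β * |x| + |h| := by
    refine (abs_sub _ _).trans ?_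
    rw [abs_mul, abs_of_pos M.β_pos]
  have h2 : |a * (M.β * x - h) + b * (|M.β * x - h|)| ≤ (|a| + |b|) * |M.β * x - h| := by
    refine (abs_add_le _ _).trans ?_
    rw [abs_mul, abs_mul, abs_abs]
    linarith
  have h3 := mul_le_mul_of_nonneg_left h1 (add_nonneg (abs_nonneg a) (abs_nonneg b))
  nlinarith

theorem int_lin (M : Mod) (a b h : ℝ) {s : ℝ} (hs : 0 ≤ s) :
    Integrable (fun x => Real.exp (s * (a * (M.β * x - h) + b * |M.β * x - h|))) M.μ :=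
  int_exp M (by fun_prop) (lin_bd M a b h) hs

theorem mom_low (M : Mod) (a b a' b' h : ℝ) {p : ℝ} (hp : 0 ≤ p) {s : ℝ} (hs : 0 < s) (k : ℕ) :
    mom M.μ s (fun ω => AZ.Level.Pr
        (fun x => Real.exp (a * (M.β * x - h) + b * |M.β * x - h|)) k ω *
        Real.exp (a' * (M.β * ω k - h) + b' * |M.β * ω k - h|) * p) =
      ENNReal.ofReal ((∫ x, Real.exp (s * (a * (M.β * x - h) + b * |M.β * x - h|)) ∂M.μ) ^ k *
        (∫ x, Real.exp (s * (a' * (M.β * x - h) + b' * |M.β * x - h|)) ∂M.μ) * p ^ s) := by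
  have h1 := mom_sand (μ := M.μ) (w := fun x => Real.exp (a * (M.β * x - h) + b * |M.β * x - h|))
    (l := fun x => Real.exp (a' * (M.β * x - h) + b' * |M.β * x - h|)) (by fun_prop)
    (by fun_prop) (fun x => (Real.exp_pos _).le) (fun x => (Real.exp_pos _).le) hp hs k
  rw [h1, lint_exp (int_lin M a b h hs.le), lint_exp (int_lin M a' b' h hs.le),
    ENNReal.ofReal_rpow_of_nonneg hp hs.le, ← ENNReal.ofReal_pow
      (integral_nonneg fun x => (Real.exp_pos _).le), ← ENNReal.ofReal_mul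
      (pow_nonneg (integral_nonneg fun x => (Real.exp_pos _).le) _), ← ENNReal.ofReal_mul
      (mul_nonneg (pow_nonneg (integral_nonneg fun x => (Real.exp_pos _).le) _)
        (integral_nonneg fun x => (Real.exp_pos _).le))]

theorem int_pos (M : Mod) (a b h : ℝ) {s : ℝ} (hs : 0 ≤ s) :
    0 < ∫ x, Real.exp (s * (a * (M.β * x - h) + b * |M.β * x - h|)) ∂M.μ :=
  integral_exp_pos (int_lin M a b h hs)

/-- the moment of order `s` of the kernel is at most the one of the partition function -/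
theorem mG_le_mZ (M : Mod) {s : ℝ} (hs0 : 0 < s) (hs1 : s ≤ 1) (h : ℝ) (R n : ℕ) (x y : ℤ) :
    mG M R s h n x y ≤ mZ M s h n x y :=
  ENNReal.toReal_mono (zk_ne_top M hs0 hs1 h n x y)
    (MP_daa227_pr.mom_mono hs0.le fun ω =>
      (MP_daa227_pr.Model.Gk_le_Zk (M.W_pos h) (box R) n ω x y).2)

theorem mZ_le_one (M : Mod) {hc s₂ : ℝ} (h0 : 0 < s₂)
    (hS : ∀ n, aS M.μ (Zg M hc) s₂ 0 n ≤ 1) (n : ℕ) : mZ M s₂ hc n 0 0 ≤ 1 := by
  rcases Nat.even_or_odd n with hn | hn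
  · obtain ⟨m, hm⟩ := hn
    have h1 := mZ_aS M s₂ hc 0 m
    rw [zero_div, sub_zero] at h1
    have h2 : n = 2 * m := by omega
    rw [h2, h1]
    exact hS m
  · have h1 : ¬ Even ((n : ℤ) + 0 - 0) := by
      rw [add_zero, sub_zero, Int.even_coe_nat]
      exact Nat.not_even_iff_odd.2 hn
    rw [mZ_parity M h0 hc n 0 0 h1]
    exact zero_le_one

/-- the moment of the kernel below the box is bounded at `hc` -/
theorem mG_bd (M : Mod) {hc s₂ : ℝ} (h0 : 0 < s₂) (h1 : s₂ ≤ 1)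
    (hS : ∀ n, aS M.μ (Zg M hc) s₂ 0 n ≤ 1) (R : ℕ) :
    ∃ K : ℝ, 0 < K ∧ ∀ k : ℕ, mG M R s₂ hc (k + 1) (-((R : ℤ) + 1)) (-(R : ℤ)) ≤ K := by
  have hp1 : 0 < mZ M s₂ hc (R + 1) 0 (-((R : ℤ) + 1)) := by
    have h2 := mZ_pos M h0 h1 hc 0 (-((R : ℤ) + 1))
    have h3 : ((0 : ℤ) - (-((R : ℤ) + 1))).natAbs = R + 1 := by omega
    rwa [h3] at h2
  have hp2 : 0 < mZ M s₂ hc R (-(R : ℤ)) 0 := by
    have h2 := mZ_pos M h0 h1 hc (-(R : ℤ)) 0
    have h3 : ((-(R : ℤ)) - 0).natAbs = R := by omega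
    rwa [h3] at h2
  refine ⟨(mZ M s₂ hc (R + 1) 0 (-((R : ℤ) + 1)) * mZ M s₂ hc R (-(R : ℤ)) 0)⁻¹,
    inv_pos.2 (mul_pos hp1 hp2), fun k => ?_⟩
  have h4 := mZ_mul M h0 h1 hc (R + 1) (k + 1) 0 (-((R : ℤ) + 1)) (-(R : ℤ))
  have h5 := mZ_mul M h0 h1 hc (R + 1 + (k + 1)) R 0 (-(R : ℤ)) 0
  have h6 := mZ_le_one M h0 hS (R + 1 + (k + 1) + R)
  have h7 := mG_le_mZ M h0 h1 hc R (k + 1) (-((R : ℤ) + 1)) (-(R : ℤ))
  rw [← one_div, le_div_iff₀ (mul_pos hp1 hp2)]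
  have h8 := mul_le_mul_of_nonneg_right h4 hp2.le
  have h9 := mul_le_mul_of_nonneg_right h7 (mul_pos hp1 hp2).le
  nlinarith

/-- site weights and their limits -/
theorem W_lim (M : Mod) {h ε : ℝ} {z : ℤ} (hz : |M.φ z - M.ℓ| ≤ ε) (a : ℝ) :
    |(M.β * a - h) * M.φ z - M.ℓ * (M.β * a - h)| ≤ ε * |M.β * a - h| := by
  have h1 : (M.β * a - h) * M.φ z - M.ℓ * (M.β * a - h) =
      (M.φ z - M.ℓ) * (M.β * a - h) := by ring
  rw [h1, abs_mul]
  exact mul_le_mul_of_nonneg_right hz (abs_nonneg _)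

theorem W_abs (M : Mod) (h a : ℝ) (z : ℤ) :
    |(M.β * a - h) * M.φ z| ≤ M.Φ * |M.β * a - h| := by
  rw [abs_mul, abs_of_nonneg (M.φ_nonneg z), mul_comm]
  exact mul_le_mul_of_nonneg_right (M.φ_le z) (abs_nonneg _)

end ExcDown

open ExcDown

/-- The probability of an excursion below the box is controlled by the moment of order `s₂` at `hc`:
with `w a = exp (ℓ (β a - hc) - ε |β a - hc|)`, `l a = exp (-Φ |β a - hc|)` (`|φ z - ℓ| ≤ ε` for
`z < -R`), `sand_ge` and `mom_sand`: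
`bex (k + 1) (-(R + 1)) ^ s₂ * r ^ k * r_l ≤ mZ-type moment of Gk`, and
`mZ (R + 1) 0 (-(R + 1)) * mG (k + 1) (-(R + 1)) (-R) * mZ R (-R) 0 ≤ mZ (2 R + 2 + k) 0 0 ≤ 1`
(`Gk ≤ Zk`, `mZ_mul`; even length: `hS`, odd length: `mZ_parity`), the two outer factors are
positive (`mZ_pos`). -/
theorem bex_le (M : Mod) {hc ε : ℝ} {R : ℕ} (hR : 1 ≤ R) (hε : 0 ≤ ε)
    (hφ : ∀ z : ℤ, z < -(R : ℤ) → |M.φ z - M.ℓ| ≤ ε) {s₂ : ℝ} (h0 : 0 < s₂) (h1 : s₂ ≤ 1)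
    (hS : ∀ n, aS M.μ (Zg M hc) s₂ 0 n ≤ 1) :
    ∃ K : ℝ, 0 < K ∧ ∀ k : ℕ, bex M.C R (k + 1) (-((R : ℤ) + 1)) ^ s₂ *
      (∫ x, Real.exp (s₂ * (M.ℓ * (M.β * x - hc) - ε * |M.β * x - hc|)) ∂M.μ) ^ k ≤ K := by
  obtain ⟨K, hK0, hK⟩ := mG_bd M h0 h1 hS R
  have hl : 0 < ∫ x, Real.exp (s₂ * (0 * (M.β * x - hc) + (-M.Φ) * |M.β * x - hc|)) ∂M.μ :=
    int_pos M 0 (-M.Φ) hc h0.le
  refine ⟨K / ∫ x, Real.exp (s₂ * (0 * (M.β * x - hc) + (-M.Φ) * |M.β * x - hc|)) ∂M.μ,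
    div_pos hK0 hl, fun k => ?_⟩
  rw [le_div_iff₀ hl]
  have h2 := sand_ge M.C (W := M.W hc) (fun a z => (M.W_pos hc a z).le) hR
    (w := fun x => Real.exp (M.ℓ * (M.β * x - hc) + (-ε) * |M.β * x - hc|))
    (l := fun x => Real.exp (0 * (M.β * x - hc) + (-M.Φ) * |M.β * x - hc|))
    (fun a => (Real.exp_pos _).le) (fun a => (Real.exp_pos _).le)
    (fun a z hz => Real.exp_le_exp.2 (by
      have h3 := (abs_le.1 (W_lim M (h := hc) (hφ z hz) a)).1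
      linarith))
    (fun a => Real.exp_le_exp.2 (by
      have h3 := (abs_le.1 (W_abs M hc a (-(R : ℤ)))).1
      linarith)) k
  have h3 : mom M.μ s₂ (fun ω => AZ.Level.Pr
        (fun x => Real.exp (M.ℓ * (M.β * x - hc) + (-ε) * |M.β * x - hc|)) k ω *
        Real.exp (0 * (M.β * ω k - hc) + (-M.Φ) * |M.β * ω k - hc|) *
        bex M.C R (k + 1) (-((R : ℤ) + 1))) ≤
      mom M.μ s₂ (fun ω => Gk M.C (M.W hc) (box R) (k + 1) ω (-((R : ℤ) + 1)) (-(R : ℤ))) :=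
    MP_daa227_pr.mom_mono h0.le fun ω => h2 ω (-((R : ℤ) + 1)) (by omega)
  rw [mom_low M _ _ _ _ hc (bex_nonneg M.C R (k + 1) _) h0 k] at h3
  have h4 := ENNReal.toReal_mono (gk_ne_top M h0 h1 hc (box R) (k + 1) _ _) h3
  rw [ENNReal.toReal_ofReal (mul_nonneg (mul_nonneg (pow_nonneg
    (int_pos M _ _ hc h0.le).le _) hl.le) (Real.rpow_nonneg (bex_nonneg M.C R (k + 1) _) _))] at h4
  have h5 := h4.trans (hK k)
  have h6 : ∀ x : ℝ, M.ℓ * (M.β * x - hc) - ε * |M.β * x - hc| =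
      M.ℓ * (M.β * x - hc) + (-ε) * |M.β * x - hc| := fun x => by ring
  simp_rw [h6]
  refine le_trans (le_of_eq ?_) h5
  ring

/-- `ratio` gives `ε`, `c`; `R₀ ≥ 1` such that `|φ z - ℓ| ≤ ε` for `z < -R₀` (`M.φ_bot`).
`sand_le` with `w a = exp (ℓ (β a - h) + ε |β a - h|)`, `l a = exp (Φ |β a - h|)`, `h = hc - c`, and
`mom_sand`: the moment is at most `C r_+ ^ k bex ^ s`, with `bex ^ s ≤ (K r_-^{-k}) ^ (s / s₂)`
(`bex_le`) and `r_+ ≤ r_- ^ (s / s₂)`. For `v ≠ -R` the kernel vanishes (`gk_low_zero`). -/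
theorem exc_down (M : Mod) (hℓ : 0 < M.ℓ) {hc s s₂ : ℝ} (hs0 : 0 < s) (hs : s < s₂) (h1 : s₂ ≤ 1)
    (hS : ∀ n, aS M.μ (Zg M hc) s₂ 0 n ≤ 1) :
    ∃ c : ℝ, 0 < c ∧ ∃ R₀ : ℕ, ∀ R : ℕ, R₀ ≤ R → ∃ K : ℝ, 0 ≤ K ∧ ∀ k : ℕ, ∀ v ∈ box R,
      mom M.μ s (fun ω => Gk M.C (M.W (hc - c)) (box R) k ω (-((R : ℤ) + 1)) v) ≤
        ENNReal.ofReal K := by
  obtain ⟨ε, hε, c, hc0, hrat⟩ := ratio M hℓ hc hs0 hs
  have hs2 : 0 < s₂ := hs0.trans hs
  obtain ⟨z₀, hz₀⟩ : ∃ z₀ : ℤ, ∀ z ≤ z₀, |M.φ z - M.ℓ| ≤ ε := by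
    have h2 := Metric.tendsto_nhds.1 M.φ_bot ε hε
    obtain ⟨z₀, hz⟩ := eventually_atBot.1 h2
    exact ⟨z₀, fun z hz' => (by
      have h3 := hz z hz'
      rw [Real.dist_eq] at h3
      exact h3.le)⟩
  refine ⟨c, hc0, max 1 (-z₀).toNat, fun R hR => ?_⟩
  have hR1 : 1 ≤ R := (le_max_left _ _).trans hR
  have hR2 : (-z₀).toNat ≤ R := (le_max_right _ _).trans hR
  have hφ : ∀ z : ℤ, z < -(R : ℤ) → |M.φ z - M.ℓ| ≤ ε := fun z hz => hz₀ z (by omega)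
  obtain ⟨K, hK0, hK⟩ := bex_le M hR1 hε.le hφ hs2 h1 hS
  set rp : ℝ := ∫ x, Real.exp (s * (M.ℓ * (M.β * x - (hc - c)) +
    ε * |M.β * x - (hc - c)|)) ∂M.μ with hrp
  set rm : ℝ := ∫ x, Real.exp (s₂ * (M.ℓ * (M.β * x - hc) -
    ε * |M.β * x - hc|)) ∂M.μ with hrm
  set rl : ℝ := ∫ x, Real.exp (s * (0 * (M.β * x - (hc - c)) +
    M.Φ * |M.β * x - (hc - c)|)) ∂M.μ with hrl
  have hrp0 : 0 < rp := int_pos M _ _ _ hs0.le
  have hrl0 : 0 < rl := int_pos M _ _ _ hs0.le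
  have hrm0 : 0 ≤ rm := integral_nonneg fun x => (Real.exp_pos _).le
  refine ⟨K ^ (s / s₂) * rl, mul_nonneg (Real.rpow_nonneg hK0.le _) hrl0.le, fun k v hv => ?_⟩
  by_cases hvR : v = -(R : ℤ)
  swap
  · have h2 : mom M.μ s (fun ω => Gk M.C (M.W (hc - c)) (box R) k ω (-((R : ℤ) + 1)) v) =
        mom M.μ s (fun _ => 0) := MP_daa227_pr.mom_congr fun ω =>
      gk_low_zero M.C _ hR1 k ω _ (by omega) v hv hvR
    rw [h2, MP_daa227_pr.mom_zero hs0]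
    exact zero_le
  subst hvR
  cases k with
  | zero =>
    have h2 : mom M.μ s (fun ω => Gk M.C (M.W (hc - c)) (box R) 0 ω (-((R : ℤ) + 1)) (-(R : ℤ))) =
        mom M.μ s (fun _ => 0) := MP_daa227_pr.mom_congr fun ω => rfl
    rw [h2, MP_daa227_pr.mom_zero hs0]
    exact zero_le
  | succ k =>
    have h2 := sand_le M.C (W := M.W (hc - c)) (fun a z => (M.W_pos (hc - c) a z).le) hR1
      (w := fun x => Real.exp (M.ℓ * (M.β * x - (hc - c)) + ε * |M.β * x - (hc - c)|))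
      (l := fun x => Real.exp (0 * (M.β * x - (hc - c)) + M.Φ * |M.β * x - (hc - c)|))
      (fun a => (Real.exp_pos _).le)
      (fun a z hz => Real.exp_le_exp.2 (by
        have h3 := (abs_le.1 (W_lim M (h := hc - c) (hφ z hz) a)).2
        linarith))
      (fun a => Real.exp_le_exp.2 (by
        have h3 := (abs_le.1 (W_abs M (hc - c) a (-(R : ℤ)))).2
        linarith)) k
    have h3 : mom M.μ s (fun ω =>
          Gk M.C (M.W (hc - c)) (box R) (k + 1) ω (-((R : ℤ) + 1)) (-(R : ℤ))) ≤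
        mom M.μ s (fun ω => AZ.Level.Pr
          (fun x => Real.exp (M.ℓ * (M.β * x - (hc - c)) + ε * |M.β * x - (hc - c)|)) k ω *
          Real.exp (0 * (M.β * ω k - (hc - c)) + M.Φ * |M.β * ω k - (hc - c)|) *
          bex M.C R (k + 1) (-((R : ℤ) + 1))) :=
      MP_daa227_pr.mom_mono hs0.le fun ω => h2 ω (-((R : ℤ) + 1)) (by omega)
    rw [mom_low M _ _ _ _ (hc - c) (bex_nonneg M.C R (k + 1) _) hs0 k] at h3
    refine h3.trans (ENNReal.ofReal_le_ofReal ?_)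
    rw [← hrp, ← hrl]
    set b := bex M.C R (k + 1) (-((R : ℤ) + 1)) with hb
    have hb0 : 0 ≤ b := bex_nonneg M.C R (k + 1) _
    have h4 : (b ^ s₂ * rm ^ k) ^ (s / s₂) ≤ K ^ (s / s₂) :=
      Real.rpow_le_rpow (mul_nonneg (Real.rpow_nonneg hb0 _) (pow_nonneg hrm0 _)) (hK k)
        (div_pos hs0 hs2).le
    have h5 : (b ^ s₂ * rm ^ k) ^ (s / s₂) = b ^ s * (rm ^ (s / s₂)) ^ k := by
      rw [Real.mul_rpow (Real.rpow_nonneg hb0 _) (pow_nonneg hrm0 _), ← Real.rpow_mul hb0,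
        mul_div_cancel₀ _ hs2.ne', ← Real.rpow_natCast, ← Real.rpow_mul hrm0, mul_comm (k : ℝ),
        Real.rpow_mul hrm0, Real.rpow_natCast]
    have h6 : rp ^ k ≤ (rm ^ (s / s₂)) ^ k := pow_le_pow_left₀ hrp0.le hrat k
    have h7 : rp ^ k * b ^ s ≤ K ^ (s / s₂) := by
      refine le_trans ?_ (h5 ▸ h4)
      rw [mul_comm]
      exact mul_le_mul_of_nonneg_left h6 (Real.rpow_nonneg hb0 _)
    calc rp ^ k * rl * b ^ s = (rp ^ k * b ^ s) * rl := by ring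
      _ ≤ K ^ (s / s₂) * rl := mul_le_mul_of_nonneg_right h7 hrl0.le

end

end Pool.Agent.IG
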