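import Pool.Agent.Lib.MP_daa227_pr_IG.ExcSite
import Pool.Agent.Lib.MP_daa227_pr_IG.ExcDown
import Pool.Agent.Lib.MP_daa227_pr_AZ.Free

/-!
# MP_daa227_pr, general potentials: the gap kernels near the critical point
-/

namespace Pool.Agent.IG

open MeasureTheory ProbabilityTheory Finset Filter Topology
open MP_daa227_pr (Chain Zk Zf Gk Gf KU K0 Ren shift seqLaw ExpMom DepOn Good GoodW mom)
open Pool.Agent.AZ (Mod Kv lmg)
open Pool.Agent.IOrd (Sys aS cv)

noncomputable section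

namespace ExcAll

/-- from order one to order `s` -/
theorem mom_s_le {μ : Measure ℝ} [IsProbabilityMeasure μ] {s : ℝ} (hs0 : 0 < s) (hs1 : s ≤ 1)
    {F : (ℕ → ℝ) → ℝ} (hF : Measurable F) (hF0 : ∀ ω, 0 ≤ F ω) {w : ℝ} (hw : 1 ≤ w)
    (h : mom μ 1 F ≤ ENNReal.ofReal w) : mom μ s F ≤ ENNReal.ofReal w := by
  refine (MP_daa227_pr.mom_le_rpow hs0 hs1 hF hF0).trans ?_
  refine (ENNReal.rpow_le_rpow h hs0.le).trans ?_
  have h1 : (1 : ENNReal) ≤ ENNReal.ofReal w := by
    rw [← ENNReal.ofReal_one]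
    exact ENNReal.ofReal_le_ofReal hw
  calc ENNReal.ofReal w ^ s ≤ ENNReal.ofReal w ^ (1 : ℝ) :=
        ENNReal.rpow_le_rpow_of_exponent_le h1 hs1
    _ = ENNReal.ofReal w := ENNReal.rpow_one _

/-- the kernel decreases with the field -/
theorem gk_anti (M : Mod) {h h' : ℝ} (hh : h ≤ h') (B : Finset ℤ) (n : ℕ) (ω : ℕ → ℝ) (x y : ℤ) :
    Gk M.C (M.W h') B n ω x y ≤ Gk M.C (M.W h) B n ω x y := by
  have h1 := (es_Gk M h' B n ω x y).mono (t := 0) (t' := h' - h) (by linarith)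
  simp only [sub_zero, sub_sub_cancel] at h1
  exact h1

/-- the first step -/
theorem gk_le (M : Mod) {s : ℝ} (hs0 : 0 < s) (hs1 : s ≤ 1) {h : ℝ} {R : ℕ} {w K : ℝ}
    (hw : 1 ≤ w) (hK : 0 ≤ K) (hW : ∀ z, mom M.μ 1 (fun ω => M.W h (ω 0) z) ≤ ENNReal.ofReal w)
    (hu : ∀ k : ℕ, ∀ v ∈ box R,
      mom M.μ s (fun ω => Gk M.C (M.W h) (box R) k ω ((R : ℤ) + 1) v) ≤ ENNReal.ofReal K)
    (hd : ∀ k : ℕ, ∀ v ∈ box R,
      mom M.μ s (fun ω => Gk M.C (M.W h) (box R) k ω (-((R : ℤ) + 1)) v) ≤ ENNReal.ofReal K)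
    (k : ℕ) {u v : ℤ} (hub : u ∈ box R) (hv : v ∈ box R) :
    mom M.μ s (fun ω => Gk M.C (M.W h) (box R) k ω u v) ≤ ENNReal.ofReal (w + 3 * (w * K)) := by
  have hw0 : 0 ≤ w := zero_le_one.trans hw
  have hg := fun n x y => MP_daa227_pr.good_Gk M.C M.κ_pos.le (M.goodW h) (box R) n x y
  have hWg := fun z => (M.goodW h).good z
  have hWs : ∀ z, mom M.μ s (fun ω => M.W h (ω 0) z) ≤ ENNReal.ofReal w := fun z =>
    mom_s_le hs0 hs1 (hWg z).meas (hWg z).nonneg hw (hW z)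
  have hp1 : ∀ x y, M.C.p x y ≤ 1 := by
    intro x y
    by_cases hy : y ∈ Finset.Icc (x - 1) (x + 1)
    · rw [← M.C.sum_one x]
      exact Finset.single_le_sum (f := fun y => M.C.p x y) (fun z _ => M.C.nonneg x z) hy
    · rw [M.C.near x y hy]
      exact zero_le_one
  have hpW : ∀ x z, mom M.μ s (fun ω => M.C.p x z * M.W h (ω 0) z) ≤ ENNReal.ofReal w := by
    intro x z
    refine (MP_daa227_pr.mom_mono hs0.le (G := fun ω => M.W h (ω 0) z) fun ω => ?_).trans (hWs z)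
    exact mul_le_of_le_one_left ((hWg z).nonneg ω) (hp1 x z)
  rcases k with _ | n
  · have h1 : mom M.μ s (fun ω => Gk M.C (M.W h) (box R) 0 ω u v) = mom M.μ s (fun _ => 0) := rfl
    rw [h1, MP_daa227_pr.mom_zero hs0]
    exact zero_le
  · have hterm : ∀ z, Good (1 + n) M.κ (fun ω =>
        M.C.p u z * M.W h (ω 0) z * Gk M.C (M.W h) (box R) n (shift 1 ω) z v) := fun z =>
      ((hWg z).const_mul (M.C.nonneg u z)).mul_shift (hg n z v)
    have hfirst : Good (1 + n) M.κ (fun ω =>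
        if n = 0 then M.C.p u v * M.W h (ω 0) v else 0) :=
      Good.ite M.κ_pos.le (((hWg v).const_mul (M.C.nonneg u v)).mono M.κ_pos.le (by omega)) _
    have h1 : mom M.μ s (fun ω => Gk M.C (M.W h) (box R) (n + 1) ω u v) ≤
        mom M.μ s (fun ω => if n = 0 then M.C.p u v * M.W h (ω 0) v else 0) +
        ∑ z ∈ Finset.Icc (u - 1) (u + 1) \ box R, mom M.μ s (fun ω =>
          M.C.p u z * M.W h (ω 0) z * Gk M.C (M.W h) (box R) n (shift 1 ω) z v) := by
      have h2 : mom M.μ s (fun ω => Gk M.C (M.W h) (box R) (n + 1) ω u v) =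
          mom M.μ s (fun ω => (if n = 0 then M.C.p u v * M.W h (ω 0) v else 0) +
            ∑ z ∈ Finset.Icc (u - 1) (u + 1) \ box R,
              M.C.p u z * M.W h (ω 0) z * Gk M.C (M.W h) (box R) n (shift 1 ω) z v) := rfl
      rw [h2]
      refine (MP_daa227_pr.mom_add_le hs0.le hs1 hfirst.meas hfirst.nonneg
        (fun ω => Finset.sum_nonneg fun z _ => (hterm z).nonneg ω)).trans ?_
      exact add_le_add le_rfl (MP_daa227_pr.mom_sum_le hs0 hs1 _ (fun z _ => (hterm z).meas)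
        (fun z _ ω => (hterm z).nonneg ω))
    refine h1.trans ?_
    rw [ENNReal.ofReal_add hw0 (by positivity)]
    refine add_le_add ?_ ?_
    · by_cases hn : n = 0
      · simp only [hn, if_true]
        exact hpW u v
      · simp only [hn, if_false]
        rw [MP_daa227_pr.mom_zero hs0]
        exact zero_le
    · have h3 : ∀ z ∈ Finset.Icc (u - 1) (u + 1) \ box R, mom M.μ s (fun ω =>
          M.C.p u z * M.W h (ω 0) z * Gk M.C (M.W h) (box R) n (shift 1 ω) z v) ≤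
          ENNReal.ofReal (w * K) := by
        intro z hz
        rw [MP_daa227_pr.mom_mul_shift (k := 1) (F := fun ω => M.C.p u z * M.W h (ω 0) z)
          (G := fun ω => Gk M.C (M.W h) (box R) n ω z v) hs0.le
          ((hWg z).const_mul (M.C.nonneg u z)).meas (hg n z v).meas
          ((hWg z).const_mul (M.C.nonneg u z)).depOn
          ((hWg z).const_mul (M.C.nonneg u z)).nonneg, ENNReal.ofReal_mul hw0]
        refine mul_le_mul' (hpW u z) ?_
        have h4 : z = (R : ℤ) + 1 ∨ z = -((R : ℤ) + 1) := by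
          simp only [box, Finset.mem_sdiff, Finset.mem_Icc] at hz hub
          omega
        rcases h4 with rfl | rfl
        · exact hu n v hv
        · exact hd n v hv
      refine (Finset.sum_le_card_nsmul _ _ _ h3).trans ?_
      have h5 : (Finset.Icc (u - 1) (u + 1) \ box R).card ≤ 3 := by
        refine (Finset.card_le_card Finset.sdiff_subset).trans ?_
        rw [Int.card_Icc]
        omega
      rw [nsmul_eq_mul, ENNReal.ofReal_mul (by norm_num : (0 : ℝ) ≤ 3)]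
      refine mul_le_mul' ?_ le_rfl
      have h6 : ENNReal.ofReal 3 = ((3 : ℕ) : ENNReal) := by
        rw [← ENNReal.ofReal_natCast]
        norm_num
      rw [h6]
      exact_mod_cast h5

theorem ell_nonneg (M : Mod) : 0 ≤ M.ℓ :=
  ge_of_tendsto' M.φ_bot fun x => M.φ_nonneg x

end ExcAll

open ExcAll in
/-- Assembly. `ℓ ≥ 0`. `c` = minimum of `hc / 2` and the `c` of `exc_down` (if `ℓ > 0`), `R` large.
By `mG_anti` it is enough to consider `h = hc - c`. `k = 0`: the kernel is `0`. `k = n + 1`: `Gk`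
unfolds into `p(u, v) W v` (if `n = 0`) and the sum over `z` outside the box next to `u`, i.e.
`z = R + 1` or `z = -(R + 1)`; `mom_add_le`, `mom_sum_le`, `mom_mul_shift`, `mom_le_rpow`
(order `1` to order `s`), `exc_up` and `exc_down0` / `exc_down` (monotone in the field: `ES.mono`, `es_Gk`). -/
theorem exc_all (M : Mod) {hc : ℝ} (hc0 : 0 < hc) {s s₂ : ℝ} (hs0 : 0 < s) (hs : s < s₂)
    (h1 : s₂ ≤ 1) (hS : ∀ n, aS M.μ (Zg M hc) s₂ 0 n ≤ 1) :
    ∃ (c : ℝ) (R : ℕ) (K : ℝ), 0 < c ∧ 1 ≤ R ∧ 0 ≤ K ∧ Exc M s hc R c K := by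
  have hs1 : s ≤ 1 := (hs.trans_le h1).le
  have hg := fun h B n x y => MP_daa227_pr.good_Gk M.C M.κ_pos.le (M.goodW h) B n x y
  -- the bounds on both sides
  have key : ∃ (c : ℝ) (R : ℕ) (K : ℝ), 0 < c ∧ 1 ≤ R ∧ 0 ≤ K ∧
      (∀ k : ℕ, ∀ v ∈ box R, mom M.μ s (fun ω =>
        Gk M.C (M.W (hc - c)) (box R) k ω ((R : ℤ) + 1) v) ≤ ENNReal.ofReal K) ∧
      (∀ k : ℕ, ∀ v ∈ box R, mom M.μ s (fun ω =>
        Gk M.C (M.W (hc - c)) (box R) k ω (-((R : ℤ) + 1)) v) ≤ ENNReal.ofReal K) := by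
    rcases (ell_nonneg M).eq_or_lt with hℓ | hℓ
    · obtain ⟨R₁, hR₁⟩ := exc_up M (h := hc - hc / 2) (by linarith)
      obtain ⟨R₂, hR₂⟩ := exc_down0 M hℓ.symm (h := hc - hc / 2) (by linarith)
      refine ⟨hc / 2, max 1 (max R₁ R₂), 1, by linarith, le_max_left _ _, zero_le_one, ?_, ?_⟩
      · intro k v hv
        refine mom_s_le hs0 hs1 (hg _ _ _ _ _).meas (hg _ _ _ _ _).nonneg le_rfl ?_
        rw [ENNReal.ofReal_one]
        exact hR₁ _ ((le_max_left _ _).trans (le_max_right _ _)) k v hv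
      · intro k v hv
        refine mom_s_le hs0 hs1 (hg _ _ _ _ _).meas (hg _ _ _ _ _).nonneg le_rfl ?_
        rw [ENNReal.ofReal_one]
        exact hR₂ _ ((le_max_right _ _).trans (le_max_right _ _)) k v hv
    · obtain ⟨c₁, hc₁, R₂, hR₂⟩ := exc_down M hℓ hs0 hs h1 hS
      obtain ⟨R₁, hR₁⟩ := exc_up M (h := hc - min (hc / 2) c₁)
        (by linarith [min_le_left (hc / 2) c₁])
      obtain ⟨K, hK, hK1⟩ := hR₂ (max 1 (max R₁ R₂)) ((le_max_right _ _).trans (le_max_right _ _))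
      refine ⟨min (hc / 2) c₁, max 1 (max R₁ R₂), max 1 K, lt_min (by linarith) hc₁,
        le_max_left _ _, zero_le_one.trans (le_max_left _ _), ?_, ?_⟩
      · intro k v hv
        refine (mom_s_le hs0 hs1 (w := 1) (hg _ _ _ _ _).meas (hg _ _ _ _ _).nonneg le_rfl
          ?_).trans (ENNReal.ofReal_le_ofReal (le_max_left _ _))
        rw [ENNReal.ofReal_one]
        exact hR₁ _ ((le_max_left _ _).trans (le_max_right _ _)) k v hv
      · intro k v hv
        refine (MP_daa227_pr.mom_mono hs0.le fun ω => gk_anti M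
          (sub_le_sub_left (min_le_right (hc / 2) c₁) hc) _ k ω _ v).trans ?_
        exact (hK1 k v hv).trans (ENNReal.ofReal_le_ofReal (le_max_right _ _))
  obtain ⟨c, R, K, hc1, hR, hK, hu, hd⟩ := key
  obtain ⟨w, hw, hW⟩ := M.A2_mom_W (hc - c)
  have hw0 : 0 ≤ w := zero_le_one.trans hw
  refine ⟨c, R, w + 3 * (w * K), hc1, hR, by positivity, ?_⟩
  intro h hh k u hub v hv
  refine (mG_anti M hs0 hs1 hh R k u v).trans ?_
  unfold mG
  exact ENNReal.toReal_le_of_le_ofReal (by positivity)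
    (gk_le M hs0 hs1 hw hK hW hu hd k hub hv)

end

end Pool.Agent.IG
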