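import Pool.Agent.Lib.MP_daa227_pr_IG.SysG

/-!
# MP_daa227_pr, general potentials: thinning
-/

namespace Pool.Agent.IG

open MeasureTheory ProbabilityTheory Finset Filter Topology
open MP_daa227_pr (Chain Zk Zf Gk Gf KU K0 Ren shift seqLaw ExpMom DepOn Good GoodW mom)
open Pool.Agent.AZ (Mod Kv lmg)
open Pool.Agent.IOrd (Sys aS cv)

noncomputable section

namespace Thin

/-- if a law with mean `0` and variance `1` gives no mass to the positive (negative) numbers, we
get a contradiction; `s` is the sign -/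
theorem pos_mass (μ : Measure ℝ) [IsProbabilityMeasure μ] (hμ : ExpMom μ) (hmean : ∫ x, x ∂μ = 0)
    (hvar : ∫ x, x ^ 2 ∂μ = 1) (s : ℝ) (hs : s ≠ 0) : μ {x : ℝ | 0 < s * x} ≠ 0 := by
  intro h0
  have h1 : ∀ᵐ x ∂μ, 0 ≤ -(s * x) := by
    have h2 : ∀ᵐ x ∂μ, ¬ (0 < s * x) := by
      rw [ae_iff]
      simpa using h0
    filter_upwards [h2] with x hx
    linarith [not_lt.1 hx]
  have h3 : ∫ x, -(s * x) ∂μ = 0 := by
    rw [integral_neg, integral_const_mul, hmean, mul_zero, neg_zero]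
  have hint : Integrable (fun x : ℝ => -(s * x)) μ := (hμ.integrable_id.const_mul s).neg
  have h4 := (integral_eq_zero_iff_of_nonneg_ae h1 hint).1 h3
  have h5 : ∫ x, x ^ 2 ∂μ = 0 := by
    have h6 : (fun x : ℝ => x ^ 2) =ᵐ[μ] fun _ => (0 : ℝ) := by
      filter_upwards [h4] with x hx
      have hx' : s * x = 0 := by
        have h7 : -(s * x) = 0 := hx
        linarith
      rcases mul_eq_zero.1 hx' with h | h
      · exact absurd h hs
      · rw [h]
        norm_num
    rw [integral_congr_ae h6]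
    simp
  rw [h5] at hvar
  exact zero_ne_one hvar

theorem cyl (μ : Measure ℝ) [IsProbabilityMeasure μ] (x : ℝ) (k : ℕ) :
    seqLaw μ {ω | ∀ i < k, x ≤ ω i} = μ (Set.Ici x) ^ k := by
  have h1 : {ω : ℕ → ℝ | ∀ i < k, x ≤ ω i} =
      Set.pi (Finset.range k : Set ℕ) (fun _ => Set.Ici x) := by
    ext ω
    simp [Set.mem_pi]
  rw [h1]
  unfold seqLaw
  rw [Measure.infinitePi_pi _ (fun i _ => measurableSet_Ici), Finset.prod_const,
    Finset.card_range]

theorem Zk_mono (C : Chain) {W : ℝ → ℤ → ℝ} (hW : ∀ a z, 0 ≤ W a z)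
    (hm : ∀ a b z, a ≤ b → W a z ≤ W b z) : ∀ (n : ℕ) (ω ω' : ℕ → ℝ) (x y : ℤ),
    (∀ i < n, ω i ≤ ω' i) → Zk C W n ω x y ≤ Zk C W n ω' x y
  | 0, _, _, _, _, _ => le_rfl
  | n + 1, ω, ω', x, y, h => by
    rw [Zk, Zk]
    refine Finset.sum_le_sum fun z _ => ?_
    refine mul_le_mul ?_ (Zk_mono C hW hm n _ _ z y fun i hi => ?_) ?_ ?_
    · exact mul_le_mul_of_nonneg_left (hm _ _ _ (h 0 (Nat.succ_pos n))) (C.nonneg _ _)
    · exact h (i + 1) (by omega)
    · exact nn C hW n _ z y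
    · exact mul_nonneg (C.nonneg _ _) (hW _ _)
where
  /-- nonnegativity -/
  nn (C : Chain) {W : ℝ → ℤ → ℝ} (hW : ∀ a z, 0 ≤ W a z) :
      ∀ (n : ℕ) (ω : ℕ → ℝ) (x y : ℤ), 0 ≤ Zk C W n ω x y
    | 0, _, _, _ => by
      rw [Zk]
      split_ifs <;> norm_num
    | n + 1, ω, x, y => by
      rw [Zk]
      exact Finset.sum_nonneg fun z _ =>
        mul_nonneg (mul_nonneg (C.nonneg _ _) (hW _ _)) (nn C hW n _ z y)

end Thin

/-- The law is not a point mass (mean 0, variance 1), so there is `x` with `0 < μ [x, ∞) < 1` (e.g.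
`x > 0` small: `μ (0, ∞) > 0` and `μ (-∞, 0) > 0` because the mean is `0` and the variance is not).
Take `k` even with `μ [x, ∞) ^ k ≤ 1 / 4` and use independence
(`MP_daa227_pr.lintegral_mul_shift` or `Measure.infinitePi` of a cylinder, induction on `k`). -/
theorem thin (μ : Measure ℝ) [IsProbabilityMeasure μ] (hμ : ExpMom μ) (hmean : ∫ x, x ∂μ = 0)
    (hvar : ∫ x, x ^ 2 ∂μ = 1) : ∃ (x : ℝ) (k : ℕ) (q : ℝ), Even k ∧ 0 < q ∧ q ≤ 1 / 4 ∧
      (seqLaw μ {ω | ∀ i < k, x ≤ ω i}).toReal = q := by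
  have hpos := Thin.pos_mass μ hμ hmean hvar 1 one_ne_zero
  have hneg := Thin.pos_mass μ hμ hmean hvar (-1) (by norm_num)
  -- a point `x > 0` with positive mass to the right
  obtain ⟨m, hm⟩ : ∃ m : ℕ, μ (Set.Ici (1 / ((m : ℝ) + 1))) ≠ 0 := by
    by_contra hcon
    push Not at hcon
    apply hpos
    refine measure_mono_null (t := ⋃ m : ℕ, Set.Ici (1 / ((m : ℝ) + 1))) ?_
      (measure_iUnion_null hcon)
    intro x hx
    have hx' : 0 < x := by
      have h : 0 < 1 * x := hx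
      linarith
    obtain ⟨m, hm⟩ := exists_nat_one_div_lt hx'
    exact Set.mem_iUnion.2 ⟨m, hm.le⟩
  set x : ℝ := 1 / ((m : ℝ) + 1) with hxdef
  have hx0 : 0 < x := by positivity
  set p : ℝ := (μ (Set.Ici x)).toReal with hp
  have hp0 : 0 < p := ENNReal.toReal_pos hm (measure_ne_top _ _)
  have hp1 : p < 1 := by
    have h1 : Disjoint (Set.Ici x) {y : ℝ | 0 < -1 * y} := by
      rw [Set.disjoint_left]
      intro y hy hy'
      have h2 : x ≤ y := hy
      have h3 : 0 < -1 * y := hy'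
      linarith
    have hms : MeasurableSet {y : ℝ | 0 < -1 * y} :=
      measurableSet_lt measurable_const (measurable_id.const_mul (-1))
    have h2 : (μ (Set.Ici x)).toReal + (μ {y : ℝ | 0 < -1 * y}).toReal ≤ 1 := by
      rw [← ENNReal.toReal_add (measure_ne_top _ _) (measure_ne_top _ _),
        ← measure_union h1 hms]
      have h3 : μ (Set.Ici x ∪ {y : ℝ | 0 < -1 * y}) ≤ 1 := prob_le_one
      exact ENNReal.toReal_le_of_le_ofReal zero_le_one (by simpa using h3)
    have h4 : 0 < (μ {y : ℝ | 0 < -1 * y}).toReal :=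
      ENNReal.toReal_pos hneg (measure_ne_top _ _)
    linarith
  obtain ⟨k, hk⟩ := exists_pow_lt_of_lt_one (show (0 : ℝ) < 1 / 4 by norm_num) hp1
  refine ⟨x, 2 * k, p ^ (2 * k), even_two_mul k, by positivity, ?_, ?_⟩
  · have h1 : p ^ (2 * k) ≤ p ^ k := pow_le_pow_of_le_one hp0.le hp1.le (by omega)
    linarith
  · rw [Thin.cyl, ENNReal.toReal_pow]

/-- The partition function is nondecreasing in the charges (`β > 0`, `φ ≥ 0`): on the event
`∀ i < k, x ≤ ω i` it is at least its value at the constant sequence `x`, which is positive for even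
`k` (`AZ.Z_pos`). -/
theorem z_low (M : Mod) (h x : ℝ) {k : ℕ} (hk : Even k) : ∃ D : ℝ, 0 ≤ D ∧ ∀ ω : ℕ → ℝ,
    (∀ i < k, x ≤ ω i) → -D ≤ Real.log (M.Z h k ω) := by
  have hpos : 0 < M.Z h k (fun _ => x) := M.Z_pos h hk _
  refine ⟨max 0 (-Real.log (M.Z h k (fun _ => x))), le_max_left _ _, fun ω hω => ?_⟩
  have h1 : M.Z h k (fun _ => x) ≤ M.Z h k ω := by
    refine Thin.Zk_mono M.C (fun a z => (M.W_pos h a z).le) ?_ k _ _ 0 0 hω
    intro a b z hab
    unfold Mod.W
    apply Real.exp_le_exp.2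
    apply mul_le_mul_of_nonneg_right _ (M.φ_nonneg z)
    have := mul_le_mul_of_nonneg_left hab M.β_pos.le
    linarith
  have h2 := Real.log_le_log hpos h1
  have h3 := le_max_right 0 (-Real.log (M.Z h k (fun _ => x)))
  linarith

end

end Pool.Agent.IG
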