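import Pool.Agent.Lib.MP_daa227_pr_IG.StratE
import Pool.Agent.Lib.MP_daa227_pr_IG.Thin
import Pool.Agent.Lib.MP_daa227_pr_AZ.LevelA
import Pool.Agent.Lib.MP_daa227_pr_AZ.Free
import Pool.Agent.Lib.MP_daa227_pr_IO.CopH

/-!
# MP_daa227_pr, general potentials: a small moment at the critical point
-/

namespace Pool.Agent.IG

open MeasureTheory ProbabilityTheory Finset Filter Topology
open MP_daa227_pr (Chain Zk Zf Gk Gf KU K0 Ren shift seqLaw ExpMom DepOn Good GoodW mom)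
open Pool.Agent.AZ (Mod Kv lmg)
open Pool.Agent.IOrd (Sys aS cv)

noncomputable section

namespace Hop

/-- indicator of a set -/
def gi (A : Set (ℕ → ℝ)) (ω : ℕ → ℝ) : ℝ := A.indicator (fun _ => (1 : ℝ)) ω

theorem gi_01 (A : Set (ℕ → ℝ)) (ω : ℕ → ℝ) : (ω ∈ A ∧ gi A ω = 1) ∨ (ω ∉ A ∧ gi A ω = 0) := by
  unfold gi
  by_cases h : ω ∈ A
  · left
    exact ⟨h, Set.indicator_of_mem h _⟩
  · right
    exact ⟨h, Set.indicator_of_notMem h _⟩

theorem gi_meas {A : Set (ℕ → ℝ)} (hA : MeasurableSet A) : Measurable (gi A) :=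
  measurable_const.indicator hA

theorem gi_int (μ : Measure ℝ) {A : Set (ℕ → ℝ)} (hA : MeasurableSet A) :
    ∫ ω, gi A ω ∂seqLaw μ = (seqLaw μ A).toReal := by
  have h := integral_indicator_one (μ := seqLaw μ) hA
  exact h

theorem gi_dep {k : ℕ} {A : Set (ℕ → ℝ)}
    (h : ∀ ω ω' : ℕ → ℝ, (∀ i < k, ω i = ω' i) → ω ∈ A → ω' ∈ A) : DepOn k (gi A) := by
  intro ω ω' hω
  rcases gi_01 A ω with ⟨h1, e1⟩ | ⟨h1, e1⟩
  · rcases gi_01 A ω' with ⟨h2, e2⟩ | ⟨h2, e2⟩
    · rw [e1, e2]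
    · exact absurd (h ω ω' hω h1) h2
  · rcases gi_01 A ω' with ⟨h2, e2⟩ | ⟨h2, e2⟩
    · exact absurd (h ω' ω (fun i hi => (hω i hi).symm) h2) h1
    · rw [e1, e2]

/-- the quantitative content of the strategy for one level -/
theorem one (M : Mod) {h : ℝ} (hh : 0 < h) (hF : M.Fr h ≤ 0) {c A₀ : ℝ} (hc : 0 < c)
    (hA₀ : 0 ≤ A₀)
    (hK : ∀ n : ℕ, 1 ≤ n → c * (n : ℝ) ^ (-A₀) ≤ Kv M.C (fun z => -h * M.φ z) (2 * n) 0)
    {x : ℝ} {k : ℕ} {q : ℝ} (hk : Even k) (hq0 : 0 < q) (hq1 : q ≤ 1 / 4)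
    (hq : (seqLaw M.μ {ω | ∀ i < k, x ≤ ω i}).toReal = q) {D : ℝ}
    (hD : ∀ ω : ℕ → ℝ, (∀ i < k, x ≤ ω i) → -D ≤ Real.log (M.Z h k ω))
    {n : ℕ} (hn : 1 ≤ n) (u : ℝ) {p : ℝ} (hp0 : 0 < p)
    (hp : (seqLaw M.μ {ω | Real.exp u ≤ M.Z h (2 * n) ω}).toReal = p) :
    u ≤ D + (1 + M.β / h) * (|Real.log c| + (A₀ + 1)) +
      (1 + M.β / h) * (A₀ + 1) * (Real.log (n + k) + Real.log (1 / (p * q))) := by
  obtain ⟨k', rfl⟩ := hk
  have hm1 : 1 ≤ n + k' := by omega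
  have hnn : 2 * n + (k' + k') = 2 * (n + k') := by ring
  set A1 : Set (ℕ → ℝ) := {ω | Real.exp u ≤ M.Z h (2 * n) ω} with hA1
  set A2 : Set (ℕ → ℝ) := {ω | ∀ i < k' + k', x ≤ ω i} with hA2
  have mA1 : MeasurableSet A1 := measurableSet_le measurable_const (M.good_Z h (2 * n)).meas
  have mA2 : MeasurableSet A2 := by
    have e : A2 = ⋂ i ∈ Set.Iio (k' + k'), {ω : ℕ → ℝ | x ≤ ω i} := by
      ext ω
      simp [hA2]
    rw [e]
    exact MeasurableSet.biInter (Set.to_countable _) fun i _ =>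
      measurableSet_le measurable_const (measurable_pi_apply i)
  have d1 : DepOn (2 * n) (gi A1) := gi_dep fun ω ω' hω h1 => by
    have h2 : M.Z h (2 * n) ω = M.Z h (2 * n) ω' := (M.good_Z h (2 * n)).depOn ω ω' hω
    show Real.exp u ≤ M.Z h (2 * n) ω'
    rw [← h2]
    exact h1
  have d2 : DepOn (k' + k') (gi A2) := gi_dep fun ω ω' hω h1 i hi => by
    rw [← hω i hi]
    exact h1 i hi
  set b : (ℕ → ℝ) → ℝ := fun ω => 1 - gi A1 ω * gi A2 (shift (2 * n) ω) with hb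
  have hbm : Measurable b := measurable_const.sub ((gi_meas mA1).mul
    ((gi_meas mA2).comp (MP_daa227_pr.measurable_shift (2 * n))))
  have hbd : DepOn (2 * n + (k' + k')) b := by
    intro ω ω' hω
    have e1 := d1 ω ω' fun i hi => hω i (by omega)
    have e2 := d2 (shift (2 * n) ω) (shift (2 * n) ω') fun i hi => hω (i + 2 * n) (by omega)
    show 1 - _ = 1 - _
    rw [e1, e2]
  have h01 : ∀ ω, b ω = 0 ∨ b ω = 1 := by
    intro ω
    show 1 - gi A1 ω * gi A2 (shift (2 * n) ω) = 0 ∨ 1 - gi A1 ω * gi A2 (shift (2 * n) ω) = 1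
    rcases gi_01 A1 ω with ⟨_, e1⟩ | ⟨_, e1⟩ <;>
      rcases gi_01 A2 (shift (2 * n) ω) with ⟨_, e2⟩ | ⟨_, e2⟩ <;> rw [e1, e2] <;> norm_num
  have hgood : ∀ ω, b ω ≠ 1 → u - D ≤ Real.log (M.Z h (2 * n + (k' + k')) ω) := by
    intro ω hω
    have h3 : ω ∈ A1 ∧ shift (2 * n) ω ∈ A2 := by
      rcases gi_01 A1 ω with ⟨h1, e1⟩ | ⟨h1, e1⟩
      · rcases gi_01 A2 (shift (2 * n) ω) with ⟨h2, e2⟩ | ⟨h2, e2⟩
        · exact ⟨h1, h2⟩
        · exact absurd (show 1 - gi A1 ω * gi A2 (shift (2 * n) ω) = 1 by rw [e2]; ring) hω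
      · exact absurd (show 1 - gi A1 ω * gi A2 (shift (2 * n) ω) = 1 by rw [e1]; ring) hω
    have h4 : Real.exp u ≤ M.Z h (2 * n) ω := h3.1
    have h5 := hD _ h3.2
    have z1 := M.Z_pos h (even_two_mul n) ω
    have z2 := M.Z_pos h (Even.add_self k') (shift (2 * n) ω)
    have h6 : u ≤ Real.log (M.Z h (2 * n) ω) := (Real.le_log_iff_exp_le z1).2 h4
    have h7 := Real.log_le_log (mul_pos z1 z2) (M.Z_mul_le h (2 * n) (k' + k') ω)
    rw [Real.log_mul z1.ne' z2.ne'] at h7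
    linarith
  have hint : ∫ ω, b ω ∂seqLaw M.μ = 1 - p * q := by
    have i1 : ∫ ω, gi A1 ω * gi A2 (shift (2 * n) ω) ∂seqLaw M.μ = p * q := by
      rw [Pool.Agent.AZ.Strat.integral_mul_shift M.μ (gi_meas mA1) d1 (gi_meas mA2),
        gi_int M.μ mA1, gi_int M.μ mA2, hp, hq]
    have i2 : Integrable (fun ω => gi A1 ω * gi A2 (shift (2 * n) ω)) (seqLaw M.μ) := by
      refine Integrable.of_bound ((gi_meas mA1).mul
        ((gi_meas mA2).comp (MP_daa227_pr.measurable_shift (2 * n)))).aestronglyMeasurable 1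
        (ae_of_all _ fun ω => ?_)
      show ‖gi A1 ω * gi A2 (shift (2 * n) ω)‖ ≤ 1
      rcases gi_01 A1 ω with ⟨_, e1⟩ | ⟨_, e1⟩ <;>
        rcases gi_01 A2 (shift (2 * n) ω) with ⟨_, e2⟩ | ⟨_, e2⟩ <;> rw [e1, e2] <;> norm_num
    show ∫ ω, (1 - gi A1 ω * gi A2 (shift (2 * n) ω)) ∂seqLaw M.μ = 1 - p * q
    rw [integral_sub (integrable_const _) i2, i1]
    simp
  have hp1 : p ≤ 1 := by
    rw [← hp]
    exact measureReal_le_one
  have hpq0 : 0 < p * q := mul_pos hp0 hq0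
  have hpq1 : p * q ≤ 1 / 4 := by nlinarith
  have hβ := M.β_pos
  set B : ℝ := 1 + M.β / h with hB
  have hB1 : 1 ≤ B := by
    rw [hB]
    have : 0 < M.β / h := div_pos hβ hh
    linarith
  have hBs : 1 + 2 * M.β * Real.sqrt (p * q) / h ≤ B := by
    have s1 : Real.sqrt (p * q) ≤ 1 / 2 := by
      rw [show (1:ℝ) / 2 = Real.sqrt ((1 / 2) ^ 2) by rw [Real.sqrt_sq (by norm_num)]]
      exact Real.sqrt_le_sqrt (by norm_num; linarith)
    rw [hB]
    have : 2 * M.β * Real.sqrt (p * q) / h ≤ M.β / h := by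
      apply div_le_div_of_nonneg_right _ hh.le
      nlinarith
    linarith
  have hBs0 : 0 ≤ 1 + 2 * M.β * Real.sqrt (p * q) / h := by positivity
  set A' : ℝ := A₀ + 1 with hA'
  have hA'0 : 0 < A' := by rw [hA']; linarith
  set lm : ℝ := Real.log ((n + k' : ℕ) : ℝ) with hlm
  have hlm0 : 0 ≤ lm := Real.log_nonneg (by exact_mod_cast hm1)
  set lp : ℝ := Real.log (1 / (p * q)) with hlp
  have hlp0 : 0 ≤ lp := by
    apply Real.log_nonneg
    rw [le_div_iff₀ hpq0]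
    linarith
  set C₁ : ℝ := |Real.log c| with hC₁
  have hC₁0 : 0 ≤ C₁ := abs_nonneg _
  have hQ : ∀ j : ℕ, 1 ≤ j → (1 + 2 * M.β * Real.sqrt (p * q) / h) *
      (-Real.log (Kv M.C (fun z => -h * M.φ z) (j * (2 * n + (k' + k'))) 0)) ≤
      B * (A' * lm + A' * lp + C₁) + (B * A' * (p * q)) * j := by
    intro j hj
    have hjr : (1:ℝ) ≤ j := by exact_mod_cast hj
    have hj0 : (0:ℝ) < j := by linarith
    have hmr : (1:ℝ) ≤ ((n + k' : ℕ) : ℝ) := by exact_mod_cast hm1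
    have e1 : j * (2 * n + (k' + k')) = 2 * (j * (n + k')) := by ring
    have h1 : 1 ≤ j * (n + k') := Nat.mul_pos hj hm1
    have h2 := hK (j * (n + k')) h1
    rw [e1]
    set Kk := Kv M.C (fun z => -h * M.φ z) (2 * (j * (n + k'))) 0 with hKk
    have hr : (0:ℝ) < ((j * (n + k') : ℕ) : ℝ) := by exact_mod_cast h1
    have h3 : 0 < c * ((j * (n + k') : ℕ) : ℝ) ^ (-A₀) := mul_pos hc (Real.rpow_pos_of_pos hr _)
    have h4 := Real.log_le_log h3 h2
    rw [Real.log_mul hc.ne' (Real.rpow_pos_of_pos hr _).ne', Real.log_rpow hr, Nat.cast_mul,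
      Real.log_mul hj0.ne' (by linarith)] at h4
    have h5 : -Real.log c ≤ C₁ := neg_le_abs _
    have hlj0 : 0 ≤ Real.log j := Real.log_nonneg hjr
    have h6 : -Real.log Kk ≤ A' * (Real.log j + lm) + C₁ := by
      have : A₀ * (Real.log j + lm) ≤ A' * (Real.log j + lm) :=
        mul_le_mul_of_nonneg_right (by rw [hA']; linarith) (by linarith)
      linarith
    have h7 : Real.log j ≤ (p * q) * j + lp := by
      have h8 : Real.log j = Real.log (p * q * j) + lp := by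
        rw [hlp, ← Real.log_mul (by positivity) (by positivity)]
        congr 1
        field_simp
      have h9 := Real.log_le_sub_one_of_pos (show 0 < p * q * (j : ℝ) by positivity)
      rw [h8]
      linarith
    have h10 : 0 ≤ A' * (Real.log j + lm) + C₁ := by positivity
    have h11 : (1 + 2 * M.β * Real.sqrt (p * q) / h) * (-Real.log Kk) ≤
        B * (A' * (Real.log j + lm) + C₁) :=
      (mul_le_mul_of_nonneg_left h6 hBs0).trans (mul_le_mul_of_nonneg_right hBs h10)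
    refine h11.trans ?_
    have h12 : A' * Real.log j ≤ A' * ((p * q) * j + lp) := mul_le_mul_of_nonneg_left h7 hA'0.le
    have h13 : B * (A' * (Real.log j + lm) + C₁) ≤
        B * (A' * ((p * q) * j + lp) + A' * lm + C₁) :=
      mul_le_mul_of_nonneg_left (by linarith) (by linarith)
    refine h13.trans (le_of_eq ?_)
    ring
  have hc₀ : 0 ≤ B * (A' * lm + A' * lp + C₁) := by positivity
  have hc₁ : 0 ≤ B * A' * (p * q) := by positivity
  have hev : Even (2 * n + (k' + k')) := by rw [hnn]; exact even_two_mul _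
  have key : (p * q) * (u - D - B * (A' * lm + A' * lp + C₁)) -
      (1 - p * q) * (B * A' * (p * q)) ≤ 0 := by
    by_contra hcon
    rw [not_le] at hcon
    set X : ℝ := (p * q) * (u - D - B * (A' * lm + A' * lp + C₁)) -
      (1 - p * q) * (B * A' * (p * q)) with hX
    obtain ⟨T, hT⟩ := exists_nat_gt (B * (A' * lm + A' * lp + C₁) / X)
    rw [div_lt_iff₀ hcon] at hT
    have h1 := strategyE M hh hev (by omega) (u - D) hbm hbd h01 hgood hint hpq0 hpq1 hc₀ hc₁ hQ T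
    have h2 := M.Ψ_le h (hev.mul_left T)
    have h3 : ((T * (2 * n + (k' + k')) : ℕ) : ℝ) * M.Fr h ≤ 0 :=
      mul_nonpos_of_nonneg_of_nonpos (Nat.cast_nonneg _) hF
    rw [← hX] at h1
    linarith
  have h1 : (1 - p * q) * (B * A' * (p * q)) ≤ B * A' * (p * q) := by
    have : 0 ≤ (p * q) * (B * A' * (p * q)) := by positivity
    nlinarith
  have h2 : (p * q) * (u - D - B * (A' * lm + A' * lp + C₁)) ≤ (p * q) * (B * A') := by
    linarith
  have h3 := le_of_mul_le_mul_left h2 hpq0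
  have h4 : lm ≤ Real.log ((n : ℝ) + ((k' + k' : ℕ) : ℝ)) := by
    rw [hlm]
    apply Real.log_le_log (by exact_mod_cast hm1)
    push_cast
    have : (0:ℝ) ≤ k' := Nat.cast_nonneg _
    linarith
  have h5 : B * A' * lm ≤ B * A' * Real.log ((n : ℝ) + ((k' + k' : ℕ) : ℝ)) :=
    mul_le_mul_of_nonneg_left h4 (by positivity)
  have h6 : u ≤ D + B * (C₁ + A') + B * A' * lm + B * A' * lp := by
    linarith
  calc u ≤ D + B * (C₁ + A') + B * A' * lm + B * A' * lp := h6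
    _ ≤ D + B * (C₁ + A') + B * A' * Real.log ((n : ℝ) + ((k' + k' : ℕ) : ℝ)) +
        B * A' * lp := by linarith
    _ = _ := by ring

end Hop

/-- Let `x, k, q` be from `thin`, `D` from `z_low`. Good event for the block length `n' = 2 n + k`:
`exp u ≤ Z (2 n) ω` and `x ≤ ω (2 n + i)` for `i < k`; its probability is `p' = p q ≤ 1 / 4`
(independence), and there `log Z (2 n + k) ≥ u - D` (`AZ.Z_mul_le`). If `p > 0`: `PolyCost` at
`η = h` gives, for `j ≥ 1`, `-log Kv (j n') ≤ A' log (j n') + C₁`, and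
`log j ≤ p' j + log (1 / p')`; with `B = 1 + β / h` (`2 sqrt p' ≤ 1`) take `c₁ = B A' p'`,
`c₀ = B (A' log n' + A' log (1 / p') + C₁)`. `strategyE`, `Ψ (T n') ≤ T n' Fr ≤ 0` (`AZ.Ψ_le`) and
`T → ∞`: `p' (u - D - c₀) ≤ c₁`, i.e. `u ≤ D + c₀ + B A'`, so
`p' ≤ n' exp (-(u - D - B A' - B C₁) / (B A'))` (take `A' ≥ 1`), `p = p' / q`, `n' ≤ (2 + k) n`. -/
theorem hop_tail (M : Mod) (hP : PolyCost M) {h : ℝ} (hh : 0 < h) (hF : M.Fr h ≤ 0) :
    ∃ A C : ℝ, 0 < A ∧ 0 < C ∧ ∀ n : ℕ, 1 ≤ n → ∀ u : ℝ,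
      (seqLaw M.μ {ω | Real.exp u ≤ M.Z h (2 * n) ω}).toReal ≤ C * n * Real.exp (-(u / A)) := by
  obtain ⟨x, k, q, hk, hq0, hq1, hq⟩ := thin M.μ M.exp_mom M.mean M.var
  obtain ⟨D, _, hD⟩ := z_low M h x hk
  obtain ⟨c, A₀, hc, hA₀, hK⟩ := hP h hh
  have hβ := M.β_pos
  have hBA : 0 < (1 + M.β / h) * (A₀ + 1) := by positivity
  set E₀ : ℝ := D + (1 + M.β / h) * (|Real.log c| + (A₀ + 1)) with hE₀
  refine ⟨(1 + M.β / h) * (A₀ + 1),
    (1 + k) / q * Real.exp (E₀ / ((1 + M.β / h) * (A₀ + 1))), hBA, by positivity, ?_⟩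
  set A : ℝ := (1 + M.β / h) * (A₀ + 1) with hA
  intro n hn u
  have hn1 : (1:ℝ) ≤ n := by exact_mod_cast hn
  have hk0 : (0:ℝ) ≤ k := Nat.cast_nonneg k
  set p : ℝ := (seqLaw M.μ {ω | Real.exp u ≤ M.Z h (2 * n) ω}).toReal with hp
  have hp0 : 0 ≤ p := ENNReal.toReal_nonneg
  rcases hp0.eq_or_lt with h0 | h0
  · rw [← h0]
    positivity
  have h1 := Hop.one M hh hF hc hA₀ hK hk hq0 hq1 hq hD hn u h0 hp.symm
  rw [← hE₀, ← hA] at h1
  have h2 : Real.log (1 / (p * q)) = -Real.log (p * q) := by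
    rw [one_div, Real.log_inv]
  rw [h2] at h1
  have h3 : Real.log (p * q) ≤ E₀ / A + Real.log (n + k) - u / A := by
    rw [div_add' _ _ _ hBA.ne', div_sub_div_same, le_div_iff₀ hBA]
    nlinarith
  have h4 : p * q ≤ Real.exp (E₀ / A + Real.log (n + k) - u / A) :=
    (Real.log_le_iff_le_exp (mul_pos h0 hq0)).1 h3
  have h5 : Real.exp (E₀ / A + Real.log (n + k) - u / A) =
      Real.exp (E₀ / A) * (n + k) * Real.exp (-(u / A)) := by
    rw [sub_eq_add_neg, Real.exp_add, Real.exp_add, Real.exp_log (by linarith)]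
  rw [h5] at h4
  have h6 : (n : ℝ) + k ≤ (1 + k) * n := by nlinarith
  have h7 : Real.exp (E₀ / A) * (n + k) * Real.exp (-(u / A)) ≤
      Real.exp (E₀ / A) * ((1 + k) * n) * Real.exp (-(u / A)) := by
    gcongr
  have h8 : p ≤ Real.exp (E₀ / A) * ((1 + k) * n) * Real.exp (-(u / A)) / q := by
    rw [le_div_iff₀ hq0]
    exact h4.trans h7
  refine h8.trans (le_of_eq ?_)
  field_simp

/-- `AZ.Level.mom_le_tail` with `γ = 1 / (2 A)`, `γ₀ = min (1 / (4 A)) 1` and the level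
`2 A log (C n)` (or `0` if negative): the moment of order `γ₀` is polynomially bounded in `n`;
`IOrd.CopH.le_one_of_super` (`sys`, `IOrd.aS_mul`, `IOrd.aS_zero`) gives `≤ 1`. Compare
`IOrd.cop_h0` (Lib/MP_daa227_pr_IO/CopH.lean). Note `Zg M hc 0 n = M.Z hc (2 n)`. -/
theorem h_zero (M : Mod) (hP : PolyCost M) {hc : ℝ} (hh : 0 < hc) (hF : M.Fr hc ≤ 0) :
    ∃ s₀, 0 < s₀ ∧ s₀ ≤ 1 ∧ ∀ n, aS M.μ (Zg M hc) s₀ 0 n ≤ 1 := by
  obtain ⟨A, C, hA, hC, ht⟩ := hop_tail M hP hh hF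
  have hZ := sys M hc
  set C' : ℝ := max C 1 with hC'
  have hC'1 : 1 ≤ C' := le_max_right _ _
  have hCC' : C ≤ C' := le_max_left _ _
  set s₀ : ℝ := min (1 / (4 * A)) 1 with hs
  have hs0 : 0 < s₀ := lt_min (by positivity) one_pos
  have hs1 : s₀ ≤ 1 := min_le_right _ _
  have hsA : s₀ ≤ 1 / (4 * A) := min_le_left _ _
  have hsγ : s₀ < 1 / (2 * A) := by
    refine hsA.trans_lt ?_
    rw [div_lt_div_iff₀ (by positivity) (by positivity)]
    linarith
  refine ⟨s₀, hs0, hs1, ?_⟩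
  have hgap : 0 < 1 / (2 * A) - s₀ := by linarith
  set K : ℝ := Real.exp s₀ * (1 - Real.exp (-(1 / (2 * A) - s₀)))⁻¹ with hK
  have hK0 : 0 < K := by
    apply mul_pos (Real.exp_pos _)
    apply inv_pos.2
    have h9 : Real.exp (-(1 / (2 * A) - s₀)) < Real.exp 0 := Real.exp_lt_exp.2 (by linarith)
    rw [Real.exp_zero] at h9
    linarith
  refine Pool.Agent.IOrd.CopH.le_one_of_super (fun n => Pool.Agent.IOrd.aS_nonneg _ _ _ _ n)
    (Pool.Agent.IOrd.aS_zero hZ _ _)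
    (fun m n => Pool.Agent.IOrd.aS_mul hZ hs0.le hs1 0 m n) (A := 1) one_pos
    (C := C' + K) (by positivity) ?_
  intro n hn
  have hn1 : (1:ℝ) ≤ n := by exact_mod_cast hn
  have hCn : 1 ≤ C' * n := by nlinarith
  have hln : 0 ≤ Real.log (C' * n) := Real.log_nonneg hCn
  have hZe : Zg M hc 0 n = fun ω => M.Z hc (2 * n) ω := by
    funext ω
    unfold Zg
    rw [zero_div, sub_zero]
  have h1 := Pool.Agent.AZ.Level.mom_le_tail (μ := M.μ) (M.good_Z hc (2 * n)).meas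
    (A := 2 * A * Real.log (C' * n)) (γ₀ := s₀) (γ := 1 / (2 * A)) (by positivity) hs0 hsγ (by
      intro u hu
      have h2 := ht n hn u
      rw [← ENNReal.ofReal_toReal (measure_ne_top (seqLaw M.μ)
        {ω | Real.exp u ≤ M.Z hc (2 * n) ω})]
      apply ENNReal.ofReal_le_ofReal
      refine h2.trans ?_
      have h3 : C * n ≤ C' * n := by gcongr
      have h4 : C' * n = Real.exp (Real.log (C' * n)) := (Real.exp_log (by linarith)).symm
      calc C * n * Real.exp (-(u / A)) ≤ C' * n * Real.exp (-(u / A)) := by gcongr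
        _ = Real.exp (Real.log (C' * n) + -(u / A)) := by rw [Real.exp_add, ← h4]
        _ ≤ Real.exp (-(1 / (2 * A) * u)) := by
            apply Real.exp_le_exp.2
            have h5 : Real.log (C' * n) ≤ u / (2 * A) := by
              rw [le_div_iff₀ (by positivity)]
              linarith
            have h6 : u / A = u / (2 * A) + u / (2 * A) := by field_simp; ring
            have h7 : 1 / (2 * A) * u = u / (2 * A) := by ring
            rw [h6, h7]
            linarith)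
  rw [← hK] at h1
  have h2 : aS M.μ (Zg M hc) s₀ 0 n ≤ Real.exp (s₀ * (2 * A * Real.log (C' * n))) + K := by
    unfold aS
    rw [hZe]
    exact ENNReal.toReal_le_of_le_ofReal (by positivity) h1
  have h3 : s₀ * (2 * A * Real.log (C' * n)) ≤ Real.log (C' * n) := by
    have h4 : s₀ * (2 * A) ≤ 1 := by
      have h5 : s₀ * (2 * A) ≤ 1 / (4 * A) * (2 * A) :=
        mul_le_mul_of_nonneg_right hsA (by positivity)
      have h6 : 1 / (4 * A) * (2 * A) = 1 / 2 := by field_simp; norm_num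
      linarith
    calc s₀ * (2 * A * Real.log (C' * n)) = s₀ * (2 * A) * Real.log (C' * n) := by ring
      _ ≤ 1 * Real.log (C' * n) := mul_le_mul_of_nonneg_right h4 hln
      _ = _ := one_mul _
  have h4 : Real.exp (s₀ * (2 * A * Real.log (C' * n))) ≤ C' * n := by
    refine (Real.exp_le_exp.2 h3).trans ?_
    rw [Real.exp_log (by linarith)]
  have h5 : Real.exp (1 * Real.log n) = n := by rw [one_mul, Real.exp_log (by linarith)]
  rw [h5]
  nlinarith

end

end Pool.Agent.IG
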