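import Pool.Agent.Lib.MP_daa227_pr_IG.Main2
import Pool.Agent.Lib.MP_daa227_pr_IG.BdsG
import Pool.Agent.Lib.MP_daa227_pr_IG.ExcAll
import Pool.Agent.Lib.MP_daa227_pr_IG.Hop
import Pool.Agent.Lib.MP_daa227_pr_IG.HOne
import Pool.Agent.Lib.MP_daa227_pr_IG.Crit

/-!
# MP_daa227_pr, general potentials: the dichotomy
-/

namespace Pool.Agent.IG

open MeasureTheory ProbabilityTheory Finset Filter Topology
open MP_daa227_pr (Chain Zk Zf Gk Gf KU K0 Ren shift seqLaw ExpMom DepOn Good GoodW mom)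
open Pool.Agent.AZ (Mod Kv lmg)
open Pool.Agent.IOrd (Sys aS cv)

noncomputable section

/-- if the annealed model is localised at the quenched critical point, the quenched transition is of
infinite order -/
theorem infinite_order (M : Mod) (hP : PolyCost M) {hc : ℝ} (hc0 : 0 < hc)
    (hcrit : ∀ h, 0 < M.Fr h ↔ h < hc) {N : ℕ} (hN : 1 < ∑ n ∈ range N, M.g hc n) {q : ℝ}
    (hq : 0 < q) : ∃ K : ℝ, ∀ δ : ℝ, 0 ≤ δ → δ ≤ 1 → M.Fr (hc - δ) ≤ K * δ ^ q := by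
  have hΦ := M.Φ_pos
  have hF0 : M.Fr hc ≤ 0 := by
    by_contra hcon
    push Not at hcon
    exact lt_irrefl _ ((hcrit hc).1 hcon)
  have hlip : ∀ δ, 0 ≤ δ → M.Fr (hc - δ) ≤ δ * M.Φ := fun δ hδ => by
    have h1 := M.Fr_lip (h := hc - δ) (h' := hc) (by linarith)
    have h2 : hc - (hc - δ) = δ := by ring
    rw [h2] at h1
    linarith
  have hFd : ∀ d, 0 ≤ d → 2 * M.Fr (hc - d / M.Φ) ≤ 2 * d := fun d hd => by
    have h1 := hlip (d / M.Φ) (by positivity)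
    rw [div_mul_cancel₀ _ hΦ.ne'] at h1
    linarith
  obtain ⟨K, hK⟩ := main2 (sys M hc) (F := fun d => 2 * M.Fr (hc - d / M.Φ))
    (fun d _ => tendsto_F M hc d) hFd (h_zero M hP hc0 hF0) (h_one M hN)
    (fun s s₂ hs h12 h2 hS => by
      obtain ⟨c, R, K, hc', hR, hK, hE⟩ := exc_all M hc0 hs h12 h2 hS
      obtain ⟨c₁, A₁, hc₁, hA₁, hL⟩ := aS_low M hP hc hs (h12.le.trans h2)
      exact bdp M hs (h12.le.trans h2) hR hc' hK hE hc₁ hA₁ hL) hq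
  refine ⟨max (K / 2) M.Φ * M.Φ ^ q, fun δ h0 h1 => ?_⟩
  have hpow : (δ * M.Φ) ^ q = δ ^ q * M.Φ ^ q := Real.mul_rpow h0 hΦ.le
  have hq0 : 0 ≤ (δ * M.Φ) ^ q := Real.rpow_nonneg (by positivity) q
  have hgoal : max (K / 2) M.Φ * M.Φ ^ q * δ ^ q = max (K / 2) M.Φ * (δ * M.Φ) ^ q := by
    rw [hpow]; ring
  rw [hgoal]
  by_cases hd : δ * M.Φ ≤ 1
  · have h2 := hK (δ * M.Φ) (by positivity) hd
    rw [mul_div_cancel_right₀ _ hΦ.ne'] at h2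
    have h3 : M.Fr (hc - δ) ≤ K / 2 * (δ * M.Φ) ^ q := by linarith
    exact h3.trans (mul_le_mul_of_nonneg_right (le_max_left _ _) hq0)
  · push Not at hd
    have h2 : 1 ≤ (δ * M.Φ) ^ q := Real.one_le_rpow hd.le hq.le
    have h3 : M.Fr (hc - δ) ≤ M.Φ := (hlip δ h0).trans (by nlinarith)
    have h4 : M.Φ ≤ max (K / 2) M.Φ := le_max_right _ _
    have h5 : 0 ≤ max (K / 2) M.Φ := hΦ.le.trans h4
    calc M.Fr (hc - δ) ≤ M.Φ := h3
      _ ≤ max (K / 2) M.Φ * 1 := by rw [mul_one]; exact h4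
      _ ≤ max (K / 2) M.Φ * (δ * M.Φ) ^ q := mul_le_mul_of_nonneg_left h2 h5

/-- the dichotomy: the quenched critical point is the annealed one, or the quenched transition is of
infinite order -/
theorem dichotomy (M : Mod) (hP : PolyCost M) : ∃ hc : ℝ, 0 < hc ∧ (∀ h, 0 < M.Fr h ↔ h < hc) ∧
    ((∀ N : ℕ, ∑ n ∈ range N, M.g hc n ≤ 1) ∨
      ∀ q : ℝ, 0 < q → ∃ K : ℝ, ∀ δ : ℝ, 0 ≤ δ → δ ≤ 1 → M.Fr (hc - δ) ≤ K * δ ^ q) := by
  obtain ⟨hc, hc0, hcrit⟩ := crit M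
  refine ⟨hc, hc0, hcrit, ?_⟩
  by_cases hN : ∀ N : ℕ, ∑ n ∈ range N, M.g hc n ≤ 1
  · exact Or.inl hN
  · push Not at hN
    obtain ⟨N, hN⟩ := hN
    exact Or.inr fun q hq => infinite_order M hP hc0 hcrit hN hq

end

end Pool.Agent.IG
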