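import Pool.Agent.Lib.MP_daa227_pr_IG.Defs

/-!
# MP_daa227_pr, general potentials: finite sums of exponentials
-/

namespace Pool.Agent.IG

open MeasureTheory ProbabilityTheory Finset Filter Topology
open MP_daa227_pr (Chain Zk Zf Gk Gf KU K0 Ren shift seqLaw ExpMom DepOn Good GoodW mom)
open Pool.Agent.AZ (Mod Kv lmg)
open Pool.Agent.IOrd (Sys aS cv)

noncomputable section

namespace ES

variable {K K' : ℝ} {g g' : ℝ → ℝ}

theorem nonneg (h : ES K g) (t : ℝ) : 0 ≤ g t := by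
  obtain ⟨ι, _, w, σ, hw, hσ, hg⟩ := h
  rw [hg]
  exact Finset.sum_nonneg fun i _ => mul_nonneg (hw i) (Real.exp_pos _).le

theorem mono (h : ES K g) {t t' : ℝ} (ht : t ≤ t') : g t ≤ g t' := by
  obtain ⟨ι, _, w, σ, hw, hσ, hg⟩ := h
  rw [hg, hg]
  exact Finset.sum_le_sum fun i _ => mul_le_mul_of_nonneg_left
    (Real.exp_le_exp.2 (mul_le_mul_of_nonneg_right ht (hσ i).1)) (hw i)

/-- each exponent is at most `K` -/
theorem lip (h : ES K g) {t t' : ℝ} (ht : t ≤ t') : g t' ≤ Real.exp (K * (t' - t)) * g t := by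
  obtain ⟨ι, _, w, σ, hw, hσ, hg⟩ := h
  rw [hg, hg, Finset.mul_sum]
  refine Finset.sum_le_sum fun i _ => ?_
  have h1 : Real.exp (K * (t' - t)) * (w i * Real.exp (t * σ i)) =
      w i * Real.exp (K * (t' - t) + t * σ i) := by
    rw [Real.exp_add]
    ring
  rw [h1]
  refine mul_le_mul_of_nonneg_left (Real.exp_le_exp.2 ?_) (hw i)
  nlinarith [mul_nonneg (sub_nonneg.2 ht) (sub_nonneg.2 (hσ i).2)]

/-- Hoelder's inequality -/
theorem conv (h : ES K g) {θ : ℝ} (h0 : 0 ≤ θ) (h1 : θ ≤ 1) (t t' : ℝ) :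
    g ((1 - θ) * t + θ * t') ≤ g t ^ (1 - θ) * g t' ^ θ := by
  rcases h0.eq_or_lt with h2 | h2
  · rw [← h2]
    simp
  rcases h1.eq_or_lt with h3 | h3
  · rw [h3]
    simp
  obtain ⟨ι, _, w, σ, hw, hσ, hg⟩ := h
  rw [hg, hg, hg]
  have h4 : 0 < 1 - θ := sub_pos.2 h3
  have hpq : (1 - θ)⁻¹.HolderConjugate θ⁻¹ := by
    refine (Real.holderConjugate_iff).2 ⟨?_, ?_⟩
    · rw [one_lt_inv₀ h4]
      linarith
    · rw [inv_inv, inv_inv]
      ring
  have hnn : ∀ (x : ℝ) (i : ι), 0 ≤ w i * Real.exp (x * σ i) := fun x i =>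
    mul_nonneg (hw i) (Real.exp_pos _).le
  have h5 := Real.inner_le_Lp_mul_Lq_of_nonneg Finset.univ hpq
    (f := fun i => (w i * Real.exp (t * σ i)) ^ (1 - θ))
    (g := fun i => (w i * Real.exp (t' * σ i)) ^ θ)
    (fun i _ => Real.rpow_nonneg (hnn t i) _) (fun i _ => Real.rpow_nonneg (hnn t' i) _)
  have h6 : ∀ i, ((w i * Real.exp (t * σ i)) ^ (1 - θ)) ^ (1 - θ)⁻¹ =
      w i * Real.exp (t * σ i) := fun i => Real.rpow_rpow_inv (hnn t i) h4.ne'
  have h7 : ∀ i, ((w i * Real.exp (t' * σ i)) ^ θ) ^ θ⁻¹ =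
      w i * Real.exp (t' * σ i) := fun i => Real.rpow_rpow_inv (hnn t' i) h2.ne'
  simp only [h6, h7, one_div, inv_inv] at h5
  refine le_trans (le_of_eq (Finset.sum_congr rfl fun i _ => ?_)) h5
  rw [Real.mul_rpow (hw i) (Real.exp_pos _).le, Real.mul_rpow (hw i) (Real.exp_pos _).le,
    ← Real.exp_mul, ← Real.exp_mul]
  have h8 : w i = w i ^ (1 - θ) * w i ^ θ := by
    rcases (hw i).eq_or_lt with h9 | h9
    · rw [← h9, Real.zero_rpow h4.ne', Real.zero_rpow h2.ne', mul_zero]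
    · rw [← Real.rpow_add h9, sub_add_cancel, Real.rpow_one]
  have h9 : ((1 - θ) * t + θ * t') * σ i = t * σ i * (1 - θ) + t' * σ i * θ := by ring
  rw [h9, Real.exp_add]
  conv_lhs => rw [h8]
  ring

/-- `exp (δ σ) - 1 ≤ δ σ exp (δ σ)` and `σ ≤ a + c⁻¹ exp (-c a) exp (c σ)` (from
`c (σ - a) ≤ exp (c (σ - a))`), for each exponent `σ ≥ 0` -/
theorem deriv (h : ES K g) {δ a c : ℝ} (hδ : 0 ≤ δ) (ha : 0 ≤ a) (hc : 0 < c) (t : ℝ) :
    g (t + δ) ≤ g t + δ * (a * g (t + δ) + c⁻¹ * Real.exp (-(c * a)) * g (t + δ + c)) := by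
  obtain ⟨ι, _, w, σ, hw, hσ, hg⟩ := h
  rw [hg, hg, hg, Finset.mul_sum, Finset.mul_sum, ← Finset.sum_add_distrib, Finset.mul_sum,
    ← Finset.sum_add_distrib]
  refine Finset.sum_le_sum fun i _ => ?_
  have e1 : Real.exp (t * σ i) = Real.exp ((t + δ) * σ i) * Real.exp (-(δ * σ i)) := by
    rw [← Real.exp_add]
    congr 1
    ring
  have e2 : Real.exp (-(c * a)) * Real.exp ((t + δ + c) * σ i) =
      Real.exp ((t + δ) * σ i) * Real.exp (c * (σ i - a)) := by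
    rw [← Real.exp_add, ← Real.exp_add]
    congr 1
    ring
  have h1 : 1 - δ * σ i ≤ Real.exp (-(δ * σ i)) := by
    have := Real.add_one_le_exp (-(δ * σ i))
    linarith
  have h2 : σ i ≤ a + c⁻¹ * Real.exp (c * (σ i - a)) := by
    have h3 : c * (σ i - a) ≤ Real.exp (c * (σ i - a)) := by
      have := Real.add_one_le_exp (c * (σ i - a))
      linarith
    have h4 : c⁻¹ * (c * (σ i - a)) ≤ c⁻¹ * Real.exp (c * (σ i - a)) :=
      mul_le_mul_of_nonneg_left h3 (inv_pos.2 hc).le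
    rw [← mul_assoc, inv_mul_cancel₀ hc.ne', one_mul] at h4
    linarith
  have e3 : 0 ≤ Real.exp ((t + δ) * σ i) := (Real.exp_pos _).le
  have h3 : Real.exp ((t + δ) * σ i) ≤ Real.exp (t * σ i) +
      δ * (a * Real.exp ((t + δ) * σ i) +
        c⁻¹ * (Real.exp ((t + δ) * σ i) * Real.exp (c * (σ i - a)))) := by
    rw [e1]
    have h4 : 1 ≤ Real.exp (-(δ * σ i)) + δ * (a + c⁻¹ * Real.exp (c * (σ i - a))) := by
      have h5 := mul_le_mul_of_nonneg_left h2 hδ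
      linarith
    have h5 := mul_le_mul_of_nonneg_left h4 e3
    calc Real.exp ((t + δ) * σ i) = Real.exp ((t + δ) * σ i) * 1 := (mul_one _).symm
      _ ≤ Real.exp ((t + δ) * σ i) *
          (Real.exp (-(δ * σ i)) + δ * (a + c⁻¹ * Real.exp (c * (σ i - a)))) := h5
      _ = _ := by ring
  rw [← e2] at h3
  have h4 := mul_le_mul_of_nonneg_left h3 (hw i)
  refine h4.trans (le_of_eq ?_)
  ring

theorem const {w : ℝ} (hw : 0 ≤ w) (hK : 0 ≤ K) : ES K (fun _ => w) :=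
  ⟨Unit, inferInstance, fun _ => w, fun _ => 0, fun _ => hw, fun _ => ⟨le_rfl, hK⟩,
    fun t => by simp⟩

theorem weaken (h : ES K g) (hK : K ≤ K') : ES K' g := by
  obtain ⟨ι, hι, w, σ, hw, hσ, hg⟩ := h
  exact ⟨ι, hι, w, σ, hw, fun i => ⟨(hσ i).1, (hσ i).2.trans hK⟩, hg⟩

theorem expo {w σ : ℝ} (hw : 0 ≤ w) (h0 : 0 ≤ σ) (h1 : σ ≤ K) :
    ES K (fun t => w * Real.exp (t * σ)) :=
  ⟨Unit, inferInstance, fun _ => w, fun _ => σ, fun _ => hw, fun _ => ⟨h0, h1⟩,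
    fun t => by simp⟩

theorem add (h : ES K g) (h' : ES K g') : ES K (fun t => g t + g' t) := by
  obtain ⟨ι, hι, w, σ, hw, hσ, hg⟩ := h
  obtain ⟨ι', hι', w', σ', hw', hσ', hg'⟩ := h'
  refine ⟨ι ⊕ ι', inferInstance, Sum.elim w w', Sum.elim σ σ', ?_, ?_, ?_⟩
  · rintro (i | i)
    · exact hw i
    · exact hw' i
  · rintro (i | i)
    · exact hσ i
    · exact hσ' i
  · intro t
    change g t + g' t = _
    rw [Fintype.sum_sum_type, hg, hg']
    rfl

theorem mul (h : ES K g) (h' : ES K' g') : ES (K + K') (fun t => g t * g' t) := by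
  obtain ⟨ι, hι, w, σ, hw, hσ, hg⟩ := h
  obtain ⟨ι', hι', w', σ', hw', hσ', hg'⟩ := h'
  refine ⟨ι × ι', inferInstance, fun p => w p.1 * w' p.2, fun p => σ p.1 + σ' p.2, ?_, ?_, ?_⟩
  · exact fun p => mul_nonneg (hw p.1) (hw' p.2)
  · exact fun p => ⟨add_nonneg (hσ p.1).1 (hσ' p.2).1, add_le_add (hσ p.1).2 (hσ' p.2).2⟩
  · intro t
    change g t * g' t = _
    rw [Fintype.sum_prod_type, hg, hg', Finset.sum_mul_sum]
    refine Finset.sum_congr rfl fun i _ => Finset.sum_congr rfl fun j _ => ?_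
    dsimp only
    rw [mul_add t, Real.exp_add]
    ring

theorem sum {α : Type*} (s : Finset α) {f : α → ℝ → ℝ} (hK : 0 ≤ K) (h : ∀ i ∈ s, ES K (f i)) :
    ES K (fun t => ∑ i ∈ s, f i t) := by
  classical
  induction s using Finset.induction_on with
  | empty =>
    simp only [Finset.sum_empty]
    exact const le_rfl hK
  | insert i s hi ih =>
    simp only [Finset.sum_insert hi]
    exact add (h i (Finset.mem_insert_self i s))
      (ih fun k hk => h k (Finset.mem_insert_of_mem hk))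

end ES

end

end Pool.Agent.IG
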