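import Pool.Agent.Lib.MP_daa227_pr_IG.Gen
import Pool.Agent.Lib.MP_daa227_pr_IG.KvD
import Pool.Agent.Lib.MP_daa227_pr_AZ.Upper

/-!
# MP_daa227_pr, order: a good length
-/

namespace Pool.Agent.IG

open MeasureTheory ProbabilityTheory Finset Filter Topology
open MP_daa227_pr (Chain Zk Zf Gk Gf KU K0 Ren shift seqLaw ExpMom DepOn Good GoodW mom)
open Pool.Agent.AZ (Mod Kv lmg)
open Pool.Agent.IOrd (Sys aS cv)

noncomputable section

namespace Pick

theorem parity (C : Chain) (hnl : ∀ x, C.p x x = 0) (v : ℤ → ℝ) (n : ℕ) (x y : ℤ)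
    (h : ¬ Even ((n : ℤ) + x + y)) : AZ.Zd C v n x y = 0 := by
  induction n generalizing x with
  | zero =>
    unfold AZ.Zd
    rw [Zk]
    split_ifs with hxy
    · exfalso
      apply h
      subst hxy
      exact ⟨x, by push_cast; ring⟩
    · rfl
  | succ n ih =>
    have h1 : AZ.Zd C v (n + 1) x y = ∑ z ∈ Finset.Icc (x - 1) (x + 1),
        C.p x z * Real.exp (v z) * AZ.Zd C v n z y := rfl
    rw [h1]
    refine Finset.sum_eq_zero fun z hz => ?_
    rw [Finset.mem_Icc] at hz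
    by_cases hzx : z = x
    · rw [hzx, hnl, zero_mul, zero_mul]
    · rw [ih z ?_, mul_zero]
      intro h2
      apply h
      push_cast
      have : z = x + 1 ∨ z = x - 1 := by omega
      rcases this with rfl | rfl
      · have e : (n : ℤ) + 1 + x + y = n + (x + 1) + y := by ring
        rwa [e]
      · have e : (n : ℤ) + 1 + x + y = n + (x - 1) + y + 2 := by ring
        rw [e]
        exact h2.add even_two

theorem odd (C : Chain) (hnl : ∀ x, C.p x x = 0) (v : ℤ → ℝ) (n : ℕ) :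
    AZ.Zd C v (2 * n + 1) 0 0 = 0 := by
  apply parity C hnl
  push_cast
  rw [add_zero, add_zero, Int.not_even_iff_odd]
  exact ⟨n, rfl⟩

/-- the tail of the sum -/
theorem tail {u : ℕ → ℝ} (hu : ∀ n, 0 ≤ u n) (hu1 : ∀ n, u n ≤ 1) {N : ℕ} (hN : 1 ≤ N) :
    ∑' n : ℕ, u n * Real.exp (-(1 / (N : ℝ) * n)) ≤
      ∑ n ∈ range (2 * N ^ 2 + 1), u n + 1 := by
  have hN0 : (0 : ℝ) < N := by exact_mod_cast hN
  set s : ℝ := 1 / (N : ℝ) with hs
  have hs0 : 0 < s := by positivity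
  have hpow : ∀ n : ℕ, Real.exp (-(s * n)) = Real.exp (-s) ^ n := by
    intro n
    rw [← Real.exp_nat_mul]
    congr 1
    ring
  have hq0 : 0 ≤ Real.exp (-s) := (Real.exp_pos _).le
  have hq1 : Real.exp (-s) < 1 := by
    rw [Real.exp_lt_one_iff]
    linarith
  have hsum : Summable fun n : ℕ => u n * Real.exp (-(s * n)) := by
    refine Summable.of_nonneg_of_le (fun n => mul_nonneg (hu n) (Real.exp_pos _).le)
      (fun n => ?_) (summable_geometric_of_lt_one hq0 hq1)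
    rw [hpow]
    exact mul_le_of_le_one_left (pow_nonneg hq0 n) (hu1 n)
  rw [← hsum.sum_add_tsum_nat_add (2 * N ^ 2 + 1)]
  refine add_le_add ?_ ?_
  · refine Finset.sum_le_sum fun n _ => ?_
    refine mul_le_of_le_one_right (hu n) ?_
    rw [Real.exp_le_one_iff]
    have : (0 : ℝ) ≤ n := Nat.cast_nonneg n
    nlinarith [mul_nonneg hs0.le this]
  · have h1 : ∑' n : ℕ, u (n + (2 * N ^ 2 + 1)) * Real.exp (-(s * ((n + (2 * N ^ 2 + 1) : ℕ) : ℝ)))
        ≤ ∑' n : ℕ, Real.exp (-s) ^ (2 * N ^ 2 + 1) * Real.exp (-s) ^ n := by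
      refine Summable.tsum_le_tsum (fun n => ?_) ((summable_nat_add_iff _).2 hsum)
        ((summable_geometric_of_lt_one hq0 hq1).mul_left _)
      rw [hpow, add_comm n, pow_add]
      exact mul_le_of_le_one_left (by positivity) (hu1 _)
    refine h1.trans ?_
    rw [tsum_mul_left, tsum_geometric_of_lt_one hq0 hq1]
    have h2 : Real.exp (-s) ≤ 1 / (1 + s) := by
      rw [Real.exp_neg, ← one_div]
      exact one_div_le_one_div_of_le (by positivity) (by linarith [Real.add_one_le_exp s])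
    have h3 : (1 - Real.exp (-s))⁻¹ ≤ 1 + N := by
      have h4 : s / (1 + s) ≤ 1 - Real.exp (-s) := by
        have : 1 - 1 / (1 + s) = s / (1 + s) := by
          field_simp
          ring
        linarith
      have h5 : (1 - Real.exp (-s))⁻¹ ≤ (s / (1 + s))⁻¹ :=
        inv_anti₀ (by positivity) h4
      refine h5.trans (le_of_eq ?_)
      rw [hs]
      field_simp
      ring
    have h4 : Real.exp (-s) ^ (2 * N ^ 2 + 1) ≤ (1 + (N : ℝ))⁻¹ := by
      rw [← Real.exp_nat_mul, show ((2 * N ^ 2 + 1 : ℕ) : ℝ) * -s = -(2 * N + s) by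
        push_cast
        rw [hs]
        field_simp, Real.exp_neg]
      refine inv_anti₀ (by positivity) ?_
      have := Real.add_one_le_exp (2 * N + s)
      linarith
    calc Real.exp (-s) ^ (2 * N ^ 2 + 1) * (1 - Real.exp (-s))⁻¹
        ≤ (1 + (N : ℝ))⁻¹ * (1 + N) := by
          refine mul_le_mul h4 h3 ?_ (by positivity)
          exact inv_nonneg.2 (by linarith)
      _ = 1 := inv_mul_cancel₀ (by positivity)

end Pick

/-- `u k = Zd (v hc) k 0 0`, `z k = Zd (v (hc + N ^ (-a/2))) k 0 0` (renewal equations: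
`AZ.Zd_renewal`; `u ≤ 1`: `AZ.Upper.Zd_le_one`; both vanish for odd `k`). If the claim fails for
`N` then `u k ≤ N ^ (a/4) z k` for `k ≤ 2 N ^ 2` (`k = 0`: both are `1`), so with `s = 1 / N`
`N ^ a / A ≤ ∑ u k e^{-k/N} ≤ N ^ (a/4) ∑_{k ≤ 2N^2} z k + ∑_{k > 2 N ^ 2} e^{-k/N}` (`ren_low`),
and `∑ z k ≤ N ^ (a/2) / d` (`ren_up`, `g_drop` at `hc` with `t = N ^ (-a/2)`:
`∑ g (hc + t) ≤ 1 - t d`, `AZ.Kv_mono` for the other terms). The last sum is at most `1` for large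
`N`. Contradiction for large `N` (`3 a / 4 < a`). One may assume `A > 0` (enlarge it). -/
theorem pick (M : Mod) {hc : ℝ} (hg : ∀ N : ℕ, ∑ n ∈ range N, M.g hc n ≤ 1)
    (hg1 : ∀ η : ℝ, 0 < η → ∃ N : ℕ, 1 - η ≤ ∑ n ∈ range N, M.g hc n) {a A : ℝ} (ha : 0 < a)
    (hT : ∀ s : ℝ, 0 < s → s ≤ 1 → ∀ N : ℕ,
      ∑ n ∈ range N, M.g hc n * (1 - Real.exp (-(s * n))) ≤ A * s ^ a) :
    ∀ᶠ N : ℕ in atTop, ∃ n : ℕ, 1 ≤ n ∧ n ≤ N ^ 2 ∧
      (N : ℝ) ^ (a / 4) * AZ.Zd M.C (M.v (hc + (N : ℝ) ^ (-(a / 2)))) (2 * n) 0 0 <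
        AZ.Zd M.C (M.v hc) (2 * n) 0 0 := by
  obtain ⟨n₀, d, hd, hdrop⟩ := g_drop M hc
  obtain ⟨A', hA', hAA'⟩ : ∃ A' : ℝ, 0 < A' ∧ A ≤ A' :=
    ⟨max A 1, lt_of_lt_of_le one_pos (le_max_right _ _), le_max_left _ _⟩
  have hT' : ∀ s : ℝ, 0 < s → s ≤ 1 → ∀ N : ℕ,
      ∑ n ∈ range N, M.g hc n * (1 - Real.exp (-(s * n))) ≤ A' * s ^ a := fun s hs hs1 N =>
    (hT s hs hs1 N).trans (mul_le_mul_of_nonneg_right hAA' (Real.rpow_nonneg hs.le _))
  have hlim : Tendsto (fun N : ℕ => (N : ℝ) ^ (a / 4)) atTop atTop :=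
    (tendsto_rpow_atTop (by positivity)).comp tendsto_natCast_atTop_atTop
  filter_upwards [hlim.eventually_gt_atTop (A' * (1 / d + 1)), eventually_ge_atTop 1]
    with N hNbig hN1
  by_contra hcon
  push Not at hcon
  have hN0 : (0 : ℝ) < N := by exact_mod_cast hN1
  have hN1' : (1 : ℝ) ≤ N := by exact_mod_cast hN1
  set t : ℝ := (N : ℝ) ^ (-(a / 2)) with ht
  have ht0 : 0 < t := Real.rpow_pos_of_pos hN0 _
  have ht1 : t ≤ 1 := Real.rpow_le_one_of_one_le_of_nonpos hN1' (by linarith)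
  set P : ℝ := (N : ℝ) ^ (a / 4) with hP
  have hP1 : 1 ≤ P := Real.one_le_rpow hN1' (by positivity)
  have hu : ∀ n, 0 ≤ AZ.Zd M.C (M.v hc) n 0 0 := fun n => AZ.Zd_nonneg _ _ _ _ _
  have hz : ∀ n, 0 ≤ AZ.Zd M.C (M.v (hc + t)) n 0 0 := fun n => AZ.Zd_nonneg _ _ _ _ _
  have hu1 : ∀ n, AZ.Zd M.C (M.v hc) n 0 0 ≤ 1 := AZ.Upper.Zd_le_one M.C (M.v hc) hg
  -- comparison
  have hcmp : ∀ k, k < 2 * N ^ 2 + 1 →
      AZ.Zd M.C (M.v hc) k 0 0 ≤ P * AZ.Zd M.C (M.v (hc + t)) k 0 0 := by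
    intro k hk
    rcases Nat.even_or_odd' k with ⟨n, hn | hn⟩
    · rcases Nat.eq_zero_or_pos n with h0 | h0
      · rw [hn, h0, mul_zero, AZ.Zd_zero, AZ.Zd_zero, mul_one]
        exact hP1
      · rw [hn]
        exact hcon n h0 (by omega)
    · rw [hn, Pick.odd M.C M.hnl]
      exact mul_nonneg (by linarith) (hz _)
  -- the sum of `z`
  have hgt : ∀ n, M.g (hc + t) n ≤ M.g hc n := by
    intro n
    refine AZ.Kv_mono M.C (fun z => ?_) n 0
    unfold AZ.Mod.v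
    have := mul_nonneg ht0.le (M.φ_nonneg z)
    linarith
  have hgt0 : ∀ n, 0 ≤ M.g (hc + t) n := fun n => AZ.Kv_nonneg _ _ _ _
  have hsg : ∀ K : ℕ, ∑ n ∈ range K, M.g (hc + t) n ≤ 1 - t * d := by
    intro K
    have h1 : ∑ n ∈ range K, M.g (hc + t) n ≤
        ∑ n ∈ range (K + (n₀ + 1)), M.g (hc + t) n :=
      Finset.sum_le_sum_of_subset_of_nonneg
        (Finset.range_mono (Nat.le_add_right _ _)) fun n _ _ => hgt0 n
    refine h1.trans ?_
    have hmem : n₀ ∈ range (K + (n₀ + 1)) := Finset.mem_range.2 (by omega)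
    have h2 := hg (K + (n₀ + 1))
    rw [← Finset.add_sum_erase _ _ hmem] at h2 ⊢
    have h3 : ∑ n ∈ (range (K + (n₀ + 1))).erase n₀, M.g (hc + t) n ≤
        ∑ n ∈ (range (K + (n₀ + 1))).erase n₀, M.g hc n := Finset.sum_le_sum fun n _ => hgt n
    have h4 := hdrop t ht0.le ht1
    linarith
  have hzsum := ren_up (g := M.g (hc + t)) (z := fun n => AZ.Zd M.C (M.v (hc + t)) n 0 0) hgt0 hz
    (AZ.Zd_zero _ _ _) (fun n hn => AZ.Zd_renewal M.C _ hn) (mul_pos ht0 hd) hsg (2 * N ^ 2 + 1)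
  -- the lower bound
  have hlow := ren_low (g := M.g hc) (u := fun n => AZ.Zd M.C (M.v hc) n 0 0)
    (fun n => AZ.Kv_nonneg _ _ _ _) rfl hu (AZ.Zd_zero _ _ _)
    (fun n hn => AZ.Zd_renewal M.C _ hn) hu1 hg hg1 hT' (s := 1 / (N : ℝ)) (by positivity)
    (by rw [div_le_one hN0]; exact hN1')
  have htail := Pick.tail hu hu1 hN1
  have h5 : ∑ n ∈ range (2 * N ^ 2 + 1), AZ.Zd M.C (M.v hc) n 0 0 ≤ P * (1 / (t * d)) := by
    refine (Finset.sum_le_sum fun n hn => hcmp n (Finset.mem_range.1 hn)).trans ?_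
    rw [← Finset.mul_sum]
    exact mul_le_mul_of_nonneg_left hzsum (by linarith)
  have hQ : (0 : ℝ) ≤ A' * (1 / (N : ℝ)) ^ a := by positivity
  have h6 : 1 ≤ A' * (1 / (N : ℝ)) ^ a * (P * (1 / (t * d)) + 1) :=
    hlow.trans (mul_le_mul_of_nonneg_left (htail.trans (by linarith)) hQ)
  have e1 : (1 / (N : ℝ)) ^ a = ((N : ℝ) ^ a)⁻¹ := by
    rw [one_div, Real.inv_rpow hN0.le]
  have e2 : (N : ℝ) ^ a = P * P * P * P := by
    rw [hP, ← Real.rpow_add hN0, ← Real.rpow_add hN0, ← Real.rpow_add hN0]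
    congr 1
    ring
  have e3 : t⁻¹ = P * P := by
    rw [ht, hP, ← Real.rpow_neg hN0.le, ← Real.rpow_add hN0]
    congr 1
    ring
  have hP0 : 0 < P := by linarith
  have e4 : P * (1 / (t * d)) = P * P * P * (1 / d) := by
    rw [one_div, mul_inv, e3]
    ring
  rw [e1, e2, e4] at h6
  have h7 : P * P * P * P ≤ A' * (P * P * P * (1 / d) + 1) := by
    have h8 : A' * (P * P * P * P)⁻¹ * (P * P * P * (1 / d) + 1) =
        (A' * (P * P * P * (1 / d) + 1)) / (P * P * P * P) := by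
      rw [div_eq_mul_inv]
      ring
    rw [h8, le_div_iff₀ (by positivity), one_mul] at h6
    exact h6
  have hPPP : 1 ≤ P * P * P := by nlinarith [mul_le_mul hP1 hP1 zero_le_one (by linarith)]
  have h9 : A' * (P * P * P * (1 / d) + 1) ≤ P * P * P * (A' * (1 / d + 1)) := by
    nlinarith [mul_le_mul_of_nonneg_left hPPP hA'.le]
  have h10 : P * P * P * (A' * (1 / d + 1)) < P * P * P * P :=
    mul_lt_mul_of_pos_left hNbig (by positivity)
  linarith

end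

end Pool.Agent.IG
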