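import Pool.Agent.Lib.MP_daa227_pr_IG.SDef
import Pool.Agent.Lib.MP_daa227_pr_IG.Gen
import Pool.Agent.Lib.MP_daa227_pr_IG.KvD
import Pool.Agent.Lib.MP_daa227_pr_IG.Pick
import Pool.Agent.Lib.MP_daa227_pr_AZ.Upper

/-!
# MP_daa227_pr, exact order: means of the block sums
-/

namespace Pool.Agent.IG

open MeasureTheory ProbabilityTheory Finset Filter Topology
open MP_daa227_pr (Chain Zk Zf Gk Gf KU K0 Ren shift seqLaw ExpMom DepOn Good GoodW mom)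
open Pool.Agent.AZ (Mod Kv lmg)
open Pool.Agent.IOrd (Sys aS cv)

noncomputable section

namespace SLow

theorem one_sub_exp {s : ℝ} (h0 : 0 < s) (h1 : s ≤ 1) : s / 2 ≤ 1 - Real.exp (-s) := by
  have h2 := Real.add_one_le_exp s
  have h3 : Real.exp (-s) * Real.exp s = 1 := by
    rw [← Real.exp_add]
    simp
  have h4 := Real.exp_pos (-s)
  have h5 : Real.exp (-s) * (s + 1) ≤ 1 :=
    (mul_le_mul_of_nonneg_left h2 h4.le).trans h3.le
  have h6 : Real.exp (-s) ≤ 1 / (s + 1) := by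
    rw [le_div_iff₀ (by linarith)]
    exact h5
  have h7 : 1 / (s + 1) ≤ 1 - s / 2 := by
    rw [div_le_iff₀ (by linarith)]
    nlinarith
  linarith

/-- the tail of the generating function -/
theorem tail {u : ℕ → ℝ} (hu : ∀ n, 0 ≤ u n) (hu1 : ∀ n, u n ≤ 1) {s : ℝ} (h0 : 0 < s)
    (h1 : s ≤ 1) (N : ℕ) :
    ∑' n : ℕ, u n * Real.exp (-(s * n)) ≤
      ∑ n ∈ range N, u n + 2 / s * Real.exp (-(s * N)) := by
  have hpow : ∀ n : ℕ, Real.exp (-(s * n)) = Real.exp (-s) ^ n := by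
    intro n
    rw [← Real.exp_nat_mul]
    congr 1
    ring
  have hq0 : 0 ≤ Real.exp (-s) := (Real.exp_pos _).le
  have hq1 : Real.exp (-s) < 1 := by
    rw [Real.exp_lt_one_iff]
    linarith
  have hgeo : Summable fun n : ℕ => Real.exp (-s) ^ n := summable_geometric_of_lt_one hq0 hq1
  have hsum : Summable fun n : ℕ => u n * Real.exp (-(s * n)) := by
    refine Summable.of_nonneg_of_le (fun n => mul_nonneg (hu n) (Real.exp_pos _).le)
      (fun n => ?_) hgeo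
    rw [← hpow]
    exact mul_le_of_le_one_left (Real.exp_pos _).le (hu1 n)
  rw [← hsum.sum_add_tsum_nat_add N]
  refine add_le_add ?_ ?_
  · refine Finset.sum_le_sum fun n _ => ?_
    refine mul_le_of_le_one_right (hu n) ?_
    rw [Real.exp_le_one_iff]
    have : 0 ≤ s * (n : ℝ) := mul_nonneg h0.le n.cast_nonneg
    linarith
  · have h2 : Summable fun n : ℕ => Real.exp (-(s * N)) * Real.exp (-s) ^ n := hgeo.mul_left _
    have h3 : ∑' n : ℕ, u (n + N) * Real.exp (-(s * ((n + N : ℕ) : ℝ))) ≤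
        ∑' n : ℕ, Real.exp (-(s * N)) * Real.exp (-s) ^ n := by
      refine Summable.tsum_le_tsum (fun n => ?_) ((summable_nat_add_iff N).2 hsum) h2
      rw [← hpow n, ← Real.exp_add]
      have h4 : -(s * ((n + N : ℕ) : ℝ)) = -(s * N) + -(s * n) := by
        push_cast
        ring
      rw [h4]
      exact mul_le_of_le_one_left (Real.exp_pos _).le (hu1 _)
    refine h3.trans ?_
    rw [tsum_mul_left, tsum_geometric_of_lt_one hq0 hq1, mul_comm]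
    refine mul_le_mul_of_nonneg_right ?_ (Real.exp_pos _).le
    have h5 := one_sub_exp h0 h1
    have h6 : (0 : ℝ) < s / 2 := by linarith
    calc (1 - Real.exp (-s))⁻¹ ≤ (s / 2)⁻¹ := inv_anti₀ h6 h5
      _ = 2 / s := by rw [inv_div]

theorem even_sum (C : Chain) (hnl : ∀ x, C.p x x = 0) (v : ℤ → ℝ) (m : ℕ) :
    ∑ n ∈ range (2 * m), AZ.Zd C v n 0 0 = ∑ c ∈ range m, AZ.Zd C v (2 * c) 0 0 := by
  induction m with
  | zero => simp
  | succ m ih =>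
    rw [show 2 * (m + 1) = 2 * m + 1 + 1 by ring, Finset.sum_range_succ, Finset.sum_range_succ,
      ih, Pick.odd C hnl, add_zero, Finset.sum_range_succ]

theorem cast_atTop : Tendsto (fun m : ℕ => (m : ℝ)) atTop atTop := tendsto_natCast_atTop_atTop

/-- the error term -/
theorem err {e : ℝ} (h0 : 0 < e) :
    ∀ᶠ m : ℕ in atTop, 2 / (m : ℝ) ^ (-(1 - e)) *
      Real.exp (-((m : ℝ) ^ (-(1 - e)) * ((2 * m : ℕ) : ℝ))) ≤ 1 := by
  have h1 := tendsto_rpow_mul_exp_neg_mul_atTop_nhds_zero ((1 - e) / e) 2 two_pos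
  have h2 : Tendsto (fun m : ℕ => (m : ℝ) ^ e) atTop atTop :=
    (tendsto_rpow_atTop h0).comp cast_atTop
  have h3 := h1.comp h2
  have h4 : ∀ᶠ m : ℕ in atTop, ((fun x : ℝ => x ^ ((1 - e) / e) * Real.exp (-2 * x)) ∘
      (fun m : ℕ => (m : ℝ) ^ e)) m ≤ 1 / 2 :=
    (h3.eventually (ge_mem_nhds (by norm_num : (0 : ℝ) < 1 / 2)))
  filter_upwards [h4, eventually_ge_atTop 1] with m hm hm1
  have hX : (0 : ℝ) < m := by exact_mod_cast hm1
  have h5 : ((m : ℝ) ^ e) ^ ((1 - e) / e) = (m : ℝ) ^ (1 - e) := by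
    rw [← Real.rpow_mul hX.le]
    congr 1
    field_simp
  have h6 : (m : ℝ) ^ (-(1 - e)) * ((2 * m : ℕ) : ℝ) = 2 * (m : ℝ) ^ e := by
    push_cast
    rw [show (m : ℝ) ^ (-(1 - e)) * (2 * (m : ℝ)) = 2 * ((m : ℝ) ^ (-(1 - e)) * (m : ℝ)) by ring]
    congr 1
    nth_rewrite 2 [← Real.rpow_one (m : ℝ)]
    rw [← Real.rpow_add hX]
    congr 1
    ring
  have h7 : 2 / (m : ℝ) ^ (-(1 - e)) = 2 * (m : ℝ) ^ (1 - e) := by
    rw [Real.rpow_neg hX.le, div_inv_eq_mul]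
  rw [h6, h7]
  simp only [Function.comp_apply, h5] at hm
  have h8 : -(2 * (m : ℝ) ^ e) = -2 * (m : ℝ) ^ e := by ring
  rw [h8]
  linarith

theorem v_anti (M : Mod) (hc : ℝ) {t : ℝ} (ht : 0 ≤ t) (z : ℤ) : M.v (hc + t) z ≤ M.v hc z := by
  unfold Mod.v
  have := mul_nonneg ht (M.φ_nonneg z)
  nlinarith

theorem sum_even_le {z : ℕ → ℝ} (hz : ∀ n, 0 ≤ z n) (m : ℕ) :
    ∑ c ∈ range m, z (2 * c) ≤ ∑ n ∈ range (2 * m), z n := by
  induction m with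
  | zero => simp
  | succ m ih =>
    rw [show 2 * (m + 1) = 2 * m + 1 + 1 by ring, Finset.sum_range_succ, Finset.sum_range_succ,
      Finset.sum_range_succ]
    have := hz (2 * m + 1)
    linarith

end SLow

/-- `ren_low` with `s = m^(-(1-ε'))` (`AZ.Zd_renewal`, `AZ.Upper.Zd_le_one`; `u_n = 0` for odd `n`):
`s^(-a) / A ≤ ∑_{n < 2 m} u_n + ∑_{n ≥ 2m} exp (-s n)`, the last sum tends to `0`. -/
theorem u_low (M : Mod) {hc : ℝ} (hg : ∀ N : ℕ, ∑ n ∈ range N, M.g hc n ≤ 1)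
    (hg1 : ∀ η : ℝ, 0 < η → ∃ N : ℕ, 1 - η ≤ ∑ n ∈ range N, M.g hc n) {a A : ℝ} (ha : 0 < a)
    (hT : ∀ s : ℝ, 0 < s → s ≤ 1 → ∀ N : ℕ,
      ∑ n ∈ range N, M.g hc n * (1 - Real.exp (-(s * n))) ≤ A * s ^ a) {ε : ℝ} (hε : 0 < ε) :
    ∀ᶠ m : ℕ in atTop, (m : ℝ) ^ (a - ε) ≤ ∑ c ∈ range m, AZ.Zd M.C (M.v hc) (2 * c) 0 0 := by
  set ε₁ : ℝ := min ε (a / 2) with hε₁
  have hε₁0 : 0 < ε₁ := lt_min hε (by linarith)
  have hε₁e : ε₁ ≤ ε := min_le_left _ _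
  have hε₁a : ε₁ ≤ a / 2 := min_le_right _ _
  set e : ℝ := ε₁ / (2 * a) with he
  have he0 : 0 < e := by positivity
  have he1 : e ≤ 1 := by
    rw [he, div_le_one (by positivity)]
    linarith
  have hae : (1 - e) * a = a - ε₁ / 2 := by
    rw [he]
    field_simp
  have hlim : ∀ᶠ m : ℕ in atTop, 2 * A ≤ (m : ℝ) ^ (ε₁ / 2) :=
    ((tendsto_rpow_atTop (by linarith : 0 < ε₁ / 2)).comp SLow.cast_atTop).eventually_ge_atTop
      (2 * A)
  filter_upwards [SLow.err he0, hlim, eventually_ge_atTop 1] with m h1 h2 h3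
  have hX : (1 : ℝ) ≤ m := by exact_mod_cast h3
  have hX0 : (0 : ℝ) < m := by linarith
  set u : ℕ → ℝ := fun n => AZ.Zd M.C (M.v hc) n 0 0 with hu
  have hu0 : ∀ n, 0 ≤ u n := fun n => AZ.Zd_nonneg _ _ _ _ _
  have hu1 : ∀ n, u n ≤ 1 := fun n => AZ.Upper.Zd_le_one M.C (M.v hc) hg n
  set s : ℝ := (m : ℝ) ^ (-(1 - e)) with hs
  have hs0 : 0 < s := Real.rpow_pos_of_pos hX0 _
  have hs1 : s ≤ 1 := Real.rpow_le_one_of_one_le_of_nonpos hX (by linarith)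
  have h4 := ren_low (g := M.g hc) (u := u) (fun n => AZ.Kv_nonneg _ _ _ _) rfl hu0
    (AZ.Zd_zero _ _ _) (fun n hn => AZ.Zd_renewal M.C (M.v hc) hn) hu1 hg hg1 hT hs0 hs1
  have h5 := SLow.tail hu0 hu1 hs0 hs1 (2 * m)
  have h6 : ∑' n : ℕ, u n * Real.exp (-(s * n)) ≤
      ∑ c ∈ range m, AZ.Zd M.C (M.v hc) (2 * c) 0 0 + 1 := by
    refine h5.trans ?_
    rw [← SLow.even_sum M.C M.hnl]
    exact add_le_add le_rfl h1
  set U : ℝ := ∑ c ∈ range m, AZ.Zd M.C (M.v hc) (2 * c) 0 0 with hU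
  have hU0 : 0 ≤ U := Finset.sum_nonneg fun c _ => AZ.Zd_nonneg _ _ _ _ _
  have hT0 : 0 ≤ ∑' n : ℕ, u n * Real.exp (-(s * n)) :=
    tsum_nonneg fun n => mul_nonneg (hu0 n) (Real.exp_pos _).le
  have hsa : s ^ a = (m : ℝ) ^ (-(a - ε₁ / 2)) := by
    rw [hs, ← Real.rpow_mul hX0.le]
    congr 1
    rw [neg_mul, hae]
  have hA : 0 < A := by
    by_contra hA
    push Not at hA
    have h7 : A * s ^ a ≤ 0 := mul_nonpos_of_nonpos_of_nonneg hA (Real.rpow_nonneg hs0.le _)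
    have h8 := mul_nonpos_of_nonpos_of_nonneg h7 hT0
    linarith
  have hsp : 0 < A * s ^ a := mul_pos hA (Real.rpow_pos_of_pos hs0 _)
  have h7 : 1 ≤ A * s ^ a * (U + 1) := h4.trans (mul_le_mul_of_nonneg_left h6 hsp.le)
  have h8 : (m : ℝ) ^ (a - ε₁ / 2) ≤ A * (U + 1) := by
    have h9 : s ^ a * (m : ℝ) ^ (a - ε₁ / 2) = 1 := by
      rw [hsa, ← Real.rpow_add hX0, neg_add_cancel, Real.rpow_zero]
    have h10 : 0 ≤ (m : ℝ) ^ (a - ε₁ / 2) := Real.rpow_nonneg hX0.le _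
    calc (m : ℝ) ^ (a - ε₁ / 2) ≤ A * s ^ a * (U + 1) * (m : ℝ) ^ (a - ε₁ / 2) :=
          le_mul_of_one_le_left h10 h7
      _ = A * (U + 1) * (s ^ a * (m : ℝ) ^ (a - ε₁ / 2)) := by ring
      _ = A * (U + 1) := by rw [h9, mul_one]
  have h9 : (m : ℝ) ^ (a - ε₁ / 2) = (m : ℝ) ^ (ε₁ / 2) * (m : ℝ) ^ (a - ε₁) := by
    rw [← Real.rpow_add hX0]
    congr 1
    ring
  have h10 : 1 ≤ (m : ℝ) ^ (a - ε₁) := Real.one_le_rpow hX (by linarith)
  have h11 : 2 * A * (m : ℝ) ^ (a - ε₁) ≤ A * (U + 1) := by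
    refine le_trans ?_ h8
    rw [h9]
    exact mul_le_mul_of_nonneg_right h2 (by linarith)
  have h12 : 2 * (m : ℝ) ^ (a - ε₁) ≤ U + 1 := by
    refine le_of_mul_le_mul_left ?_ hA
    linarith
  have h13 : (m : ℝ) ^ (a - ε) ≤ (m : ℝ) ^ (a - ε₁) :=
    Real.rpow_le_rpow_of_exponent_le hX (by linarith)
  linarith

/-- the terms `a' < l / 2` contain `∑_{c < l / 2}`; `u_low` with `ε / 2` and `m = ⌊l / 2⌋` -/
theorem x_low (M : Mod) {hc : ℝ} (hg : ∀ N : ℕ, ∑ n ∈ range N, M.g hc n ≤ 1)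
    (hg1 : ∀ η : ℝ, 0 < η → ∃ N : ℕ, 1 - η ≤ ∑ n ∈ range N, M.g hc n) {a A : ℝ} (ha : 0 < a)
    (hT : ∀ s : ℝ, 0 < s → s ≤ 1 → ∀ N : ℕ,
      ∑ n ∈ range N, M.g hc n * (1 - Real.exp (-(s * n))) ≤ A * s ^ a) {ε : ℝ} (hε : 0 < ε) :
    ∀ᶠ l : ℕ in atTop, (l : ℝ) ^ (1 + a - ε) ≤
      ∑ a' ∈ range l, ∑ c ∈ range (l - a'), AZ.Zd M.C (M.v hc) (2 * c) 0 0 := by
  set ε₁ : ℝ := min ε 1 with hε₁
  have hε₁0 : 0 < ε₁ := lt_min hε one_pos
  have hε₁e : ε₁ ≤ ε := min_le_left _ _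
  have hε₁a : ε₁ ≤ 1 := min_le_right _ _
  have h1 := u_low M hg hg1 ha hT (by linarith : 0 < ε₁ / 2)
  have hhalf : Tendsto (fun l : ℕ => l / 2) atTop atTop :=
    Nat.tendsto_div_const_atTop (by norm_num)
  have hlim : ∀ᶠ l : ℕ in atTop, (3 : ℝ) ^ (1 + a - ε₁ / 2) ≤ (l : ℝ) ^ (ε₁ / 2) :=
    ((tendsto_rpow_atTop (by linarith : 0 < ε₁ / 2)).comp SLow.cast_atTop).eventually_ge_atTop _
  filter_upwards [hhalf.eventually h1, hlim, eventually_ge_atTop 3] with l h2 h3 h4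
  have hX : (3 : ℝ) ≤ l := by exact_mod_cast h4
  have hX0 : (0 : ℝ) < l := by linarith
  set m : ℕ := l / 2 with hm
  have hm1 : (l : ℝ) / 3 ≤ m := by
    have : l ≤ 3 * m := by omega
    have h5 : (l : ℝ) ≤ 3 * m := by exact_mod_cast this
    linarith
  have hm0 : (0 : ℝ) < m := by linarith
  set U : ℝ := ∑ c ∈ range m, AZ.Zd M.C (M.v hc) (2 * c) 0 0 with hU
  have h5 : (m : ℝ) * U ≤
      ∑ a' ∈ range l, ∑ c ∈ range (l - a'), AZ.Zd M.C (M.v hc) (2 * c) 0 0 := by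
    calc (m : ℝ) * U = ∑ a' ∈ range m, U := by rw [Finset.sum_const, card_range, nsmul_eq_mul]
      _ ≤ ∑ a' ∈ range m, ∑ c ∈ range (l - a'), AZ.Zd M.C (M.v hc) (2 * c) 0 0 := by
          refine Finset.sum_le_sum fun a' ha' => ?_
          rw [Finset.mem_range] at ha'
          refine Finset.sum_le_sum_of_subset_of_nonneg ?_ fun c _ _ => AZ.Zd_nonneg _ _ _ _ _
          intro c hc'
          rw [Finset.mem_range] at hc' ⊢
          omega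
      _ ≤ _ := by
          refine Finset.sum_le_sum_of_subset_of_nonneg ?_ fun a' _ _ =>
            Finset.sum_nonneg fun c _ => AZ.Zd_nonneg _ _ _ _ _
          intro c hc'
          rw [Finset.mem_range] at hc' ⊢
          omega
  refine le_trans ?_ h5
  have h6 : (m : ℝ) ^ (1 + a - ε₁ / 2) ≤ (m : ℝ) * U := by
    have h7 : (m : ℝ) ^ (1 + a - ε₁ / 2) = (m : ℝ) * (m : ℝ) ^ (a - ε₁ / 2) := by
      nth_rewrite 2 [← Real.rpow_one (m : ℝ)]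
      rw [← Real.rpow_add hm0]
      congr 1
      ring
    rw [h7]
    exact mul_le_mul_of_nonneg_left h2 hm0.le
  refine le_trans ?_ h6
  have h8 : ((l : ℝ) / 3) ^ (1 + a - ε₁ / 2) ≤ (m : ℝ) ^ (1 + a - ε₁ / 2) :=
    Real.rpow_le_rpow (by positivity) hm1 (by linarith)
  refine le_trans ?_ h8
  rw [Real.div_rpow hX0.le (by norm_num), le_div_iff₀ (Real.rpow_pos_of_pos (by norm_num) _)]
  have h9 : (l : ℝ) ^ (1 + a - ε) ≤ (l : ℝ) ^ (1 + a - ε₁) :=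
    Real.rpow_le_rpow_of_exponent_le (by linarith) (by linarith)
  calc (l : ℝ) ^ (1 + a - ε) * 3 ^ (1 + a - ε₁ / 2)
      ≤ (l : ℝ) ^ (1 + a - ε₁) * (l : ℝ) ^ (ε₁ / 2) :=
        mul_le_mul h9 h3 (Real.rpow_nonneg (by norm_num) _) (Real.rpow_nonneg hX0.le _)
    _ = (l : ℝ) ^ (1 + a - ε₁ / 2) := by
        rw [← Real.rpow_add hX0]
        congr 1
        ring

/-- `g_drop` at `hc`: `∑ g (hc + t) ≤ 1 - t d`; `ren_up`; `∑_c Zd (2 c) ≤ ∑_n Zd n` -/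
theorem y_up (M : Mod) {hc : ℝ} (hg : ∀ N : ℕ, ∑ n ∈ range N, M.g hc n ≤ 1) :
    ∃ B : ℝ, 0 < B ∧ ∀ t : ℝ, 0 < t → t ≤ 1 → ∀ l : ℕ,
      ∑ a ∈ range l, ∑ c ∈ range (l - a), AZ.Zd M.C (M.v (hc + t)) (2 * c) 0 0 ≤ B * l / t := by
  obtain ⟨n₀, d, hd, hdrop⟩ := g_drop M hc
  refine ⟨1 / d, by positivity, fun t ht0 ht1 l => ?_⟩
  have hmono : ∀ n, M.g (hc + t) n ≤ M.g hc n := fun n =>
    AZ.Kv_mono M.C (SLow.v_anti M hc ht0.le) n 0
  have hgn : ∀ n, 0 ≤ M.g (hc + t) n := fun n => AZ.Kv_nonneg _ _ _ _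
  have hbig : ∀ N : ℕ, n₀ < N → ∑ n ∈ range N, M.g (hc + t) n ≤ 1 - t * d := by
    intro N hN
    have hmem : n₀ ∈ range N := Finset.mem_range.2 hN
    have h1 := hg N
    rw [← Finset.add_sum_erase _ _ hmem] at h1 ⊢
    have h2 := hdrop t ht0.le ht1
    have h3 : ∑ n ∈ (range N).erase n₀, M.g (hc + t) n ≤ ∑ n ∈ (range N).erase n₀, M.g hc n :=
      Finset.sum_le_sum fun n _ => hmono n
    linarith
  have hsum : ∀ N : ℕ, ∑ n ∈ range N, M.g (hc + t) n ≤ 1 - t * d := by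
    intro N
    refine le_trans ?_ (hbig (N + n₀ + 1) (by omega))
    refine Finset.sum_le_sum_of_subset_of_nonneg ?_ fun n _ _ => hgn n
    intro n hn
    rw [Finset.mem_range] at hn ⊢
    omega
  have htd : 0 < t * d := mul_pos ht0 hd
  have hup : ∀ N : ℕ, ∑ n ∈ range N, AZ.Zd M.C (M.v (hc + t)) n 0 0 ≤ 1 / (t * d) := fun N =>
    ren_up (g := M.g (hc + t)) (z := fun n => AZ.Zd M.C (M.v (hc + t)) n 0 0) hgn
      (fun n => AZ.Zd_nonneg _ _ _ _ _) (AZ.Zd_zero _ _ _)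
      (fun n hn => AZ.Zd_renewal M.C (M.v (hc + t)) hn) htd hsum N
  calc ∑ a ∈ range l, ∑ c ∈ range (l - a), AZ.Zd M.C (M.v (hc + t)) (2 * c) 0 0
      ≤ ∑ a ∈ range l, 1 / (t * d) := by
        refine Finset.sum_le_sum fun a _ => ?_
        exact (SLow.sum_even_le (z := fun n => AZ.Zd M.C (M.v (hc + t)) n 0 0)
          (fun n => AZ.Zd_nonneg _ _ _ _ _) _).trans (hup _)
    _ = 1 / d * l / t := by
        rw [Finset.sum_const, card_range, nsmul_eq_mul]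
        field_simp

end

end Pool.Agent.IG
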