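import Pool.Agent.Lib.MP_daa227_pr_IG.Hop
import Pool.Agent.Lib.MP_daa227_pr_IG.Poly

/-!
# MP_daa227_pr, order: quantitative lower bound on the free energy from a rare good block
-/

namespace Pool.Agent.IG

open MeasureTheory ProbabilityTheory Finset Filter Topology
open MP_daa227_pr (Chain Zk Zf Gk Gf KU K0 Ren shift seqLaw ExpMom DepOn Good GoodW mom)
open Pool.Agent.AZ (Mod Kv lmg)
open Pool.Agent.IOrd (Sys aS cv)

noncomputable section

namespace StrF

open Hop (gi gi_01 gi_meas gi_int gi_dep)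

/-- the quantitative content of the strategy for one level, general free energy -/
theorem one (M : Mod) {h : ℝ} (hh : 0 < h) {c A₀ : ℝ} (hc : 0 < c)
    (hA₀ : 0 ≤ A₀)
    (hK : ∀ n : ℕ, 1 ≤ n → c * (n : ℝ) ^ (-A₀) ≤ Kv M.C (fun z => -h * M.φ z) (2 * n) 0)
    {x : ℝ} {k : ℕ} {q : ℝ} (hk : Even k) (hq0 : 0 < q) (hq1 : q ≤ 1 / 4)
    (hq : (seqLaw M.μ {ω | ∀ i < k, x ≤ ω i}).toReal = q) {D : ℝ}
    (hD : ∀ ω : ℕ → ℝ, (∀ i < k, x ≤ ω i) → -D ≤ Real.log (M.Z h k ω))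
    {n : ℕ} (hn : 1 ≤ n) (u : ℝ) {p : ℝ} (hp0 : 0 < p)
    (hp : (seqLaw M.μ {ω | Real.exp u ≤ M.Z h (2 * n) ω}).toReal = p) :
    (p * q) * (u - D - (1 + M.β / h) * (|Real.log c| + (A₀ + 1)) -
      (1 + M.β / h) * (A₀ + 1) * (Real.log (n + k) + Real.log (1 / (p * q)))) ≤
      ((2 * n + k : ℕ) : ℝ) * M.Fr h := by
  obtain ⟨k', rfl⟩ := hk
  have hm1 : 1 ≤ n + k' := by omega
  have hnn : 2 * n + (k' + k') = 2 * (n + k') := by ring
  set A1 : Set (ℕ → ℝ) := {ω | Real.exp u ≤ M.Z h (2 * n) ω} with hA1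
  set A2 : Set (ℕ → ℝ) := {ω | ∀ i < k' + k', x ≤ ω i} with hA2
  have mA1 : MeasurableSet A1 := measurableSet_le measurable_const (M.good_Z h (2 * n)).meas
  have mA2 : MeasurableSet A2 := by
    have e : A2 = ⋂ i ∈ Set.Iio (k' + k'), {ω : ℕ → ℝ | x ≤ ω i} := by
      ext ω
      simp [hA2]
    rw [e]
    exact MeasurableSet.biInter (Set.to_countable _) fun i _ =>
      measurableSet_le measurable_const (measurable_pi_apply i)
  have d1 : DepOn (2 * n) (gi A1) := gi_dep fun ω ω' hω h1 => by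
    have h2 : M.Z h (2 * n) ω = M.Z h (2 * n) ω' := (M.good_Z h (2 * n)).depOn ω ω' hω
    show Real.exp u ≤ M.Z h (2 * n) ω'
    rw [← h2]
    exact h1
  have d2 : DepOn (k' + k') (gi A2) := gi_dep fun ω ω' hω h1 i hi => by
    rw [← hω i hi]
    exact h1 i hi
  set b : (ℕ → ℝ) → ℝ := fun ω => 1 - gi A1 ω * gi A2 (shift (2 * n) ω) with hb
  have hbm : Measurable b := measurable_const.sub ((gi_meas mA1).mul
    ((gi_meas mA2).comp (MP_daa227_pr.measurable_shift (2 * n))))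
  have hbd : DepOn (2 * n + (k' + k')) b := by
    intro ω ω' hω
    have e1 := d1 ω ω' fun i hi => hω i (by omega)
    have e2 := d2 (shift (2 * n) ω) (shift (2 * n) ω') fun i hi => hω (i + 2 * n) (by omega)
    show 1 - _ = 1 - _
    rw [e1, e2]
  have h01 : ∀ ω, b ω = 0 ∨ b ω = 1 := by
    intro ω
    show 1 - gi A1 ω * gi A2 (shift (2 * n) ω) = 0 ∨ 1 - gi A1 ω * gi A2 (shift (2 * n) ω) = 1
    rcases gi_01 A1 ω with ⟨_, e1⟩ | ⟨_, e1⟩ <;>
      rcases gi_01 A2 (shift (2 * n) ω) with ⟨_, e2⟩ | ⟨_, e2⟩ <;> rw [e1, e2] <;> norm_num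
  have hgood : ∀ ω, b ω ≠ 1 → u - D ≤ Real.log (M.Z h (2 * n + (k' + k')) ω) := by
    intro ω hω
    have h3 : ω ∈ A1 ∧ shift (2 * n) ω ∈ A2 := by
      rcases gi_01 A1 ω with ⟨h1, e1⟩ | ⟨h1, e1⟩
      · rcases gi_01 A2 (shift (2 * n) ω) with ⟨h2, e2⟩ | ⟨h2, e2⟩
        · exact ⟨h1, h2⟩
        · exact absurd (show 1 - gi A1 ω * gi A2 (shift (2 * n) ω) = 1 by rw [e2]; ring) hω
      · exact absurd (show 1 - gi A1 ω * gi A2 (shift (2 * n) ω) = 1 by rw [e1]; ring) hω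
    have h4 : Real.exp u ≤ M.Z h (2 * n) ω := h3.1
    have h5 := hD _ h3.2
    have z1 := M.Z_pos h (even_two_mul n) ω
    have z2 := M.Z_pos h (Even.add_self k') (shift (2 * n) ω)
    have h6 : u ≤ Real.log (M.Z h (2 * n) ω) := (Real.le_log_iff_exp_le z1).2 h4
    have h7 := Real.log_le_log (mul_pos z1 z2) (M.Z_mul_le h (2 * n) (k' + k') ω)
    rw [Real.log_mul z1.ne' z2.ne'] at h7
    linarith
  have hint : ∫ ω, b ω ∂seqLaw M.μ = 1 - p * q := by
    have i1 : ∫ ω, gi A1 ω * gi A2 (shift (2 * n) ω) ∂seqLaw M.μ = p * q := by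
      rw [Pool.Agent.AZ.Strat.integral_mul_shift M.μ (gi_meas mA1) d1 (gi_meas mA2),
        gi_int M.μ mA1, gi_int M.μ mA2, hp, hq]
    have i2 : Integrable (fun ω => gi A1 ω * gi A2 (shift (2 * n) ω)) (seqLaw M.μ) := by
      refine Integrable.of_bound ((gi_meas mA1).mul
        ((gi_meas mA2).comp (MP_daa227_pr.measurable_shift (2 * n)))).aestronglyMeasurable 1
        (ae_of_all _ fun ω => ?_)
      show ‖gi A1 ω * gi A2 (shift (2 * n) ω)‖ ≤ 1
      rcases gi_01 A1 ω with ⟨_, e1⟩ | ⟨_, e1⟩ <;>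
        rcases gi_01 A2 (shift (2 * n) ω) with ⟨_, e2⟩ | ⟨_, e2⟩ <;> rw [e1, e2] <;> norm_num
    show ∫ ω, (1 - gi A1 ω * gi A2 (shift (2 * n) ω)) ∂seqLaw M.μ = 1 - p * q
    rw [integral_sub (integrable_const _) i2, i1]
    simp
  have hp1 : p ≤ 1 := by
    rw [← hp]
    exact measureReal_le_one
  have hpq0 : 0 < p * q := mul_pos hp0 hq0
  have hpq1 : p * q ≤ 1 / 4 := by nlinarith
  have hβ := M.β_pos
  set B : ℝ := 1 + M.β / h with hB
  have hB1 : 1 ≤ B := by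
    rw [hB]
    have : 0 < M.β / h := div_pos hβ hh
    linarith
  have hBs : 1 + 2 * M.β * Real.sqrt (p * q) / h ≤ B := by
    have s1 : Real.sqrt (p * q) ≤ 1 / 2 := by
      rw [show (1:ℝ) / 2 = Real.sqrt ((1 / 2) ^ 2) by rw [Real.sqrt_sq (by norm_num)]]
      exact Real.sqrt_le_sqrt (by norm_num; linarith)
    rw [hB]
    have : 2 * M.β * Real.sqrt (p * q) / h ≤ M.β / h := by
      apply div_le_div_of_nonneg_right _ hh.le
      nlinarith
    linarith
  have hBs0 : 0 ≤ 1 + 2 * M.β * Real.sqrt (p * q) / h := by positivity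
  set A' : ℝ := A₀ + 1 with hA'
  have hA'0 : 0 < A' := by rw [hA']; linarith
  set lm : ℝ := Real.log ((n + k' : ℕ) : ℝ) with hlm
  have hlm0 : 0 ≤ lm := Real.log_nonneg (by exact_mod_cast hm1)
  set lp : ℝ := Real.log (1 / (p * q)) with hlp
  have hlp0 : 0 ≤ lp := by
    apply Real.log_nonneg
    rw [le_div_iff₀ hpq0]
    linarith
  set C₁ : ℝ := |Real.log c| with hC₁
  have hC₁0 : 0 ≤ C₁ := abs_nonneg _
  have hQ : ∀ j : ℕ, 1 ≤ j → (1 + 2 * M.β * Real.sqrt (p * q) / h) *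
      (-Real.log (Kv M.C (fun z => -h * M.φ z) (j * (2 * n + (k' + k'))) 0)) ≤
      B * (A' * lm + A' * lp + C₁) + (B * A' * (p * q)) * j := by
    intro j hj
    have hjr : (1:ℝ) ≤ j := by exact_mod_cast hj
    have hj0 : (0:ℝ) < j := by linarith
    have hmr : (1:ℝ) ≤ ((n + k' : ℕ) : ℝ) := by exact_mod_cast hm1
    have e1 : j * (2 * n + (k' + k')) = 2 * (j * (n + k')) := by ring
    have h1 : 1 ≤ j * (n + k') := Nat.mul_pos hj hm1
    have h2 := hK (j * (n + k')) h1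
    rw [e1]
    set Kk := Kv M.C (fun z => -h * M.φ z) (2 * (j * (n + k'))) 0 with hKk
    have hr : (0:ℝ) < ((j * (n + k') : ℕ) : ℝ) := by exact_mod_cast h1
    have h3 : 0 < c * ((j * (n + k') : ℕ) : ℝ) ^ (-A₀) := mul_pos hc (Real.rpow_pos_of_pos hr _)
    have h4 := Real.log_le_log h3 h2
    rw [Real.log_mul hc.ne' (Real.rpow_pos_of_pos hr _).ne', Real.log_rpow hr, Nat.cast_mul,
      Real.log_mul hj0.ne' (by linarith)] at h4
    have h5 : -Real.log c ≤ C₁ := neg_le_abs _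
    have hlj0 : 0 ≤ Real.log j := Real.log_nonneg hjr
    have h6 : -Real.log Kk ≤ A' * (Real.log j + lm) + C₁ := by
      have : A₀ * (Real.log j + lm) ≤ A' * (Real.log j + lm) :=
        mul_le_mul_of_nonneg_right (by rw [hA']; linarith) (by linarith)
      linarith
    have h7 : Real.log j ≤ (p * q) * j + lp := by
      have h8 : Real.log j = Real.log (p * q * j) + lp := by
        rw [hlp, ← Real.log_mul (by positivity) (by positivity)]
        congr 1
        field_simp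
      have h9 := Real.log_le_sub_one_of_pos (show 0 < p * q * (j : ℝ) by positivity)
      rw [h8]
      linarith
    have h10 : 0 ≤ A' * (Real.log j + lm) + C₁ := by positivity
    have h11 : (1 + 2 * M.β * Real.sqrt (p * q) / h) * (-Real.log Kk) ≤
        B * (A' * (Real.log j + lm) + C₁) :=
      (mul_le_mul_of_nonneg_left h6 hBs0).trans (mul_le_mul_of_nonneg_right hBs h10)
    refine h11.trans ?_
    have h12 : A' * Real.log j ≤ A' * ((p * q) * j + lp) := mul_le_mul_of_nonneg_left h7 hA'0.le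
    have h13 : B * (A' * (Real.log j + lm) + C₁) ≤
        B * (A' * ((p * q) * j + lp) + A' * lm + C₁) :=
      mul_le_mul_of_nonneg_left (by linarith) (by linarith)
    refine h13.trans (le_of_eq ?_)
    ring
  have hc₀ : 0 ≤ B * (A' * lm + A' * lp + C₁) := by positivity
  have hc₁ : 0 ≤ B * A' * (p * q) := by positivity
  have hev : Even (2 * n + (k' + k')) := by rw [hnn]; exact even_two_mul _
  have key : (p * q) * (u - D - B * (A' * lm + A' * lp + C₁)) -
      (1 - p * q) * (B * A' * (p * q)) ≤ ((2 * n + (k' + k') : ℕ) : ℝ) * M.Fr h := by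
    by_contra hcon
    rw [not_le] at hcon
    set X : ℝ := (p * q) * (u - D - B * (A' * lm + A' * lp + C₁)) -
      (1 - p * q) * (B * A' * (p * q)) with hX
    set F : ℝ := ((2 * n + (k' + k') : ℕ) : ℝ) * M.Fr h with hF
    have hXF : 0 < X - F := by linarith
    obtain ⟨T, hT⟩ := exists_nat_gt (B * (A' * lm + A' * lp + C₁) / (X - F))
    rw [div_lt_iff₀ hXF] at hT
    have h1 := strategyE M hh hev (by omega) (u - D) hbm hbd h01 hgood hint hpq0 hpq1 hc₀ hc₁ hQ T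
    have h2 := M.Ψ_le h (hev.mul_left T)
    have h3 : ((T * (2 * n + (k' + k')) : ℕ) : ℝ) * M.Fr h = T * F := by
      rw [hF]
      push_cast
      ring
    rw [← hX] at h1
    rw [h3] at h2
    have h4 : (T : ℝ) * X - T * F = T * (X - F) := by ring
    linarith
  have h1 : (1 - p * q) * (B * A' * (p * q)) ≤ B * A' * (p * q) := by
    have : 0 ≤ (p * q) * (B * A' * (p * q)) := by positivity
    nlinarith
  have h4 : lm ≤ Real.log ((n : ℝ) + ((k' + k' : ℕ) : ℝ)) := by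
    rw [hlm]
    apply Real.log_le_log (by exact_mod_cast hm1)
    push_cast
    have : (0:ℝ) ≤ k' := Nat.cast_nonneg _
    linarith
  have h5 : B * A' * lm ≤ B * A' * Real.log ((n : ℝ) + ((k' + k' : ℕ) : ℝ)) :=
    mul_le_mul_of_nonneg_left h4 (by positivity)
  have h6 : (p * q) * (B * A' * lm) ≤
      (p * q) * (B * A' * Real.log ((n : ℝ) + ((k' + k' : ℕ) : ℝ))) :=
    mul_le_mul_of_nonneg_left h5 hpq0.le
  have h7 : (p * q) * (u - D - B * (C₁ + A') -
      B * A' * (Real.log ((n : ℝ) + ((k' + k' : ℕ) : ℝ)) + lp)) =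
      (p * q) * (u - D - B * (A' * lm + A' * lp + C₁)) - B * A' * (p * q) +
      ((p * q) * (B * A' * lm) -
        (p * q) * (B * A' * Real.log ((n : ℝ) + ((k' + k' : ℕ) : ℝ)))) := by ring
  rw [h7]
  linarith

end StrF

/-- Copy of `Hop.one` (Lib/MP_daa227_pr_IG/Hop.lean) without the hypothesis `M.Fr h ≤ 0`: with
`x, k, q` from `thin`, the block length `n' = 2 n + k` and `p' = p q` (`p` the actual probability,
`p₀ ≤ p ≤ 1`) `strategyE` and `Ψ (T n') ≤ T n' Fr` (`AZ.Ψ_le`) give for `T → ∞`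
`p' (u - D - B (A' log n' + A' log (1/p') + C₁)) - B A' p' ≤ n' Fr h`. Uniformity for
`hc / 2 ≤ h ≤ hc`: `PolyCost` at `η = hc` and `AZ.Kv_mono` (`-hc φ ≤ -h φ`); `D` from `z_low` at `hc`
(`Z` is nonincreasing in `h`, e.g. `es_Zk`, `ES.mono`, or `AZ.Mod.A2_Z_anti`-like lemmas);
`B = 1 + β / h ≤ 1 + 2 β / hc`. If the bracket is nonpositive the claim is trivial because
`0 ≤ Fr h` (`fr_nonneg`); otherwise it increases when `p₀` is replaced by `p`. -/
theorem str_low (M : Mod) (hP : PolyCost M) {hc : ℝ} (hc0 : 0 < hc) :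
    ∃ C₁ A₁ : ℝ, 0 < C₁ ∧ 0 < A₁ ∧ ∀ h : ℝ, hc / 2 ≤ h → h ≤ hc → ∀ n : ℕ, 1 ≤ n →
      ∀ u p₀ : ℝ, 0 < p₀ → p₀ ≤ (seqLaw M.μ {ω | Real.exp u ≤ M.Z h (2 * n) ω}).toReal →
        p₀ * (u - C₁ - A₁ * Real.log n - A₁ * Real.log (1 / p₀)) ≤ C₁ * n * M.Fr h := by
  obtain ⟨x, k, q, hk, hq0, hq1, hq⟩ := thin M.μ M.exp_mom M.mean M.var
  obtain ⟨D, hD0, hD⟩ := z_low M hc x hk
  obtain ⟨c, A₀, hc1, hA₀, hK⟩ := hP hc hc0
  have hβ := M.β_pos
  set B₀ : ℝ := 1 + 2 * M.β / hc with hB₀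
  have hB₀1 : 1 ≤ B₀ := by
    rw [hB₀]
    have : 0 < 2 * M.β / hc := by positivity
    linarith
  have hk0 : (0:ℝ) ≤ k := Nat.cast_nonneg k
  have hlk : 0 ≤ Real.log (1 + k) := Real.log_nonneg (by linarith)
  have hlq : 0 ≤ Real.log (1 / q) := Real.log_nonneg (by rw [le_div_iff₀ hq0]; linarith)
  set E : ℝ := D + B₀ * (|Real.log c| + (A₀ + 1)) +
    B₀ * (A₀ + 1) * (Real.log (1 + k) + Real.log (1 / q)) with hE
  have hE0 : 0 ≤ E := by positivity
  have hG0 : 0 < (2 + k) / q := by positivity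
  refine ⟨E + (2 + k) / q, B₀ * (A₀ + 1), by positivity, by positivity, ?_⟩
  intro h hh1 hh2 n hn u p₀ hp₀ hpp
  have hh : 0 < h := by linarith
  have hn1 : (1:ℝ) ≤ n := by exact_mod_cast hn
  have hF := fr_nonneg M hP h
  set p : ℝ := (seqLaw M.μ {ω | Real.exp u ≤ M.Z h (2 * n) ω}).toReal with hp
  have hp0 : 0 < p := lt_of_lt_of_le hp₀ hpp
  have hR : 0 ≤ (E + (2 + k) / q) * n * M.Fr h := by positivity
  by_cases hbr : u - (E + (2 + k) / q) - B₀ * (A₀ + 1) * Real.log n -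
      B₀ * (A₀ + 1) * Real.log (1 / p₀) ≤ 0
  · exact (mul_nonpos_of_nonneg_of_nonpos hp₀.le hbr).trans hR
  rw [not_le] at hbr
  have hKh : ∀ n : ℕ, 1 ≤ n →
      c * (n : ℝ) ^ (-A₀) ≤ Kv M.C (fun z => -h * M.φ z) (2 * n) 0 := by
    intro n hn
    refine (hK n hn).trans (Pool.Agent.AZ.Kv_mono M.C (fun z => ?_) (2 * n) 0)
    have := mul_le_mul_of_nonneg_right hh2 (M.φ_nonneg z)
    linarith
  have hDh : ∀ ω : ℕ → ℝ, (∀ i < k, x ≤ ω i) → -D ≤ Real.log (M.Z h k ω) := by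
    intro ω hω
    exact (hD ω hω).trans (Real.log_le_log (M.Z_pos hc hk ω) (M.A2_Z_anti hh2 k ω))
  have h1 := StrF.one M hh hc1 hA₀ hKh hk hq0 hq1 hq hDh hn u hp0 hp.symm
  have hBB : 1 + M.β / h ≤ B₀ := by
    rw [hB₀]
    have : M.β / h ≤ 2 * M.β / hc := by
      rw [div_le_div_iff₀ hh hc0]
      nlinarith
    linarith
  have hlpp : Real.log (1 / p) ≤ Real.log (1 / p₀) :=
    Real.log_le_log (by positivity) (one_div_le_one_div_of_le hp₀ hpp)
  have hp1 : p ≤ 1 := by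
    rw [hp]
    exact measureReal_le_one
  have hlp0 : 0 ≤ Real.log (1 / p) := Real.log_nonneg (by rw [le_div_iff₀ hp0]; linarith)
  have hl1 : Real.log (1 / (p * q)) = Real.log (1 / p) + Real.log (1 / q) := by
    rw [← Real.log_mul (by positivity) (by positivity)]
    congr 1
    field_simp
  have hl2 : Real.log ((n : ℝ) + k) ≤ Real.log (1 + k) + Real.log n := by
    rw [← Real.log_mul (by positivity) (by positivity)]
    apply Real.log_le_log (by linarith)
    nlinarith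
  have hln : 0 ≤ Real.log n := Real.log_nonneg hn1
  have hln2 : 0 ≤ Real.log ((n : ℝ) + k) := Real.log_nonneg (by linarith)
  rw [hl1] at h1
  -- lower bound of the bracket
  have hC0 : 0 ≤ |Real.log c| + (A₀ + 1) := by positivity
  have e1 : (1 + M.β / h) * (|Real.log c| + (A₀ + 1)) ≤ B₀ * (|Real.log c| + (A₀ + 1)) :=
    mul_le_mul_of_nonneg_right hBB hC0
  have e2 : (1 + M.β / h) * (A₀ + 1) * (Real.log (n + k) + (Real.log (1 / p) +
      Real.log (1 / q))) ≤ B₀ * (A₀ + 1) * (Real.log (1 + k) + Real.log n + (Real.log (1 / p) +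
      Real.log (1 / q))) := by
    have i1 : (1 + M.β / h) * (A₀ + 1) ≤ B₀ * (A₀ + 1) :=
      mul_le_mul_of_nonneg_right hBB (by linarith)
    refine (mul_le_mul_of_nonneg_right i1 (by positivity)).trans ?_
    exact mul_le_mul_of_nonneg_left (by linarith) (by positivity)
  have e3 : u - E - B₀ * (A₀ + 1) * Real.log n - B₀ * (A₀ + 1) * Real.log (1 / p) ≤
      u - D - (1 + M.β / h) * (|Real.log c| + (A₀ + 1)) -
        (1 + M.β / h) * (A₀ + 1) * (Real.log (n + k) + (Real.log (1 / p) + Real.log (1 / q))) := by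
    rw [hE]
    linarith
  have e4 : u - (E + (2 + k) / q) - B₀ * (A₀ + 1) * Real.log n -
      B₀ * (A₀ + 1) * Real.log (1 / p₀) ≤
      u - E - B₀ * (A₀ + 1) * Real.log n - B₀ * (A₀ + 1) * Real.log (1 / p) := by
    have := mul_le_mul_of_nonneg_left hlpp (show 0 ≤ B₀ * (A₀ + 1) by positivity)
    linarith
  have e5 : p₀ * (u - (E + (2 + k) / q) - B₀ * (A₀ + 1) * Real.log n -
      B₀ * (A₀ + 1) * Real.log (1 / p₀)) ≤
      p * (u - D - (1 + M.β / h) * (|Real.log c| + (A₀ + 1)) -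
        (1 + M.β / h) * (A₀ + 1) * (Real.log (n + k) + (Real.log (1 / p) +
          Real.log (1 / q)))) :=
    mul_le_mul hpp (e4.trans e3) hbr.le hp0.le
  have e6 : p * (u - D - (1 + M.β / h) * (|Real.log c| + (A₀ + 1)) -
        (1 + M.β / h) * (A₀ + 1) * (Real.log (n + k) + (Real.log (1 / p) +
          Real.log (1 / q)))) ≤ ((2 * n + k : ℕ) : ℝ) * M.Fr h / q := by
    rw [le_div_iff₀ hq0]
    refine le_trans (le_of_eq ?_) h1
    ring
  have e7 : ((2 * n + k : ℕ) : ℝ) ≤ (2 + k) * n := by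
    push_cast
    nlinarith
  have e8 : ((2 * n + k : ℕ) : ℝ) * M.Fr h / q ≤ (E + (2 + k) / q) * n * M.Fr h := by
    have i1 := mul_le_mul_of_nonneg_right e7 hF
    have i2 : ((2 * n + k : ℕ) : ℝ) * M.Fr h / q ≤ (2 + k) * n * M.Fr h / q :=
      div_le_div_of_nonneg_right i1 hq0.le
    have i3 : (E + (2 + k) / q) * n * M.Fr h = E * (n * M.Fr h) + (2 + k) * n * M.Fr h / q := by
      field_simp
    have i4 : 0 ≤ E * (n * M.Fr h) := by positivity
    linarith
  exact e5.trans (e6.trans e8)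

end

end Pool.Agent.IG
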