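import Pool.Agent.Lib.MP_daa227_pr_IG.Defs
import Pool.Agent.Lib.MP_daa227_pr_AZ.Basic
import Pool.Agent.Lib.MP_daa227_pr_AZ.FreePin

/-!
# MP_daa227_pr, order: the free excursions have a polynomial tail
-/

namespace Pool.Agent.IG

open MeasureTheory ProbabilityTheory Finset Filter Topology
open MP_daa227_pr (Chain Zk Zf Gk Gf KU K0 Ren shift seqLaw ExpMom DepOn Good GoodW mom)
open Pool.Agent.AZ (Mod Kv lmg)
open Pool.Agent.IOrd (Sys aS cv)

noncomputable section

/-- `E_1 [1 - exp (-s T_0)] ≤ A s ^ a` (without the paths that never reach `0`) -/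
def FTail (C : Chain) (a : ℝ) : Prop :=
  ∃ A : ℝ, 0 ≤ A ∧ ∀ s : ℝ, 0 < s → s ≤ 1 → ∀ N : ℕ,
    ∑ n ∈ range N, K0 C n 1 * (1 - Real.exp (-(s * n))) ≤ A * s ^ a

namespace TailK

theorem nn (C : Chain) (n : ℕ) (x : ℤ) : 0 ≤ K0 C n x := MP_daa227_pr.K0_nonneg C n x

theorem step_le (C : Chain) (n : ℕ) (x y : ℤ) (hy : y = x - 1 ∨ y = x + 1) (h0 : y ≠ 0) :
    C.p x y * K0 C n y ≤ K0 C (n + 1) x := by
  rw [K0]
  have h1 : y ∈ Finset.Icc (x - 1) (x + 1) \ {0} := by
    rw [Finset.mem_sdiff, Finset.mem_Icc, Finset.mem_singleton]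
    refine ⟨⟨?_, ?_⟩, h0⟩ <;> rcases hy with rfl | rfl <;> omega
  have h2 : C.p x y * K0 C n y ≤ ∑ z ∈ Finset.Icc (x - 1) (x + 1) \ {0}, C.p x z * K0 C n z :=
    Finset.single_le_sum (f := fun z => C.p x z * K0 C n z)
      (fun z _ => mul_nonneg (C.nonneg _ _) (nn C n z)) h1
  have h4 : (0 : ℝ) ≤ (if n = 0 then C.p x 0 else 0) := by
    split_ifs
    · exact C.nonneg _ _
    · exact le_rfl
  linarith

theorem up_le (C : Chain) (r k : ℕ) (hk : k ≤ r) : ∃ c : ℝ, 0 < c ∧ ∀ m : ℕ,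
    c * K0 C m ((r : ℤ) + 1) ≤ K0 C (m + k) ((r : ℤ) + 1 - k) := by
  induction k with
  | zero => exact ⟨1, one_pos, fun m => by simp⟩
  | succ k ih =>
    obtain ⟨c, hc, h⟩ := ih (by omega)
    refine ⟨C.p ((r : ℤ) + 1 - (k + 1 : ℕ)) ((r : ℤ) + 1 - k) * c, ?_, fun m => ?_⟩
    · refine mul_pos ?_ hc
      have e : (r : ℤ) + 1 - k = (r : ℤ) + 1 - (k + 1 : ℕ) + 1 := by push_cast; ring
      rw [e]
      exact C.up _
    · have h1 := step_le C (m + k) ((r : ℤ) + 1 - (k + 1 : ℕ)) ((r : ℤ) + 1 - k)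
        (Or.inr (by push_cast; ring)) (by omega)
      rw [← add_assoc]
      refine le_trans ?_ h1
      rw [mul_assoc]
      exact mul_le_mul_of_nonneg_left (h m) (C.nonneg _ _)

theorem ctr_zero (C : Chain) : AZ.ctr C 0 = C := by
  cases C
  simp [AZ.ctr]

theorem down_le (C : Chain) (r : ℕ) (hr : 1 ≤ r) : ∀ (n : ℕ) (x : ℤ), (r : ℤ) < x →
    K0 C r r * K0 (AZ.ctr C r) n (x - r) ≤ K0 C (n + r) x
  | 0, x, _ => by
    have : K0 (AZ.ctr C r) 0 (x - r) = 0 := rfl
    rw [this, mul_zero]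
    exact nn C _ _
  | n + 1, x, hx => by
    rw [AZ.FreePin.K0_ctr, mul_add, Finset.mul_sum, show n + 1 + r = (n + r) + 1 by ring, K0,
      if_neg (show ¬ (n + r = 0) by omega), zero_add]
    by_cases hxr : (r : ℤ) ∈ Finset.Icc (x - 1) (x + 1)
    · have hsub : insert (r : ℤ) (Finset.Icc (x - 1) (x + 1) \ {(r : ℤ)}) =
          Finset.Icc (x - 1) (x + 1) \ {0} := by
        ext z
        rw [Finset.mem_Icc] at hxr
        simp only [Finset.mem_insert, Finset.mem_sdiff, Finset.mem_Icc, Finset.mem_singleton]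
        omega
      rw [← hsub, Finset.sum_insert (by simp)]
      refine add_le_add ?_ (Finset.sum_le_sum fun z hz => ?_)
      · split_ifs with h0
        · subst h0
          rw [zero_add, mul_comm]
        · rw [mul_zero]
          exact mul_nonneg (C.nonneg _ _) (nn C _ _)
      · rw [Finset.mem_sdiff, Finset.mem_Icc, Finset.mem_singleton] at hz
        have ih := down_le C r hr n z (by omega)
        calc K0 C r r * (C.p x z * K0 (AZ.ctr C r) n (z - r))
            = C.p x z * (K0 C r r * K0 (AZ.ctr C r) n (z - r)) := by ring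
          _ ≤ _ := mul_le_mul_of_nonneg_left ih (C.nonneg _ _)
    · rw [C.near x r hxr, ite_self, mul_zero, zero_add]
      have hsub : Finset.Icc (x - 1) (x + 1) \ {(r : ℤ)} =
          Finset.Icc (x - 1) (x + 1) \ {0} := by
        ext z
        rw [Finset.mem_Icc] at hxr
        simp only [Finset.mem_sdiff, Finset.mem_Icc, Finset.mem_singleton]
        omega
      rw [hsub]
      refine Finset.sum_le_sum fun z hz => ?_
      rw [Finset.mem_sdiff, Finset.mem_Icc, Finset.mem_singleton] at hz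
      rw [Finset.mem_Icc] at hxr
      have ih := down_le C r hr n z (by omega)
      calc K0 C r r * (C.p x z * K0 (AZ.ctr C r) n (z - r))
          = C.p x z * (K0 C r r * K0 (AZ.ctr C r) n (z - r)) := by ring
        _ ≤ _ := mul_le_mul_of_nonneg_left ih (C.nonneg _ _)

theorem one_sub_exp_le {a x : ℝ} (ha : 0 < a) (ha1 : a ≤ 1) (hx : 0 ≤ x) :
    1 - Real.exp (-x) ≤ x ^ a := by
  have h1 : 1 - Real.exp (-x) ≤ x := by
    have := Real.add_one_le_exp (-x)
    linarith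
  rcases le_total x 1 with h | h
  · refine h1.trans ?_
    rcases hx.eq_or_lt with h0 | h0
    · rw [← h0, Real.zero_rpow ha.ne']
    · calc x = x ^ (1 : ℝ) := (Real.rpow_one x).symm
        _ ≤ x ^ a := Real.rpow_le_rpow_of_exponent_ge h0 h ha1
  · have h2 : 1 ≤ x ^ a := Real.one_le_rpow h ha.le
    have h3 := Real.exp_pos (-x)
    linarith

end TailK

/-- go up from `1` to `r + 1` in `r` steps, take the first passage from `r + 1` to `r`, and go
down to `0` in `r` steps (`AZ.ctr C r` is the chain translated by `r`; the recursion of `K0`) -/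
theorem K0_lift (C : Chain) (r : ℕ) : ∃ c : ℝ, 0 < c ∧ ∀ n : ℕ,
    c * K0 (AZ.ctr C r) n 1 ≤ K0 C (n + 2 * r) 1 := by
  rcases Nat.eq_zero_or_pos r with h0 | h0
  · subst h0
    refine ⟨1, one_pos, fun n => ?_⟩
    rw [Nat.cast_zero, TailK.ctr_zero, one_mul, mul_zero, add_zero]
  · obtain ⟨c, hc, h⟩ := TailK.up_le C r r le_rfl
    have hk : 0 < K0 C r r := by
      obtain ⟨m, rfl⟩ : ∃ m, r = m + 1 := ⟨r - 1, by omega⟩
      have := MP_daa227_pr.K0_down C m
      push_cast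
      exact this
    refine ⟨c * K0 C r r, mul_pos hc hk, fun n => ?_⟩
    have h1 := h (n + r)
    have h2 := TailK.down_le C r h0 n ((r : ℤ) + 1) (by omega)
    rw [show ((r : ℤ) + 1 - r) = 1 by ring] at h1 h2
    rw [show n + 2 * r = n + r + r by ring, mul_assoc]
    exact (mul_le_mul_of_nonneg_left h2 hc.le).trans h1

/-- by `K0_lift` and monotonicity of `1 - exp (-s n)` in `n` -/
theorem ftail_ctr (C : Chain) {a : ℝ} (h : FTail C a) (r : ℕ) : FTail (AZ.ctr C r) a := by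
  obtain ⟨A, hA, hb⟩ := h
  obtain ⟨c, hc, hl⟩ := K0_lift C r
  refine ⟨A / c, by positivity, fun s hs hs1 N => ?_⟩
  have h1 := hb s hs hs1 (N + 2 * r)
  have hfn : ∀ n : ℕ, 0 ≤ 1 - Real.exp (-(s * n)) := fun n => by
    have : Real.exp (-(s * n)) ≤ 1 := Real.exp_le_one_iff.2 (by
      have : 0 ≤ s * (n : ℝ) := by positivity
      linarith)
    linarith
  have h2 : c * ∑ n ∈ range N, K0 (AZ.ctr C r) n 1 * (1 - Real.exp (-(s * n))) ≤
      ∑ n ∈ range N, K0 C (n + 2 * r) 1 * (1 - Real.exp (-(s * ((n + 2 * r : ℕ) : ℝ)))) := by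
    rw [Finset.mul_sum]
    refine Finset.sum_le_sum fun n _ => ?_
    rw [← mul_assoc]
    refine mul_le_mul (hl n) ?_ (hfn n) (TailK.nn C _ _)
    have : Real.exp (-(s * ((n + 2 * r : ℕ) : ℝ))) ≤ Real.exp (-(s * n)) := by
      refine Real.exp_le_exp.2 ?_
      push_cast
      have : 0 ≤ s * (2 * (r : ℝ)) := by positivity
      nlinarith
    linarith
  have h3 : ∑ n ∈ range N, K0 C (n + 2 * r) 1 *
      (1 - Real.exp (-(s * ((n + 2 * r : ℕ) : ℝ)))) ≤
      ∑ n ∈ range (N + 2 * r), K0 C n 1 * (1 - Real.exp (-(s * n))) := by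
    rw [add_comm N, Finset.sum_range_add]
    have h4 : 0 ≤ ∑ n ∈ range (2 * r), K0 C n 1 * (1 - Real.exp (-(s * n))) :=
      Finset.sum_nonneg fun n _ => mul_nonneg (TailK.nn C _ _) (hfn n)
    have h5 : ∑ n ∈ range N, K0 C (n + 2 * r) 1 *
        (1 - Real.exp (-(s * ((n + 2 * r : ℕ) : ℝ)))) =
        ∑ n ∈ range N, K0 C (2 * r + n) 1 *
        (1 - Real.exp (-(s * ((2 * r + n : ℕ) : ℝ)))) :=
      Finset.sum_congr rfl fun n _ => by rw [add_comm n (2 * r)]
    linarith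
  rw [div_mul_eq_mul_div, le_div_iff₀ hc, mul_comm]
  exact h2.trans (h3.trans h1)

/-- `1 - exp (-x) ≤ x ^ a` for `x ≥ 0`, `0 < a ≤ 1`; so a polynomial bound with a better exponent
gives `FTail` -/
theorem ftail_of_le (C : Chain) {a a' B : ℝ} (ha : 0 < a) (ha1 : a ≤ 1) (haa : a < a')
    (h : ∀ n : ℕ, 1 ≤ n → K0 C n 1 ≤ B * (n : ℝ) ^ (-(1 + a'))) : FTail C a := by
  have hsum : Summable fun n : ℕ => (n : ℝ) ^ (-(1 + (a' - a))) :=
    Real.summable_nat_rpow.2 (by linarith)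
  have htn : 0 ≤ ∑' n : ℕ, (n : ℝ) ^ (-(1 + (a' - a))) :=
    tsum_nonneg fun n => Real.rpow_nonneg (Nat.cast_nonneg n) _
  refine ⟨|B| * ∑' n : ℕ, (n : ℝ) ^ (-(1 + (a' - a))), mul_nonneg (abs_nonneg B) htn,
    fun s hs hs1 N => ?_⟩
  have hterm : ∀ n ∈ range N, K0 C n 1 * (1 - Real.exp (-(s * n))) ≤
      |B| * s ^ a * (n : ℝ) ^ (-(1 + (a' - a))) := by
    intro n _
    rcases Nat.eq_zero_or_pos n with h0 | h0
    · subst h0
      have : K0 C 0 1 = 0 := rfl
      rw [this, zero_mul]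
      have h1 : 0 ≤ s ^ a := Real.rpow_nonneg hs.le _
      have h2 : 0 ≤ ((0 : ℕ) : ℝ) ^ (-(1 + (a' - a))) := Real.rpow_nonneg (Nat.cast_nonneg _) _
      positivity
    · have hn : (0 : ℝ) < n := Nat.cast_pos.2 h0
      have h1 : K0 C n 1 ≤ |B| * (n : ℝ) ^ (-(1 + a')) :=
        (h n h0).trans (mul_le_mul_of_nonneg_right (le_abs_self B) (Real.rpow_nonneg hn.le _))
      have h2 : 1 - Real.exp (-(s * n)) ≤ (s * n) ^ a :=
        TailK.one_sub_exp_le ha ha1 (by positivity)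
      have h3 : 0 ≤ 1 - Real.exp (-(s * n)) := by
        have : Real.exp (-(s * n)) ≤ 1 := Real.exp_le_one_iff.2 (by
          have : 0 ≤ s * (n : ℝ) := by positivity
          linarith)
        linarith
      calc K0 C n 1 * (1 - Real.exp (-(s * n)))
          ≤ |B| * (n : ℝ) ^ (-(1 + a')) * (s * n) ^ a :=
            mul_le_mul h1 h2 h3 (mul_nonneg (abs_nonneg B) (Real.rpow_nonneg hn.le _))
        _ = |B| * s ^ a * ((n : ℝ) ^ (-(1 + a')) * (n : ℝ) ^ a) := by
            rw [Real.mul_rpow hs.le hn.le]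
            ring
        _ = |B| * s ^ a * (n : ℝ) ^ (-(1 + (a' - a))) := by
            rw [← Real.rpow_add hn]
            congr 2
            ring
  calc ∑ n ∈ range N, K0 C n 1 * (1 - Real.exp (-(s * n)))
      ≤ ∑ n ∈ range N, |B| * s ^ a * (n : ℝ) ^ (-(1 + (a' - a))) := Finset.sum_le_sum hterm
    _ = |B| * s ^ a * ∑ n ∈ range N, (n : ℝ) ^ (-(1 + (a' - a))) := by rw [Finset.mul_sum]
    _ ≤ |B| * s ^ a * ∑' n : ℕ, (n : ℝ) ^ (-(1 + (a' - a))) := by
        refine mul_le_mul_of_nonneg_left ?_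
          (mul_nonneg (abs_nonneg B) (Real.rpow_nonneg hs.le _))
        exact hsum.sum_le_tsum _ fun n _ => Real.rpow_nonneg (Nat.cast_nonneg n) _
    _ = |B| * (∑' n : ℕ, (n : ℝ) ^ (-(1 + (a' - a)))) * s ^ a := by ring

end

end Pool.Agent.IG
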