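import Pool.Agent.Lib.MP_daa227_pr_IG.SDef
import Pool.Agent.Lib.MP_daa227_pr_IG.TailK
import Pool.Agent.Lib.MP_daa227_pr.HcPos

/-!
# MP_daa227_pr, exact order: tails from the loop exponent
-/

namespace Pool.Agent.IG

open MeasureTheory ProbabilityTheory Finset Filter Topology
open MP_daa227_pr (Chain Zk Zf Gk Gf KU K0 Ren shift seqLaw ExpMom DepOn Good GoodW mom)
open Pool.Agent.AZ (Mod Kv lmg)
open Pool.Agent.IOrd (Sys aS cv)

noncomputable section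

namespace STail

theorem step (C : Chain) (n : ℕ) : C.p 0 1 * K0 C n 1 ≤ K0 C (n + 1) 0 :=
  TailK.step_le C n 0 1 (Or.inr (by norm_num)) (by norm_num)

theorem up (C : Chain) : 0 < C.p 0 1 := by
  have h := C.up 0
  rwa [zero_add] at h

theorem le_one (C : Chain) (n : ℕ) (x : ℤ) : K0 C n x ≤ 1 := by
  rw [← AZ.Kv_K0]
  exact AZ.Kv_le_one C (fun _ => le_rfl) n x

theorem cneg_K0 (C : Chain) (n : ℕ) : K0 (AZ.cneg C) n 0 = K0 C n 0 := by
  rw [← AZ.Kv_K0, ← AZ.Kv_K0]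
  have h := AZ.Kv_cneg C (fun _ => 0) n 0
  rw [neg_zero] at h
  exact h

end STail

/-- `C.p 0 1 * K0 C n 1 ≤ K0 C (n + 1) 0` and `K0 C n 1 = 0` for even `n` (`hnl`), so
`K0 C n 1 ≤ B n^(-(1+a'))` with `a < a' < α`; `ftail_of_le` -/
theorem ftail_of_up (C : Chain) (hnl : ∀ x, C.p x x = 0) {α a : ℝ} (hU : KUp C α) (ha : 0 < a)
    (ha1 : a ≤ 1) (haα : a < α) : FTail C a := by
  obtain ⟨a', ha'⟩ : ∃ a', a' = (a + α) / 2 := ⟨_, rfl⟩
  have h1 := hU (α - a') (by linarith)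
  obtain ⟨N, hN⟩ := eventually_atTop.1 h1
  have hp := STail.up C
  refine ftail_of_le C (a' := a') (B := (C.p 0 1)⁻¹ + ((2 * N + 2 : ℕ) : ℝ) ^ (1 + a')) ha ha1
    (by linarith) fun n hn => ?_
  have hn0 : (0 : ℝ) < n := by exact_mod_cast hn
  have hpw : 0 < (n : ℝ) ^ (-(1 + a')) := Real.rpow_pos_of_pos hn0 _
  have hNp : 0 ≤ ((2 * N + 2 : ℕ) : ℝ) ^ (1 + a') := Real.rpow_nonneg (Nat.cast_nonneg _) _
  have hpi : 0 < (C.p 0 1)⁻¹ := inv_pos.2 hp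
  rcases Nat.even_or_odd n with he | ho
  · have h0 : K0 C n 1 = 0 := by
      apply MP_daa227_pr.K0_parity hnl
      intro h
      obtain ⟨k, hk⟩ := he
      obtain ⟨l, hl⟩ := h
      omega
    rw [h0]
    positivity
  · by_cases hs : n < 2 * N + 2
    · have h2 : K0 C n 1 ≤ 1 := STail.le_one C n 1
      have h3 : 1 ≤ ((2 * N + 2 : ℕ) : ℝ) ^ (1 + a') * (n : ℝ) ^ (-(1 + a')) := by
        rw [Real.rpow_neg hn0.le, ← div_eq_mul_inv, one_le_div (Real.rpow_pos_of_pos hn0 _)]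
        apply Real.rpow_le_rpow hn0.le _ (by linarith)
        exact_mod_cast hs.le
      have h4 : 0 ≤ (C.p 0 1)⁻¹ * (n : ℝ) ^ (-(1 + a')) := by positivity
      rw [add_mul]
      linarith
    · obtain ⟨m, hm⟩ := ho
      have h2 := STail.step C n
      have h3 := hN (m + 1) (by omega)
      rw [show 2 * (m + 1) = n + 1 by omega] at h3
      have h4 : ((n + 1 : ℕ) : ℝ) ^ (-(1 + α - (α - a'))) ≤ (n : ℝ) ^ (-(1 + a')) := by
        rw [show -(1 + α - (α - a')) = -(1 + a') by ring]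
        apply Real.rpow_le_rpow_of_nonpos hn0
        · push_cast
          linarith
        · linarith
      have h5 : K0 C n 1 ≤ (C.p 0 1)⁻¹ * (n : ℝ) ^ (-(1 + a')) := by
        rw [← div_eq_inv_mul, le_div_iff₀ hp, mul_comm]
        exact (h2.trans h3).trans h4
      have h6 : 0 ≤ ((2 * N + 2 : ℕ) : ℝ) ^ (1 + a') * (n : ℝ) ^ (-(1 + a')) := by positivity
      rw [add_mul]
      linarith

/-- reflection: `K0 (cneg C) n 0 = K0 C n 0` (`AZ.Kv_cneg`, `AZ.Kv_K0`) -/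
theorem ftail_of_up_neg (C : Chain) (hnl : ∀ x, C.p x x = 0) {α a : ℝ} (hU : KUp C α)
    (ha : 0 < a) (ha1 : a ≤ 1) (haα : a < α) : FTail (AZ.cneg C) a := by
  refine ftail_of_up (AZ.cneg C) (AZ.cneg_nl hnl) (fun ε hε => ?_) ha ha1 haα
  simp only [STail.cneg_K0]
  exact hU ε hε

theorem STail.ftail (C : Chain) {a : ℝ} (ha : 0 < a) (ha1 : a ≤ 1)
    (h : Summable (fun n : ℕ => (n : ℝ) ^ a * K0 C n 0)) : FTail C a := by
  have hp := STail.up C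
  have htn : ∀ n : ℕ, 0 ≤ (n : ℝ) ^ a * K0 C n 0 := fun n =>
    mul_nonneg (Real.rpow_nonneg (Nat.cast_nonneg n) _) (MP_daa227_pr.K0_nonneg C n 0)
  have ht0 : 0 ≤ ∑' n : ℕ, (n : ℝ) ^ a * K0 C n 0 := tsum_nonneg htn
  refine ⟨(C.p 0 1)⁻¹ * ∑' n : ℕ, (n : ℝ) ^ a * K0 C n 0, mul_nonneg (inv_pos.2 hp).le ht0,
    fun s hs hs1 N => ?_⟩
  have hsa : 0 ≤ s ^ a := Real.rpow_nonneg hs.le _
  have h1 : ∀ n ∈ range N, K0 C n 1 * (1 - Real.exp (-(s * n))) ≤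
      (C.p 0 1)⁻¹ * s ^ a * (((n + 1 : ℕ) : ℝ) ^ a * K0 C (n + 1) 0) := by
    intro n _
    have h2 : 1 - Real.exp (-(s * n)) ≤ (s * n) ^ a :=
      TailK.one_sub_exp_le ha ha1 (by positivity)
    have h3 : (s * n) ^ a ≤ s ^ a * ((n + 1 : ℕ) : ℝ) ^ a := by
      rw [Real.mul_rpow hs.le (Nat.cast_nonneg n)]
      refine mul_le_mul_of_nonneg_left ?_ hsa
      apply Real.rpow_le_rpow (Nat.cast_nonneg n) _ ha.le
      push_cast
      linarith
    have h4 : K0 C n 1 ≤ (C.p 0 1)⁻¹ * K0 C (n + 1) 0 := by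
      rw [← div_eq_inv_mul, le_div_iff₀ hp, mul_comm]
      exact STail.step C n
    have h5 : 0 ≤ s ^ a * ((n + 1 : ℕ) : ℝ) ^ a := by positivity
    calc K0 C n 1 * (1 - Real.exp (-(s * n)))
        ≤ K0 C n 1 * (s ^ a * ((n + 1 : ℕ) : ℝ) ^ a) :=
          mul_le_mul_of_nonneg_left (h2.trans h3) (MP_daa227_pr.K0_nonneg C n 1)
      _ ≤ (C.p 0 1)⁻¹ * K0 C (n + 1) 0 * (s ^ a * ((n + 1 : ℕ) : ℝ) ^ a) :=
          mul_le_mul_of_nonneg_right h4 h5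
      _ = _ := by ring
  have h6 : ∑ n ∈ range N, (((n + 1 : ℕ) : ℝ) ^ a * K0 C (n + 1) 0) ≤
      ∑' n : ℕ, (n : ℝ) ^ a * K0 C n 0 := by
    have h7 := h.sum_le_tsum (range (N + 1)) fun n _ => htn n
    rw [Finset.sum_range_succ'] at h7
    have h8 := htn 0
    linarith
  calc ∑ n ∈ range N, K0 C n 1 * (1 - Real.exp (-(s * n)))
      ≤ ∑ n ∈ range N, (C.p 0 1)⁻¹ * s ^ a * (((n + 1 : ℕ) : ℝ) ^ a * K0 C (n + 1) 0) :=
        Finset.sum_le_sum h1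
    _ = (C.p 0 1)⁻¹ * s ^ a * ∑ n ∈ range N, (((n + 1 : ℕ) : ℝ) ^ a * K0 C (n + 1) 0) := by
        rw [Finset.mul_sum]
    _ ≤ (C.p 0 1)⁻¹ * s ^ a * ∑' n : ℕ, (n : ℝ) ^ a * K0 C n 0 :=
        mul_le_mul_of_nonneg_left h6 (mul_nonneg (inv_pos.2 hp).le hsa)
    _ = _ := by ring

/-- `1 - exp (-x) ≤ x ^ a` and `C.p 0 1 * K0 C n 1 ≤ K0 C (n + 1) 0`; the same for the left -/
theorem ftail_of_sum (C : Chain) {a : ℝ} (ha : 0 < a) (ha1 : a ≤ 1)
    (h : Summable (fun n : ℕ => (n : ℝ) ^ a * K0 C n 0)) : FTail C a ∧ FTail (AZ.cneg C) a := by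
  refine ⟨STail.ftail C ha ha1 h, STail.ftail (AZ.cneg C) ha ha1 ?_⟩
  simpa only [STail.cneg_K0] using h

/-- `all_of_eventually` (with `η`, `ε = 1`) -/
theorem polyCost_of_polyA (M : Mod) {α : ℝ} (hA : PolyA M α) : PolyCost M := by
  intro η hη
  exact all_of_eventually (fun n hn => AZ.Kv_even_pos M.C _ hn) (hA η hη 1 one_pos)

/-- If the penalised excursions have loop exponent `α` for one `η > 0` and the free ones too, then
for all `η`: `t ↦ Kv (-t φ) (2 n)` is log-convex (`AZ.Interp.interp_K` with `v = 0` and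
`w = -η' φ`): for `η' > η`, `-η φ = (1 - θ) 0 + θ (-η' φ)`, `θ = η / η'`, so
`Kv (-η φ) ≤ K0^(1-θ) Kv (-η' φ)^θ`; for `η' < η` it is monotone. -/
theorem polyA_of_one (M : Mod) {α η : ℝ} (hη : 0 < η) (hU : KUp M.C α)
    (h : ∀ ε : ℝ, 0 < ε → ∀ᶠ n : ℕ in atTop,
      ((2 * n : ℕ) : ℝ) ^ (-(1 + α + ε)) ≤ Kv M.C (fun z => -η * M.φ z) (2 * n) 0) :
    PolyA M α := by
  intro η' hη' ε hε
  rcases le_or_gt η' η with hle | hgt
  · filter_upwards [h ε hε] with n hn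
    refine hn.trans (AZ.Kv_mono M.C (fun z => ?_) _ _)
    nlinarith [M.φ_nonneg z]
  · have ht : 0 < η / η' := div_pos hη hη'
    have ht1 : η / η' ≤ 1 := (div_le_one hη').2 hgt.le
    have htη : η / η' * η' = η := by field_simp
    obtain ⟨t, htdef⟩ : ∃ t, t = η / η' := ⟨_, rfl⟩
    rw [← htdef] at ht ht1 htη
    have hε' : 0 < ε * t / 2 := by positivity
    filter_upwards [h _ hε', hU _ hε', eventually_ge_atTop 1] with n hn1 hn2 hn3
    have hX1 : (1 : ℝ) ≤ ((2 * n : ℕ) : ℝ) := by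
      have : 1 ≤ 2 * n := by omega
      exact_mod_cast this
    have hX : (0 : ℝ) < ((2 * n : ℕ) : ℝ) := by linarith
    have h3 := AZ.interp_K M.C (fun _ => 0) (fun z => -η' * M.φ z) ht.le ht1 (2 * n) 0
    have h4 : (fun z => (1 - t) * (fun _ : ℤ => (0 : ℝ)) z + t * (fun z => -η' * M.φ z) z) =
        fun z => -η * M.φ z := by
      funext z
      rw [← htη]
      ring
    rw [h4, AZ.Kv_K0] at h3
    obtain ⟨X, hXdef⟩ : ∃ X : ℝ, X = ((2 * n : ℕ) : ℝ) := ⟨_, rfl⟩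
    rw [← hXdef] at hn1 hn2 hX1 hX ⊢
    have hKn : 0 ≤ Kv M.C (fun z => -η' * M.φ z) (2 * n) 0 := AZ.Kv_nonneg M.C _ _ _
    have h5 : K0 M.C (2 * n) 0 ^ (1 - t) ≤ (X ^ (-(1 + α - ε * t / 2))) ^ (1 - t) :=
      Real.rpow_le_rpow (MP_daa227_pr.K0_nonneg _ _ _) hn2 (by linarith)
    have h6 : X ^ (-(1 + α + ε * t / 2)) ≤
        (X ^ (-(1 + α - ε * t / 2))) ^ (1 - t) * Kv M.C (fun z => -η' * M.φ z) (2 * n) 0 ^ t :=
      (hn1.trans h3).trans (mul_le_mul_of_nonneg_right h5 (Real.rpow_nonneg hKn _))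
    rw [← Real.rpow_mul hX.le] at h6
    have h7 : X ^ ((1 + α - ε * t / 2) * (1 - t) + -(1 + α + ε * t / 2)) ≤
        Kv M.C (fun z => -η' * M.φ z) (2 * n) 0 ^ t := by
      have h8 := mul_le_mul_of_nonneg_left h6
        (Real.rpow_nonneg hX.le ((1 + α - ε * t / 2) * (1 - t)))
      rw [← mul_assoc, ← Real.rpow_add hX, ← Real.rpow_add hX,
        show (1 + α - ε * t / 2) * (1 - t) + -(1 + α - ε * t / 2) * (1 - t) = 0 by ring,
        Real.rpow_zero, one_mul] at h8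
      exact h8
    have h9 : (X ^ (-(1 + α + ε))) ^ t ≤ Kv M.C (fun z => -η' * M.φ z) (2 * n) 0 ^ t := by
      refine le_trans ?_ h7
      rw [← Real.rpow_mul hX.le]
      apply Real.rpow_le_rpow_of_exponent_le hX1
      have : 0 < ε * t := by positivity
      nlinarith
    exact (Real.rpow_le_rpow_iff (Real.rpow_nonneg hX.le _) hKn ht).1 h9

end

end Pool.Agent.IG
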