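import Pool.Agent.Lib.MP_daa227_pr_IG.Ord
import Pool.Agent.Lib.MP_daa227_pr_IG.SSeq
import Pool.Agent.Lib.MP_daa227_pr_IG.SUp
import Pool.Agent.Lib.MP_daa227_pr_IG.STail

/-!
# MP_daa227_pr: the exact order of the transition
-/

namespace Pool.Agent.IG

open MeasureTheory ProbabilityTheory Finset Filter Topology
open MP_daa227_pr (Chain Zk Zf Gk Gf KU K0 Ren shift seqLaw ExpMom DepOn Good GoodW mom)
open Pool.Agent.AZ (Mod Kv lmg)
open Pool.Agent.IOrd (Sys aS cv)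

noncomputable section

/-- a bounded moment of order larger than one: the loop exponent is at most one half -/
theorem alpha_le {M : Mod} {α hc p K : ℝ} (hP : PolyCost M) (hU : KUp M.C α)
    (hc0 : 0 < hc) (hcrit : ∀ h, 0 < M.Fr h ↔ h < hc) (hp : 1 < p)
    (hb : ∀ n : ℕ, mom M.μ p (fun ω => M.Z hc (2 * n) ω) ≤ ENNReal.ofReal K) : α ≤ 1 / 2 := by
  by_contra hcon
  push Not at hcon
  set a : ℝ := min ((α + 1 / 2) / 2) 1 with ha
  have h1 : 1 / 2 < a := lt_min (by linarith) (by norm_num)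
  have h2 : a < α := (min_le_left _ _).trans_lt (by linarith)
  have h3 : a ≤ 1 := min_le_right _ _
  have h0 : 0 < a := by linarith
  have h4 := (bdd_fin hP hc0 hcrit hp hb h0 h3 (ftail_of_up M.C M.hnl hU h0 h3 h2)
    (fun _ => ftail_of_up_neg M.C M.hnl hU h0 h3 h2)).1
  linarith

/-- a bounded moment of order larger than one: the order of the transition is exactly `1 / α` -/
theorem exact_order {M : Mod} {α hc p K : ℝ} (hα : 0 < α) (hA : PolyA M α) (hU : KUp M.C α)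
    (hc0 : 0 < hc) (hcrit : ∀ h, 0 < M.Fr h ↔ h < hc) (hp : 1 < p)
    (hb : ∀ n : ℕ, mom M.μ p (fun ω => M.Z hc (2 * n) ω) ≤ ENNReal.ofReal K) {ε : ℝ}
    (hε : 0 < ε) : (∀ᶠ δ in 𝓝[>] (0 : ℝ), δ ^ (1 / α + ε) ≤ M.Fr (hc - δ)) ∧
      ∀ᶠ δ in 𝓝[>] (0 : ℝ), M.Fr (hc - δ) ≤ δ ^ (1 / α - ε) := by
  have hP := polyCost_of_polyA M hA
  have hα2 := alpha_le hP hU hc0 hcrit hp hb
  have hg := bdd_sum hp hb
  have hdec := bdd_ldec hp hb
  have hg1 : ∀ η : ℝ, 0 < η → ∃ N : ℕ, 1 - η ≤ ∑ n ∈ range N, M.g hc n := fun η hη =>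
    bdd_one hc0 hcrit hp hb hη
  have hT : ∀ a : ℝ, 0 < a → a < α → ∃ A : ℝ, ∀ s : ℝ, 0 < s → s ≤ 1 → ∀ N : ℕ,
      ∑ n ∈ range N, M.g hc n * (1 - Real.exp (-(s * n))) ≤ A * s ^ a := by
    intro a ha haα
    have h3 : a ≤ 1 := by linarith
    obtain ⟨A, _, hT⟩ := g_tail M hc0 hg hdec ha h3 (ftail_of_up M.C M.hnl hU ha h3 haα)
      (fun _ => ftail_of_up_neg M.C M.hnl hU ha h3 haα)
    exact ⟨A, hT⟩
  refine ⟨?_, ?_⟩
  · exact s_all (F := M.Fr) (fun h h' hh => M.Fr_anti hh) hα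
      (fun ε hε hεα => s_seq M hP hα hc0 hA hU (Real.HolderConjugate.conjExponent hp) hb hg hg1 hT
        hε hεα) hε
  · obtain ⟨u, hu, B, hB⟩ := g_fin M hc0 hg hdec
    exact s_upper M hα hc0 hA hu hB hg hε

end

end Pool.Agent.IG
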