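import Pool.Agent.Lib.MP_daa227_pr_IG.MomB
import Pool.Agent.Lib.MP_daa227_pr_AZ.Side
import Pool.Agent.Lib.MP_daa227_pr_AZ.MomId

/-!
# MP_daa227_pr, general potentials: excursions outside the box, sites of mean weight at most one
-/

namespace Pool.Agent.IG

open MeasureTheory ProbabilityTheory Finset Filter Topology
open MP_daa227_pr (Chain Zk Zf Gk Gf KU K0 Ren shift seqLaw ExpMom DepOn Good GoodW mom)
open Pool.Agent.AZ (Mod Kv lmg)
open Pool.Agent.IOrd (Sys aS cv)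

noncomputable section

namespace ExcSite

theorem p_le_one (C : Chain) (x v : ℤ) : C.p x v ≤ 1 := by
  by_cases h : v ∈ Finset.Icc (x - 1) (x + 1)
  · rw [← C.sum_one x]
    exact Finset.single_le_sum (f := fun y => C.p x y) (fun y _ => C.nonneg x y) h
  · rw [C.near x v h]
    exact zero_le_one

theorem gen (C : Chain) {W : ℝ → ℤ → ℝ} {κ : ℝ} (hκ : 0 ≤ κ) (hW : GoodW κ W)
    (μ : Measure ℝ) [IsProbabilityMeasure μ] (B : Finset ℤ) (P : ℤ → Prop)
    (hP : ∀ x, P x → ∀ z ∈ Finset.Icc (x - 1) (x + 1), z ∉ B → P z)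
    (hB : ∀ x, P x → ∀ v ∈ B, C.p x v ≠ 0 → mom μ 1 (fun ω => W (ω 0) v) ≤ 1)
    (hz : ∀ z, P z → mom μ 1 (fun ω => W (ω 0) z) ≤ 1) :
    ∀ (k : ℕ) (x : ℤ), P x → ∀ v ∈ B, mom μ 1 (fun ω => Gk C W B k ω x v) ≤ 1 := by
  intro k
  induction k with
  | zero =>
    intro x _ v _
    have h1 : mom μ 1 (fun ω => Gk C W B 0 ω x v) = mom μ 1 (fun _ => (0 : ℝ)) :=
      MP_daa227_pr.mom_congr fun ω => rfl
    rw [h1, MP_daa227_pr.mom_zero zero_lt_one]
    exact zero_le_one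
  | succ k ih =>
    intro x hx v hv
    have hWm : ∀ z, Measurable fun ω : ℕ → ℝ => W (ω 0) z := fun z => (hW.good z).meas
    have hGg : ∀ z, Good k κ (fun ω => Gk C W B k ω z v) := fun z =>
      MP_daa227_pr.good_Gk C hκ hW B k z v
    have hterm : ∀ z ∈ Finset.Icc (x - 1) (x + 1) \ B,
        mom μ 1 (fun ω => C.p x z * W (ω 0) z * Gk C W B k (shift 1 ω) z v) ≤
          ENNReal.ofReal (C.p x z) := by
      intro z hzm
      rw [Finset.mem_sdiff] at hzm
      have hPz := hP x hx z hzm.1 hzm.2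
      have h1 : mom μ 1 (fun ω => C.p x z * W (ω 0) z * Gk C W B k (shift 1 ω) z v) =
          mom μ 1 (fun ω => C.p x z * (W (ω 0) z * Gk C W B k (shift 1 ω) z v)) :=
        MP_daa227_pr.mom_congr fun ω => by ring
      have hm1 : Measurable fun ω : ℕ → ℝ => W (ω 0) z * Gk C W B k (shift 1 ω) z v :=
        (hWm z).mul ((hGg z).meas.comp (MP_daa227_pr.measurable_shift 1))
      have h2 := MP_daa227_pr.mom_mul_shift (μ := μ) (γ := 1) zero_le_one (k := 1)
        (F := fun ω => W (ω 0) z) (G := fun ω => Gk C W B k ω z v) (hWm z) (hGg z).meas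
        (hW.good z).depOn (hW.good z).nonneg
      rw [h1, MP_daa227_pr.mom_const_mul zero_le_one (C.nonneg x z) hm1, h2, ENNReal.rpow_one]
      calc ENNReal.ofReal (C.p x z) * (mom μ 1 (fun ω => W (ω 0) z) *
            mom μ 1 (fun ω => Gk C W B k ω z v)) ≤ ENNReal.ofReal (C.p x z) * (1 * 1) := by
              gcongr
              · exact hz z hPz
              · exact ih z hPz v hv
        _ = ENNReal.ofReal (C.p x z) := by rw [one_mul, mul_one]
    rcases k with _ | k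
    · have h1 : mom μ 1 (fun ω => Gk C W B (0 + 1) ω x v) =
          mom μ 1 (fun ω => C.p x v * W (ω 0) v) := by
        refine MP_daa227_pr.mom_congr fun ω => ?_
        rw [Gk, if_pos rfl, Finset.sum_eq_zero, add_zero]
        intro z _
        rw [Gk, mul_zero]
      rw [h1, MP_daa227_pr.mom_const_mul zero_le_one (C.nonneg x v) (hWm v), ENNReal.rpow_one]
      by_cases h2 : C.p x v = 0
      · rw [h2, ENNReal.ofReal_zero, zero_mul]
        exact zero_le_one
      · calc ENNReal.ofReal (C.p x v) * mom μ 1 (fun ω => W (ω 0) v) ≤ 1 * 1 := by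
              gcongr
              · exact ENNReal.ofReal_le_one.2 (p_le_one C x v)
              · exact hB x hx v hv h2
          _ = 1 := one_mul 1
    · have h1 : mom μ 1 (fun ω => Gk C W B (k + 1 + 1) ω x v) =
          mom μ 1 (fun ω => ∑ z ∈ Finset.Icc (x - 1) (x + 1) \ B,
            C.p x z * W (ω 0) z * Gk C W B (k + 1) (shift 1 ω) z v) := by
        refine MP_daa227_pr.mom_congr fun ω => ?_
        rw [Gk, if_neg (Nat.succ_ne_zero k), zero_add]
      rw [h1]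
      refine (MP_daa227_pr.mom_sum_le zero_lt_one le_rfl _ (fun z _ => ?_) (fun z _ ω => ?_)).trans
        ((Finset.sum_le_sum hterm).trans ?_)
      · exact ((hWm z).const_mul _).mul ((hGg z).meas.comp (MP_daa227_pr.measurable_shift 1))
      · exact mul_nonneg (mul_nonneg (C.nonneg _ _) ((hW.good z).nonneg ω)) ((hGg z).nonneg _)
      · rw [← ENNReal.ofReal_sum_of_nonneg fun z _ => C.nonneg x z]
        refine ENNReal.ofReal_le_one.2 ?_
        rw [← C.sum_one x]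
        exact Finset.sum_le_sum_of_subset_of_nonneg Finset.sdiff_subset
          fun z _ _ => C.nonneg x z

theorem mom_site (M : Mod) (h : ℝ) (z : ℤ) (hv : M.v h z ≤ 0) :
    mom M.μ 1 (fun ω => M.W h (ω 0) z) ≤ 1 := by
  have h1 : (fun ω : ℕ → ℝ => M.W h (ω 0) z) = fun ω =>
      AZ.A3.Wg (fun z => M.β * M.φ z) (fun z => h * M.φ z) (ω 0) z := by
    funext ω
    rw [M.A3_W h]
  rw [h1, AZ.A3.mom_W M.exp_mom]
  refine ENNReal.ofReal_le_one.2 (Real.exp_le_one_iff.2 ?_)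
  exact hv

end ExcSite

open ExcSite

/-- Induction on `k`. The neighbours of `x > R` outside the box are `> R`; `p(x, v) = 0` for `v` in
the box, `v ≠ R`. `mom_sum_le` (order 1), `mom_mul_shift`, `mom_const_mul`, `∑ p(x, z) ≤ 1`. -/
theorem up_le_one (C : Chain) {W : ℝ → ℤ → ℝ} {κ : ℝ} (hκ : 0 ≤ κ) (hW : GoodW κ W)
    (μ : Measure ℝ) [IsProbabilityMeasure μ] {R : ℕ} (hR : 1 ≤ R)
    (h1 : ∀ z : ℤ, (R : ℤ) ≤ z → mom μ 1 (fun ω => W (ω 0) z) ≤ 1) :
    ∀ (k : ℕ) (x : ℤ), (R : ℤ) < x → ∀ v ∈ box R,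
      mom μ 1 (fun ω => Gk C W (box R) k ω x v) ≤ 1 := by
  refine gen C hκ hW μ (box R) (fun x => (R : ℤ) < x) ?_ ?_ fun z hz => h1 z hz.le
  · intro x hx z hz hzB
    unfold box at hzB
    rw [Finset.mem_Icc] at hz hzB
    omega
  · intro x hx v hv hp
    have hv2 : v ∈ Finset.Icc (x - 1) (x + 1) := by
      by_contra hn
      exact hp (C.near x v hn)
    unfold box at hv
    rw [Finset.mem_Icc] at hv hv2
    exact h1 v (by omega)

/-- The same on the other side. -/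
theorem down_le_one (C : Chain) {W : ℝ → ℤ → ℝ} {κ : ℝ} (hκ : 0 ≤ κ) (hW : GoodW κ W)
    (μ : Measure ℝ) [IsProbabilityMeasure μ] {R : ℕ} (hR : 1 ≤ R)
    (h1 : ∀ z : ℤ, z ≤ -(R : ℤ) → mom μ 1 (fun ω => W (ω 0) z) ≤ 1) :
    ∀ (k : ℕ) (x : ℤ), x < -(R : ℤ) → ∀ v ∈ box R,
      mom μ 1 (fun ω => Gk C W (box R) k ω x v) ≤ 1 := by
  refine gen C hκ hW μ (box R) (fun x => x < -(R : ℤ)) ?_ ?_ fun z hz => h1 z hz.le
  · intro x hx z hz hzB
    unfold box at hzB
    rw [Finset.mem_Icc] at hz hzB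
    omega
  · intro x hx v hv hp
    have hv2 : v ∈ Finset.Icc (x - 1) (x + 1) := by
      by_contra hn
      exact hp (C.near x v hn)
    unfold box at hv
    rw [Finset.mem_Icc] at hv hv2
    exact h1 v (by omega)

/-- `AZ.Mod.far_aux` (`v h z ≤ 0` where `φ z` is small), `M.φ_top`, `AZ.A3.mom_W` with
`AZ.A3_W` (the mean of the site weight is `exp (v h z)`), `up_le_one`. -/
theorem exc_up (M : Mod) {h : ℝ} (hh : 0 < h) : ∃ R₀ : ℕ, ∀ R : ℕ, R₀ ≤ R → ∀ k : ℕ,
    ∀ v ∈ box R, mom M.μ 1 (fun ω => Gk M.C (M.W h) (box R) k ω ((R : ℤ) + 1) v) ≤ 1 := by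
  obtain ⟨ε₁, hε, t, ht, hz⟩ := M.far_aux hh
  obtain ⟨r, hr⟩ := eventually_atTop.1 (M.φ_top.eventually_lt_const ht)
  refine ⟨max 1 r.toNat, fun R hR k v hv => ?_⟩
  have hR1 : 1 ≤ R := (le_max_left _ _).trans hR
  have hR2 : r.toNat ≤ R := (le_max_right _ _).trans hR
  refine up_le_one M.C M.κ_pos.le (M.goodW h) M.μ hR1 (fun z hzR => ?_) k _ (by omega) v hv
  refine mom_site M h z ?_
  have h1 := hz z (hr z (by omega)).le
  have h2 := mul_nonneg hε.le (M.φ_nonneg z)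
  linarith

/-- the same below the box when the potential vanishes at minus infinity -/
theorem exc_down0 (M : Mod) (hℓ : M.ℓ = 0) {h : ℝ} (hh : 0 < h) : ∃ R₀ : ℕ, ∀ R : ℕ, R₀ ≤ R →
    ∀ k : ℕ, ∀ v ∈ box R, mom M.μ 1 (fun ω => Gk M.C (M.W h) (box R) k ω (-((R : ℤ) + 1)) v) ≤ 1 := by
  obtain ⟨ε₁, hε, t, ht, hz⟩ := M.far_aux hh
  have hb := M.φ_bot
  rw [hℓ] at hb
  obtain ⟨r, hr⟩ := eventually_atBot.1 (hb.eventually_lt_const ht)
  refine ⟨max 1 (-r).toNat, fun R hR k v hv => ?_⟩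
  have hR1 : 1 ≤ R := (le_max_left _ _).trans hR
  have hR2 : (-r).toNat ≤ R := (le_max_right _ _).trans hR
  refine down_le_one M.C M.κ_pos.le (M.goodW h) M.μ hR1 (fun z hzR => ?_) k _ (by omega) v hv
  refine mom_site M h z ?_
  have h1 := hz z (hr z (by omega)).le
  have h2 := mul_nonneg hε.le (M.φ_nonneg z)
  linarith

end

end Pool.Agent.IG
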