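import Pool.Agent.Lib.MP_daa227_pr_IG.Pick
import Pool.Agent.Lib.MP_daa227_pr_IG.EvA
import Pool.Agent.Lib.MP_daa227_pr_IG.StrF

/-!
# MP_daa227_pr, order: a bounded moment implies finite order
-/

namespace Pool.Agent.IG

open MeasureTheory ProbabilityTheory Finset Filter Topology
open MP_daa227_pr (Chain Zk Zf Gk Gf KU K0 Ren shift seqLaw ExpMom DepOn Good GoodW mom)
open Pool.Agent.AZ (Mod Kv lmg)
open Pool.Agent.IOrd (Sys aS cv)

noncomputable section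

/-- Along `δ = b N ^ (-a/2)`. For large `N` take `n` from `pick`, `lam = N ^ (-a/2)`,
`X = Z hc (2n)`, `Y = Z (hc + lam) (2n)`, `x = Zd (v hc) (2n)`,
`y = Zd (v (hc+lam)) (2n) > 0` (`M.mom_one_Zk`),
`4 y / x < 4 N ^ (-a/4)`; `ev_prob`: the event has probability at least `p₀ = (x/4)^q / K^(q/p)`
(enlarge `K` to be positive), and on it, by `z_conv` with `t = b lam`,
`log Z (hc - b lam) (2n) ≥ log (x/2) + b ((a/4) log N - log 4) =: u`. Here `x ≥ c (n+1)^(-A₀)`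
(`aS_low` with `s = 1`, `d = 0`), so `log (1/p₀) ≤ C + 2 q A₀ log N`. `str_low` at
`h = hc - b lam ≥ hc / 2`: if `b` is large enough (depending on `a, A₀, q, A₁`) the bracket is
at least `1` for large `N`, so `Fr (hc - b lam) ≥ p₀ / (C₁ n) ≥ N ^ (-E)`. -/
theorem fin_seq (M : Mod) (hP : PolyCost M) {hc : ℝ} (hc0 : 0 < hc) {p q K : ℝ}
    (hpq : p.HolderConjugate q)
    (hb : ∀ n : ℕ, mom M.μ p (fun ω => M.Z hc (2 * n) ω) ≤ ENNReal.ofReal K)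
    (hg : ∀ N : ℕ, ∑ n ∈ range N, M.g hc n ≤ 1)
    (hg1 : ∀ η : ℝ, 0 < η → ∃ N : ℕ, 1 - η ≤ ∑ n ∈ range N, M.g hc n) {a A : ℝ} (ha : 0 < a)
    (hT : ∀ s : ℝ, 0 < s → s ≤ 1 → ∀ N : ℕ,
      ∑ n ∈ range N, M.g hc n * (1 - Real.exp (-(s * n))) ≤ A * s ^ a) :
    ∃ b E : ℝ, 0 < b ∧ 0 < E ∧ ∀ᶠ N : ℕ in atTop,
      (N : ℝ) ^ (-E) ≤ M.Fr (hc - b * (N : ℝ) ^ (-(a / 2))) := by
  obtain ⟨c, A₀, hc1, hA₀, hlow⟩ := aS_low M hP hc (s := 1) one_pos le_rfl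
  obtain ⟨C₁, A₁, hC₁, hA₁, hstr⟩ := str_low M hP hc0
  have hp0 : 0 < p := hpq.pos
  have hq0 : 0 < q := hpq.symm.pos
  obtain ⟨K', hK'⟩ : ∃ K', K' = max K 1 := ⟨_, rfl⟩
  have hK1 : 1 ≤ K' := by rw [hK']; exact le_max_right _ _
  have hK0 : 0 < K' := zero_lt_one.trans_le hK1
  obtain ⟨b, hb'⟩ : ∃ b, b = 4 * (1 + 2 * A₀ + 2 * A₁ + 2 * A₁ * q * A₀) / a := ⟨_, rfl⟩
  have hb0 : 0 < b := by
    rw [hb']
    positivity
  have hba : b * (a / 4) = 1 + 2 * A₀ + 2 * A₁ + 2 * A₁ * q * A₀ := by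
    rw [hb']
    field_simp
  obtain ⟨C₂, hC₂⟩ : ∃ C₂, C₂ = -(q * Real.log c) + q * A₀ * Real.log 2 + q * Real.log 4 +
    q / p * Real.log K' := ⟨_, rfl⟩
  obtain ⟨C₃, hC₃⟩ : ∃ C₃, C₃ = Real.log c - A₀ * Real.log 2 - Real.log 2 - b * Real.log 4 -
    C₁ - A₁ * C₂ := ⟨_, rfl⟩
  refine ⟨b, 2 * q * A₀ + 3, hb0, by positivity, ?_⟩
  -- the eventual conditions
  have hcast : Tendsto (fun N : ℕ => (N : ℝ)) atTop atTop := tendsto_natCast_atTop_atTop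
  have hlamt : Tendsto (fun N : ℕ => b * (N : ℝ) ^ (-(a / 2))) atTop (𝓝 0) := by
    have h1 := (tendsto_rpow_neg_atTop (half_pos ha)).comp hcast
    have h2 := h1.const_mul b
    rwa [mul_zero] at h2
  have hlogt : Tendsto (fun N : ℕ => Real.log (N : ℝ)) atTop atTop :=
    Real.tendsto_log_atTop.comp hcast
  filter_upwards [pick M hg hg1 ha hT, hlamt.eventually (gt_mem_nhds (half_pos hc0)),
    hlogt.eventually (eventually_ge_atTop (1 - C₃)), eventually_ge_atTop 1,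
    hcast.eventually (eventually_ge_atTop (C₁ * Real.exp C₂))] with N hpick hlam hlog hN1 hNC
  obtain ⟨n, hn1, hnN, hxy⟩ := hpick
  have hN0 : (0 : ℝ) < N := by exact_mod_cast hN1
  have hN1' : (1 : ℝ) ≤ N := by exact_mod_cast hN1
  have hn0 : (0 : ℝ) < n := by exact_mod_cast hn1
  have hnN' : (n : ℝ) ≤ (N : ℝ) ^ 2 := by exact_mod_cast hnN
  obtain ⟨lam, hlamdef⟩ : ∃ lam, lam = (N : ℝ) ^ (-(a / 2)) := ⟨_, rfl⟩
  have hlam0 : 0 < lam := by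
    rw [hlamdef]
    exact Real.rpow_pos_of_pos hN0 _
  rw [← hlamdef] at hlam hxy ⊢
  obtain ⟨x, hx⟩ : ∃ x, x = AZ.Zd M.C (M.v hc) (2 * n) 0 0 := ⟨_, rfl⟩
  obtain ⟨y, hy⟩ : ∃ y, y = AZ.Zd M.C (M.v (hc + lam)) (2 * n) 0 0 := ⟨_, rfl⟩
  have hx0 : 0 < x := by
    rw [hx]
    exact AZ.Zd_even_pos M.C _ n 0
  have hy0 : 0 < y := by
    rw [hy]
    exact AZ.Zd_even_pos M.C _ n 0
  rw [← hx, ← hy] at hxy
  have mX : mom M.μ 1 (fun ω => M.Z hc (2 * n) ω) = ENNReal.ofReal x := by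
    rw [hx]
    exact M.mom_one_Zk hc (2 * n) 0 0
  have mY : mom M.μ 1 (fun ω => M.Z (hc + lam) (2 * n) ω) = ENNReal.ofReal y := by
    rw [hy]
    exact M.mom_one_Zk (hc + lam) (2 * n) 0 0
  have hprob := ev_prob (μ := M.μ) (X := fun ω => M.Z hc (2 * n) ω)
    (Y := fun ω => M.Z (hc + lam) (2 * n) ω) (M.good_Z hc (2 * n)).meas
    (M.good_Z (hc + lam) (2 * n)).meas (M.good_Z hc (2 * n)).nonneg
    (M.good_Z (hc + lam) (2 * n)).nonneg hx0 hy0 mX mY.le hpq hK0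
    ((hb n).trans (ENNReal.ofReal_le_ofReal (by rw [hK']; exact le_max_left _ _)))
  -- lower bound for `x`
  have hxlow : c * ((n : ℝ) + 1) ^ (-A₀) ≤ x := by
    have h1 := hlow 0 le_rfl n
    have h2 : aS M.μ (Zg M hc) 1 0 n = x := by
      unfold aS Zg
      rw [zero_div, sub_zero]
      have h3 : mom M.μ 1 (fun ω => M.Z hc (2 * n) ω) = ENNReal.ofReal x := mX
      rw [h3, ENNReal.toReal_ofReal hx0.le]
    rwa [h2] at h1
  have hlogx : Real.log c - A₀ * Real.log 2 - 2 * A₀ * Real.log N ≤ Real.log x := by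
    have h1 : (0 : ℝ) < (n : ℝ) + 1 := by positivity
    have h2 := Real.log_le_log (by positivity) hxlow
    rw [Real.log_mul hc1.ne' (Real.rpow_pos_of_pos h1 _).ne', Real.log_rpow h1] at h2
    have h3 : Real.log ((n : ℝ) + 1) ≤ Real.log 2 + 2 * Real.log N := by
      have h4 : (n : ℝ) + 1 ≤ 2 * (N : ℝ) ^ 2 := by nlinarith
      have h5 := Real.log_le_log h1 h4
      rw [Real.log_mul two_ne_zero (by positivity), Real.log_pow] at h5
      exact_mod_cast h5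
    have h4 := mul_le_mul_of_nonneg_left h3 hA₀
    linarith
  -- the event
  obtain ⟨u, hu⟩ : ∃ u, u = Real.log (x / 2) + b * (a / 4 * Real.log N - Real.log 4) :=
    ⟨_, rfl⟩
  have hsub : {ω | x / 2 ≤ M.Z hc (2 * n) ω ∧
      M.Z (hc + lam) (2 * n) ω ≤ 4 * y / x * M.Z hc (2 * n) ω} ⊆
      {ω | Real.exp u ≤ M.Z (hc - b * lam) (2 * n) ω} := by
    rintro ω ⟨h1, h2⟩
    have hXp : 0 < M.Z hc (2 * n) ω := M.Z_pos hc (even_two_mul n) ω
    have hYp : 0 < M.Z (hc + lam) (2 * n) ω := M.Z_pos _ (even_two_mul n) ω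
    have hZp : 0 < M.Z (hc - b * lam) (2 * n) ω := M.Z_pos _ (even_two_mul n) ω
    have h3 := z_conv M (hc := hc) hlam0 (t := b * lam) (by positivity) n ω
    have h4 : b * lam / lam = b := by field_simp
    rw [h4] at h3
    have h5 := Real.log_le_log (by positivity) h1
    have h6 := Real.log_le_log hYp h2
    rw [Real.log_mul (by positivity) hXp.ne', Real.log_div (by positivity) hx0.ne',
      Real.log_mul (by norm_num) hy0.ne'] at h6
    have h7 := Real.log_le_log (by positivity) hxy.le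
    rw [Real.log_mul (Real.rpow_pos_of_pos hN0 _).ne' hy0.ne', Real.log_rpow hN0] at h7
    have h8 : b * (a / 4 * Real.log N - Real.log 4) ≤
        b * (Real.log (M.Z hc (2 * n) ω) - Real.log (M.Z (hc + lam) (2 * n) ω)) :=
      mul_le_mul_of_nonneg_left (by linarith) hb0.le
    show Real.exp u ≤ M.Z (hc - b * lam) (2 * n) ω
    rw [← Real.le_log_iff_exp_le hZp, hu]
    linarith
  obtain ⟨p₀, hp₀⟩ : ∃ p₀, p₀ = (x / 4) ^ q / K' ^ (q / p) := ⟨_, rfl⟩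
  have hp₀0 : 0 < p₀ := by
    rw [hp₀]
    exact div_pos (Real.rpow_pos_of_pos (by positivity) _) (Real.rpow_pos_of_pos hK0 _)
  have hprob2 : p₀ ≤ (seqLaw M.μ {ω | Real.exp u ≤ M.Z (hc - b * lam) (2 * n) ω}).toReal := by
    rw [hp₀]
    refine hprob.trans (ENNReal.toReal_mono (measure_ne_top _ _) (measure_mono hsub))
  have hmain := hstr (hc - b * lam) (by linarith) (by nlinarith) n hn1 u p₀ hp₀0 hprob2
  -- the logarithm of `1 / p₀`
  have hlogp : Real.log (1 / p₀) ≤ C₂ + 2 * q * A₀ * Real.log N := by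
    rw [one_div, Real.log_inv, hp₀, Real.log_div (Real.rpow_pos_of_pos (by positivity) _).ne'
      (Real.rpow_pos_of_pos hK0 _).ne', Real.log_rpow (by positivity), Real.log_rpow hK0,
      Real.log_div hx0.ne' (by norm_num), hC₂]
    have h1 := mul_le_mul_of_nonneg_left hlogx hq0.le
    linarith
  have hlogn : Real.log n ≤ 2 * Real.log N := by
    have h1 := Real.log_le_log hn0 hnN'
    rw [Real.log_pow] at h1
    exact_mod_cast h1
  have hbr : 1 ≤ u - C₁ - A₁ * Real.log n - A₁ * Real.log (1 / p₀) := by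
    have h1 := mul_le_mul_of_nonneg_left hlogp hA₁.le
    have h2 := mul_le_mul_of_nonneg_left hlogn hA₁.le
    have h3 : Real.log (x / 2) = Real.log x - Real.log 2 := Real.log_div hx0.ne' two_ne_zero
    have h4 : b * (a / 4 * Real.log N - Real.log 4) =
        (1 + 2 * A₀ + 2 * A₁ + 2 * A₁ * q * A₀) * Real.log N - b * Real.log 4 := by
      rw [← hba]
      ring
    rw [hu, h3, h4]
    rw [hC₃] at hlog
    linarith
  have h10 : p₀ ≤ C₁ * n * M.Fr (hc - b * lam) :=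
    (le_mul_of_one_le_right hp₀0.le hbr).trans hmain
  have hF0 : 0 < M.Fr (hc - b * lam) := by
    have h1 : 0 < C₁ * n * M.Fr (hc - b * lam) := hp₀0.trans_le h10
    exact (mul_pos_iff_of_pos_left (by positivity)).1 h1
  have h11 : C₁ * n * M.Fr (hc - b * lam) ≤ C₁ * (N : ℝ) ^ 2 * M.Fr (hc - b * lam) :=
    mul_le_mul_of_nonneg_right (mul_le_mul_of_nonneg_left hnN' hC₁.le) hF0.le
  have h12 : Real.exp (-C₂) * (N : ℝ) ^ (-(2 * q * A₀)) ≤ p₀ := by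
    rw [← Real.log_le_log_iff (by positivity) hp₀0, Real.log_mul (Real.exp_pos _).ne'
      (Real.rpow_pos_of_pos hN0 _).ne', Real.log_exp, Real.log_rpow hN0]
    rw [one_div, Real.log_inv] at hlogp
    linarith
  have h13 : (N : ℝ) ^ (-(2 * q * A₀ + 3)) =
      (N : ℝ) ^ (-(2 * q * A₀)) * ((N : ℝ) ^ 3)⁻¹ := by
    rw [neg_add, Real.rpow_add hN0, Real.rpow_neg hN0.le 3]
    norm_cast
  rw [h13, ← div_eq_mul_inv, div_le_iff₀ (by positivity)]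
  have h14 : (N : ℝ) ^ (-(2 * q * A₀)) ≤ Real.exp C₂ * p₀ := by
    have h15 := mul_le_mul_of_nonneg_left h12 (Real.exp_pos C₂).le
    rw [← mul_assoc, ← Real.exp_add, add_neg_cancel, Real.exp_zero, one_mul] at h15
    exact h15
  calc (N : ℝ) ^ (-(2 * q * A₀)) ≤ Real.exp C₂ * p₀ := h14
    _ ≤ Real.exp C₂ * (C₁ * (N : ℝ) ^ 2 * M.Fr (hc - b * lam)) :=
        mul_le_mul_of_nonneg_left (h10.trans h11) (Real.exp_pos _).le
    _ = (C₁ * Real.exp C₂) * ((N : ℝ) ^ 2 * M.Fr (hc - b * lam)) := by ring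
    _ ≤ N * ((N : ℝ) ^ 2 * M.Fr (hc - b * lam)) :=
        mul_le_mul_of_nonneg_right hNC (by positivity)
    _ = M.Fr (hc - b * lam) * (N : ℝ) ^ 3 := by ring

/-- From the sequence to all `δ`: `N = ⌈(b / δ) ^ (2 / a)⌉`, `b N ^ (-a/2) ≤ δ`,
`N ≤ 2 (b / δ) ^ (2 / a)` for small `δ`, `Fr` is nonincreasing (`hanti`); for `δ ∈ [δ₀, 1]`
`Fr (hc - δ) ≥ Fr (hc - δ₀) > 0` (`hcrit`). -/
theorem fin_all {F : ℝ → ℝ} {hc : ℝ} (hanti : Antitone F) (hcrit : ∀ h, 0 < F h ↔ h < hc)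
    {a b E : ℝ} (ha : 0 < a) (hb : 0 < b) (hE : 0 < E)
    (h : ∀ᶠ N : ℕ in atTop, (N : ℝ) ^ (-E) ≤ F (hc - b * (N : ℝ) ^ (-(a / 2)))) :
    ∃ c B : ℝ, 0 < c ∧ 0 < B ∧ ∀ δ : ℝ, 0 < δ → δ ≤ 1 → c * δ ^ B ≤ F (hc - δ) := by
  obtain ⟨N₁, hN₁⟩ := eventually_atTop.1 h
  obtain ⟨N₀, hN₀⟩ : ∃ N₀, N₀ = max N₁ 1 := ⟨_, rfl⟩
  have hN₀1 : 1 ≤ N₀ := by rw [hN₀]; exact le_max_right _ _
  have hN₀' : (1 : ℝ) ≤ N₀ := by exact_mod_cast hN₀1
  have hN₀0 : (0 : ℝ) < N₀ := by linarith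
  obtain ⟨δ₀, hδ₀⟩ : ∃ δ₀, δ₀ = b * (N₀ : ℝ) ^ (-(a / 2)) := ⟨_, rfl⟩
  have hδ₀0 : 0 < δ₀ := by
    rw [hδ₀]
    exact mul_pos hb (Real.rpow_pos_of_pos hN₀0 _)
  have hF0 : 0 < F (hc - δ₀) := (hcrit _).2 (by linarith)
  obtain ⟨c₁, hc₁⟩ : ∃ c₁, c₁ = (2 : ℝ) ^ (-E) * b ^ (-(2 * E / a)) := ⟨_, rfl⟩
  have hc₁0 : 0 < c₁ := by
    rw [hc₁]
    exact mul_pos (Real.rpow_pos_of_pos two_pos _) (Real.rpow_pos_of_pos hb _)
  refine ⟨min c₁ (F (hc - δ₀)), 2 * E / a, lt_min hc₁0 hF0, by positivity, fun δ hδ hδ1 => ?_⟩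
  have hδB : 0 < δ ^ (2 * E / a) := Real.rpow_pos_of_pos hδ _
  rcases le_or_gt δ δ₀ with hle | hgt
  · obtain ⟨w, hw⟩ : ∃ w, w = (b / δ) ^ (2 / a) := ⟨_, rfl⟩
    have hbδ : 0 < b / δ := div_pos hb hδ
    have hw0 : 0 < w := by
      rw [hw]
      exact Real.rpow_pos_of_pos hbδ _
    have hwa : w ^ (a / 2) = b / δ := by
      rw [hw, ← Real.rpow_mul hbδ.le]
      have : 2 / a * (a / 2) = 1 := by field_simp
      rw [this, Real.rpow_one]
    have hwN : (N₀ : ℝ) ≤ w := by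
      by_contra hlt
      push Not at hlt
      have h1 := Real.rpow_lt_rpow hw0.le hlt (half_pos ha)
      rw [hwa, div_lt_iff₀ hδ] at h1
      rw [hδ₀, Real.rpow_neg hN₀0.le, ← div_eq_mul_inv,
        le_div_iff₀ (Real.rpow_pos_of_pos hN₀0 _)] at hle
      linarith
    obtain ⟨N, hN⟩ : ∃ N, N = ⌈w⌉₊ := ⟨_, rfl⟩
    have hNw : w ≤ N := by
      rw [hN]
      exact Nat.le_ceil w
    have hN0 : (0 : ℝ) < N := hw0.trans_le hNw
    have hNN : N₁ ≤ N := by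
      have h1 : (N₀ : ℝ) ≤ N := hwN.trans hNw
      have h2 : N₀ ≤ N := by exact_mod_cast h1
      have h3 : N₁ ≤ N₀ := by rw [hN₀]; exact le_max_left _ _
      exact h3.trans h2
    have hN2 : (N : ℝ) ≤ 2 * w := by
      have h1 : (N : ℝ) < w + 1 := by
        rw [hN]
        exact Nat.ceil_lt_add_one hw0.le
      linarith
    have h1 := hN₁ N hNN
    have h2 : b * (N : ℝ) ^ (-(a / 2)) ≤ δ := by
      have h3 := Real.rpow_le_rpow hw0.le hNw (half_pos ha).le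
      rw [hwa, div_le_iff₀ hδ] at h3
      rw [Real.rpow_neg hN0.le, ← div_eq_mul_inv, div_le_iff₀ (Real.rpow_pos_of_pos hN0 _)]
      linarith
    have h3 : F (hc - b * (N : ℝ) ^ (-(a / 2))) ≤ F (hc - δ) := hanti (by linarith)
    have h4 : (2 * w) ^ (-E) ≤ (N : ℝ) ^ (-E) :=
      Real.rpow_le_rpow_of_nonpos hN0 hN2 (by linarith)
    have h5 : (2 * w) ^ (-E) = c₁ * δ ^ (2 * E / a) := by
      rw [Real.mul_rpow two_pos.le hw0.le, hw, ← Real.rpow_mul hbδ.le, hc₁,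
        Real.div_rpow hb.le hδ.le]
      have e1 : 2 / a * -E = -(2 * E / a) := by ring
      rw [e1, Real.rpow_neg hδ.le]
      field_simp
    calc min c₁ (F (hc - δ₀)) * δ ^ (2 * E / a) ≤ c₁ * δ ^ (2 * E / a) :=
          mul_le_mul_of_nonneg_right (min_le_left _ _) hδB.le
      _ = (2 * w) ^ (-E) := h5.symm
      _ ≤ (N : ℝ) ^ (-E) := h4
      _ ≤ F (hc - b * (N : ℝ) ^ (-(a / 2))) := h1
      _ ≤ F (hc - δ) := h3
  · have h1 : δ ^ (2 * E / a) ≤ 1 := Real.rpow_le_one hδ.le hδ1 (by positivity)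
    have h2 : F (hc - δ₀) ≤ F (hc - δ) := hanti (by linarith)
    calc min c₁ (F (hc - δ₀)) * δ ^ (2 * E / a) ≤ F (hc - δ₀) * 1 :=
          mul_le_mul (min_le_right _ _) h1 hδB.le hF0.le
      _ ≤ F (hc - δ) := by rw [mul_one]; exact h2

end

end Pool.Agent.IG
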