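import Pool.Agent.Lib.MP_daa227_pr_IG.Gain
import Pool.Agent.Lib.MP_daa227_pr_AZ.Free
import Pool.Agent.Lib.MP_daa227_pr.HcA
import Pool.Agent.Lib.MP_daa227_pr.HcPos

/-!
# MP_daa227_pr, general potentials: the free energy at `h = 0` is positive
-/

namespace Pool.Agent.IG

open MeasureTheory ProbabilityTheory Finset Filter Topology
open MP_daa227_pr (Chain Zk Zf Gk Gf KU K0 Ren shift seqLaw ExpMom DepOn Good GoodW mom)
open Pool.Agent.AZ (Mod Kv lmg)
open Pool.Agent.IOrd (Sys aS cv)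

noncomputable section

/-- Copy of `MP_daa227_pr.renewal_jensen` (Lib/MP_daa227_pr/HcA.lean) for `Mod` (`AZ.Z_renewal`,
`M.G 0 n = Gk M.C (M.W 0) {0} n`). -/
theorem renewal_jensen (M : Mod) (k : ℕ → ℝ) (hk0 : ∀ L, 0 ≤ k L)
    (hk : ∀ L, 1 ≤ L → 0 < k L → (∀ ω, 0 < Gk M.C (M.W 0) {0} L ω 0 0) ∧
      Real.log (k L) ≤ ∫ ω, Real.log (Gk M.C (M.W 0) {0} L ω 0 0) ∂seqLaw M.μ) :
    ∀ N : ℕ, 0 < MP_daa227_pr.Uh k N → (∀ ω, 0 < M.Z 0 N ω) ∧
      Real.log (MP_daa227_pr.Uh k N) ≤ M.Ψ 0 N := by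
  unfold Mod.Ψ
  intro N
  induction N using Nat.strong_induction_on with
  | _ N ih =>
    intro hUN
    rcases Nat.eq_zero_or_pos N with rfl | hN
    · have h1 : ∀ ω, M.Z 0 0 ω = 1 := fun ω => by
        unfold Mod.Z
        simp [Zk]
      refine ⟨fun ω => by rw [h1]; exact one_pos, ?_⟩
      rw [MP_daa227_pr.Uh_zero]
      simp [h1]
    · have hG0 : ∀ L ω, 0 ≤ Gk M.C (M.W 0) {0} L ω 0 0 := fun L ω =>
        (M.good_Gk 0 L 0 0).nonneg ω
      set S := (Finset.Ioc 0 N).filter fun L => 0 < k L * MP_daa227_pr.Uh k (N - L) with hSdef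
      have hS : ∀ L ∈ S, 1 ≤ L ∧ L ≤ N ∧ 0 < k L ∧ 0 < MP_daa227_pr.Uh k (N - L) := by
        intro L hL
        rw [hSdef, Finset.mem_filter, Finset.mem_Ioc] at hL
        obtain ⟨⟨h1, h2⟩, h3⟩ := hL
        refine ⟨h1, h2, ?_, ?_⟩
        · exact lt_of_le_of_ne (hk0 L) fun h => by rw [← h, zero_mul] at h3; exact h3.false
        · exact lt_of_le_of_ne (MP_daa227_pr.HcA.Uh_nonneg hk0 _) fun h => by
            rw [← h, mul_zero] at h3; exact h3.false
      have hsum : ∑ L ∈ S, k L * MP_daa227_pr.Uh k (N - L) = MP_daa227_pr.Uh k N := by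
        rw [MP_daa227_pr.Uh_pos_eq k hN.ne', hSdef, Finset.sum_filter]
        refine Finset.sum_congr rfl fun L _ => ?_
        split_ifs with h
        · rfl
        · exact le_antisymm (mul_nonneg (hk0 L) (MP_daa227_pr.HcA.Uh_nonneg hk0 _)) (not_lt.mp h)
      set q : ℕ → ℝ := fun L => k L * MP_daa227_pr.Uh k (N - L) / MP_daa227_pr.Uh k N with hq
      have hq1 : ∑ L ∈ S, q L = 1 := by
        simp only [hq]
        rw [← Finset.sum_div, hsum, div_self hUN.ne']
      have hqpos : ∀ L ∈ S, 0 < q L := fun L hL => by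
        obtain ⟨_, _, h3, h4⟩ := hS L hL
        exact div_pos (mul_pos h3 h4) hUN
      have hne : S.Nonempty := by
        rw [Finset.nonempty_iff_ne_empty]
        intro h
        rw [h, Finset.sum_empty] at hq1
        exact zero_ne_one hq1
      have hGpos : ∀ L ∈ S, ∀ ω, 0 < Gk M.C (M.W 0) {0} L ω 0 0 := fun L hL =>
        (hk L (hS L hL).1 (hS L hL).2.2.1).1
      have hZpos : ∀ L ∈ S, ∀ ω, 0 < M.Z 0 (N - L) ω := fun L hL =>
        (ih (N - L) (by have := hS L hL; omega) (hS L hL).2.2.2).1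
      have hle : ∀ ω, ∑ L ∈ S, Gk M.C (M.W 0) {0} L ω 0 0 * M.Z 0 (N - L) (shift L ω) ≤
          M.Z 0 N ω := by
        intro ω
        rw [M.Z_renewal 0 hN.ne']
        change _ ≤ ∑ L ∈ Finset.Ioc 0 N, Gk M.C (M.W 0) {0} L ω 0 0 *
          M.Z 0 (N - L) (shift L ω)
        refine Finset.sum_le_sum_of_subset_of_nonneg (Finset.filter_subset _ _) ?_
        intro L _ _
        exact mul_nonneg (hG0 L ω) (M.Z_nonneg 0 _ _)
      have hposS : ∀ ω, 0 < ∑ L ∈ S, Gk M.C (M.W 0) {0} L ω 0 0 *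
          M.Z 0 (N - L) (shift L ω) := fun ω =>
        Finset.sum_pos (fun L hL => mul_pos (hGpos L hL ω) (hZpos L hL _)) hne
      have hZN : ∀ ω, 0 < M.Z 0 N ω := fun ω => (hposS ω).trans_le (hle ω)
      refine ⟨hZN, ?_⟩
      have hjen : ∀ ω, ∑ L ∈ S, q L * (Real.log (Gk M.C (M.W 0) {0} L ω 0 0) +
          Real.log (M.Z 0 (N - L) (shift L ω)) - Real.log (q L)) ≤
          Real.log (M.Z 0 N ω) := by
        intro ω
        refine le_trans ?_ (Real.log_le_log (hposS ω) (hle ω))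
        have h1 := strictConcaveOn_log_Ioi.concaveOn.le_map_sum (t := S) (w := q)
          (p := fun L => Gk M.C (M.W 0) {0} L ω 0 0 * M.Z 0 (N - L) (shift L ω) / q L)
          (fun L hL => (hqpos L hL).le) hq1 (fun L hL =>
            div_pos (mul_pos (hGpos L hL ω) (hZpos L hL _)) (hqpos L hL))
        simp only [smul_eq_mul] at h1
        have h2 : ∑ L ∈ S, q L * (Gk M.C (M.W 0) {0} L ω 0 0 *
            M.Z 0 (N - L) (shift L ω) / q L) =
            ∑ L ∈ S, Gk M.C (M.W 0) {0} L ω 0 0 * M.Z 0 (N - L) (shift L ω) := by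
          refine Finset.sum_congr rfl fun L hL => ?_
          have := (hqpos L hL).ne'
          field_simp
        rw [h2] at h1
        refine le_trans (le_of_eq ?_) h1
        refine Finset.sum_congr rfl fun L hL => ?_
        rw [Real.log_div (mul_pos (hGpos L hL ω) (hZpos L hL _)).ne' (hqpos L hL).ne',
          Real.log_mul (hGpos L hL ω).ne' (hZpos L hL _).ne']
      have hiG : ∀ L ∈ S, Integrable (fun ω => Real.log (Gk M.C (M.W 0) {0} L ω 0 0))
          (seqLaw M.μ) := fun L hL =>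
        (M.good_Gk 0 L 0 0).integrable_log M.exp_mom (hGpos L hL)
      have hiZ' : ∀ L ∈ S, Integrable (fun ω => Real.log (M.Z 0 (N - L) ω))
          (seqLaw M.μ) := fun L hL =>
        (M.good_Z 0 (N - L)).integrable_log M.exp_mom (hZpos L hL)
      have hiZ : ∀ L ∈ S, Integrable (fun ω => Real.log (M.Z 0 (N - L) (shift L ω)))
          (seqLaw M.μ) := fun L hL =>
        MP_daa227_pr.integrable_shift M.μ L (Y := fun ω => Real.log (M.Z 0 (N - L) ω))
          (M.good_Z 0 (N - L)).meas.log (hiZ' L hL)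
      have hiS : ∀ L ∈ S, Integrable (fun ω => q L * (Real.log (Gk M.C (M.W 0) {0} L ω 0 0) +
          Real.log (M.Z 0 (N - L) (shift L ω)) - Real.log (q L))) (seqLaw M.μ) :=
        fun L hL => (((hiG L hL).add (hiZ L hL)).sub (integrable_const _)).const_mul _
      have hint : ∫ ω, ∑ L ∈ S, q L * (Real.log (Gk M.C (M.W 0) {0} L ω 0 0) +
          Real.log (M.Z 0 (N - L) (shift L ω)) - Real.log (q L)) ∂seqLaw M.μ ≤
          ∫ ω, Real.log (M.Z 0 N ω) ∂seqLaw M.μ :=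
        integral_mono (integrable_finsetSum _ hiS)
          ((M.good_Z 0 N).integrable_log M.exp_mom hZN) hjen
      refine le_trans ?_ hint
      rw [integral_finsetSum _ hiS]
      have hterm : ∀ L ∈ S, q L * Real.log (MP_daa227_pr.Uh k N) ≤
          ∫ ω, q L * (Real.log (Gk M.C (M.W 0) {0} L ω 0 0) +
          Real.log (M.Z 0 (N - L) (shift L ω)) - Real.log (q L)) ∂seqLaw M.μ := by
        intro L hL
        obtain ⟨h1, h2, h3, h4⟩ := hS L hL
        rw [integral_const_mul]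
        refine mul_le_mul_of_nonneg_left ?_ (hqpos L hL).le
        have e1 : ∫ ω, (Real.log (Gk M.C (M.W 0) {0} L ω 0 0) +
            Real.log (M.Z 0 (N - L) (shift L ω)) - Real.log (q L)) ∂seqLaw M.μ =
            ∫ ω, Real.log (Gk M.C (M.W 0) {0} L ω 0 0) ∂seqLaw M.μ +
            ∫ ω, Real.log (M.Z 0 (N - L) (shift L ω)) ∂seqLaw M.μ - Real.log (q L) := by
          have f1 : Integrable (fun ω => Real.log (Gk M.C (M.W 0) {0} L ω 0 0) +
              Real.log (M.Z 0 (N - L) (shift L ω))) (seqLaw M.μ) :=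
            (hiG L hL).add (hiZ L hL)
          rw [integral_sub f1 (integrable_const _), integral_add (hiG L hL) (hiZ L hL)]
          simp
        rw [e1, MP_daa227_pr.integral_shift M.μ L (Y := fun ω => Real.log (M.Z 0 (N - L) ω))
          (M.good_Z 0 (N - L)).meas.log]
        have e2 := (hk L h1 h3).2
        have e3 := (ih (N - L) (by omega) h4).2
        have e4 : Real.log (q L) = Real.log (k L) + Real.log (MP_daa227_pr.Uh k (N - L)) -
            Real.log (MP_daa227_pr.Uh k N) := by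
          simp only [hq]
          rw [Real.log_div (mul_pos h3 h4).ne' hUN.ne', Real.log_mul h3.ne' h4.ne']
        linarith
      calc Real.log (MP_daa227_pr.Uh k N) = ∑ L ∈ S, q L * Real.log (MP_daa227_pr.Uh k N) := by
            rw [← Finset.sum_mul, hq1, one_mul]
        _ ≤ _ := Finset.sum_le_sum hterm

/-- Copy of `MP_daa227_pr.Fr_zero_pos_of_rec` (Lib/MP_daa227_pr/HcPos.lean) with
`L₁ = 6`, `exc_gain`; conclude with `AZ.Ψ_le` (`Ψ 0 N ≤ N Fr 0`, `N` even). -/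
theorem fr_zero_pos' (M : Mod) (hφ : M.φ 3 ≠ M.φ 1) : 0 < M.Fr 0 := by
  have hnl := M.hnl
  have hsum := M.hrec
  obtain ⟨L₁, hL₁e, hL₁1, hL₁K, hgain⟩ : ∃ L₁ : ℕ, Even L₁ ∧ 1 ≤ L₁ ∧ 0 < K0 M.C L₁ 0 ∧
      Real.log (K0 M.C L₁ 0) <
        ∫ ω, Real.log (Gk M.C (M.W 0) {0} L₁ ω 0 0) ∂seqLaw M.μ :=
    ⟨6, by decide, by norm_num, (exc_gain M hφ).1, (exc_gain M hφ).2⟩
  set g := ∫ ω, Real.log (Gk M.C (M.W 0) {0} L₁ ω 0 0) ∂seqLaw M.μ with hg
  set k : ℕ → ℝ := fun L => if L = L₁ then Real.exp g else K0 M.C L 0 with hk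
  have hKn : ∀ n x, 0 ≤ K0 M.C n x := MP_daa227_pr.Mark.K0_nonneg'
  have hk0 : ∀ L, 0 ≤ k L := by
    intro L
    rw [hk]; dsimp only
    split_ifs
    · exact (Real.exp_pos _).le
    · exact hKn _ _
  have hodd : ∀ L, ¬ Even L → k L = 0 := by
    intro L hL
    rw [hk]; dsimp only
    rw [if_neg (fun h : L = L₁ => hL (h.symm ▸ hL₁e))]
    apply MP_daa227_pr.K0_parity hnl
    rw [add_zero, Int.even_coe_nat]
    exact hL
  have hkgt : K0 M.C L₁ 0 < k L₁ := by
    rw [hk]; dsimp only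
    rw [if_pos rfl]
    calc K0 M.C L₁ 0 = Real.exp (Real.log (K0 M.C L₁ 0)) := (Real.exp_log hL₁K).symm
      _ < Real.exp g := Real.exp_lt_exp.2 hgain
  have hkge : ∀ L, K0 M.C L 0 ≤ k L := by
    intro L
    by_cases h : L = L₁
    · rw [h]; exact hkgt.le
    · rw [hk]; dsimp only; rw [if_neg h]
  -- total mass larger than one
  have hS : ∃ L₀ : ℕ, 1 < ∑ L ∈ Finset.Ioc 0 L₀, k L := by
    have h1 := hsum.tendsto_sum_nat
    set d := k L₁ - K0 M.C L₁ 0 with hd
    have hd0 : 0 < d := by rw [hd]; linarith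
    have h2 : ∀ᶠ n : ℕ in atTop, 1 - d < ∑ i ∈ Finset.range n, K0 M.C (i + 1) 0 :=
      h1.eventually (lt_mem_nhds (by linarith))
    obtain ⟨n, hn1, hn2⟩ := (h2.and (eventually_ge_atTop L₁)).exists
    refine ⟨n, ?_⟩
    have h3 : ∑ i ∈ Finset.range n, K0 M.C (i + 1) 0 = ∑ L ∈ Finset.Ioc 0 n, K0 M.C L 0 := by
      rw [Finset.range_eq_Ico, Finset.sum_Ico_add' (fun L => K0 M.C L 0)]
      congr 1
    rw [h3] at hn1
    have hmem : L₁ ∈ Finset.Ioc 0 n := Finset.mem_Ioc.2 ⟨hL₁1, hn2⟩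
    have h4 : ∑ L ∈ Finset.Ioc 0 n, K0 M.C L 0 + d ≤ ∑ L ∈ Finset.Ioc 0 n, k L := by
      rw [← Finset.add_sum_erase _ _ hmem, ← Finset.add_sum_erase (Finset.Ioc 0 n) k hmem]
      have h5 : ∑ L ∈ (Finset.Ioc 0 n).erase L₁, K0 M.C L 0 ≤
          ∑ L ∈ (Finset.Ioc 0 n).erase L₁, k L :=
        Finset.sum_le_sum fun L _ => hkge L
      rw [hd]
      linarith
    linarith
  obtain ⟨N, hNe, hN1, hN⟩ := MP_daa227_pr.Uh_growth k hk0 hodd hS
  have hjen := renewal_jensen M k hk0 (fun L hL hkL => by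
    by_cases h : L = L₁
    · rw [h]
      refine ⟨(exc_mean M hL₁1 hL₁K).1, ?_⟩
      rw [hk]; dsimp only
      rw [if_pos rfl, Real.log_exp]
    · rw [hk] at hkL ⊢
      dsimp only at hkL ⊢
      rw [if_neg h] at hkL ⊢
      exact exc_mean M hL hkL) N (one_pos.trans hN)
  have h1 : 0 < M.Ψ 0 N := (Real.log_pos hN).trans_le hjen.2
  have h2 := M.Ψ_le 0 hNe
  have hN0 : (0 : ℝ) < N := by exact_mod_cast hN1
  exact (mul_pos_iff_of_pos_left hN0).1 (h1.trans_le h2)

end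

end Pool.Agent.IG
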