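import Pool.Agent.Lib.MP_daa227_pr_IG.Defs
import Pool.Agent.Lib.MP_daa227_pr_AZ.Upper
import Pool.Agent.Lib.MP_daa227_pr_AZ.Side
import Pool.Agent.Lib.MP_daa227_pr_AZ.FarSum

/-!
# MP_daa227_pr, order: the annealed excursions just below the critical point
-/

namespace Pool.Agent.IG

open MeasureTheory ProbabilityTheory Finset Filter Topology
open MP_daa227_pr (Chain Zk Zf Gk Gf KU K0 Ren shift seqLaw ExpMom DepOn Good GoodW mom)
open Pool.Agent.AZ (Mod Kv lmg)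
open Pool.Agent.IOrd (Sys aS cv)

noncomputable section

/-- the annealed excursions to the left decay exponentially -/
def LDec (M : Mod) (hc : ℝ) : Prop :=
  ∃ ε : ℝ, 0 < ε ∧ ∃ B : ℝ, ∀ N : ℕ, ∑ n ∈ range N, Kv M.C (fun z => M.v hc z + ε) n (-1) ≤ B

theorem GFin.v_sub (M : Mod) (hc u : ℝ) : M.v (hc - u) = fun z => M.v hc z + u * M.φ z := by
  funext z
  unfold AZ.Mod.v
  ring

theorem GFin.sumE (M : Mod) {hc : ℝ} (hg : ∀ N : ℕ, ∑ n ∈ range N, M.g hc n ≤ 1) (N : ℕ) :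
    ∑ n ∈ range N, (AZ.Es M.C (M.v hc) 1 n + AZ.Es M.C (M.v hc) (-1) n) ≤ 1 := by
  rw [AZ.Upper.sum_split]
  exact hg _

/-- `AZ.Upper.sum_split`, `AZ.Upper.kv_bound`, `AZ.far_sum` with `ζ = φ` (`M.far_pos hc0`);
`M.v (hc - u) z = M.v hc z + u * φ z` -/
theorem right_fin (M : Mod) {hc : ℝ} (hc0 : 0 < hc)
    (hg : ∀ N : ℕ, ∑ n ∈ range N, M.g hc n ≤ 1) :
    ∃ u : ℝ, 0 < u ∧ ∃ B : ℝ, ∀ N : ℕ, ∑ n ∈ range N, Kv M.C (M.v (hc - u)) n 1 ≤ B := by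
  have hp1 : 0 < M.C.p 0 1 := by
    have := M.C.up 0
    rwa [zero_add] at this
  have hs1 : ∀ N : ℕ, ∑ n ∈ Finset.range N, AZ.Es M.C (M.v hc) 1 n ≤ 1 := fun N => by
    refine le_trans (Finset.sum_le_sum fun n _ => ?_) (GFin.sumE M hg N)
    exact le_add_of_nonneg_right (AZ.Es_nonneg _ _ _ _)
  obtain ⟨ε, hε, B, hB⟩ := AZ.far_sum M.C (M.v hc) M.φ
    (AZ.Upper.kv_bound M.C (M.v hc) 1 hp1 hs1) (Or.inr (M.far_pos hc0))
  refine ⟨ε, hε, B, fun N => ?_⟩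
  rw [GFin.v_sub]
  exact hB N

/-- If `ℓ = 0` (it is `≥ 0`) as `right_fin`, with `M.far_aux hc0` and `AZ.far_sum_neg`; otherwise
`M.v (hc - u) z ≤ M.v hc z + ε` for `u = ε / Φ` (`AZ.Kv_mono`). -/
theorem left_fin (M : Mod) {hc : ℝ} (hc0 : 0 < hc)
    (hg : ∀ N : ℕ, ∑ n ∈ range N, M.g hc n ≤ 1) (hdec : 0 < M.ℓ → LDec M hc) :
    ∃ u : ℝ, 0 < u ∧ ∃ B : ℝ, ∀ N : ℕ, ∑ n ∈ range N, Kv M.C (M.v (hc - u)) n (-1) ≤ B := by
  have hℓ0 : 0 ≤ M.ℓ := ge_of_tendsto' M.φ_bot M.φ_nonneg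
  rcases hℓ0.eq_or_lt with hℓ | hℓ
  · have hp1 : 0 < M.C.p 0 (-1) := by
      have := M.C.down 0
      rwa [zero_sub] at this
    have hs1 : ∀ N : ℕ, ∑ n ∈ Finset.range N, AZ.Es M.C (M.v hc) (-1) n ≤ 1 := fun N => by
      refine le_trans (Finset.sum_le_sum fun n _ => ?_) (GFin.sumE M hg N)
      exact le_add_of_nonneg_left (AZ.Es_nonneg _ _ _ _)
    obtain ⟨ε₁, hε₁, t, ht, hz⟩ := M.far_aux hc0
    have h1 := M.φ_bot
    rw [← hℓ] at h1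
    obtain ⟨R, hR⟩ := eventually_atBot.1 (h1.eventually_lt_const ht)
    obtain ⟨ε, hε, B, hB⟩ := AZ.far_sum_neg M.C (M.v hc) M.φ
      (AZ.Upper.kv_bound M.C (M.v hc) (-1) hp1 hs1)
      (Or.inr ⟨ε₁, hε₁, R, fun z hzR => hz z (hR z hzR).le⟩)
    refine ⟨ε, hε, B, fun N => ?_⟩
    rw [GFin.v_sub]
    exact hB N
  · obtain ⟨ε, hε, B, hB⟩ := hdec hℓ
    refine ⟨ε / M.Φ, div_pos hε M.Φ_pos, B, fun N => le_trans ?_ (hB N)⟩
    refine Finset.sum_le_sum fun n _ => AZ.Kv_mono M.C (fun z => ?_) n (-1)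
    rw [GFin.v_sub]
    dsimp only
    have h2 : ε / M.Φ * M.φ z ≤ ε / M.Φ * M.Φ :=
      mul_le_mul_of_nonneg_left (M.φ_le z) (div_pos hε M.Φ_pos).le
    rw [div_mul_cancel₀ _ M.Φ_pos.ne'] at h2
    linarith

/-- both sides: `AZ.Kv_split`, `AZ.Kv_mono` (take the smaller `u`) -/
theorem g_fin (M : Mod) {hc : ℝ} (hc0 : 0 < hc)
    (hg : ∀ N : ℕ, ∑ n ∈ range N, M.g hc n ≤ 1) (hdec : 0 < M.ℓ → LDec M hc) :
    ∃ u : ℝ, 0 < u ∧ ∃ B : ℝ, ∀ N : ℕ, ∑ n ∈ range N, M.g (hc - u) n ≤ B := by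
  obtain ⟨u₁, hu₁, B₁, hB₁⟩ := right_fin M hc0 hg
  obtain ⟨u₂, hu₂, B₂, hB₂⟩ := left_fin M hc0 hg hdec
  have hmono : ∀ a b : ℝ, a ≤ b → ∀ z, M.v (hc - a) z ≤ M.v (hc - b) z := by
    intro a b hab z
    rw [GFin.v_sub, GFin.v_sub]
    dsimp only
    have := mul_le_mul_of_nonneg_right hab (M.φ_nonneg z)
    linarith
  have hE : ∀ (σ : ℤ) (a b B : ℝ), a ≤ b →
      (∀ N : ℕ, ∑ n ∈ range N, Kv M.C (M.v (hc - b)) n σ ≤ B) →
      ∀ N : ℕ, ∑ n ∈ range N, AZ.Es M.C (M.v (hc - a)) σ n ≤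
        M.C.p 0 σ * Real.exp (M.v (hc - a) σ) * B := by
    intro σ a b B hab hB N
    unfold AZ.Es
    rw [← Finset.mul_sum]
    refine mul_le_mul_of_nonneg_left ?_ (mul_nonneg (M.C.nonneg _ _) (Real.exp_pos _).le)
    exact (Finset.sum_le_sum fun n _ => AZ.Kv_mono M.C (hmono a b hab) n σ).trans (hB N)
  refine ⟨min u₁ u₂, lt_min hu₁ hu₂,
    M.C.p 0 1 * Real.exp (M.v (hc - min u₁ u₂) 1) * B₁ +
      M.C.p 0 (-1) * Real.exp (M.v (hc - min u₁ u₂) (-1)) * B₂, fun N => ?_⟩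
  have h1 : ∑ n ∈ range N, M.g (hc - min u₁ u₂) n ≤
      ∑ n ∈ range (N + 1), M.g (hc - min u₁ u₂) n := by
    rw [Finset.sum_range_succ]
    exact le_add_of_nonneg_right (AZ.Kv_nonneg _ _ _ _)
  refine h1.trans ?_
  rw [← AZ.Upper.sum_split, Finset.sum_add_distrib]
  exact add_le_add (hE 1 _ _ _ (min_le_left _ _) hB₁ N) (hE (-1) _ _ _ (min_le_right _ _) hB₂ N)

/-- Otherwise all partial sums at `hc` are `≤ 1 - η`, and by `AZ.Interp.interp_K` (with `v hc` and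
`v (hc - u)`; `(1 - t) v hc + t v (hc - u) = v (hc - t u)`) and `AZ.Interp.holder`
`∑ g (hc - t u) ≤ (1 - η) ^ (1 - t) B ^ t ≤ 1` for small `t > 0`; `M.Fr_nonpos` contradicts
`hcrit`. -/
theorem g_one (M : Mod) {hc u B : ℝ} (hcrit : ∀ h, 0 < M.Fr h ↔ h < hc) (hu : 0 < u)
    (hB : ∀ N : ℕ, ∑ n ∈ range N, M.g (hc - u) n ≤ B)
    (hg : ∀ N : ℕ, ∑ n ∈ range N, M.g hc n ≤ 1) {η : ℝ} (hη : 0 < η) :
    ∃ N : ℕ, 1 - η ≤ ∑ n ∈ range N, M.g hc n := by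
  by_contra hcon
  push Not at hcon
  have hη1 : 0 < 1 - η := by
    have := hcon 0
    simpa using this
  set B' : ℝ := max B 1 with hB'def
  have hB'0 : 0 < B' := lt_of_lt_of_le one_pos (le_max_right _ _)
  have hcont : Continuous fun t : ℝ => (1 - η) ^ (1 - t) * B' ^ t :=
    ((Real.continuous_const_rpow hη1.ne').comp (continuous_const.sub continuous_id)).mul
      (Real.continuous_const_rpow hB'0.ne')
  have ht0 : Tendsto (fun t : ℝ => (1 - η) ^ (1 - t) * B' ^ t) (𝓝[>] 0) (𝓝 (1 - η)) := by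
    have h1 := (hcont.tendsto 0).mono_left (nhdsWithin_le_nhds (s := Set.Ioi (0 : ℝ)))
    simpa using h1
  have hev := ht0.eventually_lt_const (show 1 - η < 1 by linarith)
  have hio : ∀ᶠ t : ℝ in 𝓝[>] 0, t ∈ Set.Ioo (0 : ℝ) 1 := Ioo_mem_nhdsGT one_pos
  obtain ⟨t, ht1, ht0, htlt⟩ := (hev.and hio).exists
  have hF : M.Fr (hc - t * u) ≤ 0 := by
    apply AZ.Mod.Fr_nonpos
    intro N
    have hv : M.v (hc - t * u) = fun z => (1 - t) * M.v hc z + t * M.v (hc - u) z := by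
      funext z
      unfold AZ.Mod.v
      ring
    have h1 : ∀ n, M.g (hc - t * u) n ≤ M.g hc n ^ (1 - t) * M.g (hc - u) n ^ t := by
      intro n
      unfold AZ.Mod.g
      rw [hv]
      exact AZ.interp_K M.C _ _ ht0.le htlt.le n 0
    refine (Finset.sum_le_sum fun n _ => h1 n).trans ?_
    have hn1 : ∀ h n, 0 ≤ M.g h n := fun h n => AZ.Kv_nonneg _ _ _ _
    refine (AZ.Interp.holder (range N) (fun n => M.g hc n) (fun n => M.g (hc - u) n)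
      (fun n _ => hn1 _ _) (fun n _ => hn1 _ _) ht0.le htlt.le).trans ?_
    refine le_trans ?_ ht1.le
    have hs1 : 0 ≤ ∑ n ∈ range N, M.g hc n := Finset.sum_nonneg fun n _ => hn1 _ _
    have hs2 : 0 ≤ ∑ n ∈ range N, M.g (hc - u) n := Finset.sum_nonneg fun n _ => hn1 _ _
    refine mul_le_mul ?_ ?_ (Real.rpow_nonneg hs2 _) (Real.rpow_nonneg hη1.le _)
    · exact Real.rpow_le_rpow hs1 (hcon N).le (by linarith)
    · exact Real.rpow_le_rpow hs2 ((hB N).trans (le_max_left _ _)) ht0.le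
  have h2 : 0 < M.Fr (hc - t * u) := (hcrit _).2 (by
    have := mul_pos ht0 hu
    linarith)
  exact absurd h2 (not_lt.2 hF)

end

end Pool.Agent.IG
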