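import Pool.Agent.Lib.MP_daa227_pr_IG.TailD
import Pool.Agent.Lib.MP_daa227_pr_AZ.Pert

/-!
# MP_daa227_pr, order: the weighted excursions have the same polynomial tail
-/

namespace Pool.Agent.IG

open MeasureTheory ProbabilityTheory Finset Filter Topology
open MP_daa227_pr (Chain Zk Zf Gk Gf KU K0 Ren shift seqLaw ExpMom DepOn Good GoodW mom)
open Pool.Agent.AZ (Mod Kv lmg)
open Pool.Agent.IOrd (Sys aS cv)

noncomputable section

namespace TailM

/-- the two terms of the recursion as one sum over all neighbours -/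
theorem nb_one (C : Chain) (x : ℤ) (L : ℤ → ℝ) :
    C.p x 0 + ∑ z ∈ Finset.Icc (x - 1) (x + 1) \ {0}, C.p x z * L z =
      ∑ z ∈ Finset.Icc (x - 1) (x + 1), C.p x z * (if z = 0 then 1 else L z) := by
  have h := AZ.nb_split C x (fun _ => 0) (fun z => if z = 0 then 1 else L z)
  simp only [Real.exp_zero, mul_one, if_true] at h
  rw [← h]
  congr 1
  refine Finset.sum_congr rfl fun z hz => ?_
  rw [Finset.mem_sdiff, Finset.mem_singleton] at hz
  rw [if_neg hz.2]

theorem nb_two (C : Chain) (x : ℤ) (L : ℤ → ℝ) :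
    ∑ z ∈ Finset.Icc (x - 1) (x + 1) \ {0}, C.p x z * L z =
      ∑ z ∈ Finset.Icc (x - 1) (x + 1), C.p x z * (if z = 0 then 0 else L z) := by
  have h := AZ.nb_split C x (fun _ => 0) (fun z => if z = 0 then 0 else L z)
  simp only [Real.exp_zero, mul_one, if_true, mul_zero, zero_add] at h
  rw [← h]
  refine Finset.sum_congr rfl fun z hz => ?_
  rw [Finset.mem_sdiff, Finset.mem_singleton] at hz
  rw [if_neg hz.2]

/-- sums for the translated chain -/
theorem shift_sum (C : Chain) (R x : ℤ) (G : ℤ → ℝ) :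
    ∑ z ∈ Finset.Icc (x - R - 1) (x - R + 1), (AZ.ctr C R).p (x - R) z * G z =
      ∑ z ∈ Finset.Icc (x - 1) (x + 1), C.p x z * G (z - R) := by
  rw [AZ.sum_nb, AZ.sum_nb]
  have e1 : (AZ.ctr C R).p (x - R) (x - R - 1) = C.p x (x - 1) := by
    change C.p (x - R + R) (x - R - 1 + R) = _
    rw [show x - R + R = x by ring, show x - R - 1 + R = x - 1 by ring]
  have e2 : (AZ.ctr C R).p (x - R) (x - R) = C.p x x := by
    change C.p (x - R + R) (x - R + R) = _
    rw [show x - R + R = x by ring]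
  have e3 : (AZ.ctr C R).p (x - R) (x - R + 1) = C.p x (x + 1) := by
    change C.p (x - R + R) (x - R + 1 + R) = _
    rw [show x - R + R = x by ring, show x - R + 1 + R = x + 1 by ring]
  rw [e1, e2, e3, show x - 1 - R = x - R - 1 by ring, show x + 1 - R = x - R + 1 by ring]

theorem lq_far (C : Chain) (R x : ℤ) {s : ℝ} (hs : 0 ≤ s) :
    Lq (AZ.ctr C R) s (x - R) = Real.exp (-s) * ∑ z ∈ Finset.Icc (x - 1) (x + 1),
      C.p x z * (if z = R then 1 else Lq (AZ.ctr C R) s (z - R)) := by
  rw [lq_eq _ _ hs, nb_one, shift_sum C R x]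
  congr 1
  refine Finset.sum_congr rfl fun z _ => ?_
  by_cases h : z = R
  · rw [if_pos h, if_pos (by omega)]
  · rw [if_neg h, if_neg (by omega)]

theorem ld_far (C : Chain) (R x : ℤ) {s : ℝ} (hs : 0 ≤ s) :
    Ld (AZ.ctr C R) s (x - R) = ∑ z ∈ Finset.Icc (x - 1) (x + 1),
      C.p x z * ((if z = R then 0 else Ld (AZ.ctr C R) s (z - R)) +
        (1 - Real.exp (-s)) * (if z = R then 1 else Lq (AZ.ctr C R) s (z - R))) := by
  rw [ld_eq _ _ hs, nb_one, nb_two, shift_sum C R x, shift_sum C R x, Finset.mul_sum,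
    ← Finset.sum_add_distrib]
  refine Finset.sum_congr rfl fun z _ => ?_
  by_cases h : z = R
  · rw [if_pos h, if_pos h, if_pos (by omega), if_pos (by omega)]
    ring
  · rw [if_neg h, if_neg h, if_neg (by omega), if_neg (by omega)]
    ring

theorem disc_le (C : Chain) (v : ℤ → ℝ) {s : ℝ} (hs : 0 ≤ s) (N : ℕ) (x : ℤ) :
    ∑ n ∈ range N, Kv C v n x * Real.exp (-(s * n)) ≤ ∑ n ∈ range N, Kv C v n x := by
  refine Finset.sum_le_sum fun n _ => ?_
  have h1 : Real.exp (-(s * n)) ≤ 1 := by
    rw [Real.exp_le_one_iff]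
    have : 0 ≤ s * (n : ℝ) := mul_nonneg hs (Nat.cast_nonneg n)
    linarith
  exact mul_le_of_le_one_right (AZ.Kv_nonneg C v n x) h1

theorem disc_nonneg (C : Chain) (v : ℤ → ℝ) (s : ℝ) (N : ℕ) (x : ℤ) :
    0 ≤ ∑ n ∈ range N, Kv C v n x * Real.exp (-(s * n)) :=
  Finset.sum_nonneg fun n _ => mul_nonneg (AZ.Kv_nonneg C v n x) (Real.exp_pos _).le

theorem sdiff_far {x : ℤ} (hx : 1 < x) :
    Finset.Icc (x - 1) (x + 1) \ {0} = Finset.Icc (x - 1) (x + 1) := by
  ext z
  simp only [Finset.mem_sdiff, Finset.mem_Icc, Finset.mem_singleton]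
  omega

theorem p_zero (C : Chain) {x : ℤ} (hx : 1 < x) : C.p x 0 = 0 := by
  apply C.near
  rw [Finset.mem_Icc]
  omega

end TailM

/-- Beyond `r` the exponents are `≤ 0`, so the discounted sums are at most `S q` with
`q x = Lq (ctr C r) s (x - r)`, where `S` bounds the sums at `r`. -/
theorem far_q (C : Chain) (v : ℤ → ℝ) {r : ℕ} (hr : 1 ≤ r) (hv : ∀ z : ℤ, (r : ℤ) ≤ z → v z ≤ 0)
    {S : ℝ} (hS : ∀ N : ℕ, ∑ n ∈ range N, Kv C v n r ≤ S) {s : ℝ} (hs : 0 ≤ s) (N : ℕ) {x : ℤ}
    (hx : (r : ℤ) < x) :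
    ∑ n ∈ range N, Kv C v n x * Real.exp (-(s * n)) ≤ S * Lq (AZ.ctr C r) s (x - r) := by
  have hS0 : 0 ≤ S := by
    have h := hS 0
    rwa [Finset.range_zero, Finset.sum_empty] at h
  induction N generalizing x with
  | zero =>
    rw [Finset.range_zero, Finset.sum_empty]
    exact mul_nonneg hS0 (lq_nonneg _ _ _)
  | succ N ih =>
    have hx1 : 1 < x := by omega
    rw [pq_succ, TailM.sdiff_far hx1, TailM.p_zero C hx1, zero_mul, ite_self, zero_add,
      TailM.lq_far C r x hs, mul_left_comm S, Finset.mul_sum (a := S)]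
    refine mul_le_mul_of_nonneg_left (Finset.sum_le_sum fun z hz => ?_) (Real.exp_pos _).le
    rw [Finset.mem_Icc] at hz
    have hzr : (r : ℤ) ≤ z := by omega
    have h1 : C.p x z * Real.exp (v z) ≤ C.p x z :=
      mul_le_of_le_one_right (C.nonneg _ _) (Real.exp_le_one_iff.2 (hv z hzr))
    have h2 : ∑ n ∈ range N, Kv C v n z * Real.exp (-(s * n)) ≤
        S * (if z = (r : ℤ) then 1 else Lq (AZ.ctr C r) s (z - r)) := by
      by_cases h : z = (r : ℤ)
      · rw [if_pos h, mul_one, h]
        exact (TailM.disc_le C v hs N _).trans (hS N)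
      · rw [if_neg h]
        exact ih (by omega)
    calc C.p x z * Real.exp (v z) * ∑ n ∈ range N, Kv C v n z * Real.exp (-(s * n))
        ≤ C.p x z * ∑ n ∈ range N, Kv C v n z * Real.exp (-(s * n)) :=
          mul_le_mul_of_nonneg_right h1 (TailM.disc_nonneg C v s N z)
      _ ≤ C.p x z * (S * (if z = (r : ℤ) then 1 else Lq (AZ.ctr C r) s (z - r))) :=
          mul_le_mul_of_nonneg_left h2 (C.nonneg _ _)
      _ = _ := by ring

/-- `AZ.min_sol` for `v` and `AZ.pert` with `ζ = 1` on `z ≤ r`, `0` beyond, and `g = 1` on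
`x > r + 1`: a positive function `f` on `x ≥ 0` with `AZ.Ssol C (v + ε ζ) 0 f`, so
`f x - ∑ p exp (v) f ≥ p(x, x-1) exp (v (x-1)) (exp ε - 1) f (x-1) = c x > 0` for `1 ≤ x ≤ r`, and
`∑ p exp (v) f ≤ f` for `x > 0`. Sums of `Kv` at `z > 0` are at most `f z / f 0` (`AZ.sum_le_sup`).
By induction on `N` with `pt_succ`: for `x ≥ 1`
`∑ Kv v n x (1 - exp (-s n)) ≤ A s ^ a f x + S Ld (ctr C r) s (x - r) 1_{x > r}`,
`S = f r / f 0`, where `Ld (ctr C r) s 1 ≤ A₁ s ^ a` (`ftail_ctr`). -/
theorem one_tail (C : Chain) (v : ℤ → ℝ) {b : ℤ} (hv : ∀ z : ℤ, b ≤ z → v z ≤ 0) {B : ℝ}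
    (hB : ∀ N : ℕ, ∑ n ∈ range N, Kv C v n 1 ≤ B) {a : ℝ} (ha : 0 < a) (ha1 : a ≤ 1)
    (hF : FTail C a) : ∃ A : ℝ, 0 ≤ A ∧ ∀ s : ℝ, 0 < s → s ≤ 1 → ∀ N : ℕ,
      ∑ n ∈ range N, Kv C v n 1 * (1 - Real.exp (-(s * n))) ≤ A * s ^ a := by
  obtain ⟨f₀, hf₀, hs₀⟩ := AZ.min_sol C v hB
  obtain ⟨r, hbr, hr1⟩ : ∃ r : ℕ, b ≤ (r : ℤ) ∧ 1 ≤ r := ⟨b.toNat + 1, by omega, by omega⟩
  have hvr : ∀ z : ℤ, (r : ℤ) ≤ z → v z ≤ 0 := fun z hz => hv z (hbr.trans hz)
  set ζ : ℤ → ℝ := fun z => if z ≤ (r : ℤ) then 1 else 0 with hζ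
  have hζ0 : ∀ z, 0 ≤ ζ z := by
    intro z
    rw [hζ]
    change (0 : ℝ) ≤ if z ≤ (r : ℤ) then 1 else 0
    split_ifs <;> norm_num
  have hg : AZ.Ssol C (fun z => v z + 1 * ζ z) ((r : ℤ) + 1) (fun _ => 1) := by
    intro x hx
    have e : ∀ z : ℤ, (r : ℤ) < z → Real.exp (v z + 1 * ζ z) ≤ 1 := by
      intro z hz
      rw [Real.exp_le_one_iff]
      have h1 : ζ z = 0 := if_neg (by omega)
      rw [h1, mul_zero, add_zero]
      exact hvr z hz.le
    have h1 := C.sum_one x
    rw [AZ.sum_nb x (fun z => C.p x z)] at h1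
    have h2 := mul_le_of_le_one_right (C.nonneg x (x - 1)) (e (x - 1) (by omega))
    have h3 := mul_le_of_le_one_right (C.nonneg x x) (e x (by omega))
    have h4 := mul_le_of_le_one_right (C.nonneg x (x + 1)) (e (x + 1) (by omega))
    simp only [mul_one]
    linarith
  obtain ⟨ε, hε, -, f, hf, hfs⟩ := AZ.pert C v ζ f₀ (fun _ => 1) ((r : ℤ) + 1) (by omega) hf₀ hs₀
    one_pos (fun _ _ => one_pos) hg
  have hf0 : 0 < f 0 := hf 0 le_rfl
  have hexp : ∀ z, Real.exp (v z) ≤ Real.exp (v z + ε * ζ z) := by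
    intro z
    apply Real.exp_le_exp.2
    have := mul_nonneg hε.le (hζ0 z)
    linarith
  have hfv : AZ.Ssol C v 0 f := by
    intro x hx
    refine le_trans ?_ (hfs x hx)
    have t : ∀ z : ℤ, 0 ≤ z → C.p x z * Real.exp (v z) * f z ≤
        C.p x z * Real.exp (v z + ε * ζ z) * f z := by
      intro z hz
      exact mul_le_mul_of_nonneg_right (mul_le_mul_of_nonneg_left (hexp z) (C.nonneg _ _))
        (hf z hz).le
    exact add_le_add (add_le_add (t _ (by omega)) (t _ (by omega))) (t _ (by omega))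
  have hsum : ∀ x : ℤ, 0 < x →
      ∑ z ∈ Finset.Icc (x - 1) (x + 1), C.p x z * Real.exp (v z) * f z ≤ f x := by
    intro x hx
    rw [AZ.sum_nb x (fun z => C.p x z * Real.exp (v z) * f z)]
    exact hfv x hx
  set c : ℤ → ℝ := fun x => C.p x (x - 1) * Real.exp (v (x - 1)) * (Real.exp ε - 1) * f (x - 1)
    with hc
  have hc0 : ∀ x : ℤ, 1 ≤ x → 0 < c x := by
    intro x hx
    have h1 : 0 < Real.exp ε - 1 := by
      have := Real.add_one_lt_exp hε.ne'
      linarith
    exact mul_pos (mul_pos (mul_pos (C.down x) (Real.exp_pos _)) h1) (hf _ (by omega))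
  have hgap : ∀ x : ℤ, 1 ≤ x → x ≤ r →
      ∑ z ∈ Finset.Icc (x - 1) (x + 1), C.p x z * Real.exp (v z) * f z ≤ f x - c x := by
    intro x hx hxr
    rw [AZ.sum_nb x (fun z => C.p x z * Real.exp (v z) * f z)]
    have h1 := hfs x (by omega)
    simp only at h1
    have h2 : ζ (x - 1) = 1 := if_pos (by omega)
    have t : ∀ z : ℤ, 0 ≤ z → C.p x z * Real.exp (v z) * f z ≤
        C.p x z * Real.exp (v z + ε * ζ z) * f z := by
      intro z hz
      exact mul_le_mul_of_nonneg_right (mul_le_mul_of_nonneg_left (hexp z) (C.nonneg _ _))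
        (hf z hz).le
    have t1 := t x (by omega)
    have t2 := t (x + 1) (by omega)
    rw [h2, mul_one, Real.exp_add] at h1
    have h3 : c x = C.p x (x - 1) * (Real.exp (v (x - 1)) * Real.exp ε) * f (x - 1) -
        C.p x (x - 1) * Real.exp (v (x - 1)) * f (x - 1) := by
      rw [hc]
      ring
    rw [h3]
    linarith
  obtain ⟨A₁, hA₁, hA₁'⟩ := ftail_ctr C hF r
  have hLd : ∀ s : ℝ, 0 < s → s ≤ 1 → Ld (AZ.ctr C r) s 1 ≤ A₁ * s ^ a := by
    intro s hs hs1
    exact (lq_summable (AZ.ctr C r) 1 hs.le).2.tsum_le_of_sum_range_le (hA₁' s hs hs1)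
  set S : ℝ := f r / f 0 with hSd
  have hS0 : 0 ≤ S := div_nonneg (hf _ (by omega)).le hf0.le
  have hsup : ∀ z : ℤ, 0 < z → ∀ N : ℕ, ∑ n ∈ range N, Kv C v n z ≤ f z / f 0 := by
    intro z hz N
    rw [le_div_iff₀ hf0]
    exact AZ.sum_le_sup C v f hf hfv N hz
  have hS : ∀ N : ℕ, ∑ n ∈ range N, Kv C v n r ≤ S := hsup r (by omega)
  set A : ℝ := ∑ x ∈ Finset.Icc (1 : ℤ) r, (S * A₁ + f x / f 0) / c x with hAd
  have hterm : ∀ x ∈ Finset.Icc (1 : ℤ) r, 0 ≤ (S * A₁ + f x / f 0) / c x := by
    intro x hx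
    rw [Finset.mem_Icc] at hx
    exact div_nonneg (add_nonneg (mul_nonneg hS0 hA₁)
      (div_nonneg (hf x (by omega)).le hf0.le)) (hc0 x hx.1).le
  have hA0 : 0 ≤ A := Finset.sum_nonneg hterm
  have hA : ∀ x : ℤ, 1 ≤ x → x ≤ r → S * A₁ + f x / f 0 ≤ A * c x := by
    intro x hx hxr
    rw [← div_le_iff₀ (hc0 x hx)]
    exact Finset.single_le_sum hterm (Finset.mem_Icc.2 ⟨hx, hxr⟩)
  have main : ∀ s : ℝ, 0 < s → s ≤ 1 → ∀ (N : ℕ) (x : ℤ), 1 ≤ x →
      ∑ n ∈ range N, Kv C v n x * (1 - Real.exp (-(s * n))) ≤ A * s ^ a * f x +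
        (if x ≤ (r : ℤ) then 0 else S * Ld (AZ.ctr C r) s (x - r)) := by
    intro s hs hs1 N
    have hsa : 0 ≤ s ^ a := Real.rpow_nonneg hs.le a
    have hssa : s ≤ s ^ a := by
      have := Real.rpow_le_rpow_of_exponent_ge hs hs1 ha1
      rwa [Real.rpow_one] at this
    have hE0 : 0 ≤ 1 - Real.exp (-s) := by
      have : Real.exp (-s) ≤ 1 := Real.exp_le_one_iff.2 (by linarith)
      linarith
    have hE1 : 1 - Real.exp (-s) ≤ s ^ a := by
      have := Real.add_one_le_exp (-s)
      linarith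
    have hAs : 0 ≤ A * s ^ a := mul_nonneg hA0 hsa
    induction N with
    | zero =>
      intro x hx
      rw [Finset.range_zero, Finset.sum_empty]
      refine add_nonneg (mul_nonneg hAs (hf x (by omega)).le) ?_
      split_ifs
      · exact le_rfl
      · exact mul_nonneg hS0 (ld_nonneg _ _ hs.le)
    | succ N ih =>
      intro x hx
      rw [pt_succ]
      by_cases hxr : x ≤ (r : ℤ)
      · rw [if_pos hxr, add_zero]
        set K : ℝ := A * s ^ a + s ^ a / f 0 with hK
        have hK0 : 0 ≤ K := add_nonneg hAs (div_nonneg hsa hf0.le)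
        have hKf : ∀ y : ℝ, K * y = A * s ^ a * y + s ^ a * (y / f 0) := by
          intro y
          rw [hK]
          ring
        have h1 : (if N = 0 then 0 else C.p x 0 * Real.exp (v 0) * (1 - Real.exp (-s))) ≤
            C.p x 0 * Real.exp (v 0) * (K * f 0) := by
          have h2 : 0 ≤ C.p x 0 * Real.exp (v 0) := mul_nonneg (C.nonneg _ _) (Real.exp_pos _).le
          split_ifs
          · exact mul_nonneg h2 (mul_nonneg hK0 hf0.le)
          · refine mul_le_mul_of_nonneg_left ?_ h2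
            rw [hKf, div_self hf0.ne', mul_one]
            have := mul_nonneg hAs hf0.le
            linarith
        have h2 : ∀ z ∈ Finset.Icc (x - 1) (x + 1) \ {0}, C.p x z * Real.exp (v z) *
            (∑ n ∈ range N, Kv C v n z * (1 - Real.exp (-(s * n))) +
              (1 - Real.exp (-s)) * ∑ n ∈ range N, Kv C v n z * Real.exp (-(s * n))) ≤
            C.p x z * Real.exp (v z) * (K * f z) + C.p x z * (S * A₁ * s ^ a) := by
          intro z hz
          rw [Finset.mem_sdiff, Finset.mem_Icc, Finset.mem_singleton] at hz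
          have hz1 : 1 ≤ z := by omega
          have h3 := ih z hz1
          have h4 : (1 - Real.exp (-s)) * ∑ n ∈ range N, Kv C v n z * Real.exp (-(s * n)) ≤
              s ^ a * (f z / f 0) :=
            mul_le_mul hE1 ((TailM.disc_le C v hs.le N z).trans (hsup z (by omega) N))
              (TailM.disc_nonneg C v s N z) hsa
          have h5 : 0 ≤ S * A₁ * s ^ a := mul_nonneg (mul_nonneg hS0 hA₁) hsa
          by_cases hzr : z ≤ (r : ℤ)
          · rw [if_pos hzr, add_zero] at h3
            have h6 : C.p x z * Real.exp (v z) *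
                (∑ n ∈ range N, Kv C v n z * (1 - Real.exp (-(s * n))) +
                (1 - Real.exp (-s)) * ∑ n ∈ range N, Kv C v n z * Real.exp (-(s * n))) ≤
                C.p x z * Real.exp (v z) * (K * f z) := by
              refine mul_le_mul_of_nonneg_left ?_ (mul_nonneg (C.nonneg _ _) (Real.exp_pos _).le)
              rw [hKf]
              exact add_le_add h3 h4
            have h7 := mul_nonneg (C.nonneg x z) h5
            linarith
          · have hzr' : z - (r : ℤ) = 1 := by omega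
            rw [if_neg hzr, hzr'] at h3
            have h6 : S * Ld (AZ.ctr C r) s 1 ≤ S * A₁ * s ^ a := by
              rw [mul_assoc]
              exact mul_le_mul_of_nonneg_left (hLd s hs hs1) hS0
            have h7 : C.p x z * Real.exp (v z) *
                (∑ n ∈ range N, Kv C v n z * (1 - Real.exp (-(s * n))) +
                (1 - Real.exp (-s)) * ∑ n ∈ range N, Kv C v n z * Real.exp (-(s * n))) ≤
                C.p x z * Real.exp (v z) * (K * f z + S * A₁ * s ^ a) := by
              refine mul_le_mul_of_nonneg_left ?_ (mul_nonneg (C.nonneg _ _) (Real.exp_pos _).le)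
              rw [hKf]
              linarith
            have h8 : C.p x z * Real.exp (v z) ≤ C.p x z :=
              mul_le_of_le_one_right (C.nonneg _ _) (Real.exp_le_one_iff.2 (hvr z (by omega)))
            have h9 := mul_le_mul_of_nonneg_right h8 h5
            rw [mul_add] at h7
            linarith
        have h3 := Finset.sum_le_sum h2
        rw [Finset.sum_add_distrib, ← Finset.sum_mul] at h3
        have h4 : ∑ z ∈ Finset.Icc (x - 1) (x + 1) \ {0}, C.p x z ≤ 1 := by
          rw [← C.sum_one x]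
          exact Finset.sum_le_sum_of_subset_of_nonneg Finset.sdiff_subset
            fun z _ _ => C.nonneg _ _
        have h5 : 0 ≤ S * A₁ * s ^ a := mul_nonneg (mul_nonneg hS0 hA₁) hsa
        have h6 : (∑ z ∈ Finset.Icc (x - 1) (x + 1) \ {0}, C.p x z) * (S * A₁ * s ^ a) ≤
            S * A₁ * s ^ a := mul_le_of_le_one_left h5 h4
        have h7 := AZ.nb_split C x v (fun z => K * f z)
        have h8 : ∑ z ∈ Finset.Icc (x - 1) (x + 1), C.p x z * Real.exp (v z) * (K * f z) =
            K * ∑ z ∈ Finset.Icc (x - 1) (x + 1), C.p x z * Real.exp (v z) * f z := by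
          rw [Finset.mul_sum]
          exact Finset.sum_congr rfl fun z _ => by ring
        have h9 := mul_le_mul_of_nonneg_left (hgap x hx hxr) hK0
        have h10 := mul_le_mul_of_nonneg_left (hA x hx hxr) hsa
        have h11 : 0 ≤ s ^ a * (c x / f 0) := mul_nonneg hsa (div_nonneg (hc0 x hx).le hf0.le)
        have h12 : K * (f x - c x) = A * s ^ a * f x + s ^ a * (f x / f 0) -
            A * s ^ a * c x - s ^ a * (c x / f 0) := by
          rw [hK]
          ring
        rw [h8] at h7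
        rw [h12] at h9
        have h13 : s ^ a * (S * A₁ + f x / f 0) = S * A₁ * s ^ a + s ^ a * (f x / f 0) := by ring
        have h14 : s ^ a * (A * c x) = A * s ^ a * c x := by ring
        rw [h13, h14] at h10
        linarith
      · have hx1 : 1 < x := by omega
        rw [if_neg hxr, TailM.sdiff_far hx1, TailM.p_zero C hx1, zero_mul, zero_mul, ite_self,
          zero_add]
        have h2 : ∀ z ∈ Finset.Icc (x - 1) (x + 1), C.p x z * Real.exp (v z) *
            (∑ n ∈ range N, Kv C v n z * (1 - Real.exp (-(s * n))) +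
              (1 - Real.exp (-s)) * ∑ n ∈ range N, Kv C v n z * Real.exp (-(s * n))) ≤
            A * s ^ a * (C.p x z * Real.exp (v z) * f z) + S * (C.p x z *
              ((if z = (r : ℤ) then 0 else Ld (AZ.ctr C r) s (z - r)) +
                (1 - Real.exp (-s)) *
                  (if z = (r : ℤ) then 1 else Lq (AZ.ctr C r) s (z - r)))) := by
          intro z hz
          rw [Finset.mem_Icc] at hz
          have h3 := ih z (by omega)
          set D : ℝ := (if z = (r : ℤ) then 0 else Ld (AZ.ctr C r) s (z - r)) with hD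
          set Q : ℝ := (if z = (r : ℤ) then 1 else Lq (AZ.ctr C r) s (z - r)) with hQ
          have hD0 : 0 ≤ D := by
            rw [hD]
            split_ifs
            · exact le_rfl
            · exact ld_nonneg _ _ hs.le
          have hQ0 : 0 ≤ Q := by
            rw [hQ]
            split_ifs
            · exact zero_le_one
            · exact lq_nonneg _ _ _
          have h4 : (if z ≤ (r : ℤ) then 0 else S * Ld (AZ.ctr C r) s (z - r)) = S * D := by
            rw [hD]
            by_cases h : z = (r : ℤ)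
            · rw [if_pos h.le, if_pos h, mul_zero]
            · rw [if_neg h, if_neg (by omega)]
          rw [h4] at h3
          have h5 : ∑ n ∈ range N, Kv C v n z * Real.exp (-(s * n)) ≤ S * Q := by
            rw [hQ]
            by_cases h : z = (r : ℤ)
            · rw [if_pos h, mul_one, h]
              exact (TailM.disc_le C v hs.le N _).trans (hS N)
            · rw [if_neg h]
              exact far_q C v hr1 hvr hS hs.le N (by omega)
          have h6 := mul_le_mul_of_nonneg_left h5 hE0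
          have hpe : 0 ≤ C.p x z * Real.exp (v z) := mul_nonneg (C.nonneg _ _) (Real.exp_pos _).le
          have h7 : C.p x z * Real.exp (v z) *
              (∑ n ∈ range N, Kv C v n z * (1 - Real.exp (-(s * n))) +
                (1 - Real.exp (-s)) * ∑ n ∈ range N, Kv C v n z * Real.exp (-(s * n))) ≤
              C.p x z * Real.exp (v z) * (A * s ^ a * f z + S * (D + (1 - Real.exp (-s)) * Q)) := by
            refine mul_le_mul_of_nonneg_left ?_ hpe
            have : S * (D + (1 - Real.exp (-s)) * Q) =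
                S * D + (1 - Real.exp (-s)) * (S * Q) := by ring
            rw [this]
            linarith
          have h8 : C.p x z * Real.exp (v z) ≤ C.p x z :=
            mul_le_of_le_one_right (C.nonneg _ _) (Real.exp_le_one_iff.2 (hvr z (by omega)))
          have h9 : 0 ≤ S * (D + (1 - Real.exp (-s)) * Q) :=
            mul_nonneg hS0 (add_nonneg hD0 (mul_nonneg hE0 hQ0))
          have h10 := mul_le_mul_of_nonneg_right h8 h9
          rw [mul_add] at h7
          have h11 : C.p x z * (S * (D + (1 - Real.exp (-s)) * Q)) =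
              S * (C.p x z * (D + (1 - Real.exp (-s)) * Q)) := by ring
          have h12 : C.p x z * Real.exp (v z) * (A * s ^ a * f z) =
              A * s ^ a * (C.p x z * Real.exp (v z) * f z) := by ring
          linarith
        refine (Finset.sum_le_sum h2).trans ?_
        rw [Finset.sum_add_distrib, ← Finset.mul_sum, ← Finset.mul_sum,
          ← TailM.ld_far C r x hs.le]
        have := mul_le_mul_of_nonneg_left (hsum x (by omega)) hAs
        linarith
  refine ⟨A * f 1, mul_nonneg hA0 (hf 1 (by omega)).le, fun s hs hs1 N => ?_⟩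
  have h := main s hs hs1 N 1 le_rfl
  rw [if_pos (by omega), add_zero] at h
  refine h.trans (le_of_eq ?_)
  ring

namespace TailM

theorem kv_add (C : Chain) (u : ℤ → ℝ) (c : ℝ) : ∀ (n : ℕ) (x : ℤ),
    Kv C (fun z => u z + c) n x = Real.exp (n * c) * Kv C u n x
  | 0, x => by simp only [AZ.Kv_zero, mul_zero]
  | n + 1, x => by
    rw [AZ.Kv_succ, AZ.Kv_succ, mul_add, Finset.mul_sum]
    congr 1
    · by_cases hn : n = 0
      · subst hn
        simp only [if_true]
        rw [Real.exp_add]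
        simp only [zero_add, Nat.cast_one, one_mul]
        ring
      · rw [if_neg hn, if_neg hn, mul_zero]
    · refine Finset.sum_congr rfl fun z _ => ?_
      rw [kv_add C u c n z]
      have : Real.exp (((n + 1 : ℕ) : ℝ) * c) = Real.exp c * Real.exp (n * c) := by
        rw [← Real.exp_add]
        congr 1
        push_cast
        ring
      rw [this, Real.exp_add]
      ring

end TailM

/-- `Kv v n = exp (-ε n) Kv (v + ε) n` (`Kv_add_const`) and
`exp (-ε n) (1 - exp (-s n)) ≤ exp (-ε n) s n ≤ s / ε` -/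
theorem exp_tail (C : Chain) (v : ℤ → ℝ) (x : ℤ) {B ε : ℝ} (hε : 0 < ε)
    (hB : ∀ N : ℕ, ∑ n ∈ range N, Kv C (fun z => v z + ε) n x ≤ B) {a : ℝ} (ha1 : a ≤ 1) :
    ∃ A : ℝ, 0 ≤ A ∧ ∀ s : ℝ, 0 < s → s ≤ 1 → ∀ N : ℕ,
      ∑ n ∈ range N, Kv C v n x * (1 - Real.exp (-(s * n))) ≤ A * s ^ a := by
  have hB0 : 0 ≤ B := by
    have h := hB 0
    rwa [Finset.range_zero, Finset.sum_empty] at h
  refine ⟨B / ε, div_nonneg hB0 hε.le, fun s hs hs1 N => ?_⟩
  have hssa : s ≤ s ^ a := by
    have := Real.rpow_le_rpow_of_exponent_ge hs hs1 ha1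
    rwa [Real.rpow_one] at this
  have h1 : ∀ n ∈ range N, Kv C v n x * (1 - Real.exp (-(s * n))) ≤
      s / ε * Kv C (fun z => v z + ε) n x := by
    intro n _
    rw [TailM.kv_add, ← mul_assoc, mul_comm (Kv C v n x)]
    refine mul_le_mul_of_nonneg_right ?_ (AZ.Kv_nonneg C v n x)
    have h2 := Real.add_one_le_exp (-(s * (n : ℝ)))
    have h3 := Real.add_one_le_exp ((n : ℝ) * ε)
    have h4 : s / ε * ((n : ℝ) * ε) = s * n := by field_simp
    have h5 : 0 ≤ s / ε := div_nonneg hs.le hε.le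
    have h6 := mul_le_mul_of_nonneg_left h3 h5
    have h7 : s / ε * ((n : ℝ) * ε + 1) = s * n + s / ε := by rw [mul_add, h4, mul_one]
    linarith
  have h2 := Finset.sum_le_sum h1
  rw [← Finset.mul_sum] at h2
  have h3 := mul_le_mul_of_nonneg_left (hB N) (div_nonneg hs.le hε.le)
  have h4 : s / ε * B ≤ B / ε * s ^ a := by
    have h5 := mul_le_mul_of_nonneg_left hssa (div_nonneg hB0 hε.le)
    have h6 : s / ε * B = B / ε * s := by ring
    rw [h6]
    exact h5
  linarith

end

end Pool.Agent.IG
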