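import Pool.Agent.Lib.MP_daa227_pr_IG.GFin
import Pool.Agent.Lib.MP_daa227_pr_IG.TailM

/-!
# MP_daa227_pr, order: the annealed excursions at the critical point have a polynomial tail
-/

namespace Pool.Agent.IG

open MeasureTheory ProbabilityTheory Finset Filter Topology
open MP_daa227_pr (Chain Zk Zf Gk Gf KU K0 Ren shift seqLaw ExpMom DepOn Good GoodW mom)
open Pool.Agent.AZ (Mod Kv lmg)
open Pool.Agent.IOrd (Sys aS cv)

noncomputable section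

namespace GTail

theorem step_exp {s : ℝ} (hs : 0 ≤ s) (n : ℕ) :
    1 - Real.exp (-(s * ((n + 1 : ℕ) : ℝ))) ≤ (1 - Real.exp (-(s * n))) + s := by
  have h1 : Real.exp (-(s * ((n + 1 : ℕ) : ℝ))) = Real.exp (-(s * n)) * Real.exp (-s) := by
    rw [← Real.exp_add]
    congr 1
    push_cast
    ring
  have h2 : 1 - s ≤ Real.exp (-s) := by
    have := Real.add_one_le_exp (-s)
    linarith
  have h3 : Real.exp (-(s * n)) ≤ 1 := by
    rw [Real.exp_le_one_iff]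
    have : 0 ≤ s * (n : ℝ) := mul_nonneg hs (Nat.cast_nonneg n)
    linarith
  have h4 : 0 ≤ Real.exp (-(s * n)) := (Real.exp_pos _).le
  rw [h1]
  have h5 : Real.exp (-(s * n)) * (1 - s) ≤ Real.exp (-(s * n)) * Real.exp (-s) :=
    mul_le_mul_of_nonneg_left h2 h4
  have h6 : Real.exp (-(s * n)) * s ≤ 1 * s := mul_le_mul_of_nonneg_right h3 hs
  linarith

/-- bounds of the two sides -/
theorem es_le (M : Mod) {hc : ℝ} (hg : ∀ N : ℕ, ∑ n ∈ range N, M.g hc n ≤ 1) :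
    (∀ N : ℕ, ∑ n ∈ range N, (AZ.Es M.C (M.v hc) 1 n + AZ.Es M.C (M.v hc) (-1) n) ≤ 1) ∧
    (∀ N : ℕ, ∑ n ∈ range N, AZ.Es M.C (M.v hc) 1 n ≤ 1) ∧
    ∀ N : ℕ, ∑ n ∈ range N, AZ.Es M.C (M.v hc) (-1) n ≤ 1 := by
  have hsum : ∀ N : ℕ, ∑ n ∈ range N,
      (AZ.Es M.C (M.v hc) 1 n + AZ.Es M.C (M.v hc) (-1) n) ≤ 1 := fun N => by
    rw [AZ.Upper.sum_split]
    exact hg _
  refine ⟨hsum, fun N => ?_, fun N => ?_⟩
  · refine le_trans (Finset.sum_le_sum fun n _ => ?_) (hsum N)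
    exact le_add_of_nonneg_right (AZ.Es_nonneg _ _ _ _)
  · refine le_trans (Finset.sum_le_sum fun n _ => ?_) (hsum N)
    exact le_add_of_nonneg_left (AZ.Es_nonneg _ _ _ _)

end GTail

/-- `AZ.Kv_split`: `g (n + 1) = Es 1 n + Es (-1) n`, and
`1 - exp (-s (n+1)) ≤ (1 - exp (-s n)) + s`, `s ≤ s ^ a`. Right: `one_tail` for `v hc`
(`M.far_pos hc0` gives `v hc z ≤ 0` far away; bounded sums: `AZ.Upper.sum_split`,
`AZ.Upper.kv_bound`). Left: `one_tail` for the reflected chain if `ℓ = 0` (`M.far_aux`,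
`AZ.Kv_cneg`), `exp_tail` if `ℓ > 0`. -/
theorem g_tail (M : Mod) {hc : ℝ} (hc0 : 0 < hc)
    (hg : ∀ N : ℕ, ∑ n ∈ range N, M.g hc n ≤ 1) (hdec : 0 < M.ℓ → LDec M hc) {a : ℝ} (ha : 0 < a)
    (ha1 : a ≤ 1) (hF : FTail M.C a) (hF' : M.ℓ ≤ 0 → FTail (AZ.cneg M.C) a) :
    ∃ A : ℝ, 0 ≤ A ∧ ∀ s : ℝ, 0 < s → s ≤ 1 → ∀ N : ℕ,
      ∑ n ∈ range N, M.g hc n * (1 - Real.exp (-(s * n))) ≤ A * s ^ a := by
  obtain ⟨hsum, hs1, hs2⟩ := GTail.es_le M hg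
  have hp1 : 0 < M.C.p 0 1 := by
    have := M.C.up 0
    rwa [zero_add] at this
  have hp2 : 0 < M.C.p 0 (-1) := by
    have := M.C.down 0
    rwa [zero_sub] at this
  -- right
  have hR : ∃ A : ℝ, 0 ≤ A ∧ ∀ s : ℝ, 0 < s → s ≤ 1 → ∀ N : ℕ,
      ∑ n ∈ range N, Kv M.C (M.v hc) n 1 * (1 - Real.exp (-(s * n))) ≤ A * s ^ a := by
    obtain ⟨ε₁, hε₁, R, hR⟩ := M.far_pos hc0
    refine one_tail M.C (M.v hc) (b := R) (fun z hz => ?_)
      (AZ.Upper.kv_bound M.C (M.v hc) 1 hp1 hs1) ha ha1 hF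
    have h1 := hR z hz
    have h2 := mul_nonneg hε₁.le (M.φ_nonneg z)
    linarith
  -- left
  have hL : ∃ A : ℝ, 0 ≤ A ∧ ∀ s : ℝ, 0 < s → s ≤ 1 → ∀ N : ℕ,
      ∑ n ∈ range N, Kv M.C (M.v hc) n (-1) * (1 - Real.exp (-(s * n))) ≤ A * s ^ a := by
    have hℓ0 : 0 ≤ M.ℓ := ge_of_tendsto' M.φ_bot M.φ_nonneg
    rcases hℓ0.eq_or_lt with hℓ | hℓ
    · obtain ⟨ε₁, hε, t, ht, hz⟩ := M.far_aux hc0
      have h1 := M.φ_bot
      rw [← hℓ] at h1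
      obtain ⟨R, hR⟩ := eventually_atBot.1 (h1.eventually_lt_const ht)
      have hkv : ∀ n : ℕ, Kv (AZ.cneg M.C) (fun z => M.v hc (-z)) n 1 =
          Kv M.C (M.v hc) n (-1) := fun n => AZ.Kv_cneg M.C (M.v hc) n 1
      have h2 := one_tail (AZ.cneg M.C) (fun z => M.v hc (-z)) (b := -R)
        (fun z hzR => by
          have h3 := hz (-z) (hR (-z) (by omega)).le
          have h4 := mul_nonneg hε.le (M.φ_nonneg (-z))
          show M.v hc (-z) ≤ 0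
          linarith)
        (B := (M.C.p 0 (-1) * Real.exp (M.v hc (-1)))⁻¹)
        (fun N => by
          simp only [hkv]
          exact AZ.Upper.kv_bound M.C (M.v hc) (-1) hp2 hs2 N)
        ha ha1 (hF' hℓ.symm.le)
      simpa only [hkv] using h2
    · obtain ⟨ε, hε, B, hB⟩ := hdec hℓ
      exact exp_tail M.C (M.v hc) (-1) hε hB ha1
  obtain ⟨A₁, hA₁, hR⟩ := hR
  obtain ⟨A₂, hA₂, hL⟩ := hL
  set c₁ := M.C.p 0 1 * Real.exp (M.v hc 1) with hc₁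
  set c₂ := M.C.p 0 (-1) * Real.exp (M.v hc (-1)) with hc₂
  have hc₁0 : 0 ≤ c₁ := mul_nonneg (M.C.nonneg _ _) (Real.exp_pos _).le
  have hc₂0 : 0 ≤ c₂ := mul_nonneg (M.C.nonneg _ _) (Real.exp_pos _).le
  refine ⟨c₁ * A₁ + c₂ * A₂ + 1, by positivity, fun s hs hs1' N => ?_⟩
  have hsa : s ≤ s ^ a := by
    have := Real.rpow_le_rpow_of_exponent_ge hs hs1' ha1
    rwa [Real.rpow_one] at this
  have hgn : ∀ n, 0 ≤ M.g hc n := fun n => AZ.Kv_nonneg _ _ _ _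
  have hexp : ∀ n : ℕ, 0 ≤ 1 - Real.exp (-(s * (n : ℝ))) := fun n => by
    have : Real.exp (-(s * (n : ℝ))) ≤ 1 := by
      rw [Real.exp_le_one_iff]
      have : 0 ≤ s * (n : ℝ) := mul_nonneg hs.le (Nat.cast_nonneg n)
      linarith
    linarith
  have h1 : ∑ n ∈ range N, M.g hc n * (1 - Real.exp (-(s * n))) ≤
      ∑ n ∈ range (N + 1), M.g hc n * (1 - Real.exp (-(s * n))) := by
    rw [Finset.sum_range_succ]
    exact le_add_of_nonneg_right (mul_nonneg (hgn N) (hexp N))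
  have h0 : M.g hc 0 = 0 := rfl
  have h2 : ∑ n ∈ range (N + 1), M.g hc n * (1 - Real.exp (-(s * n))) =
      ∑ n ∈ range N, (AZ.Es M.C (M.v hc) 1 n + AZ.Es M.C (M.v hc) (-1) n) *
        (1 - Real.exp (-(s * ((n + 1 : ℕ) : ℝ)))) := by
    rw [Finset.sum_range_succ', h0, zero_mul, add_zero]
    refine Finset.sum_congr rfl fun n _ => ?_
    have h3 : M.g hc (n + 1) = AZ.Es M.C (M.v hc) 1 n + AZ.Es M.C (M.v hc) (-1) n :=
      AZ.Kv_split M.C M.hnl (M.v hc) n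
    rw [h3]
  have h3 : ∑ n ∈ range N, (AZ.Es M.C (M.v hc) 1 n + AZ.Es M.C (M.v hc) (-1) n) *
        (1 - Real.exp (-(s * ((n + 1 : ℕ) : ℝ)))) ≤
      ∑ n ∈ range N, (AZ.Es M.C (M.v hc) 1 n + AZ.Es M.C (M.v hc) (-1) n) *
        ((1 - Real.exp (-(s * n))) + s) := by
    refine Finset.sum_le_sum fun n _ => ?_
    exact mul_le_mul_of_nonneg_left (GTail.step_exp hs.le n)
      (add_nonneg (AZ.Es_nonneg _ _ _ _) (AZ.Es_nonneg _ _ _ _))
  have h4 : ∑ n ∈ range N, (AZ.Es M.C (M.v hc) 1 n + AZ.Es M.C (M.v hc) (-1) n) *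
        ((1 - Real.exp (-(s * n))) + s) =
      c₁ * (∑ n ∈ range N, Kv M.C (M.v hc) n 1 * (1 - Real.exp (-(s * n)))) +
      c₂ * (∑ n ∈ range N, Kv M.C (M.v hc) n (-1) * (1 - Real.exp (-(s * n)))) +
      s * ∑ n ∈ range N, (AZ.Es M.C (M.v hc) 1 n + AZ.Es M.C (M.v hc) (-1) n) := by
    rw [Finset.mul_sum, Finset.mul_sum, Finset.mul_sum, ← Finset.sum_add_distrib,
      ← Finset.sum_add_distrib]
    refine Finset.sum_congr rfl fun n _ => ?_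
    have e1 : AZ.Es M.C (M.v hc) 1 n = c₁ * Kv M.C (M.v hc) n 1 := rfl
    have e2 : AZ.Es M.C (M.v hc) (-1) n = c₂ * Kv M.C (M.v hc) n (-1) := rfl
    rw [e1, e2]
    ring
  have h5 := mul_le_mul_of_nonneg_left (hR s hs hs1' N) hc₁0
  have h6 := mul_le_mul_of_nonneg_left (hL s hs hs1' N) hc₂0
  have h7 := mul_le_mul_of_nonneg_left (hsum N) hs.le
  calc ∑ n ∈ range N, M.g hc n * (1 - Real.exp (-(s * n))) ≤ _ := h1
    _ = _ := h2
    _ ≤ _ := h3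
    _ = _ := h4
    _ ≤ c₁ * (A₁ * s ^ a) + c₂ * (A₂ * s ^ a) + s ^ a := by linarith
    _ = (c₁ * A₁ + c₂ * A₂ + 1) * s ^ a := by ring

end

end Pool.Agent.IG
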