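import Pool.Agent.Lib.MP_daa227_pr_IG.ESk
import Pool.Agent.Lib.MP_daa227_pr_AZ.MomId
import Pool.Agent.Lib.MP_daa227_pr.Positive
import Pool.Agent.Lib.MP_daa227_pr.Crit

/-!
# MP_daa227_pr, general potentials: basic properties of the fractional moments
-/

namespace Pool.Agent.IG

open MeasureTheory ProbabilityTheory Finset Filter Topology
open MP_daa227_pr (Chain Zk Zf Gk Gf KU K0 Ren shift seqLaw ExpMom DepOn Good GoodW mom)
open Pool.Agent.AZ (Mod Kv lmg)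
open Pool.Agent.IOrd (Sys aS cv)

noncomputable section

namespace MomB

theorem toReal_mono {a b : ENNReal} (hb : b ≠ ⊤) (h : a ≤ b) : a.toReal ≤ b.toReal :=
  (ENNReal.toReal_le_toReal (ne_top_of_le_ne_top hb h) hb).2 h

theorem es_top {K : ℝ} {g : ℝ → ℝ} (h : ES K g) {a b : ℝ} (hab : a ≤ b) : g a ≤ g b :=
  ES.mono h hab

end MomB

/-- `AZ.mom_one_Zk` and `MP_daa227_pr.mom_le_rpow`. -/
theorem zk_ne_top (M : Mod) {s : ℝ} (hs0 : 0 < s) (hs1 : s ≤ 1) (h : ℝ) (n : ℕ) (x y : ℤ) :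
    mom M.μ s (fun ω => Zk M.C (M.W h) n ω x y) ≠ ⊤ := by
  have hg := M.good_Zk h n x y
  have h1 := MP_daa227_pr.mom_le_rpow (μ := M.μ) hs0 hs1 hg.meas hg.nonneg
  rw [Mod.mom_one_Zk] at h1
  exact ne_top_of_le_ne_top (ENNReal.rpow_ne_top_of_nonneg hs0.le ENNReal.ofReal_ne_top) h1

/-- `Gk ≤ Zk` (`MP_daa227_pr.Model.Gk_le_Zk` or a direct induction). -/
theorem gk_ne_top (M : Mod) {s : ℝ} (hs0 : 0 < s) (hs1 : s ≤ 1) (h : ℝ) (B : Finset ℤ) (n : ℕ)
    (x y : ℤ) : mom M.μ s (fun ω => Gk M.C (M.W h) B n ω x y) ≠ ⊤ := by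
  refine ne_top_of_le_ne_top (zk_ne_top M hs0 hs1 h n x y) ?_
  exact MP_daa227_pr.mom_mono hs0.le fun ω =>
    (MP_daa227_pr.Model.Gk_le_Zk (fun a z => M.W_pos h a z) B n ω x y).2

theorem mZ_nonneg (M : Mod) (s h : ℝ) (n : ℕ) (x y : ℤ) : 0 ≤ mZ M s h n x y :=
  ENNReal.toReal_nonneg

theorem mG_nonneg (M : Mod) (R : ℕ) (s h : ℝ) (n : ℕ) (x y : ℤ) : 0 ≤ mG M R s h n x y :=
  ENNReal.toReal_nonneg

/-- `ES.mono` for `es_Zk` -/
theorem mZ_anti (M : Mod) {s : ℝ} (hs0 : 0 < s) (hs1 : s ≤ 1) {h h' : ℝ} (hh : h ≤ h') (n : ℕ)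
    (x y : ℤ) : mZ M s h' n x y ≤ mZ M s h n x y := by
  unfold mZ
  refine MomB.toReal_mono (zk_ne_top M hs0 hs1 h n x y) ?_
  refine MP_daa227_pr.mom_mono hs0.le fun ω => ?_
  have h1 := MomB.es_top (es_Zk M h' n ω x y) (sub_nonneg.2 hh)
  simp only [sub_zero, sub_sub_cancel] at h1
  exact h1

/-- `ES.mono` for `es_Gk` -/
theorem mG_anti (M : Mod) {s : ℝ} (hs0 : 0 < s) (hs1 : s ≤ 1) {h h' : ℝ} (hh : h ≤ h') (R n : ℕ)
    (x y : ℤ) : mG M R s h' n x y ≤ mG M R s h n x y := by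
  unfold mG
  refine MomB.toReal_mono (gk_ne_top M hs0 hs1 h _ n x y) ?_
  refine MP_daa227_pr.mom_mono hs0.le fun ω => ?_
  have h1 := MomB.es_top (es_Gk M h' (box R) n ω x y) (sub_nonneg.2 hh)
  simp only [sub_zero, sub_sub_cancel] at h1
  exact h1

/-- `MP_daa227_pr.Zk_mul_le`, `mom_mul_shift` -/
theorem mZ_mul (M : Mod) {s : ℝ} (hs0 : 0 < s) (hs1 : s ≤ 1) (h : ℝ) (m n : ℕ) (x y z : ℤ) :
    mZ M s h m x y * mZ M s h n y z ≤ mZ M s h (m + n) x z := by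
  unfold mZ
  rw [← ENNReal.toReal_mul]
  refine MomB.toReal_mono (zk_ne_top M hs0 hs1 h (m + n) x z) ?_
  have hF := M.good_Zk h m x y
  have hG := M.good_Zk h n y z
  rw [← MP_daa227_pr.mom_mul_shift (μ := M.μ) hs0.le hF.meas hG.meas hF.depOn hF.nonneg]
  exact MP_daa227_pr.mom_mono hs0.le fun ω =>
    MP_daa227_pr.Zk_mul_le M.C (M.W h) (fun a z => (M.W_pos h a z).le) m n ω x y z

theorem mZ_aS (M : Mod) (s hc d : ℝ) (n : ℕ) :
    mZ M s (hc - d / M.Φ) (2 * n) 0 0 = aS M.μ (Zg M hc) s d n := rfl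

/-- The chain has period two: induction on `n`, `M.hnl`. -/
theorem zk_parity (M : Mod) (h : ℝ) : ∀ (n : ℕ) (ω : ℕ → ℝ) (x y : ℤ), ¬ Even ((n : ℤ) + x - y) →
    Zk M.C (M.W h) n ω x y = 0 := by
  intro n
  induction n with
  | zero =>
    intro ω x y hp
    simp only [Zk]
    rw [if_neg]
    intro hxy
    apply hp
    subst hxy
    simp
  | succ n ih =>
    intro ω x y hp
    simp only [Zk]
    refine Finset.sum_eq_zero fun z hz => ?_
    rw [Finset.mem_Icc] at hz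
    by_cases hzx : z = x
    · subst hzx
      rw [M.hnl]
      ring
    · rw [ih _ _ _ ?_, mul_zero]
      intro he
      apply hp
      have hz2 : z = x + 1 ∨ z = x - 1 := by omega
      obtain ⟨k, hk⟩ := he
      rcases hz2 with h1 | h1
      · refine ⟨k, ?_⟩
        push_cast
        omega
      · refine ⟨k + 1, ?_⟩
        push_cast
        omega

theorem mZ_parity (M : Mod) {s : ℝ} (hs0 : 0 < s) (h : ℝ) (n : ℕ) (x y : ℤ)
    (hp : ¬ Even ((n : ℤ) + x - y)) : mZ M s h n x y = 0 := by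
  unfold mZ
  rw [MP_daa227_pr.mom_congr (fun ω => zk_parity M h n ω x y hp), MP_daa227_pr.mom_zero hs0]
  simp

/-- the point to point partition function between `0` and `v` in `|v|` steps is positive:
`MP_daa227_pr.Zk_up_pos`, `Zk_down_pos` (Lib/MP_daa227_pr/Crit.lean); a positive measurable function
has a positive moment -/
theorem mZ_pos (M : Mod) {s : ℝ} (hs0 : 0 < s) (hs1 : s ≤ 1) (h : ℝ) (x y : ℤ) :
    0 < mZ M s h (x - y).natAbs x y := by
  have hW : ∀ a z, 0 < M.W h a z := fun a z => M.W_pos h a z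
  have hpos : ∀ ω, 0 < Zk M.C (M.W h) (x - y).natAbs ω x y := by
    intro ω
    rcases le_total x y with hxy | hxy
    · have h1 := MP_daa227_pr.Zk_up_pos (C := M.C) hW ω x (x - y).natAbs
      rw [show x + ((x - y).natAbs : ℤ) = y by omega] at h1
      exact h1
    · have h1 := MP_daa227_pr.Zk_down_pos (C := M.C) hW ω x (x - y).natAbs
      rw [show x - ((x - y).natAbs : ℤ) = y by omega] at h1
      exact h1
  unfold mZ
  refine ENNReal.toReal_pos ?_ (zk_ne_top M hs0 hs1 h _ x y)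
  intro h0
  have hm : Measurable fun ω => ENNReal.ofReal (Zk M.C (M.W h) (x - y).natAbs ω x y) ^ s :=
    MP_daa227_pr.measurable_momf (M.good_Zk h _ x y).meas
  have h1 := (lintegral_eq_zero_iff hm).1 h0
  obtain ⟨ω, hω⟩ := h1.exists
  have h2 : ENNReal.ofReal (Zk M.C (M.W h) (x - y).natAbs ω x y) ^ s = 0 := hω
  rw [ENNReal.rpow_eq_zero_iff_of_pos hs0, ENNReal.ofReal_eq_zero] at h2
  exact absurd (hpos ω) (not_lt.2 h2)

end

end Pool.Agent.IG
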