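import Pool.Agent.Lib.MP_daa227_pr_IG.Defs
import Pool.Agent.Lib.MP_daa227_pr_IG.MomB
import Pool.Agent.Lib.MP_daa227_pr_AZ.MomId

/-!
# MP_daa227_pr, general potentials: a moment of order larger than one and tilted excursions
-/

namespace Pool.Agent.IG

open MeasureTheory ProbabilityTheory Finset Filter Topology
open MP_daa227_pr (Chain Zk Zf Gk Gf KU K0 Ren shift seqLaw ExpMom DepOn Good GoodW mom)
open Pool.Agent.AZ (Mod Kv lmg)
open Pool.Agent.IOrd (Sys aS cv)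

noncomputable section

/-- Hoelder (`ENNReal.lintegral_mul_le_Lp_mul_Lq`) and `AZ.A3.exp_sum` with `t = q lam`:
`E [exp (lam ∑ ω) F] ≤ (E F ^ p) ^ (1 / p) (E exp (q lam ∑ ω)) ^ (1 / q)`. -/
theorem mom_hold {μ : Measure ℝ} [IsProbabilityMeasure μ] (hμ : ExpMom μ) {p q : ℝ}
    (hpq : p.HolderConjugate q) (lam : ℝ) (n : ℕ) {F : (ℕ → ℝ) → ℝ} (hF : Measurable F)
    (hF0 : ∀ ω, 0 ≤ F ω) :
    mom μ 1 (fun ω => Real.exp (lam * ∑ i ∈ Finset.range n, ω i) * F ω) ≤
      mom μ p F ^ (1 / p) * ENNReal.ofReal (Real.exp (n * (lmg μ (q * lam) / q))) := by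
  let g1 : (ℕ → ℝ) → ENNReal := fun ω =>
    ENNReal.ofReal (Real.exp (lam * ∑ i ∈ Finset.range n, ω i))
  let f1 : (ℕ → ℝ) → ENNReal := fun ω => ENNReal.ofReal (F ω)
  have hg1 : Measurable g1 := by
    apply Measurable.ennreal_ofReal
    fun_prop
  have hf1 : Measurable f1 := hF.ennreal_ofReal
  have hH := ENNReal.lintegral_mul_le_Lp_mul_Lq (seqLaw μ) hpq hf1.aemeasurable hg1.aemeasurable
  have hL : mom μ 1 (fun ω => Real.exp (lam * ∑ i ∈ Finset.range n, ω i) * F ω) =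
      ∫⁻ ω, (f1 * g1) ω ∂seqLaw μ := by
    rw [MP_daa227_pr.mom_one]
    refine lintegral_congr fun ω => ?_
    change _ = f1 ω * g1 ω
    simp only [f1, g1]
    rw [mul_comm, ENNReal.ofReal_mul (hF0 ω)]
  have hq0 : 0 < q := hpq.symm.pos
  have hg2 : ∀ ω, g1 ω ^ q = ENNReal.ofReal (Real.exp (q * lam * ∑ i ∈ Finset.range n, ω i)) := by
    intro ω
    simp only [g1]
    rw [ENNReal.ofReal_rpow_of_pos (Real.exp_pos _), ← Real.exp_mul]
    congr 2
    ring
  rw [hL]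
  refine hH.trans (le_of_eq ?_)
  simp_rw [hg2]
  rw [AZ.A3.exp_sum hμ]
  congr 1
  rw [ENNReal.ofReal_rpow_of_pos (Real.exp_pos _), ← Real.exp_mul]
  congr 2
  ring

/-- `M.G h n ≤ M.Z h n` (`AZ.G_mul_Z_le` with `n = 0`, or trivially for `n = 0`), `M.Z h n = 0` for
odd `n` or use `Kv = 0` for odd `n`. `exp (lam ∑ ω) G` is the kernel with `s z = β φ z + lam`
(`AZ.A3.Gk_tilt` with `l = -lam`, `AZ.A3_W`), its mean is `Kv` with the exponents
`lmg (β φ z + lam) - h φ z` (`AZ.A3.mom_Gk`); `AZ.A3.Kv_add_const` (or the name in MomId) puts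
`lmg (q lam) / q` into the exponents. -/
theorem kv_bdd (M : Mod) {h p q K : ℝ} (hpq : p.HolderConjugate q) (hK : 0 ≤ K)
    (hb : ∀ n : ℕ, mom M.μ p (fun ω => M.Z h (2 * n) ω) ≤ ENNReal.ofReal K) (lam : ℝ) :
    ∀ n : ℕ, Kv M.C (fun z => lmg M.μ (M.β * M.φ z + lam) - h * M.φ z - lmg M.μ (q * lam) / q) n 0 ≤
      K ^ (1 / p) := by
  intro n
  have hp0 : 0 < p := hpq.pos
  rcases Nat.eq_zero_or_pos n with hn | hn
  · subst hn
    rw [AZ.Kv_zero]
    positivity
  have hZ : mom M.μ p (fun ω => M.Z h n ω) ≤ ENNReal.ofReal K := by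
    rcases Nat.even_or_odd n with he | ho
    · obtain ⟨m, hm⟩ := he
      have h2 : n = 2 * m := by omega
      rw [h2]
      exact hb m
    · have h0 : mom M.μ p (fun ω => M.Z h n ω) = mom M.μ p (fun _ => 0) := by
        refine MP_daa227_pr.mom_congr fun ω => ?_
        refine zk_parity M h n ω 0 0 ?_
        rw [add_zero, sub_zero, Int.not_even_iff_odd]
        exact_mod_cast ho
      rw [h0, MP_daa227_pr.mom_zero hp0]
      exact zero_le
  have hG : mom M.μ p (fun ω => M.G h n ω) ≤ ENNReal.ofReal K := by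
    refine le_trans (MP_daa227_pr.mom_mono hp0.le fun ω => ?_) hZ
    have h1 := M.G_mul_Z_le h (m := n) (n := 0) hn ω
    have h2 : M.Z h 0 (shift n ω) = 1 := by
      unfold Mod.Z
      rw [Zk]
      simp
    rw [h2, mul_one, add_zero] at h1
    exact h1
  set c : ℝ := lmg M.μ (q * lam) / q with hc
  have hs : ∀ z, |M.β * M.φ z - -lam| ≤ M.κ + |lam| := fun z => by
    have h1 := M.A3_abs z
    have h2 := abs_sub (M.β * M.φ z) (-lam)
    rw [abs_neg] at h2
    linarith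
  have hone := AZ.A3.mom_Gk (r := fun z => h * M.φ z) M.C M.exp_mom hs n 0
  have htilt : ∀ ω : ℕ → ℝ, Gk M.C (AZ.A3.Wg (fun z => M.β * M.φ z - -lam)
      (fun z => h * M.φ z)) {0} n ω 0 0 =
      Real.exp (lam * ∑ i ∈ Finset.range n, ω i) * M.G h n ω := by
    intro ω
    rw [AZ.A3.Gk_tilt M.C (fun z => M.β * M.φ z) (fun z => h * M.φ z) (-lam) n ω 0, neg_neg]
    unfold Mod.G
    rw [M.A3_W h]
  rw [MP_daa227_pr.mom_congr htilt] at hone
  have hH := mom_hold M.exp_mom hpq lam n (F := fun ω => M.G h n ω) (M.good_Gk h n 0 0).meas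
    (fun ω => M.G_nonneg h n ω)
  rw [hone, ← hc] at hH
  have h3 : ENNReal.ofReal (Kv M.C (fun z => lmg M.μ (M.β * M.φ z - -lam) - h * M.φ z) n 0) ≤
      ENNReal.ofReal (K ^ (1 / p) * Real.exp (n * c)) := by
    refine hH.trans ?_
    rw [ENNReal.ofReal_mul (by positivity), ← ENNReal.ofReal_rpow_of_nonneg hK (by positivity)]
    gcongr
  have h4 : Kv M.C (fun z => lmg M.μ (M.β * M.φ z - -lam) - h * M.φ z) n 0 ≤
      K ^ (1 / p) * Real.exp (n * c) := by
    rwa [ENNReal.ofReal_le_ofReal_iff (by positivity)] at h3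
  have h5 : (fun z => lmg M.μ (M.β * M.φ z + lam) - h * M.φ z - c) =
      fun z => (lmg M.μ (M.β * M.φ z - -lam) - h * M.φ z) + -c := by
    funext z
    rw [sub_neg_eq_add]
    ring
  rw [h5, AZ.A3.Kv_add_const M.C]
  calc Real.exp (n * -c) * Kv M.C (fun z => lmg M.μ (M.β * M.φ z - -lam) - h * M.φ z) n 0
      ≤ Real.exp (n * -c) * (K ^ (1 / p) * Real.exp (n * c)) :=
        mul_le_mul_of_nonneg_left h4 (Real.exp_pos _).le
    _ = K ^ (1 / p) * Real.exp (n * -c + n * c) := by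
        rw [Real.exp_add]
        ring
    _ = K ^ (1 / p) := by
        rw [show (n : ℝ) * -c + n * c = 0 by ring, Real.exp_zero, mul_one]

end

end Pool.Agent.IG
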