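import Pool.Agent.Lib.MP_daa227_pr_IG.LMod
import Pool.Agent.Lib.MP_daa227_pr_AZ.Lmg

/-!
# MP_daa227_pr, small inverse temperature: the interaction of two replicas
-/

namespace Pool.Agent.IG

open MeasureTheory ProbabilityTheory Finset Filter Topology
open MP_daa227_pr (Chain Zk Zf Gk Gf KU K0 Ren shift seqLaw ExpMom DepOn Good GoodW mom)
open Pool.Agent.AZ (Mod Kv lmg)
open Pool.Agent.IOrd (Sys aS cv)

noncomputable section

namespace LPsi

theorem abs_exp_sub_one (u : ℝ) : |Real.exp u - 1| ≤ |u| * Real.exp |u| := by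
  rcases le_total 0 u with h | h
  · rw [abs_of_nonneg h, abs_of_nonneg (by linarith [Real.one_le_exp h])]
    have h1 := Real.add_one_le_exp (-u)
    have h2 := Real.exp_pos u
    have h3 : Real.exp (-u) * Real.exp u = 1 := by rw [← Real.exp_add]; simp
    nlinarith
  · have h1 := Real.add_one_le_exp u
    have h2 : Real.exp u ≤ 1 := Real.exp_le_one_iff.2 h
    rw [abs_of_nonpos h, abs_of_nonpos (by linarith)]
    have h3 : 1 ≤ Real.exp (-u) := Real.one_le_exp (by linarith)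
    nlinarith

theorem prod_le {a b T x : ℝ} (ha : 0 ≤ a) (haT : a ≤ T) (hb : 0 ≤ b) (hbT : b ≤ T) :
    (Real.exp (a * x) - 1) * (Real.exp (b * x) - 1) ≤
      a * b * (x ^ 2 * Real.exp (2 * T * |x|)) := by
  have h1 := abs_exp_sub_one (a * x)
  have h2 := abs_exp_sub_one (b * x)
  rw [abs_mul, abs_of_nonneg ha] at h1
  rw [abs_mul, abs_of_nonneg hb] at h2
  have hx := abs_nonneg x
  have h3 : a * |x| * Real.exp (a * |x|) * (b * |x| * Real.exp (b * |x|)) =
      a * b * (x ^ 2 * Real.exp ((a + b) * |x|)) := by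
    rw [add_mul, Real.exp_add, ← sq_abs x]
    ring
  have h4 : Real.exp ((a + b) * |x|) ≤ Real.exp (2 * T * |x|) := by
    apply Real.exp_le_exp.2
    exact mul_le_mul_of_nonneg_right (by linarith) hx
  calc (Real.exp (a * x) - 1) * (Real.exp (b * x) - 1)
      ≤ |(Real.exp (a * x) - 1) * (Real.exp (b * x) - 1)| := le_abs_self _
    _ = |Real.exp (a * x) - 1| * |Real.exp (b * x) - 1| := abs_mul _ _
    _ ≤ a * |x| * Real.exp (a * |x|) * (b * |x| * Real.exp (b * |x|)) :=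
        mul_le_mul h1 h2 (abs_nonneg _) (by positivity)
    _ = a * b * (x ^ 2 * Real.exp ((a + b) * |x|)) := h3
    _ ≤ a * b * (x ^ 2 * Real.exp (2 * T * |x|)) :=
        mul_le_mul_of_nonneg_left (mul_le_mul_of_nonneg_left h4 (sq_nonneg x)) (by positivity)

end LPsi

/-- `lmg (a+b) - lmg a - lmg b = ∫_0^b (lmg' (a+s) - lmg' s) ds + (lmg 0 = 0)` is at most
`a b sup_{[0,2T]} lmg''`. (`lmg = cgf id`: `deriv_cgf`, `iteratedDeriv_two_cgf` in Mathlib; or prove
the inequality from `E e^((a+b)x) - E e^(ax) E e^(bx) = Cov(e^(ax), e^(bx))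
= 1/2 E (e^(ax) - e^(ay)) (e^(bx) - e^(by)) ≤ C a b` since `|e^(ax) - e^(ay)| ≤ a |x-y| e^(T(|x|+|y|))`,
and `E e^(ax) E e^(bx) ≥ 1`, `log (1 + t) ≤ t`.) -/
theorem psi_le {μ : Measure ℝ} [IsProbabilityMeasure μ] (hμ : ExpMom μ) (hmean : ∫ x, x ∂μ = 0)
    {T : ℝ} (hT : 0 ≤ T) : ∃ C : ℝ, 0 < C ∧ ∀ a b : ℝ, 0 ≤ a → a ≤ T → 0 ≤ b → b ≤ T →
      lmg μ (a + b) ≤ lmg μ a + lmg μ b + C * (a * b) := by
  have hμT : Integrable (fun x => x ^ 2 * Real.exp (2 * T * |x|)) μ := hμ.sq_abs (2 * T)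
  have hC0 : 0 ≤ ∫ x, x ^ 2 * Real.exp (2 * T * |x|) ∂μ := integral_nonneg fun x => by positivity
  refine ⟨(∫ x, x ^ 2 * Real.exp (2 * T * |x|) ∂μ) + 1, by linarith, ?_⟩
  intro a b ha haT hb hbT
  set K : ℝ := ∫ x, x ^ 2 * Real.exp (2 * T * |x|) ∂μ with hK
  have hA1 : 1 ≤ ∫ x, Real.exp (a * x) ∂μ := MP_daa227_pr.Dens.mgf_ge_one hμ hmean a
  have hB1 : 1 ≤ ∫ x, Real.exp (b * x) ∂μ := MP_daa227_pr.Dens.mgf_ge_one hμ hmean b
  set A : ℝ := ∫ x, Real.exp (a * x) ∂μ with hA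
  set B : ℝ := ∫ x, Real.exp (b * x) ∂μ with hB
  have hab0 : 0 ≤ a * b := mul_nonneg ha hb
  have h1 : ∫ x, (Real.exp (a * x) - 1) * (Real.exp (b * x) - 1) ∂μ ≤ a * b * K := by
    have hint : Integrable (fun x => (Real.exp (a * x) - 1) * (Real.exp (b * x) - 1)) μ := by
      have h2 : (fun x => (Real.exp (a * x) - 1) * (Real.exp (b * x) - 1)) =
          fun x => Real.exp ((a + b) * x) - Real.exp (a * x) - Real.exp (b * x) + 1 := by
        funext x
        rw [add_mul, Real.exp_add]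
        ring
      rw [h2]
      exact (((hμ (a + b)).sub (hμ a)).sub (hμ b)).add (integrable_const _)
    calc ∫ x, (Real.exp (a * x) - 1) * (Real.exp (b * x) - 1) ∂μ
        ≤ ∫ x, a * b * (x ^ 2 * Real.exp (2 * T * |x|)) ∂μ :=
          integral_mono hint (hμT.const_mul _) fun x => LPsi.prod_le ha haT hb hbT
      _ = a * b * K := integral_const_mul _ _
  have h2 : ∫ x, (Real.exp (a * x) - 1) * (Real.exp (b * x) - 1) ∂μ =
      (∫ x, Real.exp ((a + b) * x) ∂μ) - A - B + 1 := by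
    have h3 : (fun x => (Real.exp (a * x) - 1) * (Real.exp (b * x) - 1)) =
        fun x => Real.exp ((a + b) * x) - Real.exp (a * x) - Real.exp (b * x) + 1 := by
      funext x
      rw [add_mul, Real.exp_add]
      ring
    have i1 : Integrable (fun x => Real.exp ((a + b) * x) - Real.exp (a * x)) μ :=
      (hμ (a + b)).sub (hμ a)
    have i2 : Integrable (fun x => Real.exp ((a + b) * x) - Real.exp (a * x) -
        Real.exp (b * x)) μ := i1.sub (hμ b)
    rw [h3, integral_add i2 (integrable_const _), integral_sub i1 (hμ b),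
      integral_sub (hμ (a + b)) (hμ a), ← hA, ← hB]
    simp
  have h3 : ∫ x, Real.exp ((a + b) * x) ∂μ ≤ A * B * (1 + (K + 1) * (a * b)) := by
    have h4 : 0 ≤ (A - 1) * (B - 1) := mul_nonneg (by linarith) (by linarith)
    have h5 : 1 ≤ A * B := by nlinarith
    have h6 : (K + 1) * (a * b) ≤ A * B * ((K + 1) * (a * b)) := by
      have : 0 ≤ (K + 1) * (a * b) := by positivity
      nlinarith
    nlinarith
  have h7 : 0 ≤ (K + 1) * (a * b) := by positivity
  have hApos : 0 < A := by linarith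
  have hBpos : 0 < B := by linarith
  have h8 : Real.log (∫ x, Real.exp ((a + b) * x) ∂μ) ≤
      Real.log (A * B * (1 + (K + 1) * (a * b))) :=
    Real.log_le_log (integral_exp_pos (hμ (a + b))) h3
  rw [Real.log_mul (by positivity) (by positivity), Real.log_mul hApos.ne' hBpos.ne'] at h8
  have h9 := Real.log_le_sub_one_of_pos (show (0 : ℝ) < 1 + (K + 1) * (a * b) by positivity)
  unfold lmg
  rw [← hA, ← hB]
  linarith

/-- the left side is `exp (lmg (b (φ z + φ z')) - h (φ z + φ z'))`; `psi_le` with `T = Φ` and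
`e^x ≤ 1 + x e^x` -/
theorem ww_le (M : Mod) : ∃ C : ℝ, 0 < C ∧ ∀ (b : ℝ) (hb : 0 < b), b ≤ 1 → ∀ (h : ℝ) (z z' : ℤ),
    ∫ a, (withB M b hb).W h a z * (withB M b hb).W h a z' ∂M.μ ≤
      Real.exp ((withB M b hb).v h z + (withB M b hb).v h z') *
        (1 + C * b ^ 2 * (M.φ z * M.φ z')) := by
  obtain ⟨C, hC, hpsi⟩ := psi_le M.exp_mom M.mean M.Φ_pos.le
  refine ⟨C * Real.exp (C * M.Φ ^ 2), by positivity, ?_⟩
  intro b hb hb1 h z z'
  have hz := M.φ_nonneg z
  have hz' := M.φ_nonneg z'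
  have hzΦ := M.φ_le z
  have hzΦ' := M.φ_le z'
  have hΦ := M.Φ_pos
  have e1 : ∀ a : ℝ, (withB M b hb).W h a z * (withB M b hb).W h a z' =
      Real.exp ((b * M.φ z + b * M.φ z') * a) * Real.exp (-(h * (M.φ z + M.φ z'))) := by
    intro a
    change Real.exp ((b * a - h) * M.φ z) * Real.exp ((b * a - h) * M.φ z') = _
    rw [← Real.exp_add, ← Real.exp_add]
    congr 1
    ring
  have e2 : ∫ a, (withB M b hb).W h a z * (withB M b hb).W h a z' ∂M.μ =
      Real.exp (lmg M.μ (b * M.φ z + b * M.φ z')) * Real.exp (-(h * (M.φ z + M.φ z'))) := by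
    simp_rw [e1]
    rw [integral_mul_const, AZ.exp_lmg M.exp_mom]
  have e3 : Real.exp ((withB M b hb).v h z + (withB M b hb).v h z') =
      Real.exp (lmg M.μ (b * M.φ z) + lmg M.μ (b * M.φ z')) *
        Real.exp (-(h * (M.φ z + M.φ z'))) := by
    change Real.exp ((lmg M.μ (b * M.φ z) - h * M.φ z) + (lmg M.μ (b * M.φ z') - h * M.φ z')) = _
    rw [← Real.exp_add]
    congr 1
    ring
  have h1 := hpsi (b * M.φ z) (b * M.φ z') (by positivity) (by nlinarith) (by positivity)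
    (by nlinarith)
  set t : ℝ := C * (b * M.φ z * (b * M.φ z')) with ht
  have ht0 : 0 ≤ t := by positivity
  have hφφ : M.φ z * M.φ z' ≤ M.Φ ^ 2 := by nlinarith
  have hb2 : b ^ 2 ≤ 1 := by nlinarith
  have htΦ : t ≤ C * M.Φ ^ 2 := by
    have h2 : t = C * (b ^ 2 * (M.φ z * M.φ z')) := by rw [ht]; ring
    rw [h2]
    refine mul_le_mul_of_nonneg_left ?_ hC.le
    have h3 : 0 ≤ M.φ z * M.φ z' := by positivity
    nlinarith
  have h4 : Real.exp t ≤ 1 + C * Real.exp (C * M.Φ ^ 2) * b ^ 2 * (M.φ z * M.φ z') := by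
    have h5 := LPsi.abs_exp_sub_one t
    rw [abs_of_nonneg ht0] at h5
    have h6 := le_abs_self (Real.exp t - 1)
    have h7 : t * Real.exp t ≤ t * Real.exp (C * M.Φ ^ 2) :=
      mul_le_mul_of_nonneg_left (Real.exp_le_exp.2 htΦ) ht0
    have h8 : t * Real.exp (C * M.Φ ^ 2) =
        C * Real.exp (C * M.Φ ^ 2) * b ^ 2 * (M.φ z * M.φ z') := by rw [ht]; ring
    linarith
  rw [e2, e3]
  have h5 : Real.exp (lmg M.μ (b * M.φ z + b * M.φ z')) ≤
      Real.exp (lmg M.μ (b * M.φ z) + lmg M.μ (b * M.φ z')) *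
        (1 + C * Real.exp (C * M.Φ ^ 2) * b ^ 2 * (M.φ z * M.φ z')) := by
    calc Real.exp (lmg M.μ (b * M.φ z + b * M.φ z'))
        ≤ Real.exp (lmg M.μ (b * M.φ z) + lmg M.μ (b * M.φ z') + t) := Real.exp_le_exp.2 h1
      _ = Real.exp (lmg M.μ (b * M.φ z) + lmg M.μ (b * M.φ z')) * Real.exp t :=
          Real.exp_add _ _
      _ ≤ _ := mul_le_mul_of_nonneg_left h4 (Real.exp_pos _).le
  calc Real.exp (lmg M.μ (b * M.φ z + b * M.φ z')) * Real.exp (-(h * (M.φ z + M.φ z')))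
      ≤ Real.exp (lmg M.μ (b * M.φ z) + lmg M.μ (b * M.φ z')) *
        (1 + C * Real.exp (C * M.Φ ^ 2) * b ^ 2 * (M.φ z * M.φ z')) *
          Real.exp (-(h * (M.φ z + M.φ z'))) :=
        mul_le_mul_of_nonneg_right h5 (Real.exp_pos _).le
    _ = _ := by ring

end

end Pool.Agent.IG
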