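import Pool.Agent.Lib.MP_daa227_pr_IG.LFir
import Pool.Agent.Lib.MP_daa227_pr_IG.GFin
import Pool.Agent.Lib.MP_daa227_pr_IG.PolyV
import Pool.Agent.Lib.MP_daa227_pr_AZ.HalfLine

/-!
# MP_daa227_pr, small inverse temperature: one excursion, uniformly in the exponents
-/

namespace Pool.Agent.IG

open MeasureTheory ProbabilityTheory Finset Filter Topology
open MP_daa227_pr (Chain Zk Zf Gk Gf KU K0 Ren shift seqLaw ExpMom DepOn Good GoodW mom)
open Pool.Agent.AZ (Mod Kv lmg)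
open Pool.Agent.IOrd (Sys aS cv)

noncomputable section

/-- the excursions to the left are exponentially short -/
def ExpLeft (C : Chain) : Prop :=
  ∃ c B : ℝ, 0 < c ∧ ∀ n : ℕ, K0 C n (-1) ≤ B * Real.exp (-(c * n))

namespace LSid

/-- the recursion for the partial sums of `Nn` -/
theorem nsum_succ (C : Chain) (v η : ℤ → ℝ) (N : ℕ) (x : ℤ) :
    ∑ i ∈ range (N + 1), AS.Nn C v η i x = η x +
      ∑ z ∈ Finset.Icc (x - 1) (x + 1) \ {0}, C.p x z * Real.exp (v z) *
        ∑ i ∈ range N, AS.Nn C v η i z := by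
  rw [Finset.sum_range_succ', add_comm]
  congr 1
  simp only [AS.Nn]
  rw [Finset.sum_comm]
  exact Finset.sum_congr rfl fun z _ => by rw [Finset.mul_sum]

/-- a set of sites which a path that avoids `0` cannot leave -/
def Cl (P : ℤ → Prop) : Prop :=
  ∀ x z : ℤ, P x → z ∈ Finset.Icc (x - 1) (x + 1) \ {0} → P z

theorem cl_pos : Cl (fun x => 1 ≤ x) := by
  intro x z hx hz
  simp only [Finset.mem_sdiff, Finset.mem_Icc, Finset.mem_singleton] at hz
  omega

theorem cl_neg : Cl (fun x => x ≤ -1) := by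
  intro x z hx hz
  simp only [Finset.mem_sdiff, Finset.mem_Icc, Finset.mem_singleton] at hz
  omega

theorem nn_sup (C : Chain) (v η T : ℤ → ℝ) {P : ℤ → Prop} (hP : Cl P)
    (hT0 : ∀ x, P x → 0 ≤ T x)
    (hT : ∀ x, P x → η x + ∑ z ∈ Finset.Icc (x - 1) (x + 1) \ {0},
      C.p x z * Real.exp (v z) * T z ≤ T x) :
    ∀ (N : ℕ) (x : ℤ), P x → ∑ i ∈ range N, AS.Nn C v η i x ≤ T x := by
  intro N
  induction N with
  | zero =>
    intro x hx
    rw [Finset.range_zero, Finset.sum_empty]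
    exact hT0 x hx
  | succ N ih =>
    intro x hx
    rw [nsum_succ]
    refine le_trans ?_ (hT x hx)
    refine add_le_add le_rfl (Finset.sum_le_sum fun z hz => ?_)
    exact mul_le_mul_of_nonneg_left (ih z (hP x z hx hz))
      (mul_nonneg (C.nonneg _ _) (Real.exp_pos _).le)

theorem kv_sup (C : Chain) (v T : ℤ → ℝ) {P : ℤ → Prop} (hP : Cl P)
    (hT0 : ∀ x, P x → 0 ≤ T x)
    (hT : ∀ x, P x → C.p x 0 * Real.exp (v 0) + ∑ z ∈ Finset.Icc (x - 1) (x + 1) \ {0},
      C.p x z * Real.exp (v z) * T z ≤ T x) :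
    ∀ (N : ℕ) (x : ℤ), P x → ∑ n ∈ range N, Kv C v n x ≤ T x := by
  intro N
  induction N with
  | zero =>
    intro x hx
    rw [Finset.range_zero, Finset.sum_empty]
    exact hT0 x hx
  | succ N ih =>
    intro x hx
    rw [AZ.psum_succ]
    refine le_trans ?_ (hT x hx)
    refine add_le_add ?_ (Finset.sum_le_sum fun z hz => ?_)
    · split_ifs
      · exact mul_nonneg (C.nonneg _ _) (Real.exp_pos _).le
      · exact le_rfl
    · exact mul_le_mul_of_nonneg_left (ih z (hP x z hx hz))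
        (mul_nonneg (C.nonneg _ _) (Real.exp_pos _).le)

theorem nn_congr (C : Chain) (v η η' : ℤ → ℝ) {P : ℤ → Prop} (hP : Cl P)
    (h : ∀ x, P x → η x = η' x) :
    ∀ (n : ℕ) (x : ℤ), P x → AS.Nn C v η n x = AS.Nn C v η' n x := by
  intro n
  induction n with
  | zero =>
    intro x hx
    exact h x hx
  | succ n ih =>
    intro x hx
    rw [AS.Nn, AS.Nn]
    exact Finset.sum_congr rfl fun z hz => by rw [ih z (hP x z hx hz)]

theorem nn_cneg (C : Chain) (v η : ℤ → ℝ) : ∀ (n : ℕ) (x : ℤ),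
    AS.Nn (AZ.cneg C) (fun z => v (-z)) (fun z => η (-z)) n x = AS.Nn C v η n (-x)
  | 0, _ => rfl
  | n + 1, x => by
    rw [AS.Nn, AS.Nn]
    refine Finset.sum_bij' (fun y _ => -y) (fun y _ => -y) ?_ ?_ ?_ ?_ ?_
    · intro y hy
      rw [Finset.mem_sdiff, Finset.mem_Icc, Finset.mem_singleton] at hy ⊢
      omega
    · intro y hy
      rw [Finset.mem_sdiff, Finset.mem_Icc, Finset.mem_singleton] at hy ⊢
      omega
    · intro y _
      exact neg_neg y
    · intro y _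
      exact neg_neg y
    · intro y _
      rw [nn_cneg C v η n y]
      rfl

theorem nn_nonneg (C : Chain) (v : ℤ → ℝ) {η : ℤ → ℝ} (hη : ∀ x, 0 ≤ η x) :
    ∀ (n : ℕ) (x : ℤ), 0 ≤ AS.Nn C v η n x
  | 0, x => hη x
  | n + 1, x => by
    rw [AS.Nn]
    exact Finset.sum_nonneg fun z _ =>
      mul_nonneg (mul_nonneg (C.nonneg _ _) (Real.exp_pos _).le) (nn_nonneg C v hη n z)

theorem exp_two {t : ℝ} (h0 : 0 ≤ t) (h1 : t ≤ 1) : Real.exp t ≤ 1 + 2 * t := by
  have h := Real.abs_exp_sub_one_le (x := t) (by rw [abs_of_nonneg h0]; exact h1)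
  rw [abs_of_nonneg h0] at h
  have h2 := (abs_le.1 h).2
  linarith

/-- sum over the neighbours other than `0` is at most the sum over the neighbours -/
theorem sub_sum (C : Chain) (x : ℤ) (f : ℤ → ℝ) (hf : 0 ≤ C.p x 0 * f 0) :
    ∑ z ∈ Finset.Icc (x - 1) (x + 1) \ {0}, C.p x z * f z ≤
      C.p x (x - 1) * f (x - 1) + C.p x x * f x + C.p x (x + 1) * f (x + 1) := by
  have h1 := AZ.nb_split C x (fun _ => 0) f
  simp only [Real.exp_zero, mul_one] at h1
  rw [AZ.sum_nb x (fun z => C.p x z * f z)] at h1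
  linarith

theorem kv_const (C : Chain) (a : ℝ) : ∀ (n : ℕ) (x : ℤ),
    Kv C (fun _ => a) n x = Real.exp (a * n) * K0 C n x
  | 0, x => by
    rw [AZ.Kv_zero]
    have h : K0 C 0 x = 0 := rfl
    rw [h, mul_zero]
  | n + 1, x => by
    rw [AZ.Kv_succ, K0]
    have h1 : Real.exp (a * ((n + 1 : ℕ) : ℝ)) = Real.exp (a * n) * Real.exp a := by
      rw [← Real.exp_add]
      congr 1
      push_cast
      ring
    rw [h1, mul_add]
    congr 1
    · by_cases hn : n = 0
      · rw [if_pos hn, if_pos hn, hn]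
        simp only [Nat.cast_zero, mul_zero, Real.exp_zero, one_mul]
        ring
      · rw [if_neg hn, if_neg hn, mul_zero]
    · rw [Finset.mul_sum]
      refine Finset.sum_congr rfl fun z _ => ?_
      rw [kv_const C a n z]
      ring

theorem exp_sum {c B : ℝ} (hc : 0 < c) (hB : 0 ≤ B) {f : ℕ → ℝ}
    (hf : ∀ n : ℕ, f n ≤ B * Real.exp (-(c * n))) (N : ℕ) :
    ∑ n ∈ range N, f n ≤ B * (1 - Real.exp (-c))⁻¹ := by
  have h1 : ∀ n : ℕ, Real.exp (-(c * n)) = Real.exp (-c) ^ n := by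
    intro n
    rw [← Real.exp_nat_mul]
    congr 1
    ring
  have hr : Real.exp (-c) < 1 := by
    have h := Real.exp_lt_exp.2 (show -c < 0 by linarith)
    rwa [Real.exp_zero] at h
  have hs := hasSum_geometric_of_lt_one (Real.exp_pos (-c)).le hr
  have h2 : ∑ n ∈ range N, Real.exp (-c) ^ n ≤ (1 - Real.exp (-c))⁻¹ := by
    rw [← hs.tsum_eq]
    exact hs.summable.sum_le_tsum _ fun n _ => pow_nonneg (Real.exp_pos _).le n
  calc ∑ n ∈ range N, f n ≤ ∑ n ∈ range N, B * Real.exp (-c) ^ n :=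
        Finset.sum_le_sum fun n _ => by rw [← h1]; exact hf n
    _ = B * ∑ n ∈ range N, Real.exp (-c) ^ n := by rw [Finset.mul_sum]
    _ ≤ _ := mul_le_mul_of_nonneg_left h2 hB

end LSid

/-- the right side `x ≥ 0` with `w = 1`: with the supersolution `V ≤ K` of `VR` and
`κ₀ ≤ 1/Φ`, `κ₀ ≤ 1/(8 K + 8)`: `S_N x = ∑_{i<N} Nn φ i x` satisfies
`S_{N+1} x = φ x + ∑_{z ≠ 0} p(x,z) e^(v z) S_N z` and `S_N ≤ 2 V - φ` on `x ≥ 1`, because
`e^v (2V - φ) ≤ (1 + 2κφ)(2V - φ) ≤ 2V` and `φ + 2 (V - φ) = 2V - φ`; `P_N x = ∑_{n<N} Kv n x` satisfies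
`P_N ≤ e^(κΦ) (1 + 4κV - 3κφ)` on `x ≥ 1`: `(1 + 2κφ)(1 + 4κV - 3κφ) ≤ 1 + 4κV` and
`∑ p (1 + 4κV) ≤ 1 + 4κ (V - φ) ≤ 1 + 4κV - 3κφ`. -/
theorem side_right (C : Chain) {φ : ℤ → ℝ} {Φ : ℝ} (h0 : ∀ x, 0 ≤ φ x) (h1 : ∀ x, φ x ≤ Φ)
    (hR : VR C φ) : ∃ κ₀ B : ℝ, 0 < κ₀ ∧ 0 < B ∧ ∀ v : ℤ → ℝ, (∀ z, v z ≤ κ₀ * φ z) →
      ∀ (N : ℕ) (x : ℤ), 1 ≤ x → ∑ i ∈ range N, AS.Nn C v φ i x ≤ B ∧
        ∑ n ∈ range N, Kv C v n x ≤ B := by
  obtain ⟨V, K, hV1, hV2⟩ := hR
  have hK : 0 ≤ K := (hV1 0 le_rfl).1.trans (hV1 0 le_rfl).2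
  have hΦ : 0 ≤ Φ := (h0 0).trans (h1 0)
  set κ : ℝ := 1 / (8 * K + 8 + Φ) with hκdef
  have hden : 0 < 8 * K + 8 + Φ := by linarith
  have hκ : 0 < κ := by positivity
  have hκ1 : κ * (8 * K + 8 + Φ) = 1 := by
    rw [hκdef]
    field_simp
  have hκK0 : 0 ≤ κ * K := mul_nonneg hκ.le hK
  have hκΦ0 : 0 ≤ κ * Φ := mul_nonneg hκ.le hΦ
  have hκK : 4 * (κ * K) ≤ 1 / 2 := by linarith
  have hκΦ : κ * Φ ≤ 1 := by linarith
  have hκφ : ∀ z, κ * φ z ≤ κ * Φ := fun z => mul_le_mul_of_nonneg_left (h1 z) hκ.le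
  have hκφ0 : ∀ z, 0 ≤ κ * φ z := fun z => mul_nonneg hκ.le (h0 z)
  -- the supersolution dominates the potential
  have hVφ : ∀ x, 1 ≤ x → φ x ≤ V x := by
    intro x hx
    have h2 := hV2 x hx
    have h3 := mul_nonneg (C.nonneg x (x - 1)) (hV1 (x - 1) (by omega)).1
    have h4 := mul_nonneg (C.nonneg x x) (hV1 x (by omega)).1
    have h5 := mul_nonneg (C.nonneg x (x + 1)) (hV1 (x + 1) (by omega)).1
    linarith
  have hsum1 : ∀ x : ℤ, C.p x (x - 1) + C.p x x + C.p x (x + 1) = 1 := by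
    intro x
    rw [← C.sum_one x, AZ.sum_nb x (fun y => C.p x y)]
  refine ⟨κ, 2 * K + Real.exp (κ * Φ) * (1 + 4 * (κ * K)), hκ, ?_, fun v hv N x hx => ⟨?_, ?_⟩⟩
  · have h2 := Real.exp_pos (κ * Φ)
    have h3 : 0 < Real.exp (κ * Φ) * (1 + 4 * (κ * K)) := mul_pos h2 (by linarith)
    linarith
  · -- the sums of `Nn`
    have hev : ∀ z, Real.exp (v z) ≤ 1 + 2 * (κ * φ z) := fun z =>
      (Real.exp_le_exp.2 (hv z)).trans (LSid.exp_two (hκφ0 z) ((hκφ z).trans hκΦ))
    have hmain := LSid.nn_sup C v φ (fun x => 2 * V x - φ x) LSid.cl_pos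
      (fun x hx => by
        have h2 := hVφ x hx
        have h3 := h0 x
        linarith) (fun x hx => ?_) N x hx
    · refine hmain.trans ?_
      have h2 := (hV1 x (by omega)).2
      have h3 := h0 x
      have h4 : 0 ≤ Real.exp (κ * Φ) * (1 + 4 * (κ * K)) :=
        mul_nonneg (Real.exp_pos _).le (by linarith)
      linarith
    · have h2 : ∑ z ∈ Finset.Icc (x - 1) (x + 1) \ {0},
          C.p x z * Real.exp (v z) * (2 * V z - φ z) ≤
          ∑ z ∈ Finset.Icc (x - 1) (x + 1) \ {0}, C.p x z * (2 * V z) := by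
        refine Finset.sum_le_sum fun z hz => ?_
        have hz1 : 1 ≤ z := LSid.cl_pos x z hx hz
        rw [mul_assoc]
        refine mul_le_mul_of_nonneg_left ?_ (C.nonneg _ _)
        have h3 : 0 ≤ 2 * V z - φ z := by
          have := hVφ z hz1
          have := h0 z
          linarith
        refine (mul_le_mul_of_nonneg_right (hev z) h3).trans ?_
        have h4 : 2 * (κ * (2 * V z - φ z)) ≤ 1 := by
          have h5 : κ * V z ≤ κ * K := mul_le_mul_of_nonneg_left (hV1 z (by omega)).2 hκ.le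
          have h6 := hκφ0 z
          nlinarith
        have h7 : φ z * (2 * (κ * (2 * V z - φ z))) ≤ φ z * 1 :=
          mul_le_mul_of_nonneg_left h4 (h0 z)
        nlinarith
      have h3 := LSid.sub_sum C x (fun z => 2 * V z)
        (mul_nonneg (C.nonneg _ _) (mul_nonneg two_pos.le (hV1 0 le_rfl).1))
      have h4 := hV2 x hx
      nlinarith
  · -- the sums of `Kv`
    have hev : ∀ z, Real.exp (v z) ≤ 1 + 2 * (κ * φ z) := fun z =>
      (Real.exp_le_exp.2 (hv z)).trans (LSid.exp_two (hκφ0 z) ((hκφ z).trans hκΦ))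
    have hE := Real.exp_pos (κ * Φ)
    have hpos : ∀ x, 1 ≤ x → 0 ≤ 1 + 4 * (κ * V x) - 3 * (κ * φ x) := by
      intro x hx
      have h2 := mul_le_mul_of_nonneg_left (hVφ x hx) hκ.le
      have h3 := hκφ0 x
      linarith
    have hmain := LSid.kv_sup C v
      (fun x => Real.exp (κ * Φ) * (1 + 4 * (κ * V x) - 3 * (κ * φ x))) LSid.cl_pos
      (fun x hx => mul_nonneg hE.le (hpos x hx)) (fun x hx => ?_) N x hx
    · refine hmain.trans ?_
      have h2 := mul_le_mul_of_nonneg_left (hV1 x (by omega)).2 hκ.le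
      have h3 := hκφ0 x
      have h4 : Real.exp (κ * Φ) * (1 + 4 * (κ * V x) - 3 * (κ * φ x)) ≤
          Real.exp (κ * Φ) * (1 + 4 * (κ * K)) := mul_le_mul_of_nonneg_left (by linarith) hE.le
      linarith
    · have h2 : ∑ z ∈ Finset.Icc (x - 1) (x + 1) \ {0},
          C.p x z * Real.exp (v z) * (Real.exp (κ * Φ) * (1 + 4 * (κ * V z) - 3 * (κ * φ z))) ≤
          ∑ z ∈ Finset.Icc (x - 1) (x + 1) \ {0},
            C.p x z * (Real.exp (κ * Φ) * (1 + 4 * (κ * V z))) := by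
        refine Finset.sum_le_sum fun z hz => ?_
        have hz1 : 1 ≤ z := LSid.cl_pos x z hx hz
        rw [mul_assoc]
        refine mul_le_mul_of_nonneg_left ?_ (C.nonneg _ _)
        rw [mul_left_comm]
        refine mul_le_mul_of_nonneg_left ?_ hE.le
        refine (mul_le_mul_of_nonneg_right (hev z) (hpos z hz1)).trans ?_
        have h4 : 2 * (1 + 4 * (κ * V z) - 3 * (κ * φ z)) ≤ 3 := by
          have h5 : κ * V z ≤ κ * K := mul_le_mul_of_nonneg_left (hV1 z (by omega)).2 hκ.le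
          have h6 := hκφ0 z
          linarith
        have h7 := mul_le_mul_of_nonneg_left h4 (hκφ0 z)
        nlinarith
      have h3 := LSid.sub_sum C x (fun z => Real.exp (κ * Φ) * (1 + 4 * (κ * V z)))
        (mul_nonneg (C.nonneg _ _) (mul_nonneg hE.le (by
          have := mul_nonneg hκ.le (hV1 0 le_rfl).1
          linarith)))
      have h3' := AZ.nb_split C x (fun _ => 0) (fun z => Real.exp (κ * Φ) * (1 + 4 * (κ * V z)))
      simp only [Real.exp_zero, mul_one] at h3'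
      rw [AZ.sum_nb x (fun z => C.p x z * (Real.exp (κ * Φ) * (1 + 4 * (κ * V z))))] at h3'
      have h5 : C.p x 0 * Real.exp (v 0) ≤
          C.p x 0 * (Real.exp (κ * Φ) * (1 + 4 * (κ * V 0))) := by
        refine mul_le_mul_of_nonneg_left ?_ (C.nonneg _ _)
        have h6 : Real.exp (v 0) ≤ Real.exp (κ * Φ) :=
          Real.exp_le_exp.2 ((hv 0).trans (hκφ 0))
        have h7 : Real.exp (κ * Φ) * 1 ≤ Real.exp (κ * Φ) * (1 + 4 * (κ * V 0)) :=
          mul_le_mul_of_nonneg_left (by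
            have := mul_nonneg hκ.le (hV1 0 le_rfl).1
            linarith) hE.le
        linarith
      have h8 : C.p x (x - 1) * (Real.exp (κ * Φ) * (1 + 4 * (κ * V (x - 1)))) +
          C.p x x * (Real.exp (κ * Φ) * (1 + 4 * (κ * V x))) +
          C.p x (x + 1) * (Real.exp (κ * Φ) * (1 + 4 * (κ * V (x + 1)))) ≤
          Real.exp (κ * Φ) * (1 + 4 * (κ * V x) - 3 * (κ * φ x)) := by
        have h9 : C.p x (x - 1) * (Real.exp (κ * Φ) * (1 + 4 * (κ * V (x - 1)))) +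
          C.p x x * (Real.exp (κ * Φ) * (1 + 4 * (κ * V x))) +
          C.p x (x + 1) * (Real.exp (κ * Φ) * (1 + 4 * (κ * V (x + 1)))) =
          Real.exp (κ * Φ) * ((C.p x (x - 1) + C.p x x + C.p x (x + 1)) +
            4 * (κ * (C.p x (x - 1) * V (x - 1) + C.p x x * V x + C.p x (x + 1) * V (x + 1)))) := by
          ring
        rw [h9, hsum1]
        refine mul_le_mul_of_nonneg_left ?_ hE.le
        have h10 := mul_le_mul_of_nonneg_left (hV2 x hx) hκ.le
        have h11 := hκφ0 x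
        nlinarith
      linarith

/-- `w x = ∑ K0 C n x e^(c' n)` for `x < 0`, `c' = c / 2` (finite for `x = -1`, hence for all `x ≤ -1`:
a path from `-1` to `x` of positive probability which avoids `0`); `w 0 = 1`;
`w x = e^(c') ∑ p(x,z) w z` for `x < 0`, `w ≥ 1` (recurrence: `AZ.HalfLine.Gf_K0`,
`AZ.HalfLine.Gf_tr`, ... or directly `w x ≥ c₁ > 0` suffices). With `κ₀ Φ ≤ c' / 2`:
`S_N ≤ D w`, `D = Φ / (1 - e^(-c'/2))`, because `φ w + e^(κΦ) D ∑_{z<0} p w ≤ (Φ + D e^(-c'/2)) w`,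
and `P_N ≤ e^(κΦ) w`. -/
theorem side_left (C : Chain) (hrec : HasSum (fun n : ℕ => K0 C (n + 1) 0) 1) {φ : ℤ → ℝ} {Φ : ℝ}
    (h0 : ∀ x, 0 ≤ φ x) (h1 : ∀ x, φ x ≤ Φ) (hL : ExpLeft C) :
    ∃ (w : ℤ → ℝ) (κ₀ B : ℝ), 0 < κ₀ ∧ 0 < B ∧ (∀ x, 0 ≤ w x) ∧
      ∀ v : ℤ → ℝ, (∀ z, v z ≤ κ₀ * φ z) → ∀ (N : ℕ) (x : ℤ), x ≤ -1 →
        ∑ i ∈ range N, AS.Nn C v (fun z => φ z * w z) i x ≤ B * w x ∧
          ∑ n ∈ range N, Kv C v n x ≤ B * w x := by
  obtain ⟨c, B, hc, hB⟩ := hL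
  have hΦ : 0 ≤ Φ := (h0 0).trans (h1 0)
  have hB0 : 0 ≤ B := by
    have h2 := (MP_daa227_pr.K0_nonneg C 0 (-1)).trans (hB 0)
    exact nonneg_of_mul_nonneg_left h2 (Real.exp_pos _)
  set d : ℝ := c / 2 with hd
  have hd0 : 0 < d := by rw [hd]; positivity
  -- summability
  have hsum1 : Summable fun n : ℕ => K0 C n (-1) * Real.exp (d * n) := by
    have hs : Summable fun n : ℕ => B * Real.exp (-d) ^ n :=
      (summable_geometric_of_lt_one (Real.exp_pos _).le (by
        have h := Real.exp_lt_exp.2 (show -d < 0 by linarith)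
        rwa [Real.exp_zero] at h)).mul_left B
    refine Summable.of_nonneg_of_le
      (fun n => mul_nonneg (MP_daa227_pr.K0_nonneg C n _) (Real.exp_pos _).le) (fun n => ?_) hs
    calc K0 C n (-1) * Real.exp (d * n)
        ≤ B * Real.exp (-(c * n)) * Real.exp (d * n) :=
          mul_le_mul_of_nonneg_right (hB n) (Real.exp_pos _).le
      _ = B * Real.exp (-d) ^ n := by
          rw [← Real.exp_nat_mul, mul_assoc, ← Real.exp_add]
          congr 2
          rw [hd]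
          ring
  have hK0s : ∀ (n : ℕ) (x : ℤ), K0 C (n + 1) x = (if n = 0 then C.p x 0 else 0) +
      ∑ z ∈ Finset.Icc (x - 1) (x + 1) \ {0}, C.p x z * K0 C n z := fun n x => rfl
  have hsum : ∀ x : ℤ, x ≤ -1 → Summable fun n : ℕ => K0 C n x * Real.exp (d * n) := by
    intro x hx
    obtain ⟨k, hk⟩ : ∃ k : ℕ, x = -1 - (k : ℤ) := ⟨(-1 - x).toNat, by omega⟩
    subst hk
    clear hx
    induction k with
    | zero =>
      simpa using hsum1
    | succ k ih =>
      set y : ℤ := -1 - (k : ℤ) with hy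
      have hy1 : -1 - ((k + 1 : ℕ) : ℤ) = y - 1 := by
        rw [hy]
        push_cast
        ring
      rw [hy1]
      have hp := C.down y
      have h2 : Summable fun n : ℕ =>
          (C.p y (y - 1))⁻¹ * (K0 C (n + 1) y * Real.exp (d * ((n + 1 : ℕ) : ℝ))) :=
        ((summable_nat_add_iff 1).2 ih).mul_left _
      refine Summable.of_nonneg_of_le
        (fun n => mul_nonneg (MP_daa227_pr.K0_nonneg C n _) (Real.exp_pos _).le) (fun n => ?_) h2
      have h3 : C.p y (y - 1) * K0 C n (y - 1) ≤ K0 C (n + 1) y := by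
        rw [hK0s]
        have h4 := Finset.single_le_sum (f := fun z => C.p y z * K0 C n z)
          (s := Finset.Icc (y - 1) (y + 1) \ {0}) (a := y - 1)
          (fun z _ => mul_nonneg (C.nonneg _ _) (MP_daa227_pr.K0_nonneg C n z))
          (by
            rw [Finset.mem_sdiff, Finset.mem_Icc, Finset.mem_singleton]
            omega)
        have h5 : (0 : ℝ) ≤ (if n = 0 then C.p y 0 else 0) := by
          split_ifs
          · exact C.nonneg _ _
          · exact le_rfl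
        linarith
      rw [le_inv_mul_iff₀ hp]
      have h6 : Real.exp (d * n) ≤ Real.exp (d * ((n + 1 : ℕ) : ℝ)) := by
        apply Real.exp_le_exp.2
        refine mul_le_mul_of_nonneg_left ?_ hd0.le
        push_cast
        linarith
      calc C.p y (y - 1) * (K0 C n (y - 1) * Real.exp (d * n))
          = C.p y (y - 1) * K0 C n (y - 1) * Real.exp (d * n) := by ring
        _ ≤ K0 C (n + 1) y * Real.exp (d * ((n + 1 : ℕ) : ℝ)) :=
          mul_le_mul h3 h6 (Real.exp_pos _).le (MP_daa227_pr.K0_nonneg C _ _)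
  set w : ℤ → ℝ := fun x => ∑' n : ℕ, K0 C n x * Real.exp (d * n) with hw
  have hw0 : ∀ x, 0 ≤ w x := fun x =>
    tsum_nonneg fun n => mul_nonneg (MP_daa227_pr.K0_nonneg C n x) (Real.exp_pos _).le
  -- the equation
  have hweq : ∀ x : ℤ, x ≤ -1 → w x = Real.exp d * (C.p x 0 +
      ∑ z ∈ Finset.Icc (x - 1) (x + 1) \ {0}, C.p x z * w z) := by
    intro x hx
    have h2 : w x = ∑' n : ℕ, K0 C (n + 1) x * Real.exp (d * ((n + 1 : ℕ) : ℝ)) := by
      have h3 := (hsum x hx).tsum_eq_zero_add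
      have h4 : K0 C 0 x = 0 := rfl
      rw [h4, zero_mul, zero_add] at h3
      exact h3
    have h5 : ∀ n : ℕ, K0 C (n + 1) x * Real.exp (d * ((n + 1 : ℕ) : ℝ)) =
        (if n = 0 then Real.exp d * C.p x 0 else 0) +
          ∑ z ∈ Finset.Icc (x - 1) (x + 1) \ {0},
            (Real.exp d * C.p x z) * (K0 C n z * Real.exp (d * n)) := by
      intro n
      have h6 : Real.exp (d * ((n + 1 : ℕ) : ℝ)) = Real.exp d * Real.exp (d * n) := by
        rw [← Real.exp_add]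
        congr 1
        push_cast
        ring
      rw [hK0s, h6, add_mul]
      congr 1
      · by_cases hn : n = 0
        · rw [if_pos hn, if_pos hn, hn]
          simp only [Nat.cast_zero, mul_zero, Real.exp_zero, mul_one]
          ring
        · rw [if_neg hn, if_neg hn, zero_mul]
      · rw [Finset.sum_mul]
        refine Finset.sum_congr rfl fun z _ => ?_
        ring
    have h7 : HasSum (fun n : ℕ => (if n = 0 then Real.exp d * C.p x 0 else 0))
        (Real.exp d * C.p x 0) := hasSum_ite_eq 0 _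
    have h8 : HasSum (fun n : ℕ => ∑ z ∈ Finset.Icc (x - 1) (x + 1) \ {0},
        (Real.exp d * C.p x z) * (K0 C n z * Real.exp (d * n)))
        (∑ z ∈ Finset.Icc (x - 1) (x + 1) \ {0}, (Real.exp d * C.p x z) * w z) := by
      refine hasSum_sum fun z hz => ?_
      exact ((hsum z (LSid.cl_neg x z hx hz)).hasSum).mul_left _
    rw [h2, tsum_congr h5, (h7.add h8).tsum_eq, mul_add, Finset.mul_sum]
    congr 1
    exact Finset.sum_congr rfl fun z _ => by ring
  set κ : ℝ := d / (2 * (Φ + 1)) with hκdef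
  have hκ : 0 < κ := by positivity
  have hκΦ : κ * Φ ≤ d / 2 := by
    have h2 : κ * (Φ + 1) = d / 2 := by
      rw [hκdef]
      field_simp
    have h3 : κ * Φ ≤ κ * (Φ + 1) := mul_le_mul_of_nonneg_left (by linarith) hκ.le
    linarith
  have hed : Real.exp (-(d / 2)) < 1 := by
    have h := Real.exp_lt_exp.2 (show -(d / 2) < 0 by linarith)
    rwa [Real.exp_zero] at h
  set D : ℝ := Φ / (1 - Real.exp (-(d / 2))) with hD
  have hD0 : 0 ≤ D := div_nonneg hΦ (by linarith)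
  have hDeq : Φ + D * Real.exp (-(d / 2)) = D := by
    have h2 : D * (1 - Real.exp (-(d / 2))) = Φ := div_mul_cancel₀ _ (by linarith)
    linarith
  have hexp : Real.exp (d / 2) * Real.exp (-(d / 2)) = 1 := by
    rw [← Real.exp_add, add_neg_cancel, Real.exp_zero]
  have hexp2 : Real.exp d = Real.exp (d / 2) * Real.exp (d / 2) := by
    rw [← Real.exp_add]
    congr 1
    ring
  have hq0 := Real.exp_pos (d / 2)
  have hq1 := Real.exp_pos (-(d / 2))
  -- the bound for the sum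
  have hws : ∀ x : ℤ, x ≤ -1 → Real.exp (d / 2) * (C.p x 0 +
      ∑ z ∈ Finset.Icc (x - 1) (x + 1) \ {0}, C.p x z * w z) =
        Real.exp (-(d / 2)) * w x := by
    intro x hx
    rw [hweq x hx, hexp2]
    calc Real.exp (d / 2) * (C.p x 0 +
          ∑ z ∈ Finset.Icc (x - 1) (x + 1) \ {0}, C.p x z * w z)
        = (Real.exp (d / 2) * Real.exp (-(d / 2))) * (Real.exp (d / 2) * (C.p x 0 +
          ∑ z ∈ Finset.Icc (x - 1) (x + 1) \ {0}, C.p x z * w z)) := by
          rw [hexp, one_mul]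
      _ = _ := by ring
  refine ⟨w, κ, D + Real.exp (d / 2), hκ, by linarith, hw0, fun v hv N x hx => ⟨?_, ?_⟩⟩
  · have hev : ∀ z, Real.exp (v z) ≤ Real.exp (d / 2) := fun z => Real.exp_le_exp.2
      ((hv z).trans ((mul_le_mul_of_nonneg_left (h1 z) hκ.le).trans hκΦ))
    have hmain := LSid.nn_sup C v (fun z => φ z * w z) (fun x => D * w x) LSid.cl_neg
      (fun x _ => mul_nonneg hD0 (hw0 x)) (fun x hx => ?_) N x hx
    · refine hmain.trans ?_
      exact mul_le_mul_of_nonneg_right (by linarith) (hw0 x)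
    · have h2 : ∑ z ∈ Finset.Icc (x - 1) (x + 1) \ {0},
          C.p x z * Real.exp (v z) * (D * w z) ≤
          D * (Real.exp (d / 2) * (C.p x 0 +
            ∑ z ∈ Finset.Icc (x - 1) (x + 1) \ {0}, C.p x z * w z)) := by
        have h3 : ∑ z ∈ Finset.Icc (x - 1) (x + 1) \ {0},
            C.p x z * Real.exp (v z) * (D * w z) ≤
            ∑ z ∈ Finset.Icc (x - 1) (x + 1) \ {0},
              (D * Real.exp (d / 2)) * (C.p x z * w z) := by
          refine Finset.sum_le_sum fun z _ => ?_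
          have h4 : C.p x z * (D * w z) * Real.exp (v z) ≤
              C.p x z * (D * w z) * Real.exp (d / 2) :=
            mul_le_mul_of_nonneg_left (hev z)
              (mul_nonneg (C.nonneg _ _) (mul_nonneg hD0 (hw0 z)))
          nlinarith
        refine h3.trans ?_
        rw [← Finset.mul_sum]
        have h5 : 0 ≤ D * Real.exp (d / 2) * C.p x 0 :=
          mul_nonneg (mul_nonneg hD0 hq0.le) (C.nonneg _ _)
        nlinarith
      rw [hws x hx] at h2
      have h6 := mul_le_mul_of_nonneg_right (h1 x) (hw0 x)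
      have h7 : (Φ + D * Real.exp (-(d / 2))) * w x = D * w x := by rw [hDeq]
      nlinarith
  · have hev : ∀ z, Real.exp (v z) ≤ Real.exp (d / 2) := fun z => Real.exp_le_exp.2
      ((hv z).trans ((mul_le_mul_of_nonneg_left (h1 z) hκ.le).trans hκΦ))
    have hmain := LSid.kv_sup C v (fun x => Real.exp (d / 2) * w x) LSid.cl_neg
      (fun x _ => mul_nonneg hq0.le (hw0 x)) (fun x hx => ?_) N x hx
    · refine hmain.trans ?_
      exact mul_le_mul_of_nonneg_right (by linarith) (hw0 x)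
    · have h2 : ∑ z ∈ Finset.Icc (x - 1) (x + 1) \ {0},
          C.p x z * Real.exp (v z) * (Real.exp (d / 2) * w z) ≤
          ∑ z ∈ Finset.Icc (x - 1) (x + 1) \ {0},
            Real.exp d * (C.p x z * w z) := by
        refine Finset.sum_le_sum fun z _ => ?_
        have h4 : C.p x z * (Real.exp (d / 2) * w z) * Real.exp (v z) ≤
            C.p x z * (Real.exp (d / 2) * w z) * Real.exp (d / 2) :=
          mul_le_mul_of_nonneg_left (hev z)
            (mul_nonneg (C.nonneg _ _) (mul_nonneg hq0.le (hw0 z)))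
        rw [hexp2]
        nlinarith
      rw [← Finset.mul_sum] at h2
      have h5 : C.p x 0 * Real.exp (v 0) ≤ Real.exp d * C.p x 0 := by
        have h6 : Real.exp (v 0) ≤ Real.exp d :=
          (hev 0).trans (Real.exp_le_exp.2 (by linarith))
        have h7 := mul_le_mul_of_nonneg_left h6 (C.nonneg x 0)
        linarith
      have h8 : w x ≤ Real.exp (d / 2) * w x := by
        have h9 : 1 ≤ Real.exp (d / 2) := Real.one_le_exp (by linarith)
        have h10 := mul_le_mul_of_nonneg_right h9 (hw0 x)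
        linarith
      have h11 := hweq x hx
      rw [mul_add] at h11
      linarith

/-- `side_right` for `C` and (`w = 1`) for `cneg C` (reflection: `AZ.Kv_cneg` and the same for `Nn`), or
`side_left`; define `w = 1` on `x ≥ 0` and `w` as there on `x < 0`. A path from `x ≥ 1` which avoids `0`
stays in `z ≥ 1` (so `Nn` only sees `w` there), and the same to the left; at `x = 0` use the first
step: `S_N 0 ≤ Φ + e^(κ₀Φ) (S_N 1 + S_N (-1))` and `P_N 0 ≤ e^(κ₀Φ) (1 + P_N 1 + P_N (-1))`. -/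
theorem side (C : Chain) (hrec : HasSum (fun n : ℕ => K0 C (n + 1) 0) 1) {φ : ℤ → ℝ} {Φ : ℝ}
    (h0 : ∀ x, 0 ≤ φ x) (h1 : ∀ x, φ x ≤ Φ) (hR : VR C φ) (hL : VL C φ ∨ ExpLeft C) :
    ∃ (w : ℤ → ℝ) (κ₀ B : ℝ), 0 < κ₀ ∧ 1 ≤ B ∧ w 0 = 1 ∧ (∀ x, 0 ≤ w x) ∧
      ∀ v : ℤ → ℝ, (∀ z, v z ≤ κ₀ * φ z) → ∀ (N : ℕ) (x : ℤ),
        ∑ i ∈ range N, AS.Nn C v (fun z => φ z * w z) i x ≤ B * w x ∧
          ∑ n ∈ range N, Kv C v n x ≤ B * w x := by
  have _ := hrec
  have hΦ : 0 ≤ Φ := (h0 0).trans (h1 0)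
  obtain ⟨κ₁, B₁, hκ₁, hB₁, hR1⟩ := side_right C h0 h1 hR
  obtain ⟨w', κ₂, B₂, hκ₂, hB₂, hw', hL1⟩ : ∃ (w : ℤ → ℝ) (κ₀ B : ℝ), 0 < κ₀ ∧ 0 < B ∧
      (∀ x, 0 ≤ w x) ∧ ∀ v : ℤ → ℝ, (∀ z, v z ≤ κ₀ * φ z) → ∀ (N : ℕ) (x : ℤ), x ≤ -1 →
        ∑ i ∈ range N, AS.Nn C v (fun z => φ z * w z) i x ≤ B * w x ∧
          ∑ n ∈ range N, Kv C v n x ≤ B * w x := by
    rcases hL with hL | hL
    · obtain ⟨κ₂, B₂, hκ₂, hB₂, hL1⟩ := side_right (AZ.cneg C) (fun x => h0 (-x))
        (fun x => h1 (-x)) hL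
      refine ⟨fun _ => 1, κ₂, B₂, hκ₂, hB₂, fun _ => zero_le_one, fun v hv N x hx => ?_⟩
      obtain ⟨h2, h3⟩ := hL1 (fun z => v (-z)) (fun z => hv (-z)) N (-x) (by omega)
      have h4 : ∀ i, AS.Nn (AZ.cneg C) (fun z => v (-z)) (fun z => φ (-z)) i (-x) =
          AS.Nn C v φ i x := fun i => by rw [LSid.nn_cneg, neg_neg]
      have h5 : ∀ n, Kv (AZ.cneg C) (fun z => v (-z)) n (-x) = Kv C v n x := fun n => by
        rw [AZ.Kv_cneg, neg_neg]
      simp only [h4] at h2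
      simp only [h5] at h3
      simp only [mul_one]
      exact ⟨h2, h3⟩
    · exact side_left C hrec h0 h1 hL
  set w : ℤ → ℝ := fun x => if 0 ≤ x then 1 else w' x with hw
  have hwpos : ∀ x, 0 ≤ x → w x = 1 := fun x hx => if_pos hx
  have hwneg : ∀ x, x ≤ -1 → w x = w' x := fun x hx => if_neg (by omega)
  have hw0 : ∀ x, 0 ≤ w x := by
    intro x
    rcases le_or_gt 0 x with hx | hx
    · rw [hwpos x hx]
      exact zero_le_one
    · rw [hwneg x (by omega)]
      exact hw' x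
  set κ : ℝ := min κ₁ κ₂ with hκ
  have hκ0 : 0 < κ := lt_min hκ₁ hκ₂
  have hE := Real.exp_pos (κ * Φ)
  set B : ℝ := 1 + B₁ + B₂ + Φ + Real.exp (κ * Φ) * (1 + B₁ + B₂ * w' (-1)) with hBdef
  have hBw : 0 ≤ B₂ * w' (-1) := mul_nonneg hB₂.le (hw' _)
  have hEB : 0 ≤ Real.exp (κ * Φ) * (1 + B₁ + B₂ * w' (-1)) := mul_nonneg hE.le (by linarith)
  refine ⟨w, κ, B, hκ0, by linarith, hwpos 0 le_rfl, hw0, fun v hv => ?_⟩
  have hv1 : ∀ z, v z ≤ κ₁ * φ z := fun z =>
    (hv z).trans (mul_le_mul_of_nonneg_right (min_le_left _ _) (h0 z))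
  have hv2 : ∀ z, v z ≤ κ₂ * φ z := fun z =>
    (hv z).trans (mul_le_mul_of_nonneg_right (min_le_right _ _) (h0 z))
  have hev : ∀ z, Real.exp (v z) ≤ Real.exp (κ * Φ) := fun z =>
    Real.exp_le_exp.2 ((hv z).trans (mul_le_mul_of_nonneg_left (h1 z) hκ0.le))
  -- to the right of `0`
  have hr : ∀ (N : ℕ) (x : ℤ), 1 ≤ x →
      ∑ i ∈ range N, AS.Nn C v (fun z => φ z * w z) i x ≤ B₁ ∧
        ∑ n ∈ range N, Kv C v n x ≤ B₁ := by
    intro N x hx
    obtain ⟨h2, h3⟩ := hR1 v hv1 N x hx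
    refine ⟨?_, h3⟩
    refine le_trans (le_of_eq ?_) h2
    refine Finset.sum_congr rfl fun i _ => ?_
    refine LSid.nn_congr C v _ _ LSid.cl_pos (fun z hz => ?_) i x hx
    have hz1 : (1 : ℤ) ≤ z := hz
    rw [hwpos z (by omega), mul_one]
  -- to the left of `0`
  have hl : ∀ (N : ℕ) (x : ℤ), x ≤ -1 →
      ∑ i ∈ range N, AS.Nn C v (fun z => φ z * w z) i x ≤ B₂ * w' x ∧
        ∑ n ∈ range N, Kv C v n x ≤ B₂ * w' x := by
    intro N x hx
    obtain ⟨h2, h3⟩ := hL1 v hv2 N x hx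
    refine ⟨?_, h3⟩
    refine le_trans (le_of_eq ?_) h2
    refine Finset.sum_congr rfl fun i _ => ?_
    refine LSid.nn_congr C v _ _ LSid.cl_neg (fun z hz => ?_) i x hx
    rw [hwneg z hz]
  have hp1 : ∀ y, C.p 0 y ≤ 1 := by
    intro y
    by_cases hy : y ∈ Finset.Icc ((0 : ℤ) - 1) (0 + 1)
    · rw [← C.sum_one 0]
      exact Finset.single_le_sum (f := fun y => C.p 0 y) (fun z _ => C.nonneg 0 z) hy
    · rw [C.near 0 y hy]
      exact zero_le_one
  have hps := C.sum_one 0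
  rw [AZ.sum_nb 0 (fun y => C.p 0 y)] at hps
  simp only [zero_sub, zero_add] at hps
  intro N x
  rcases lt_trichotomy x 0 with hx | hx | hx
  · obtain ⟨h2, h3⟩ := hl N x (by omega)
    rw [hwneg x (by omega)]
    have h4 : B₂ * w' x ≤ B * w' x := mul_le_mul_of_nonneg_right (by linarith) (hw' x)
    exact ⟨h2.trans h4, h3.trans h4⟩
  · subst hx
    rw [hwpos 0 le_rfl, mul_one]
    cases N with
    | zero =>
      simp only [Finset.range_zero, Finset.sum_empty]
      have : 0 ≤ B := by linarith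
      exact ⟨this, this⟩
    | succ N =>
      obtain ⟨h2, h3⟩ := hr N 1 le_rfl
      obtain ⟨h4, h5⟩ := hl N (-1) le_rfl
      have key : ∀ a b : ℝ, 0 ≤ a → 0 ≤ b → a ≤ B₁ → b ≤ B₂ * w' (-1) →
          C.p 0 1 * Real.exp (v 1) * a + C.p 0 (-1) * Real.exp (v (-1)) * b ≤
          Real.exp (κ * Φ) * (B₁ + B₂ * w' (-1)) := by
        intro a b ha hb ha1 hb1
        have h6 : C.p 0 1 * Real.exp (v 1) * a ≤ 1 * Real.exp (κ * Φ) * B₁ :=
          mul_le_mul (mul_le_mul (hp1 1) (hev 1) (Real.exp_pos _).le zero_le_one) ha1 ha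
            (mul_nonneg zero_le_one hE.le)
        have h7 : C.p 0 (-1) * Real.exp (v (-1)) * b ≤ 1 * Real.exp (κ * Φ) * (B₂ * w' (-1)) :=
          mul_le_mul (mul_le_mul (hp1 (-1)) (hev (-1)) (Real.exp_pos _).le zero_le_one) hb1 hb
            (mul_nonneg zero_le_one hE.le)
        linarith
      constructor
      · rw [LSid.nsum_succ, AZ.nb_zero, Finset.sum_pair (by norm_num)]
        have hη : ∀ z, 0 ≤ φ z * w z := fun z => mul_nonneg (h0 z) (hw0 z)
        have hn : ∀ y, 0 ≤ ∑ i ∈ range N, AS.Nn C v (fun z => φ z * w z) i y := fun y =>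
          Finset.sum_nonneg fun i _ => LSid.nn_nonneg C v hη i y
        have h8 := key _ _ (hn 1) (hn (-1)) h2 h4
        have h9 := h1 0
        rw [hwpos 0 le_rfl, mul_one]
        have h10 : Real.exp (κ * Φ) * (1 + B₁ + B₂ * w' (-1)) =
            Real.exp (κ * Φ) + Real.exp (κ * Φ) * (B₁ + B₂ * w' (-1)) := by ring
        linarith
      · rw [AZ.psum_succ, AZ.nb_zero, Finset.sum_pair (by norm_num)]
        have hn : ∀ y, 0 ≤ ∑ n ∈ range N, Kv C v n y := fun y => AZ.psum_nonneg C v N y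
        have h8 := key _ _ (hn 1) (hn (-1)) h3 h5
        have h9 : (if N = 0 then 0 else C.p 0 0 * Real.exp (v 0)) ≤ Real.exp (κ * Φ) := by
          split_ifs
          · exact hE.le
          · have h11 : C.p 0 0 * Real.exp (v 0) ≤ 1 * Real.exp (κ * Φ) :=
              mul_le_mul (hp1 0) (hev 0) (Real.exp_pos _).le zero_le_one
            linarith
        have h10 : Real.exp (κ * Φ) * (1 + B₁ + B₂ * w' (-1)) =
            Real.exp (κ * Φ) + Real.exp (κ * Φ) * (B₁ + B₂ * w' (-1)) := by ring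
        linarith
  · obtain ⟨h2, h3⟩ := hr N x (by omega)
    rw [hwpos x (by omega), mul_one]
    have h4 : B₁ ≤ B := by linarith
    exact ⟨h2.trans h4, h3.trans h4⟩

/-- If `ℓ > 0` then `φ ≥ ℓ/2` on `x ≤ -R` and `V x ≥ k ℓ / 2` for `x ≤ -R - k` (induction on `k`):
`V` is not bounded. -/
theorem vl_zero (C : Chain) {φ : ℤ → ℝ} {ℓ : ℝ} (h0 : ∀ x, 0 ≤ φ x) (hL : VL C φ)
    (hφ : Tendsto φ atBot (𝓝 ℓ)) : ℓ ≤ 0 := by
  have _ := h0
  by_contra hcon
  push Not at hcon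
  obtain ⟨V, K, hV1, hV2⟩ := hL
  obtain ⟨R, hR⟩ := eventually_atBot.1 (hφ.eventually_const_lt (show ℓ / 2 < ℓ by linarith))
  have hsum1 : ∀ x : ℤ, (AZ.cneg C).p x (x - 1) + (AZ.cneg C).p x x +
      (AZ.cneg C).p x (x + 1) = 1 := by
    intro x
    rw [← (AZ.cneg C).sum_one x, AZ.sum_nb x (fun y => (AZ.cneg C).p x y)]
  have hk : ∀ (k : ℕ) (x : ℤ), 1 ≤ x → -R + k ≤ x → k ≤ x → (k : ℝ) * (ℓ / 2) ≤ V x := by
    intro k
    induction k with
    | zero =>
      intro x hx _ _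
      rw [Nat.cast_zero, zero_mul]
      exact (hV1 x (by omega)).1
    | succ k ih =>
      intro x hx hx1 hx2
      push_cast at hx1 hx2
      have h2 : ℓ / 2 < φ (-x) := hR (-x) (by omega)
      have h3 := hV2 x hx
      have hn := (AZ.cneg C).nonneg x
      have h4 : (k : ℝ) * (ℓ / 2) ≤ V (x - 1) := by
        rcases Nat.eq_zero_or_pos k with hk0 | hk0
        · rw [hk0, Nat.cast_zero, zero_mul]
          exact (hV1 (x - 1) (by omega)).1
        · exact ih (x - 1) (by omega) (by omega) (by omega)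
      have h5 := ih x (by omega) (by omega) (by omega)
      have h6 := ih (x + 1) (by omega) (by omega) (by omega)
      have h7 := mul_le_mul_of_nonneg_left h4 (hn (x - 1))
      have h8 := mul_le_mul_of_nonneg_left h5 (hn x)
      have h9 := mul_le_mul_of_nonneg_left h6 (hn (x + 1))
      have h10 : ((AZ.cneg C).p x (x - 1) + (AZ.cneg C).p x x + (AZ.cneg C).p x (x + 1)) *
          ((k : ℝ) * (ℓ / 2)) = (k : ℝ) * (ℓ / 2) := by rw [hsum1, one_mul]
      dsimp only at h3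
      push_cast
      nlinarith
  obtain ⟨k, hk1⟩ := exists_nat_gt (K / (ℓ / 2))
  have hℓ2 : 0 < ℓ / 2 := by linarith
  rw [div_lt_iff₀ hℓ2] at hk1
  have h2 := hk k (max 1 (max (-R + k) k)) (le_max_left _ _)
    ((le_max_left _ _).trans (le_max_right _ _)) ((le_max_right _ _).trans (le_max_right _ _))
  have h3 := (hV1 (max 1 (max (-R + k) k)) (zero_le_one.trans (le_max_left _ _))).2
  linarith

/-- `Kv (v + ε) n (-1) ≤ e^((κ₀ Φ + ε) n) K0 n (-1)`, with `κ₀ Φ ≤ c/4`, `ε = c/4` -/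
theorem ldec_exp (C : Chain) {φ : ℤ → ℝ} {Φ : ℝ} (h1 : ∀ x, φ x ≤ Φ) (hΦ : 0 < Φ)
    (hL : ExpLeft C) : ∃ κ₀ : ℝ, 0 < κ₀ ∧ ∀ v : ℤ → ℝ, (∀ z, v z ≤ κ₀ * φ z) → (∀ x, 0 ≤ φ x) →
      ∃ ε : ℝ, 0 < ε ∧ ∃ B : ℝ, ∀ N : ℕ, ∑ n ∈ range N, Kv C (fun z => v z + ε) n (-1) ≤ B := by
  obtain ⟨c, B, hc, hB⟩ := hL
  have hB0 : 0 ≤ B := by
    have h2 := (MP_daa227_pr.K0_nonneg C 0 (-1)).trans (hB 0)
    exact nonneg_of_mul_nonneg_left h2 (Real.exp_pos _)
  refine ⟨c / (4 * Φ), by positivity, fun v hv _ => ⟨c / 4, by positivity,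
    B * (1 - Real.exp (-(c / 2)))⁻¹, fun N => ?_⟩⟩
  refine LSid.exp_sum (by positivity) hB0 (fun n => ?_) N
  have h2 : ∀ z, v z + c / 4 ≤ c / 2 := by
    intro z
    have h3 : c / (4 * Φ) * φ z ≤ c / (4 * Φ) * Φ :=
      mul_le_mul_of_nonneg_left (h1 z) (by positivity)
    have h4 : c / (4 * Φ) * Φ = c / 4 := by
      field_simp
    have h5 := hv z
    linarith
  refine (AZ.Kv_mono C (w := fun _ => c / 2) h2 n (-1)).trans ?_
  rw [LSid.kv_const]
  calc Real.exp (c / 2 * n) * K0 C n (-1)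
      ≤ Real.exp (c / 2 * n) * (B * Real.exp (-(c * n))) :=
        mul_le_mul_of_nonneg_left (hB n) (Real.exp_pos _).le
    _ = B * (Real.exp (c / 2 * n) * Real.exp (-(c * n))) := by ring
    _ = B * Real.exp (-(c / 2 * n)) := by
        rw [← Real.exp_add]
        congr 2
        ring

end

end Pool.Agent.IG
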