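import Pool.Agent.Lib.MP_daa227_pr_IG.Exact
import Pool.Agent.Lib.MP_daa227_pr_IG.LMod
import Pool.Agent.Lib.MP_daa227_pr_IG.LPsi
import Pool.Agent.Lib.MP_daa227_pr_IG.LSid
import Pool.Agent.Lib.MP_daa227_pr_IG.LSq

/-!
# MP_daa227_pr, small inverse temperature, loop exponent less than one half: bounded second moment
-/

namespace Pool.Agent.IG

open MeasureTheory ProbabilityTheory Finset Filter Topology
open MP_daa227_pr (Chain Zk Zf Gk Gf KU K0 Ren shift seqLaw ExpMom DepOn Good GoodW mom)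
open Pool.Agent.AZ (Mod Kv lmg)
open Pool.Agent.IOrd (Sys aS cv)

noncomputable section

/-- a uniform lower bound from an eventual one -/
theorem low_all {f : ℕ → ℝ} (hf : ∀ n : ℕ, 1 ≤ n → 0 < f n) {A : ℝ}
    (h : ∀ᶠ n : ℕ in atTop, ((2 * n : ℕ) : ℝ) ^ (-A) ≤ f n) :
    ∃ c : ℝ, 0 < c ∧ ∀ n : ℕ, 1 ≤ n → c * ((2 * n : ℕ) : ℝ) ^ (-A) ≤ f n := by
  obtain ⟨N, hN⟩ := eventually_atTop.1 h
  have key : ∀ m : ℕ, ∃ c : ℝ, 0 < c ∧ c ≤ 1 ∧ ∀ n : ℕ, 1 ≤ n → n < m →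
      c * ((2 * n : ℕ) : ℝ) ^ (-A) ≤ f n := by
    intro m
    induction m with
    | zero => exact ⟨1, one_pos, le_rfl, fun n _ h2 => absurd h2 (Nat.not_lt_zero n)⟩
    | succ m ih =>
      obtain ⟨c, hc, hc1, hcm⟩ := ih
      rcases Nat.eq_zero_or_pos m with h0 | h0
      · exact ⟨1, one_pos, le_rfl, fun n h1 h2 => by omega⟩
      · have hp : (0 : ℝ) < ((2 * m : ℕ) : ℝ) ^ (-A) :=
          Real.rpow_pos_of_pos (by exact_mod_cast (by omega : 0 < 2 * m)) _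
        refine ⟨min c (f m / ((2 * m : ℕ) : ℝ) ^ (-A)), lt_min hc (div_pos (hf m h0) hp),
          (min_le_left _ _).trans hc1, fun n h1 h2 => ?_⟩
        have hq : (0 : ℝ) < ((2 * n : ℕ) : ℝ) ^ (-A) :=
          Real.rpow_pos_of_pos (by exact_mod_cast (by omega : 0 < 2 * n)) _
        rcases Nat.lt_or_ge n m with h3 | h3
        · exact (mul_le_mul_of_nonneg_right (min_le_left _ _) hq.le).trans (hcm n h1 h3)
        · have h4 : n = m := by omega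
          subst h4
          calc min c (f n / ((2 * n : ℕ) : ℝ) ^ (-A)) * ((2 * n : ℕ) : ℝ) ^ (-A) ≤
                f n / ((2 * n : ℕ) : ℝ) ^ (-A) * ((2 * n : ℕ) : ℝ) ^ (-A) :=
                mul_le_mul_of_nonneg_right (min_le_right _ _) hq.le
            _ = f n := div_mul_cancel₀ _ hq.ne'
  obtain ⟨c, hc, hc1, hcm⟩ := key N
  refine ⟨c, hc, fun n h1 => ?_⟩
  rcases Nat.lt_or_ge n N with h2 | h2
  · exact hcm n h1 h2
  · have hq : (0 : ℝ) ≤ ((2 * n : ℕ) : ℝ) ^ (-A) := Real.rpow_nonneg (Nat.cast_nonneg _) _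
    exact (mul_le_of_le_one_left hq hc1).trans (hN n h2)

/-- small inverse temperature, loop exponent less than one half: the second moment of the pinned
partition functions is bounded at the annealed critical point -/
theorem small_bdd (M : Mod) {α : ℝ} (hα0 : 0 ≤ α) (hα : α < 1 / 2) (hA : PolyA M α)
    (hR : VR M.C M.φ) (hL : VL M.C M.φ ∨ ExpLeft M.C) : ∃ β₀ : ℝ, 0 < β₀ ∧
      ∀ (b : ℝ) (hb : 0 < b), b ≤ β₀ → ∃ h₀ K : ℝ, 0 < h₀ ∧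
        (∀ N : ℕ, ∑ n ∈ range N, (withB M b hb).g h₀ n ≤ 1) ∧
        (∀ h : ℝ, 0 ≤ h → h < h₀ → ∃ N : ℕ, 1 < ∑ n ∈ range N, (withB M b hb).g h n) ∧
        (0 < M.ℓ → LDec (withB M b hb) h₀) ∧
        ∀ n : ℕ, mom M.μ 2 (fun ω => (withB M b hb).Z h₀ (2 * n) ω) ≤ ENNReal.ofReal K := by
  obtain ⟨w, κ₀, B, hκ₀, hB, hw0, hw, hside⟩ := side M.C M.hrec M.φ_nonneg M.φ_le hR hL
  obtain ⟨C₁, hC₁, hψ⟩ := ww_le M
  obtain ⟨C₂, hC₂, hh⟩ := h0_small M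
  obtain ⟨C₃, hC₃⟩ := AZ.lmg_quad M.exp_mom M.mean M.Φ
  -- left decay
  obtain ⟨κ₁, hκ₁, hld⟩ : ∃ κ₁ : ℝ, 0 < κ₁ ∧ (0 < M.ℓ → ∀ v : ℤ → ℝ, (∀ z, v z ≤ κ₁ * M.φ z) →
      ∃ ε : ℝ, 0 < ε ∧ ∃ B : ℝ, ∀ N : ℕ,
        ∑ n ∈ range N, Kv M.C (fun z => v z + ε) n (-1) ≤ B) := by
    rcases hL with hL | hL
    · refine ⟨1, one_pos, fun hℓ => ?_⟩
      exact absurd (vl_zero M.C M.φ_nonneg hL M.φ_bot) (not_le.2 hℓ)
    · obtain ⟨κ₁, h1, h2⟩ := ldec_exp M.C M.φ_le M.Φ_pos hL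
      exact ⟨κ₁, h1, fun _ v hv => h2 v hv M.φ_nonneg⟩
  set a : ℝ := (α + 1 / 2) / 2 with ha
  have ha0 : 0 < a := by rw [ha]; linarith
  have ha1 : a < 1 / 2 := by rw [ha]; linarith
  obtain ⟨c, hc, hlow⟩ := low_all (f := fun n => Kv M.C (fun z => -1 * M.φ z) (2 * n) 0)
    (fun n hn => AZ.Kv_even_pos M.C _ hn) (A := 1 + a) (by
      have h1 := hA 1 one_pos (a - α) (by rw [ha]; linarith)
      have h2 : 1 + α + (a - α) = 1 + a := by ring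
      rwa [h2] at h1)
  obtain ⟨U, hU, hsq⟩ := ren_sq hc ha0 ha1
  set B₂ : ℝ := B * (1 + U * B) with hB₂
  have hB0 : 0 < B := zero_lt_one.trans_le hB
  have hB₂0 : 0 < B₂ := by rw [hB₂]; positivity
  have hΦ := M.Φ_pos
  -- the choice of the inverse temperature
  set D : ℝ := 1 + C₂ + (|C₃| * M.Φ) / κ₀ + (|C₃| * M.Φ) / κ₁ + 2 * C₁ * B₂ ^ 2 with hD
  have hD1 : 1 ≤ D := by
    have h1 : 0 ≤ (|C₃| * M.Φ) / κ₀ := by positivity
    have h2 : 0 ≤ (|C₃| * M.Φ) / κ₁ := by positivity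
    have h3 : 0 ≤ 2 * C₁ * B₂ ^ 2 := by positivity
    rw [hD]; linarith
  have hD0 : 0 < D := by linarith
  refine ⟨1 / D, by positivity, fun b hb hbD => ?_⟩
  have hb1 : b ≤ 1 := hbD.trans (by rw [div_le_one hD0]; exact hD1)
  have hb2 : b ^ 2 * D ≤ 1 := by
    have h1 : b * D ≤ 1 := by rwa [le_div_iff₀ hD0] at hbD
    nlinarith
  have hbb : 0 < b ^ 2 := by positivity
  have hparts : b ^ 2 * C₂ ≤ 1 ∧ b ^ 2 * (|C₃| * M.Φ) ≤ κ₀ ∧ b ^ 2 * (|C₃| * M.Φ) ≤ κ₁ ∧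
      C₁ * b ^ 2 * B₂ ^ 2 ≤ 1 / 2 := by
    have h1 : 0 ≤ (|C₃| * M.Φ) / κ₀ := by positivity
    have h2 : 0 ≤ (|C₃| * M.Φ) / κ₁ := by positivity
    have h3 : 0 ≤ 2 * C₁ * B₂ ^ 2 := by positivity
    refine ⟨?_, ?_, ?_, ?_⟩
    · refine le_trans (mul_le_mul_of_nonneg_left ?_ hbb.le) hb2
      rw [hD]; linarith
    · have h4 : b ^ 2 * ((|C₃| * M.Φ) / κ₀) ≤ 1 := by
        refine le_trans (mul_le_mul_of_nonneg_left ?_ hbb.le) hb2
        rw [hD]; linarith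
      rw [← mul_div_assoc, div_le_one hκ₀] at h4
      exact h4
    · have h4 : b ^ 2 * ((|C₃| * M.Φ) / κ₁) ≤ 1 := by
        refine le_trans (mul_le_mul_of_nonneg_left ?_ hbb.le) hb2
        rw [hD]; linarith
      rw [← mul_div_assoc, div_le_one hκ₁] at h4
      exact h4
    · have h4 : b ^ 2 * (2 * C₁ * B₂ ^ 2) ≤ 1 := by
        refine le_trans (mul_le_mul_of_nonneg_left ?_ hbb.le) hb2
        rw [hD]; linarith
      nlinarith
  obtain ⟨hp1, hp2, hp3, hp4⟩ := hparts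
  obtain ⟨h₀, hpos, hs, hlt⟩ := (withB M b hb).exists_h0
  have hh₀ : h₀ ≤ 1 := by
    have h1 := hh b hb hb1 h₀ hlt
    linarith
  -- bounds for the exponents
  have hv : ∀ κ : ℝ, b ^ 2 * (|C₃| * M.Φ) ≤ κ → ∀ z, (withB M b hb).v h₀ z ≤ κ * M.φ z := by
    intro κ hκ z
    have h1 := M.φ_nonneg z
    have h2 := M.φ_le z
    have h3 : lmg M.μ (b * M.φ z) ≤ C₃ * (b * M.φ z) ^ 2 := hC₃.2 _ (by
      rw [abs_of_nonneg (mul_nonneg hb.le h1)]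
      calc b * M.φ z ≤ 1 * M.Φ := mul_le_mul hb1 h2 h1 zero_le_one
        _ = M.Φ := one_mul _)
    have h4 : C₃ * (b * M.φ z) ^ 2 ≤ b ^ 2 * (|C₃| * M.Φ) * M.φ z := by
      have h5 : C₃ ≤ |C₃| := le_abs_self _
      have h6 : (b * M.φ z) ^ 2 ≤ b ^ 2 * (M.Φ * M.φ z) := by
        have : M.φ z ^ 2 ≤ M.Φ * M.φ z := by nlinarith
        calc (b * M.φ z) ^ 2 = b ^ 2 * M.φ z ^ 2 := by ring
          _ ≤ _ := mul_le_mul_of_nonneg_left this hbb.le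
      calc C₃ * (b * M.φ z) ^ 2 ≤ |C₃| * (b * M.φ z) ^ 2 :=
            mul_le_mul_of_nonneg_right h5 (sq_nonneg _)
        _ ≤ |C₃| * (b ^ 2 * (M.Φ * M.φ z)) := mul_le_mul_of_nonneg_left h6 (abs_nonneg _)
        _ = _ := by ring
    change lmg M.μ (b * M.φ z) - h₀ * M.φ z ≤ κ * M.φ z
    have h7 : 0 ≤ h₀ * M.φ z := mul_nonneg hpos.le h1
    have h8 : b ^ 2 * (|C₃| * M.Φ) * M.φ z ≤ κ * M.φ z := mul_le_mul_of_nonneg_right hκ h1
    linarith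
  have hsd := hside ((withB M b hb).v h₀) (hv κ₀ hp2)
  have hgK : ∀ N : ℕ, ∑ n ∈ range N, Kv M.C ((withB M b hb).v h₀) n 0 ≤ 1 := hs
  have hzd := zd_bound M.C ((withB M b hb).v h₀) hgK hw0 hw hB (fun N x => (hsd N x).2)
  have hzsq := hsq (fun n => Kv M.C ((withB M b hb).v h₀) n 0)
    (fun n => AZ.Zd M.C ((withB M b hb).v h₀) n 0 0) (fun n => AZ.Kv_nonneg _ _ _ _)
    (AZ.Kv_zero _ _ _) (fun n => AZ.Zd_nonneg _ _ _ _ _) (AZ.Zd_zero _ _ _)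
    (fun n hn => AZ.Zd_renewal _ _ hn) hgK (fun n hn => by
      refine (hlow n hn).trans (AZ.Kv_mono M.C (fun z => ?_) _ _)
      have h1 := AZ.lmg_nonneg M.exp_mom M.mean (b * M.φ z)
      change -1 * M.φ z ≤ lmg M.μ (b * M.φ z) - h₀ * M.φ z
      have h2 : h₀ * M.φ z ≤ 1 * M.φ z := mul_le_mul_of_nonneg_right hh₀ (M.φ_nonneg z)
      linarith)
  have hf := sq_bound M.C ((withB M b hb).v h₀) (w := w) (η := fun z => M.φ z * w z)
    (fun x => mul_nonneg (M.φ_nonneg x) (hw x)) hw0 hw hB0.le hU.le (fun N x => (hsd N x).1)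
    (fun N x => (hsd N x).2) hzsq
  have htwo := fun n => two_bound (withB M b hb) (h := h₀) (κ := C₁ * b ^ 2) (by positivity)
    (hψ b hb hb1 h₀) hw hB0.le hB₂0.le hzd hf hp4 n 0 0
  refine ⟨h₀, 2 * B ^ 2 * (w 0 * w 0), hpos, hs, hlt, fun hℓ => hld hℓ _ (hv κ₁ hp3), fun n => ?_⟩
  rw [show mom M.μ 2 (fun ω => (withB M b hb).Z h₀ (2 * n) ω) =
    ENNReal.ofReal (D2 (withB M b hb) h₀ (2 * n) 0 0) from mom_two (withB M b hb) h₀ (2 * n)]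
  exact ENNReal.ofReal_le_ofReal (htwo (2 * n))

/-- small inverse temperature, `0 < α < 1/2`: the critical point, a bounded moment there -/
theorem small_beta (M : Mod) {α : ℝ} (hα0 : 0 < α) (hα : α < 1 / 2) (hA : PolyA M α)
    (hU : KUp M.C α) (hR : VR M.C M.φ) (hL : VL M.C M.φ ∨ ExpLeft M.C) : ∃ β₀ : ℝ, 0 < β₀ ∧
      ∀ (b : ℝ) (hb : 0 < b), b ≤ β₀ → ∃ h₀ K : ℝ, 0 < h₀ ∧
        (∀ h, 0 < (withB M b hb).Fr h ↔ h < h₀) ∧
        ∀ n : ℕ, mom M.μ 2 (fun ω => (withB M b hb).Z h₀ (2 * n) ω) ≤ ENNReal.ofReal K := by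
  obtain ⟨β₀, hβ₀, h⟩ := small_bdd M hα0.le hα hA hR hL
  refine ⟨β₀, hβ₀, fun b hb hbb => ?_⟩
  obtain ⟨h₀, K, h0, hg, hlt, hdec, hm⟩ := h b hb hbb
  refine ⟨h₀, K, h0, ?_, hm⟩
  have hA' : PolyA (withB M b hb) α := hA
  exact crit_of_bdd (withB M b hb) (polyCost_of_polyA (withB M b hb) hA') h0 one_lt_two hm hg hlt
    hdec (a := α / 2) (by linarith) (by linarith)
    (ftail_of_up M.C M.hnl hU (by linarith) (by linarith) (by linarith))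
    (fun _ => ftail_of_up_neg M.C M.hnl hU (by linarith) (by linarith) (by linarith))

end

end Pool.Agent.IG
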