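import Pool.Agent.Lib.MP_daa227_pr_IG.LTwo
import Pool.Agent.Lib.MP_daa227_pr_AS.Defs
import Pool.Agent.Lib.MP_daa227_pr_AS.Last
import Pool.Agent.Lib.MP_daa227_pr_AZ.AnnFree

/-!
# MP_daa227_pr, small inverse temperature: square sums by first and last visits
-/

namespace Pool.Agent.IG

open MeasureTheory ProbabilityTheory Finset Filter Topology
open MP_daa227_pr (Chain Zk Zf Gk Gf KU K0 Ren shift seqLaw ExpMom DepOn Good GoodW mom)
open Pool.Agent.AZ (Mod Kv lmg)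
open Pool.Agent.IOrd (Sys aS cv)

noncomputable section

/-- Cauchy-Schwarz: `(∑_j a_j b_{n-j})² ≤ (∑ a) ∑_j a_j b_{n-j}²`, then sum over `n` -/
theorem young {a b : ℕ → ℝ} (ha : ∀ n, 0 ≤ a n) (hb : ∀ n, 0 ≤ b n) {A B : ℝ}
    (hA : ∀ N : ℕ, ∑ n ∈ range N, a n ≤ A) (hB : ∀ N : ℕ, ∑ n ∈ range N, b n ^ 2 ≤ B) (N : ℕ) :
    ∑ n ∈ range N, (∑ j ∈ range (n + 1), a j * b (n - j)) ^ 2 ≤ A ^ 2 * B := by
  have hA0 : 0 ≤ A := by
    have := hA 0
    simpa using this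
  have h1 : ∀ n ∈ range N, (∑ j ∈ range (n + 1), a j * b (n - j)) ^ 2 ≤
      A * ∑ j ∈ range (n + 1), a j * b (n - j) ^ 2 := by
    intro n _
    have h2 := Finset.sum_mul_sq_le_sq_mul_sq (range (n + 1)) (fun j => Real.sqrt (a j))
      (fun j => Real.sqrt (a j) * b (n - j))
    have h3 : ∀ j, Real.sqrt (a j) * (Real.sqrt (a j) * b (n - j)) = a j * b (n - j) := by
      intro j
      rw [← mul_assoc, Real.mul_self_sqrt (ha j)]
    have h4 : ∀ j, Real.sqrt (a j) ^ 2 = a j := fun j => Real.sq_sqrt (ha j)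
    simp only [h3, mul_pow, h4] at h2
    refine h2.trans (mul_le_mul_of_nonneg_right (hA (n + 1)) ?_)
    exact Finset.sum_nonneg fun j _ => mul_nonneg (ha j) (sq_nonneg _)
  refine (Finset.sum_le_sum h1).trans ?_
  rw [← Finset.mul_sum]
  have h5 : ∑ n ∈ range N, ∑ j ∈ range (n + 1), a j * b (n - j) ^ 2 =
      ∑ j ∈ range N, ∑ n ∈ Finset.Ico j N, a j * b (n - j) ^ 2 := by
    refine Finset.sum_comm' fun n j => ?_
    simp only [Finset.mem_range, Finset.mem_Ico]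
    omega
  have h6 : ∑ j ∈ range N, ∑ n ∈ Finset.Ico j N, a j * b (n - j) ^ 2 ≤
      ∑ j ∈ range N, a j * B := by
    refine Finset.sum_le_sum fun j _ => ?_
    rw [← Finset.mul_sum, Finset.sum_Ico_eq_sum_range]
    refine mul_le_mul_of_nonneg_left ?_ (ha j)
    simp only [Nat.add_sub_cancel_left]
    exact hB (N - j)
  have hB0 : 0 ≤ B := by
    have := hB 0
    simpa using this
  rw [h5]
  calc A * ∑ j ∈ range N, ∑ n ∈ Finset.Ico j N, a j * b (n - j) ^ 2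
      ≤ A * ∑ j ∈ range N, a j * B := mul_le_mul_of_nonneg_left h6 hA0
    _ = A * ((∑ j ∈ range N, a j) * B) := by rw [Finset.sum_mul]
    _ ≤ A * (A * B) := mul_le_mul_of_nonneg_left (mul_le_mul_of_nonneg_right (hA N) hB0) hA0
    _ = A ^ 2 * B := by ring

/-- `young` with the factors exchanged -/
theorem young_symm {a b : ℕ → ℝ} (ha : ∀ n, 0 ≤ a n) {A B : ℝ}
    (hA : ∀ N : ℕ, ∑ n ∈ range N, a n ≤ A) (hB : ∀ N : ℕ, ∑ n ∈ range N, b n ^ 2 ≤ B) (N : ℕ)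
    (hb : ∀ n, 0 ≤ b n) :
    ∑ n ∈ range N, (∑ j ∈ range (n + 1), b j * a (n - j)) ^ 2 ≤ A ^ 2 * B := by
  have h : ∀ n, ∑ j ∈ range (n + 1), b j * a (n - j) = ∑ j ∈ range (n + 1), a j * b (n - j) := by
    intro n
    rw [← Finset.sum_range_reflect]
    refine Finset.sum_congr rfl fun j hj => ?_
    have hj' := Finset.mem_range.mp hj
    have h1 : n + 1 - 1 - j = n - j := by omega
    have h2 : n - (n - j) = j := by omega
    rw [h1, h2, mul_comm]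
  simp only [h]
  exact young ha hb hA hB N

theorem mink {f g : ℕ → ℝ} {P Q : ℝ} (hP : 0 ≤ P) (hQ : 0 ≤ Q) (N : ℕ)
    (h1 : ∑ n ∈ range N, f n ^ 2 ≤ P ^ 2) (h2 : ∑ n ∈ range N, g n ^ 2 ≤ Q ^ 2) :
    ∑ n ∈ range N, (f n + g n) ^ 2 ≤ (P + Q) ^ 2 := by
  have h3 : ∑ n ∈ range N, f n * g n ≤ P * Q := by
    refine (abs_le_of_sq_le_sq' ?_ (mul_nonneg hP hQ)).2
    refine (Finset.sum_mul_sq_le_sq_mul_sq _ _ _).trans ?_
    refine (mul_le_mul h1 h2 (Finset.sum_nonneg fun _ _ => sq_nonneg _)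
      (sq_nonneg _)).trans (le_of_eq ?_)
    ring
  have h4 : ∑ n ∈ range N, (f n + g n) ^ 2 = ∑ n ∈ range N, f n ^ 2 +
      2 * ∑ n ∈ range N, f n * g n + ∑ n ∈ range N, g n ^ 2 := by
    rw [Finset.mul_sum, ← Finset.sum_add_distrib, ← Finset.sum_add_distrib]
    refine Finset.sum_congr rfl fun n _ => ?_
    ring
  rw [h4]
  nlinarith

theorem sq_le_one_norm {f : ℕ → ℝ} (hf : ∀ n, 0 ≤ f n) {A : ℝ}
    (hA : ∀ N : ℕ, ∑ n ∈ range N, f n ≤ A) (N : ℕ) : ∑ n ∈ range N, f n ^ 2 ≤ A ^ 2 := by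
  have hA0 : 0 ≤ A := by
    have := hA 0
    simpa using this
  calc ∑ n ∈ range N, f n ^ 2 ≤ ∑ n ∈ range N, f n * A := by
        refine Finset.sum_le_sum fun n _ => ?_
        rw [sq]
        refine mul_le_mul_of_nonneg_left ?_ (hf n)
        exact (Finset.single_le_sum (fun i _ => hf i)
          (Finset.mem_range.mpr (Nat.lt_succ_self n))).trans (hA (n + 1))
    _ = (∑ n ∈ range N, f n) * A := by rw [Finset.sum_mul]
    _ ≤ A * A := mul_le_mul_of_nonneg_right (hA N) hA0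
    _ = A ^ 2 := by ring

theorem fn_tn (C : Chain) (v η : ℤ → ℝ) (n : ℕ) (x : ℤ) : Fn C v η n x = AS.Tn C v η n x := by
  induction n generalizing x with
  | zero => rfl
  | succ n ih =>
    rw [Fn, AS.Tn]
    exact Finset.sum_congr rfl fun z _ => by rw [ih z]

/-- decomposition at the first visit to `0` -/
theorem fn_first (C : Chain) (v η : ℤ → ℝ) (n : ℕ) (x : ℤ) : Fn C v η n x =
    AS.Nn C v η n x + ∑ j ∈ range (n + 1), Kv C v j x * Fn C v η (n - j) 0 := by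
  have h1 := AS.first_return C v η n x
  rw [AS.sum_Ioc_shift (fun t => Kv C v t x * AS.Tn C v η (n - t) 0)] at h1
  rw [fn_tn, h1, Finset.sum_range_succ', AZ.Kv_zero, zero_mul, add_zero, add_comm]
  simp only [fn_tn]

/-- decomposition at the last visit to `0` -/
theorem fn_last (C : Chain) (v η : ℤ → ℝ) (n : ℕ) : Fn C v η n 0 =
    ∑ k ∈ range (n + 1), AZ.Zd C v k 0 0 * AS.Nn C v η (n - k) 0 := by
  rw [fn_tn, AS.last_zero]

theorem nn_ind (C : Chain) (v : ℤ → ℝ) (n : ℕ) (x : ℤ) :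
    AS.Nn C v (fun z => if z = 0 then 1 else 0) (n + 1) x = 0 := by
  induction n generalizing x with
  | zero =>
    rw [AS.Nn]
    refine Finset.sum_eq_zero fun z hz => ?_
    have h1 : z ≠ 0 := by
      have := (Finset.mem_sdiff.mp hz).2
      simpa using this
    rw [AS.Nn, if_neg h1, mul_zero]
  | succ n ih =>
    rw [AS.Nn]
    refine Finset.sum_eq_zero fun z _ => ?_
    rw [ih z, mul_zero]

theorem nn_nonneg (C : Chain) (v : ℤ → ℝ) {η : ℤ → ℝ} (hη : ∀ x, 0 ≤ η x) (n : ℕ) (x : ℤ) :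
    0 ≤ AS.Nn C v η n x := by
  induction n generalizing x with
  | zero => exact hη x
  | succ n ih =>
    rw [AS.Nn]
    exact Finset.sum_nonneg fun z _ =>
      mul_nonneg (mul_nonneg (C.nonneg _ _) (Real.exp_pos _).le) (ih z)

/-- `AZ.Zd C v n x 0 = ∑_j Kv C v j x * Zd C v (n - j) 0 0` for `n ≥ 1` (`fn_first` with
`η = 1_{0}`), and `Zd _ _ n 0 0 ≤ 1` (`AZ.Upper.Zd_le_one`) -/
theorem zd_bound (C : Chain) (v : ℤ → ℝ) (hg : ∀ N : ℕ, ∑ n ∈ range N, Kv C v n 0 ≤ 1)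
    {w : ℤ → ℝ} (hw0 : w 0 = 1) (hw : ∀ x, 0 ≤ w x) {B : ℝ} (hB : 1 ≤ B)
    (hK : ∀ (N : ℕ) (x : ℤ), ∑ n ∈ range N, Kv C v n x ≤ B * w x) (n : ℕ) (x : ℤ) :
    AZ.Zd C v n x 0 ≤ B * w x := by
  rcases n with _ | n
  · have h1 : AZ.Zd C v 0 x 0 = if x = 0 then 1 else 0 := by
      unfold AZ.Zd
      rw [Zk]
    rw [h1]
    split_ifs with h
    · rw [h, hw0, mul_one]
      exact hB
    · exact mul_nonneg (by linarith) (hw x)
  · rw [← fn_zd, fn_first, nn_ind, zero_add]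
    refine le_trans (Finset.sum_le_sum fun j _ => ?_) (hK (n + 1 + 1) x)
    rw [fn_zd]
    exact mul_le_of_le_one_right (AZ.Kv_nonneg C v j x) (AZ.AnnFree.Zd_le_one C v hg _)

/-- Norms in `ℓ²` of `n ↦ Fn n x`: by `fn_first`, `fn_last` and `young` twice,
`‖Fn x‖ ≤ ‖Nn x‖₁ + ‖Kv x‖₁ ‖Zd 0‖₂ ‖Nn 0‖₁ ≤ B w x + B w x √U B` (`‖·‖₂ ≤ ‖·‖₁`; Minkowski). -/
theorem sq_bound (C : Chain) (v : ℤ → ℝ) {w η : ℤ → ℝ} (hη : ∀ x, 0 ≤ η x) (hw0 : w 0 = 1)
    (hw : ∀ x, 0 ≤ w x) {B U : ℝ} (hB : 0 ≤ B) (hU0 : 0 ≤ U)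
    (hN : ∀ (N : ℕ) (x : ℤ), ∑ i ∈ range N, AS.Nn C v η i x ≤ B * w x)
    (hK : ∀ (N : ℕ) (x : ℤ), ∑ n ∈ range N, Kv C v n x ≤ B * w x)
    (hU : ∀ N : ℕ, ∑ n ∈ range N, AZ.Zd C v n 0 0 ^ 2 ≤ U ^ 2) (n : ℕ) (x : ℤ) :
    ∑ i ∈ range n, Fn C v η (i + 1) x ^ 2 ≤ (B * (1 + U * B) * w x) ^ 2 := by
  have hBw : 0 ≤ B * w x := mul_nonneg hB (hw x)
  have h0 : ∀ N : ℕ, ∑ i ∈ range N, Fn C v η i 0 ^ 2 ≤ (B * U) ^ 2 := by
    intro N
    simp only [fn_last]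
    have h1 := young_symm (a := fun i => AS.Nn C v η i 0) (b := fun i => AZ.Zd C v i 0 0)
      (fun i => nn_nonneg C v hη i 0) (A := B) (B := U ^ 2)
      (fun N => by
        have := hN N 0
        rwa [hw0, mul_one] at this) hU N (fun i => AZ.Zd_nonneg C v i 0 0)
    refine h1.trans (le_of_eq ?_)
    ring
  have h2 : ∀ N : ℕ, ∑ i ∈ range N, (∑ j ∈ range (i + 1),
      Kv C v j x * Fn C v η (i - j) 0) ^ 2 ≤ (B * w x * (B * U)) ^ 2 := by
    intro N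
    have h1 := young (a := fun i => Kv C v i x) (b := fun i => Fn C v η i 0)
      (fun i => AZ.Kv_nonneg C v i x) (fun i => fn_nonneg C v hη i 0) (hK · x) h0 N
    refine h1.trans (le_of_eq ?_)
    ring
  have h3 : ∀ N : ℕ, ∑ i ∈ range N, AS.Nn C v η i x ^ 2 ≤ (B * w x) ^ 2 := fun N =>
    sq_le_one_norm (fun i => nn_nonneg C v hη i x) (hN · x) N
  have h4 : ∑ i ∈ range (n + 1), Fn C v η i x ^ 2 ≤ (B * w x + B * w x * (B * U)) ^ 2 := by
    simp only [fn_first C v η _ x]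
    exact mink hBw (mul_nonneg hBw (mul_nonneg hB hU0)) (n + 1) (h3 _) (h2 _)
  rw [Finset.sum_range_succ'] at h4
  have h5 := sq_nonneg (Fn C v η 0 x)
  have h6 : (B * (1 + U * B) * w x) ^ 2 = (B * w x + B * w x * (B * U)) ^ 2 := by ring
  rw [h6]
  linarith

end

end Pool.Agent.IG
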