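import Pool.Agent.Lib.MP_daa227_pr_IG.KvB
import Pool.Agent.Lib.MP_daa227_pr_IG.KvG
import Pool.Agent.Lib.MP_daa227_pr_AZ.Lmg
import Pool.Agent.Lib.MP_daa227_pr_AZ.Upper
import Pool.Agent.Lib.MP_daa227_pr_AZ.HZero

/-!
# MP_daa227_pr, general potentials: potentials of copolymer type
-/

namespace Pool.Agent.IG

open MeasureTheory ProbabilityTheory Finset Filter Topology
open MP_daa227_pr (Chain Zk Zf Gk Gf KU K0 Ren shift seqLaw ExpMom DepOn Good GoodW mom)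
open Pool.Agent.AZ (Mod Kv lmg)
open Pool.Agent.IOrd (Sys aS cv)

noncomputable section

/-- strict convexity: `lmg t < lmg (p t) / p` for `t > 0`, `p > 1` (e.g. `AZ.Lmg` on the law of the
charges: if equality held at `t` then Jensen for `y ^ p` would be an equality and `exp (t x)`
constant;
`StrictConvexOn.ae_eq_const_or_map_average_lt`; compare `OT.X1.lmg_strict` and `OT.X1.lmg_convex` in
Lib/MP_daa227_pr_OT/Strict.lean) -/
theorem lmg_strict (M : Mod) {t p : ℝ} (ht : 0 < t) (hp : 1 < p) :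
    lmg M.μ t < lmg M.μ (p * t) / p := by
  have hp0 : 0 < p := by linarith
  have hs : 0 < p * t := mul_pos hp0 ht
  have hvar : ∫ x, x ^ 2 ∂M.μ ≠ 0 := by
    rw [M.var]
    exact one_ne_zero
  have hmid : 2 * lmg M.μ (p * t / 2) < lmg M.μ (p * t) :=
    OT.X1.lmg_strict M.exp_mom hvar M.mean hs
  have h0 : lmg M.μ 0 = 0 := AZ.lmg_zero
  rw [lt_div_iff₀ hp0]
  rcases le_total 2 p with h2 | h2
  · have hc : lmg M.μ (2 / p * (p * t / 2) + (1 - 2 / p) * 0) ≤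
        2 / p * lmg M.μ (p * t / 2) + (1 - 2 / p) * lmg M.μ 0 :=
      OT.X1.lmg_convex M.exp_mom (θ := 2 / p) (by positivity) ((div_le_one hp0).2 h2)
    have e1 : 2 / p * (p * t / 2) + (1 - 2 / p) * 0 = t := by
      field_simp
      ring
    rw [e1, h0, mul_zero, add_zero] at hc
    have h3 := mul_le_mul_of_nonneg_right hc hp0.le
    have e2 : 2 / p * lmg M.μ (p * t / 2) * p = 2 * lmg M.μ (p * t / 2) := by
      field_simp
    rw [e2] at h3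
    linarith
  · have hθ0 : 0 ≤ 2 * (1 - 1 / p) := by
      have : 1 / p ≤ 1 := (div_le_one hp0).2 hp.le
      linarith
    have hθ1 : 2 * (1 - 1 / p) ≤ 1 := by
      have : 1 / 2 ≤ 1 / p := one_div_le_one_div_of_le hp0 h2
      linarith
    have hc : lmg M.μ (2 * (1 - 1 / p) * (p * t / 2) + (1 - 2 * (1 - 1 / p)) * (p * t)) ≤
        2 * (1 - 1 / p) * lmg M.μ (p * t / 2) + (1 - 2 * (1 - 1 / p)) * lmg M.μ (p * t) :=
      OT.X1.lmg_convex M.exp_mom hθ0 hθ1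
    have e1 : 2 * (1 - 1 / p) * (p * t / 2) + (1 - 2 * (1 - 1 / p)) * (p * t) = t := by
      field_simp
      ring
    rw [e1] at hc
    have h3 := mul_le_mul_of_nonneg_right hc hp0.le
    have e2 : (2 * (1 - 1 / p) * lmg M.μ (p * t / 2) + (1 - 2 * (1 - 1 / p)) * lmg M.μ (p * t)) * p
        = (p - 1) * (2 * lmg M.μ (p * t / 2)) + (2 - p) * lmg M.μ (p * t) := by
      field_simp
      ring
    rw [e2] at h3
    have h4 := mul_lt_mul_of_pos_left hmid (sub_pos.2 hp)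
    linarith

/-- If the potential is at most its limit at minus infinity, the critical point is at most
`lmg (β ℓ) / ℓ`: at `h = lmg (β ℓ) / ℓ` all annealed exponents `v h z = lmg (β φ z) - h φ z` are
`≤ 0`
(`lmg` convex, `lmg 0 = 0`), so `∑ g ≤ ∑ K0 ≤ 1` (`AZ.Kv_mono`, `AZ.hz_sum_K0`) and
`Fr h ≤ 0` (`AZ.Mod.Fr_nonpos`). -/
theorem hc_le (M : Mod) (hℓ : 0 < M.ℓ) (hφ : ∀ z, M.φ z ≤ M.ℓ) {hc : ℝ}
    (hcrit : ∀ h, 0 < M.Fr h ↔ h < hc) : hc * M.ℓ ≤ lmg M.μ (M.β * M.ℓ) := by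
  have h0 : lmg M.μ 0 = 0 := AZ.lmg_zero
  have hF : M.Fr (lmg M.μ (M.β * M.ℓ) / M.ℓ) ≤ 0 := by
    apply AZ.Mod.Fr_nonpos
    intro N
    refine le_trans (Finset.sum_le_sum fun n _ => ?_) (AZ.hz_sum_K0 M N)
    apply AZ.Kv_mono
    intro z
    unfold AZ.Mod.v
    have hr0 : 0 ≤ M.φ z / M.ℓ := div_nonneg (M.φ_nonneg z) hℓ.le
    have hr1 : M.φ z / M.ℓ ≤ 1 := (div_le_one hℓ).2 (hφ z)
    have hc : lmg M.μ (M.φ z / M.ℓ * (M.β * M.ℓ) + (1 - M.φ z / M.ℓ) * 0) ≤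
        M.φ z / M.ℓ * lmg M.μ (M.β * M.ℓ) + (1 - M.φ z / M.ℓ) * lmg M.μ 0 :=
      OT.X1.lmg_convex M.exp_mom hr0 hr1
    have e1 : M.φ z / M.ℓ * (M.β * M.ℓ) + (1 - M.φ z / M.ℓ) * 0 = M.β * M.φ z := by
      field_simp
      ring
    rw [e1, h0, mul_zero, add_zero] at hc
    have e2 : lmg M.μ (M.β * M.ℓ) / M.ℓ * M.φ z = M.φ z / M.ℓ * lmg M.μ (M.β * M.ℓ) := by ring
    rw [e2]
    linarith
  have h1 : ¬ lmg M.μ (M.β * M.ℓ) / M.ℓ < hc := fun h => not_lt.2 hF ((hcrit _).2 h)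
  rw [not_lt, le_div_iff₀ hℓ] at h1
  exact h1

/-- Otherwise `mom p (Z hc (2 n)) ≤ C` for all `n` (enlarge `C` to be nonnegative). `kv_bdd` with
`q = p / (p - 1)`, `lam = β ℓ (p - 1)`, `q lam = p β ℓ`: the exponents tend at minus infinity to
`lmg (p β ℓ) - hc ℓ - lmg (p β ℓ) (p - 1) / p = lmg (p β ℓ) / p - hc ℓ > 0` (`lmg_strict`; `lmg` is
continuous: `AZ.lmg_cont`). `kv_left` contradicts `hleft`. -/
theorem unbdd_left (M : Mod) (hℓ : 0 < M.ℓ) {hc : ℝ} (hle : hc * M.ℓ ≤ lmg M.μ (M.β * M.ℓ))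
    (hleft : ∀ ε : ℝ, 0 < ε → ∀ K : ℝ, ∃ n : ℕ, K * Real.exp (-(ε * n)) < K0 M.C n (-1)) :
    ∀ p : ℝ, 1 < p → ∀ C : ℝ, ∃ n : ℕ,
      ENNReal.ofReal C < mom M.μ p (fun ω => M.Z hc (2 * n) ω) := by
  intro p hp C
  by_contra hcon
  push Not at hcon
  have hp0 : 0 < p := by linarith
  have hp1 : 0 < p - 1 := by linarith
  have hpq : p.HolderConjugate (p / (p - 1)) := Real.HolderConjugate.conjExponent hp
  have hb : ∀ n : ℕ, mom M.μ p (fun ω => M.Z hc (2 * n) ω) ≤ ENNReal.ofReal (max C 0) :=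
    fun n => (hcon n).trans (ENNReal.ofReal_le_ofReal (le_max_left _ _))
  have hkv := kv_bdd M hpq (le_max_right C 0) hb (M.β * M.ℓ * (p - 1))
  have hq : p / (p - 1) * (M.β * M.ℓ * (p - 1)) = p * (M.β * M.ℓ) := by
    field_simp
  rw [hq] at hkv
  have hβℓ : 0 < M.β * M.ℓ := mul_pos M.β_pos hℓ
  have hst := lmg_strict M hβℓ hp
  have hL : 0 < lmg M.μ (p * (M.β * M.ℓ)) / p - hc * M.ℓ := by linarith
  have hcont : Continuous (lmg M.μ) := AZ.lmg_cont M.exp_mom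
  have htend : Tendsto (fun z : ℤ => lmg M.μ (M.β * M.φ z + M.β * M.ℓ * (p - 1)) - hc * M.φ z -
      lmg M.μ (p * (M.β * M.ℓ)) / (p / (p - 1))) atBot
      (𝓝 (lmg M.μ (M.β * M.ℓ + M.β * M.ℓ * (p - 1)) - hc * M.ℓ -
      lmg M.μ (p * (M.β * M.ℓ)) / (p / (p - 1)))) := by
    refine Tendsto.sub (Tendsto.sub ?_ (M.φ_bot.const_mul hc)) tendsto_const_nhds
    exact (hcont.tendsto _).comp ((M.φ_bot.const_mul M.β).add_const _)
  have hval : lmg M.μ (M.β * M.ℓ + M.β * M.ℓ * (p - 1)) - hc * M.ℓ -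
      lmg M.μ (p * (M.β * M.ℓ)) / (p / (p - 1)) = lmg M.μ (p * (M.β * M.ℓ)) / p - hc * M.ℓ := by
    have e1 : M.β * M.ℓ + M.β * M.ℓ * (p - 1) = p * (M.β * M.ℓ) := by ring
    rw [e1]
    field_simp
    ring
  rw [hval] at htend
  have hev := htend.eventually (eventually_ge_nhds (half_lt_self hL))
  obtain ⟨a, ha⟩ := Filter.eventually_atBot.1 hev
  obtain ⟨ε, hε, K', hK'⟩ := kv_left M.C (half_pos hL) (R := max 0 (-a)) (le_max_left _ _)
    (fun z hz => ha z (by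
      have h1 := le_max_right 0 (-a)
      omega)) hkv
  obtain ⟨n, hn⟩ := hleft ε hε K'
  exact absurd (hK' n) (not_le.2 hn)

end

end Pool.Agent.IG
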