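import Pool.Agent.Lib.MP_daa227_pr_IG.SDef

/-!
# MP_daa227_pr, exact order: superadditivity of the moments of order larger than one
-/

namespace Pool.Agent.IG

open MeasureTheory ProbabilityTheory Finset Filter Topology
open MP_daa227_pr (Chain Zk Zf Gk Gf KU K0 Ren shift seqLaw ExpMom DepOn Good GoodW mom)
open Pool.Agent.AZ (Mod Kv lmg)
open Pool.Agent.IOrd (Sys aS cv)

noncomputable section

/-- `t_k = ∫⁻ (T k)^p 1_E (shift (2 k l) ω)`. By the recursion and independence (`(T k)^p` times the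
indicator of block `k` depends on the first `2 (k+1) l` charges; `lintegral_mul_shift`)
`t_{k+1} ≥ κ^p (∫⁻_E X^p) t_k`, `t_0 ≥ P(E) > 0`, `t_k ≤ B`. If `κ^p ∫⁻_E X^p > 1` then
`t_k → ∞`. -/
theorem s_abs {μ : Measure ℝ} [IsProbabilityMeasure μ] {l : ℕ} {X : (ℕ → ℝ) → ℝ}
    {T : ℕ → (ℕ → ℝ) → ℝ} {E : Set (ℕ → ℝ)} (hX : Measurable X) (hXd : DepOn (2 * l) X)
    (hX0 : ∀ ω, 0 ≤ X ω) (hT : ∀ k, Measurable (T k)) (hTd : ∀ k, DepOn (2 * ((k + 1) * l)) (T k))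
    (hT0 : ∀ k ω, 0 ≤ T k ω) (hT1 : ∀ ω, 1 ≤ T 0 ω) (hE : MeasurableSet E)
    (hEd : ∀ ω ω' : ℕ → ℝ, (∀ i < 2 * l, ω i = ω' i) → ω ∈ E → ω' ∈ E)
    (hEp : 0 < seqLaw μ E) {κ p B : ℝ} (hκ : 0 < κ) (hp : 1 ≤ p)
    (hB : ∀ k, mom μ p (T k) ≤ ENNReal.ofReal B)
    (hrec : ∀ (k : ℕ) (ω : ℕ → ℝ), shift (2 * (k * l)) ω ∈ E → shift (2 * ((k + 1) * l)) ω ∈ E →
      κ * T k ω * X (shift (2 * ((k + 1) * l)) ω) ≤ T (k + 1) ω) :
    ENNReal.ofReal (κ ^ p) * ∫⁻ ω in E, ENNReal.ofReal (X ω) ^ p ∂seqLaw μ ≤ 1 := by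
  classical
  set Y : (ℕ → ℝ) → ENNReal := E.indicator fun ω => ENNReal.ofReal (X ω) ^ p with hY
  set A : ℕ → (ℕ → ℝ) → ENNReal := fun k ω =>
    ENNReal.ofReal (T k ω) ^ p *
      E.indicator (fun _ => (1 : ENNReal)) (shift (2 * (k * l)) ω) with hA
  have hp0 : 0 ≤ p := zero_le_one.trans hp
  have hYm : Measurable Y :=
    ((ENNReal.measurable_ofReal.comp hX).pow_const p).indicator hE
  have hAm : ∀ k, Measurable (A k) := fun k =>
    ((ENNReal.measurable_ofReal.comp (hT k)).pow_const p).mul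
      ((measurable_const.indicator hE).comp (MP_daa227_pr.measurable_shift (2 * (k * l))))
  have hAd : ∀ k, DepOn (2 * ((k + 1) * l)) (A k) := by
    intro k ω ω' h
    have h1 : T k ω = T k ω' := hTd k ω ω' h
    have h2 : shift (2 * (k * l)) ω ∈ E ↔ shift (2 * (k * l)) ω' ∈ E := by
      constructor
      · intro h3
        refine hEd _ _ (fun i hi => ?_) h3
        rw [MP_daa227_pr.shift_apply, MP_daa227_pr.shift_apply]
        exact h _ (by rw [Nat.add_mul, one_mul]; omega)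
      · intro h3
        refine hEd _ _ (fun i hi => ?_) h3
        rw [MP_daa227_pr.shift_apply, MP_daa227_pr.shift_apply]
        exact (h _ (by rw [Nat.add_mul, one_mul]; omega)).symm
    change ENNReal.ofReal (T k ω) ^ p * _ = ENNReal.ofReal (T k ω') ^ p * _
    rw [h1]
    congr 1
    by_cases h4 : shift (2 * (k * l)) ω ∈ E
    · rw [Set.indicator_of_mem h4, Set.indicator_of_mem (h2.1 h4)]
    · rw [Set.indicator_of_notMem h4, Set.indicator_of_notMem fun h5 => h4 (h2.2 h5)]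
  have hm : ∫⁻ ω in E, ENNReal.ofReal (X ω) ^ p ∂seqLaw μ = ∫⁻ ω, Y ω ∂seqLaw μ := by
    rw [hY, lintegral_indicator hE]
  rw [hm]
  -- the recursion
  have hstep : ∀ k ω, ENNReal.ofReal (κ ^ p) * (A k ω * Y (shift (2 * ((k + 1) * l)) ω)) ≤
      A (k + 1) ω := by
    intro k ω
    by_cases h1 : shift (2 * (k * l)) ω ∈ E
    · by_cases h2 : shift (2 * ((k + 1) * l)) ω ∈ E
      · change ENNReal.ofReal (κ ^ p) * (ENNReal.ofReal (T k ω) ^ p *
          E.indicator (fun _ => (1 : ENNReal)) (shift (2 * (k * l)) ω) *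
          E.indicator (fun ω => ENNReal.ofReal (X ω) ^ p) (shift (2 * ((k + 1) * l)) ω)) ≤
          ENNReal.ofReal (T (k + 1) ω) ^ p *
          E.indicator (fun _ => (1 : ENNReal)) (shift (2 * ((k + 1) * l)) ω)
        rw [Set.indicator_of_mem h1, Set.indicator_of_mem h2, Set.indicator_of_mem h2, mul_one,
          mul_one, ← ENNReal.ofReal_rpow_of_pos hκ, ← ENNReal.mul_rpow_of_nonneg _ _ hp0,
          ← ENNReal.mul_rpow_of_nonneg _ _ hp0, ← ENNReal.ofReal_mul (hT0 k ω),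
          ← ENNReal.ofReal_mul hκ.le]
        refine ENNReal.rpow_le_rpow (ENNReal.ofReal_le_ofReal ?_) hp0
        have := hrec k ω h1 h2
        linarith
      · change ENNReal.ofReal (κ ^ p) * (A k ω *
          E.indicator (fun ω => ENNReal.ofReal (X ω) ^ p) (shift (2 * ((k + 1) * l)) ω)) ≤ _
        rw [Set.indicator_of_notMem h2, mul_zero, mul_zero]
        exact zero_le
    · change ENNReal.ofReal (κ ^ p) * (ENNReal.ofReal (T k ω) ^ p *
          E.indicator (fun _ => (1 : ENNReal)) (shift (2 * (k * l)) ω) * _) ≤ _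
      rw [Set.indicator_of_notMem h1, mul_zero, zero_mul, mul_zero]
      exact zero_le
  have ht : ∀ k, (ENNReal.ofReal (κ ^ p) * ∫⁻ ω, Y ω ∂seqLaw μ) * ∫⁻ ω, A k ω ∂seqLaw μ ≤
      ∫⁻ ω, A (k + 1) ω ∂seqLaw μ := by
    intro k
    have h1 := MP_daa227_pr.lintegral_mul_shift μ hYm (2 * ((k + 1) * l)) (hAm k) (hAd k)
    calc (ENNReal.ofReal (κ ^ p) * ∫⁻ ω, Y ω ∂seqLaw μ) * ∫⁻ ω, A k ω ∂seqLaw μ
        = ENNReal.ofReal (κ ^ p) * ((∫⁻ ω, A k ω ∂seqLaw μ) * ∫⁻ ω, Y ω ∂seqLaw μ) := by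
          rw [mul_assoc, mul_comm (∫⁻ ω, Y ω ∂seqLaw μ)]
      _ = ENNReal.ofReal (κ ^ p) *
          ∫⁻ ω, A k ω * Y (shift (2 * ((k + 1) * l)) ω) ∂seqLaw μ := by rw [h1]
      _ = ∫⁻ ω, ENNReal.ofReal (κ ^ p) * (A k ω * Y (shift (2 * ((k + 1) * l)) ω)) ∂seqLaw μ := by
          rw [lintegral_const_mul' _ _ ENNReal.ofReal_ne_top]
      _ ≤ ∫⁻ ω, A (k + 1) ω ∂seqLaw μ := lintegral_mono fun ω => hstep k ω
  have h0 : seqLaw μ E ≤ ∫⁻ ω, A 0 ω ∂seqLaw μ := by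
    rw [← lintegral_indicator_one hE]
    refine lintegral_mono fun ω => ?_
    change E.indicator 1 ω ≤ ENNReal.ofReal (T 0 ω) ^ p *
      E.indicator (fun _ => (1 : ENNReal)) (shift (2 * (0 * l)) ω)
    rw [zero_mul, mul_zero, MP_daa227_pr.shift_zero]
    have h1 : (1 : ENNReal) ≤ ENNReal.ofReal (T 0 ω) ^ p := by
      refine ENNReal.one_le_rpow ?_ (lt_of_lt_of_le zero_lt_one hp)
      rw [← ENNReal.ofReal_one]
      exact ENNReal.ofReal_le_ofReal (hT1 ω)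
    calc E.indicator 1 ω = 1 * E.indicator (fun _ => (1 : ENNReal)) ω := by rw [one_mul]; rfl
      _ ≤ _ := by gcongr
  have hpow : ∀ k, (ENNReal.ofReal (κ ^ p) * ∫⁻ ω, Y ω ∂seqLaw μ) ^ k * seqLaw μ E ≤
      ∫⁻ ω, A k ω ∂seqLaw μ := by
    intro k
    induction k with
    | zero => rw [pow_zero, one_mul]; exact h0
    | succ k ih =>
      refine le_trans ?_ (ht k)
      rw [pow_succ, mul_comm (_ ^ k), mul_assoc]
      gcongr
  have hub : ∀ k, ∫⁻ ω, A k ω ∂seqLaw μ ≤ ENNReal.ofReal B := by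
    intro k
    refine le_trans (lintegral_mono fun ω => ?_) (hB k)
    change ENNReal.ofReal (T k ω) ^ p *
      E.indicator (fun _ => (1 : ENNReal)) (shift (2 * (k * l)) ω) ≤ ENNReal.ofReal (T k ω) ^ p
    refine mul_le_of_le_one_right (zero_le) ?_
    exact Set.indicator_le_self' (fun _ _ => zero_le) _
  by_contra hc
  rw [not_le] at hc
  have hlim := ENNReal.Tendsto.mul_const (b := seqLaw μ E)
    (ENNReal.tendsto_pow_atTop_nhds_top_iff.2 hc) (Or.inl ENNReal.top_ne_zero)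
  rw [ENNReal.top_mul hEp.ne'] at hlim
  have hle : (⊤ : ENNReal) ≤ ENNReal.ofReal B :=
    le_of_tendsto hlim (Eventually.of_forall fun k => (hpow k).trans (hub k))
  exact ENNReal.ofReal_ne_top (top_le_iff.1 hle)

end

end Pool.Agent.IG
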