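import Pool.Agent.Lib.MP_daa227_pr_IG.SDef
import Pool.Agent.Lib.MP_daa227_pr_AZ.MomId

/-!
# MP_daa227_pr, exact order: lower tails of linear forms in the charges
-/

namespace Pool.Agent.IG

open MeasureTheory ProbabilityTheory Finset Filter Topology
open MP_daa227_pr (Chain Zk Zf Gk Gf KU K0 Ren shift seqLaw ExpMom DepOn Good GoodW mom)
open Pool.Agent.AZ (Mod Kv lmg)
open Pool.Agent.IOrd (Sys aS cv)

noncomputable section

namespace SLin

theorem exp_lin {μ : Measure ℝ} [IsProbabilityMeasure μ] (hμ : ExpMom μ) :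
    ∀ (n : ℕ) (t : ℕ → ℝ),
    ∫⁻ ω : ℕ → ℝ, ENNReal.ofReal (Real.exp (∑ i ∈ Finset.range n, t i * ω i)) ∂seqLaw μ =
      ENNReal.ofReal (Real.exp (∑ i ∈ Finset.range n, lmg μ (t i)))
  | 0, t => by
    simp
  | n + 1, t => by
    have hm : Measurable fun ω : ℕ → ℝ =>
        ENNReal.ofReal (Real.exp (∑ i ∈ Finset.range (n + 1), t i * ω i)) := by fun_prop
    rw [MP_daa227_pr.lintegral_cons μ hm]
    have h1 : ∀ x : ℝ, ∫⁻ ω : ℕ → ℝ, ENNReal.ofReal (Real.exp (∑ i ∈ Finset.range (n + 1),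
        t i * MP_daa227_pr.cons x ω i)) ∂seqLaw μ =
        ENNReal.ofReal (Real.exp (t 0 * x)) *
          ENNReal.ofReal (Real.exp (∑ i ∈ Finset.range n, lmg μ (t (i + 1)))) := by
      intro x
      rw [← exp_lin hμ n (fun i => t (i + 1)), ← lintegral_const_mul _ (by fun_prop)]
      apply lintegral_congr
      intro ω
      rw [← ENNReal.ofReal_mul (Real.exp_pos _).le, ← Real.exp_add, Finset.sum_range_succ']
      simp only [MP_daa227_pr.cons_succ, MP_daa227_pr.cons_zero]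
      congr 2
      ring
    simp_rw [h1]
    rw [lintegral_mul_const _ (by fun_prop),
      ← ofReal_integral_eq_lintegral_ofReal (hμ (t 0)) (ae_of_all _ fun _ => (Real.exp_pos _).le),
      ← AZ.exp_lmg hμ (t 0), ← ENNReal.ofReal_mul (Real.exp_pos _).le, ← Real.exp_add]
    congr 2
    rw [Finset.sum_range_succ' (fun i => lmg μ (t i))]
    ring

theorem lmg_le (M : Mod) (lam : ℝ) {c : ℝ} (h0 : 0 ≤ c) (h1 : c ≤ M.Φ) :
    lmg M.μ (-(lam * M.β) * c) ≤ c * (lmg M.μ (-(lam * M.β) * M.Φ) / M.Φ) := by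
  have hΦ := M.Φ_pos
  have ha : 0 ≤ c / M.Φ := by positivity
  have hb : 0 ≤ 1 - c / M.Φ := by
    have : c / M.Φ ≤ 1 := (div_le_one hΦ).2 h1
    linarith
  have hab : c / M.Φ + (1 - c / M.Φ) = 1 := by ring
  have hc := (AZ.lmg_convex (μ := M.μ) M.exp_mom).2 (Set.mem_univ (-(lam * M.β) * M.Φ))
    (Set.mem_univ (0 : ℝ)) ha hb hab
  have e1 : (c / M.Φ) • (-(lam * M.β) * M.Φ) + (1 - c / M.Φ) • (0 : ℝ) = -(lam * M.β) * c := by
    simp only [smul_eq_mul]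
    field_simp
    ring
  rw [e1, AZ.lmg_zero] at hc
  simp only [smul_eq_mul] at hc
  calc _ ≤ _ := hc
    _ = _ := by ring

theorem meas_lin (M : Mod) (n : ℕ) (c : ℕ → ℝ) :
    Measurable fun ω : ℕ → ℝ => M.β * ∑ i ∈ range n, ω i * c i := by
  fun_prop

end SLin

/-- Chernoff: `E exp (-lam β ∑ ω c) = exp (∑ lmg (-lam β c_i))` (as `AZ.A3.exp_sum`), and for
`0 ≤ c ≤ Φ` convexity gives `lmg (-lam β c) ≤ (c / Φ) lmg (-lam β Φ)`. -/
theorem lin_prob (M : Mod) (lam : ℝ) (hl : 0 < lam) : ∃ A : ℝ, 0 < A ∧ ∀ (n : ℕ) (c : ℕ → ℝ),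
    (∀ i, 0 ≤ c i ∧ c i ≤ M.Φ) → ∀ u : ℝ,
      (seqLaw M.μ {ω : ℕ → ℝ | M.β * ∑ i ∈ range n, ω i * c i < -u}).toReal ≤
        Real.exp (-(lam * u) + A * ∑ i ∈ range n, c i) := by
  have hL0 : 0 ≤ lmg M.μ (-(lam * M.β) * M.Φ) := AZ.lmg_nonneg M.exp_mom M.mean _
  have hΦ := M.Φ_pos
  refine ⟨lmg M.μ (-(lam * M.β) * M.Φ) / M.Φ + 1, by positivity, fun n c hc u => ?_⟩
  have hS : 0 ≤ ∑ i ∈ range n, c i := Finset.sum_nonneg fun i _ => (hc i).1
  have hE := SLin.exp_lin (μ := M.μ) M.exp_mom n fun i => -(lam * M.β) * c i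
  have hsum : ∑ i ∈ range n, lmg M.μ (-(lam * M.β) * c i) ≤
      (lmg M.μ (-(lam * M.β) * M.Φ) / M.Φ + 1) * ∑ i ∈ range n, c i := by
    calc _ ≤ ∑ i ∈ range n, c i * (lmg M.μ (-(lam * M.β) * M.Φ) / M.Φ) :=
          Finset.sum_le_sum fun i _ => SLin.lmg_le M lam (hc i).1 (hc i).2
      _ = (lmg M.μ (-(lam * M.β) * M.Φ) / M.Φ) * ∑ i ∈ range n, c i := by
          rw [← Finset.sum_mul, mul_comm]
      _ ≤ _ := by nlinarith
  have hmark := mul_meas_ge_le_lintegral₀ (μ := seqLaw M.μ)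
    (f := fun ω : ℕ → ℝ => ENNReal.ofReal
      (Real.exp (∑ i ∈ range n, (-(lam * M.β) * c i) * ω i)))
    (Measurable.aemeasurable (by fun_prop)) (ENNReal.ofReal (Real.exp (lam * u)))
  rw [hE] at hmark
  have hsub : {ω : ℕ → ℝ | M.β * ∑ i ∈ range n, ω i * c i < -u} ⊆
      {ω : ℕ → ℝ | ENNReal.ofReal (Real.exp (lam * u)) ≤ ENNReal.ofReal
        (Real.exp (∑ i ∈ range n, (-(lam * M.β) * c i) * ω i))} := by
    intro ω hω
    rw [Set.mem_ofPred_eq] at hω ⊢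
    apply ENNReal.ofReal_le_ofReal
    apply Real.exp_le_exp.2
    have e1 : ∑ i ∈ range n, (-(lam * M.β) * c i) * ω i =
        -lam * (M.β * ∑ i ∈ range n, ω i * c i) := by
      rw [Finset.mul_sum, Finset.mul_sum]
      refine Finset.sum_congr rfl fun i _ => ?_
      ring
    rw [e1]
    nlinarith
  have hle : ENNReal.ofReal (Real.exp (lam * u)) *
      seqLaw M.μ {ω : ℕ → ℝ | M.β * ∑ i ∈ range n, ω i * c i < -u} ≤
      ENNReal.ofReal (Real.exp ((lmg M.μ (-(lam * M.β) * M.Φ) / M.Φ + 1) *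
        ∑ i ∈ range n, c i)) := by
    refine (mul_le_mul_right (measure_mono hsub) _).trans (hmark.trans ?_)
    exact ENNReal.ofReal_le_ofReal (Real.exp_le_exp.2 hsum)
  have hfin : seqLaw M.μ {ω : ℕ → ℝ | M.β * ∑ i ∈ range n, ω i * c i < -u} ≠ ⊤ :=
    measure_ne_top _ _
  have h2 := ENNReal.toReal_mono ENNReal.ofReal_ne_top hle
  rw [ENNReal.toReal_mul, ENNReal.toReal_ofReal (Real.exp_pos _).le,
    ENNReal.toReal_ofReal (Real.exp_pos _).le] at h2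
  rw [Real.exp_add, Real.exp_neg, ← div_eq_inv_mul, le_div_iff₀ (Real.exp_pos _), mul_comm]
  exact h2

/-- Finite family of linear forms in the charges `0, .., n - 1`: the event that all of them are at
least `-u`. Union bound with `lin_prob`. -/
theorem lin_event (M : Mod) (lam : ℝ) (hl : 0 < lam) : ∃ A : ℝ, 0 < A ∧ ∀ (n : ℕ)
    (F : Finset (ℕ → ℝ)) (S : ℝ), (∀ c ∈ F, (∀ i, 0 ≤ c i ∧ c i ≤ M.Φ) ∧ ∑ i ∈ range n, c i ≤ S) →
    ∀ u : ℝ, ∃ E : Set (ℕ → ℝ), MeasurableSet E ∧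
      (∀ ω ω' : ℕ → ℝ, (∀ i < n, ω i = ω' i) → ω ∈ E → ω' ∈ E) ∧
      1 - F.card * Real.exp (-(lam * u) + A * S) ≤ (seqLaw M.μ E).toReal ∧
      ∀ ω ∈ E, ∀ c ∈ F, -u ≤ M.β * ∑ i ∈ range n, ω i * c i := by
  obtain ⟨A, hA, hP⟩ := lin_prob M lam hl
  refine ⟨A, hA, fun n F S hF u => ?_⟩
  set B : Set (ℕ → ℝ) := ⋃ c ∈ F, {ω : ℕ → ℝ | M.β * ∑ i ∈ range n, ω i * c i < -u} with hB
  have hBm : MeasurableSet B :=
    Finset.measurableSet_biUnion _ fun c _ =>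
      measurableSet_lt (SLin.meas_lin M n c) measurable_const
  have hmem : ∀ ω : ℕ → ℝ, ω ∈ Bᶜ ↔ ∀ c ∈ F, -u ≤ M.β * ∑ i ∈ range n, ω i * c i := by
    intro ω
    rw [hB, Set.mem_compl_iff, Set.mem_iUnion₂]
    push Not
    refine forall₂_congr fun c _ => ?_
    rw [Set.mem_ofPred_eq, not_lt]
  refine ⟨Bᶜ, hBm.compl, fun ω ω' h hω => ?_, ?_, fun ω hω => (hmem ω).1 hω⟩
  · rw [hmem] at hω ⊢
    intro c hc
    have h1 := hω c hc
    have h2 : ∑ i ∈ range n, ω i * c i = ∑ i ∈ range n, ω' i * c i :=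
      Finset.sum_congr rfl fun i hi => by rw [h i (Finset.mem_range.1 hi)]
    rwa [h2] at h1
  · have h1 : (seqLaw M.μ B).toReal ≤ F.card * Real.exp (-(lam * u) + A * S) := by
      have h2 : seqLaw M.μ B ≤
          ∑ c ∈ F, seqLaw M.μ {ω : ℕ → ℝ | M.β * ∑ i ∈ range n, ω i * c i < -u} :=
        measure_biUnion_finset_le _ _
      have h3 := ENNReal.toReal_mono
        (ENNReal.sum_ne_top.2 fun c _ => measure_ne_top _ _) h2
      rw [ENNReal.toReal_sum fun c _ => measure_ne_top _ _] at h3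
      refine h3.trans ?_
      rw [← nsmul_eq_mul]
      refine Finset.sum_le_card_nsmul _ _ _ fun c hc => ?_
      refine (hP n c (hF c hc).1 u).trans (Real.exp_le_exp.2 ?_)
      have := mul_le_mul_of_nonneg_left (hF c hc).2 hA.le
      linarith
    have h4 : (seqLaw M.μ Bᶜ).toReal = 1 - (seqLaw M.μ B).toReal := by
      have := probReal_compl_eq_one_sub (μ := seqLaw M.μ) hBm
      exact this
    rw [h4]
    linarith

end

end Pool.Agent.IG
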