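import Pool.Agent.Lib.MP_daa227_pr_IG.SMean
import Pool.Agent.Lib.MP_daa227_pr_IG.SLin

/-!
# MP_daa227_pr, exact order: the event that all excursions of a block are typical
-/

namespace Pool.Agent.IG

open MeasureTheory ProbabilityTheory Finset Filter Topology
open MP_daa227_pr (Chain Zk Zf Gk Gf KU K0 Ren shift seqLaw ExpMom DepOn Good GoodW mom)
open Pool.Agent.AZ (Mod Kv lmg)
open Pool.Agent.IOrd (Sys aS cv)

noncomputable section

namespace SEv

/-- a linear form: the coefficients number `s, .., s + L - 1` at the charges `a, .., a + L - 1` -/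
def fm (M : Mod) (h : ℝ) (a s L d : ℕ) : ℕ → ℝ :=
  fun n => if n ∈ Finset.Ico a (a + L) then cf M h (2 * d) (n - a + s) else 0

theorem fm_sum (M : Mod) (h : ℝ) (f : ℕ → ℝ) {a s L d N : ℕ} (hN : a + L ≤ N) :
    ∑ n ∈ range N, f n * fm M h a s L d n =
      ∑ i ∈ range L, f (a + i) * cf M h (2 * d) (i + s) := by
  have h1 : ∑ n ∈ range N, f n * fm M h a s L d n =
      ∑ n ∈ Finset.Ico a (a + L), f n * cf M h (2 * d) (n - a + s) := by
    have h2 : ∀ n ∈ range N, f n * fm M h a s L d n =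
        if n ∈ Finset.Ico a (a + L) then f n * cf M h (2 * d) (n - a + s) else 0 := by
      intro n _
      unfold fm
      split_ifs
      · rfl
      · rw [mul_zero]
    rw [Finset.sum_congr rfl h2, ← Finset.sum_filter]
    refine Finset.sum_congr ?_ fun _ _ => rfl
    ext n
    simp only [Finset.mem_filter, Finset.mem_range, Finset.mem_Ico]
    omega
  rw [h1, Finset.sum_Ico_eq_sum_range, Nat.add_sub_cancel_left]
  refine Finset.sum_congr rfl fun i _ => ?_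
  rw [Nat.add_sub_cancel_left]

theorem fm_nonneg (M : Mod) (h : ℝ) (a s L d n : ℕ) : 0 ≤ fm M h a s L d n := by
  unfold fm
  split_ifs
  · exact cf_nonneg M h _ _
  · exact le_rfl

theorem fm_le (M : Mod) (h : ℝ) (a s L d n : ℕ) : fm M h a s L d n ≤ M.Φ := by
  unfold fm
  split_ifs
  · exact cf_le M h _ _
  · exact M.Φ_pos.le

theorem fm_total (M : Mod) (h : ℝ) {a s L d N : ℕ} (hN : a + L ≤ N) (hs : s + L ≤ 2 * d) :
    ∑ n ∈ range N, fm M h a s L d n ≤ ∑ i ∈ range (2 * d), cf M h (2 * d) i := by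
  have h1 := fm_sum M h (fun _ => 1) (s := s) (d := d) hN
  simp only [one_mul] at h1
  rw [h1]
  have h2 : ∑ i ∈ range L, cf M h (2 * d) (i + s) =
      ∑ i ∈ Finset.Ico s (s + L), cf M h (2 * d) i := by
    rw [Finset.sum_Ico_eq_sum_range, Nat.add_sub_cancel_left]
    refine Finset.sum_congr rfl fun i _ => ?_
    rw [add_comm]
  rw [h2]
  refine Finset.sum_le_sum_of_subset_of_nonneg ?_ fun i _ _ => cf_nonneg M h _ _
  intro i hi
  rw [Finset.mem_Ico] at hi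
  rw [Finset.mem_range]
  omega

open Classical in
/-- the family of all the linear forms -/
def fam (M : Mod) (h : ℝ) (l : ℕ) : Finset (ℕ → ℝ) :=
  ((range (4 * l) ×ˢ range (4 * l) ×ˢ range (4 * l) ×ˢ range (2 * l)).filter fun q =>
    q.1 + q.2.2.1 ≤ 2 * l ∧ q.2.1 + q.2.2.1 ≤ 2 * q.2.2.2 ∧ 1 ≤ q.2.2.2).image
    fun q => fm M h q.1 q.2.1 q.2.2.1 q.2.2.2

theorem mem_fam (M : Mod) (h : ℝ) {l a s L d : ℕ} (h1 : a + L ≤ 2 * l) (h2 : s + L ≤ 2 * d)
    (h3 : 1 ≤ d) (h4 : d < 2 * l) : fm M h a s L d ∈ fam M h l := by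
  classical
  unfold fam
  refine Finset.mem_image.2 ⟨(a, s, L, d), ?_, rfl⟩
  simp only [Finset.mem_filter, Finset.mem_product, Finset.mem_range]
  omega

theorem fam_ok (M : Mod) (h : ℝ) {l : ℕ} {S : ℝ}
    (hS : ∀ d, 1 ≤ d → d < 2 * l → ∑ i ∈ range (2 * d), cf M h (2 * d) i ≤ S) :
    ∀ c ∈ fam M h l, (∀ i, 0 ≤ c i ∧ c i ≤ M.Φ) ∧ ∑ i ∈ range (2 * l), c i ≤ S := by
  classical
  intro c hc
  unfold fam at hc
  obtain ⟨⟨a, s, L, d⟩, hq, rfl⟩ := Finset.mem_image.1 hc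
  simp only [Finset.mem_filter, Finset.mem_product, Finset.mem_range] at hq
  obtain ⟨⟨-, -, -, h4⟩, h1, h2, h3⟩ := hq
  exact ⟨fun i => ⟨fm_nonneg M h a s L d i, fm_le M h a s L d i⟩,
    (fm_total M h h1 h2).trans (hS d h3 h4)⟩

theorem fam_card (M : Mod) (h : ℝ) (l : ℕ) : ((fam M h l).card : ℝ) ≤ 128 * (l : ℝ) ^ 4 := by
  classical
  have h1 : (fam M h l).card ≤ 4 * l * (4 * l * (4 * l * (2 * l))) := by
    unfold fam
    refine Finset.card_image_le.trans ((Finset.card_filter_le _ _).trans ?_)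
    rw [Finset.card_product, Finset.card_product, Finset.card_product]
    simp only [Finset.card_range]
    exact le_rfl
  have h2 : ((fam M h l).card : ℝ) ≤ ((4 * l * (4 * l * (4 * l * (2 * l))) : ℕ) : ℝ) := by
    exact_mod_cast h1
  refine h2.trans (le_of_eq ?_)
  push_cast
  ring

/-- the penalised excursions are not too unlikely -/
theorem kv_all (M : Mod) {α h : ℝ} (hα : 0 ≤ α) (hh : 0 < h) (hA : PolyA M α) {ε : ℝ}
    (hε : 0 < ε) : ∃ c : ℝ, 0 < c ∧ ∀ n : ℕ, 1 ≤ n → c * (n : ℝ) ^ (-(1 + α + ε)) ≤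
      Kv M.C (fun z => -h * M.φ z) (2 * n) 0 := by
  obtain ⟨N, hN⟩ := eventually_atTop.1 (hA h hh ε hε)
  set K : ℕ → ℝ := fun n => Kv M.C (fun z => -h * M.φ z) (2 * n) 0 with hK
  obtain ⟨k, hk, hmin⟩ := (Finset.Icc 1 (N + 1)).exists_min_image K ⟨1, by simp⟩
  have hk1 : 0 < K k := AZ.Kv_even_pos M.C _ (Finset.mem_Icc.1 hk).1
  have h2 : (0 : ℝ) < 2 ^ (-(1 + α + ε)) := Real.rpow_pos_of_pos two_pos _
  refine ⟨min (2 ^ (-(1 + α + ε))) (K k), lt_min h2 hk1, ?_⟩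
  intro n hn
  have hn0 : (0 : ℝ) < n := by exact_mod_cast hn
  have hn1 : (1 : ℝ) ≤ n := by exact_mod_cast hn
  have hp : 0 < (n : ℝ) ^ (-(1 + α + ε)) := Real.rpow_pos_of_pos hn0 _
  rcases le_or_gt N n with hle | hlt
  · calc min (2 ^ (-(1 + α + ε))) (K k) * (n : ℝ) ^ (-(1 + α + ε))
        ≤ 2 ^ (-(1 + α + ε)) * (n : ℝ) ^ (-(1 + α + ε)) :=
          mul_le_mul_of_nonneg_right (min_le_left _ _) hp.le
      _ = ((2 * n : ℕ) : ℝ) ^ (-(1 + α + ε)) := by
          push_cast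
          rw [Real.mul_rpow two_pos.le hn0.le]
      _ ≤ K n := hN n hle
  · calc min (2 ^ (-(1 + α + ε))) (K k) * (n : ℝ) ^ (-(1 + α + ε)) ≤ K k * 1 := by
          refine mul_le_mul (min_le_right _ _) ?_ hp.le hk1.le
          exact Real.rpow_le_one_of_one_le_of_nonpos hn1 (by linarith)
      _ ≤ K n := by
          rw [mul_one]
          exact hmin n (Finset.mem_Icc.2 ⟨hn, by omega⟩)

theorem kv_low (M : Mod) {α h : ℝ} (hα : 0 ≤ α) (hh : 0 < h) (hA : PolyA M α) {ε : ℝ}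
    (hε : 0 < ε) : ∀ᶠ l : ℕ in atTop, ∀ d : ℕ, 1 ≤ d → d < 2 * l →
      (l : ℝ) ^ (-(1 + α + ε / 2)) ≤ Kv M.C (fun z => -h * M.φ z) (2 * d) 0 := by
  obtain ⟨c, hc, hall⟩ := kv_all M hα hh hA (show 0 < ε / 4 by linarith)
  set B : ℝ := 1 + α + ε / 4 with hB
  have hB0 : 0 < B := by
    rw [hB]
    linarith
  have h2B : (0 : ℝ) < 2 ^ (-B) := Real.rpow_pos_of_pos two_pos _
  have ht : Tendsto (fun l : ℕ => (l : ℝ) ^ (ε / 4)) atTop atTop :=
    (tendsto_rpow_atTop (show 0 < ε / 4 by linarith)).comp tendsto_natCast_atTop_atTop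
  filter_upwards [ht.eventually_ge_atTop (c * 2 ^ (-B))⁻¹, eventually_ge_atTop 1] with l h1 h2
  intro d hd1 hd2
  have hl0 : (0 : ℝ) < l := by exact_mod_cast h2
  have hd0 : (0 : ℝ) < d := by exact_mod_cast hd1
  have hdl : (d : ℝ) ≤ 2 * l := by exact_mod_cast hd2.le
  have hp : 0 < (l : ℝ) ^ (-(B + ε / 4)) := Real.rpow_pos_of_pos hl0 _
  have e1 : (l : ℝ) ^ (-(1 + α + ε / 2)) = (l : ℝ) ^ (-(B + ε / 4)) := by
    congr 1
    rw [hB]
    ring
  have e2 : (l : ℝ) ^ (-B) = (l : ℝ) ^ (-(B + ε / 4)) * (l : ℝ) ^ (ε / 4) := by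
    rw [← Real.rpow_add hl0]
    congr 1
    ring
  have h3 : 1 ≤ c * 2 ^ (-B) * (l : ℝ) ^ (ε / 4) := by
    have h4 : 0 < c * 2 ^ (-B) := mul_pos hc h2B
    calc (1 : ℝ) = c * 2 ^ (-B) * (c * 2 ^ (-B))⁻¹ := (mul_inv_cancel₀ h4.ne').symm
      _ ≤ c * 2 ^ (-B) * (l : ℝ) ^ (ε / 4) := mul_le_mul_of_nonneg_left h1 h4.le
  calc (l : ℝ) ^ (-(1 + α + ε / 2)) = (l : ℝ) ^ (-(B + ε / 4)) * 1 := by rw [e1, mul_one]
    _ ≤ (l : ℝ) ^ (-(B + ε / 4)) * (c * 2 ^ (-B) * (l : ℝ) ^ (ε / 4)) :=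
        mul_le_mul_of_nonneg_left h3 hp.le
    _ = c * (2 ^ (-B) * (l : ℝ) ^ (-B)) := by
        rw [e2]
        ring
    _ = c * (2 * (l : ℝ)) ^ (-B) := by rw [Real.mul_rpow two_pos.le hl0.le]
    _ ≤ c * (d : ℝ) ^ (-B) := by
        refine mul_le_mul_of_nonneg_left ?_ hc.le
        exact Real.rpow_le_rpow_of_nonpos hd0 hdl (by linarith)
    _ ≤ _ := hall d hd1

theorem cf_up (M : Mod) {α h : ℝ} (hh : 0 < h) (hA : PolyA M α) (hU : KUp M.C α) {ε : ℝ}
    (hε : 0 < ε) : ∀ᶠ l : ℕ in atTop, ∀ d : ℕ, 1 ≤ d → d < 2 * l →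
      ∑ i ∈ range (2 * d), cf M h (2 * d) i ≤ ε * Real.log l := by
  obtain ⟨N, hN⟩ := eventually_atTop.1 (cf_sum M hh hA hU (show 0 < ε / 2 by linarith))
  have ht : Tendsto (fun l : ℕ => Real.log (l : ℝ)) atTop atTop :=
    Real.tendsto_log_atTop.comp tendsto_natCast_atTop_atTop
  filter_upwards [ht.eventually_ge_atTop (2 * N * M.Φ / ε), eventually_ge_atTop 2] with l h1 h2
  intro d hd1 hd2
  have hl2 : (2 : ℝ) ≤ l := by exact_mod_cast h2
  have hd0 : (0 : ℝ) < d := by exact_mod_cast hd1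
  have hdl : (d : ℝ) ≤ 2 * l := by exact_mod_cast hd2.le
  rcases le_or_gt N d with hle | hlt
  · have h3 := hN d hle
    have h4 : Real.log d ≤ 2 * Real.log l := by
      have h5 : (d : ℝ) ≤ (l : ℝ) ^ 2 := by nlinarith
      have h6 := Real.log_le_log hd0 h5
      rw [Real.log_pow] at h6
      exact_mod_cast h6
    nlinarith
  · have h3 : ∑ i ∈ range (2 * d), cf M h (2 * d) i ≤ ∑ _i ∈ range (2 * d), M.Φ :=
      Finset.sum_le_sum fun i _ => cf_le M h _ _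
    rw [Finset.sum_const, Finset.card_range, nsmul_eq_mul] at h3
    have h4 : ((2 * d : ℕ) : ℝ) * M.Φ ≤ 2 * N * M.Φ := by
      refine mul_le_mul_of_nonneg_right ?_ M.Φ_pos.le
      have h5 : (d : ℝ) ≤ N := by exact_mod_cast hlt.le
      push_cast
      linarith
    rw [div_le_iff₀ hε] at h1
    linarith

theorem fin_le {l α ε K x : ℝ} (hl : 1 ≤ l) (hK : l ^ (-(1 + α + ε / 2)) ≤ K)
    (hx : -(ε / 4 * Real.log l) ≤ x) (hε : 0 < ε) : l ^ (-(1 + α + ε)) ≤ K * Real.exp x := by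
  have hl0 : 0 < l := by linarith
  have hlog : 0 ≤ Real.log l := Real.log_nonneg hl
  have h1 : l ^ (-(1 + α + ε)) ≤
      l ^ (-(1 + α + ε / 2)) * Real.exp (-(ε / 4 * Real.log l)) := by
    rw [Real.rpow_def_of_pos hl0, Real.rpow_def_of_pos hl0, ← Real.exp_add]
    apply Real.exp_le_exp.2
    nlinarith [mul_nonneg hε.le hlog]
  refine h1.trans (mul_le_mul hK (Real.exp_le_exp.2 hx) (Real.exp_pos _).le ?_)
  exact (Real.rpow_nonneg hl0.le _).trans hK

theorem Z_zero (M : Mod) (h : ℝ) (ω : ℕ → ℝ) : M.Z h 0 ω = 1 := by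
  unfold Mod.Z
  rw [Zk, if_pos rfl]

theorem G_le_Z (M : Mod) (h : ℝ) {m : ℕ} (hm : 0 < m) (ω : ℕ → ℝ) : M.G h m ω ≤ M.Z h m ω := by
  have h1 := M.G_mul_Z_le h (m := m) (n := 0) hm ω
  rwa [Z_zero, mul_one, add_zero] at h1

theorem prob_le {l D : ℝ} (hl : 4 ≤ l) {c : ℝ} (hc : c ≤ 128 * l ^ 4) :
    c * Real.exp (-((D + 10) * Real.log l) + Real.log l) ≤ l ^ (-D) := by
  have hl0 : 0 < l := by linarith
  have h1 : Real.exp (-((D + 10) * Real.log l) + Real.log l) = l ^ (-D) * (l ^ 9)⁻¹ := by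
    have h2 : (l ^ 9)⁻¹ = l ^ (-9 : ℝ) := by
      rw [Real.rpow_neg hl0.le]
      norm_cast
    rw [h2, ← Real.rpow_add hl0, Real.rpow_def_of_pos hl0]
    congr 1
    ring
  rw [h1]
  have h3 : 0 < l ^ (-D) := Real.rpow_pos_of_pos hl0 _
  have h4 : 0 < l ^ 9 := by positivity
  have h5 : c ≤ l ^ 9 := by
    refine hc.trans ?_
    have h6 : (128 : ℝ) ≤ l ^ 5 := by
      calc (128 : ℝ) ≤ 4 ^ 5 := by norm_num
        _ ≤ l ^ 5 := pow_le_pow_left₀ (by norm_num) hl 5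
    calc 128 * l ^ 4 ≤ l ^ 5 * l ^ 4 := mul_le_mul_of_nonneg_right h6 (by positivity)
      _ = l ^ 9 := by ring
  calc c * (l ^ (-D) * (l ^ 9)⁻¹) ≤ l ^ 9 * (l ^ (-D) * (l ^ 9)⁻¹) :=
        mul_le_mul_of_nonneg_right h5 (by positivity)
    _ = l ^ (-D) := by
        field_simp

end SEv

/-- `lin_event` on the charges `0, .., 2 l - 1` with `u = (ε / 8) log l`, `lam` with
`lam ε / 8 ≥ D + 5`, and the family of the following coefficient vectors (at most `4 l ^ 2` of them,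
extended by `0`), `m = cf M h (2 d)`:
(exit) `y < l ≤ y + d < 2 l`: `c (2 y + i) = m i` for `2 y + i < 2 l`;
(entry) `y < l ≤ y + d < 2 l`: `c n = m (n + 2 l - 2 y)` for `n < 2 (y + d - l)`;
(first) `1 ≤ a ≤ l`: `c i = cf M h (2 a) i`, `i < 2 a`;
(last) `a < l`: `c (2 a + i) = cf M h (2 (l - a)) i`, `i < 2 (l - a)`.
All sums of coefficients are at most `S = ε' log l` for large `l` (`cf_sum` for large `d`, for the
finitely many other `d` they are at most `2 d Φ`, `cf_le`), `ε'` so small that `A ε' ≤ 1`; so the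
probability is at least `1 - 4 l^2 l^(-(D+5)) l ≥ 1 - l^(-D)`. By `g_ge`, splitting the sum over
`i` at
`2 (l - y)`, on the event `G (2 d) ≥ Kv (-h φ) (2 d) exp (-2 u)`, and
`Kv (-h φ) (2 d) ≥ l^(-(1+α+ε/2))` for all `1 ≤ d < 2 l`, `l` large (`hA`). The same for
`Z (2 a) ≥ G (2 a)` (`AZ.Mod.G_mul_Z_le` with `n = 0`); `Z 0 = 1`. -/
theorem ev_block (M : Mod) {α h : ℝ} (hα : 0 ≤ α) (hh : 0 < h) (hA : PolyA M α)
    (hU : KUp M.C α) {ε D : ℝ} (hε : 0 < ε) (hD : 0 < D) : ∀ᶠ l : ℕ in atTop,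
    ∃ E : Set (ℕ → ℝ), MeasurableSet E ∧
      (∀ ω ω' : ℕ → ℝ, (∀ i < 2 * l, ω i = ω' i) → ω ∈ E → ω' ∈ E) ∧
      1 - (l : ℝ) ^ (-D) ≤ (seqLaw M.μ E).toReal ∧
      (∀ ω ∈ E, shift (2 * l) ω ∈ E → ∀ y d : ℕ, y < l → l ≤ y + d → y + d < 2 * l →
        (l : ℝ) ^ (-(1 + α + ε)) ≤ M.G h (2 * d) (shift (2 * y) ω)) ∧
      (∀ ω ∈ E, ∀ a ≤ l, (l : ℝ) ^ (-(1 + α + ε)) ≤ M.Z h (2 * a) ω ∧
        (l : ℝ) ^ (-(1 + α + ε)) ≤ M.Z h (2 * (l - a)) (shift (2 * a) ω)) := by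
  have hlam0 : 0 < 8 * (D + 10) / ε := by positivity
  obtain ⟨A, hA0, hev⟩ := lin_event M (8 * (D + 10) / ε) hlam0
  have h1 := SEv.kv_low M hα hh hA hε
  have h2 := SEv.cf_up M hh hA hU (show 0 < 1 / A by positivity)
  filter_upwards [h1, h2, eventually_ge_atTop 4] with l hl1 hl2 hl4
  have hl4' : (4 : ℝ) ≤ l := by exact_mod_cast hl4
  have hl1' : (1 : ℝ) ≤ l := by linarith
  have hl0 : (0 : ℝ) < l := by linarith
  have hlog : 0 ≤ Real.log l := Real.log_nonneg hl1'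
  obtain ⟨E, hE, hdep, hP, hlin⟩ := hev (2 * l) (SEv.fam M h l) (1 / A * Real.log l)
    (SEv.fam_ok M h hl2) (ε / 8 * Real.log l)
  have key : ∀ ω ∈ E, ∀ a s L d : ℕ, a + L ≤ 2 * l → s + L ≤ 2 * d → 1 ≤ d → d < 2 * l →
      -(ε / 8 * Real.log l) ≤
        M.β * ∑ i ∈ range L, ω (a + i) * cf M h (2 * d) (i + s) := by
    intro ω hω a s L d h1 h2 h3 h4
    have h5 := hlin ω hω _ (SEv.mem_fam M h h1 h2 h3 h4)
    rwa [SEv.fm_sum M h ω h1] at h5
  have hone : (l : ℝ) ^ (-(1 + α + ε)) ≤ 1 :=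
    Real.rpow_le_one_of_one_le_of_nonpos hl1' (by linarith)
  refine ⟨E, hE, hdep, ?_, ?_, ?_⟩
  · refine le_trans ?_ hP
    have h3 := SEv.prob_le (D := D) hl4' (SEv.fam_card M h l)
    have h4 : -(8 * (D + 10) / ε * (ε / 8 * Real.log l)) + A * (1 / A * Real.log l) =
        -((D + 10) * Real.log l) + Real.log l := by
      field_simp
    rw [h4]
    linarith
  · intro ω hω hω' y d hy h3 h4
    have hd1 : 1 ≤ d := by omega
    have hd2 : d < 2 * l := by omega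
    refine le_trans ?_ (g_ge M h hd1 (shift (2 * y) ω))
    refine SEv.fin_le hl1' (hl1 d hd1 hd2) ?_ hε
    have e1 : 2 * d = (2 * l - 2 * y) + (2 * (y + d) - 2 * l) := by omega
    have e2 : ∑ i ∈ range (2 * d), shift (2 * y) ω i * cf M h (2 * d) i =
        ∑ i ∈ range (2 * l - 2 * y), ω (2 * y + i) * cf M h (2 * d) (i + 0) +
        ∑ i ∈ range (2 * (y + d) - 2 * l),
          shift (2 * l) ω (0 + i) * cf M h (2 * d) (i + (2 * l - 2 * y)) := by
      have e3 : ∑ i ∈ range (2 * d), shift (2 * y) ω i * cf M h (2 * d) i =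
          ∑ i ∈ range ((2 * l - 2 * y) + (2 * (y + d) - 2 * l)),
            shift (2 * y) ω i * cf M h (2 * d) i := by rw [← e1]
      rw [e3, Finset.sum_range_add]
      congr 1
      · refine Finset.sum_congr rfl fun i _ => ?_
        unfold shift
        rw [add_comm i (2 * y), add_zero]
      · refine Finset.sum_congr rfl fun i _ => ?_
        unfold shift
        congr 2
        · omega
        · omega
    have h5 := key ω hω (2 * y) 0 (2 * l - 2 * y) d (by omega) (by omega) hd1 hd2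
    have h6 := key (shift (2 * l) ω) hω' 0 (2 * l - 2 * y) (2 * (y + d) - 2 * l) d (by omega)
      (by omega) hd1 hd2
    rw [e2, mul_add]
    linarith
  · intro ω hω a ha
    refine ⟨?_, ?_⟩
    · rcases Nat.eq_zero_or_pos a with h0 | h0
      · rw [h0, mul_zero, SEv.Z_zero]
        exact hone
      · refine le_trans ?_ (SEv.G_le_Z M h (by omega : 0 < 2 * a) ω)
        refine le_trans ?_ (g_ge M h h0 ω)
        refine SEv.fin_le hl1' (hl1 a h0 (by omega)) ?_ hε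
        have h5 := key ω hω 0 0 (2 * a) a (by omega) (by omega) h0 (by omega)
        simp only [zero_add, add_zero] at h5
        nlinarith
    · rcases Nat.eq_zero_or_pos (l - a) with h0 | h0
      · rw [h0, mul_zero, SEv.Z_zero]
        exact hone
      · refine le_trans ?_ (SEv.G_le_Z M h (by omega : 0 < 2 * (l - a)) _)
        refine le_trans ?_ (g_ge M h h0 (shift (2 * a) ω))
        refine SEv.fin_le hl1' (hl1 (l - a) h0 (by omega)) ?_ hε
        have h5 := key ω hω (2 * a) 0 (2 * (l - a)) (l - a) (by omega) (by omega) h0 (by omega)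
        have e2 : ∑ i ∈ range (2 * (l - a)), shift (2 * a) ω i * cf M h (2 * (l - a)) i =
            ∑ i ∈ range (2 * (l - a)), ω (2 * a + i) * cf M h (2 * (l - a)) (i + 0) := by
          refine Finset.sum_congr rfl fun i _ => ?_
          unfold shift
          rw [add_comm i (2 * a), add_zero]
        rw [e2]
        nlinarith

end

end Pool.Agent.IG
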