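import Pool.Agent.Lib.MP_daa227_pr_IG.SX
import Pool.Agent.Lib.MP_daa227_pr_IG.ST
import Pool.Agent.Lib.MP_daa227_pr_IG.SUse

/-!
# MP_daa227_pr, marginal case: moments of the block sums
-/

namespace Pool.Agent.IG

open MeasureTheory ProbabilityTheory Finset Filter Topology
open MP_daa227_pr (Chain Zk Zf Gk Gf KU K0 Ren shift seqLaw ExpMom DepOn Good GoodW mom)
open Pool.Agent.AZ (Mod Kv lmg)
open Pool.Agent.IOrd (Sys aS cv)

noncomputable section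

namespace MBlk

theorem w_one (M : Mod) (hφ : ∀ z : ℤ, 0 ≤ z → M.φ z = 0) (h a : ℝ) {z : ℤ} (hz : 0 ≤ z) :
    M.W h a z = 1 := by
  unfold Mod.W
  rw [hφ z hz, mul_zero, Real.exp_zero]

/-- on the right the kernel with weights is the kernel without weights -/
theorem gk_right (M : Mod) (hφ : ∀ z : ℤ, 0 ≤ z → M.φ z = 0) (h : ℝ) :
    ∀ (n : ℕ) (ω : ℕ → ℝ) (x : ℤ), 1 ≤ x → Gk M.C (M.W h) {0} n ω x 0 = K0 M.C n x := by
  intro n
  induction n with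
  | zero =>
    intro ω x _
    rw [Gk, K0]
  | succ n ih =>
    intro ω x hx
    rw [Gk, K0]
    congr 1
    · by_cases hn : n = 0
      · rw [if_pos hn, if_pos hn, w_one M hφ h (ω 0) le_rfl, mul_one]
      · rw [if_neg hn, if_neg hn]
    · refine Finset.sum_congr rfl fun z hz => ?_
      rw [Finset.mem_sdiff, Finset.mem_Icc, Finset.mem_singleton] at hz
      have hz1 : 1 ≤ z := by omega
      rw [w_one M hφ h (ω 0) (by omega : 0 ≤ z), mul_one, ih _ z hz1]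

end MBlk

/-- The excursions to the right do not see the potential: `AZ.Gk_split` and `Gk` with unit weights on
`z ≥ 0` is at least the first passage probability from `1` to `0` through `z ≥ 1`
(induction as in `AZ.Kv_eq_Gk`; `φ 0 = 0` for the last step). -/
theorem g_det (M : Mod) (hφ : ∀ z : ℤ, 0 ≤ z → M.φ z = 0) (h : ℝ) {d : ℕ} (hd : 1 ≤ d)
    (ω : ℕ → ℝ) : M.C.p 0 1 * K0 M.C (2 * d - 1) 1 ≤ M.G h (2 * d) ω := by
  have e : 2 * d = (2 * d - 1) + 1 := by omega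
  unfold Mod.G
  rw [e, AZ.Gk_split M.C M.hnl, ← e, MBlk.w_one M hφ h (ω 0) (by norm_num : (0 : ℤ) ≤ 1), mul_one,
    MBlk.gk_right M hφ h _ _ 1 le_rfl]
  have h1 : 0 ≤ M.C.p 0 (-1) * M.W h (ω 0) (-1) *
      Gk M.C (M.W h) {0} (2 * d - 1) (shift 1 ω) (-1) 0 :=
    mul_nonneg (mul_nonneg (M.C.nonneg _ _) (M.W_pos h _ _).le)
      ((M.good_Gk h (2 * d - 1) (-1) 0).nonneg _)
  linarith

/-- With `κ = c (2l)^(-3/2)`: `tb_rec` for all `ω` (`g_det`, `d < 2l`), so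
`mom (TB (k+1)) ≥ κ^p mom (TB k) mom (XB)` (independence: `tb_dep`, the same computation is in
Lib/MP_daa227_pr_IG/SUse.lean), `tb_zero`, `tb_mom`: the sequence `mom (TB k)` is bounded and at least
`1` for `k = 0`, so `κ^p mom (XB) ≤ 1`. -/
theorem blk_mom (M : Mod) (hφ : ∀ z : ℤ, 0 ≤ z → M.φ z = 0) {h p K c : ℝ} (hp : 1 ≤ p)
    (hK : 0 ≤ K) (hb : ∀ n : ℕ, mom M.μ p (fun ω => M.Z h (2 * n) ω) ≤ ENNReal.ofReal K)
    (hc : 0 < c) (hlow : ∀ d : ℕ, 1 ≤ d →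
      c * (d : ℝ) ^ (-(3 / 2 : ℝ)) ≤ M.C.p 0 1 * K0 M.C (2 * d - 1) 1) {l : ℕ} (hl : 1 ≤ l) :
    mom M.μ p (XB M h l) ≤ ENNReal.ofReal ((c⁻¹ * (2 * l : ℝ) ^ (3 / 2 : ℝ)) ^ p) := by
  have hl0 : (0 : ℝ) < 2 * l := by
    have : (0 : ℝ) < l := by exact_mod_cast hl
    linarith
  set κ : ℝ := c * (2 * l : ℝ) ^ (-(3 / 2 : ℝ)) with hκ
  have hκ0 : 0 < κ := mul_pos hc (Real.rpow_pos_of_pos hl0 _)
  have key := s_abs (μ := M.μ) (X := XB M h l) (T := TB M h l) (E := Set.univ) (xb_meas M h l)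
    (xb_dep M h l) (fun ω => (Nat.cast_nonneg l).trans (xb_ge M h l ω)) (tb_meas M h l)
    (tb_dep M h l) (tb_nonneg M h l) (tb_zero M h hl) MeasurableSet.univ
    (fun _ _ _ _ => Set.mem_univ _)
    (by rw [measure_univ]; exact one_pos) hκ0 hp (tb_mom M hp hK hb l)
    (by
      intro k ω _ _
      refine tb_rec M h hκ0.le ω ?_
      intro y d hy1 hy2 hy3 hy4
      have a1 : (k + 1) * l = k * l + l := by ring
      have a2 : (k + 2) * l = k * l + 2 * l := by ring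
      have hd1 : 1 ≤ d := by omega
      have hd2 : (d : ℝ) ≤ 2 * l := by
        have : d ≤ 2 * l := by omega
        exact_mod_cast this
      have hd0 : (0 : ℝ) < d := by exact_mod_cast hd1
      have h1 : (2 * l : ℝ) ^ (-(3 / 2 : ℝ)) ≤ (d : ℝ) ^ (-(3 / 2 : ℝ)) :=
        Real.rpow_le_rpow_of_nonpos hd0 hd2 (by norm_num)
      calc κ ≤ c * (d : ℝ) ^ (-(3 / 2 : ℝ)) := mul_le_mul_of_nonneg_left h1 hc.le
        _ ≤ M.C.p 0 1 * K0 M.C (2 * d - 1) 1 := hlow d hd1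
        _ ≤ _ := g_det M hφ h hd1 _)
  rw [setLIntegral_univ] at key
  have hinv : c⁻¹ * (2 * l : ℝ) ^ (3 / 2 : ℝ) = κ⁻¹ := by
    rw [hκ, mul_inv, ← Real.rpow_neg hl0.le, neg_neg]
  rw [hinv]
  have hκp : 0 < κ ^ p := Real.rpow_pos_of_pos hκ0 _
  have h2 : (κ⁻¹) ^ p * κ ^ p = 1 := by
    rw [← Real.mul_rpow (inv_nonneg.2 hκ0.le) hκ0.le, inv_mul_cancel₀ hκ0.ne', Real.one_rpow]
  calc mom M.μ p (XB M h l)
      = ENNReal.ofReal ((κ⁻¹) ^ p) * (ENNReal.ofReal (κ ^ p) * mom M.μ p (XB M h l)) := by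
        rw [← mul_assoc, ← ENNReal.ofReal_mul (by positivity), h2, ENNReal.ofReal_one, one_mul]
    _ ≤ ENNReal.ofReal ((κ⁻¹) ^ p) * 1 := by
        gcongr
        exact key
    _ = _ := mul_one _

end

end Pool.Agent.IG
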