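import Pool.Agent.Lib.MP_daa227_pr_IG.MLow
import Pool.Agent.Lib.MP_daa227_pr_IG.MBlk

/-!
# MP_daa227_pr, marginal case: no moment of order larger than one is bounded
-/

namespace Pool.Agent.IG

open MeasureTheory ProbabilityTheory Finset Filter Topology
open MP_daa227_pr (Chain Zk Zf Gk Gf KU K0 Ren shift seqLaw ExpMom DepOn Good GoodW mom)
open Pool.Agent.AZ (Mod Kv lmg)
open Pool.Agent.IOrd (Sys aS cv)

noncomputable section

/-- Lyapunov: a bounded moment of order `p' > 1` gives a bounded moment of order `p ∈ (1, p']`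
(`x^p ≤ 1 + x^p'`); so we may take `p = 2k/(2k-1)` with `k` large. -/
theorem mom_lower {μ : Measure ℝ} [IsProbabilityMeasure μ] {F : (ℕ → ℝ) → ℝ} {p p' K : ℝ}
    (hp : 0 < p) (hpp : p ≤ p') (hK : 0 ≤ K) (hb : mom μ p' F ≤ ENNReal.ofReal K) :
    mom μ p F ≤ ENNReal.ofReal (1 + K) := by
  rw [ENNReal.ofReal_add zero_le_one hK, ENNReal.ofReal_one]
  calc mom μ p F ≤ ∫⁻ ω, (1 + ENNReal.ofReal (F ω) ^ p') ∂seqLaw μ := by
        unfold mom
        refine lintegral_mono fun ω => ?_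
        rcases le_total (ENNReal.ofReal (F ω)) 1 with h | h
        · exact (ENNReal.rpow_le_one h hp.le).trans le_self_add
        · exact (ENNReal.rpow_le_rpow_of_exponent_le h hpp).trans le_add_self
    _ = 1 + mom μ p' F := by
        rw [lintegral_add_left measurable_const, lintegral_const, measure_univ, mul_one]
        rfl
    _ ≤ 1 + ENNReal.ofReal K := by gcongr

/-- Hölder: with `p = 2k/(2k-1)`, `∫ X Q ≤ (mom p X)^(1/p) (∫ Q^(2k))^(1/(2k))` for `X ≥ 0` -/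
theorem holder_q {μ : Measure ℝ} [IsProbabilityMeasure μ] {X Q : (ℕ → ℝ) → ℝ} (hX : Measurable X)
    (hX0 : ∀ ω, 0 ≤ X ω) (hQ : Measurable Q) {B : ℝ} (hQB : ∀ ω, |Q ω| ≤ B) {k : ℕ} (hk : 1 ≤ k)
    {a b : ℝ} (ha : 0 ≤ a) (hb : 0 ≤ b)
    (h1 : mom μ (2 * k / (2 * k - 1) : ℝ) X ≤ ENNReal.ofReal (a ^ (2 * k / (2 * k - 1) : ℝ)))
    (h2 : ∫ ω, Q ω ^ (2 * k) ∂seqLaw μ ≤ (b ^ 2) ^ k) :
    ∫ ω, X ω * Q ω ∂seqLaw μ ≤ a * b := by
  have hab : 0 ≤ a * b := mul_nonneg ha hb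
  by_cases hi : Integrable (fun ω => X ω * Q ω) (seqLaw μ)
  swap
  · rw [integral_undef hi]
    exact hab
  have hk0 : (1 : ℝ) ≤ k := by exact_mod_cast hk
  have hk2 : (0 : ℝ) < 2 * k := by linarith
  have hk3 : (0 : ℝ) < 2 * k - 1 := by linarith
  set p : ℝ := 2 * k / (2 * k - 1) with hp
  have hp0 : 0 < p := div_pos hk2 hk3
  have hpq : p.HolderConjugate (2 * k : ℝ) := by
    rw [Real.holderConjugate_iff]
    refine ⟨?_, ?_⟩
    · rw [hp, lt_div_iff₀ hk3]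
      linarith
    · rw [hp, inv_div]
      field_simp
      ring
  have hB0 : 0 ≤ B := (abs_nonneg _).trans (hQB fun _ => 0)
  have hQi : Integrable (fun ω => Q ω ^ (2 * k)) (seqLaw μ) := by
    refine Integrable.of_bound (C := B ^ (2 * k)) (hQ.pow_const _).aestronglyMeasurable
      (ae_of_all _ fun ω => ?_)
    rw [Real.norm_eq_abs, abs_pow]
    exact pow_le_pow_left₀ (abs_nonneg _) (hQB ω) _
  have hQp : ∀ ω, 0 ≤ Q ω ^ (2 * k) := fun ω => by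
    rw [pow_mul]
    positivity
  have h3 : ∫⁻ ω, ENNReal.ofReal |Q ω| ^ (2 * k : ℝ) ∂seqLaw μ ≤
      ENNReal.ofReal (b ^ (2 * k : ℝ)) := by
    have h4 : ∀ ω, ENNReal.ofReal |Q ω| ^ (2 * k : ℝ) = ENNReal.ofReal (Q ω ^ (2 * k)) := by
      intro ω
      rw [ENNReal.ofReal_rpow_of_nonneg (abs_nonneg _) hk2.le]
      congr 1
      rw [show (2 * k : ℝ) = ((2 * k : ℕ) : ℝ) by push_cast; ring, Real.rpow_natCast, pow_mul,
        sq_abs, ← pow_mul]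
    simp_rw [h4]
    rw [← ofReal_integral_eq_lintegral_ofReal hQi (ae_of_all _ hQp)]
    refine ENNReal.ofReal_le_ofReal (h2.trans (le_of_eq ?_))
    rw [show (2 * k : ℝ) = ((2 * k : ℕ) : ℝ) by push_cast; ring, Real.rpow_natCast, ← pow_mul]
  have h5 := ENNReal.lintegral_mul_le_Lp_mul_Lq (seqLaw μ) hpq
    (f := fun ω => ENNReal.ofReal (X ω)) (g := fun ω => ENNReal.ofReal |Q ω|)
    hX.ennreal_ofReal.aemeasurable (hQ.abs).ennreal_ofReal.aemeasurable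
  have h6 : (∫⁻ ω, ENNReal.ofReal (X ω) ^ p ∂seqLaw μ) ^ (1 / p) ≤ ENNReal.ofReal a := by
    calc (∫⁻ ω, ENNReal.ofReal (X ω) ^ p ∂seqLaw μ) ^ (1 / p)
        ≤ (ENNReal.ofReal (a ^ p)) ^ (1 / p) := ENNReal.rpow_le_rpow h1 (by positivity)
      _ = ENNReal.ofReal a := by
        rw [ENNReal.ofReal_rpow_of_nonneg (by positivity) (by positivity), ← Real.rpow_mul ha,
          mul_one_div_cancel hp0.ne', Real.rpow_one]
  have h7 : (∫⁻ ω, ENNReal.ofReal |Q ω| ^ (2 * k : ℝ) ∂seqLaw μ) ^ (1 / (2 * k : ℝ)) ≤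
      ENNReal.ofReal b := by
    calc (∫⁻ ω, ENNReal.ofReal |Q ω| ^ (2 * k : ℝ) ∂seqLaw μ) ^ (1 / (2 * k : ℝ))
        ≤ (ENNReal.ofReal (b ^ (2 * k : ℝ))) ^ (1 / (2 * k : ℝ)) :=
          ENNReal.rpow_le_rpow h3 (by positivity)
      _ = ENNReal.ofReal b := by
        rw [ENNReal.ofReal_rpow_of_nonneg (by positivity) (by positivity), ← Real.rpow_mul hb,
          mul_one_div_cancel hk2.ne', Real.rpow_one]
  have h8 : ∫⁻ ω, ENNReal.ofReal (X ω * Q ω) ∂seqLaw μ ≤ ENNReal.ofReal (a * b) := by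
    rw [ENNReal.ofReal_mul ha]
    refine le_trans (lintegral_mono fun ω => ?_) (h5.trans (mul_le_mul' h6 h7))
    rw [Pi.mul_apply, ← ENNReal.ofReal_mul (hX0 ω)]
    exact ENNReal.ofReal_le_ofReal (mul_le_mul_of_nonneg_left (le_abs_self _) (hX0 ω))
  rw [integral_eq_lintegral_pos_part_sub_lintegral_neg_part hi]
  have h9 : (∫⁻ ω, ENNReal.ofReal (X ω * Q ω) ∂seqLaw μ).toReal ≤ a * b :=
    ENNReal.toReal_le_of_le_ofReal hab h8
  have h10 : 0 ≤ (∫⁻ ω, ENNReal.ofReal (-(X ω * Q ω)) ∂seqLaw μ).toReal := ENNReal.toReal_nonneg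
  linarith

/-- Let `p = 2k/(2k-1) ≤ p'`. `blk_mom` with `l = 4L + 2m`: `a = c⁻¹ (2l)^(3/2) ≤ C L^(3/2)`;
`hyp_quad`, `qc_sq`: `b² = 16^k L (1 + log L)`. `holder_q`, `xb_q_low`:
`c' L² log L ≤ C L^(3/2) 4^k √(L (1 + log L))`, impossible for large `L`. -/
theorem marg_core (M : Mod) (hφ : ∀ z : ℤ, 0 ≤ z → M.φ z = 0) {h p K c c₂ : ℝ} (hp : 1 < p)
    (hb : ∀ n : ℕ, mom M.μ p (fun ω => M.Z h (2 * n) ω) ≤ ENNReal.ofReal K) (hc : 0 < c)
    (hlow : ∀ d : ℕ, 1 ≤ d →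
      c * (d : ℝ) ^ (-(3 / 2 : ℝ)) ≤ M.C.p 0 1 * K0 M.C (2 * d - 1) 1) (hc₂ : 0 < c₂)
    (hU : ∀ N : ℕ, 1 ≤ N → c₂ * Real.sqrt N ≤ ∑ n ∈ range N, AZ.Zd M.C (M.v h) (2 * n) 0 0) :
    False := by
  obtain ⟨x₀, hx⟩ := M.φ_ne
  have hx0 : x₀ < 0 := by
    by_contra h0
    rw [hφ x₀ (by omega)] at hx
    exact lt_irrefl _ hx
  obtain ⟨c', hc', hlowq⟩ := xb_q_low M hx hx0 hc₂ hU
  set m := x₀.natAbs with hm
  have hm1 : 1 ≤ m := by omega
  have hμ := M.prob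
  obtain ⟨k, hk, hkp⟩ : ∃ k : ℕ, 1 ≤ k ∧ (2 * k / (2 * k - 1) : ℝ) ≤ p := by
    obtain ⟨k, hk⟩ := exists_nat_ge (p / (2 * (p - 1)))
    refine ⟨k + 1, by omega, ?_⟩
    have h1 : p ≤ k * (2 * (p - 1)) := by
      rwa [div_le_iff₀ (by linarith)] at hk
    have h2 : (0 : ℝ) ≤ k := Nat.cast_nonneg k
    push_cast
    rw [div_le_iff₀ (by linarith)]
    nlinarith
  have hk0 : (1 : ℝ) ≤ k := by exact_mod_cast hk
  have hk3 : (0 : ℝ) < 2 * k - 1 := by linarith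
  have hp1 : (1 : ℝ) ≤ 2 * k / (2 * k - 1) := by
    rw [le_div_iff₀ hk3]
    linarith
  have hK0 : 0 ≤ max K 0 := le_max_right _ _
  have hb' : ∀ n : ℕ, mom M.μ (2 * k / (2 * k - 1) : ℝ) (fun ω => M.Z h (2 * n) ω) ≤
      ENNReal.ofReal (1 + max K 0) := fun n =>
    mom_lower (by linarith) hkp hK0
      ((hb n).trans (ENNReal.ofReal_le_ofReal (le_max_left _ _)))
  have key : ∀ L : ℕ, 3 ≤ L → m ≤ L →
      c' ^ 2 * Real.log L ≤ (c⁻¹) ^ 2 * 12 ^ 3 * 16 ^ k * 2 := by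
    intro L hL3 hLm
    have hL1 : 1 ≤ L := by omega
    have hLr : (3 : ℝ) ≤ L := by exact_mod_cast hL3
    have hL0 : (0 : ℝ) < L := by linarith
    have hlog : 1 ≤ Real.log L := by
      rw [Real.le_log_iff_exp_le hL0]
      exact Real.exp_one_lt_three.le.trans hLr
    have h1 := blk_mom M hφ hp1 (by linarith) hb' hc hlow (l := 4 * L + 2 * m) (by omega)
    have h2 := hyp_quad (μ := M.μ) (xi_meas M.μ) (xi_bdd M.μ) (xi_mean M.μ) hk (qc m L)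
      (2 * (4 * L + 2 * m))
    have h3 := qc_sq hm1 hL1 (2 * (4 * L + 2 * m))
    have hS0 : (0 : ℝ) ≤ L * (1 + Real.log L) := by positivity
    set b : ℝ := 4 ^ k * Real.sqrt (L * (1 + Real.log L)) with hbd
    have hb0 : 0 ≤ b := by positivity
    have hb2 : b ^ 2 = 16 ^ k * (L * (1 + Real.log L)) := by
      rw [hbd, mul_pow, Real.sq_sqrt hS0, ← pow_mul, mul_comm k 2, pow_mul]
      norm_num
    set a : ℝ := c⁻¹ * (2 * (4 * L + 2 * m : ℕ) : ℝ) ^ (3 / 2 : ℝ) with had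
    have ha0 : 0 ≤ a := by positivity
    have ha2 : a ^ 2 ≤ (c⁻¹) ^ 2 * (12 * L) ^ 3 := by
      rw [had, mul_pow]
      have h4 : ((2 * (4 * L + 2 * m : ℕ) : ℝ) ^ (3 / 2 : ℝ)) ^ 2 =
          (2 * (4 * L + 2 * m : ℕ) : ℝ) ^ 3 := by
        rw [← Real.rpow_natCast, ← Real.rpow_mul (by positivity), ← Real.rpow_natCast]
        norm_num
      rw [h4]
      have h5 : (m : ℝ) ≤ L := by exact_mod_cast hLm
      have h6 : (2 * (4 * L + 2 * m : ℕ) : ℝ) ≤ 12 * L := by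
        push_cast
        linarith
      gcongr
    have h4 : ∫ ω, Qf (qc m L) (xi M.μ) (2 * (4 * L + 2 * m)) ω ^ (2 * k) ∂seqLaw M.μ ≤
        (b ^ 2) ^ k := by
      refine h2.trans (pow_le_pow_left₀ (by positivity) ?_ _)
      rw [hb2]
      exact mul_le_mul_of_nonneg_left h3 (by positivity)
    have h5 := holder_q (μ := M.μ) (xb_meas M h (4 * L + 2 * m))
      (fun ω => (Nat.cast_nonneg _).trans (xb_ge M h (4 * L + 2 * m) ω))
      (MHyp.qf_meas (xi_meas M.μ) (qc m L) (2 * (4 * L + 2 * m)))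
      (MHyp.qf_bound (xi_bdd M.μ) (qc m L) (2 * (4 * L + 2 * m))) hk ha0 hb0 h1 h4
    have h6 := (hlowq L hL1).trans h5
    have h7 : 0 ≤ c' * (L : ℝ) ^ 2 * Real.log L := by positivity
    have h8 := pow_le_pow_left₀ h7 h6 2
    have h9 : (a * b) ^ 2 ≤ (c⁻¹) ^ 2 * (12 * L) ^ 3 * (16 ^ k * (L * (2 * Real.log L))) := by
      rw [mul_pow, hb2]
      refine mul_le_mul ha2 ?_ (by positivity) (by positivity)
      gcongr
      linarith
    have h10 : (c' * (L : ℝ) ^ 2 * Real.log L) ^ 2 =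
        c' ^ 2 * Real.log L * ((L : ℝ) ^ 4 * Real.log L) := by ring
    have h11 : (c⁻¹) ^ 2 * (12 * (L : ℝ)) ^ 3 * (16 ^ k * (L * (2 * Real.log L))) =
        (c⁻¹) ^ 2 * 12 ^ 3 * 16 ^ k * 2 * ((L : ℝ) ^ 4 * Real.log L) := by ring
    rw [h10] at h8
    rw [h11] at h9
    have h12 : 0 < (L : ℝ) ^ 4 * Real.log L := by positivity
    exact le_of_mul_le_mul_right (h8.trans h9) h12
  have hT : Tendsto (fun L : ℕ => Real.log L) atTop atTop :=
    Real.tendsto_log_atTop.comp tendsto_natCast_atTop_atTop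
  have hc2 : 0 < c' ^ 2 := by positivity
  obtain ⟨L, h1, h2, h3⟩ := ((hT.eventually_gt_atTop
    ((c⁻¹) ^ 2 * 12 ^ 3 * 16 ^ k * 2 / c' ^ 2)).and
      ((eventually_ge_atTop 3).and (eventually_ge_atTop m))).exists
  have h4 := key L h2 h3
  rw [div_lt_iff₀ hc2] at h1
  linarith

end

end Pool.Agent.IG
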