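import Pool.Agent.Lib.MP_daa227_pr_IG.Defs
import Pool.Agent.Lib.MP_daa227_pr_AZ.Strat

/-!
# MP_daa227_pr, marginal case: moments of quadratic forms of bounded independent variables
-/

namespace Pool.Agent.IG

open MeasureTheory ProbabilityTheory Finset Filter Topology
open MP_daa227_pr (Chain Zk Zf Gk Gf KU K0 Ren shift seqLaw ExpMom DepOn Good GoodW mom)
open Pool.Agent.AZ (Mod Kv lmg)
open Pool.Agent.IOrd (Sys aS cv)

noncomputable section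

namespace MHyp

theorem sum_choose (k : ℕ) :
    ∑ j ∈ Finset.Icc 2 (2 * k), ((2 * k).choose j : ℝ) ≤ 4 ^ k := by
  have h1 : ∑ j ∈ Finset.Icc 2 (2 * k), ((2 * k).choose j : ℝ) ≤
      ∑ j ∈ range (2 * k + 1), ((2 * k).choose j : ℝ) := by
    refine Finset.sum_le_sum_of_subset_of_nonneg (fun j hj => ?_) fun _ _ _ => Nat.cast_nonneg _
    rw [Finset.mem_Icc] at hj
    rw [Finset.mem_range]
    omega
  refine h1.trans (le_of_eq ?_)
  have h2 := Nat.sum_range_choose (2 * k)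
  have h3 : (∑ j ∈ range (2 * k + 1), ((2 * k).choose j : ℝ)) = (2 : ℝ) ^ (2 * k) := by
    exact_mod_cast h2
  rw [h3, pow_mul]
  norm_num

theorem sum_bound {k : ℕ} {x y M : ℝ} (hM0 : 0 ≤ M)
    (hM : ∀ j ∈ Finset.Icc 2 (2 * k), x ^ (2 * k - j) * y ^ j ≤ M) :
    ∑ j ∈ Finset.Icc 2 (2 * k), ((2 * k).choose j : ℝ) * x ^ (2 * k - j) * y ^ j ≤ 4 ^ k * M := by
  calc ∑ j ∈ Finset.Icc 2 (2 * k), ((2 * k).choose j : ℝ) * x ^ (2 * k - j) * y ^ j
      ≤ ∑ j ∈ Finset.Icc 2 (2 * k), ((2 * k).choose j : ℝ) * M := by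
        refine Finset.sum_le_sum fun j hj => ?_
        rw [mul_assoc]
        exact mul_le_mul_of_nonneg_left (hM j hj) (Nat.cast_nonneg _)
    _ = (∑ j ∈ Finset.Icc 2 (2 * k), ((2 * k).choose j : ℝ)) * M := by rw [Finset.sum_mul]
    _ ≤ 4 ^ k * M := mul_le_mul_of_nonneg_right (sum_choose k) hM0

theorem amgm {n j : ℕ} (hn : 1 ≤ n) (hj : j ≤ n) {u v : ℝ} (hu : 0 ≤ u) (hv : 0 ≤ v) :
    u ^ (n - j) * v ^ j ≤ ((n : ℝ) - j) / n * u ^ n + (j : ℝ) / n * v ^ n := by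
  have hn0 : (0 : ℝ) < n := by exact_mod_cast hn
  have hjn : (j : ℝ) ≤ n := by exact_mod_cast hj
  have h := Real.geom_mean_le_arith_mean2_weighted (w₁ := ((n : ℝ) - j) / n) (w₂ := (j : ℝ) / n)
    (p₁ := u ^ n) (p₂ := v ^ n) (div_nonneg (sub_nonneg.2 hjn) hn0.le)
    (div_nonneg (Nat.cast_nonneg _) hn0.le) (pow_nonneg hu _) (pow_nonneg hv _)
    (by field_simp; ring)
  have h1 : (u ^ n) ^ (((n : ℝ) - j) / n) = u ^ (n - j) := by
    rw [← Real.rpow_natCast u n, ← Real.rpow_mul hu, ← Real.rpow_natCast u (n - j),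
      Nat.cast_sub hj]
    congr 1
    field_simp
  have h2 : (v ^ n) ^ ((j : ℝ) / n) = v ^ j := by
    rw [← Real.rpow_natCast v n, ← Real.rpow_mul hv, ← Real.rpow_natCast v j]
    congr 1
    field_simp
  rwa [h1, h2] at h

theorem int_pow {P : Measure (ℕ → ℝ)} [IsProbabilityMeasure P] {g h : (ℕ → ℝ) → ℝ}
    (hg : Measurable g) (hh : Measurable h) {B : ℝ} (hgb : ∀ ω, |g ω| ≤ B)
    (hhb : ∀ ω, |h ω| ≤ B) (a b : ℕ) : Integrable (fun ω => g ω ^ a * h ω ^ b) P := by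
  refine Integrable.of_bound ((hg.pow_const a).mul (hh.pow_const b)).aestronglyMeasurable
    (B ^ a * B ^ b) (ae_of_all _ fun ω => ?_)
  rw [norm_mul, norm_pow, norm_pow, Real.norm_eq_abs, Real.norm_eq_abs]
  have hB : 0 ≤ B := (abs_nonneg _).trans (hgb ω)
  exact mul_le_mul (pow_le_pow_left₀ (abs_nonneg _) (hgb ω) _)
    (pow_le_pow_left₀ (abs_nonneg _) (hhb ω) _) (pow_nonneg (abs_nonneg _) _) (pow_nonneg hB _)

theorem mom_pos {P : Measure (ℕ → ℝ)} [IsProbabilityMeasure P] {g h : (ℕ → ℝ) → ℝ}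
    (hg : Measurable g) (hh : Measurable h) {B : ℝ} (hgb : ∀ ω, |g ω| ≤ B)
    (hhb : ∀ ω, |h ω| ≤ B) {k j : ℕ} (hk : 1 ≤ k) (hj : j ≤ 2 * k) {s t : ℝ} (hs : 0 < s)
    (ht : 0 < t) (h1 : ∫ ω, g ω ^ (2 * k) ∂P ≤ s ^ (2 * k))
    (h2 : ∫ ω, h ω ^ (2 * k) ∂P ≤ t ^ (2 * k)) :
    ∫ ω, |g ω| ^ (2 * k - j) * |h ω| ^ j ∂P ≤ s ^ (2 * k - j) * t ^ j := by
  have hn : 1 ≤ 2 * k := by omega
  have hn0 : (0 : ℝ) < ((2 * k : ℕ) : ℝ) := by exact_mod_cast hn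
  have hjn : (j : ℝ) ≤ ((2 * k : ℕ) : ℝ) := by exact_mod_cast hj
  set A : ℝ := s ^ (2 * k - j) * t ^ j with hA
  have hA0 : 0 < A := mul_pos (pow_pos hs _) (pow_pos ht _)
  set p : ℝ := (((2 * k : ℕ) : ℝ) - j) / ((2 * k : ℕ) : ℝ) with hp
  set q : ℝ := (j : ℝ) / ((2 * k : ℕ) : ℝ) with hq
  have hp0 : 0 ≤ p := div_nonneg (sub_nonneg.2 hjn) hn0.le
  have hq0 : 0 ≤ q := div_nonneg (Nat.cast_nonneg _) hn0.le
  have hpq : p + q = 1 := by
    rw [hp, hq]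
    field_simp
    ring
  have hpt : ∀ ω, |g ω| ^ (2 * k - j) * |h ω| ^ j ≤
      A * (p * (g ω ^ (2 * k) / s ^ (2 * k)) + q * (h ω ^ (2 * k) / t ^ (2 * k))) := by
    intro ω
    have h3 := amgm hn hj (u := |g ω| / s) (v := |h ω| / t) (div_nonneg (abs_nonneg _) hs.le)
      (div_nonneg (abs_nonneg _) ht.le)
    rw [div_pow, div_pow, div_pow, div_pow, Even.pow_abs ⟨k, two_mul k⟩,
      Even.pow_abs ⟨k, two_mul k⟩, ← hp, ← hq] at h3
    have h4 := mul_le_mul_of_nonneg_left h3 hA0.le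
    refine le_trans (le_of_eq ?_) h4
    rw [hA]
    field_simp
  have hi1 : Integrable (fun ω => g ω ^ (2 * k)) P := by
    have h3 := int_pow (P := P) hg hh hgb hhb (2 * k) 0
    simpa using h3
  have hi2 : Integrable (fun ω => h ω ^ (2 * k)) P := by
    have h3 := int_pow (P := P) hg hh hgb hhb 0 (2 * k)
    simpa using h3
  have hi3 : Integrable (fun ω => |g ω| ^ (2 * k - j) * |h ω| ^ j) P := by
    have h3 := (int_pow (P := P) hg hh hgb hhb (2 * k - j) j).abs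
    refine h3.congr (ae_of_all _ fun ω => ?_)
    show |g ω ^ (2 * k - j) * h ω ^ j| = _
    rw [abs_mul, abs_pow, abs_pow]
  have hi4 : Integrable (fun ω => A * (p * (g ω ^ (2 * k) / s ^ (2 * k)) +
      q * (h ω ^ (2 * k) / t ^ (2 * k)))) P :=
    (((hi1.div_const _).const_mul p).add ((hi2.div_const _).const_mul q)).const_mul A
  refine (integral_mono hi3 hi4 hpt).trans ?_
  rw [integral_const_mul, integral_add ((hi1.div_const _).const_mul p)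
    ((hi2.div_const _).const_mul q), integral_const_mul, integral_const_mul, integral_div,
    integral_div]
  have h5 : (∫ ω, g ω ^ (2 * k) ∂P) / s ^ (2 * k) ≤ 1 := by
    rw [div_le_one (pow_pos hs _)]
    exact h1
  have h6 : (∫ ω, h ω ^ (2 * k) ∂P) / t ^ (2 * k) ≤ 1 := by
    rw [div_le_one (pow_pos ht _)]
    exact h2
  have h7 : p * ((∫ ω, g ω ^ (2 * k) ∂P) / s ^ (2 * k)) +
      q * ((∫ ω, h ω ^ (2 * k) ∂P) / t ^ (2 * k)) ≤ 1 := by
    rw [← hpq]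
    exact add_le_add (mul_le_of_le_one_right hp0 h5) (mul_le_of_le_one_right hq0 h6)
  exact mul_le_of_le_one_right hA0.le h7

theorem mom_mul {P : Measure (ℕ → ℝ)} [IsProbabilityMeasure P] {g h : (ℕ → ℝ) → ℝ}
    (hg : Measurable g) (hh : Measurable h) {B : ℝ} (hgb : ∀ ω, |g ω| ≤ B)
    (hhb : ∀ ω, |h ω| ≤ B) {k j : ℕ} (hk : 1 ≤ k) (hj : j ≤ 2 * k) {s t : ℝ} (hs : 0 ≤ s)
    (ht : 0 ≤ t) (h1 : ∫ ω, g ω ^ (2 * k) ∂P ≤ s ^ (2 * k))
    (h2 : ∫ ω, h ω ^ (2 * k) ∂P ≤ t ^ (2 * k)) :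
    ∫ ω, |g ω| ^ (2 * k - j) * |h ω| ^ j ∂P ≤ s ^ (2 * k - j) * t ^ j := by
  have hc : Tendsto (fun ε : ℝ => (s + ε) ^ (2 * k - j) * (t + ε) ^ j) (𝓝[>] 0)
      (𝓝 ((s + 0) ^ (2 * k - j) * (t + 0) ^ j)) := by
    refine Tendsto.mono_left ?_ nhdsWithin_le_nhds
    exact Continuous.tendsto (by fun_prop) 0
  rw [add_zero, add_zero] at hc
  refine ge_of_tendsto hc (eventually_nhdsWithin_of_forall fun ε hε => ?_)
  have hε0 : 0 < ε := hε
  refine mom_pos hg hh hgb hhb hk hj (add_pos_of_nonneg_of_pos hs hε0)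
    (add_pos_of_nonneg_of_pos ht hε0) (h1.trans ?_) (h2.trans ?_)
  · exact pow_le_pow_left₀ hs (by linarith) _
  · exact pow_le_pow_left₀ ht (by linarith) _

end MHyp

/-- The sum of the binomial coefficients is at most `4^k`; if `y ≤ x` every term of the sum is at
most `C(2k,j) x^(2k-2) y^2`, and if `x ≤ y` it is at most `C(2k,j) y^(2k)`; both
`x^(2k) + 4^k x^(2k-2) y^2` and `x^(2k) + 4^k y^(2k)` are at most the right side. -/
theorem num_step {k : ℕ} (hk : 1 ≤ k) {x y : ℝ} (hx : 0 ≤ x) (hy : 0 ≤ y) :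
    x ^ (2 * k) + ∑ j ∈ Finset.Icc 2 (2 * k), ((2 * k).choose j : ℝ) * x ^ (2 * k - j) * y ^ j ≤
      (x ^ 2 + 4 ^ k * y ^ 2) ^ k := by
  obtain ⟨m, rfl⟩ : ∃ m, k = m + 1 := ⟨k - 1, by omega⟩
  have h4 : (0 : ℝ) ≤ 4 ^ (m + 1) * y ^ 2 := by positivity
  have hx2 : (0 : ℝ) ≤ x ^ 2 := by positivity
  rcases le_total y x with h | h
  · have hb := MHyp.sum_bound (k := m + 1) (x := x) (y := y) (M := x ^ (2 * m) * y ^ 2)
      (by positivity) (fun j hj => by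
        rw [Finset.mem_Icc] at hj
        obtain ⟨i, rfl⟩ : ∃ i, j = i + 2 := ⟨j - 2, by omega⟩
        have e1 : x ^ (2 * m) = x ^ (2 * (m + 1) - (i + 2)) * x ^ i := by
          rw [← pow_add]
          congr 1
          omega
        rw [e1, pow_add, mul_assoc]
        have h5 : y ^ i ≤ x ^ i := pow_le_pow_left₀ hy h i
        exact mul_le_mul_of_nonneg_left (mul_le_mul_of_nonneg_right h5 (by positivity))
          (pow_nonneg hx _))
    have h6 : (x ^ 2) ^ m * (x ^ 2 + 4 ^ (m + 1) * y ^ 2) ≤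
        (x ^ 2 + 4 ^ (m + 1) * y ^ 2) ^ (m + 1) := by
      rw [pow_succ (x ^ 2 + 4 ^ (m + 1) * y ^ 2) m]
      exact mul_le_mul_of_nonneg_right (pow_le_pow_left₀ hx2 (by linarith) m) (by linarith)
    refine le_trans ?_ h6
    have e2 : (x ^ 2) ^ m * (x ^ 2 + 4 ^ (m + 1) * y ^ 2) =
        x ^ (2 * (m + 1)) + 4 ^ (m + 1) * (x ^ (2 * m) * y ^ 2) := by
      rw [← pow_mul]
      ring
    rw [e2]
    linarith
  · have hb := MHyp.sum_bound (k := m + 1) (x := x) (y := y) (M := y ^ (2 * (m + 1)))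
      (by positivity) (fun j hj => by
        rw [Finset.mem_Icc] at hj
        have e1 : y ^ (2 * (m + 1)) = y ^ (2 * (m + 1) - j) * y ^ j := by
          rw [← pow_add]
          congr 1
          omega
        rw [e1]
        exact mul_le_mul_of_nonneg_right (pow_le_pow_left₀ hx h _) (pow_nonneg hy _))
    have h6 : (x ^ 2) ^ (m + 1) + (4 ^ (m + 1) * y ^ 2) ^ (m + 1) ≤
        (x ^ 2 + 4 ^ (m + 1) * y ^ 2) ^ (m + 1) := by
      rw [pow_succ (x ^ 2) m, pow_succ (4 ^ (m + 1) * y ^ 2) m,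
        pow_succ (x ^ 2 + 4 ^ (m + 1) * y ^ 2) m, mul_add]
      exact add_le_add
        (mul_le_mul_of_nonneg_right (pow_le_pow_left₀ hx2 (by linarith) m) hx2)
        (mul_le_mul_of_nonneg_right (pow_le_pow_left₀ h4 (by linarith) m) h4)
    refine le_trans ?_ h6
    have h7 : (4 : ℝ) ^ (m + 1) * y ^ (2 * (m + 1)) ≤ (4 ^ (m + 1) * y ^ 2) ^ (m + 1) := by
      rw [mul_pow, ← pow_mul y]
      refine mul_le_mul_of_nonneg_right ?_ (by positivity)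
      exact le_self_pow₀ (one_le_pow₀ (by norm_num)) (by omega)
    rw [← pow_mul x]
    linarith

/-- Binomial expansion: `E (g + ξ_n h)^(2k) = ∑_j C(2k,j) E[g^(2k-j) h^j] E[ξ^j]` (`ξ (ω n)` is
independent of `g`, `h`, everything is bounded); the term `j = 1` vanishes;
`|E g^(2k-j) h^j| ≤ (√x)^(2k-j) (√y)^j` (weighted means), `|E ξ^j| ≤ 1`; `num_step` with `√x`,
`√y`. -/
theorem hyp_step {μ : Measure ℝ} [IsProbabilityMeasure μ] {ξ : ℝ → ℝ} (hξ : Measurable ξ)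
    (hb : ∀ x, |ξ x| ≤ 1) (hm : ∫ x, ξ x ∂μ = 0) {n k : ℕ} (hk : 1 ≤ k)
    {g h : (ℕ → ℝ) → ℝ} (hg : Measurable g) (hh : Measurable h) (hgd : DepOn n g)
    (hhd : DepOn n h) {B : ℝ} (hgb : ∀ ω, |g ω| ≤ B) (hhb : ∀ ω, |h ω| ≤ B) {x y : ℝ} (hx : 0 ≤ x)
    (hy : 0 ≤ y) (h1 : ∫ ω, g ω ^ (2 * k) ∂seqLaw μ ≤ x ^ k)
    (h2 : ∫ ω, h ω ^ (2 * k) ∂seqLaw μ ≤ y ^ k) :
    ∫ ω, (g ω + ξ (ω n) * h ω) ^ (2 * k) ∂seqLaw μ ≤ (x + 4 ^ k * y) ^ k := by
  set s := Real.sqrt x with hs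
  set t := Real.sqrt y with ht
  have hs0 : 0 ≤ s := Real.sqrt_nonneg x
  have ht0 : 0 ≤ t := Real.sqrt_nonneg y
  have hs2 : s ^ 2 = x := Real.sq_sqrt hx
  have ht2 : t ^ 2 = y := Real.sq_sqrt hy
  have h1' : ∫ ω, g ω ^ (2 * k) ∂seqLaw μ ≤ s ^ (2 * k) := by
    rw [pow_mul, hs2]
    exact h1
  have h2' : ∫ ω, h ω ^ (2 * k) ∂seqLaw μ ≤ t ^ (2 * k) := by
    rw [pow_mul, ht2]
    exact h2
  have hξn : Measurable fun ω : ℕ → ℝ => ξ (ω n) := hξ.comp (measurable_pi_apply n)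
  -- the terms of the expansion
  have hexp : ∀ ω : ℕ → ℝ, (g ω + ξ (ω n) * h ω) ^ (2 * k) =
      ∑ j ∈ range (2 * k + 1),
        ((2 * k).choose j : ℝ) * ((g ω ^ (2 * k - j) * h ω ^ j) * ξ (ω n) ^ j) := by
    intro ω
    rw [add_comm, add_pow]
    refine Finset.sum_congr rfl fun j _ => ?_
    rw [mul_pow]
    ring
  have hint : ∀ j, Integrable (fun ω : ℕ → ℝ =>
      ((2 * k).choose j : ℝ) * ((g ω ^ (2 * k - j) * h ω ^ j) * ξ (ω n) ^ j)) (seqLaw μ) := by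
    intro j
    refine Integrable.const_mul ?_ _
    refine (MHyp.int_pow hg hh hgb hhb (2 * k - j) j).mul_bdd (c := 1)
      (hξn.pow_const j).aestronglyMeasurable (ae_of_all _ fun ω => ?_)
    rw [norm_pow, Real.norm_eq_abs]
    exact pow_le_one₀ (abs_nonneg _) (hb _)
  have hfac : ∀ j, ∫ ω : ℕ → ℝ, (g ω ^ (2 * k - j) * h ω ^ j) * ξ (ω n) ^ j ∂seqLaw μ =
      (∫ ω, g ω ^ (2 * k - j) * h ω ^ j ∂seqLaw μ) * ∫ z, ξ z ^ j ∂μ := by
    intro j
    have h3 := Pool.Agent.AZ.Strat.integral_mul_shift μ (k := n)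
      (X := fun ω => g ω ^ (2 * k - j) * h ω ^ j) (Y := fun ω : ℕ → ℝ => ξ (ω 0) ^ j)
      ((hg.pow_const _).mul (hh.pow_const _))
      (fun ω ω' hω => by
        show g ω ^ (2 * k - j) * h ω ^ j = g ω' ^ (2 * k - j) * h ω' ^ j
        rw [hgd ω ω' hω, hhd ω ω' hω])
      ((hξ.comp (measurable_pi_apply 0)).pow_const j)
    rw [MP_daa227_pr.integral_apply μ 0 (Y := fun z => ξ z ^ j) (hξ.pow_const j)] at h3
    rw [← h3]
    refine integral_congr_ae (ae_of_all _ fun ω => ?_)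
    show _ = g ω ^ (2 * k - j) * h ω ^ j * ξ (shift n ω 0) ^ j
    rw [MP_daa227_pr.shift_apply, zero_add]
  have hξj : ∀ j, |∫ z, ξ z ^ j ∂μ| ≤ 1 := by
    intro j
    have h3 := norm_integral_le_of_norm_le_const (μ := μ) (f := fun z => ξ z ^ j) (C := 1)
      (ae_of_all _ fun z => by
        rw [norm_pow, Real.norm_eq_abs]
        exact pow_le_one₀ (abs_nonneg _) (hb z))
    simpa using h3
  have hgh : ∀ j ≤ 2 * k, |∫ ω, g ω ^ (2 * k - j) * h ω ^ j ∂seqLaw μ| ≤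
      s ^ (2 * k - j) * t ^ j := by
    intro j hj
    refine (abs_integral_le_integral_abs).trans ?_
    refine le_trans (le_of_eq ?_) (MHyp.mom_mul (P := seqLaw μ) hg hh hgb hhb hk hj hs0 ht0 h1' h2')
    refine integral_congr_ae (ae_of_all _ fun ω => ?_)
    show |g ω ^ (2 * k - j) * h ω ^ j| = _
    rw [abs_mul, abs_pow, abs_pow]
  have hmain : ∫ ω, (g ω + ξ (ω n) * h ω) ^ (2 * k) ∂seqLaw μ =
      ∑ j ∈ range (2 * k + 1), ((2 * k).choose j : ℝ) *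
        ((∫ ω, g ω ^ (2 * k - j) * h ω ^ j ∂seqLaw μ) * ∫ z, ξ z ^ j ∂μ) := by
    simp_rw [hexp]
    rw [integral_finsetSum _ fun j _ => hint j]
    refine Finset.sum_congr rfl fun j _ => ?_
    rw [integral_const_mul, hfac j]
  rw [hmain]
  have hsplit : range (2 * k + 1) = insert 0 (insert 1 (Finset.Icc 2 (2 * k))) := by
    ext j
    simp only [Finset.mem_range, Finset.mem_insert, Finset.mem_Icc]
    omega
  rw [hsplit, Finset.sum_insert (by simp), Finset.sum_insert (by simp)]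
  have e0 : ((2 * k).choose 0 : ℝ) *
      ((∫ ω, g ω ^ (2 * k - 0) * h ω ^ 0 ∂seqLaw μ) * ∫ z, ξ z ^ 0 ∂μ) ≤ s ^ (2 * k) := by
    simp only [Nat.choose_zero_right, Nat.cast_one, one_mul, Nat.sub_zero, pow_zero, mul_one,
      integral_const, probReal_univ, smul_eq_mul]
    exact h1'
  have e1 : ((2 * k).choose 1 : ℝ) *
      ((∫ ω, g ω ^ (2 * k - 1) * h ω ^ 1 ∂seqLaw μ) * ∫ z, ξ z ^ 1 ∂μ) = 0 := by
    simp only [pow_one]
    rw [hm, mul_zero, mul_zero]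
  have e2 : ∑ j ∈ Finset.Icc 2 (2 * k), ((2 * k).choose j : ℝ) *
      ((∫ ω, g ω ^ (2 * k - j) * h ω ^ j ∂seqLaw μ) * ∫ z, ξ z ^ j ∂μ) ≤
      ∑ j ∈ Finset.Icc 2 (2 * k), ((2 * k).choose j : ℝ) * s ^ (2 * k - j) * t ^ j := by
    refine Finset.sum_le_sum fun j hj => ?_
    rw [mul_assoc]
    refine mul_le_mul_of_nonneg_left ?_ (Nat.cast_nonneg _)
    refine (le_abs_self _).trans ?_
    rw [abs_mul]
    have h5 := mul_le_mul (hgh j (Finset.mem_Icc.1 hj).2) (hξj j) (abs_nonneg _)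
      (mul_nonneg (pow_nonneg hs0 _) (pow_nonneg ht0 _))
    rwa [mul_one] at h5
  have h6 := num_step hk hs0 ht0
  rw [hs2, ht2] at h6
  rw [e1]
  linarith

/-- quadratic form in the variables `ξ (ω i)` -/
def Qf (q : ℕ → ℕ → ℝ) (ξ : ℝ → ℝ) (N : ℕ) (ω : ℕ → ℝ) : ℝ :=
  ∑ j ∈ range N, ∑ i ∈ range j, q i j * ξ (ω i) * ξ (ω j)

namespace MHyp

/-- linear form in the variables `ξ (ω i)` -/
def Lf (a : ℕ → ℝ) (ξ : ℝ → ℝ) (N : ℕ) (ω : ℕ → ℝ) : ℝ := ∑ i ∈ range N, a i * ξ (ω i)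

section
variable {ξ : ℝ → ℝ}

theorem lf_meas (hξ : Measurable ξ) (a : ℕ → ℝ) (N : ℕ) : Measurable (Lf a ξ N) := by
  unfold Lf
  exact Finset.measurable_sum _ fun i _ => (hξ.comp (measurable_pi_apply i)).const_mul _

theorem lf_dep (a : ℕ → ℝ) (N : ℕ) : DepOn N (Lf a ξ N) := by
  intro ω ω' h
  unfold Lf
  refine Finset.sum_congr rfl fun i hi => ?_
  rw [h i (Finset.mem_range.1 hi)]

theorem lf_bound (hb : ∀ x, |ξ x| ≤ 1) (a : ℕ → ℝ) (N : ℕ) (ω : ℕ → ℝ) :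
    |Lf a ξ N ω| ≤ ∑ i ∈ range N, |a i| := by
  unfold Lf
  refine (Finset.abs_sum_le_sum_abs _ _).trans (Finset.sum_le_sum fun i _ => ?_)
  rw [abs_mul]
  exact mul_le_of_le_one_right (abs_nonneg _) (hb _)

theorem lf_mom {μ : Measure ℝ} [IsProbabilityMeasure μ] (hξ : Measurable ξ)
    (hb : ∀ x, |ξ x| ≤ 1) (hm : ∫ x, ξ x ∂μ = 0) {k : ℕ} (hk : 1 ≤ k) (a : ℕ → ℝ) (N : ℕ) :
    ∫ ω, Lf a ξ N ω ^ (2 * k) ∂seqLaw μ ≤ (4 ^ k * ∑ i ∈ range N, a i ^ 2) ^ k := by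
  induction N with
  | zero =>
    have h1 : ∀ ω : ℕ → ℝ, Lf a ξ 0 ω ^ (2 * k) = 0 := fun ω => by
      unfold Lf
      rw [Finset.sum_range_zero, zero_pow (by omega)]
    simp_rw [h1]
    rw [integral_zero]
    positivity
  | succ N ih =>
    have h1 : ∀ ω : ℕ → ℝ, Lf a ξ (N + 1) ω = Lf a ξ N ω + ξ (ω N) * a N := fun ω => by
      unfold Lf
      rw [Finset.sum_range_succ, mul_comm (a N)]
    simp_rw [h1]
    have hc : ∀ (_ : ℕ → ℝ), |a N| ≤ ∑ i ∈ range (N + 1), |a i| := fun _ => by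
      rw [Finset.sum_range_succ]
      have h2 : 0 ≤ ∑ i ∈ range N, |a i| := Finset.sum_nonneg fun _ _ => abs_nonneg _
      linarith
    have hL : ∀ ω, |Lf a ξ N ω| ≤ ∑ i ∈ range (N + 1), |a i| := fun ω => by
      rw [Finset.sum_range_succ]
      have h2 := lf_bound hb a N ω
      have h3 := abs_nonneg (a N)
      linarith
    have h3 := hyp_step (μ := μ) hξ hb hm (n := N) hk (g := Lf a ξ N) (h := fun _ => a N)
      (lf_meas hξ a N) measurable_const (lf_dep a N) (fun _ _ _ => rfl) hL hc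
      (x := 4 ^ k * ∑ i ∈ range N, a i ^ 2) (y := a N ^ 2)
      (mul_nonneg (by positivity) (Finset.sum_nonneg fun _ _ => sq_nonneg _)) (sq_nonneg _) ih
      (by
        rw [integral_const, probReal_univ, one_smul, pow_mul])
    rw [Finset.sum_range_succ, mul_add]
    exact h3

theorem qf_meas (hξ : Measurable ξ) (q : ℕ → ℕ → ℝ) (N : ℕ) : Measurable (Qf q ξ N) := by
  unfold Qf
  exact Finset.measurable_sum _ fun j _ => Finset.measurable_sum _ fun i _ =>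
    ((hξ.comp (measurable_pi_apply i)).const_mul _).mul (hξ.comp (measurable_pi_apply j))

theorem qf_dep (q : ℕ → ℕ → ℝ) (N : ℕ) : DepOn N (Qf q ξ N) := by
  intro ω ω' h
  unfold Qf
  refine Finset.sum_congr rfl fun j hj => Finset.sum_congr rfl fun i hi => ?_
  rw [Finset.mem_range] at hi hj
  rw [h i (hi.trans hj), h j hj]

theorem qf_bound (hb : ∀ x, |ξ x| ≤ 1) (q : ℕ → ℕ → ℝ) (N : ℕ) (ω : ℕ → ℝ) :
    |Qf q ξ N ω| ≤ ∑ j ∈ range N, ∑ i ∈ range j, |q i j| := by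
  unfold Qf
  refine (Finset.abs_sum_le_sum_abs _ _).trans (Finset.sum_le_sum fun j _ => ?_)
  refine (Finset.abs_sum_le_sum_abs _ _).trans (Finset.sum_le_sum fun i _ => ?_)
  rw [abs_mul, abs_mul, mul_assoc]
  exact mul_le_of_le_one_right (abs_nonneg _) (mul_le_one₀ (hb _) (abs_nonneg _) (hb _))

end

end MHyp

/-- First linear forms: `E (∑_{i<n} q_i ξ(ω i))^(2k) ≤ (4^k ∑_{i<n} q_i^2)^k` by induction
(`hyp_step` with the constant `h = q_n`); then `Qf (N+1) = Qf N + ξ(ω N) ∑_{i<N} q i N ξ(ω i)` and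
`hyp_step` again. -/
theorem hyp_quad {μ : Measure ℝ} [IsProbabilityMeasure μ] {ξ : ℝ → ℝ} (hξ : Measurable ξ)
    (hb : ∀ x, |ξ x| ≤ 1) (hm : ∫ x, ξ x ∂μ = 0) {k : ℕ} (hk : 1 ≤ k) (q : ℕ → ℕ → ℝ) (N : ℕ) :
    ∫ ω, Qf q ξ N ω ^ (2 * k) ∂seqLaw μ ≤
      (16 ^ k * ∑ j ∈ range N, ∑ i ∈ range j, q i j ^ 2) ^ k := by
  induction N with
  | zero =>
    have h1 : ∀ ω : ℕ → ℝ, Qf q ξ 0 ω ^ (2 * k) = 0 := fun ω => by
      unfold Qf
      rw [Finset.sum_range_zero, zero_pow (by omega)]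
    simp_rw [h1]
    rw [integral_zero]
    positivity
  | succ N ih =>
    have h1 : ∀ ω : ℕ → ℝ, Qf q ξ (N + 1) ω =
        Qf q ξ N ω + ξ (ω N) * MHyp.Lf (fun i => q i N) ξ N ω := fun ω => by
      unfold Qf MHyp.Lf
      rw [Finset.sum_range_succ, Finset.mul_sum]
      congr 1
      exact Finset.sum_congr rfl fun i _ => by ring
    simp_rw [h1]
    have hA : 0 ≤ ∑ j ∈ range N, ∑ i ∈ range j, |q i j| :=
      Finset.sum_nonneg fun _ _ => Finset.sum_nonneg fun _ _ => abs_nonneg _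
    have hB : 0 ≤ ∑ i ∈ range N, |q i N| := Finset.sum_nonneg fun _ _ => abs_nonneg _
    have h2 := hyp_step (μ := μ) hξ hb hm (n := N) hk (g := Qf q ξ N)
      (h := MHyp.Lf (fun i => q i N) ξ N) (MHyp.qf_meas hξ q N) (MHyp.lf_meas hξ _ N)
      (MHyp.qf_dep q N) (MHyp.lf_dep _ N)
      (B := (∑ j ∈ range N, ∑ i ∈ range j, |q i j|) + ∑ i ∈ range N, |q i N|)
      (fun ω => (MHyp.qf_bound hb q N ω).trans (by linarith))
      (fun ω => (MHyp.lf_bound hb _ N ω).trans (by linarith))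
      (x := 16 ^ k * ∑ j ∈ range N, ∑ i ∈ range j, q i j ^ 2)
      (y := 4 ^ k * ∑ i ∈ range N, q i N ^ 2)
      (mul_nonneg (by positivity) (Finset.sum_nonneg fun _ _ =>
        Finset.sum_nonneg fun _ _ => sq_nonneg _))
      (mul_nonneg (by positivity) (Finset.sum_nonneg fun _ _ => sq_nonneg _)) ih
      (MHyp.lf_mom hξ hb hm hk (fun i => q i N) N)
    have e1 : (16 : ℝ) ^ k * ∑ j ∈ range (N + 1), ∑ i ∈ range j, q i j ^ 2 =
        16 ^ k * ∑ j ∈ range N, ∑ i ∈ range j, q i j ^ 2 +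
          4 ^ k * (4 ^ k * ∑ i ∈ range N, q i N ^ 2) := by
      rw [Finset.sum_range_succ, mul_add, ← mul_assoc (4 ^ k : ℝ), ← mul_pow]
      norm_num
    rw [e1]
    exact h2

end

end Pool.Agent.IG
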