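import Pool.Agent.Lib.MP_daa227_pr_IG.Defs
import Pool.Agent.Lib.MP_daa227_pr_AZ.Strat
import Pool.Agent.Lib.MP_daa227_pr_AZ.MomId

/-!
# MP_daa227_pr, marginal case: partition functions against products of functions of the charges
-/

namespace Pool.Agent.IG

open MeasureTheory ProbabilityTheory Finset Filter Topology
open MP_daa227_pr (Chain Zk Zf Gk Gf KU K0 Ren shift seqLaw ExpMom DepOn Good GoodW mom)
open Pool.Agent.AZ (Mod Kv lmg)
open Pool.Agent.IOrd (Sys aS cv)

noncomputable section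

/-- deterministic point to point partition function with weights depending on time: the weight
`w k` belongs to the site after step `k + 1` -/
def Zi (C : Chain) : (ℕ → ℤ → ℝ) → ℕ → ℤ → ℤ → ℝ
  | _, 0, x, y => if x = y then 1 else 0
  | w, n + 1, x, y => ∑ z ∈ Finset.Icc (x - 1) (x + 1), C.p x z * w 0 z *
      Zi C (fun k => w (k + 1)) n z y

theorem zi_nonneg (C : Chain) {w : ℕ → ℤ → ℝ} (hw : ∀ k z, 0 ≤ w k z) (n : ℕ) (x y : ℤ) :
    0 ≤ Zi C w n x y := by
  induction n generalizing w x with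
  | zero =>
    rw [Zi]
    split_ifs <;> norm_num
  | succ n ih =>
    rw [Zi]
    exact Finset.sum_nonneg fun z _ =>
      mul_nonneg (mul_nonneg (C.nonneg _ _) (hw _ _)) (ih (fun k z => hw _ _) _)

/-- as `Zk_mul_le` (Lib/MP_daa227_pr/Model.lean) -/
theorem zi_mul_le (C : Chain) {w : ℕ → ℤ → ℝ} (hw : ∀ k z, 0 ≤ w k z) (m n : ℕ) (x y z : ℤ) :
    Zi C w m x y * Zi C (fun k => w (k + m)) n y z ≤ Zi C w (m + n) x z := by
  induction m generalizing w x with
  | zero =>
    simp only [Zi, Nat.add_zero, Nat.zero_add]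
    split_ifs with h
    · rw [h, one_mul]
    · rw [zero_mul]
      exact zi_nonneg C hw _ _ _
  | succ m ih =>
    rw [show m + 1 + n = (m + n) + 1 by omega]
    rw [Zi, Zi, Finset.sum_mul]
    apply Finset.sum_le_sum
    intro u _
    rw [mul_assoc]
    apply mul_le_mul_of_nonneg_left _ (mul_nonneg (C.nonneg _ _) (hw _ _))
    have h1 := ih (w := fun k => w (k + 1)) (fun k z => hw _ _) u
    exact h1

namespace MIns

theorem zd_zero (C : Chain) (v : ℤ → ℝ) (x y : ℤ) :
    AZ.Zd C v 0 x y = if x = y then 1 else 0 := rfl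

theorem zd_succ (C : Chain) (v : ℤ → ℝ) (n : ℕ) (x y : ℤ) :
    AZ.Zd C v (n + 1) x y = ∑ z ∈ Finset.Icc (x - 1) (x + 1),
      C.p x z * Real.exp (v z) * AZ.Zd C v n z y := rfl

/-- the site weights are integrable -/
theorem int_W (M : Mod) (h : ℝ) (z : ℤ) : Integrable (fun a => M.W h a z) M.μ := by
  have h1 : ∀ a : ℝ, M.W h a z =
      Real.exp ((M.β * M.φ z) * a) * Real.exp (-h * M.φ z) := fun a => by
    unfold AZ.Mod.W
    rw [← Real.exp_add]
    congr 1
    ring
  simp_rw [h1]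
  exact (M.exp_mom (M.β * M.φ z)).mul_const _

/-- the partition functions are integrable -/
theorem int_Zk (M : Mod) (h : ℝ) (n : ℕ) (x y : ℤ) :
    Integrable (fun ω => Zk M.C (M.W h) n ω x y) (seqLaw M.μ) := by
  have hg := M.good_Zk h n x y
  refine ⟨hg.meas.aestronglyMeasurable, ?_⟩
  rw [hasFiniteIntegral_iff_ofReal (ae_of_all _ hg.nonneg), ← MP_daa227_pr.mom_one,
    M.mom_one_Zk h n x y]
  exact ENNReal.ofReal_lt_top

/-- products of bounded functions -/
theorem prod_le {f : ℕ → ℝ → ℝ} (hb : ∀ k a, |f k a| ≤ 1) (n : ℕ) (ω : ℕ → ℝ) :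
    |∏ k ∈ range n, f k (ω k)| ≤ 1 := by
  rw [Finset.abs_prod]
  exact Finset.prod_le_one (fun _ _ => abs_nonneg _) fun k _ => hb k _

theorem prod_meas {f : ℕ → ℝ → ℝ} (hf : ∀ k, Measurable (f k)) (n : ℕ) :
    Measurable fun ω : ℕ → ℝ => ∏ k ∈ range n, f k (ω k) :=
  Finset.measurable_fun_prod _ fun k _ => (hf k).comp (measurable_pi_apply k)

/-- the integrand is integrable -/
theorem int_ZP (M : Mod) (h : ℝ) {f : ℕ → ℝ → ℝ} (hf : ∀ k, Measurable (f k))
    (hb : ∀ k a, |f k a| ≤ 1) (n : ℕ) (x y : ℤ) :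
    Integrable (fun ω => Zk M.C (M.W h) n ω x y * ∏ k ∈ range n, f k (ω k)) (seqLaw M.μ) :=
  (int_Zk M h n x y).mul_bdd (c := 1) (prod_meas hf n).aestronglyMeasurable
    (ae_of_all _ fun ω => by
      rw [Real.norm_eq_abs]
      exact prod_le hb n ω)

end MIns

/-- the weights before the last step are `exp v`, the last one is `c exp (v y)` -/
theorem zi_last (C : Chain) (v : ℤ → ℝ) {w : ℕ → ℤ → ℝ} {n : ℕ}
    (hw : ∀ k z, k < n → w k z = Real.exp (v z)) {y : ℤ} {c : ℝ}
    (hc : w n y = c * Real.exp (v y)) (x : ℤ) :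
    Zi C w (n + 1) x y = c * AZ.Zd C v (n + 1) x y := by
  induction n generalizing w x with
  | zero =>
    rw [Zi, MIns.zd_succ, Finset.mul_sum]
    refine Finset.sum_congr rfl fun z _ => ?_
    rw [Zi, MIns.zd_zero]
    split_ifs with h
    · rw [h, hc]
      ring
    · ring
  | succ n ih =>
    rw [Zi, MIns.zd_succ, Finset.mul_sum]
    refine Finset.sum_congr rfl fun z _ => ?_
    rw [hw 0 z (Nat.succ_pos n),
      ih (w := fun k => w (k + 1)) (fun k z hk => hw (k + 1) z (by omega)) hc z]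
    ring

theorem zi_const (C : Chain) (v : ℤ → ℝ) {w : ℕ → ℤ → ℝ} {n : ℕ}
    (hw : ∀ k z, k < n → w k z = Real.exp (v z)) (x y : ℤ) :
    Zi C w n x y = AZ.Zd C v n x y := by
  induction n generalizing w x with
  | zero => rw [Zi, MIns.zd_zero]
  | succ n ih =>
    rw [Zi, MIns.zd_succ]
    refine Finset.sum_congr rfl fun z _ => ?_
    rw [hw 0 z (Nat.succ_pos n),
      ih (w := fun k => w (k + 1)) (fun k z hk => hw (k + 1) z (by omega)) z]

/-- Induction on `n` with `Zk (n+1) ω x y = ∑ p(x,z) W(ω 0, z) Zk n (shift 1 ω) z y`: the charge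
`ω 0` is independent of `shift 1 ω` (`AZ.integral_mul_shift` with `k = 1`). All the functions are
integrable (`M.good_Zk`, bounded factors). -/
theorem ins_eq (M : Mod) (h : ℝ) {f : ℕ → ℝ → ℝ} (hf : ∀ k, Measurable (f k))
    (hb : ∀ k a, |f k a| ≤ 1) (n : ℕ) (x y : ℤ) :
    ∫ ω, Zk M.C (M.W h) n ω x y * ∏ k ∈ range n, f k (ω k) ∂seqLaw M.μ =
      Zi M.C (fun k z => ∫ a, M.W h a z * f k a ∂M.μ) n x y := by
  induction n generalizing f x with
  | zero =>
    simp only [Zi, Zk, Finset.range_zero, Finset.prod_empty, mul_one]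
    rw [integral_const]
    simp
  | succ n ih =>
    have hm : ∀ z : ℤ, Measurable fun a : ℝ => M.W h a z * f 0 a := fun z =>
      ((M.goodW h).meas z).mul (hf 0)
    have hX : ∀ z : ℤ, Measurable fun ω : ℕ → ℝ => M.W h (ω 0) z * f 0 (ω 0) := fun z =>
      (hm z).comp (measurable_pi_apply 0)
    have hY : ∀ z : ℤ, Measurable fun ω : ℕ → ℝ =>
        Zk M.C (M.W h) n ω z y * ∏ k ∈ range n, f (k + 1) (ω k) := fun z =>
      (M.good_Zk h n z y).meas.mul (MIns.prod_meas (fun k => hf (k + 1)) n)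
    have hd : ∀ z : ℤ, DepOn 1 fun ω : ℕ → ℝ => M.W h (ω 0) z * f 0 (ω 0) :=
      fun z ω ω' hω => by simp only [hω 0 one_pos]
    have hiX : ∀ z : ℤ, Integrable (fun ω : ℕ → ℝ => M.W h (ω 0) z * f 0 (ω 0))
        (seqLaw M.μ) := fun z => by
      apply MP_daa227_pr.integrable_apply M.μ 0 (Y := fun a => M.W h a z * f 0 a) (hm z)
      exact (MIns.int_W M h z).mul_bdd (c := 1) (hf 0).aestronglyMeasurable
        (ae_of_all _ fun a => by
          rw [Real.norm_eq_abs]
          exact hb 0 a)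
    have hiY := fun z : ℤ => MIns.int_ZP M h (f := fun k => f (k + 1)) (fun k => hf (k + 1))
      (fun k a => hb (k + 1) a) n z y
    have h1 : ∀ ω : ℕ → ℝ, Zk M.C (M.W h) (n + 1) ω x y * ∏ k ∈ range (n + 1), f k (ω k) =
        ∑ z ∈ Finset.Icc (x - 1) (x + 1), M.C.p x z *
          ((M.W h (ω 0) z * f 0 (ω 0)) * (Zk M.C (M.W h) n (shift 1 ω) z y *
            ∏ k ∈ range n, f (k + 1) (shift 1 ω k))) := fun ω => by
      rw [Zk, Finset.prod_range_succ', Finset.sum_mul]
      refine Finset.sum_congr rfl fun z _ => ?_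
      have h2 : ∏ k ∈ range n, f (k + 1) (shift 1 ω k) =
          ∏ k ∈ range n, f (k + 1) (ω (k + 1)) := rfl
      rw [h2]
      ring
    simp_rw [h1]
    rw [integral_finsetSum _ fun z _ => (AZ.Strat.integrable_mul_shift M.μ (k := 1) (hX z) (hd z)
      (hY z) (hiX z) (hiY z)).const_mul _, Zi]
    refine Finset.sum_congr rfl fun z _ => ?_
    rw [integral_const_mul, AZ.Strat.integral_mul_shift M.μ (k := 1) (hX z) (hd z) (hY z),
      MP_daa227_pr.integral_apply M.μ 0 (Y := fun a => M.W h a z * f 0 a) (hm z),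
      ih (f := fun k => f (k + 1)) (fun k => hf (k + 1)) (fun k a => hb (k + 1) a) z]
    ring

end

end Pool.Agent.IG
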