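import Pool.Agent.Lib.MP_daa227_pr_IG.PolyOne

/-!
# MP_daa227_pr, exact order: definitions
-/

namespace Pool.Agent.IG

open MeasureTheory ProbabilityTheory Finset Filter Topology
open MP_daa227_pr (Chain Zk Zf Gk Gf KU K0 Ren shift seqLaw ExpMom DepOn Good GoodW mom)
open Pool.Agent.AZ (Mod Kv lmg)
open Pool.Agent.IOrd (Sys aS cv)

noncomputable section

/-- sum of the pinned partition functions of all stretches inside a block of length `2 l` -/
def XB (M : Mod) (h : ℝ) (l : ℕ) (ω : ℕ → ℝ) : ℝ :=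
  ∑ a ∈ range l, ∑ c ∈ range (l - a), M.Z h (2 * c) (shift (2 * a) ω)

/-- sum over the endpoints in the block number `k` -/
def TB (M : Mod) (h : ℝ) (l k : ℕ) (ω : ℕ → ℝ) : ℝ :=
  ∑ b ∈ range l, M.Z h (2 * (k * l + b)) ω

/-- the penalised excursions have loop exponent (at most) `α` -/
def PolyA (M : Mod) (α : ℝ) : Prop := ∀ η : ℝ, 0 < η → ∀ ε : ℝ, 0 < ε → ∀ᶠ n : ℕ in atTop,
  ((2 * n : ℕ) : ℝ) ^ (-(1 + α + ε)) ≤ Kv M.C (fun z => -η * M.φ z) (2 * n) 0

/-- the excursions have loop exponent (at least) `α` -/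
def KUp (C : Chain) (α : ℝ) : Prop := ∀ ε : ℝ, 0 < ε → ∀ᶠ n : ℕ in atTop,
  K0 C (2 * n) 0 ≤ ((2 * n : ℕ) : ℝ) ^ (-(1 + α - ε))

/-- mean of `φ` at time `i + 1` under the penalised law of an excursion of length `n` -/
def cf (M : Mod) (h : ℝ) (n i : ℕ) : ℝ :=
  AZ.oc M.C M.φ h n i 0 / Kv M.C (fun z => -h * M.φ z) n 0

end

end Pool.Agent.IG
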