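import Pool.Agent.Lib.MP_daa227_pr_IG.Gen
import Pool.Agent.Lib.MP_daa227_pr_IG.SLow
import Pool.Agent.Lib.MP_daa227_pr_IG.SDef

/-!
# MP_daa227_pr, marginal case: the renewal function is of order the square root
-/

namespace Pool.Agent.IG

open MeasureTheory ProbabilityTheory Finset Filter Topology
open MP_daa227_pr (Chain Zk Zf Gk Gf KU K0 Ren shift seqLaw ExpMom DepOn Good GoodW mom)
open Pool.Agent.AZ (Mod Kv lmg)
open Pool.Agent.IOrd (Sys aS cv)

noncomputable section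

namespace MU

/-- the terms with index between `2 N` and `4 N` -/
theorem mass {g : ℕ → ℝ} (hg : ∀ n, 0 ≤ g n) {c : ℝ} (hc : 0 < c)
    (hlow : ∀ n : ℕ, 1 ≤ n → c * (n : ℝ) ^ (-(3 / 2 : ℝ)) ≤ g (2 * n)) {N : ℕ} (hN : 1 ≤ N) :
    c / 6 / Real.sqrt N ≤ ∑ n ∈ range (4 * N), g n * (1 - Real.exp (-(1 / N * n))) := by
  have hN0 : (0 : ℝ) < N := by exact_mod_cast hN
  have hf : ∀ n : ℕ, 0 ≤ g n * (1 - Real.exp (-(1 / N * n))) := fun n => by
    refine mul_nonneg (hg n) ?_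
    have h1 : Real.exp (-(1 / (N : ℝ) * n)) ≤ 1 := by
      rw [Real.exp_le_one_iff, neg_nonpos]
      positivity
    linarith
  have hB : ∀ k ∈ Finset.Ico N (2 * N), c * ((2 * N : ℝ) * Real.sqrt (2 * N))⁻¹ * (1 / 2) ≤
      g (2 * k) * (1 - Real.exp (-(1 / N * ((2 * k : ℕ) : ℝ)))) := by
    intro k hk
    rw [Finset.mem_Ico] at hk
    have hk0 : (0 : ℝ) < k := by
      have : 0 < k := by omega
      exact_mod_cast this
    have hk1 : (k : ℝ) ≤ 2 * N := by
      have : k ≤ 2 * N := by omega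
      exact_mod_cast this
    have hk2 : (N : ℝ) ≤ k := by exact_mod_cast hk.1
    have h1 := hlow k (by omega)
    have h2 : ((2 * N : ℝ) * Real.sqrt (2 * N))⁻¹ ≤ (k : ℝ) ^ (-(3 / 2 : ℝ)) := by
      have h3 : ((2 * N : ℝ) * Real.sqrt (2 * N))⁻¹ = (2 * N : ℝ) ^ (-(3 / 2 : ℝ)) := by
        rw [Real.rpow_neg (by positivity), Real.sqrt_eq_rpow,
          show (3 / 2 : ℝ) = 1 + 1 / 2 by norm_num, Real.rpow_add (by positivity),
          Real.rpow_one]
      rw [h3]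
      exact Real.rpow_le_rpow_of_nonpos hk0 hk1 (by norm_num)
    have h4 : (1 : ℝ) / 2 ≤ 1 - Real.exp (-(1 / N * ((2 * k : ℕ) : ℝ))) := by
      have h5 : (2 : ℝ) ≤ 1 / N * ((2 * k : ℕ) : ℝ) := by
        rw [one_div, inv_mul_eq_div, le_div_iff₀ hN0]
        push_cast
        linarith
      have h6 : Real.exp (-(1 / N * ((2 * k : ℕ) : ℝ))) ≤ Real.exp (-2) := by
        rw [Real.exp_le_exp]
        linarith
      have h7 : Real.exp (-2) ≤ 1 / 2 := by
        have h8 := Real.add_one_le_exp (2 : ℝ)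
        rw [Real.exp_neg, inv_eq_one_div]
        exact one_div_le_one_div_of_le (by norm_num) (by linarith)
      linarith
    exact mul_le_mul ((mul_le_mul_of_nonneg_left h2 hc.le).trans h1) h4 (by norm_num) (hg _)
  have h1 : ∑ k ∈ Finset.Ico N (2 * N), g (2 * k) * (1 - Real.exp (-(1 / N * ((2 * k : ℕ) : ℝ))))
      ≤ ∑ n ∈ range (4 * N), g n * (1 - Real.exp (-(1 / N * n))) := by
    have h2 : ∑ k ∈ Finset.Ico N (2 * N), g (2 * k) *
        (1 - Real.exp (-(1 / N * ((2 * k : ℕ) : ℝ)))) =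
        ∑ n ∈ (Finset.Ico N (2 * N)).image (fun k => 2 * k),
          g n * (1 - Real.exp (-(1 / N * n))) := by
      rw [Finset.sum_image]
      intro a _ b _ hab
      have hab' : 2 * a = 2 * b := hab
      omega
    rw [h2]
    refine Finset.sum_le_sum_of_subset_of_nonneg ?_ fun n _ _ => hf n
    intro n hn
    rw [Finset.mem_image] at hn
    obtain ⟨k, hk, rfl⟩ := hn
    rw [Finset.mem_Ico] at hk
    rw [Finset.mem_range]
    omega
  have h2 := Finset.card_nsmul_le_sum _ _ _ hB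
  rw [Nat.card_Ico, nsmul_eq_mul, show 2 * N - N = N by omega] at h2
  refine le_trans ?_ (h2.trans h1)
  have hs2 : Real.sqrt (2 * N) ≤ 3 / 2 * Real.sqrt N := by
    rw [Real.sqrt_le_left (by positivity), mul_pow, Real.sq_sqrt hN0.le]
    linarith
  have hs0 : 0 < Real.sqrt N := Real.sqrt_pos.2 hN0
  have hs3 : 0 < Real.sqrt (2 * N) := Real.sqrt_pos.2 (by positivity)
  have e : (N : ℝ) * (c * ((2 * N : ℝ) * Real.sqrt (2 * N))⁻¹ * (1 / 2)) =
      c / (4 * Real.sqrt (2 * N)) := by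
    field_simp
    ring
  rw [e, div_div]
  exact div_le_div_of_nonneg_left hc.le (by positivity) (by linarith)

/-- the exponentially weighted sums -/
theorem wsum {g u : ℕ → ℝ} (hg : ∀ n, 0 ≤ g n) (hu : ∀ n, 0 ≤ u n)
    (hu0 : u 0 = 1) (hren : ∀ n, n ≠ 0 → u n = ∑ m ∈ Finset.Ioc 0 n, g m * u (n - m))
    (hs1 : ∀ N : ℕ, ∑ n ∈ range N, g n ≤ 1) {c : ℝ} (hc : 0 < c)
    (hlow : ∀ n : ℕ, 1 ≤ n → c * (n : ℝ) ^ (-(3 / 2 : ℝ)) ≤ g (2 * n)) {N : ℕ} (hN : 1 ≤ N)
    (M : ℕ) : ∑ n ∈ range M, u n * Real.exp (-(1 / N * n)) ≤ 6 / c * Real.sqrt N := by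
  have hN0 : (0 : ℝ) < N := by exact_mod_cast hN
  have hs0 : 0 < Real.sqrt N := Real.sqrt_pos.2 hN0
  have hm := mass hg hc hlow hN
  have h1 := ren_up (g := fun n => g n * Real.exp (-(1 / N * n)))
    (z := fun n => u n * Real.exp (-(1 / N * n)))
    (fun n => mul_nonneg (hg n) (Real.exp_pos _).le)
    (fun n => mul_nonneg (hu n) (Real.exp_pos _).le) (by simp [hu0])
    (by
      intro n hn
      show u n * Real.exp (-(1 / N * n)) = _
      rw [hren n hn, Finset.sum_mul]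
      refine Finset.sum_congr rfl fun m hm => ?_
      rw [Finset.mem_Ioc] at hm
      have hx : Real.exp (-(1 / N * (n : ℝ))) =
          Real.exp (-(1 / N * (m : ℝ))) * Real.exp (-(1 / N * ((n - m : ℕ) : ℝ))) := by
        rw [← Real.exp_add, Nat.cast_sub hm.2]
        congr 1
        ring
      rw [hx]
      ring) (c := c / 6 / Real.sqrt N) (by positivity)
    (by
      intro K
      have hmono : ∑ n ∈ range K, g n * Real.exp (-(1 / N * n)) ≤
          ∑ n ∈ range (max K (4 * N)), g n * Real.exp (-(1 / N * n)) := by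
        refine Finset.sum_le_sum_of_subset_of_nonneg ?_ fun n _ _ =>
          mul_nonneg (hg n) (Real.exp_pos _).le
        exact Finset.range_mono (le_max_left _ _)
      have hmono2 : ∑ n ∈ range (4 * N), g n * (1 - Real.exp (-(1 / N * n))) ≤
          ∑ n ∈ range (max K (4 * N)), g n * (1 - Real.exp (-(1 / N * n))) := by
        refine Finset.sum_le_sum_of_subset_of_nonneg (Finset.range_mono (le_max_right _ _))
          fun n _ _ => mul_nonneg (hg n) ?_
        have h1 : Real.exp (-(1 / (N : ℝ) * n)) ≤ 1 := by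
          rw [Real.exp_le_one_iff, neg_nonpos]
          positivity
        linarith
      have hsplit : ∑ n ∈ range (max K (4 * N)), g n * (1 - Real.exp (-(1 / N * n))) =
          ∑ n ∈ range (max K (4 * N)), g n -
            ∑ n ∈ range (max K (4 * N)), g n * Real.exp (-(1 / N * n)) := by
        rw [← Finset.sum_sub_distrib]
        exact Finset.sum_congr rfl fun n _ => by ring
      have h3 := hs1 (max K (4 * N))
      show ∑ n ∈ range K, g n * Real.exp (-(1 / N * n)) ≤ 1 - c / 6 / Real.sqrt N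
      linarith) M
  refine h1.trans (le_of_eq ?_)
  field_simp

end MU

/-- `g (2n) ≥ c n^(-3/2)` gives `∑ g n (1 - e^(-sn)) ≥ c' √s` (terms `1/s ≤ 2n ≤ 2/s + 2`,
finitely many of them) and the renewal equation, multiplied by `e^(-sn)` and summed, gives
`(∑_{n<N} u n e^(-sn)) (1 - ∑_{m<N'} g m e^(-sm)) ≤ 1`, so with `s = 1/N`:
`∑_{n<N} u n ≤ C √N`. -/
theorem u_up_half {g u : ℕ → ℝ} (hg : ∀ n, 0 ≤ g n) (hg0 : g 0 = 0) (hu : ∀ n, 0 ≤ u n)
    (hu0 : u 0 = 1) (hren : ∀ n, n ≠ 0 → u n = ∑ m ∈ Finset.Ioc 0 n, g m * u (n - m))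
    (hs1 : ∀ N : ℕ, ∑ n ∈ range N, g n ≤ 1) {c : ℝ} (hc : 0 < c)
    (hlow : ∀ n : ℕ, 1 ≤ n → c * (n : ℝ) ^ (-(3 / 2 : ℝ)) ≤ g (2 * n)) :
    ∃ C : ℝ, 0 < C ∧ ∀ N : ℕ, 1 ≤ N → ∑ n ∈ range N, u n ≤ C * Real.sqrt N := by
  refine ⟨3 * (6 / c), by positivity, fun N hN => ?_⟩
  have hN0 : (0 : ℝ) < N := by exact_mod_cast hN
  have h1 := MU.wsum hg hu hu0 hren hs1 hc hlow hN N
  have h2 : ∑ n ∈ range N, u n ≤ 3 * ∑ n ∈ range N, u n * Real.exp (-(1 / N * n)) := by
    rw [Finset.mul_sum]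
    refine Finset.sum_le_sum fun n hn => ?_
    rw [Finset.mem_range] at hn
    have h3 : (1 : ℝ) / 3 ≤ Real.exp (-(1 / N * n)) := by
      have h4 : 1 / (N : ℝ) * n ≤ 1 := by
        rw [one_div, inv_mul_eq_div, div_le_one hN0]
        exact_mod_cast hn.le
      have h5 : Real.exp (-1) ≤ Real.exp (-(1 / N * n)) := by
        rw [Real.exp_le_exp]
        linarith
      have h6 : (1 : ℝ) / 3 ≤ Real.exp (-1) := by
        have h7 := Real.exp_one_lt_d9
        rw [Real.exp_neg, inv_eq_one_div]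
        exact one_div_le_one_div_of_le (Real.exp_pos _) (by linarith)
      linarith
    have h4 := mul_le_mul_of_nonneg_left h3 (hu n)
    linarith
  linarith

/-- `ren_low` with `a = 1/2`, `s = L / N`: `√(N/L) / A ≤ ∑ u n e^(-L n / N)`, and the terms
`n ≥ N` are at most `∑_{j ≥ 1} e^(-L j) C √((j+1) N) ≤ C' e^(-L) √N` (`u_up_half`): for `L` large
(depending only on `A`, `C`) the terms `n < N` are at least `√N / (2 A √L)`. For `N < L` use
`u 0 = 1` (smaller `c`). -/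
theorem u_low_half {g u : ℕ → ℝ} (hg : ∀ n, 0 ≤ g n) (hg0 : g 0 = 0) (hu : ∀ n, 0 ≤ u n)
    (hu0 : u 0 = 1) (hren : ∀ n, n ≠ 0 → u n = ∑ m ∈ Finset.Ioc 0 n, g m * u (n - m))
    (hu1 : ∀ n, u n ≤ 1) (hs1 : ∀ N : ℕ, ∑ n ∈ range N, g n ≤ 1)
    (h1 : ∀ η : ℝ, 0 < η → ∃ N : ℕ, 1 - η ≤ ∑ n ∈ range N, g n) {A c : ℝ}
    (hT : ∀ s : ℝ, 0 < s → s ≤ 1 → ∀ N : ℕ,
      ∑ n ∈ range N, g n * (1 - Real.exp (-(s * n))) ≤ A * s ^ (1 / 2 : ℝ)) (hc : 0 < c)
    (hlow : ∀ n : ℕ, 1 ≤ n → c * (n : ℝ) ^ (-(3 / 2 : ℝ)) ≤ g (2 * n)) :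
    ∃ c' : ℝ, 0 < c' ∧ ∀ N : ℕ, 1 ≤ N → c' * Real.sqrt N ≤ ∑ n ∈ range N, u n := by
  have hA : 0 < A := by
    have h2 := ren_low hg hg0 hu hu0 hren hu1 hs1 h1 hT one_pos le_rfl
    rw [Real.one_rpow, mul_one] at h2
    by_contra hA
    push Not at hA
    have hT0 : 0 ≤ ∑' n : ℕ, u n * Real.exp (-(1 * (n : ℝ))) :=
      tsum_nonneg fun n => mul_nonneg (hu n) (Real.exp_pos _).le
    have h3 := mul_nonpos_of_nonpos_of_nonneg hA hT0
    linarith
  obtain ⟨L, hL⟩ : ∃ L : ℕ, L = ⌈96 * A / c⌉₊ + 2 := ⟨_, rfl⟩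
  have hL2 : 2 ≤ L := by omega
  have hLr : (2 : ℝ) ≤ L := by exact_mod_cast hL2
  have hLA : 96 * A ≤ c * L := by
    have h2 := Nat.le_ceil (96 * A / c)
    have h3 : (L : ℝ) = (⌈96 * A / c⌉₊ : ℝ) + 2 := by
      rw [hL]
      push_cast
      ring
    have h4 : 96 * A / c ≤ L := by linarith
    rw [div_le_iff₀ hc] at h4
    linarith
  have hsL : 0 < Real.sqrt L := Real.sqrt_pos.2 (by linarith)
  have hsL2 : Real.sqrt L ≤ L := by
    rw [Real.sqrt_le_left (by linarith)]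
    nlinarith
  have hexp : Real.exp (-((L : ℝ) / 2)) * (6 / c) ≤ 1 / (2 * A * Real.sqrt L) := by
    have h2 := Real.quadratic_le_exp_of_nonneg (show (0 : ℝ) ≤ L / 2 by linarith)
    have h3 : (L : ℝ) ^ 2 / 8 ≤ Real.exp (L / 2) := by nlinarith
    rw [Real.exp_neg, ← one_div, div_mul_div_comm, one_mul, div_le_div_iff₀ (by positivity)
      (by positivity)]
    have h4 : 6 * (2 * A * Real.sqrt L) ≤ 12 * A * L := by
      have := mul_le_mul_of_nonneg_left hsL2 (show 0 ≤ 12 * A by linarith)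
      linarith
    have h5 : 12 * A * L ≤ (c * L) / 8 * L := by
      have := mul_le_mul_of_nonneg_right hLA (show (0 : ℝ) ≤ L by linarith)
      linarith
    have h6 : c * ((L : ℝ) ^ 2 / 8) ≤ c * Real.exp (L / 2) := mul_le_mul_of_nonneg_left h3 hc.le
    have h7 : (c * L) / 8 * L = c * ((L : ℝ) ^ 2 / 8) := by ring
    linarith
  refine ⟨min (1 / (2 * A * Real.sqrt L)) (1 / Real.sqrt L), lt_min (by positivity)
    (by positivity), fun N hN => ?_⟩
  have hN0 : (0 : ℝ) < N := by exact_mod_cast hN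
  have hsN : 0 < Real.sqrt N := Real.sqrt_pos.2 hN0
  rcases lt_or_ge N L with hNL | hNL
  · have h2 : 1 ≤ ∑ n ∈ range N, u n := by
      rw [← hu0]
      exact Finset.single_le_sum (f := u) (fun i _ => hu i) (Finset.mem_range.2 (by omega))
    have h3 : Real.sqrt N ≤ Real.sqrt L := Real.sqrt_le_sqrt (by exact_mod_cast hNL.le)
    have h4 : min (1 / (2 * A * Real.sqrt L)) (1 / Real.sqrt L) * Real.sqrt N ≤
        1 / Real.sqrt L * Real.sqrt L :=
      mul_le_mul (min_le_right _ _) h3 hsN.le (by positivity)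
    have e : 1 / Real.sqrt L * Real.sqrt L = 1 := by
      rw [one_div, inv_mul_cancel₀ hsL.ne']
    rw [e] at h4
    linarith
  · obtain ⟨s, hs⟩ : ∃ s : ℝ, s = L / N := ⟨_, rfl⟩
    have hs0 : 0 < s := by rw [hs]; positivity
    have hsle : s ≤ 1 := by
      rw [hs, div_le_one hN0]
      exact_mod_cast hNL
    have h2 := ren_low hg hg0 hu hu0 hren hu1 hs1 h1 hT hs0 hsle
    have h3 : ∑' n : ℕ, u n * Real.exp (-(s * n)) ≤
        ∑ n ∈ range N, u n + Real.exp (-((L : ℝ) / 2)) * (6 / c * Real.sqrt N) := by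
      refine Real.tsum_le_of_sum_range_le
        (fun n => mul_nonneg (hu n) (Real.exp_pos _).le) fun M => ?_
      have hterm : ∀ n : ℕ, u n * Real.exp (-(s * n)) ≤ (if n < N then u n else 0) +
          Real.exp (-((L : ℝ) / 2)) * (u n * Real.exp (-(1 / N * n))) := by
        intro n
        have hx : 0 ≤ Real.exp (-((L : ℝ) / 2)) * (u n * Real.exp (-(1 / N * n))) :=
          mul_nonneg (Real.exp_pos _).le (mul_nonneg (hu n) (Real.exp_pos _).le)
        split_ifs with hnN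
        · have h4 : Real.exp (-(s * n)) ≤ 1 := by
            rw [Real.exp_le_one_iff, neg_nonpos]
            positivity
          have := mul_le_mul_of_nonneg_left h4 (hu n)
          linarith
        · have hnN' : (N : ℝ) ≤ n := by exact_mod_cast not_lt.1 hnN
          have h4 : Real.exp (-(s * n)) ≤
              Real.exp (-((L : ℝ) / 2)) * Real.exp (-(1 / N * n)) := by
            rw [← Real.exp_add, Real.exp_le_exp, hs]
            have h5 : 1 ≤ (n : ℝ) / N := by rwa [le_div_iff₀ hN0, one_mul]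
            have e1 : (L : ℝ) / N * n = L * (n / N) := by ring
            have e2 : 1 / (N : ℝ) * n = n / N := by ring
            rw [e1, e2]
            nlinarith [mul_nonneg (sub_nonneg.2 h5) (sub_nonneg.2 hLr)]
          have := mul_le_mul_of_nonneg_left h4 (hu n)
          linarith
      refine (Finset.sum_le_sum fun n _ => hterm n).trans ?_
      rw [Finset.sum_add_distrib, ← Finset.mul_sum]
      refine add_le_add ?_ (mul_le_mul_of_nonneg_left
        (MU.wsum hg hu hu0 hren hs1 hc hlow hN M) (Real.exp_pos _).le)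
      rw [← Finset.sum_filter]
      refine Finset.sum_le_sum_of_subset_of_nonneg ?_ fun n _ _ => hu n
      intro n hn
      rw [Finset.mem_filter] at hn
      exact Finset.mem_range.2 hn.2
    have hsq : s ^ (1 / 2 : ℝ) = Real.sqrt L / Real.sqrt N := by
      rw [← Real.sqrt_eq_rpow, hs, Real.sqrt_div (by linarith)]
    have h4 : Real.sqrt N / (A * Real.sqrt L) ≤ ∑' n : ℕ, u n * Real.exp (-(s * n)) := by
      rw [div_le_iff₀ (by positivity)]
      rw [hsq] at h2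
      have h5 := mul_le_mul_of_nonneg_right h2 hsN.le
      have h6 : A * (Real.sqrt L / Real.sqrt N) *
          (∑' n : ℕ, u n * Real.exp (-(s * n))) * Real.sqrt N =
          (∑' n : ℕ, u n * Real.exp (-(s * n))) * (A * Real.sqrt L) := by
        field_simp
      rw [h6, one_mul] at h5
      exact h5
    have h5 : Real.exp (-((L : ℝ) / 2)) * (6 / c * Real.sqrt N) ≤
        1 / (2 * A * Real.sqrt L) * Real.sqrt N := by
      rw [← mul_assoc]
      exact mul_le_mul_of_nonneg_right hexp hsN.le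
    have h6 : Real.sqrt N / (A * Real.sqrt L) = 2 * (1 / (2 * A * Real.sqrt L) * Real.sqrt N) := by
      field_simp
    have h7 : min (1 / (2 * A * Real.sqrt L)) (1 / Real.sqrt L) * Real.sqrt N ≤
        1 / (2 * A * Real.sqrt L) * Real.sqrt N :=
      mul_le_mul_of_nonneg_right (min_le_left _ _) hsN.le
    linarith

/-- `u_low_half` for `u n = Zd (v hc) n 0 0`, `g = M.g hc` (`AZ.Zd_renewal`,
`AZ.Upper.Zd_le_one`); the odd terms vanish (`Pick.odd`), so `∑_{n<N} u (2n) ≥ ∑_{n<2N-1} u n`. -/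
theorem u_half (M : Mod) {hc : ℝ} (hg : ∀ N : ℕ, ∑ n ∈ range N, M.g hc n ≤ 1)
    (hg1 : ∀ η : ℝ, 0 < η → ∃ N : ℕ, 1 - η ≤ ∑ n ∈ range N, M.g hc n) {A c : ℝ}
    (hT : ∀ s : ℝ, 0 < s → s ≤ 1 → ∀ N : ℕ,
      ∑ n ∈ range N, M.g hc n * (1 - Real.exp (-(s * n))) ≤ A * s ^ (1 / 2 : ℝ)) (hc' : 0 < c)
    (hlow : ∀ n : ℕ, 1 ≤ n → c * (n : ℝ) ^ (-(3 / 2 : ℝ)) ≤ M.g hc (2 * n)) :
    ∃ c' : ℝ, 0 < c' ∧ ∀ N : ℕ, 1 ≤ N →
      c' * Real.sqrt N ≤ ∑ n ∈ range N, AZ.Zd M.C (M.v hc) (2 * n) 0 0 := by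
  obtain ⟨c', hc'0, h⟩ := u_low_half (g := M.g hc) (u := fun n => AZ.Zd M.C (M.v hc) n 0 0)
    (fun n => AZ.Kv_nonneg _ _ _ _) rfl (fun n => AZ.Zd_nonneg _ _ _ _ _)
    (AZ.Zd_zero _ _ _) (fun n hn => AZ.Zd_renewal M.C (M.v hc) hn)
    (fun n => AZ.Upper.Zd_le_one M.C (M.v hc) hg n) hg hg1 hT hc' hlow
  refine ⟨c', hc'0, fun N hN => ?_⟩
  have h1 := h (2 * N) (by omega)
  rw [SLow.even_sum M.C M.hnl] at h1
  refine le_trans (mul_le_mul_of_nonneg_left (Real.sqrt_le_sqrt ?_) hc'0.le) h1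
  push_cast
  have : (0 : ℝ) ≤ N := Nat.cast_nonneg N
  linarith

/-- summation by parts: with `U k = ∑_{n≤k} u n ≥ c √(k+1)`,
`∑_{k<L} u k / √(k+1) ≥ ∑_{k<L} U k (1/√(k+1) - 1/√(k+2)) ≥ ∑ c √(k+1) / (2 (k+2)^(3/2))
≥ c' log L` -/
theorem log_sum {u : ℕ → ℝ} (hu : ∀ n, 0 ≤ u n) {c : ℝ} (hc : 0 < c)
    (hU : ∀ N : ℕ, 1 ≤ N → c * Real.sqrt N ≤ ∑ n ∈ range N, u n) :
    ∃ c' : ℝ, 0 < c' ∧ ∀ L : ℕ, 1 ≤ L →
      c' * Real.log L ≤ ∑ k ∈ range L, u k / Real.sqrt (k + 1) := by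
  have key : ∀ L : ℕ, 1 ≤ L → (∑ n ∈ range L, u n) / Real.sqrt L +
      c / 2 * (∑ k ∈ range L, ((k : ℝ) + 1)⁻¹ - 1) ≤ ∑ k ∈ range L, u k / Real.sqrt (k + 1) := by
    intro L hL
    induction L, hL using Nat.le_induction with
    | base => simp
    | succ L hL ih =>
      have hL0 : (0 : ℝ) < L := by exact_mod_cast hL
      rw [Finset.sum_range_succ u, Finset.sum_range_succ (fun k : ℕ => ((k : ℝ) + 1)⁻¹),
        Finset.sum_range_succ (fun k : ℕ => u k / Real.sqrt (k + 1))]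
      have hU1 := hU L hL
      obtain ⟨a, ha⟩ : ∃ a : ℝ, a = Real.sqrt L := ⟨_, rfl⟩
      obtain ⟨b, hb⟩ : ∃ b : ℝ, b = Real.sqrt (L + 1) := ⟨_, rfl⟩
      have ha0 : 0 < a := by rw [ha]; exact Real.sqrt_pos.2 hL0
      have hb0 : 0 < b := by rw [hb]; exact Real.sqrt_pos.2 (by linarith)
      have ha2 : a ^ 2 = L := by rw [ha]; exact Real.sq_sqrt hL0.le
      have hb2 : b ^ 2 = L + 1 := by rw [hb]; exact Real.sq_sqrt (by linarith)
      have hab : a ≤ b := by
        rw [ha, hb]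
        exact Real.sqrt_le_sqrt (by linarith)
      rw [← ha] at hU1 ih
      push_cast
      rw [← hb]
      have hinv : ((L : ℝ) + 1)⁻¹ = 1 / b ^ 2 := by rw [hb2, one_div]
      rw [hinv]
      have h1 : c / 2 * (1 / b ^ 2) ≤ (∑ n ∈ range L, u n) / a - (∑ n ∈ range L, u n) / b := by
        have h2 : (∑ n ∈ range L, u n) / a - (∑ n ∈ range L, u n) / b =
            (∑ n ∈ range L, u n) * ((b - a) / (a * b)) := by
          field_simp
        have h3 : (c * a) * ((b - a) / (a * b)) ≤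
            (∑ n ∈ range L, u n) * ((b - a) / (a * b)) :=
          mul_le_mul_of_nonneg_right hU1 (div_nonneg (by linarith) (by positivity))
        have h4 : (c * a) * ((b - a) / (a * b)) = c * ((b - a) / b) := by
          field_simp
        have h5 : 1 / 2 * (1 / b ^ 2) ≤ (b - a) / b := by
          rw [one_div_mul_one_div, div_le_div_iff₀ (by positivity) hb0]
          have h6 : 1 ≤ (b - a) * (2 * b) := by nlinarith
          nlinarith
        have h6 := mul_le_mul_of_nonneg_left h5 hc.le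
        rw [h2]
        linarith
      have h2 : (∑ n ∈ range L, u n + u L) / b = (∑ n ∈ range L, u n) / b + u L / b := by
        rw [add_div]
      rw [h2]
      linarith
  refine ⟨c / 2, by positivity, fun L hL => ?_⟩
  have hL0 : (0 : ℝ) < L := by exact_mod_cast hL
  have h1 := key L hL
  have hs : 0 < Real.sqrt L := Real.sqrt_pos.2 hL0
  have h2 : c ≤ (∑ n ∈ range L, u n) / Real.sqrt L := by
    rw [le_div_iff₀ hs]
    exact hU L hL
  have h3 : Real.log L ≤ ∑ k ∈ range L, ((k : ℝ) + 1)⁻¹ := by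
    have h4 := log_add_one_le_harmonic L
    have h5 : ((harmonic L : ℚ) : ℝ) = ∑ k ∈ range L, ((k : ℝ) + 1)⁻¹ := by
      rw [harmonic]
      push_cast
      rfl
    have h6 : Real.log L ≤ Real.log ((L : ℝ) + 1) := Real.log_le_log hL0 (by linarith)
    rw [h5] at h4
    push_cast at h4
    linarith
  have h4 := mul_le_mul_of_nonneg_left h3 (show 0 ≤ c / 2 by linarith)
  linarith

end

end Pool.Agent.IG
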