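import Pool.Agent.Lib.MP_daa227_pr_IG.MIns
import Pool.Agent.Lib.MP_daa227_pr_AZ.Lmg

/-!
# MP_daa227_pr, marginal case: pinned partition functions against products of two variables
-/

namespace Pool.Agent.IG

open MeasureTheory ProbabilityTheory Finset Filter Topology
open MP_daa227_pr (Chain Zk Zf Gk Gf KU K0 Ren shift seqLaw ExpMom DepOn Good GoodW mom)
open Pool.Agent.AZ (Mod Kv lmg)
open Pool.Agent.IOrd (Sys aS cv)

noncomputable section

/-- the centred indicator of a positive charge -/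
def xi (μ : Measure ℝ) (a : ℝ) : ℝ := (if 0 < a then 1 else 0) - (μ (Set.Ioi 0)).toReal

theorem xi_meas (μ : Measure ℝ) : Measurable (xi μ) := by
  unfold xi
  exact (Measurable.ite measurableSet_Ioi measurable_const measurable_const).sub_const _

theorem MWin.m_le (μ : Measure ℝ) [IsProbabilityMeasure μ] : (μ (Set.Ioi 0)).toReal ≤ 1 := by
  have h : μ (Set.Ioi 0) ≤ 1 := prob_le_one
  exact ENNReal.toReal_le_of_le_ofReal zero_le_one (by simpa using h)

theorem xi_bdd (μ : Measure ℝ) [IsProbabilityMeasure μ] (a : ℝ) : |xi μ a| ≤ 1 := by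
  have h1 := MWin.m_le μ
  have h0 : 0 ≤ (μ (Set.Ioi 0)).toReal := ENNReal.toReal_nonneg
  unfold xi
  rw [abs_le]
  split_ifs <;> constructor <;> linarith

theorem MWin.ind_int (μ : Measure ℝ) [IsProbabilityMeasure μ] :
    Integrable (fun a : ℝ => if 0 < a then (1 : ℝ) else 0) μ := by
  have e : (fun a : ℝ => if 0 < a then (1 : ℝ) else 0) = (Set.Ioi 0).indicator 1 := by
    funext a
    by_cases h : 0 < a
    · rw [if_pos h, Set.indicator_of_mem (Set.mem_Ioi.2 h)]; rfl
    · rw [if_neg h, Set.indicator_of_notMem (fun h' => h (Set.mem_Ioi.1 h'))]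
  rw [e]
  exact (integrable_const (1 : ℝ)).indicator measurableSet_Ioi

theorem xi_mean (μ : Measure ℝ) [IsProbabilityMeasure μ] : ∫ a, xi μ a ∂μ = 0 := by
  have e : (fun a : ℝ => if 0 < a then (1 : ℝ) else 0) = (Set.Ioi 0).indicator 1 := by
    funext a
    by_cases h : 0 < a
    · rw [if_pos h, Set.indicator_of_mem (Set.mem_Ioi.2 h)]; rfl
    · rw [if_neg h, Set.indicator_of_notMem (fun h' => h (Set.mem_Ioi.1 h'))]
  unfold xi
  rw [integral_sub (MWin.ind_int μ) (integrable_const _), e, integral_indicator_one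
    measurableSet_Ioi, integral_const]
  simp [Measure.real]

namespace MWin

theorem not_ae_zero (M : Mod) (h : ∀ᵐ a ∂M.μ, a = 0) : False := by
  have h1 : ∫ x, x ^ 2 ∂M.μ = 0 := by
    rw [integral_congr_ae (g := fun _ => (0 : ℝ))]
    · simp
    · filter_upwards [h] with a ha
      rw [ha]
      norm_num
  rw [M.var] at h1
  exact one_ne_zero h1

theorem m_pos (M : Mod) : 0 < (M.μ (Set.Ioi 0)).toReal := by
  rw [ENNReal.toReal_pos_iff]
  refine ⟨pos_iff_ne_zero.2 fun h0 => ?_, measure_lt_top _ _⟩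
  have h1 : ∀ᵐ a ∂M.μ, a ≤ 0 := by
    rw [ae_iff]
    have e : {a : ℝ | ¬ a ≤ 0} = Set.Ioi 0 := by
      ext a
      simp
    rw [e]
    exact h0
  have h2 : ∫ x, -x ∂M.μ = 0 := by rw [integral_neg, M.mean, neg_zero]
  have h3 : 0 ≤ᵐ[M.μ] fun x : ℝ => -x := by
    filter_upwards [h1] with a ha
    simpa using ha
  have h4 := (integral_eq_zero_iff_of_nonneg_ae h3 M.exp_mom.integrable_id.neg).1 h2
  apply not_ae_zero M
  filter_upwards [h4] with a ha
  simpa using ha

theorem m_lt (M : Mod) : (M.μ (Set.Ioi 0)).toReal < 1 := by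
  refine lt_of_le_of_ne (m_le M.μ) fun h1 => ?_
  have h0 : M.μ (Set.Ioi 0) = 1 := by
    rw [← ENNReal.toReal_one] at h1
    exact (ENNReal.toReal_eq_toReal_iff' (measure_ne_top _ _) ENNReal.one_ne_top).1 h1
  have h2 : ∀ᵐ a ∂M.μ, 0 < a := by
    have := (prob_compl_eq_zero_iff (μ := M.μ) (measurableSet_Ioi (a := (0 : ℝ)))).2 h0
    rw [ae_iff]
    exact this
  have h3 : 0 ≤ᵐ[M.μ] fun x : ℝ => x := by
    filter_upwards [h2] with a ha
    exact ha.le
  have h4 := (integral_eq_zero_iff_of_nonneg_ae h3 M.exp_mom.integrable_id).1 M.mean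
  apply not_ae_zero M
  filter_upwards [h4] with a ha
  exact ha

/-- the covariance of `exp (t a)` and of the indicator -/
def co (M : Mod) (t : ℝ) : ℝ := ∫ a, Real.exp (t * a) * xi M.μ a ∂M.μ

theorem exp_xi_int (M : Mod) (t : ℝ) :
    Integrable (fun a => Real.exp (t * a) * xi M.μ a) M.μ := by
  refine (M.exp_mom t).mul_bdd (c := 1) (xi_meas M.μ).aestronglyMeasurable ?_
  exact ae_of_all _ fun a => by
    rw [Real.norm_eq_abs]
    exact xi_bdd M.μ a

theorem xi_int (M : Mod) : Integrable (xi M.μ) M.μ := by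
  unfold xi
  exact (ind_int M.μ).sub (integrable_const _)

theorem co_eq (M : Mod) (t : ℝ) : co M t = ∫ a, (Real.exp (t * a) - 1) * xi M.μ a ∂M.μ := by
  have h1 : ∫ a, (Real.exp (t * a) - 1) * xi M.μ a ∂M.μ =
      ∫ a, (Real.exp (t * a) * xi M.μ a - xi M.μ a) ∂M.μ := by
    congr 1
    funext a
    ring
  rw [h1, integral_sub (exp_xi_int M t) (xi_int M), xi_mean, sub_zero]
  rfl

theorem pt_nonneg (M : Mod) {t : ℝ} (ht : 0 ≤ t) (a : ℝ) :
    0 ≤ (Real.exp (t * a) - 1) * xi M.μ a := by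
  have h1 := m_le M.μ
  have h0 : 0 ≤ (M.μ (Set.Ioi 0)).toReal := ENNReal.toReal_nonneg
  unfold xi
  by_cases h : 0 < a
  · rw [if_pos h]
    have h2 : 1 ≤ Real.exp (t * a) := Real.one_le_exp (by positivity)
    exact mul_nonneg (by linarith) (by linarith)
  · rw [if_neg h]
    have h2 : Real.exp (t * a) ≤ 1 := Real.exp_le_one_iff.2
      (mul_nonpos_of_nonneg_of_nonpos ht (not_lt.1 h))
    exact mul_nonneg_of_nonpos_of_nonpos (by linarith) (by linarith)

theorem co_nonneg (M : Mod) {t : ℝ} (ht : 0 ≤ t) : 0 ≤ co M t := by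
  rw [co_eq]
  exact integral_nonneg fun a => pt_nonneg M ht a

theorem co_pos (M : Mod) {t : ℝ} (ht : 0 < t) : 0 < co M t := by
  rw [co_eq]
  have hi : Integrable (fun a => (Real.exp (t * a) - 1) * xi M.μ a) M.μ := by
    have h1 : (fun a => (Real.exp (t * a) - 1) * xi M.μ a) =
        fun a => Real.exp (t * a) * xi M.μ a - xi M.μ a := by
      funext a
      ring
    rw [h1]
    exact (exp_xi_int M t).sub (xi_int M)
  rw [integral_pos_iff_support_of_nonneg (fun a => pt_nonneg M ht.le a) hi]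
  have hm : 0 < M.μ (Set.Ioi 0) := by
    have := m_pos M
    rw [ENNReal.toReal_pos_iff] at this
    exact this.1
  refine hm.trans_le (measure_mono fun a ha => ?_)
  rw [Function.mem_support]
  have ha' : 0 < a := ha
  have h2 : 1 < Real.exp (t * a) := Real.one_lt_exp_iff.2 (by positivity)
  have h3 := m_lt M
  unfold xi
  rw [if_pos ha']
  exact (mul_pos (by linarith) (by linarith)).ne'

theorem W_eq (M : Mod) (h a : ℝ) (z : ℤ) :
    M.W h a z = Real.exp (-(h * M.φ z)) * Real.exp (M.β * M.φ z * a) := by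
  unfold AZ.Mod.W
  rw [← Real.exp_add]
  congr 1
  ring

theorem int_W (M : Mod) (h : ℝ) (z : ℤ) : ∫ a, M.W h a z ∂M.μ = Real.exp (M.v h z) := by
  simp_rw [W_eq]
  rw [integral_const_mul, ← AZ.exp_lmg M.exp_mom, ← Real.exp_add]
  congr 1
  unfold AZ.Mod.v
  ring

end MWin

/-- `E[W(a,z) ξ(a)] = e^(-h φ z) Cov(e^(β φ z a), 1_{a > 0})`: with `m = μ(0,∞)` and `t = β φ z`,
`E[e^(ta) (1_{a>0} - m)] = (1-m) E[e^(ta); a>0] - m E[e^(ta); a≤0]`, and `E[e^(ta); a>0] ≥ m`,
`E[e^(ta); a≤0] ≤ 1 - m` (for `t ≥ 0`), so it is `≥ 0`; if `t > 0` the first inequality is strict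
and `0 < m < 1` (mean zero, variance one). For `φ z = 0` it vanishes. -/
theorem xi_w (M : Mod) (h : ℝ) : ∃ c : ℤ → ℝ, (∀ z, 0 ≤ c z) ∧ (∀ z, 0 < M.φ z → 0 < c z) ∧
    ∀ z, ∫ a, M.W h a z * xi M.μ a ∂M.μ = c z * Real.exp (M.v h z) := by
  refine ⟨fun z => MWin.co M (M.β * M.φ z) * Real.exp (-(lmg M.μ (M.β * M.φ z))), fun z => ?_,
    fun z hz => ?_, fun z => ?_⟩
  · exact mul_nonneg (MWin.co_nonneg M (mul_nonneg M.β_pos.le (M.φ_nonneg z)))
      (Real.exp_pos _).le
  · exact mul_pos (MWin.co_pos M (mul_pos M.β_pos hz)) (Real.exp_pos _)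
  · have h1 : ∀ a, M.W h a z * xi M.μ a = Real.exp (-(h * M.φ z)) *
        (Real.exp (M.β * M.φ z * a) * xi M.μ a) := fun a => by
      rw [MWin.W_eq]
      ring
    simp_rw [h1]
    rw [integral_const_mul]
    change Real.exp (-(h * M.φ z)) * MWin.co M (M.β * M.φ z) = _
    rw [mul_assoc, ← Real.exp_add, mul_comm]
    congr 2
    unfold AZ.Mod.v
    ring

namespace MWin

/-- the functions inserted at the times `i` and `j` -/
def ff (μ : Measure ℝ) (i j : ℕ) : ℕ → ℝ → ℝ := fun k a => if k = i ∨ k = j then xi μ a else 1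

theorem ff_meas (μ : Measure ℝ) (i j k : ℕ) : Measurable (ff μ i j k) := by
  unfold ff
  by_cases h : k = i ∨ k = j
  · simp only [if_pos h]
    exact xi_meas μ
  · simp only [if_neg h]
    exact measurable_const

theorem ff_bdd (μ : Measure ℝ) [IsProbabilityMeasure μ] (i j k : ℕ) (a : ℝ) :
    |ff μ i j k a| ≤ 1 := by
  unfold ff
  split_ifs
  · exact xi_bdd μ a
  · simp

theorem ff_prod (μ : Measure ℝ) {i j n : ℕ} (hij : i < j) (hj : j < n) (ω : ℕ → ℝ) :
    ∏ k ∈ range n, ff μ i j k (ω k) = xi μ (ω i) * xi μ (ω j) := by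
  classical
  have h1 : ∏ k ∈ ({i, j} : Finset ℕ), ff μ i j k (ω k) = ∏ k ∈ range n, ff μ i j k (ω k) := by
    apply Finset.prod_subset
    · intro k hk
      rw [Finset.mem_insert, Finset.mem_singleton] at hk
      rw [Finset.mem_range]
      omega
    · intro k _ hk
      rw [Finset.mem_insert, Finset.mem_singleton] at hk
      unfold ff
      rw [if_neg hk]
  rw [← h1, Finset.prod_pair hij.ne]
  unfold ff
  rw [if_pos (Or.inl rfl), if_pos (Or.inr rfl)]

/-- the weights with the two insertions -/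
def ww (M : Mod) (h : ℝ) (i j : ℕ) : ℕ → ℤ → ℝ :=
  fun k z => ∫ a, M.W h a z * ff M.μ i j k a ∂M.μ

theorem ww_other (M : Mod) (h : ℝ) {i j k : ℕ} (hi : k ≠ i) (hj : k ≠ j) (z : ℤ) :
    ww M h i j k z = Real.exp (M.v h z) := by
  unfold ww ff
  rw [← int_W]
  simp only [if_neg (not_or.2 ⟨hi, hj⟩), mul_one]

theorem ww_at (M : Mod) (h : ℝ) {i j k : ℕ} (hk : k = i ∨ k = j) (z : ℤ) :
    ww M h i j k z = ∫ a, M.W h a z * xi M.μ a ∂M.μ := by
  unfold ww ff
  simp only [if_pos hk]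

theorem ww_nonneg (M : Mod) (h : ℝ) (i j k : ℕ) (z : ℤ) : 0 ≤ ww M h i j k z := by
  obtain ⟨c, hc, -, hcz⟩ := xi_w M h
  by_cases hk : k = i ∨ k = j
  · rw [ww_at M h hk, hcz]
    exact mul_nonneg (hc z) (Real.exp_pos _).le
  · rw [not_or] at hk
    rw [ww_other M h hk.1 hk.2]
    exact (Real.exp_pos _).le

/-- the integral with two insertions in the window -/
theorem win_eq (M : Mod) (h : ℝ) {s n i j : ℕ} (hi : s ≤ i) (hij : i < j) (hj : j < s + n) :
    ∫ ω, M.Z h n (shift s ω) * (xi M.μ (ω i) * xi M.μ (ω j)) ∂seqLaw M.μ =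
      Zi M.C (ww M h (i - s) (j - s)) n 0 0 := by
  have h1 := ins_eq M h (f := ff M.μ (i - s) (j - s)) (ff_meas M.μ _ _) (ff_bdd M.μ _ _) n 0 0
  simp only [ff_prod M.μ (show i - s < j - s by omega) (show j - s < n by omega)] at h1
  refine Eq.trans ?_ h1
  have hm : Measurable fun ω : ℕ → ℝ => Zk M.C (M.W h) n ω 0 0 *
      (xi M.μ (ω (i - s)) * xi M.μ (ω (j - s))) :=
    (M.good_Zk h n 0 0).meas.mul (((xi_meas M.μ).comp (measurable_pi_apply _)).mul
      ((xi_meas M.μ).comp (measurable_pi_apply _)))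
  rw [← MP_daa227_pr.integral_shift M.μ s hm]
  refine integral_congr_ae (ae_of_all _ fun ω => ?_)
  simp only [MP_daa227_pr.shift_apply, Nat.sub_add_cancel hi,
    Nat.sub_add_cancel (hi.trans hij.le)]
  rfl

end MWin

/-- `i < j`, both in the window `[s, s + n)`: `ins_eq` with `f k = xi` for `k = i - s`, `j - s`
and `1` otherwise (after the shift by `s`), then `zi_mul_le` twice and `zi_last`, `zi_const`. -/
theorem win_low (M : Mod) (h : ℝ) {c : ℤ → ℝ} (hc : ∀ z, 0 ≤ c z)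
    (hcz : ∀ z, ∫ a, M.W h a z * xi M.μ a ∂M.μ = c z * Real.exp (M.v h z)) (x₀ : ℤ)
    {s n i j : ℕ} (hi : s ≤ i) (hij : i < j) (hj : j < s + n) :
    c x₀ ^ 2 * (AZ.Zd M.C (M.v h) (i - s + 1) 0 x₀ * AZ.Zd M.C (M.v h) (j - i) x₀ x₀ *
      AZ.Zd M.C (M.v h) (s + n - j - 1) x₀ 0) ≤
      ∫ ω, M.Z h n (shift s ω) * (xi M.μ (ω i) * xi M.μ (ω j)) ∂seqLaw M.μ := by
  rw [MWin.win_eq M h hi hij hj]
  obtain ⟨w, hw⟩ : ∃ w, w = MWin.ww M h (i - s) (j - s) := ⟨_, rfl⟩
  have hw0 : ∀ k z, 0 ≤ w k z := fun k z => by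
    rw [hw]
    exact MWin.ww_nonneg M h _ _ k z
  have e1 : Zi M.C w (i - s + 1) 0 x₀ = c x₀ * AZ.Zd M.C (M.v h) (i - s + 1) 0 x₀ := by
    apply zi_last
    · intro k z hk
      rw [hw]
      exact MWin.ww_other M h (by omega) (by omega) z
    · rw [hw, MWin.ww_at M h (Or.inl rfl), hcz]
  have e2 : Zi M.C (fun k => w (k + (i - s + 1))) (j - i) x₀ x₀ =
      c x₀ * AZ.Zd M.C (M.v h) (j - i) x₀ x₀ := by
    obtain ⟨r, hr⟩ : ∃ r, j - i = r + 1 := ⟨j - i - 1, by omega⟩
    rw [hr]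
    apply zi_last
    · intro k z hk
      rw [hw]
      exact MWin.ww_other M h (by omega) (by omega) z
    · rw [hw, MWin.ww_at M h (Or.inr (by omega)), hcz]
  have e3 : Zi M.C (fun k => w (k + (j - i) + (i - s + 1))) (s + n - j - 1) x₀ 0 =
      AZ.Zd M.C (M.v h) (s + n - j - 1) x₀ 0 := by
    apply zi_const
    intro k z _
    rw [hw]
    exact MWin.ww_other M h (by omega) (by omega) z
  rw [← hw]
  have hn : n = (i - s + 1) + ((j - i) + (s + n - j - 1)) := by omega
  have h1 := zi_mul_le M.C hw0 (i - s + 1) ((j - i) + (s + n - j - 1)) 0 x₀ 0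
  rw [← hn] at h1
  have h2 := zi_mul_le M.C (w := fun k => w (k + (i - s + 1))) (fun k z => hw0 _ z) (j - i)
    (s + n - j - 1) x₀ x₀ 0
  have h3 := zi_nonneg M.C hw0 (i - s + 1) 0 x₀
  have h4 := (mul_le_mul_of_nonneg_left h2 h3).trans h1
  rw [e1, e2, e3] at h4
  refine le_trans (le_of_eq ?_) h4
  ring

/-- In the window as before (`zi_nonneg`); if `i < s` (or `s + n ≤ j`) the variable `ω i` (or `ω j`)
is independent of the other factors and the integral vanishes by `xi_mean`. -/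
theorem win_nonneg (M : Mod) (h : ℝ) (s n : ℕ) {i j : ℕ} (hij : i < j) :
    0 ≤ ∫ ω, M.Z h n (shift s ω) * (xi M.μ (ω i) * xi M.μ (ω j)) ∂seqLaw M.μ := by
  have hap : ∀ k : ℕ, ∫ ω, xi M.μ (ω k) ∂seqLaw M.μ = 0 := fun k => by
    rw [MP_daa227_pr.integral_apply M.μ k (Y := xi M.μ) (xi_meas M.μ), xi_mean]
  have hxm : ∀ k : ℕ, Measurable fun ω : ℕ → ℝ => xi M.μ (ω k) := fun k =>
    (xi_meas M.μ).comp (measurable_pi_apply k)
  by_cases hi : s ≤ i
  · by_cases hj : j < s + n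
    · rw [MWin.win_eq M h hi hij hj]
      exact zi_nonneg M.C (fun k z => MWin.ww_nonneg M h _ _ k z) n 0 0
    · apply le_of_eq
      symm
      have h1 := AZ.Strat.integral_mul_shift M.μ (k := j)
        (X := fun ω => M.Z h n (shift s ω) * xi M.μ (ω i)) (Y := fun ω => xi M.μ (ω 0))
        (((M.good_Z h n).meas.comp (MP_daa227_pr.measurable_shift s)).mul (hxm i)) ?_ (hxm 0)
      · rw [hap 0, mul_zero] at h1
        rw [← h1]
        refine integral_congr_ae (ae_of_all _ fun ω => ?_)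
        simp only [MP_daa227_pr.shift_apply, zero_add]
        ring
      · intro ω ω' hω
        have e1 : M.Z h n (shift s ω) = M.Z h n (shift s ω') :=
          (M.good_Z h n).depOn _ _ fun k hk => hω _ (by omega)
        have e2 : ω i = ω' i := hω i hij
        simp only [e1, e2]
  · apply le_of_eq
    symm
    have hm : Measurable fun ω : ℕ → ℝ => M.Z h n (shift (s - (i + 1)) ω) *
        xi M.μ (ω (j - (i + 1))) :=
      ((M.good_Z h n).meas.comp (MP_daa227_pr.measurable_shift _)).mul (hxm _)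
    have h1 := AZ.Strat.integral_mul_shift M.μ (k := i + 1) (X := fun ω => xi M.μ (ω i))
      (hxm i) (fun ω ω' hω => by simp only [hω i (Nat.lt_succ_self i)]) hm
    rw [hap i, zero_mul] at h1
    rw [← h1]
    refine integral_congr_ae (ae_of_all _ fun ω => ?_)
    simp only [MP_daa227_pr.shift_apply, MP_daa227_pr.shift_shift]
    rw [show s - (i + 1) + (i + 1) = s by omega, show j - (i + 1) + (i + 1) = j by omega]
    ring

end

end Pool.Agent.IG
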