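import Pool.Agent.Lib.MP_daa227_pr_IG.MHyp
import Pool.Agent.Lib.MP_daa227_pr_IG.MWin
import Pool.Agent.Lib.MP_daa227_pr_IG.MU
import Pool.Agent.Lib.MP_daa227_pr_IG.SX

/-!
# MP_daa227_pr, marginal case: the block sums against a quadratic form
-/

namespace Pool.Agent.IG

open MeasureTheory ProbabilityTheory Finset Filter Topology
open MP_daa227_pr (Chain Zk Zf Gk Gf KU K0 Ren shift seqLaw ExpMom DepOn Good GoodW mom)
open Pool.Agent.AZ (Mod Kv lmg)
open Pool.Agent.IOrd (Sys aS cv)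

noncomputable section

/-- the coefficients of the quadratic form: `1/√(k+1)` for the pairs
`(2 i' + m - 1, 2 (i' + m + k) + m - 1)`, `L ≤ i' < 2 L`, `k < L` -/
def qc (m L : ℕ) (i j : ℕ) : ℝ :=
  ∑ i' ∈ Finset.Ico L (2 * L), ∑ k ∈ range L,
    if i = 2 * i' + m - 1 ∧ j = 2 * (i' + m + k) + m - 1 then 1 / Real.sqrt (k + 1) else 0

namespace MLow

/-- the index set -/
def S (L : ℕ) : Finset (ℕ × ℕ) := Finset.Ico L (2 * L) ×ˢ range L

/-- the first position -/
def pa (m : ℕ) (x : ℕ × ℕ) : ℕ := 2 * x.1 + m - 1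

/-- the second position -/
def pb (m : ℕ) (x : ℕ × ℕ) : ℕ := 2 * (x.1 + m + x.2) + m - 1

theorem qc_eq (m L i j : ℕ) : qc m L i j = ∑ x ∈ S L,
    if i = pa m x ∧ j = pb m x then 1 / Real.sqrt (x.2 + 1) else 0 := by
  unfold qc S
  rw [Finset.sum_product]
  rfl

theorem p_inj {m : ℕ} (hm : 1 ≤ m) {x y : ℕ × ℕ} (h1 : pa m x = pa m y) (h2 : pb m x = pb m y) :
    x = y := by
  unfold pa at h1
  unfold pb at h2
  exact Prod.ext (by omega) (by omega)

theorem sq_ind {ι : Type*} (s : Finset ι) (P : ι → Prop) [DecidablePred P] (f : ι → ℝ)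
    (hP : ∀ x y, P x → P y → x = y) :
    (∑ x ∈ s, if P x then f x else 0) ^ 2 = ∑ x ∈ s, if P x then f x ^ 2 else 0 := by
  by_cases h : ∃ x ∈ s, P x
  · obtain ⟨x, hx, hpx⟩ := h
    rw [Finset.sum_eq_single_of_mem x hx, Finset.sum_eq_single_of_mem x hx, if_pos hpx, if_pos hpx]
    · intro y _ hy
      exact if_neg fun hpy => hy (hP y x hpy hpx)
    · intro y _ hy
      exact if_neg fun hpy => hy (hP y x hpy hpx)
  · have h1 : ∀ x ∈ s, ¬ P x := fun x hx hpx => h ⟨x, hx, hpx⟩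
    rw [Finset.sum_eq_zero fun x hx => if_neg (h1 x hx),
      Finset.sum_eq_zero fun x hx => if_neg (h1 x hx)]
    norm_num

theorem sum_pick (N : ℕ) {a b : ℕ} (hab : a < b) (hb : b < N) (c : ℝ) (g : ℕ → ℕ → ℝ) :
    ∑ j ∈ range N, ∑ i ∈ range j, (if i = a ∧ j = b then c else 0) * g i j = c * g a b := by
  rw [Finset.sum_eq_single_of_mem b (Finset.mem_range.2 hb),
    Finset.sum_eq_single_of_mem a (Finset.mem_range.2 hab), if_pos ⟨rfl, rfl⟩]
  · intro i _ hi
    rw [if_neg fun h => hi h.1, zero_mul]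
  · intro j _ hj
    refine Finset.sum_eq_zero fun i _ => ?_
    rw [if_neg fun h => hj h.2, zero_mul]

theorem sum_pick_le (N a b : ℕ) {c : ℝ} (hc : 0 ≤ c) :
    ∑ j ∈ range N, ∑ i ∈ range j, (if i = a ∧ j = b then c else 0) ≤ c := by
  have h1 : ∀ j ∈ range N, ∑ i ∈ range j, (if i = a ∧ j = b then c else 0) ≤
      if j = b then c else 0 := by
    intro j _
    by_cases hj : j = b
    · rw [if_pos hj]
      calc ∑ i ∈ range j, (if i = a ∧ j = b then c else 0)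
          = ∑ i ∈ range j, (if i = a then c else 0) :=
            Finset.sum_congr rfl fun i _ => by simp [hj]
        _ ≤ c := by
            rw [Finset.sum_ite_eq' (range j) a fun _ => c]
            split_ifs
            · exact le_rfl
            · exact hc
    · rw [if_neg hj]
      refine le_of_eq (Finset.sum_eq_zero fun i _ => if_neg fun h => hj h.2)
  refine (Finset.sum_le_sum h1).trans ?_
  rw [Finset.sum_ite_eq' (range N) b fun _ => c]
  split_ifs
  · exact le_rfl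
  · exact hc

theorem inv_sum (L : ℕ) : ∑ k ∈ range L, 1 / ((k : ℝ) + 1) ≤ 1 + Real.log L := by
  have h1 := harmonic_le_one_add_log L
  refine le_trans (le_of_eq ?_) h1
  unfold harmonic
  push_cast
  exact Finset.sum_congr rfl fun k _ => one_div _

theorem one_pos (C : Chain) (v : ℤ → ℝ) (x : ℤ) :
    0 < AZ.Zd C v 1 x (x + 1) ∧ 0 < AZ.Zd C v 1 x (x - 1) := by
  constructor
  · unfold AZ.Zd
    simp only [Zk]
    apply Finset.sum_pos'
    · intro z _
      refine mul_nonneg (mul_nonneg (C.nonneg _ _) (Real.exp_pos _).le) ?_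
      split_ifs <;> norm_num
    · refine ⟨x + 1, by simp only [Finset.mem_Icc]; omega, ?_⟩
      simp only [if_true, mul_one]
      exact mul_pos (C.up x) (Real.exp_pos _)
  · unfold AZ.Zd
    simp only [Zk]
    apply Finset.sum_pos'
    · intro z _
      refine mul_nonneg (mul_nonneg (C.nonneg _ _) (Real.exp_pos _).le) ?_
      split_ifs <;> norm_num
    · refine ⟨x - 1, by simp only [Finset.mem_Icc]; omega, ?_⟩
      simp only [if_true, mul_one]
      exact mul_pos (C.down x) (Real.exp_pos _)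

theorem path_pos (C : Chain) (v : ℤ → ℝ) : ∀ (m : ℕ) (x : ℤ),
    0 < AZ.Zd C v m x (x + m) ∧ 0 < AZ.Zd C v m x (x - m)
  | 0, x => by
    simp only [Nat.cast_zero, add_zero, sub_zero]
    rw [AZ.Zd_zero]
    exact ⟨zero_lt_one, zero_lt_one⟩
  | m + 1, x => by
    obtain ⟨h1, h2⟩ := MLow.one_pos C v x
    have h3 := (path_pos C v m (x + 1)).1
    have h4 := (path_pos C v m (x - 1)).2
    have h5 := AZ.Zd_mul_le C v 1 m x (x + 1) (x + 1 + m)
    have h6 := AZ.Zd_mul_le C v 1 m x (x - 1) (x - 1 - m)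
    rw [show m + 1 = 1 + m by omega]
    push_cast
    rw [show x + (1 + (m : ℤ)) = x + 1 + m by ring, show x - (1 + (m : ℤ)) = x - 1 - m by ring]
    exact ⟨(mul_pos h1 h3).trans_le h5, (mul_pos h2 h4).trans_le h6⟩

theorem path_pos' (C : Chain) (v : ℤ → ℝ) (x y : ℤ) : 0 < AZ.Zd C v (y - x).natAbs x y := by
  rcases le_total x y with h | h
  · have h1 := (path_pos C v (y - x).natAbs x).1
    rw [show x + ((y - x).natAbs : ℤ) = y by omega] at h1
    exact h1
  · have h1 := (path_pos C v (y - x).natAbs x).2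
    rw [show x - ((y - x).natAbs : ℤ) = y by omega] at h1
    exact h1

/-- the partition functions of the windows are integrable -/
theorem int_Z (M : Mod) (h : ℝ) (n k : ℕ) :
    Integrable (fun ω => M.Z h n (shift k ω)) (seqLaw M.μ) := by
  have h1 : mom M.μ 1 (fun ω => M.Z h n (shift k ω)) =
      ENNReal.ofReal (AZ.Zd M.C (M.v h) n 0 0) := by
    rw [MP_daa227_pr.mom_shift (G := fun ω => M.Z h n ω) (M.good_Z h _).meas]
    exact AZ.Mod.mom_one_Zk M h n 0 0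
  rw [MP_daa227_pr.mom_one] at h1
  refine ⟨(SX.meas_sh M h n k).aestronglyMeasurable, ?_⟩
  rw [hasFiniteIntegral_iff_ofReal (ae_of_all _ fun ω => M.Z_nonneg h _ _), h1]
  exact ENNReal.ofReal_lt_top

theorem int_Zxx (M : Mod) (h : ℝ) (n k i j : ℕ) :
    Integrable (fun ω => M.Z h n (shift k ω) * (xi M.μ (ω i) * xi M.μ (ω j))) (seqLaw M.μ) := by
  refine (int_Z M h n k).mul_bdd (c := 1) ?_ (ae_of_all _ fun ω => ?_)
  · exact (((xi_meas M.μ).comp (measurable_pi_apply i)).mul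
      ((xi_meas M.μ).comp (measurable_pi_apply j))).aestronglyMeasurable
  · rw [Real.norm_eq_abs, abs_mul]
    exact mul_le_one₀ (xi_bdd M.μ _) (abs_nonneg _) (xi_bdd M.μ _)

end MLow

/-- at most one term of the double sum is not zero; `∑_{k<L} 1/(k+1) ≤ 1 + log L` -/
theorem qc_sq {m L : ℕ} (hm : 1 ≤ m) (hL : 1 ≤ L) (N : ℕ) :
    ∑ j ∈ range N, ∑ i ∈ range j, qc m L i j ^ 2 ≤ L * (1 + Real.log L) := by
  have h1 : ∀ i j, qc m L i j ^ 2 = ∑ x ∈ MLow.S L,
      if i = MLow.pa m x ∧ j = MLow.pb m x then 1 / ((x.2 : ℝ) + 1) else 0 := by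
    intro i j
    rw [MLow.qc_eq, MLow.sq_ind (MLow.S L) (fun x => i = MLow.pa m x ∧ j = MLow.pb m x)
      (fun x => 1 / Real.sqrt (x.2 + 1))
      fun x y hx hy => MLow.p_inj hm (hx.1.symm.trans hy.1) (hx.2.symm.trans hy.2)]
    refine Finset.sum_congr rfl fun x _ => ?_
    have h2 : (0 : ℝ) ≤ (x.2 : ℝ) + 1 := by positivity
    rw [div_pow, one_pow, Real.sq_sqrt h2]
  have h2 : ∑ j ∈ range N, ∑ i ∈ range j, qc m L i j ^ 2 = ∑ x ∈ MLow.S L,
      ∑ j ∈ range N, ∑ i ∈ range j,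
        if i = MLow.pa m x ∧ j = MLow.pb m x then 1 / ((x.2 : ℝ) + 1) else 0 := by
    rw [Finset.sum_comm]
    refine Finset.sum_congr rfl fun j _ => ?_
    rw [Finset.sum_comm]
    exact Finset.sum_congr rfl fun i _ => h1 i j
  rw [h2]
  calc ∑ x ∈ MLow.S L, ∑ j ∈ range N, ∑ i ∈ range j,
        (if i = MLow.pa m x ∧ j = MLow.pb m x then 1 / ((x.2 : ℝ) + 1) else 0)
      ≤ ∑ x ∈ MLow.S L, 1 / ((x.2 : ℝ) + 1) :=
        Finset.sum_le_sum fun x _ => MLow.sum_pick_le N _ _ (by positivity)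
    _ = L * ∑ k ∈ range L, 1 / ((k : ℝ) + 1) := by
        unfold MLow.S
        rw [Finset.sum_product]
        dsimp only
        rw [Finset.sum_const, Nat.card_Ico, nsmul_eq_mul]
        congr 2
        omega
    _ ≤ L * (1 + Real.log L) :=
        mul_le_mul_of_nonneg_left (MLow.inv_sum L) (Nat.cast_nonneg L)

/-- `Qf` is the double sum over `i'` and `k` -/
theorem qf_eq {m L : ℕ} (hm : 1 ≤ m) (hL : 1 ≤ L) (ξ : ℝ → ℝ) (ω : ℕ → ℝ) {N : ℕ}
    (hN : 2 * (3 * L + m) + m ≤ N) :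
    Qf (qc m L) ξ N ω = ∑ i' ∈ Finset.Ico L (2 * L), ∑ k ∈ range L,
      1 / Real.sqrt (k + 1) * (ξ (ω (2 * i' + m - 1)) * ξ (ω (2 * (i' + m + k) + m - 1))) := by
  have h1 : Qf (qc m L) ξ N ω = ∑ x ∈ MLow.S L, ∑ j ∈ range N, ∑ i ∈ range j,
      (if i = MLow.pa m x ∧ j = MLow.pb m x then 1 / Real.sqrt (x.2 + 1) else 0) *
        (ξ (ω i) * ξ (ω j)) := by
    unfold Qf
    rw [Finset.sum_comm]
    refine Finset.sum_congr rfl fun j _ => ?_
    rw [Finset.sum_comm]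
    refine Finset.sum_congr rfl fun i _ => ?_
    rw [MLow.qc_eq, mul_assoc, Finset.sum_mul]
  rw [h1]
  have h2 : ∀ x ∈ MLow.S L, ∑ j ∈ range N, ∑ i ∈ range j,
      (if i = MLow.pa m x ∧ j = MLow.pb m x then 1 / Real.sqrt (x.2 + 1) else 0) *
        (ξ (ω i) * ξ (ω j)) =
      1 / Real.sqrt (x.2 + 1) * (ξ (ω (MLow.pa m x)) * ξ (ω (MLow.pb m x))) := by
    intro x hx
    unfold MLow.S at hx
    rw [Finset.mem_product, Finset.mem_Ico, Finset.mem_range] at hx
    refine MLow.sum_pick N ?_ ?_ _ fun i j => ξ (ω i) * ξ (ω j)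
    · unfold MLow.pa MLow.pb
      omega
    · unfold MLow.pb
      omega
  rw [Finset.sum_congr rfl h2]
  unfold MLow.S
  rw [Finset.sum_product]
  rfl

/-- the path from `0` straight to `x₀` and back: `Zd (2n+m) 0 x₀ ≥ ρ Zd (2n) 0 0`, and so on
(`m = |x₀|`), by `Zd_mul_le` and positivity of the straight paths -/
theorem zd_x0 (C : Chain) (v : ℤ → ℝ) (x₀ : ℤ) : ∃ ρ : ℝ, 0 < ρ ∧ ∀ n : ℕ,
    ρ * AZ.Zd C v n 0 0 ≤ AZ.Zd C v (n + x₀.natAbs) 0 x₀ ∧
    ρ * AZ.Zd C v n 0 0 ≤ AZ.Zd C v (n + x₀.natAbs) x₀ 0 ∧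
    ρ * AZ.Zd C v n 0 0 ≤ AZ.Zd C v (n + 2 * x₀.natAbs) x₀ x₀ := by
  have h1 := MLow.path_pos' C v 0 x₀
  have h2 := MLow.path_pos' C v x₀ 0
  rw [sub_zero] at h1
  rw [zero_sub, Int.natAbs_neg] at h2
  set a := AZ.Zd C v x₀.natAbs 0 x₀
  set b := AZ.Zd C v x₀.natAbs x₀ 0
  refine ⟨min (min a b) (a * b), lt_min (lt_min h1 h2) (mul_pos h1 h2), fun n => ?_⟩
  have h0 := AZ.Zd_nonneg C v n 0 0
  refine ⟨?_, ?_, ?_⟩
  · have h3 := AZ.Zd_mul_le C v n x₀.natAbs 0 0 x₀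
    refine le_trans ?_ h3
    rw [mul_comm]
    exact mul_le_mul_of_nonneg_left ((min_le_left _ _).trans (min_le_left _ _)) h0
  · have h3 := AZ.Zd_mul_le C v x₀.natAbs n x₀ 0 0
    rw [add_comm] at h3
    refine le_trans ?_ h3
    exact mul_le_mul_of_nonneg_right ((min_le_left _ _).trans (min_le_right _ _)) h0
  · have h3 := AZ.Zd_mul_le C v n x₀.natAbs 0 0 x₀
    have h4 := AZ.Zd_mul_le C v x₀.natAbs (n + x₀.natAbs) x₀ 0 x₀
    rw [show x₀.natAbs + (n + x₀.natAbs) = n + 2 * x₀.natAbs by omega] at h4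
    refine le_trans ?_ h4
    calc min (min a b) (a * b) * AZ.Zd C v n 0 0 ≤ a * b * AZ.Zd C v n 0 0 :=
          mul_le_mul_of_nonneg_right (min_le_right _ _) h0
      _ = b * (AZ.Zd C v n 0 0 * a) := by ring
      _ ≤ _ := mul_le_mul_of_nonneg_left h3 h2.le

/-- With `m = |x₀| ≥ 1`, `l = 4 L + 2 m`, `N = 2 l`. By linearity (all the functions are integrable) and
`win_nonneg`, keep for the pair `(i, j)`, `i = 2 i' + m - 1`, `j = 2 (i' + m + k) + m - 1`, only the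
stretches `(a, c)` with `a ≤ i'`, `b = a + c ≥ i' + 2 m + k`, `b < l`: `win_low` with `s = 2 a`,
`n = 2 c` and `zd_x0` give at least `c₁ u(2(i'-a)) u(2k) u(2(b-i'-2m-k))`, `c₁ = c(x₀)² ρ³`. Sum over `a`
and `b`: two factors `≥ c √L` (`hU`; the ranges contain `[0, L)`), then `∑_k u(2k)/√(k+1) ≥ c' log L`
(`log_sum`) and `L` values of `i'`. -/
theorem xb_q_low (M : Mod) {h : ℝ} {x₀ : ℤ} (hx : 0 < M.φ x₀) (hx0 : x₀ < 0) {c : ℝ} (hc : 0 < c)
    (hU : ∀ N : ℕ, 1 ≤ N → c * Real.sqrt N ≤ ∑ n ∈ range N, AZ.Zd M.C (M.v h) (2 * n) 0 0) :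
    ∃ c' : ℝ, 0 < c' ∧ ∀ L : ℕ, 1 ≤ L → c' * (L : ℝ) ^ 2 * Real.log L ≤
      ∫ ω, XB M h (4 * L + 2 * x₀.natAbs) ω *
        Qf (qc x₀.natAbs L) (xi M.μ) (2 * (4 * L + 2 * x₀.natAbs)) ω ∂seqLaw M.μ := by
  obtain ⟨cw, hcw, hcwp, hcz⟩ := xi_w M h
  obtain ⟨ρ, hρ, hzd⟩ := zd_x0 M.C (M.v h) x₀
  set m := x₀.natAbs with hm
  have hm1 : 1 ≤ m := by omega
  set u : ℕ → ℝ := fun n => AZ.Zd M.C (M.v h) (2 * n) 0 0 with hu
  have hu0 : ∀ n, 0 ≤ u n := fun n => AZ.Zd_nonneg _ _ _ _ _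
  obtain ⟨c', hc', hlog⟩ := log_sum hu0 hc hU
  set c₁ := cw x₀ ^ 2 * ρ ^ 3 with hc₁
  have hc₁p : 0 < c₁ := mul_pos (pow_pos (hcwp x₀ hx) 2) (pow_pos hρ 3)
  refine ⟨c₁ * c ^ 2 * c', by positivity, fun L hL => ?_⟩
  -- the integral is a sum
  have hE : ∫ ω, XB M h (4 * L + 2 * m) ω * Qf (qc m L) (xi M.μ) (2 * (4 * L + 2 * m)) ω ∂seqLaw M.μ =
      ∑ y ∈ MLow.S L, 1 / Real.sqrt (y.2 + 1) * ∑ x ∈ SX.prs (4 * L + 2 * m),
        ∫ ω, M.Z h (2 * x.2) (shift (2 * x.1) ω) *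
          (xi M.μ (ω (MLow.pa m y)) * xi M.μ (ω (MLow.pb m y))) ∂seqLaw M.μ := by
    have h1 : ∀ ω, XB M h (4 * L + 2 * m) ω * Qf (qc m L) (xi M.μ) (2 * (4 * L + 2 * m)) ω =
        ∑ y ∈ MLow.S L, 1 / Real.sqrt (y.2 + 1) * ∑ x ∈ SX.prs (4 * L + 2 * m),
          M.Z h (2 * x.2) (shift (2 * x.1) ω) *
            (xi M.μ (ω (MLow.pa m y)) * xi M.μ (ω (MLow.pb m y))) := by
      intro ω
      rw [qf_eq hm1 hL (xi M.μ) ω (by omega), SX.xb_eq, ← Finset.sum_product', Finset.mul_sum]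
      refine Finset.sum_congr rfl fun y _ => ?_
      rw [← Finset.sum_mul]
      unfold MLow.pa MLow.pb
      ring
    simp_rw [h1]
    rw [integral_finsetSum]
    · refine Finset.sum_congr rfl fun y _ => ?_
      rw [integral_const_mul, integral_finsetSum]
      intro x _
      exact MLow.int_Zxx M h _ _ _ _
    · intro y _
      refine Integrable.const_mul ?_ _
      exact integrable_finsetSum _ fun x _ => MLow.int_Zxx M h _ _ _ _
  rw [hE]
  -- lower bound for each pair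
  have hk : ∀ y ∈ MLow.S L, c₁ * c ^ 2 * L * u y.2 ≤ ∑ x ∈ SX.prs (4 * L + 2 * m),
      ∫ ω, M.Z h (2 * x.2) (shift (2 * x.1) ω) *
        (xi M.μ (ω (MLow.pa m y)) * xi M.μ (ω (MLow.pb m y))) ∂seqLaw M.μ := by
    intro y hy
    unfold MLow.S at hy
    rw [Finset.mem_product, Finset.mem_Ico, Finset.mem_range] at hy
    obtain ⟨i', k⟩ := y
    dsimp only at hy ⊢
    have hlt : MLow.pa m (i', k) < MLow.pb m (i', k) := by
      unfold MLow.pa MLow.pb
      dsimp only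
      omega
    set F : (Σ _ : ℕ, ℕ) → ℝ := fun x => ∫ ω, M.Z h (2 * x.2) (shift (2 * x.1) ω) *
      (xi M.μ (ω (MLow.pa m (i', k))) * xi M.μ (ω (MLow.pb m (i', k)))) ∂seqLaw M.μ with hF
    have hF0 : ∀ x, 0 ≤ F x := fun x => win_nonneg M h _ _ hlt
    set e : ℕ × ℕ → (Σ _ : ℕ, ℕ) := fun q => ⟨i' - q.1, 2 * m + k + q.2 + q.1⟩ with he
    have hinj : Set.InjOn e ↑(range L ×ˢ range L) := by
      intro q hq r hr hqr
      rw [Finset.mem_coe, Finset.mem_product, Finset.mem_range, Finset.mem_range] at hq hr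
      simp only [he, Sigma.mk.injEq, heq_eq_eq] at hqr
      exact Prod.ext (by omega) (by omega)
    have hsub : (range L ×ˢ range L).image e ⊆ SX.prs (4 * L + 2 * m) := by
      intro x hx'
      rw [Finset.mem_image] at hx'
      obtain ⟨q, hq, rfl⟩ := hx'
      rw [Finset.mem_product, Finset.mem_range, Finset.mem_range] at hq
      unfold SX.prs
      rw [Finset.mem_sigma, Finset.mem_range, Finset.mem_range]
      simp only [he]
      omega
    have hpt : ∀ q ∈ range L ×ˢ range L, c₁ * u k * (u q.1 * u q.2) ≤ F (e q) := by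
      intro q hq
      rw [Finset.mem_product, Finset.mem_range, Finset.mem_range] at hq
      have h1 := win_low M h hcw hcz x₀ (s := 2 * (e q).1) (n := 2 * (e q).2)
        (i := MLow.pa m (i', k)) (j := MLow.pb m (i', k))
        (by simp only [he, MLow.pa]; omega) hlt (by simp only [he, MLow.pb]; omega)
      have e1 : MLow.pa m (i', k) - 2 * (e q).1 + 1 = 2 * q.1 + m := by
        simp only [he, MLow.pa]
        omega
      have e2 : MLow.pb m (i', k) - MLow.pa m (i', k) = 2 * k + 2 * m := by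
        simp only [MLow.pa, MLow.pb]
        omega
      have e3 : 2 * (e q).1 + 2 * (e q).2 - MLow.pb m (i', k) - 1 = 2 * q.2 + m := by
        simp only [he, MLow.pb]
        omega
      rw [e1, e2, e3] at h1
      refine le_trans ?_ h1
      have g1 := (hzd (2 * q.1)).1
      have g2 := (hzd (2 * k)).2.2
      have g3 := (hzd (2 * q.2)).2.1
      have hz : ∀ n a b, 0 ≤ AZ.Zd M.C (M.v h) n a b := fun n a b => AZ.Zd_nonneg _ _ _ _ _
      calc c₁ * u k * (u q.1 * u q.2)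
          = cw x₀ ^ 2 * (ρ * u q.1 * (ρ * u k) * (ρ * u q.2)) := by
            rw [hc₁]
            ring
        _ ≤ _ := by
            refine mul_le_mul_of_nonneg_left ?_ (sq_nonneg _)
            refine mul_le_mul (mul_le_mul g1 g2 (mul_nonneg hρ.le (hu0 _)) (hz _ _ _)) g3
              (mul_nonneg hρ.le (hu0 _)) (mul_nonneg (hz _ _ _) (hz _ _ _))
    have hsq : c ^ 2 * L ≤ (∑ p ∈ range L, u p) * ∑ p ∈ range L, u p := by
      have h1 := hU L hL
      have h2 : c ^ 2 * L = (c * Real.sqrt L) * (c * Real.sqrt L) := by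
        have h3 : Real.sqrt L * Real.sqrt L = L := Real.mul_self_sqrt (Nat.cast_nonneg L)
        calc c ^ 2 * L = c ^ 2 * (Real.sqrt L * Real.sqrt L) := by rw [h3]
          _ = _ := by ring
      rw [h2]
      exact mul_le_mul h1 h1 (by positivity) (Finset.sum_nonneg fun p _ => hu0 p)
    calc c₁ * c ^ 2 * L * u k = c₁ * u k * (c ^ 2 * L) := by ring
      _ ≤ c₁ * u k * ((∑ p ∈ range L, u p) * ∑ p ∈ range L, u p) :=
          mul_le_mul_of_nonneg_left hsq (mul_nonneg hc₁p.le (hu0 _))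
      _ = ∑ q ∈ range L ×ˢ range L, c₁ * u k * (u q.1 * u q.2) := by
          rw [Finset.sum_mul_sum, ← Finset.sum_product', Finset.mul_sum]
      _ ≤ ∑ q ∈ range L ×ˢ range L, F (e q) := Finset.sum_le_sum hpt
      _ = ∑ x ∈ (range L ×ˢ range L).image e, F x := (Finset.sum_image hinj).symm
      _ ≤ ∑ x ∈ SX.prs (4 * L + 2 * m), F x :=
          Finset.sum_le_sum_of_subset_of_nonneg hsub fun x _ _ => hF0 x
  have hl := hlog L hL
  calc c₁ * c ^ 2 * c' * (L : ℝ) ^ 2 * Real.log L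
      = c₁ * c ^ 2 * L * (L * (c' * Real.log L)) := by ring
    _ ≤ c₁ * c ^ 2 * L * (L * ∑ k ∈ range L, u k / Real.sqrt (k + 1)) :=
        mul_le_mul_of_nonneg_left (mul_le_mul_of_nonneg_left hl (Nat.cast_nonneg L)) (by positivity)
    _ = ∑ y ∈ MLow.S L, 1 / Real.sqrt (y.2 + 1) * (c₁ * c ^ 2 * L * u y.2) := by
        unfold MLow.S
        rw [Finset.sum_product]
        dsimp only
        rw [Finset.sum_const, Nat.card_Ico, nsmul_eq_mul, show 2 * L - L = L by omega]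
        rw [Finset.mul_sum, Finset.mul_sum, Finset.mul_sum]
        refine Finset.sum_congr rfl fun k _ => ?_
        ring
    _ ≤ _ := Finset.sum_le_sum fun y hy =>
        mul_le_mul_of_nonneg_left (hk y hy) (by positivity)

end

end Pool.Agent.IG
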