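import Pool.Agent.Lib.MP_daa227_pr_IG.TailK
import Pool.Agent.Lib.MP_daa227_pr_IG.STail
import Pool.Agent.Lib.MP_daa227_pr_IG.FinA

/-!
# MP_daa227_pr, marginal case: the data of the free excursions
-/

namespace Pool.Agent.IG

open MeasureTheory ProbabilityTheory Finset Filter Topology
open MP_daa227_pr (Chain Zk Zf Gk Gf KU K0 Ren shift seqLaw ExpMom DepOn Good GoodW mom)
open Pool.Agent.AZ (Mod Kv lmg)
open Pool.Agent.IOrd (Sys aS cv)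

noncomputable section

namespace MTail

theorem rpow_sqrt {x : ℝ} (hx : 0 < x) : x ^ (-(3 / 2 : ℝ)) = 1 / (x * √x) := by
  rw [Real.rpow_neg hx.le, ← one_div, show (3 / 2 : ℝ) = 1 + 1 / 2 by norm_num,
    Real.rpow_add hx, Real.rpow_one, ← Real.sqrt_eq_rpow]

theorem sqrt_step (n : ℕ) : 1 / √((n + 1 : ℕ) : ℝ) ≤ 2 * (√((n + 1 : ℕ) : ℝ) - √(n : ℝ)) := by
  have hn : (0 : ℝ) < ((n + 1 : ℕ) : ℝ) := Nat.cast_pos.2 (Nat.succ_pos n)
  have hq : 0 < √((n + 1 : ℕ) : ℝ) := Real.sqrt_pos.2 hn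
  have hr : 0 ≤ √(n : ℝ) := Real.sqrt_nonneg _
  have h5 : √((n + 1 : ℕ) : ℝ) * √((n + 1 : ℕ) : ℝ) = ((n + 1 : ℕ) : ℝ) :=
    Real.mul_self_sqrt hn.le
  have h6 : √(n : ℝ) * √(n : ℝ) = (n : ℝ) := Real.mul_self_sqrt (Nat.cast_nonneg n)
  rw [div_le_iff₀ hq]
  push_cast at h5 hq ⊢
  nlinarith [sq_nonneg (√((n : ℝ) + 1) - √(n : ℝ))]

theorem inv_step (n : ℕ) (hn1 : 1 ≤ n) : 1 / (((n + 1 : ℕ) : ℝ) * √((n + 1 : ℕ) : ℝ)) ≤
    2 * (1 / √(n : ℝ) - 1 / √((n + 1 : ℕ) : ℝ)) := by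
  have hn : (0 : ℝ) < ((n + 1 : ℕ) : ℝ) := Nat.cast_pos.2 (Nat.succ_pos n)
  have hn0 : (0 : ℝ) < (n : ℝ) := Nat.cast_pos.2 hn1
  obtain ⟨q, hq⟩ : ∃ q, q = √((n + 1 : ℕ) : ℝ) := ⟨_, rfl⟩
  obtain ⟨r, hr⟩ : ∃ r, r = √(n : ℝ) := ⟨_, rfl⟩
  have hqp : 0 < q := by rw [hq]; exact Real.sqrt_pos.2 hn
  have hrp : 0 < r := by rw [hr]; exact Real.sqrt_pos.2 hn0
  have h5 : q * q = ((n + 1 : ℕ) : ℝ) := by rw [hq]; exact Real.mul_self_sqrt hn.le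
  have h6 : r * r = (n : ℝ) := by rw [hr]; exact Real.mul_self_sqrt hn0.le
  have h7 : q * q = r * r + 1 := by
    rw [h5, h6]
    push_cast
    ring
  have hrq : r ≤ q := by nlinarith
  rw [← hq, ← hr, ← h5]
  have h8 : 1 / r - 1 / q = (q - r) / (r * q) := by
    field_simp
  rw [h8, div_le_iff₀ (by positivity)]
  have h9 : 2 * ((q - r) / (r * q)) * (q * q * q) = 2 * (q - r) * (q * q) / r := by
    field_simp
  rw [h9, le_div_iff₀ hrp, one_mul]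
  have h10 : (q - r) * (q + r) = 1 := by linarith
  nlinarith [mul_nonneg (sub_nonneg.2 hrq) (mul_nonneg hqp.le hqp.le),
    mul_nonneg (sub_nonneg.2 hrq) (mul_nonneg hqp.le hrp.le)]

theorem up_bound (C : Chain) (hnl : ∀ x, C.p x x = 0) {B : ℝ}
    (h2 : ∀ᶠ n : ℕ in atTop, K0 C (2 * n) 0 ≤ B * ((2 * n : ℕ) : ℝ) ^ (-(3 / 2 : ℝ))) :
    ∃ B' : ℝ, 0 ≤ B' ∧ ∀ n : ℕ, 1 ≤ n → K0 C n 1 ≤ B' * (n : ℝ) ^ (-(3 / 2 : ℝ)) := by
  obtain ⟨N, hN⟩ := eventually_atTop.1 h2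
  have hp := STail.up C
  refine ⟨(C.p 0 1)⁻¹ * |B| + ((2 * N + 2 : ℕ) : ℝ) ^ (3 / 2 : ℝ), by positivity,
    fun n hn => ?_⟩
  have hn0 : (0 : ℝ) < n := by exact_mod_cast hn
  have hpw : 0 < (n : ℝ) ^ (-(3 / 2 : ℝ)) := Real.rpow_pos_of_pos hn0 _
  have hNp : 0 ≤ ((2 * N + 2 : ℕ) : ℝ) ^ (3 / 2 : ℝ) := Real.rpow_nonneg (Nat.cast_nonneg _) _
  have hpi : 0 < (C.p 0 1)⁻¹ := inv_pos.2 hp
  rcases Nat.even_or_odd n with he | ho
  · have h0 : K0 C n 1 = 0 := by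
      apply MP_daa227_pr.K0_parity hnl
      intro h
      obtain ⟨k, hk⟩ := he
      obtain ⟨l, hl⟩ := h
      omega
    rw [h0]
    positivity
  · by_cases hs : n < 2 * N + 2
    · have h2 : K0 C n 1 ≤ 1 := STail.le_one C n 1
      have h3 : 1 ≤ ((2 * N + 2 : ℕ) : ℝ) ^ (3 / 2 : ℝ) * (n : ℝ) ^ (-(3 / 2 : ℝ)) := by
        rw [Real.rpow_neg hn0.le, ← div_eq_mul_inv, one_le_div (Real.rpow_pos_of_pos hn0 _)]
        apply Real.rpow_le_rpow hn0.le _ (by norm_num)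
        exact_mod_cast hs.le
      have h4 : 0 ≤ (C.p 0 1)⁻¹ * |B| * (n : ℝ) ^ (-(3 / 2 : ℝ)) := by positivity
      rw [add_mul]
      linarith
    · obtain ⟨m, hm⟩ := ho
      have h2 := STail.step C n
      have h3 := hN (m + 1) (by omega)
      rw [show 2 * (m + 1) = n + 1 by omega] at h3
      have h4 : ((n + 1 : ℕ) : ℝ) ^ (-(3 / 2 : ℝ)) ≤ (n : ℝ) ^ (-(3 / 2 : ℝ)) := by
        apply Real.rpow_le_rpow_of_nonpos hn0
        · push_cast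
          linarith
        · norm_num
      have h40 : 0 ≤ ((n + 1 : ℕ) : ℝ) ^ (-(3 / 2 : ℝ)) :=
        Real.rpow_nonneg (Nat.cast_nonneg _) _
      have h41 : B * ((n + 1 : ℕ) : ℝ) ^ (-(3 / 2 : ℝ)) ≤ |B| * (n : ℝ) ^ (-(3 / 2 : ℝ)) :=
        mul_le_mul (le_abs_self B) h4 h40 (abs_nonneg B)
      have h5 : K0 C n 1 ≤ (C.p 0 1)⁻¹ * |B| * (n : ℝ) ^ (-(3 / 2 : ℝ)) := by
        rw [mul_assoc, ← div_eq_inv_mul, le_div_iff₀ hp, mul_comm]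
        exact (h2.trans h3).trans h41
      have h6 : 0 ≤ ((2 * N + 2 : ℕ) : ℝ) ^ (3 / 2 : ℝ) * (n : ℝ) ^ (-(3 / 2 : ℝ)) := by
        positivity
      rw [add_mul]
      linarith

end MTail

/-- `∑ n^(-3/2) (1 - e^(-sn)) ≤ ∑_{n ≤ 1/s} s n^(-1/2) + ∑_{n > 1/s} n^(-3/2) ≤ A √s`
(compare the sums with integrals, or telescope `√n` and `1/√n`) -/
theorem ftail_half (C : Chain) {B : ℝ}
    (h : ∀ n : ℕ, 1 ≤ n → K0 C n 1 ≤ B * (n : ℝ) ^ (-(3 / 2 : ℝ))) : FTail C (1 / 2) := by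
  have hB : 0 ≤ B := by
    have h1 := h 1 le_rfl
    have h2 := MP_daa227_pr.K0_nonneg C 1 1
    rw [Nat.cast_one, Real.one_rpow, mul_one] at h1
    linarith
  refine ⟨2 * B + 2 * B * 2, by positivity, fun s hs hs1 N => ?_⟩
  obtain ⟨a, ha⟩ : ∃ a : ℕ → ℝ, a = fun n : ℕ => K0 C n 1 * (1 - Real.exp (-(s * n))) :=
    ⟨_, rfl⟩
  have hfn : ∀ n : ℕ, 0 ≤ 1 - Real.exp (-(s * n)) := fun n => by
    have : Real.exp (-(s * n)) ≤ 1 := Real.exp_le_one_iff.2 (by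
      have : 0 ≤ s * (n : ℝ) := by positivity
      linarith)
    linarith
  have ha0 : ∀ n, 0 ≤ a n := fun n => by
    rw [ha]
    exact mul_nonneg (MP_daa227_pr.K0_nonneg C n 1) (hfn n)
  have haz : a 0 = 0 := by
    rw [ha]
    have : K0 C 0 1 = 0 := rfl
    simp [this]
  -- the two bounds of a term
  have hb1 : ∀ n : ℕ, a (n + 1) ≤ 2 * B * s * (√((n + 1 : ℕ) : ℝ) - √(n : ℝ)) := by
    intro n
    have hn : (0 : ℝ) < ((n + 1 : ℕ) : ℝ) := Nat.cast_pos.2 (Nat.succ_pos n)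
    have h1 : 1 - Real.exp (-(s * ((n + 1 : ℕ) : ℝ))) ≤ s * ((n + 1 : ℕ) : ℝ) := by
      have := Real.add_one_le_exp (-(s * ((n + 1 : ℕ) : ℝ)))
      linarith
    have h2 : a (n + 1) ≤ B * ((n + 1 : ℕ) : ℝ) ^ (-(3 / 2 : ℝ)) * (s * ((n + 1 : ℕ) : ℝ)) := by
      rw [ha]
      exact mul_le_mul (h (n + 1) (by omega)) h1 (hfn _)
        (mul_nonneg hB (Real.rpow_nonneg hn.le _))
    refine h2.trans ?_
    rw [MTail.rpow_sqrt hn]
    have h4 := MTail.sqrt_step n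
    have hq : 0 < √((n + 1 : ℕ) : ℝ) := Real.sqrt_pos.2 hn
    have h5 : √((n + 1 : ℕ) : ℝ) * √((n + 1 : ℕ) : ℝ) = ((n + 1 : ℕ) : ℝ) :=
      Real.mul_self_sqrt hn.le
    have h6 : B * (1 / (((n + 1 : ℕ) : ℝ) * √((n + 1 : ℕ) : ℝ))) * (s * ((n + 1 : ℕ) : ℝ)) =
        B * s * (1 / √((n + 1 : ℕ) : ℝ)) := by
      field_simp
    rw [h6]
    calc B * s * (1 / √((n + 1 : ℕ) : ℝ)) ≤ B * s * (2 * (√((n + 1 : ℕ) : ℝ) - √(n : ℝ))) :=
          mul_le_mul_of_nonneg_left h4 (mul_nonneg hB hs.le)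
      _ = _ := by ring
  have hb2 : ∀ n : ℕ, 1 ≤ n → a (n + 1) ≤ 2 * B * (1 / √(n : ℝ) - 1 / √((n + 1 : ℕ) : ℝ)) := by
    intro n hn1
    have hn : (0 : ℝ) < ((n + 1 : ℕ) : ℝ) := Nat.cast_pos.2 (Nat.succ_pos n)
    have h1 : 1 - Real.exp (-(s * ((n + 1 : ℕ) : ℝ))) ≤ 1 := by
      have := Real.exp_pos (-(s * ((n + 1 : ℕ) : ℝ)))
      linarith
    have h2 : a (n + 1) ≤ B * ((n + 1 : ℕ) : ℝ) ^ (-(3 / 2 : ℝ)) * 1 := by
      rw [ha]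
      exact mul_le_mul (h (n + 1) (by omega)) h1 (hfn _)
        (mul_nonneg hB (Real.rpow_nonneg hn.le _))
    refine h2.trans ?_
    rw [MTail.rpow_sqrt hn, mul_one]
    have h4 := MTail.inv_step n hn1
    calc B * (1 / (((n + 1 : ℕ) : ℝ) * √((n + 1 : ℕ) : ℝ)))
        ≤ B * (2 * (1 / √(n : ℝ) - 1 / √((n + 1 : ℕ) : ℝ))) := mul_le_mul_of_nonneg_left h4 hB
      _ = _ := by ring
  have hs1' : ∀ M : ℕ, ∑ n ∈ range (M + 1), a n ≤ 2 * B * s * √(M : ℝ) := by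
    intro M
    induction M with
    | zero => simp [haz]
    | succ M ih =>
      rw [Finset.sum_range_succ]
      have := hb1 M
      linarith
  have hs2' : ∀ M : ℕ, 1 ≤ M → ∀ K : ℕ, ∑ k ∈ range K, a (M + 1 + k) ≤
      2 * B * (1 / √(M : ℝ) - 1 / √((M + K : ℕ) : ℝ)) := by
    intro M hM K
    induction K with
    | zero => simp
    | succ K ih =>
      rw [Finset.sum_range_succ]
      have h3 := hb2 (M + K) (by omega)
      rw [show M + K + 1 = M + 1 + K by ring] at h3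
      rw [show M + (K + 1) = M + 1 + K by ring]
      linarith
  obtain ⟨M, hM⟩ : ∃ M, M = ⌊1 / s⌋₊ := ⟨_, rfl⟩
  have h1s : 1 ≤ 1 / s := (one_le_div hs).2 hs1
  have hM1 : 1 ≤ M := by
    rw [hM]
    exact Nat.le_floor (by simpa using h1s)
  have hMle : (M : ℝ) ≤ 1 / s := by
    rw [hM]
    exact Nat.floor_le (by positivity)
  have hMge : 1 / s ≤ 2 * M := by
    have h3 := Nat.lt_floor_add_one (1 / s)
    rw [← hM] at h3
    have h4 : (1 : ℝ) ≤ M := by exact_mod_cast hM1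
    linarith
  have hMpos : (0 : ℝ) < M := by exact_mod_cast hM1
  have e1 : ∑ n ∈ range N, a n ≤ ∑ n ∈ range (M + 1 + N), a n :=
    Finset.sum_le_sum_of_subset_of_nonneg (Finset.range_subset_range.2 (by omega))
      (fun n _ _ => ha0 n)
  rw [Finset.sum_range_add] at e1
  have e2 := hs1' M
  have e3 := hs2' M hM1 N
  have hsq : s * √(M : ℝ) ≤ √s := by
    have h3 : √(M : ℝ) ≤ √(1 / s) := Real.sqrt_le_sqrt hMle
    have h4 : s * √(1 / s) = √s := by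
      rw [Real.sqrt_div zero_le_one, Real.sqrt_one, mul_one_div]
      exact Real.div_sqrt
    calc s * √(M : ℝ) ≤ s * √(1 / s) := mul_le_mul_of_nonneg_left h3 hs.le
      _ = √s := h4
  have hsi : 1 / √(M : ℝ) ≤ 2 * √s := by
    have hq : 0 < √(M : ℝ) := Real.sqrt_pos.2 hMpos
    rw [div_le_iff₀ hq]
    have h3 : 1 ≤ s * (2 * M) := by
      rw [div_le_iff₀ hs] at hMge
      linarith
    have h4 : √s * √(M : ℝ) = √(s * M) := (Real.sqrt_mul hs.le _).symm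
    rw [mul_assoc, h4]
    have h5 : 1 / 2 ≤ √(s * M) := by
      apply Real.le_sqrt_of_sq_le
      nlinarith
    linarith
  have e4 : 0 ≤ 1 / √((M + N : ℕ) : ℝ) := by positivity
  rw [show (∑ n ∈ range N, K0 C n 1 * (1 - Real.exp (-(s * n)))) = ∑ n ∈ range N, a n by rw [ha],
    ← Real.sqrt_eq_rpow]
  have e5 : 2 * B * (1 / √(M : ℝ) - 1 / √((M + N : ℕ) : ℝ)) ≤ 2 * B * (2 * √s) :=
    mul_le_mul_of_nonneg_left (by linarith) (by positivity)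
  have e6 : 2 * B * (s * √(M : ℝ)) ≤ 2 * B * √s := mul_le_mul_of_nonneg_left hsq (by positivity)
  have e7 : 2 * B * s * √(M : ℝ) = 2 * B * (s * √(M : ℝ)) := by ring
  rw [e7] at e2
  linarith

/-- `C.p 0 1 * K0 C (2n-1) 1 = C.p 0 1 * fp C (n-1)` is positive for `n ≥ 1` (`OT.Kp_pos`) and
at most `K0 C (2n) 0` (`TailK.step_le`), also for the left (`cneg`, `AZ.Kv_cneg`, `AZ.Kv_K0`:
`K0 (cneg C) n 0 = K0 C n 0`); `K0 C n 1 = 0` for even `n` (`hnl`, parity); finitely many `n`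
are absorbed in the constants; `ftail_half`. -/
theorem half_data (C : Chain) (hnl : ∀ x, C.p x x = 0) {c B : ℝ} (hc : 0 < c)
    (h1 : ∀ᶠ n : ℕ in atTop,
      c * ((2 * n : ℕ) : ℝ) ^ (-(3 / 2 : ℝ)) ≤ C.p 0 1 * K0 C (2 * n - 1) 1)
    (h2 : ∀ᶠ n : ℕ in atTop, K0 C (2 * n) 0 ≤ B * ((2 * n : ℕ) : ℝ) ^ (-(3 / 2 : ℝ))) :
    ∃ c' B' : ℝ, 0 < c' ∧
      (∀ n : ℕ, 1 ≤ n → c' * (n : ℝ) ^ (-(3 / 2 : ℝ)) ≤ AZ.A24.fp C n) ∧
      (∀ n : ℕ, 1 ≤ n → AZ.A24.fp C n ≤ B' * (n : ℝ) ^ (-(3 / 2 : ℝ))) ∧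
      FTail C (1 / 2) ∧ FTail (AZ.cneg C) (1 / 2) := by
  obtain ⟨B1, hB1, hu1⟩ := MTail.up_bound C hnl h2
  obtain ⟨B2, hB2, hu2⟩ := MTail.up_bound (AZ.cneg C) (AZ.cneg_nl hnl) (B := B)
    (by simpa only [STail.cneg_K0] using h2)
  obtain ⟨N, hN⟩ := eventually_atTop.1 h1
  have hfp : ∀ n, 0 < AZ.A24.fp C n := by
    intro n
    have h3 : 0 < OT.Kp C (n + 1) := OT.Kp_pos C (by omega)
    rw [AZ.A24.fp_eq] at h3
    exact (mul_pos_iff_of_pos_left (STail.up C)).1 h3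
  refine ⟨min (c / 8) (AZ.A24.fp C N), B1, lt_min (by positivity) (hfp N), fun n hn => ?_,
    fun n hn => ?_, ftail_half C hu1, ftail_half _ hu2⟩
  · have hn0 : (0 : ℝ) < n := by exact_mod_cast hn
    have hpw : 0 < (n : ℝ) ^ (-(3 / 2 : ℝ)) := Real.rpow_pos_of_pos hn0 _
    rcases le_total N n with hNn | hNn
    · have h3 := hN (n + 1) (by omega)
      rw [show 2 * (n + 1) - 1 = 2 * n + 1 by omega] at h3
      have h4 : C.p 0 1 * K0 C (2 * n + 1) 1 ≤ AZ.A24.fp C n :=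
        mul_le_of_le_one_left (AZ.A24.fp_nonneg C n) (AZ.A24.p01_le C)
      have h5 : (4 * (n : ℝ)) ^ (-(3 / 2 : ℝ)) ≤ ((2 * (n + 1) : ℕ) : ℝ) ^ (-(3 / 2 : ℝ)) := by
        apply Real.rpow_le_rpow_of_nonpos
        · positivity
        · have : (1 : ℝ) ≤ n := by exact_mod_cast hn
          push_cast
          linarith
        · norm_num
      have h6 : (4 * (n : ℝ)) ^ (-(3 / 2 : ℝ)) = 1 / 8 * (n : ℝ) ^ (-(3 / 2 : ℝ)) := by
        rw [Real.mul_rpow (by norm_num) hn0.le]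
        congr 1
        rw [show (4 : ℝ) = 2 ^ (2 : ℝ) by norm_num, ← Real.rpow_mul (by norm_num)]
        norm_num
      calc min (c / 8) (AZ.A24.fp C N) * (n : ℝ) ^ (-(3 / 2 : ℝ))
          ≤ c / 8 * (n : ℝ) ^ (-(3 / 2 : ℝ)) :=
            mul_le_mul_of_nonneg_right (min_le_left _ _) hpw.le
        _ = c * (4 * (n : ℝ)) ^ (-(3 / 2 : ℝ)) := by rw [h6]; ring
        _ ≤ c * ((2 * (n + 1) : ℕ) : ℝ) ^ (-(3 / 2 : ℝ)) := mul_le_mul_of_nonneg_left h5 hc.le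
        _ ≤ _ := h3.trans h4
    · have h3 : AZ.A24.fp C N ≤ AZ.A24.fp C n := AZ.A24.fp_anti C hnl hNn
      have h4 : (n : ℝ) ^ (-(3 / 2 : ℝ)) ≤ 1 := by
        apply Real.rpow_le_one_of_one_le_of_nonpos
        · exact_mod_cast hn
        · norm_num
      calc min (c / 8) (AZ.A24.fp C N) * (n : ℝ) ^ (-(3 / 2 : ℝ))
          ≤ AZ.A24.fp C N * 1 :=
            mul_le_mul (min_le_right _ _) h4 hpw.le (hfp N).le
        _ ≤ _ := by rw [mul_one]; exact h3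
  · have hn0 : (0 : ℝ) < n := by exact_mod_cast hn
    have h3 := hu1 (2 * n + 1) (by omega)
    refine h3.trans (mul_le_mul_of_nonneg_left ?_ hB1)
    apply Real.rpow_le_rpow_of_nonpos hn0
    · push_cast
      linarith
    · norm_num

end

end Pool.Agent.IG
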