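import Pool.Agent.Lib.MP_daa227_pr_IG.ShiftM
import Pool.Agent.Lib.MP_daa227_pr_IG.FinA
import Pool.Agent.Lib.MP_daa227_pr_IG.LightA
import Pool.Agent.Lib.MP_daa227_pr_IG.TailK
import Pool.Agent.Lib.MP_daa227_pr_AZ.Lmg

/-!
# MP_daa227_pr, marginal case: from the origin to the site `r`
-/

namespace Pool.Agent.IG

open MeasureTheory ProbabilityTheory Finset Filter Topology
open MP_daa227_pr (Chain Zk Zf Gk Gf KU K0 Ren shift seqLaw ExpMom DepOn Good GoodW mom)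
open Pool.Agent.AZ (Mod Kv lmg)
open Pool.Agent.IOrd (Sys aS cv)

noncomputable section

/-- as `AZ.A24.fp_iter`, but keep the last term -/
theorem fp_iter2 (D : Chain) (hnl : ∀ x, D.p x x = 0) (m s j : ℕ) :
    AZ.A24.fp D (m + j * (s + 1)) ≤
      1 / (1 - D.p 1 2) * AZ.A24.fp (AZ.ctr D 1) s + D.p 1 2 ^ j * AZ.A24.fp D m := by
  have hp := AZ.A24.p12_lt D
  have hp0 := AZ.A24.p12_pos D
  have hq : 0 < 1 - D.p 1 2 := by linarith
  induction j with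
  | zero =>
    rw [pow_zero, one_mul, zero_mul, add_zero]
    have h1 : 0 ≤ 1 / (1 - D.p 1 2) * AZ.A24.fp (AZ.ctr D 1) s :=
      mul_nonneg (by positivity) (AZ.A24.fp_nonneg _ _)
    linarith
  | succ j ih =>
    have h1 : m + (j + 1) * (s + 1) = s + (m + j * (s + 1)) + 1 := by ring
    rw [h1]
    refine (AZ.A24.fp_split D hnl s (m + j * (s + 1))).trans ?_
    have h2 : D.p 1 2 * (AZ.A24.fp (AZ.ctr D 1) s + AZ.A24.fp D (m + j * (s + 1))) ≤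
        D.p 1 2 * (AZ.A24.fp (AZ.ctr D 1) s +
          (1 / (1 - D.p 1 2) * AZ.A24.fp (AZ.ctr D 1) s + D.p 1 2 ^ j * AZ.A24.fp D m)) :=
      mul_le_mul_of_nonneg_left (by linarith) hp0.le
    refine h2.trans ?_
    have h3 : D.p 1 2 * (1 + 1 / (1 - D.p 1 2)) ≤ 1 / (1 - D.p 1 2) := by
      rw [← sub_nonneg]
      have h4 : 1 / (1 - D.p 1 2) - D.p 1 2 * (1 + 1 / (1 - D.p 1 2)) = 1 - D.p 1 2 := by
        field_simp
        ring
      rw [h4]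
      exact hq.le
    have h5 := mul_le_mul_of_nonneg_right h3 (AZ.A24.fp_nonneg (AZ.ctr D 1) s)
    rw [pow_succ]
    linarith

namespace MTr

/-- one step of `fp_half` -/
theorem step (D : Chain) (hnl : ∀ x, D.p x x = 0) {c B : ℝ} (hc : 0 < c)
    (h1 : ∀ n : ℕ, 1 ≤ n → c * (n : ℝ) ^ (-(3 / 2 : ℝ)) ≤ AZ.A24.fp D n)
    (h2 : ∀ n : ℕ, 1 ≤ n → AZ.A24.fp D n ≤ B * (n : ℝ) ^ (-(3 / 2 : ℝ))) :
    ∃ c' B' : ℝ, 0 < c' ∧
      (∀ n : ℕ, 1 ≤ n → c' * (n : ℝ) ^ (-(3 / 2 : ℝ)) ≤ AZ.A24.fp (AZ.ctr D 1) n) ∧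
      ∀ n : ℕ, 1 ≤ n → AZ.A24.fp (AZ.ctr D 1) n ≤ B' * (n : ℝ) ^ (-(3 / 2 : ℝ)) := by
  have hp := AZ.A24.p12_lt D
  have hp0 := AZ.A24.p12_pos D
  have hq : 0 < 1 - D.p 1 2 := by linarith
  have hB : 0 < B := by
    have a1 := (h1 1 le_rfl).trans (h2 1 le_rfl)
    rw [Nat.cast_one, Real.one_rpow, mul_one, mul_one] at a1
    linarith
  set T : ℝ := (2 : ℝ) ^ (-(3 / 2 : ℝ)) with hT
  have hT0 : 0 < T := Real.rpow_pos_of_pos two_pos _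
  obtain ⟨j, hj⟩ : ∃ j : ℕ, D.p 1 2 ^ j < c * T / (2 * B) :=
    exists_pow_lt_of_lt_one (by positivity) hp
  have hj' : D.p 1 2 ^ (j + 1) * B ≤ c * T / 2 := by
    have a1 : D.p 1 2 ^ (j + 1) ≤ D.p 1 2 ^ j := by
      rw [pow_succ]
      exact mul_le_of_le_one_right (pow_nonneg hp0.le _) hp.le
    have a2 : D.p 1 2 ^ (j + 1) ≤ c * T / (2 * B) := a1.trans hj.le
    have a3 := mul_le_mul_of_nonneg_right a2 hB.le
    have a4 : c * T / (2 * B) * B = c * T / 2 := by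
      field_simp
    rwa [a4] at a3
  obtain ⟨c₀, hc₀, hl⟩ := K0_lift D 1
  set U : ℝ := (((j + 1 : ℕ) : ℝ) * 2) ^ (-(3 / 2 : ℝ)) with hU
  have hU0 : 0 < U := Real.rpow_pos_of_pos (by positivity) _
  refine ⟨(1 - D.p 1 2) * (c * T / 2) * U, B / c₀, by positivity, fun k hk => ?_, fun k hk => ?_⟩
  · -- the lower bound
    have hk0 : (0 : ℝ) < k := by exact_mod_cast hk
    have hk1 : (0 : ℝ) < ((k + 1 : ℕ) : ℝ) := by positivity
    set m : ℕ := (j + 1) * (k + 1) with hm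
    have hm1 : 1 ≤ m := Nat.mul_pos (by omega) (by omega)
    have hm0 : (0 : ℝ) < m := by exact_mod_cast hm1
    have a1 := h1 (m + (j + 1) * (k + 1)) (by omega)
    have a2 := fp_iter2 D hnl m k (j + 1)
    have a3 := h2 m hm1
    have a4 : ((m + (j + 1) * (k + 1) : ℕ) : ℝ) ^ (-(3 / 2 : ℝ)) =
        T * (m : ℝ) ^ (-(3 / 2 : ℝ)) := by
      rw [hT, ← Real.mul_rpow two_pos.le hm0.le, ← hm]
      congr 1
      push_cast
      ring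
    rw [a4] at a1
    have a5 : D.p 1 2 ^ (j + 1) * AZ.A24.fp D m ≤ c * T / 2 * (m : ℝ) ^ (-(3 / 2 : ℝ)) := by
      have b1 := mul_le_mul_of_nonneg_left a3 (pow_nonneg hp0.le (j + 1))
      refine b1.trans ?_
      rw [← mul_assoc]
      exact mul_le_mul_of_nonneg_right hj' (Real.rpow_nonneg hm0.le _)
    have a6 : c * T / 2 * (m : ℝ) ^ (-(3 / 2 : ℝ)) ≤
        1 / (1 - D.p 1 2) * AZ.A24.fp (AZ.ctr D 1) k := by
      have b1 : c * (T * (m : ℝ) ^ (-(3 / 2 : ℝ))) =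
          c * T / 2 * (m : ℝ) ^ (-(3 / 2 : ℝ)) + c * T / 2 * (m : ℝ) ^ (-(3 / 2 : ℝ)) := by ring
      linarith
    have a7 : U * (k : ℝ) ^ (-(3 / 2 : ℝ)) ≤ (m : ℝ) ^ (-(3 / 2 : ℝ)) := by
      rw [hU, ← Real.mul_rpow (by positivity) hk0.le]
      refine Real.rpow_le_rpow_of_nonpos hm0 ?_ (by norm_num)
      rw [hm]
      push_cast
      have b1 : (1 : ℝ) ≤ k := by exact_mod_cast hk
      have b2 : (0 : ℝ) ≤ j := Nat.cast_nonneg j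
      nlinarith
    have a8 : (1 - D.p 1 2) * (c * T / 2 * (m : ℝ) ^ (-(3 / 2 : ℝ))) ≤
        AZ.A24.fp (AZ.ctr D 1) k := by
      have b1 := mul_le_mul_of_nonneg_left a6 hq.le
      have b2 : (1 - D.p 1 2) * (1 / (1 - D.p 1 2) * AZ.A24.fp (AZ.ctr D 1) k) =
          AZ.A24.fp (AZ.ctr D 1) k := by
        field_simp
      rwa [b2] at b1
    refine le_trans ?_ a8
    have a9 : 0 ≤ (1 - D.p 1 2) * (c * T / 2) := by positivity
    calc (1 - D.p 1 2) * (c * T / 2) * U * (k : ℝ) ^ (-(3 / 2 : ℝ))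
        = (1 - D.p 1 2) * (c * T / 2) * (U * (k : ℝ) ^ (-(3 / 2 : ℝ))) := by ring
      _ ≤ (1 - D.p 1 2) * (c * T / 2) * (m : ℝ) ^ (-(3 / 2 : ℝ)) :=
          mul_le_mul_of_nonneg_left a7 a9
      _ = _ := by ring
  · -- the upper bound
    have hk0 : (0 : ℝ) < k := by exact_mod_cast hk
    have a1 := hl (2 * k + 1)
    have a2 := h2 (k + 1) (by omega)
    have a3 : c₀ * AZ.A24.fp (AZ.ctr D 1) k ≤ AZ.A24.fp D (k + 1) := a1
    have a4 : ((k + 1 : ℕ) : ℝ) ^ (-(3 / 2 : ℝ)) ≤ (k : ℝ) ^ (-(3 / 2 : ℝ)) :=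
      Real.rpow_le_rpow_of_nonpos hk0 (by push_cast; linarith) (by norm_num)
    rw [div_mul_eq_mul_div, le_div_iff₀ hc₀, mul_comm]
    exact a3.trans (a2.trans (mul_le_mul_of_nonneg_left a4 hB.le))

end MTr

/-- One step `D → ctr D 1`: `c n^(-3/2) ≤ fp D n ≤ C n^(-3/2)` and `fp_iter2` with
`n = m + j (s+1)`, `s + 1 = ⌊n/(2j)⌋`, `m ≥ n/2`, `j` fixed with `p12^j C 2^(3/2) ≤ c/2`: so
`fp (ctr D 1) s ≥ c' n^(-3/2)`. Upper bound: `TailK.K0_lift` (with `r = 1`). Then induction on `r`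
(`AZ.A24.ctr_ctr`). -/
theorem fp_half (C : Chain) (hnl : ∀ x, C.p x x = 0) {c B : ℝ} (hc : 0 < c)
    (h1 : ∀ n : ℕ, 1 ≤ n → c * (n : ℝ) ^ (-(3 / 2 : ℝ)) ≤ AZ.A24.fp C n)
    (h2 : ∀ n : ℕ, 1 ≤ n → AZ.A24.fp C n ≤ B * (n : ℝ) ^ (-(3 / 2 : ℝ))) (r : ℕ) :
    ∃ c' B' : ℝ, 0 < c' ∧
      (∀ n : ℕ, 1 ≤ n → c' * (n : ℝ) ^ (-(3 / 2 : ℝ)) ≤ AZ.A24.fp (AZ.ctr C r) n) ∧
      ∀ n : ℕ, 1 ≤ n → AZ.A24.fp (AZ.ctr C r) n ≤ B' * (n : ℝ) ^ (-(3 / 2 : ℝ)) := by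
  induction r with
  | zero =>
    rw [Nat.cast_zero, AZ.A24.ctr_zero]
    exact ⟨c, B, hc, h1, h2⟩
  | succ r ih =>
    obtain ⟨c₁, B₁, hc₁, a1, a2⟩ := ih
    have h3 := MTr.step _ (AZ.ctr_nl hnl r) hc₁ a1 a2
    rw [AZ.A24.ctr_ctr] at h3
    rw [Nat.cast_succ]
    exact h3

namespace MTr

theorem mom_pos {μ : Measure ℝ} [IsProbabilityMeasure μ] {p : ℝ} {F : (ℕ → ℝ) → ℝ}
    (hF : Measurable F) (h : ∀ ω, 0 < F ω) : mom μ p F ≠ 0 := by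
  unfold mom
  intro h0
  rw [lintegral_eq_zero_iff (MP_daa227_pr.measurable_momf hF)] at h0
  obtain ⟨ω, hω⟩ := h0.exists
  have h1 : ENNReal.ofReal (F ω) ^ p ≠ 0 :=
    (ENNReal.rpow_pos (ENNReal.ofReal_pos.2 (h ω)) ENNReal.ofReal_ne_top).ne'
  exact h1 hω

theorem Zd_shM (M : Mod) (r : ℤ) (h : ℝ) (n : ℕ) :
    AZ.Zd (shM M r).C ((shM M r).v h) n 0 0 = AZ.Zd M.C (M.v h) n r r := by
  have e := zk_ctr M.C (fun _ z => Real.exp (M.v h z)) r n (fun _ => 0) 0 0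
  rw [zero_add] at e
  exact e

theorem small_min {a : ℕ → ℝ} (ha : ∀ n, 1 ≤ n → 0 < a n) (N : ℕ) :
    ∃ c : ℝ, 0 < c ∧ ∀ n, 1 ≤ n → n < N → c ≤ a n := by
  induction N with
  | zero => exact ⟨1, one_pos, fun n _ h => absurd h (Nat.not_lt_zero _)⟩
  | succ N ih =>
    obtain ⟨c, hc, h⟩ := ih
    rcases Nat.eq_zero_or_pos N with h0 | h0
    · exact ⟨c, hc, fun n h1 h2 => by omega⟩
    · refine ⟨min c (a N), lt_min hc (ha N h0), fun n h1 h2 => ?_⟩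
      rcases Nat.lt_succ_iff_lt_or_eq.1 h2 with h3 | h3
      · exact (min_le_left _ _).trans (h n h1 h3)
      · rw [h3]
        exact min_le_right _ _

theorem Kv_eq_K0 (D : Chain) {w : ℤ → ℝ} (hw : ∀ z, 0 ≤ z → w z = 0) : ∀ (n : ℕ) (x : ℤ), 1 ≤ x →
    Kv D w n x = K0 D n x
  | 0, _, _ => rfl
  | n + 1, x, hx => by
    rw [AZ.Kv_succ, K0, hw 0 le_rfl, Real.exp_zero, mul_one]
    congr 1
    refine Finset.sum_congr rfl fun z hz => ?_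
    rw [Finset.mem_sdiff, Finset.mem_Icc, Finset.mem_singleton] at hz
    rw [hw z (by omega), Real.exp_zero, mul_one, Kv_eq_K0 D hw n z (by omega)]

end MTr

/-- `ShiftM.path_le`, `ShiftM.shM_Z`: the two end pieces use other charges than the middle one
(`mom_mul_shift`-like factorisation, see Lib/MP_daa227_pr_IG/ShiftM.lean and MomStr.lean) and have
positive moments, so `c mom (Z' (2n)) ≤ mom (Z (2n + 2|r|)) ≤ K`. -/
theorem mom_shM (M : Mod) (r : ℤ) {h p K : ℝ} (hp : 0 < p)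
    (hb : ∀ n : ℕ, mom M.μ p (fun ω => M.Z h (2 * n) ω) ≤ ENNReal.ofReal K) :
    ∃ K' : ℝ, ∀ n : ℕ, mom M.μ p (fun ω => (shM M r).Z h (2 * n) ω) ≤ ENNReal.ofReal K' := by
  set q := r.natAbs with hq
  have gA := M.good_Zk h q 0 r
  have gB := M.good_Zk h q r 0
  have pA : ∀ ω, 0 < Zk M.C (M.W h) q ω 0 r := fun ω =>
    MP_daa227_pr.Zk_from_zero_pos (M.W_pos h) ω r
  have pB : ∀ ω, 0 < Zk M.C (M.W h) q ω r 0 := fun ω => ShiftM.to_zero_pos (M.W_pos h) ω r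
  have mA := MTr.mom_pos (μ := M.μ) (p := p) gA.meas pA
  have mB := MTr.mom_pos (μ := M.μ) (p := p) gB.meas pB
  set D := mom M.μ p (fun ω => Zk M.C (M.W h) q ω 0 r) *
    mom M.μ p (fun ω => Zk M.C (M.W h) q ω r 0) with hD
  have hD0 : D ≠ 0 := mul_ne_zero mA mB
  refine ⟨(ENNReal.ofReal K / D).toReal, fun n => ?_⟩
  rw [ENNReal.ofReal_toReal (ENNReal.div_ne_top ENNReal.ofReal_ne_top hD0)]
  rw [ENNReal.le_div_iff_mul_le (Or.inl hD0) (Or.inr ENNReal.ofReal_ne_top)]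
  rw [MP_daa227_pr.mom_congr (fun ω => ShiftM.shM_Z M r h (2 * n) ω)]
  have gZ := M.good_Zk h (2 * n) r r
  have e1 := MP_daa227_pr.mom_mul_shift (μ := M.μ) hp.le (k := 2 * n)
    (F := fun ω => Zk M.C (M.W h) (2 * n) ω r r) (G := fun ω => Zk M.C (M.W h) q ω r 0)
    gZ.meas gB.meas gZ.depOn gZ.nonneg
  have gZB := gZ.mul_shift gB
  have e2 := MP_daa227_pr.mom_mul_shift (μ := M.μ) hp.le (k := q)
    (F := fun ω => Zk M.C (M.W h) q ω 0 r)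
    (G := fun ω => Zk M.C (M.W h) (2 * n) ω r r * Zk M.C (M.W h) q (shift (2 * n) ω) r 0)
    gA.meas gZB.meas gA.depOn gA.nonneg
  have e3 : mom M.μ p (fun ω => Zk M.C (M.W h) q ω 0 r * (Zk M.C (M.W h) (2 * n) (shift q ω) r r *
      Zk M.C (M.W h) q (shift (2 * n) (shift q ω)) r 0)) ≤
      mom M.μ p (fun ω => M.Z h (2 * (n + q)) ω) := by
    refine MP_daa227_pr.mom_mono hp.le fun ω => ?_
    have a1 := ShiftM.path_le M r h (2 * n) ω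
    rw [MP_daa227_pr.shift_shift]
    rw [show r.natAbs + (2 * n + r.natAbs) = 2 * (n + q) by omega] at a1
    exact a1
  have e4 := (e2.symm.le.trans e3).trans (hb (n + q))
  rw [e1] at e4
  refine le_trans (le_of_eq ?_) e4
  rw [hD]
  ring

/-- `Zd (shM) n 0 0 = Zd M n r r` (as `ShiftM.shM_Z`), `Zd_mul_le` twice:
`Zd n r r ≥ c Zd (n - 2|r|) 0 0` -/
theorem u_shM (M : Mod) (r : ℤ) {h c : ℝ} (hc : 0 < c)
    (hU : ∀ N : ℕ, 1 ≤ N → c * Real.sqrt N ≤ ∑ n ∈ range N, AZ.Zd M.C (M.v h) (2 * n) 0 0) :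
    ∃ c' : ℝ, 0 < c' ∧ ∀ N : ℕ, 1 ≤ N → c' * Real.sqrt N ≤
      ∑ n ∈ range N, AZ.Zd (shM M r).C ((shM M r).v h) (2 * n) 0 0 := by
  set q := r.natAbs with hq
  set a : ℕ → ℝ := fun n => AZ.Zd M.C (M.v h) (2 * n) 0 0 with ha
  set b : ℕ → ℝ := fun n => AZ.Zd M.C (M.v h) (2 * n) r r with hb
  have pA : 0 < AZ.Zd M.C (M.v h) q 0 r :=
    MP_daa227_pr.Zk_from_zero_pos (fun _ z => Real.exp_pos _) (fun _ => 0) r
  have pB : 0 < AZ.Zd M.C (M.v h) q r 0 :=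
    ShiftM.to_zero_pos (fun _ z => Real.exp_pos _) (fun _ => 0) r
  set c₁ : ℝ := AZ.Zd M.C (M.v h) q r 0 * AZ.Zd M.C (M.v h) q 0 r with hc₁
  have hc₁0 : 0 < c₁ := mul_pos pB pA
  have hb0 : ∀ n, 0 ≤ b n := fun n => AZ.Zd_nonneg _ _ _ _ _
  have hstep : ∀ n, c₁ * a n ≤ b (n + q) := by
    intro n
    have a1 := AZ.Zd_mul_le M.C (M.v h) (2 * n) q 0 0 r
    have a2 := AZ.Zd_mul_le M.C (M.v h) q (2 * n + q) r 0 r
    have a3 := mul_le_mul_of_nonneg_left a1 pB.le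
    have a4 := a3.trans a2
    rw [show q + (2 * n + q) = 2 * (n + q) by ring] at a4
    refine le_trans (le_of_eq ?_) a4
    rw [hc₁, ha]
    ring
  have hq1 : (0 : ℝ) < Real.sqrt ((q : ℝ) + 1) := Real.sqrt_pos.2 (by positivity)
  have hcc : 0 < min (c₁ * c) 1 := lt_min (mul_pos hc₁0 hc) one_pos
  refine ⟨min (c₁ * c) 1 / Real.sqrt ((q : ℝ) + 1), div_pos hcc hq1, fun N hN => ?_⟩
  have e1 : ∑ n ∈ range N, AZ.Zd (shM M r).C ((shM M r).v h) (2 * n) 0 0 =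
      ∑ n ∈ range N, b n := Finset.sum_congr rfl fun n _ => MTr.Zd_shM M r h (2 * n)
  rw [e1]
  rcases Nat.lt_or_ge N (q + 1) with hNq | hNq
  · have a1 : b 0 ≤ ∑ n ∈ range N, b n :=
      Finset.single_le_sum (fun n _ => hb0 n) (Finset.mem_range.2 hN)
    have a2 : b 0 = 1 := AZ.Zd_zero M.C (M.v h) r
    rw [a2] at a1
    refine le_trans ?_ a1
    have a3 : Real.sqrt N ≤ Real.sqrt ((q : ℝ) + 1) := by
      refine Real.sqrt_le_sqrt ?_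
      have : (N : ℝ) ≤ ((q + 1 : ℕ) : ℝ) := by exact_mod_cast hNq.le
      push_cast at this
      exact this
    rw [div_mul_eq_mul_div, div_le_one hq1]
    calc min (c₁ * c) 1 * Real.sqrt N ≤ 1 * Real.sqrt N :=
          mul_le_mul_of_nonneg_right (min_le_right _ _) (Real.sqrt_nonneg _)
      _ = Real.sqrt N := one_mul _
      _ ≤ _ := a3
  · obtain ⟨L, hL⟩ : ∃ L, N = q + L := ⟨N - q, by omega⟩
    have hL1 : 1 ≤ L := by omega
    have a1 : ∑ n ∈ range L, b (q + n) ≤ ∑ n ∈ range N, b n := by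
      rw [hL, Finset.sum_range_add]
      have : 0 ≤ ∑ n ∈ range q, b n := Finset.sum_nonneg fun n _ => hb0 n
      linarith
    have a2 : c₁ * ∑ n ∈ range L, a n ≤ ∑ n ∈ range L, b (q + n) := by
      rw [Finset.mul_sum]
      refine Finset.sum_le_sum fun n _ => ?_
      rw [add_comm q n]
      exact hstep n
    have a3 := mul_le_mul_of_nonneg_left (hU L hL1) hc₁0.le
    have a4 : Real.sqrt N ≤ Real.sqrt ((q : ℝ) + 1) * Real.sqrt L := by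
      rw [← Real.sqrt_mul (by positivity)]
      refine Real.sqrt_le_sqrt ?_
      have b1 : (1 : ℝ) ≤ L := by exact_mod_cast hL1
      have b2 : (0 : ℝ) ≤ q := Nat.cast_nonneg q
      rw [hL]
      push_cast
      nlinarith
    refine le_trans ?_ (a3.trans (a2.trans a1))
    rw [div_mul_eq_mul_div, div_le_iff₀ hq1]
    calc min (c₁ * c) 1 * Real.sqrt N ≤ c₁ * c * Real.sqrt N :=
          mul_le_mul_of_nonneg_right (min_le_left _ _) (Real.sqrt_nonneg _)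
      _ ≤ c₁ * c * (Real.sqrt ((q : ℝ) + 1) * Real.sqrt L) :=
          mul_le_mul_of_nonneg_left a4 (mul_pos hc₁0 hc).le
      _ = _ := by ring

/-- `lower_v` with `v = M.v h`: above `r ≥ R` the potential vanishes (`lmg 0 = 0`), so
`Kv (ctr C r) (v (· + r)) (2k+1) 1 = fp (ctr C r) k` (only the sites `> r` and the endpoint `r` are
seen; use `Kv_congr`-like induction, or `v (z + r) = 0` for `z ≥ 0`), `fp_half`; small `n` by
`Kv_even_pos` -/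
theorem g_half (M : Mod) {R : ℕ} (hφ : ∀ z : ℤ, (R : ℤ) ≤ z → M.φ z = 0) {c B : ℝ} (hc : 0 < c)
    (h1 : ∀ n : ℕ, 1 ≤ n → c * (n : ℝ) ^ (-(3 / 2 : ℝ)) ≤ AZ.A24.fp M.C n)
    (h2 : ∀ n : ℕ, 1 ≤ n → AZ.A24.fp M.C n ≤ B * (n : ℝ) ^ (-(3 / 2 : ℝ))) (h : ℝ) :
    ∃ c' : ℝ, 0 < c' ∧ ∀ n : ℕ, 1 ≤ n → c' * (n : ℝ) ^ (-(3 / 2 : ℝ)) ≤ M.g h (2 * n) := by
  set r : ℕ := max R 1 with hr
  have hr1 : 1 ≤ r := le_max_right _ _
  have hRr : R ≤ r := le_max_left _ _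
  obtain ⟨c₁, hc₁, hl⟩ := lower_v M.C (M.v h) hr1
  obtain ⟨c₂, B₂, hc₂, hlow, -⟩ := fp_half M.C M.hnl hc h1 h2 r
  have hv : ∀ z : ℤ, 0 ≤ z → M.v h (z + r) = 0 := by
    intro z hz
    have hφz : M.φ (z + r) = 0 := hφ _ (by omega)
    have := M.prob
    unfold Mod.v
    rw [hφz, mul_zero, mul_zero, AZ.lmg_zero, sub_zero]
  have hKv : ∀ k : ℕ, Kv (AZ.ctr M.C r) (fun z => M.v h (z + r)) (2 * k + 1) 1 =
      AZ.A24.fp (AZ.ctr M.C r) k := fun k =>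
    MTr.Kv_eq_K0 (AZ.ctr M.C r) (w := fun z => M.v h (z + r)) hv (2 * k + 1) 1 le_rfl
  obtain ⟨c₃, hc₃, hsm⟩ := MTr.small_min (a := fun n => M.g h (2 * n))
    (fun n hn => AZ.Kv_even_pos M.C _ hn) (r + 2)
  refine ⟨min (c₁ * c₂) c₃, lt_min (mul_pos hc₁ hc₂) hc₃, fun n hn => ?_⟩
  have hn0 : (0 : ℝ) < n := by exact_mod_cast hn
  have hpn : 0 ≤ (n : ℝ) ^ (-(3 / 2 : ℝ)) := Real.rpow_nonneg hn0.le _
  rcases Nat.lt_or_ge n (r + 2) with hnr | hnr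
  · refine le_trans ?_ (hsm n hn hnr)
    have a1 : (n : ℝ) ^ (-(3 / 2 : ℝ)) ≤ 1 :=
      Real.rpow_le_one_of_one_le_of_nonpos (by exact_mod_cast hn) (by norm_num)
    calc min (c₁ * c₂) c₃ * (n : ℝ) ^ (-(3 / 2 : ℝ)) ≤ c₃ * 1 :=
          mul_le_mul (min_le_right _ _) a1 hpn hc₃.le
      _ = c₃ := mul_one _
  · obtain ⟨k, hk⟩ : ∃ k, n = k + (r + 1) := ⟨n - (r + 1), by omega⟩
    have hk1 : 1 ≤ k := by omega
    have hk0 : (0 : ℝ) < k := by exact_mod_cast hk1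
    have a1 := hl k
    rw [hKv, ← hk] at a1
    have a2 := mul_le_mul_of_nonneg_left (hlow k hk1) hc₁.le
    have a3 : (n : ℝ) ^ (-(3 / 2 : ℝ)) ≤ (k : ℝ) ^ (-(3 / 2 : ℝ)) :=
      Real.rpow_le_rpow_of_nonpos hk0 (by exact_mod_cast (by omega : k ≤ n)) (by norm_num)
    refine le_trans ?_ (a2.trans a1)
    calc min (c₁ * c₂) c₃ * (n : ℝ) ^ (-(3 / 2 : ℝ)) ≤ c₁ * c₂ * (k : ℝ) ^ (-(3 / 2 : ℝ)) :=
          mul_le_mul (min_le_left _ _) a3 hpn (mul_pos hc₁ hc₂).le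
      _ = _ := by ring

end

end Pool.Agent.IG
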