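import Pool.Agent.Lib.MP_daa227_pr_IG.Defs
import Pool.Agent.Lib.MP_daa227_pr_IO.NumA

/-!
# MP_daa227_pr, general potentials: the numbers
-/

namespace Pool.Agent.IG

open MeasureTheory ProbabilityTheory Finset Filter Topology
open MP_daa227_pr (Chain Zk Zf Gk Gf KU K0 Ren shift seqLaw ExpMom DepOn Good GoodW mom)
open Pool.Agent.AZ (Mod Kv lmg)
open Pool.Agent.IOrd (Sys aS cv)

noncomputable section

namespace NumC

/-- the limits at `0` which are used -/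
theorem small {a c C A B : ℝ} (ha : 0 < a) (hc : 0 < c) :
    ∃ g₀ : ℝ, 0 < g₀ ∧ g₀ ≤ 1 ∧ ∀ g : ℝ, 0 < g → g < g₀ →
      16 * (g * Real.log (1 / g)) + 2 * g ^ 2 < 1 ∧
      C * (g ^ a * (A * Real.log (1 / g) + B) ^ 3) < c := by
  have ha2 : 0 < a / 3 := by positivity
  have hid : Tendsto (fun g : ℝ => g) (𝓝[>] 0) (𝓝 0) :=
    tendsto_nhdsWithin_of_tendsto_nhds tendsto_id
  have h1 : Tendsto (fun g : ℝ => Real.log g * g ^ (1 : ℝ)) (𝓝[>] 0) (𝓝 0) :=
    tendsto_log_mul_rpow_nhdsGT_zero one_pos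
  have h2 : Tendsto (fun g : ℝ => 16 * (-(Real.log g * g ^ (1 : ℝ))) + 2 * g ^ 2) (𝓝[>] 0)
      (𝓝 (16 * (-0) + 2 * 0 ^ 2)) :=
    (h1.neg.const_mul 16).add ((hid.pow 2).const_mul 2)
  have h3 : Tendsto (fun g : ℝ => Real.log g * g ^ (a / 3)) (𝓝[>] 0) (𝓝 0) :=
    tendsto_log_mul_rpow_nhdsGT_zero ha2
  have h4 : Tendsto (fun g : ℝ => g ^ (a / 3)) (𝓝[>] 0) (𝓝 0) := by
    have h := hid.rpow_const (p := a / 3) (Or.inr ha2.le)
    rwa [Real.zero_rpow ha2.ne'] at h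
  have h5 : Tendsto (fun g : ℝ => C * (A * (-(Real.log g * g ^ (a / 3))) +
      B * g ^ (a / 3)) ^ 3) (𝓝[>] 0) (𝓝 (C * (A * (-0) + B * 0) ^ 3)) :=
    (((h3.neg.const_mul A).add (h4.const_mul B)).pow 3).const_mul C
  have e2 : ∀ᶠ g : ℝ in 𝓝[>] 0,
      16 * (-(Real.log g * g ^ (1 : ℝ))) + 2 * g ^ 2 < 1 := by
    refine h2.eventually_lt_const ?_
    norm_num
  have e5 : ∀ᶠ g : ℝ in 𝓝[>] 0,
      C * (A * (-(Real.log g * g ^ (a / 3))) + B * g ^ (a / 3)) ^ 3 < c := by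
    refine h5.eventually_lt_const ?_
    simpa using hc
  obtain ⟨u, hu, hu2⟩ := mem_nhdsGT_iff_exists_Ioo_subset.mp (e2.and e5)
  refine ⟨min u 1, lt_min hu one_pos, min_le_right _ _, fun g hg hgu => ?_⟩
  obtain ⟨h6, h7⟩ := hu2 ⟨hg, hgu.trans_le (min_le_left _ _)⟩
  have hlog : Real.log (1 / g) = -Real.log g := by rw [one_div, Real.log_inv]
  rw [Real.rpow_one] at h6
  rw [hlog]
  refine ⟨?_, ?_⟩
  · nlinarith [h6]
  · have h8 : g ^ a = (g ^ (a / 3)) ^ 3 := by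
      rw [← Real.rpow_natCast, ← Real.rpow_mul hg.le]
      congr 1
      push_cast
      ring
    have h9 : g ^ a * (A * -Real.log g + B) ^ 3 =
        (A * (-(Real.log g * g ^ (a / 3))) + B * g ^ (a / 3)) ^ 3 := by
      rw [h8]
      ring
    rw [h9]
    exact h7

end NumC

/-- Copy of `IOrd.final_num` (Lib/MP_daa227_pr_IO/NumA.lean) with the power `3` of the logarithm. -/
theorem final_num3 {q p₀ s s' A B : ℝ} (hq : 0 < q) (hp : 0 < p₀) (hs : 0 < s) (hss : s < s')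
    (hε : 1 - s / s' ≤ 1 / (8 * q)) (hA : 0 ≤ A) (hB : 0 ≤ B) :
    ∃ t₀ : ℝ, 0 < t₀ ∧ ∀ (d g : ℝ) (m₀ : ℕ), 0 < d → d < t₀ → 0 < g → s * d ^ (2 * q) ≤ g →
      g ≤ 2 * d → m₀ = ⌈8 * Real.log (1 / g) / g⌉₊ →
      ¬ p₀ * (2 * (m₀ : ℝ)) ^ (-(1 - s / s')) ≤ d * (A * Real.log (1 / g) + B) ^ 3 := by
  have hs' : 0 < s' := hs.trans hss
  set ε : ℝ := 1 - s / s' with hεdef
  have hε0 : 0 < ε := by
    have : s / s' < 1 := (div_lt_one hs').mpr hss
    linarith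
  have ha : 0 < 1 / (4 * q) := by positivity
  set C : ℝ := (1 / s) ^ (1 / (2 * q)) with hC
  have hC0 : 0 < C := Real.rpow_pos_of_pos (by positivity) _
  obtain ⟨g₀, hg₀, hg₁, hsm⟩ := NumC.small (a := 1 / (4 * q)) (c := p₀) (C := C) (A := A)
    (B := B) ha hp
  refine ⟨g₀ / 2, by positivity, ?_⟩
  intro d g m₀ hd hdt hg hsd hgd hm
  have hgg : g < g₀ := by linarith
  obtain ⟨h1, h2⟩ := hsm g hg hgg
  have hg1 : g < 1 := hgg.trans_le hg₁
  have hL : 0 < Real.log (1 / g) := by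
    apply Real.log_pos
    rw [lt_div_iff₀ hg]
    linarith
  -- the bound for `m₀`
  have hm1 : (m₀ : ℝ) < 8 * Real.log (1 / g) / g + 1 := by
    rw [hm]
    exact Nat.ceil_lt_add_one (by positivity)
  have hm0 : 0 < (m₀ : ℝ) := by
    have : 0 < m₀ := by
      rw [hm]
      exact Nat.ceil_pos.mpr (by positivity)
    exact_mod_cast this
  have hm2 : 2 * (m₀ : ℝ) ≤ g ^ (-2 : ℝ) := by
    have h3 : g ^ (-2 : ℝ) = 1 / g ^ 2 := by
      rw [Real.rpow_neg hg.le, one_div]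
      norm_num
    rw [h3, le_div_iff₀ (by positivity)]
    have h4 : 2 * (m₀ : ℝ) * g ^ 2 ≤ 2 * (8 * Real.log (1 / g) / g + 1) * g ^ 2 := by
      gcongr
    have h5 : 2 * (8 * Real.log (1 / g) / g + 1) * g ^ 2 =
        16 * (g * Real.log (1 / g)) + 2 * g ^ 2 := by
      field_simp
      ring
    linarith
  have h6 : g ^ (1 / (4 * q)) ≤ (2 * (m₀ : ℝ)) ^ (-ε) := by
    calc g ^ (1 / (4 * q)) ≤ g ^ (2 * ε) := by
          refine Real.rpow_le_rpow_of_exponent_ge hg hg1.le ?_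
          have : 1 / (4 * q) = 2 * (1 / (8 * q)) := by
            field_simp
            norm_num
          rw [this]
          linarith
      _ = (g ^ (-2 : ℝ)) ^ (-ε) := by
          rw [← Real.rpow_mul hg.le]
          congr 1
          ring
      _ ≤ (2 * (m₀ : ℝ)) ^ (-ε) := by
          refine Real.rpow_le_rpow_of_nonpos (by positivity) hm2 ?_
          linarith
  -- the bound for `d`
  have h7 : d ≤ C * g ^ (1 / (2 * q)) := by
    have h8 : d ^ (2 * q) ≤ (1 / s) * g := by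
      rw [one_div, ← div_eq_inv_mul, le_div_iff₀ hs]
      linarith
    have h9 : (d ^ (2 * q)) ^ (1 / (2 * q)) ≤ ((1 / s) * g) ^ (1 / (2 * q)) :=
      Real.rpow_le_rpow (by positivity) h8 (by positivity)
    rw [← Real.rpow_mul hd.le, mul_one_div_cancel (by positivity), Real.rpow_one,
      Real.mul_rpow (by positivity) hg.le] at h9
    exact h9
  have h10 : g ^ (1 / (2 * q)) = g ^ (1 / (4 * q)) * g ^ (1 / (4 * q)) := by
    rw [← Real.rpow_add hg]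
    congr 1
    field_simp
    norm_num
  have h11 : 0 < g ^ (1 / (4 * q)) := Real.rpow_pos_of_pos hg _
  rw [not_le]
  calc d * (A * Real.log (1 / g) + B) ^ 3
      ≤ C * g ^ (1 / (2 * q)) * (A * Real.log (1 / g) + B) ^ 3 := by gcongr
    _ = g ^ (1 / (4 * q)) *
        (C * (g ^ (1 / (4 * q)) * (A * Real.log (1 / g) + B) ^ 3)) := by
        rw [h10]
        ring
    _ < g ^ (1 / (4 * q)) * p₀ := by gcongr
    _ ≤ (2 * (m₀ : ℝ)) ^ (-ε) * p₀ := by gcongr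
    _ = p₀ * (2 * (m₀ : ℝ)) ^ (-ε) := mul_comm _ _

end

end Pool.Agent.IG
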