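import Pool.Agent.Lib.MP_daa227_pr_IG.Defs
import Pool.Agent.Lib.MP_daa227_pr_IG.NumC
import Pool.Agent.Lib.MP_daa227_pr_IO.Main
import Pool.Agent.Lib.MP_daa227_pr_IO.Basic
import Pool.Agent.Lib.MP_daa227_pr_IO.LevelT
import Pool.Agent.Lib.MP_daa227_pr_IO.Growth
import Pool.Agent.Lib.MP_daa227_pr_IO.RareA
import Pool.Agent.Lib.MP_daa227_pr_IO.RareB
import Pool.Agent.Lib.MP_daa227_pr_IO.GoodLevel
import Pool.Agent.Lib.MP_daa227_pr_IO.Crowd
import Pool.Agent.Lib.MP_daa227_pr_IO.Choice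
import Pool.Agent.Lib.MP_daa227_pr_IO.Planting
import Pool.Agent.Lib.MP_daa227_pr_IO.Exps
import Pool.Agent.Lib.MP_daa227_pr_IO.NumA
import Pool.Agent.Lib.MP_daa227_pr_IO.NumB

/-!
# MP_daa227_pr, general potentials: the abstract theorem with a logarithm in the derivative bound
-/

namespace Pool.Agent.IG

open MeasureTheory ProbabilityTheory Finset Filter Topology
open MP_daa227_pr (shift seqLaw ExpMom DepOn mom)
open Pool.Agent.IOrd

noncomputable section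

variable {μ : Measure ℝ} [IsProbabilityMeasure μ] {Z : ℝ → ℕ → (ℕ → ℝ) → ℝ} {w : ℕ}

open IOrd.MainAux

theorem main2 (hZ : Sys w μ Z) {F : ℝ → ℝ}
    (hF : ∀ d, 0 ≤ d → Tendsto (fun n : ℕ => (∫ ω, Real.log (Z d n ω) ∂seqLaw μ) / n) atTop
      (𝓝 (F d)))
    (hFd : ∀ d, 0 ≤ d → F d ≤ 2 * d)
    (h0 : ∃ s₀, 0 < s₀ ∧ s₀ ≤ 1 ∧ ∀ n, aS μ Z s₀ 0 n ≤ 1)
    (h1 : ∃ n, 1 < aS μ Z 1 0 n)
    (hB : ∀ s s₂, 0 < s → s < s₂ → s₂ ≤ 1 → (∀ n, aS μ Z s₂ 0 n ≤ 1) → Bdp μ Z s)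
    {q : ℝ} (hq : 0 < q) : ∃ K : ℝ, ∀ d, 0 ≤ d → d ≤ 1 → F d ≤ K * d ^ q := by
  by_contra hcon
  push Not at hcon
  obtain ⟨s, s₁, s₂, s'', s', hs0, hs1, hs12, hs2, hS2, hs''0, hs''1, hs'', hss', hn, hε⟩ :=
    exponents hZ h0 h1 (ε := 1 / (8 * q)) (by positivity)
  have hs₁1 : s₁ ≤ 1 := (hs12.le.trans hs2)
  have hsle : s ≤ 1 := hs1.le.trans hs₁1
  have hs'0 : 0 < s' := hs0.trans hss'
  have hs₁0 : 0 < s₁ := hs0.trans hs1
  have hS : ∀ n, aS μ Z s 0 n ≤ 1 := fun n =>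
    aS_lyap hZ hs0 (hs1.trans hs12).le hs2 n (hS2 n)
  -- the rare block
  obtain ⟨l₀, y, hl₀, hy, hfar⟩ := rare_exists hZ hs''0 hs''1 hs'' hn
  set p₀ := (seqLaw μ (Far Z l₀ y)).toReal with hp₀
  have hp1 : Real.exp (-(s' * y)) < p₀ := by
    rw [hp₀]
    exact (ENNReal.ofReal_lt_iff_lt_toReal (Real.exp_pos _).le (measure_ne_top _ _)).1 hfar
  have hp0 : 0 < p₀ := (Real.exp_pos _).trans hp1
  have hp2 : Real.log (1 / p₀) ≤ s' * y := by
    rw [one_div, Real.log_inv]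
    have := Real.log_lt_log (Real.exp_pos _) hp1
    rw [Real.log_exp] at this
    linarith
  -- the bounds
  obtain ⟨d₀, C, R₁, hd₀, hC, hBd'⟩ := hB s s₂ hs0 (hs1.trans hs12) hs2 hS2
  have hC0 : 0 < C := by linarith
  set R := max R₁ ⌈4 * C * Real.exp 1⌉₊ with hRdef
  have hRR : R₁ ≤ R := le_max_left _ _
  have hRC : 4 * C * Real.exp 1 ≤ R :=
    (Nat.le_ceil _).trans (by exact_mod_cast le_max_right R₁ ⌈4 * C * Real.exp 1⌉₊)
  have hBd2 : ∀ d, 0 ≤ d → d ≤ d₀ → ∀ m N, m < N → aS μ Z s d N ≤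
      C * (∑ f ∈ range (m + R + 1), aS μ Z s d f) * ∑ j ∈ range (N - m + R), aS μ Z s d j := by
    intro d hd hdd m N hm
    refine ((hBd' d hd hdd).2 m N hm).trans ?_
    have e0 : ∀ n, 0 ≤ aS μ Z s d n := fun n => aS_nonneg μ Z s d n
    have e1 : ∑ f ∈ range (m + R₁ + 1), aS μ Z s d f ≤ ∑ f ∈ range (m + R + 1), aS μ Z s d f :=
      Finset.sum_le_sum_of_subset_of_nonneg (Finset.range_mono (by omega)) fun _ _ _ => e0 _
    have e2 : ∑ j ∈ range (N - m + R₁), aS μ Z s d j ≤ ∑ j ∈ range (N - m + R), aS μ Z s d j :=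
      Finset.sum_le_sum_of_subset_of_nonneg (Finset.range_mono (by omega)) fun _ _ _ => e0 _
    exact mul_le_mul (mul_le_mul_of_nonneg_left e1 hC0.le) e2
      (Finset.sum_nonneg fun _ _ => e0 _)
      (mul_nonneg hC0.le (Finset.sum_nonneg fun _ _ => e0 _))
  set c := s * (s₂ - s₁) / (s₁ * (s₂ - s)) with hc
  obtain ⟨hc0, hc1⟩ := level_const hs0 hs1 hs12
  rw [← hc] at hc0 hc1
  -- the growth rate
  set G : ℝ → ℝ := fun d => Gr (aS μ Z s d) with hG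
  have hlip : ∀ d, 0 ≤ d → ∀ n : ℕ, aS μ Z s d n ≤ Real.exp (2 * d * n) := by
    intro d hd n
    refine (aS_lip hZ hs0.le hsle hd n).trans ?_
    rw [show 2 * (n : ℝ) * d = 2 * d * n by ring]
    exact mul_le_of_le_one_right (Real.exp_pos _).le (hS n)
  have hGe : ∀ d, 0 ≤ d → ∃ θ, 0 ≤ θ ∧ ∀ n : ℕ, aS μ Z s d n ≤ Real.exp (θ * n) := fun d hd =>
    ⟨2 * d, by linarith, hlip d hd⟩
  have hG0 : ∀ d, 0 ≤ d → 0 ≤ G d ∧ ∀ n : ℕ, aS μ Z s d n ≤ Real.exp (G d * n) := fun d hd =>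
    Gr_spec (hGe d hd)
  have hGmono : ∀ d d', 0 ≤ d → d ≤ d' → G d ≤ G d' := fun d d' hd hdd =>
    Gr_mono (hGe d' (hd.trans hdd)) (fun n => aS_mono hZ hs0.le hsle hdd n)
  have hG2 : ∀ d, 0 ≤ d → G d ≤ 2 * d := fun d hd => Gr_le (by linarith) (hlip d hd)
  have hFG : ∀ d, 0 ≤ d → s * F d ≤ G d := fun d hd =>
    jensen_rate hZ hF hs0 hsle hd (hG0 d hd).2
  -- constants
  set p' := s₁ / (s₁ - s) with hp'
  have hp'1 : 1 ≤ p' := by
    rw [hp', le_div_iff₀ (by linarith)]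
    linarith
  have hlogp : 0 ≤ Real.log (4 * p') := Real.log_nonneg (by linarith)
  set C₀ := c ^ (-(4 * q)) with hC₀
  have hC₀0 : 0 < C₀ := Real.rpow_pos_of_pos hc0 _
  set D := 1 / (s * y) with hD
  have hD0 : 0 < D := by rw [hD]; positivity
  set a₁ := 8 * C * l₀ with ha₁
  set b₁ := 16 * C * l₀ * D with hb₁
  set a₂ := 1 + Real.exp 1 * (2 * p' * (2 * C₀ + 4 + Real.log (4 * p'))) with ha₂
  set b₂ := Real.exp 1 * (2 * p' * (16 * C₀)) with hb₂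
  have ha₁0 : 0 ≤ a₁ := by rw [ha₁]; positivity
  have hb₁0 : 0 ≤ b₁ := by rw [hb₁]; positivity
  have ha₂0 : 0 ≤ a₂ := by rw [ha₂]; positivity
  have hb₂0 : 0 ≤ b₂ := by rw [hb₂]; positivity
  obtain ⟨t₁, ht₁, hnum⟩ := final_num3 (q := q) (p₀ := p₀) (s := s) (s' := s')
    (A := b₁ + b₂ + 1) (B := a₁ + a₂) hq hp0 hs0 hss' hε (by linarith) (by linarith)
  obtain ⟨g₀, hg₀, hg₀1, hsmall⟩ := small_g (C := C) (D := D) hC0.le hD0.le R l₀
  obtain ⟨d, hd, hdt, hdc, hGd, hGdc⟩ := good_level hq hs0 hc0 hc1 hGmono hG2 hFG hFd hcon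
    (min (min t₁ (g₀ / 2)) d₀) (by positivity)
  have hdt₁ : d < t₁ := hdt.trans_le ((min_le_left _ _).trans (min_le_left _ _))
  have hdg₀ : d < g₀ / 2 := hdt.trans_le ((min_le_left _ _).trans (min_le_right _ _))
  have hdd₀ : d ≤ d₀ := (hdt.trans_le (min_le_right _ _)).le
  set g := G d with hg'
  have hg : 0 < g := lt_of_lt_of_le (by positivity) hGd
  have hgd : g ≤ 2 * d := hG2 d hd.le
  have hgg₀ : g < g₀ := by linarith
  set m₀ := ⌈8 * Real.log (1 / g) / g⌉₊ with hm₀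
  set Λ := Real.log (1 / g) with hΛ
  have hΛ0 : 0 ≤ Λ := Real.log_nonneg (by
    rw [le_div_iff₀ hg]
    linarith)
  obtain ⟨hR, hlogm, hgm, hcr, hl⟩ := hsmall g m₀ hg hgg₀ rfl
  have hm₀pos : 1 ≤ m₀ := by omega
  have hm₀r : (1 : ℝ) ≤ m₀ := by exact_mod_cast hm₀pos
  set u := aS μ Z s d with hu
  have hu0 : ∀ n, 0 ≤ u n := fun n => aS_nonneg μ Z s d n
  have hum : ∀ m n, u m * u n ≤ u (m + n) := fun m n => aS_mul hZ hs0.le hsle d m n
  -- some fractional moment is larger than two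
  have h5 : ∃ i ≤ m₀, 2 < u i := by
    by_contra hcon2
    push Not at hcon2
    have e1 := crowd hu0 hC0.le hg hR (hBd2 d hd.le hdd₀) hcon2 hcr
    have e2 := le_exp_of_super hu0 hum e1
    have e3 : g ≤ g / 2 := Gr_le (by linarith) e2
    linarith
  -- the rare blocks
  obtain ⟨k, hk1, hkp, hkM, hkl, hkL⟩ := rare_choose hZ hs0 hsle hS hy hp₀ hp0
    (M := 2 * (m₀ : ℝ)) (by linarith)
  set l := k * l₀ with hldef
  set L := (k : ℝ) * y with hLdef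
  have hl1 : 1 ≤ l := Nat.one_le_iff_ne_zero.2 (Nat.mul_ne_zero (by omega) (by omega))
  have hkr : (1 : ℝ) ≤ k := by exact_mod_cast hk1
  have hkb : (k : ℝ) ≤ 1 + D * Real.log (2 * m₀) := by
    have e1 : (k : ℝ) - 1 ≤ Real.log (2 * m₀) / (s * y) := by
      rw [le_div_iff₀ (by positivity)]
      exact hkl
    have e2 : Real.log (2 * (m₀ : ℝ)) / (s * y) = D * Real.log (2 * m₀) := by
      rw [hD]; ring
    linarith
  have hll : (l : ℝ) ≤ l₀ * (1 + D * Real.log (2 * m₀)) := by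
    rw [hldef]
    push_cast
    rw [mul_comm (k : ℝ)]
    exact mul_le_mul_of_nonneg_left hkb (by positivity)
  obtain ⟨hlg, hlJ⟩ := hl l hll
  -- the length
  obtain ⟨m, i₀, hi₀m, hmm, hi₀2, hmax⟩ := choice hg (hG0 d hd.le).2 h5 (l := l + R)
    (J := ⌈2 * g * m₀⌉₊ + 1) hlg (by
      push_cast
      have := Nat.le_ceil (2 * g * (m₀ : ℝ))
      linarith) hlJ
  -- the contacts
  obtain ⟨n', hn'1, hder⟩ := (hBd' d hd.le hdd₀).1 i₀ (2 * m₀) (by omega) (by omega)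
    (Real.exp 1 * u i₀) (fun i hi => hmax i (by omega))
  have hn' : n' ≤ i₀ + R := hn'1.trans (by omega)
  have hcv0 : 0 ≤ cv u n' := Finset.sum_nonneg fun x _ => mul_nonneg (hu0 _) (hu0 _)
  have hcv : u i₀ ≤ 8 * d * C * Λ * cv u n' := by
    have e1 : aS μ Z s 0 i₀ ≤ 1 := hS i₀
    have e2 : u i₀ ≤ aS μ Z s 0 i₀ + d * (C * Real.log ((2 * m₀ : ℕ) : ℝ)) * cv u n' +
      C * (Real.exp 1 * u i₀) / ((2 * m₀ : ℕ) : ℝ) := hder
    push_cast at e2
    have e3 : C * (Real.exp 1 * u i₀) / (2 * (m₀ : ℝ)) ≤ u i₀ / 4 := by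
      rw [div_le_iff₀ (by positivity)]
      have e4 : (2 : ℝ) * R < m₀ := by exact_mod_cast hR
      have e5 : 8 * C * Real.exp 1 ≤ m₀ := by linarith
      have e6 := mul_le_mul_of_nonneg_right e5 (hu0 i₀)
      have e9 : u i₀ / 4 * (2 * (m₀ : ℝ)) = (m₀ : ℝ) * u i₀ / 2 := by ring
      have e10 : C * (Real.exp 1 * u i₀) = 8 * C * Real.exp 1 * u i₀ / 8 := by ring
      have e11 : 0 ≤ (m₀ : ℝ) * u i₀ := mul_nonneg (Nat.cast_nonneg _) (hu0 _)
      rw [e9, e10]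
      linarith only [e6, e11]
    have e7 : d * (C * Real.log (2 * (m₀ : ℝ))) * cv u n' ≤ d * (C * (2 * Λ)) * cv u n' := by
      gcongr
    have e8 : d * (C * (2 * Λ)) * cv u n' = (8 * d * C * Λ * cv u n') / 4 := by ring
    rw [e8] at e7
    linarith only [e1, e2, e3, e7, hi₀2]
  have hn'l : n' + l ≤ m + (l + R) := by omega
  have hn'M : n' + l ≤ 2 * m₀ := hn'l.trans hmm
  -- the truncation
  set E := 2 * C₀ * (8 * Λ + 1) with hE
  have hE0 : 0 ≤ E := by rw [hE]; positivity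
  set K := 2 * p' * (E + 4 + Real.log (4 * p')) with hK
  have hK0 : 0 < K := by rw [hK]; positivity
  have hE1 : u (n' + l) ≤ Real.exp 1 * u i₀ := hmax _ hn'l
  have hE2 : aS μ Z s₁ d (n' + l) ≤ Real.exp E := by
    have e1 := aS_level hZ hs0 hs1 hs12 hs2 (d := d / c) (div_nonneg hd.le hc0.le) (n' + l)
      (hS2 _)
    rw [← hc, mul_div_cancel₀ _ hc0.ne'] at e1
    refine e1.trans (max_le (Real.one_le_exp hE0) (((hG0 (d / c)
      (div_nonneg hd.le hc0.le)).2 (n' + l)).trans (Real.exp_le_exp.2 ?_)))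
    have e2 : ((n' + l : ℕ) : ℝ) ≤ 2 * m₀ := by exact_mod_cast hn'M
    calc G (d / c) * ((n' + l : ℕ) : ℝ) ≤ (C₀ * g) * (2 * m₀) :=
          mul_le_mul hGdc e2 (by positivity) (by positivity)
      _ = 2 * C₀ * (g * m₀) := by ring
      _ ≤ E := by
          rw [hE]
          exact mul_le_mul_of_nonneg_left hgm (by positivity)
  have hpl := planting hZ hs0 hs1 hs₁1 hd.le hl1 L n' (M := 2 * (m₀ : ℝ)) (K := K)
    (by linarith) hK0 hkM (by
      have : ((n' : ℕ) : ℝ) ≤ ((2 * m₀ : ℕ) : ℝ) := by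
        exact_mod_cast (Nat.le_add_right n' l).trans hn'M
      push_cast at this
      exact this)
  rw [← hp'] at hpl
  have htr := trunc_le hp'1 hE0 hE2 hK
  have hui : 1 ≤ u i₀ := by linarith
  have hlr : (1 : ℝ) ≤ l := by exact_mod_cast hl1
  have hup : (l : ℝ) * (K * u (n' + l) + 2 * p' * Real.exp (-(K / (2 * p'))) *
      (aS μ Z s₁ d (n' + l) + Real.exp 4)) ≤ l * (Real.exp 1 * K + 1) * u i₀ := by
    have e1 : K * u (n' + l) ≤ K * (Real.exp 1 * u i₀) := mul_le_mul_of_nonneg_left hE1 hK0.le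
    have e2 : K * u (n' + l) + 2 * p' * Real.exp (-(K / (2 * p'))) *
        (aS μ Z s₁ d (n' + l) + Real.exp 4) ≤ (Real.exp 1 * K + 1) * u i₀ := by
      linarith
    have e3 := mul_le_mul_of_nonneg_left e2 (show (0 : ℝ) ≤ l by linarith)
    rw [← mul_assoc] at e3
    exact e3
  have hfin := hpl.trans hup
  set π := (seqLaw μ (Far Z l L)).toReal with hπ
  have hπ0 : p₀ / (2 * (m₀ : ℝ)) ≤ π := hkp
  have hπpos : 0 < π := lt_of_lt_of_le (by positivity) hπ0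
  -- the exponential gain
  set M := 2 * (m₀ : ℝ) with hM
  have hM1 : 1 < M := by rw [hM]; linarith
  have hM0 : 0 < M := by linarith
  have hgain : M ^ (s / s') ≤ Real.exp (s * L) := by
    rw [Real.rpow_def_of_pos hM0]
    apply Real.exp_le_exp.2
    have e1 : Real.log M ≤ k * (s' * y) :=
      hkL.trans (mul_le_mul_of_nonneg_left hp2 (by positivity))
    have e2 : Real.log M * (s / s') ≤ (k * (s' * y)) * (s / s') :=
      mul_le_mul_of_nonneg_right e1 (by positivity)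
    refine e2.trans (le_of_eq ?_)
    rw [hLdef]
    field_simp
  -- conclusion
  refine hnum d g m₀ hd hdt₁ hg hGd hgd rfl ?_
  have e1 : p₀ * M ^ (-(1 - s / s')) ≤ Real.exp (s * L) * π := by
    have : M ^ (-(1 - s / s')) = M ^ (s / s') / M := by
      rw [show -(1 - s / s') = s / s' - 1 by ring, Real.rpow_sub_one hM0.ne']
    rw [this]
    calc p₀ * (M ^ (s / s') / M) = M ^ (s / s') * (p₀ / M) := by ring
      _ ≤ Real.exp (s * L) * π := mul_le_mul hgain hπ0 (by positivity) (Real.exp_pos _).le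
  have e2 : Real.exp (s * L) * π * u i₀ ≤
      8 * d * C * Λ * (l * (Real.exp 1 * K + 1)) * u i₀ := by
    calc Real.exp (s * L) * π * u i₀ ≤ Real.exp (s * L) * π * (8 * d * C * Λ * cv u n') :=
          mul_le_mul_of_nonneg_left hcv (by positivity)
      _ = 8 * d * C * Λ * (Real.exp (s * L) * π * cv u n') := by ring
      _ ≤ 8 * d * C * Λ * (l * (Real.exp 1 * K + 1) * u i₀) :=
          mul_le_mul_of_nonneg_left hfin (by positivity)
      _ = 8 * d * C * Λ * (l * (Real.exp 1 * K + 1)) * u i₀ := by ring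
  have e3 : Real.exp (s * L) * π ≤ 8 * d * C * Λ * (l * (Real.exp 1 * K + 1)) :=
    le_of_mul_le_mul_right e2 (by linarith)
  refine e1.trans (e3.trans ?_)
  have e4 : 8 * C * (l : ℝ) ≤ a₁ + b₁ * Λ := by
    have e5 : (l : ℝ) ≤ l₀ * (1 + D * (2 * Λ)) := hll.trans
      (mul_le_mul_of_nonneg_left (by
        have := mul_le_mul_of_nonneg_left hlogm hD0.le
        linarith) (by positivity))
    have e6 : 8 * C * (l : ℝ) ≤ 8 * C * (l₀ * (1 + D * (2 * Λ))) :=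
      mul_le_mul_of_nonneg_left e5 (by positivity)
    refine e6.trans (le_of_eq ?_)
    rw [ha₁, hb₁]
    ring
  have e5 : Real.exp 1 * K + 1 = a₂ + b₂ * Λ := by
    rw [hK, hE, ha₂, hb₂]
    ring
  set T := (b₁ + b₂ + 1) * Λ + (a₁ + a₂) with hT
  have hT' : T = b₁ * Λ + b₂ * Λ + Λ + a₁ + a₂ := by rw [hT]; ring
  have p1 : 0 ≤ b₁ * Λ := mul_nonneg hb₁0 hΛ0
  have p2 : 0 ≤ b₂ * Λ := mul_nonneg hb₂0 hΛ0
  have t1 : Λ ≤ T := by rw [hT']; linarith only [p1, p2, ha₁0, ha₂0]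
  have t2 : 8 * C * (l : ℝ) ≤ T := by rw [hT']; linarith only [e4, p2, hΛ0, ha₂0]
  have t3 : Real.exp 1 * K + 1 ≤ T := by rw [hT', e5]; linarith only [p1, hΛ0, ha₁0]
  have t0 : 0 ≤ T := hΛ0.trans t1
  calc 8 * d * C * Λ * (l * (Real.exp 1 * K + 1)) =
        d * (Λ * ((8 * C * l) * (Real.exp 1 * K + 1))) := by ring
    _ ≤ d * (T * (T * T)) := by
        refine mul_le_mul_of_nonneg_left ?_ hd.le
        refine mul_le_mul t1 ?_ (by positivity) t0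
        exact mul_le_mul t2 t3 (by positivity) t0
    _ = d * T ^ 3 := by ring

end

end Pool.Agent.IG
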