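import Pool.Agent.Lib.MP_daa227_pr_IG.Defs
import Pool.Agent.Lib.MP_daa227_pr_IG.NumC
import Pool.Agent.Lib.MP_daa227_pr_IO.Main
import Pool.Agent.Lib.MP_daa227_pr_IO.Basic
import Pool.Agent.Lib.MP_daa227_pr_IO.LevelT
import Pool.Agent.Lib.MP_daa227_pr_IO.Growth
import Pool.Agent.Lib.MP_daa227_pr_IO.RareA
import Pool.Agent.Lib.MP_daa227_pr_IO.RareB
import Pool.Agent.Lib.MP_daa227_pr_IO.GoodLevel
import Pool.Agent.Lib.MP_daa227_pr_IO.Crowd
import Pool.Agent.Lib.MP_daa227_pr_IO.Choice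
import Pool.Agent.Lib.MP_daa227_pr_IO.Planting
import Pool.Agent.Lib.MP_daa227_pr_IO.Exps
import Pool.Agent.Lib.MP_daa227_pr_IO.NumA
import Pool.Agent.Lib.MP_daa227_pr_IO.NumB

/-!
# MP_daa227_pr, general potentials: the abstract theorem with a logarithm in the derivative bound
-/

namespace Pool.Agent.IG

open MeasureTheory ProbabilityTheory Finset Filter Topology
open MP_daa227_pr (shift seqLaw ExpMom DepOn mom)
open Pool.Agent.IOrd

noncomputable section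

variable {μ : Measure ℝ} [IsProbabilityMeasure μ] {Z : ℝ → ℕ → (ℕ → ℝ) → ℝ} {w : ℕ}

/-- Otherwise `log Z_0 n` has exponential tails of order `s'`, uniformly in `n`, and the moment of order
`s''` is bounded. -/
theorem rare_exists3 (hZ : Sys w μ Z) {s' s'' : ℝ} (h0 : 0 < s'') (h2 : s'' < s')
    (hn : ∀ C : ℝ, ∃ n, ENNReal.ofReal C < mom μ s'' (Z 0 n)) :
    ∃ (l₀ : ℕ) (y : ℝ), 1 ≤ l₀ ∧ 0 < y ∧
      ENNReal.ofReal (Real.exp (-(s' * y))) < seqLaw μ (Far Z l₀ y) := by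
  by_contra hcon
  push Not at hcon
  have hr1 : Real.exp (-(s' - s'')) < 1 := Real.exp_lt_one_iff.2 (by linarith)
  have hr2 : 0 < 1 - Real.exp (-(s' - s'')) := by linarith
  have hb : ∀ l : ℕ, mom μ s'' (Z 0 l) ≤
      ENNReal.ofReal (1 + Real.exp s'' * (1 - Real.exp (-(s' - s'')))⁻¹) := by
    intro l
    rcases Nat.eq_zero_or_pos l with hl | hl
    · have e1 : Z 0 l = fun _ => 1 := by
        funext ω
        rw [hl, hZ.zero]
      rw [e1, MP_daa227_pr.mom_const, ENNReal.ofReal_one, ENNReal.one_rpow, ← ENNReal.ofReal_one]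
      apply ENNReal.ofReal_le_ofReal
      have : 0 ≤ Real.exp s'' * (1 - Real.exp (-(s' - s'')))⁻¹ := by positivity
      linarith
    · have hm := RareA.moment2 (P := seqLaw μ) (Y := fun ω => Real.log (Z 0 l ω))
        ((hZ.meas 0 l).log) h0 h2 (fun x hx => by
          rcases hx.eq_or_lt with hx0 | hx0
          · rw [← hx0, mul_zero, neg_zero, Real.exp_zero, ENNReal.ofReal_one]
            exact prob_le_one
          · exact hcon l x hl hx0)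
      unfold mom
      refine le_trans (le_of_eq ?_) hm
      refine lintegral_congr fun ω => ?_
      rw [ENNReal.ofReal_rpow_of_pos (hZ.pos 0 l ω), Real.rpow_def_of_pos (hZ.pos 0 l ω), mul_comm]
  obtain ⟨n, hn⟩ := hn (1 + Real.exp s'' * (1 - Real.exp (-(s' - s'')))⁻¹)
  exact absurd (hb n) (not_le.2 hn)

/-- a moment of order at most one which exceeds one is unbounded -/
theorem unbdd_of_gt (hZ : Sys w μ Z) {s : ℝ} (h0 : 0 ≤ s) (h1 : s ≤ 1)
    (hn : ∃ n, 1 < aS μ Z s 0 n) (C : ℝ) : ∃ n, ENNReal.ofReal C < mom μ s (Z 0 n) := by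
  obtain ⟨n, hn⟩ := hn
  obtain ⟨k, hk⟩ := ((tendsto_pow_atTop_atTop_of_one_lt hn).eventually_gt_atTop C).exists
  refine ⟨k * n, ?_⟩
  have h2 : C < aS μ Z s 0 (k * n) := hk.trans_le (aS_pow hZ h0 h1 0 n k)
  rcases le_or_gt 0 C with hC | hC
  · exact (ENNReal.ofReal_lt_iff_lt_toReal hC (hZ.fin s h0 h1 0 _)).2 h2
  · rw [ENNReal.ofReal_of_nonpos hC.le]
    have h3 : 1 < aS μ Z s 0 n ^ 1 := by rwa [pow_one]
    have h4 : 0 < aS μ Z s 0 (k * n) :=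
      (pow_pos (zero_lt_one.trans hn) k).trans_le (aS_pow hZ h0 h1 0 n k)
    exact (ENNReal.toReal_pos_iff.1 h4).1

/-- The choice of the exponents, as in `IOrd.exponents`; the exponent `s''` may exceed one. -/
theorem exponents3 (hZ : Sys w μ Z) (h0 : ∃ s₀, 0 < s₀ ∧ s₀ ≤ 1 ∧ ∀ n, aS μ Z s₀ 0 n ≤ 1)
    (h1 : ∀ p, 1 < p → ∀ C : ℝ, ∃ n, ENNReal.ofReal C < mom μ p (Z 0 n)) {ε : ℝ} (hε : 0 < ε) :
    ∃ s s₁ s₂ s'' s' : ℝ, 0 < s ∧ s < s₁ ∧ s₁ < s₂ ∧ s₂ ≤ 1 ∧ (∀ n, aS μ Z s₂ 0 n ≤ 1) ∧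
      0 < s'' ∧ s'' < s' ∧ s < s' ∧ (∀ C : ℝ, ∃ n, ENNReal.ofReal C < mom μ s'' (Z 0 n)) ∧
      1 - s / s' ≤ ε := by
  classical
  obtain ⟨s₀, hs₀, hs₀1, hP⟩ := h0
  obtain ⟨η, hη, hη1, hηε⟩ : ∃ η : ℝ, 0 < η ∧ η ≤ 1 ∧ 7 * η ≤ ε :=
    ⟨min 1 (ε / 7), lt_min one_pos (by positivity), min_le_left _ _, by
      have := min_le_right 1 (ε / 7)
      linarith⟩
  have hb : 1 < 1 + η := by linarith
  have hcube : (1 - ε) * (1 + η) ^ 3 ≤ 1 := by
    rcases le_or_gt ε 1 with h | h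
    · have e1 : (1 + η) ^ 3 ≤ 1 + 7 * η := by nlinarith [mul_nonneg hη.le (sub_nonneg.mpr hη1)]
      have e2 : (1 - ε) * (1 + η) ^ 3 ≤ (1 - ε) * (1 + 7 * η) :=
        mul_le_mul_of_nonneg_left e1 (by linarith)
      nlinarith [mul_pos hη hε]
    · have e1 : (1 - ε) * (1 + η) ^ 3 ≤ 0 :=
        mul_nonpos_of_nonpos_of_nonneg (by linarith) (by positivity)
      linarith
  let Q : ℕ → Prop := fun k =>
    1 < s₀ * (1 + η) ^ (k + 1) ∨ ∃ n, 1 < aS μ Z (s₀ * (1 + η) ^ (k + 1)) 0 n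
  have hex : ∃ k, Q k := by
    obtain ⟨k, hk⟩ := pow_unbounded_of_one_lt (1 / s₀) hb
    refine ⟨k, Or.inl ?_⟩
    have e1 : 1 < s₀ * (1 + η) ^ k := by
      rw [div_lt_iff₀ hs₀] at hk
      linarith
    have e2 : (1 + η) ^ k ≤ (1 + η) ^ (k + 1) := pow_le_pow_right₀ hb.le (Nat.le_succ k)
    have e3 := mul_le_mul_of_nonneg_left e2 hs₀.le
    linarith
  obtain ⟨k, hQ, hmin⟩ : ∃ k, Q k ∧ ∀ j < k, ¬ Q j :=
    ⟨Nat.find hex, Nat.find_spec hex, fun j hj => Nat.find_min hex hj⟩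
  set s₂ : ℝ := s₀ * (1 + η) ^ k with hs₂
  have hs₂pos : 0 < s₂ := by positivity
  have hs₂' : s₂ ≤ 1 ∧ ∀ n, aS μ Z s₂ 0 n ≤ 1 := by
    rcases Nat.eq_zero_or_pos k with hk | hk
    · have e1 : s₂ = s₀ := by rw [hs₂, hk, pow_zero, mul_one]
      rw [e1]
      exact ⟨hs₀1, hP⟩
    · have e1 := hmin (k - 1) (by omega)
      have e2 : k - 1 + 1 = k := by omega
      simp only [Q, e2, not_or, not_lt, not_exists] at e1
      exact e1
  have hstep : s₀ * (1 + η) ^ (k + 1) = s₂ * (1 + η) := by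
    rw [hs₂, pow_succ]
    ring
  have hgt : s₂ < s₂ * (1 + η) := by nlinarith
  have hgt2 : s₂ * (1 + η) < s₂ * (1 + η) ^ 2 := by nlinarith
  have hlt : s₂ / (1 + η) < s₂ := by
    rw [div_lt_iff₀ (by linarith)]
    exact hgt
  have hbad : ∀ C : ℝ, ∃ n, ENNReal.ofReal C < mom μ (s₂ * (1 + η)) (Z 0 n) := by
    rcases lt_or_ge 1 (s₂ * (1 + η)) with h | h
    · exact h1 _ h
    · have e1 : Q k := hQ
      simp only [Q, hstep] at e1
      rcases e1 with e1 | e1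
      · linarith
      · exact unbdd_of_gt hZ (by positivity) h e1
  refine ⟨s₂ / (1 + η), (s₂ / (1 + η) + s₂) / 2, s₂, s₂ * (1 + η), s₂ * (1 + η) ^ 2,
    by positivity, by linarith, by linarith, hs₂'.1, hs₂'.2,
    by positivity, hgt2, by linarith, hbad, ?_⟩
  have hp : (0 : ℝ) < (1 + η) ^ 3 := by positivity
  have hq : s₂ / (1 + η) / (s₂ * (1 + η) ^ 2) = 1 / (1 + η) ^ 3 := by
    field_simp
  rw [hq]
  have h5 : 1 - ε ≤ 1 / (1 + η) ^ 3 := by
    rw [le_div_iff₀ hp]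
    exact hcube
  linarith

open IOrd.MainAux

theorem main3 (hZ : Sys w μ Z) {F : ℝ → ℝ}
    (hF : ∀ d, 0 ≤ d → Tendsto (fun n : ℕ => (∫ ω, Real.log (Z d n ω) ∂seqLaw μ) / n) atTop
      (𝓝 (F d)))
    (hFd : ∀ d, 0 ≤ d → F d ≤ 2 * d)
    (h0 : ∃ s₀, 0 < s₀ ∧ s₀ ≤ 1 ∧ ∀ n, aS μ Z s₀ 0 n ≤ 1)
    (h1 : ∀ p, 1 < p → ∀ C : ℝ, ∃ n, ENNReal.ofReal C < mom μ p (Z 0 n))
    (hB : ∀ s s₂, 0 < s → s < s₂ → s₂ ≤ 1 → (∀ n, aS μ Z s₂ 0 n ≤ 1) → Bdp μ Z s)
    {q : ℝ} (hq : 0 < q) : ∃ K : ℝ, ∀ d, 0 ≤ d → d ≤ 1 → F d ≤ K * d ^ q := by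
  by_contra hcon
  push Not at hcon
  obtain ⟨s, s₁, s₂, s'', s', hs0, hs1, hs12, hs2, hS2, hs''0, hs'', hss', hn, hε⟩ :=
    exponents3 hZ h0 h1 (ε := 1 / (8 * q)) (by positivity)
  have hs₁1 : s₁ ≤ 1 := (hs12.le.trans hs2)
  have hsle : s ≤ 1 := hs1.le.trans hs₁1
  have hs'0 : 0 < s' := hs0.trans hss'
  have hs₁0 : 0 < s₁ := hs0.trans hs1
  have hS : ∀ n, aS μ Z s 0 n ≤ 1 := fun n =>
    aS_lyap hZ hs0 (hs1.trans hs12).le hs2 n (hS2 n)
  -- the rare block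
  obtain ⟨l₀, y, hl₀, hy, hfar⟩ := rare_exists3 hZ hs''0 hs'' hn
  set p₀ := (seqLaw μ (Far Z l₀ y)).toReal with hp₀
  have hp1 : Real.exp (-(s' * y)) < p₀ := by
    rw [hp₀]
    exact (ENNReal.ofReal_lt_iff_lt_toReal (Real.exp_pos _).le (measure_ne_top _ _)).1 hfar
  have hp0 : 0 < p₀ := (Real.exp_pos _).trans hp1
  have hp2 : Real.log (1 / p₀) ≤ s' * y := by
    rw [one_div, Real.log_inv]
    have := Real.log_lt_log (Real.exp_pos _) hp1
    rw [Real.log_exp] at this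
    linarith
  -- the bounds
  obtain ⟨d₀, C, R₁, hd₀, hC, hBd'⟩ := hB s s₂ hs0 (hs1.trans hs12) hs2 hS2
  have hC0 : 0 < C := by linarith
  set R := max R₁ ⌈4 * C * Real.exp 1⌉₊ with hRdef
  have hRR : R₁ ≤ R := le_max_left _ _
  have hRC : 4 * C * Real.exp 1 ≤ R :=
    (Nat.le_ceil _).trans (by exact_mod_cast le_max_right R₁ ⌈4 * C * Real.exp 1⌉₊)
  have hBd2 : ∀ d, 0 ≤ d → d ≤ d₀ → ∀ m N, m < N → aS μ Z s d N ≤
      C * (∑ f ∈ range (m + R + 1), aS μ Z s d f) * ∑ j ∈ range (N - m + R), aS μ Z s d j := by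
    intro d hd hdd m N hm
    refine ((hBd' d hd hdd).2 m N hm).trans ?_
    have e0 : ∀ n, 0 ≤ aS μ Z s d n := fun n => aS_nonneg μ Z s d n
    have e1 : ∑ f ∈ range (m + R₁ + 1), aS μ Z s d f ≤ ∑ f ∈ range (m + R + 1), aS μ Z s d f :=
      Finset.sum_le_sum_of_subset_of_nonneg (Finset.range_mono (by omega)) fun _ _ _ => e0 _
    have e2 : ∑ j ∈ range (N - m + R₁), aS μ Z s d j ≤ ∑ j ∈ range (N - m + R), aS μ Z s d j :=
      Finset.sum_le_sum_of_subset_of_nonneg (Finset.range_mono (by omega)) fun _ _ _ => e0 _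
    exact mul_le_mul (mul_le_mul_of_nonneg_left e1 hC0.le) e2
      (Finset.sum_nonneg fun _ _ => e0 _)
      (mul_nonneg hC0.le (Finset.sum_nonneg fun _ _ => e0 _))
  set c := s * (s₂ - s₁) / (s₁ * (s₂ - s)) with hc
  obtain ⟨hc0, hc1⟩ := level_const hs0 hs1 hs12
  rw [← hc] at hc0 hc1
  -- the growth rate
  set G : ℝ → ℝ := fun d => Gr (aS μ Z s d) with hG
  have hlip : ∀ d, 0 ≤ d → ∀ n : ℕ, aS μ Z s d n ≤ Real.exp (2 * d * n) := by
    intro d hd n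
    refine (aS_lip hZ hs0.le hsle hd n).trans ?_
    rw [show 2 * (n : ℝ) * d = 2 * d * n by ring]
    exact mul_le_of_le_one_right (Real.exp_pos _).le (hS n)
  have hGe : ∀ d, 0 ≤ d → ∃ θ, 0 ≤ θ ∧ ∀ n : ℕ, aS μ Z s d n ≤ Real.exp (θ * n) := fun d hd =>
    ⟨2 * d, by linarith, hlip d hd⟩
  have hG0 : ∀ d, 0 ≤ d → 0 ≤ G d ∧ ∀ n : ℕ, aS μ Z s d n ≤ Real.exp (G d * n) := fun d hd =>
    Gr_spec (hGe d hd)
  have hGmono : ∀ d d', 0 ≤ d → d ≤ d' → G d ≤ G d' := fun d d' hd hdd =>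
    Gr_mono (hGe d' (hd.trans hdd)) (fun n => aS_mono hZ hs0.le hsle hdd n)
  have hG2 : ∀ d, 0 ≤ d → G d ≤ 2 * d := fun d hd => Gr_le (by linarith) (hlip d hd)
  have hFG : ∀ d, 0 ≤ d → s * F d ≤ G d := fun d hd =>
    jensen_rate hZ hF hs0 hsle hd (hG0 d hd).2
  -- constants
  set p' := s₁ / (s₁ - s) with hp'
  have hp'1 : 1 ≤ p' := by
    rw [hp', le_div_iff₀ (by linarith)]
    linarith
  have hlogp : 0 ≤ Real.log (4 * p') := Real.log_nonneg (by linarith)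
  set C₀ := c ^ (-(4 * q)) with hC₀
  have hC₀0 : 0 < C₀ := Real.rpow_pos_of_pos hc0 _
  set D := 1 / (s * y) with hD
  have hD0 : 0 < D := by rw [hD]; positivity
  set a₁ := 8 * C * l₀ with ha₁
  set b₁ := 16 * C * l₀ * D with hb₁
  set a₂ := 1 + Real.exp 1 * (2 * p' * (2 * C₀ + 4 + Real.log (4 * p'))) with ha₂
  set b₂ := Real.exp 1 * (2 * p' * (16 * C₀)) with hb₂
  have ha₁0 : 0 ≤ a₁ := by rw [ha₁]; positivity
  have hb₁0 : 0 ≤ b₁ := by rw [hb₁]; positivity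
  have ha₂0 : 0 ≤ a₂ := by rw [ha₂]; positivity
  have hb₂0 : 0 ≤ b₂ := by rw [hb₂]; positivity
  obtain ⟨t₁, ht₁, hnum⟩ := final_num3 (q := q) (p₀ := p₀) (s := s) (s' := s')
    (A := b₁ + b₂ + 1) (B := a₁ + a₂) hq hp0 hs0 hss' hε (by linarith) (by linarith)
  obtain ⟨g₀, hg₀, hg₀1, hsmall⟩ := small_g (C := C) (D := D) hC0.le hD0.le R l₀
  obtain ⟨d, hd, hdt, hdc, hGd, hGdc⟩ := good_level hq hs0 hc0 hc1 hGmono hG2 hFG hFd hcon
    (min (min t₁ (g₀ / 2)) d₀) (by positivity)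
  have hdt₁ : d < t₁ := hdt.trans_le ((min_le_left _ _).trans (min_le_left _ _))
  have hdg₀ : d < g₀ / 2 := hdt.trans_le ((min_le_left _ _).trans (min_le_right _ _))
  have hdd₀ : d ≤ d₀ := (hdt.trans_le (min_le_right _ _)).le
  set g := G d with hg'
  have hg : 0 < g := lt_of_lt_of_le (by positivity) hGd
  have hgd : g ≤ 2 * d := hG2 d hd.le
  have hgg₀ : g < g₀ := by linarith
  set m₀ := ⌈8 * Real.log (1 / g) / g⌉₊ with hm₀
  set Λ := Real.log (1 / g) with hΛ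
  have hΛ0 : 0 ≤ Λ := Real.log_nonneg (by
    rw [le_div_iff₀ hg]
    linarith)
  obtain ⟨hR, hlogm, hgm, hcr, hl⟩ := hsmall g m₀ hg hgg₀ rfl
  have hm₀pos : 1 ≤ m₀ := by omega
  have hm₀r : (1 : ℝ) ≤ m₀ := by exact_mod_cast hm₀pos
  set u := aS μ Z s d with hu
  have hu0 : ∀ n, 0 ≤ u n := fun n => aS_nonneg μ Z s d n
  have hum : ∀ m n, u m * u n ≤ u (m + n) := fun m n => aS_mul hZ hs0.le hsle d m n
  -- some fractional moment is larger than two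
  have h5 : ∃ i ≤ m₀, 2 < u i := by
    by_contra hcon2
    push Not at hcon2
    have e1 := crowd hu0 hC0.le hg hR (hBd2 d hd.le hdd₀) hcon2 hcr
    have e2 := le_exp_of_super hu0 hum e1
    have e3 : g ≤ g / 2 := Gr_le (by linarith) e2
    linarith
  -- the rare blocks
  obtain ⟨k, hk1, hkp, hkM, hkl, hkL⟩ := rare_choose hZ hs0 hsle hS hy hp₀ hp0
    (M := 2 * (m₀ : ℝ)) (by linarith)
  set l := k * l₀ with hldef
  set L := (k : ℝ) * y with hLdef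
  have hl1 : 1 ≤ l := Nat.one_le_iff_ne_zero.2 (Nat.mul_ne_zero (by omega) (by omega))
  have hkr : (1 : ℝ) ≤ k := by exact_mod_cast hk1
  have hkb : (k : ℝ) ≤ 1 + D * Real.log (2 * m₀) := by
    have e1 : (k : ℝ) - 1 ≤ Real.log (2 * m₀) / (s * y) := by
      rw [le_div_iff₀ (by positivity)]
      exact hkl
    have e2 : Real.log (2 * (m₀ : ℝ)) / (s * y) = D * Real.log (2 * m₀) := by
      rw [hD]; ring
    linarith
  have hll : (l : ℝ) ≤ l₀ * (1 + D * Real.log (2 * m₀)) := by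
    rw [hldef]
    push_cast
    rw [mul_comm (k : ℝ)]
    exact mul_le_mul_of_nonneg_left hkb (by positivity)
  obtain ⟨hlg, hlJ⟩ := hl l hll
  -- the length
  obtain ⟨m, i₀, hi₀m, hmm, hi₀2, hmax⟩ := choice hg (hG0 d hd.le).2 h5 (l := l + R)
    (J := ⌈2 * g * m₀⌉₊ + 1) hlg (by
      push_cast
      have := Nat.le_ceil (2 * g * (m₀ : ℝ))
      linarith) hlJ
  -- the contacts
  obtain ⟨n', hn'1, hder⟩ := (hBd' d hd.le hdd₀).1 i₀ (2 * m₀) (by omega) (by omega)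
    (Real.exp 1 * u i₀) (fun i hi => hmax i (by omega))
  have hn' : n' ≤ i₀ + R := hn'1.trans (by omega)
  have hcv0 : 0 ≤ cv u n' := Finset.sum_nonneg fun x _ => mul_nonneg (hu0 _) (hu0 _)
  have hcv : u i₀ ≤ 8 * d * C * Λ * cv u n' := by
    have e1 : aS μ Z s 0 i₀ ≤ 1 := hS i₀
    have e2 : u i₀ ≤ aS μ Z s 0 i₀ + d * (C * Real.log ((2 * m₀ : ℕ) : ℝ)) * cv u n' +
      C * (Real.exp 1 * u i₀) / ((2 * m₀ : ℕ) : ℝ) := hder
    push_cast at e2
    have e3 : C * (Real.exp 1 * u i₀) / (2 * (m₀ : ℝ)) ≤ u i₀ / 4 := by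
      rw [div_le_iff₀ (by positivity)]
      have e4 : (2 : ℝ) * R < m₀ := by exact_mod_cast hR
      have e5 : 8 * C * Real.exp 1 ≤ m₀ := by linarith
      have e6 := mul_le_mul_of_nonneg_right e5 (hu0 i₀)
      have e9 : u i₀ / 4 * (2 * (m₀ : ℝ)) = (m₀ : ℝ) * u i₀ / 2 := by ring
      have e10 : C * (Real.exp 1 * u i₀) = 8 * C * Real.exp 1 * u i₀ / 8 := by ring
      have e11 : 0 ≤ (m₀ : ℝ) * u i₀ := mul_nonneg (Nat.cast_nonneg _) (hu0 _)
      rw [e9, e10]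
      linarith only [e6, e11]
    have e7 : d * (C * Real.log (2 * (m₀ : ℝ))) * cv u n' ≤ d * (C * (2 * Λ)) * cv u n' := by
      gcongr
    have e8 : d * (C * (2 * Λ)) * cv u n' = (8 * d * C * Λ * cv u n') / 4 := by ring
    rw [e8] at e7
    linarith only [e1, e2, e3, e7, hi₀2]
  have hn'l : n' + l ≤ m + (l + R) := by omega
  have hn'M : n' + l ≤ 2 * m₀ := hn'l.trans hmm
  -- the truncation
  set E := 2 * C₀ * (8 * Λ + 1) with hE
  have hE0 : 0 ≤ E := by rw [hE]; positivity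
  set K := 2 * p' * (E + 4 + Real.log (4 * p')) with hK
  have hK0 : 0 < K := by rw [hK]; positivity
  have hE1 : u (n' + l) ≤ Real.exp 1 * u i₀ := hmax _ hn'l
  have hE2 : aS μ Z s₁ d (n' + l) ≤ Real.exp E := by
    have e1 := aS_level hZ hs0 hs1 hs12 hs2 (d := d / c) (div_nonneg hd.le hc0.le) (n' + l)
      (hS2 _)
    rw [← hc, mul_div_cancel₀ _ hc0.ne'] at e1
    refine e1.trans (max_le (Real.one_le_exp hE0) (((hG0 (d / c)
      (div_nonneg hd.le hc0.le)).2 (n' + l)).trans (Real.exp_le_exp.2 ?_)))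
    have e2 : ((n' + l : ℕ) : ℝ) ≤ 2 * m₀ := by exact_mod_cast hn'M
    calc G (d / c) * ((n' + l : ℕ) : ℝ) ≤ (C₀ * g) * (2 * m₀) :=
          mul_le_mul hGdc e2 (by positivity) (by positivity)
      _ = 2 * C₀ * (g * m₀) := by ring
      _ ≤ E := by
          rw [hE]
          exact mul_le_mul_of_nonneg_left hgm (by positivity)
  have hpl := planting hZ hs0 hs1 hs₁1 hd.le hl1 L n' (M := 2 * (m₀ : ℝ)) (K := K)
    (by linarith) hK0 hkM (by
      have : ((n' : ℕ) : ℝ) ≤ ((2 * m₀ : ℕ) : ℝ) := by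
        exact_mod_cast (Nat.le_add_right n' l).trans hn'M
      push_cast at this
      exact this)
  rw [← hp'] at hpl
  have htr := trunc_le hp'1 hE0 hE2 hK
  have hui : 1 ≤ u i₀ := by linarith
  have hlr : (1 : ℝ) ≤ l := by exact_mod_cast hl1
  have hup : (l : ℝ) * (K * u (n' + l) + 2 * p' * Real.exp (-(K / (2 * p'))) *
      (aS μ Z s₁ d (n' + l) + Real.exp 4)) ≤ l * (Real.exp 1 * K + 1) * u i₀ := by
    have e1 : K * u (n' + l) ≤ K * (Real.exp 1 * u i₀) := mul_le_mul_of_nonneg_left hE1 hK0.le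
    have e2 : K * u (n' + l) + 2 * p' * Real.exp (-(K / (2 * p'))) *
        (aS μ Z s₁ d (n' + l) + Real.exp 4) ≤ (Real.exp 1 * K + 1) * u i₀ := by
      linarith
    have e3 := mul_le_mul_of_nonneg_left e2 (show (0 : ℝ) ≤ l by linarith)
    rw [← mul_assoc] at e3
    exact e3
  have hfin := hpl.trans hup
  set π := (seqLaw μ (Far Z l L)).toReal with hπ
  have hπ0 : p₀ / (2 * (m₀ : ℝ)) ≤ π := hkp
  have hπpos : 0 < π := lt_of_lt_of_le (by positivity) hπ0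
  -- the exponential gain
  set M := 2 * (m₀ : ℝ) with hM
  have hM1 : 1 < M := by rw [hM]; linarith
  have hM0 : 0 < M := by linarith
  have hgain : M ^ (s / s') ≤ Real.exp (s * L) := by
    rw [Real.rpow_def_of_pos hM0]
    apply Real.exp_le_exp.2
    have e1 : Real.log M ≤ k * (s' * y) :=
      hkL.trans (mul_le_mul_of_nonneg_left hp2 (by positivity))
    have e2 : Real.log M * (s / s') ≤ (k * (s' * y)) * (s / s') :=
      mul_le_mul_of_nonneg_right e1 (by positivity)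
    refine e2.trans (le_of_eq ?_)
    rw [hLdef]
    field_simp
  -- conclusion
  refine hnum d g m₀ hd hdt₁ hg hGd hgd rfl ?_
  have e1 : p₀ * M ^ (-(1 - s / s')) ≤ Real.exp (s * L) * π := by
    have : M ^ (-(1 - s / s')) = M ^ (s / s') / M := by
      rw [show -(1 - s / s') = s / s' - 1 by ring, Real.rpow_sub_one hM0.ne']
    rw [this]
    calc p₀ * (M ^ (s / s') / M) = M ^ (s / s') * (p₀ / M) := by ring
      _ ≤ Real.exp (s * L) * π := mul_le_mul hgain hπ0 (by positivity) (Real.exp_pos _).le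
  have e2 : Real.exp (s * L) * π * u i₀ ≤
      8 * d * C * Λ * (l * (Real.exp 1 * K + 1)) * u i₀ := by
    calc Real.exp (s * L) * π * u i₀ ≤ Real.exp (s * L) * π * (8 * d * C * Λ * cv u n') :=
          mul_le_mul_of_nonneg_left hcv (by positivity)
      _ = 8 * d * C * Λ * (Real.exp (s * L) * π * cv u n') := by ring
      _ ≤ 8 * d * C * Λ * (l * (Real.exp 1 * K + 1) * u i₀) :=
          mul_le_mul_of_nonneg_left hfin (by positivity)
      _ = 8 * d * C * Λ * (l * (Real.exp 1 * K + 1)) * u i₀ := by ring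
  have e3 : Real.exp (s * L) * π ≤ 8 * d * C * Λ * (l * (Real.exp 1 * K + 1)) :=
    le_of_mul_le_mul_right e2 (by linarith)
  refine e1.trans (e3.trans ?_)
  have e4 : 8 * C * (l : ℝ) ≤ a₁ + b₁ * Λ := by
    have e5 : (l : ℝ) ≤ l₀ * (1 + D * (2 * Λ)) := hll.trans
      (mul_le_mul_of_nonneg_left (by
        have := mul_le_mul_of_nonneg_left hlogm hD0.le
        linarith) (by positivity))
    have e6 : 8 * C * (l : ℝ) ≤ 8 * C * (l₀ * (1 + D * (2 * Λ))) :=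
      mul_le_mul_of_nonneg_left e5 (by positivity)
    refine e6.trans (le_of_eq ?_)
    rw [ha₁, hb₁]
    ring
  have e5 : Real.exp 1 * K + 1 = a₂ + b₂ * Λ := by
    rw [hK, hE, ha₂, hb₂]
    ring
  set T := (b₁ + b₂ + 1) * Λ + (a₁ + a₂) with hT
  have hT' : T = b₁ * Λ + b₂ * Λ + Λ + a₁ + a₂ := by rw [hT]; ring
  have p1 : 0 ≤ b₁ * Λ := mul_nonneg hb₁0 hΛ0
  have p2 : 0 ≤ b₂ * Λ := mul_nonneg hb₂0 hΛ0
  have t1 : Λ ≤ T := by rw [hT']; linarith only [p1, p2, ha₁0, ha₂0]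
  have t2 : 8 * C * (l : ℝ) ≤ T := by rw [hT']; linarith only [e4, p2, hΛ0, ha₂0]
  have t3 : Real.exp 1 * K + 1 ≤ T := by rw [hT', e5]; linarith only [p1, hΛ0, ha₁0]
  have t0 : 0 ≤ T := hΛ0.trans t1
  calc 8 * d * C * Λ * (l * (Real.exp 1 * K + 1)) =
        d * (Λ * ((8 * C * l) * (Real.exp 1 * K + 1))) := by ring
    _ ≤ d * (T * (T * T)) := by
        refine mul_le_mul_of_nonneg_left ?_ hd.le
        refine mul_le_mul t1 ?_ (by positivity) t0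
        exact mul_le_mul t2 t3 (by positivity) t0
    _ = d * T ^ 3 := by ring

end

end Pool.Agent.IG
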