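import Pool.Agent.Lib.MP_daa227_pr_IG.Ord
import Pool.Agent.Lib.MP_daa227_pr_IG.MCore
import Pool.Agent.Lib.MP_daa227_pr_IG.MTr
import Pool.Agent.Lib.MP_daa227_pr_IG.MTail

/-!
# MP_daa227_pr, marginal case: infinite order
-/

namespace Pool.Agent.IG

open MeasureTheory ProbabilityTheory Finset Filter Topology
open MP_daa227_pr (Chain Zk Zf Gk Gf KU K0 Ren shift seqLaw ExpMom DepOn Good GoodW mom)
open Pool.Agent.AZ (Mod Kv lmg)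
open Pool.Agent.IOrd (Sys aS cv)

noncomputable section

/-- marginal case, potential vanishing far to the right: no moment of order larger than one is
bounded at the critical point -/
theorem marg_unbd (M : Mod) {R : ℕ} (hφ : ∀ z : ℤ, (R : ℤ) ≤ z → M.φ z = 0) {c B : ℝ}
    (hc : 0 < c) (h1 : ∀ n : ℕ, 1 ≤ n → c * (n : ℝ) ^ (-(3 / 2 : ℝ)) ≤ AZ.A24.fp M.C n)
    (h2 : ∀ n : ℕ, 1 ≤ n → AZ.A24.fp M.C n ≤ B * (n : ℝ) ^ (-(3 / 2 : ℝ)))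
    (hF : FTail M.C (1 / 2)) (hF' : FTail (AZ.cneg M.C) (1 / 2)) {h₀ : ℝ} (h0 : 0 < h₀)
    (hcrit : ∀ h, 0 < M.Fr h ↔ h < h₀) : Unbd M h₀ := by
  intro p hp K
  by_contra hcon
  push Not at hcon
  have hg := bdd_sum hp hcon
  have hg1 : ∀ η : ℝ, 0 < η → ∃ N : ℕ, 1 - η ≤ ∑ n ∈ range N, M.g h₀ n := fun η hη =>
    bdd_one h0 hcrit hp hcon hη
  obtain ⟨A, _, hT⟩ := g_tail M h0 hg (bdd_ldec hp hcon) (a := 1 / 2) (by norm_num) (by norm_num) hF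
    (fun _ => hF')
  obtain ⟨c₁, hc₁, hlow⟩ := g_half M hφ hc h1 h2 h₀
  obtain ⟨c₂, hc₂, hU⟩ := u_half M hg hg1 hT hc₁ hlow
  obtain ⟨c₃, hc₃, hU'⟩ := u_shM M R hc₂ hU
  obtain ⟨K', hK'⟩ := mom_shM M R (by linarith : 0 < p) hcon
  obtain ⟨c₄, B₄, hc₄, hf1, _⟩ := fp_half M.C M.hnl hc h1 h2 R
  have hφ' : ∀ z : ℤ, 0 ≤ z → (shM M R).φ z = 0 := fun z hz => hφ (z + R) (by linarith)
  have hf0 : 0 < AZ.A24.fp (AZ.ctr M.C R) 0 := by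
    unfold AZ.A24.fp
    have h3 : K0 (AZ.ctr M.C R) (2 * 0 + 1) 1 = (AZ.ctr M.C R).p 1 0 := by
      simp [K0]
    rw [h3]
    exact (AZ.ctr M.C R).down 1
  have hp01 : 0 < (AZ.ctr M.C R).p 0 1 := by
    have := (AZ.ctr M.C R).up 0
    rwa [zero_add] at this
  set c₅ : ℝ := (AZ.ctr M.C R).p 0 1 * min c₄ (AZ.A24.fp (AZ.ctr M.C R) 0) with hc₅
  have hc₅0 : 0 < c₅ := mul_pos hp01 (lt_min hc₄ hf0)
  refine marg_core (shM M R) hφ' hp hK' hc₅0 (fun d hd => ?_) hc₃ hU'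
  change c₅ * (d : ℝ) ^ (-(3 / 2 : ℝ)) ≤ (AZ.ctr M.C R).p 0 1 * K0 (AZ.ctr M.C R) (2 * d - 1) 1
  rw [hc₅, mul_assoc]
  refine mul_le_mul_of_nonneg_left ?_ hp01.le
  have hfp : K0 (AZ.ctr M.C R) (2 * d - 1) 1 = AZ.A24.fp (AZ.ctr M.C R) (d - 1) := by
    unfold AZ.A24.fp
    congr 1
    omega
  rw [hfp]
  have hd0 : (0 : ℝ) < d := by exact_mod_cast hd
  rcases Nat.eq_or_lt_of_le hd with h3 | h3
  · rw [← h3]
    simp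
  · have hd1 : (0 : ℝ) < ((d - 1 : ℕ) : ℝ) := by exact_mod_cast (by omega : 0 < d - 1)
    have h4 : (d : ℝ) ^ (-(3 / 2 : ℝ)) ≤ ((d - 1 : ℕ) : ℝ) ^ (-(3 / 2 : ℝ)) := by
      apply Real.rpow_le_rpow_of_nonpos hd1 _ (by norm_num)
      exact_mod_cast (by omega : d - 1 ≤ d)
    calc min c₄ (AZ.A24.fp (AZ.ctr M.C R) 0) * (d : ℝ) ^ (-(3 / 2 : ℝ)) ≤
          c₄ * ((d - 1 : ℕ) : ℝ) ^ (-(3 / 2 : ℝ)) :=
          mul_le_mul (min_le_left _ _) h4 (Real.rpow_nonneg hd0.le _) hc₄.le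
      _ ≤ _ := hf1 (d - 1) (by omega)

end

end Pool.Agent.IG
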