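import Pool.Agent.Lib.MP_daa227_pr_IG.SDef
import Pool.Agent.Lib.MP_daa227_pr_AZ.JenQ
import Pool.Agent.Lib.MP_daa227_pr_AZ.Strat

/-!
# MP_daa227_pr, exact order: the mean of the potential along a penalised excursion
-/

namespace Pool.Agent.IG

open MeasureTheory ProbabilityTheory Finset Filter Topology
open MP_daa227_pr (Chain Zk Zf Gk Gf KU K0 Ren shift seqLaw ExpMom DepOn Good GoodW mom)
open Pool.Agent.AZ (Mod Kv lmg)
open Pool.Agent.IOrd (Sys aS cv)

noncomputable section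

theorem cf_nonneg (M : Mod) (h : ℝ) (n i : ℕ) : 0 ≤ cf M h n i :=
  div_nonneg (AZ.oc_nonneg M.C M.φ_nonneg h n i 0) (AZ.Kv_nonneg M.C _ n 0)

namespace SMean

theorem oc_le (C : Chain) {φ : ℤ → ℝ} {Φ : ℝ} (hφ : ∀ x, φ x ≤ Φ) (η : ℝ)
    (hΦ : 0 ≤ Φ) (n i : ℕ) (x : ℤ) :
    AZ.oc C φ η n i x ≤ Φ * Kv C (fun z => -η * φ z) n x := by
  induction n generalizing i x with
  | zero =>
    rw [AZ.Kv_zero, mul_zero]
    exact le_rfl
  | succ n ih =>
    rw [AZ.Kv_succ, mul_add, Finset.mul_sum]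
    cases i with
    | zero =>
      rw [AZ.oc]
      refine add_le_add ?_ (Finset.sum_le_sum fun z _ => ?_)
      · split_ifs
        · have h1 : 0 ≤ C.p x 0 * Real.exp (-η * φ 0) :=
            mul_nonneg (C.nonneg _ _) (Real.exp_pos _).le
          rw [mul_comm Φ]
          exact mul_le_mul_of_nonneg_left (hφ 0) h1
        · rw [mul_zero]
      · have h1 : 0 ≤ C.p x z * Real.exp (-η * φ z) :=
          mul_nonneg (C.nonneg _ _) (Real.exp_pos _).le
        have h2 := mul_le_mul_of_nonneg_right (hφ z) (AZ.Kv_nonneg C (fun z => -η * φ z) n z)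
        have h3 := mul_le_mul_of_nonneg_left h2 h1
        linarith
    | succ i =>
      rw [AZ.oc]
      have h0 : (0 : ℝ) ≤ Φ * (if n = 0 then C.p x 0 * Real.exp (-η * φ 0) else 0) := by
        refine mul_nonneg hΦ ?_
        split_ifs
        · exact mul_nonneg (C.nonneg _ _) (Real.exp_pos _).le
        · exact le_rfl
      refine le_add_of_nonneg_of_le h0 (Finset.sum_le_sum fun z _ => ?_)
      have h1 : 0 ≤ C.p x z * Real.exp (-η * φ z) :=
        mul_nonneg (C.nonneg _ _) (Real.exp_pos _).le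
      have h3 := mul_le_mul_of_nonneg_left (ih i z) h1
      linarith

end SMean

/-- `oc C φ η n i x ≤ Φ Kv` by induction -/
theorem cf_le (M : Mod) (h : ℝ) (n i : ℕ) : cf M h n i ≤ M.Φ := by
  have h1 := SMean.oc_le M.C M.φ_le h M.Φ_pos.le n i 0
  have h2 := AZ.Kv_nonneg M.C (fun z => -h * M.φ z) n 0
  exact div_le_of_le_mul₀ h2 M.Φ_pos.le h1

/-- `AZ.jensenQ` with the constant sequence `c = h / 2` (`(h/2 - h) φ = -(h/2) φ`):
`Kv (-h φ) exp ((h/2) ∑ cf) ≤ Kv (-(h/2) φ) ≤ K0`, and `hA` (at `η = h`), `hU` with `ε h / 8`. -/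
theorem cf_sum (M : Mod) {α h : ℝ} (hh : 0 < h) (hA : PolyA M α) (hU : KUp M.C α) {ε : ℝ}
    (hε : 0 < ε) : ∀ᶠ n : ℕ in atTop, ∑ i ∈ range (2 * n), cf M h (2 * n) i ≤ ε * Real.log n := by
  have he : 0 < ε * h / 8 := by positivity
  filter_upwards [hA h hh _ he, hU _ he, eventually_ge_atTop 2] with n h1 h2 hn
  have hK : 0 < Kv M.C (fun z => -h * M.φ z) (2 * n) 0 := AZ.Kv_even_pos M.C _ (by omega)
  have h3 := AZ.jensenQ M.C M.φ h (2 * n) (fun _ => h / 2) 0 hK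
  have h4 : (∑ i ∈ range (2 * n), (fun _ => h / 2) i * AZ.oc M.C M.φ h (2 * n) i 0) /
      Kv M.C (fun z => -h * M.φ z) (2 * n) 0 =
      h / 2 * ∑ i ∈ range (2 * n), cf M h (2 * n) i := by
    unfold cf
    rw [Finset.mul_sum, Finset.sum_div]
    refine Finset.sum_congr rfl fun i _ => ?_
    rw [mul_div_assoc]
  have h5 : KU M.C (2 * n) (fun i z => ((fun _ => h / 2) i - h) * M.φ z) 0 ≤
      K0 M.C (2 * n) 0 := by
    rw [← AZ.Kv_K0]
    refine AZ.Kv_mono M.C (v := fun z => (h / 2 - h) * M.φ z) (fun z => ?_) (2 * n) 0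
    have := mul_nonneg hh.le (M.φ_nonneg z)
    linarith
  rw [h4] at h3
  have h6 := (h3.trans h5).trans h2
  have hN : (0 : ℝ) < ((2 * n : ℕ) : ℝ) := by
    have : 0 < 2 * n := by omega
    exact_mod_cast this
  have h7 : ((2 * n : ℕ) : ℝ) ^ (-(1 + α + ε * h / 8)) *
      Real.exp (h / 2 * ∑ i ∈ range (2 * n), cf M h (2 * n) i) ≤
      ((2 * n : ℕ) : ℝ) ^ (-(1 + α - ε * h / 8)) :=
    (mul_le_mul_of_nonneg_right h1 (Real.exp_pos _).le).trans h6
  have h8 := Real.log_le_log (mul_pos (Real.rpow_pos_of_pos hN _) (Real.exp_pos _)) h7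
  rw [Real.log_mul (Real.rpow_pos_of_pos hN _).ne' (Real.exp_ne_zero _), Real.log_exp,
    Real.log_rpow hN, Real.log_rpow hN] at h8
  have h9 : Real.log ((2 * n : ℕ) : ℝ) ≤ 2 * Real.log n := by
    have hn1 : (2 : ℝ) ≤ n := by exact_mod_cast hn
    push_cast
    rw [Real.log_mul (by norm_num) (by linarith)]
    have := Real.log_le_log (by norm_num) hn1
    linarith
  have h10 : h / 2 * ∑ i ∈ range (2 * n), cf M h (2 * n) i ≤
      h / 2 * (ε * Real.log n) := by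
    have h11 := mul_le_mul_of_nonneg_left h9 (mul_nonneg hε.le hh.le)
    nlinarith
  exact le_of_mul_le_mul_left h10 (by positivity)

/-- `AZ.Strat.G_ge` -/
theorem g_ge (M : Mod) (h : ℝ) {n : ℕ} (hn : 1 ≤ n) (ω : ℕ → ℝ) :
    Kv M.C (fun z => -h * M.φ z) (2 * n) 0 *
      Real.exp (M.β * ∑ i ∈ range (2 * n), ω i * cf M h (2 * n) i) ≤ M.G h (2 * n) ω := by
  have hK : 0 < Kv M.C (fun z => -h * M.φ z) (2 * n) 0 := AZ.Kv_even_pos M.C _ (by omega)
  obtain ⟨h1, h2⟩ := AZ.Strat.G_ge M h (even_two_mul n) (show 0 < 2 * n by omega) ω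
  have h3 : AZ.Strat.lk M h (2 * n) ω = Real.log (Kv M.C (fun z => -h * M.φ z) (2 * n) 0) +
      M.β * ∑ i ∈ range (2 * n), ω i * cf M h (2 * n) i := by
    unfold AZ.Strat.lk cf
    rw [Finset.mul_sum, Finset.sum_div]
    congr 1
    refine Finset.sum_congr rfl fun i _ => ?_
    ring
  rw [h3] at h2
  have h4 := Real.exp_le_exp.2 h2
  rw [Real.exp_add, Real.exp_log hK, Real.exp_log h1] at h4
  exact h4

end

end Pool.Agent.IG
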