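import Pool.Agent.Lib.MP_daa227_pr_IG.NFkg
import Pool.Agent.Lib.MP_daa227_pr_IG.SX
import Pool.Agent.Lib.MP_daa227_pr_IG.ST
import Pool.Agent.Lib.MP_daa227_pr_IG.SUse
import Pool.Agent.Lib.MP_daa227_pr_IG.SMean

/-!
# MP_daa227_pr, marginal case: moments of the block sums, random jump weights
-/

namespace Pool.Agent.IG

open MeasureTheory ProbabilityTheory Finset Filter Topology
open MP_daa227_pr (Chain Zk Zf Gk Gf KU K0 Ren shift seqLaw ExpMom DepOn Good GoodW mom)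
open Pool.Agent.AZ (Mod Kv lmg)
open Pool.Agent.IOrd (Sys aS cv)

noncomputable section

/-- all weights `exp ((β a - h) φ z)` are nondecreasing in `a` (`β > 0`, `φ ≥ 0`); induction -/
theorem zk_mono (M : Mod) (h : ℝ) (n : ℕ) (x y : ℤ) :
    Monotone (fun ω => Zk M.C (M.W h) n ω x y) := by
  induction n generalizing x y with
  | zero =>
    intro ω ω' _
    exact le_of_eq rfl
  | succ n ih =>
    intro ω ω' hω
    show ∑ z ∈ Finset.Icc (x - 1) (x + 1), M.C.p x z * M.W h (ω 0) z *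
      Zk M.C (M.W h) n (shift 1 ω) z y ≤ ∑ z ∈ Finset.Icc (x - 1) (x + 1),
      M.C.p x z * M.W h (ω' 0) z * Zk M.C (M.W h) n (shift 1 ω') z y
    refine Finset.sum_le_sum fun z _ => ?_
    have h1 : M.W h (ω 0) z ≤ M.W h (ω' 0) z := by
      unfold Mod.W
      refine Real.exp_le_exp.2 (mul_le_mul_of_nonneg_right ?_ (M.φ_nonneg z))
      have := mul_le_mul_of_nonneg_left (hω 0) M.β_pos.le
      linarith
    have h2 : Zk M.C (M.W h) n (shift 1 ω) z y ≤ Zk M.C (M.W h) n (shift 1 ω') z y :=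
      ih z y (fun i => hω (i + 1))
    exact mul_le_mul (mul_le_mul_of_nonneg_left h1 (M.C.nonneg _ _)) h2
      ((M.good_Zk h n z y).nonneg _)
      (mul_nonneg (M.C.nonneg _ _) (M.W_pos h _ _).le)

/-- the random part of the weight of an excursion of length `2 d`, truncated at one -/
def Jd (M : Mod) (h : ℝ) (d : ℕ) (ω : ℕ → ℝ) : ℝ :=
  min 1 (Real.exp (M.β * ∑ i ∈ range (2 * d), ω i * cf M h (2 * d) i))

/-- `g_ge` (Lib/MP_daa227_pr_IG/SMean.lean) -/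
theorem jd_le (M : Mod) (h : ℝ) {d : ℕ} (hd : 1 ≤ d) (ω : ℕ → ℝ) :
    Kv M.C (fun z => -h * M.φ z) (2 * d) 0 * Jd M h d ω ≤ M.G h (2 * d) ω := by
  unfold Jd
  exact (mul_le_mul_of_nonneg_left (min_le_right _ _) (AZ.Kv_nonneg M.C _ _ 0)).trans
    (g_ge M h hd ω)

/-- monotone (`cf_nonneg`), measurable, depends on the first `2 d` charges, in `[0, 1]` -/
theorem jd_mono (M : Mod) (h : ℝ) (d : ℕ) : Monotone (Jd M h d) ∧ Measurable (Jd M h d) ∧
    DepOn (2 * d) (Jd M h d) ∧ (∀ ω, 0 ≤ Jd M h d ω) ∧ ∀ ω, Jd M h d ω ≤ 1 := by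
  refine ⟨fun ω ω' hω => ?_, ?_, fun ω ω' hω => ?_, fun ω => ?_, fun ω => min_le_left _ _⟩
  · unfold Jd
    refine min_le_min le_rfl (Real.exp_le_exp.2 (mul_le_mul_of_nonneg_left ?_ M.β_pos.le))
    exact Finset.sum_le_sum fun i _ => mul_le_mul_of_nonneg_right (hω i) (cf_nonneg M h _ _)
  · unfold Jd
    refine measurable_const.min (Real.measurable_exp.comp (measurable_const.mul ?_))
    exact Finset.measurable_fun_sum _ fun i _ => (measurable_pi_apply i).mul_const _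
  · unfold Jd
    rw [Finset.sum_congr rfl fun i hi => by rw [hω i (Finset.mem_range.1 hi)]]
  · exact le_min zero_le_one (Real.exp_pos _).le

namespace NBlk

theorem int_sq (M : Mod) : Integrable (fun x : ℝ => x ^ 2) M.μ := by
  by_contra hc
  have h1 := integral_undef hc
  rw [M.var] at h1
  exact one_ne_zero h1

theorem int_y (M : Mod) : Integrable (fun x : ℝ => (1 + x ^ 2) / 2) M.μ :=
  ((integrable_const (1 : ℝ)).add (int_sq M)).div_const 2

theorem val_y (M : Mod) : ∫ x, (1 + x ^ 2) / 2 ∂M.μ = 1 := by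
  rw [integral_div, integral_add (integrable_const (1 : ℝ)) (int_sq M), M.var]
  simp

theorem cf_bd (M : Mod) {h c B : ℝ} (hh : 0 < h) (hc : 0 < c) {d : ℕ} (hd : 1 ≤ d)
    (hlow : c * (d : ℝ) ^ (-(3 / 2 : ℝ)) ≤ Kv M.C (fun z => -h * M.φ z) (2 * d) 0)
    (hup : K0 M.C (2 * d) 0 ≤ B * (d : ℝ) ^ (-(3 / 2 : ℝ))) :
    ∑ i ∈ range (2 * d), cf M h (2 * d) i ≤ 2 / h * Real.log (B / c) := by
  have hK : 0 < Kv M.C (fun z => -h * M.φ z) (2 * d) 0 := AZ.Kv_even_pos M.C _ (by omega)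
  have h3 := AZ.jensenQ M.C M.φ h (2 * d) (fun _ => h / 2) 0 hK
  have h4 : (∑ i ∈ range (2 * d), (fun _ => h / 2) i * AZ.oc M.C M.φ h (2 * d) i 0) /
      Kv M.C (fun z => -h * M.φ z) (2 * d) 0 =
      h / 2 * ∑ i ∈ range (2 * d), cf M h (2 * d) i := by
    unfold cf
    rw [Finset.mul_sum, Finset.sum_div]
    refine Finset.sum_congr rfl fun i _ => ?_
    rw [mul_div_assoc]
  have h5 : KU M.C (2 * d) (fun i z => ((fun _ => h / 2) i - h) * M.φ z) 0 ≤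
      K0 M.C (2 * d) 0 := by
    rw [← AZ.Kv_K0]
    refine AZ.Kv_mono M.C (v := fun z => (h / 2 - h) * M.φ z) (fun z => ?_) (2 * d) 0
    have := mul_nonneg hh.le (M.φ_nonneg z)
    linarith
  rw [h4] at h3
  have h6 := (h3.trans h5).trans hup
  have hN : (0 : ℝ) < d := by exact_mod_cast hd
  have hr : (0 : ℝ) < (d : ℝ) ^ (-(3 / 2 : ℝ)) := Real.rpow_pos_of_pos hN _
  set S : ℝ := ∑ i ∈ range (2 * d), cf M h (2 * d) i with hS
  have h7 : c * (d : ℝ) ^ (-(3 / 2 : ℝ)) * Real.exp (h / 2 * S) ≤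
      B * (d : ℝ) ^ (-(3 / 2 : ℝ)) :=
    (mul_le_mul_of_nonneg_right hlow (Real.exp_pos _).le).trans h6
  have h8 : c * Real.exp (h / 2 * S) ≤ B := by
    refine le_of_mul_le_mul_right ?_ hr
    calc c * Real.exp (h / 2 * S) * (d : ℝ) ^ (-(3 / 2 : ℝ))
        = c * (d : ℝ) ^ (-(3 / 2 : ℝ)) * Real.exp (h / 2 * S) := by ring
      _ ≤ _ := h7
  have h9 : Real.exp (h / 2 * S) ≤ B / c := by
    rw [le_div_iff₀ hc]
    linarith
  have h10 : h / 2 * S ≤ Real.log (B / c) := by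
    have := Real.log_le_log (Real.exp_pos _) h9
    rwa [Real.log_exp] at this
  have h11 : S = 2 / h * (h / 2 * S) := by
    field_simp
  rw [h11]
  exact mul_le_mul_of_nonneg_left h10 (by positivity)

theorem jd_int (M : Mod) (h : ℝ) (d : ℕ) {m : ℝ}
    (hm : M.β * ∑ i ∈ range (2 * d), cf M h (2 * d) i ≤ m) :
    Real.exp (-m) ≤ ∫ ω, Jd M h d ω ∂seqLaw M.μ := by
  obtain ⟨-, hmeas, -, hJ0, hJ1⟩ := jd_mono M h d
  set q : ℕ → ℝ := fun i => cf M h (2 * d) i with hq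
  have hq0 : ∀ i, 0 ≤ q i := fun i => cf_nonneg M h _ _
  set y : (ℕ → ℝ) → ℝ := fun ω => M.β * ∑ i ∈ range (2 * d), q i * ((1 + ω i ^ 2) / 2) with hy
  have hYm : Measurable fun x : ℝ => (1 + x ^ 2) / 2 := by fun_prop
  have hi : ∀ i, Integrable (fun ω : ℕ → ℝ => q i * ((1 + ω i ^ 2) / 2)) (seqLaw M.μ) :=
    fun i => (MP_daa227_pr.integrable_apply M.μ i hYm (int_y M)).const_mul _
  have hyi : Integrable y (seqLaw M.μ) :=
    (integrable_finsetSum _ fun i _ => hi i).const_mul _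
  have hyv : ∫ ω, y ω ∂seqLaw M.μ = M.β * ∑ i ∈ range (2 * d), q i := by
    rw [hy, integral_const_mul, integral_finsetSum _ fun i _ => hi i]
    congr 1
    refine Finset.sum_congr rfl fun i _ => ?_
    rw [integral_const_mul, MP_daa227_pr.integral_apply M.μ i hYm, val_y, mul_one]
  have hint : Integrable (Jd M h d) (seqLaw M.μ) := by
    refine Integrable.mono' (integrable_const (1 : ℝ)) hmeas.aestronglyMeasurable
      (Eventually.of_forall fun ω => ?_)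
    rw [Real.norm_eq_abs, abs_of_nonneg (hJ0 ω)]
    exact hJ1 ω
  have hg : Integrable (fun ω => Real.exp (-m) * (1 + m - y ω)) (seqLaw M.μ) :=
    ((integrable_const (1 + m)).sub hyi).const_mul _
  have hle : ∀ ω, Real.exp (-m) * (1 + m - y ω) ≤ Jd M h d ω := by
    intro ω
    have h1 : 0 ≤ y ω := mul_nonneg M.β_pos.le (Finset.sum_nonneg fun i _ =>
      mul_nonneg (hq0 i) (by positivity))
    have h2 : -y ω ≤ M.β * ∑ i ∈ range (2 * d), ω i * cf M h (2 * d) i := by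
      rw [hy, ← mul_neg, ← Finset.sum_neg_distrib]
      refine mul_le_mul_of_nonneg_left (Finset.sum_le_sum fun i _ => ?_) M.β_pos.le
      have h3 : 0 ≤ q i * (1 + ω i) ^ 2 := mul_nonneg (hq0 i) (sq_nonneg _)
      have h4 : q i = cf M h (2 * d) i := rfl
      rw [← h4]
      nlinarith
    have h5 : Real.exp (-m) * (1 + m - y ω) ≤ Real.exp (-y ω) := by
      have h6 := Real.add_one_le_exp (m - y ω)
      calc Real.exp (-m) * (1 + m - y ω) = Real.exp (-m) * (m - y ω + 1) := by ring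
        _ ≤ Real.exp (-m) * Real.exp (m - y ω) :=
          mul_le_mul_of_nonneg_left h6 (Real.exp_pos _).le
        _ = _ := by
          rw [← Real.exp_add]
          congr 1
          ring
    refine h5.trans (le_min ?_ (Real.exp_le_exp.2 h2))
    exact Real.exp_le_one_iff.2 (by linarith)
  have h1 := integral_mono hg hint hle
  refine le_trans ?_ h1
  rw [integral_const_mul, integral_sub (integrable_const _) hyi, hyv]
  simp only [integral_const, probReal_univ, one_smul]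
  have h2 : 1 ≤ 1 + m - M.β * ∑ i ∈ range (2 * d), q i := by linarith
  calc Real.exp (-m) = Real.exp (-m) * 1 := (mul_one _).symm
    _ ≤ _ := mul_le_mul_of_nonneg_left h2 (Real.exp_pos _).le

end NBlk

/-- `cf_sum` with constants: `AZ.jensenQ` with the constant sequence `h / 2`:
`Kv (-h φ) exp ((h/2) ∑ cf) ≤ Kv (-(h/2) φ) ≤ K0`, so `∑ cf ≤ (2/h) log (B/c)`. Then
`E min(1, e^X) ≥ E e^(-|X|) ≥ e^(-E|X|) ≥ e^(-√(Var X))`, `X = β ∑ ω i cf i`, `Var X = β² ∑ cf² ≤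
β² Φ ∑ cf` (`cf_le`). -/
theorem jd_mean (M : Mod) {h c B : ℝ} (hh : 0 < h) (hc : 0 < c)
    (hlow : ∀ d : ℕ, 1 ≤ d →
      c * (d : ℝ) ^ (-(3 / 2 : ℝ)) ≤ Kv M.C (fun z => -h * M.φ z) (2 * d) 0)
    (hup : ∀ d : ℕ, 1 ≤ d → K0 M.C (2 * d) 0 ≤ B * (d : ℝ) ^ (-(3 / 2 : ℝ))) :
    ∃ j₀ : ℝ, 0 < j₀ ∧ ∀ d : ℕ, 1 ≤ d →
      ENNReal.ofReal j₀ ≤ ∫⁻ ω, ENNReal.ofReal (Jd M h d ω) ∂seqLaw M.μ := by
  refine ⟨Real.exp (-(M.β * (2 / h * Real.log (B / c)))), Real.exp_pos _, fun d hd => ?_⟩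
  obtain ⟨-, hmeas, -, hJ0, hJ1⟩ := jd_mono M h d
  have h1 := NBlk.jd_int M h d (m := M.β * (2 / h * Real.log (B / c)))
    (mul_le_mul_of_nonneg_left (NBlk.cf_bd M hh hc hd (hlow d hd) (hup d hd)) M.β_pos.le)
  have hint : Integrable (Jd M h d) (seqLaw M.μ) := by
    refine Integrable.mono' (integrable_const (1 : ℝ)) hmeas.aestronglyMeasurable
      (Eventually.of_forall fun ω => ?_)
    rw [Real.norm_eq_abs, abs_of_nonneg (hJ0 ω)]
    exact hJ1 ω
  rw [← ofReal_integral_eq_lintegral_ofReal hint (Eventually.of_forall hJ0)]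
  exact ENNReal.ofReal_le_ofReal h1

namespace NBlk

theorem one (M : Mod) (h : ℝ) {l : ℕ} (k : ℕ) {κ : ℝ}
    (hK : ∀ d : ℕ, 1 ≤ d → d ≤ 2 * l → κ ≤ Kv M.C (fun z => -h * M.φ z) (2 * d) 0) (ω : ℕ → ℝ)
    {b : ℕ} (hb : b < l) :
    ∑ y ∈ range l, ∑ a ∈ range (b + 1), M.Z h (2 * (k * l + y)) ω *
      (κ * Jd M h (l + a - y) (shift (2 * (k * l + y)) ω)) *
      M.Z h (2 * (b - a)) (shift (2 * ((k + 1) * l + a)) ω) ≤
      M.Z h (2 * ((k + 1) * l + b)) ω := by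
  have hl : 0 < l := by omega
  have hkl : (k + 1) * l = k * l + l := by ring
  have hTN : 2 * ((k + 1) * l) - 1 < 2 * ((k + 1) * l + b) := by omega
  rw [ST.str0 M h hTN ω]
  refine le_trans ?_ (ST.keep (s := range l) (fun y => 2 * (k * l + y)) ?_ ?_ _ ?_)
  · refine Finset.sum_le_sum fun y hy => ?_
    rw [Finset.mem_range] at hy
    refine le_trans ?_ (ST.keep (s := range (b + 1)) (fun a => 2 * ((k + 1) * l + a)) ?_ ?_ _ ?_)
    · refine Finset.sum_le_sum fun a ha => ?_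
      rw [Finset.mem_range] at ha
      have e1 : 2 * ((k + 1) * l + b) - 2 * ((k + 1) * l + a) = 2 * (b - a) := by omega
      have e2 : 2 * ((k + 1) * l + a) - 2 * (k * l + y) = 2 * (l + a - y) := by omega
      simp only [e1, e2]
      refine mul_le_mul_of_nonneg_right ?_ (ST.Z_nn M h _ _)
      refine mul_le_mul_of_nonneg_left ?_ (ST.Z_nn M h _ _)
      have hd1 : 1 ≤ l + a - y := by omega
      refine le_trans ?_ (jd_le M h hd1 _)
      exact mul_le_mul_of_nonneg_right (hK _ hd1 (by omega))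
        ((jd_mono M h (l + a - y)).2.2.2.1 _)
    · intro a _ a' _ haa
      simp only at haa
      omega
    · intro a ha
      rw [Finset.mem_range] at ha
      rw [Finset.mem_Ioc]
      omega
    · intro r _
      exact mul_nonneg (mul_nonneg (ST.Z_nn M h _ _) (ST.G_nn M h _ _)) (ST.Z_nn M h _ _)
  · intro a _ a' _ haa
    simp only at haa
    omega
  · intro a ha
    rw [Finset.mem_range] at ha ⊢
    omega
  · intro t _
    refine Finset.sum_nonneg fun r _ => ?_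
    exact mul_nonneg (mul_nonneg (ST.Z_nn M h _ _) (ST.G_nn M h _ _)) (ST.Z_nn M h _ _)

end NBlk

/-- `ST.str0` at the block boundary, as in `ST.one` and `tb_rec` (Lib/MP_daa227_pr_IG/ST.lean), with
`jd_le` and `κ ≤ Kv (-h φ) (2 d)` for `1 ≤ d ≤ 2 l`: the jump goes from `2 (k l + y)` to
`2 ((k+1) l + a)`, `d = l + a - y`. -/
theorem tb_rec2 (M : Mod) (h : ℝ) {l : ℕ} (k : ℕ) {κ : ℝ} (hκ : 0 ≤ κ)
    (hK : ∀ d : ℕ, 1 ≤ d → d ≤ 2 * l → κ ≤ Kv M.C (fun z => -h * M.φ z) (2 * d) 0) (ω : ℕ → ℝ) :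
    κ * ∑ y ∈ range l, ∑ a ∈ range l, M.Z h (2 * (k * l + y)) ω *
      (∑ c ∈ range (l - a), M.Z h (2 * c) (shift (2 * ((k + 1) * l + a)) ω)) *
        Jd M h (l + a - y) (shift (2 * (k * l + y)) ω) ≤ TB M h l (k + 1) ω := by
  have h1 : ∑ b ∈ range l, ∑ y ∈ range l, ∑ a ∈ range (b + 1), M.Z h (2 * (k * l + y)) ω *
      (κ * Jd M h (l + a - y) (shift (2 * (k * l + y)) ω)) *
      M.Z h (2 * (b - a)) (shift (2 * ((k + 1) * l + a)) ω) ≤ TB M h l (k + 1) ω := by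
    unfold TB
    exact Finset.sum_le_sum fun b hb => NBlk.one M h k hK ω (Finset.mem_range.1 hb)
  refine le_trans (le_of_eq ?_) h1
  rw [Finset.mul_sum]
  refine Eq.trans ?_ Finset.sum_comm
  refine Finset.sum_congr rfl fun y _ => ?_
  rw [ST.tri l (fun a c => M.Z h (2 * (k * l + y)) ω *
    (κ * Jd M h (l + a - y) (shift (2 * (k * l + y)) ω)) *
    M.Z h (2 * c) (shift (2 * ((k + 1) * l + a)) ω)), Finset.mul_sum]
  refine Finset.sum_congr rfl fun a _ => ?_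
  rw [← Finset.mul_sum]
  ring

namespace NBlk

theorem Z_mono (M : Mod) (h : ℝ) (n : ℕ) : Monotone (M.Z h n) := fun _ _ hω =>
  zk_mono M h n 0 0 hω

theorem sh_mono (k : ℕ) : Monotone (shift k) := fun _ _ hω i => hω (i + k)

theorem J_dep (M : Mod) (h : ℝ) {d k N : ℕ} (hN : 2 * d + k ≤ N) :
    DepOn N fun ω => Jd M h d (shift k ω) := by
  intro ω ω' hω
  refine (jd_mono M h d).2.2.1 _ _ fun i hi => ?_
  exact hω (i + k) (by omega)

theorem step (M : Mod) {h p K c j₀ : ℝ} (hp : 1 ≤ p) (hK : 0 ≤ K)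
    (hb : ∀ n : ℕ, mom M.μ p (fun ω => M.Z h (2 * n) ω) ≤ ENNReal.ofReal K) (hc : 0 < c)
    (hlow : ∀ d : ℕ, 1 ≤ d →
      c * (d : ℝ) ^ (-(3 / 2 : ℝ)) ≤ Kv M.C (fun z => -h * M.φ z) (2 * d) 0)
    (hj : 0 < j₀) (hjJ : ∀ d : ℕ, 1 ≤ d →
      ENNReal.ofReal j₀ ≤ ∫⁻ ω, ENNReal.ofReal (Jd M h d ω) ∂seqLaw M.μ)
    {l : ℕ} (hl : 1 ≤ l) (k : ℕ) :
    ENNReal.ofReal ((c * (2 * l : ℝ) ^ (-(3 / 2 : ℝ)) * j₀) ^ p) * mom M.μ p (XB M h l) *
      mom M.μ p (TB M h l k) ≤ mom M.μ p (TB M h l (k + 1)) := by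
  have hp0 : 0 ≤ p := zero_le_one.trans hp
  have hl0 : (0 : ℝ) < 2 * l := by
    have : (0 : ℝ) < l := by exact_mod_cast hl
    linarith
  have hkl : (k + 1) * l = k * l + l := by ring
  have hkl2 : (k + 2) * l = k * l + l + l := by ring
  set κ : ℝ := c * (2 * l : ℝ) ^ (-(3 / 2 : ℝ)) with hκ
  have hκ0 : 0 < κ := mul_pos hc (Real.rpow_pos_of_pos hl0 _)
  have hKv : ∀ d : ℕ, 1 ≤ d → d ≤ 2 * l → κ ≤ Kv M.C (fun z => -h * M.φ z) (2 * d) 0 := by
    intro d hd1 hd2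
    have hd0 : (0 : ℝ) < d := by exact_mod_cast hd1
    have hd3 : (d : ℝ) ≤ 2 * l := by exact_mod_cast hd2
    have h1 : (2 * l : ℝ) ^ (-(3 / 2 : ℝ)) ≤ (d : ℝ) ^ (-(3 / 2 : ℝ)) :=
      Real.rpow_le_rpow_of_nonpos hd0 hd3 (by norm_num)
    exact (mul_le_mul_of_nonneg_left h1 hc.le).trans (hlow d hd1)
  set F : ℕ × ℕ → (ℕ → ℝ) → ℝ := fun i ω => M.Z h (2 * (k * l + i.1)) ω *
      ∑ c ∈ range (l - i.2), M.Z h (2 * c) (shift (2 * ((k + 1) * l + i.2)) ω) with hF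
  set J : ℕ × ℕ → (ℕ → ℝ) → ℝ := fun i ω =>
      Jd M h (l + i.2 - i.1) (shift (2 * (k * l + i.1)) ω) with hJ
  set s : Finset (ℕ × ℕ) := range l ×ˢ range l with hs
  have hmem : ∀ i ∈ s, i.1 < l ∧ i.2 < l := by
    intro i hi
    rw [hs, Finset.mem_product, Finset.mem_range, Finset.mem_range] at hi
    exact hi
  have hsum : ∀ ω, ∑ i ∈ s, F i ω = TB M h l k ω * XB M h l (shift (2 * ((k + 1) * l)) ω) := by
    intro ω
    rw [hs, Finset.sum_product]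
    unfold TB XB
    rw [Finset.sum_mul]
    refine Finset.sum_congr rfl fun y _ => ?_
    rw [Finset.mul_sum]
    refine Finset.sum_congr rfl fun a _ => ?_
    simp only [hF]
    congr 1
    refine Finset.sum_congr rfl fun c _ => ?_
    rw [MP_daa227_pr.shift_shift, show 2 * a + 2 * ((k + 1) * l) = 2 * ((k + 1) * l + a) by ring]
  have hmomF : mom M.μ p (fun ω => ∑ i ∈ s, F i ω) =
      mom M.μ p (TB M h l k) * mom M.μ p (XB M h l) := by
    rw [MP_daa227_pr.mom_congr hsum]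
    exact MP_daa227_pr.mom_mul_shift hp0 (tb_meas M h l k) (xb_meas M h l) (tb_dep M h l k)
      (tb_nonneg M h l k)
  have hfin : mom M.μ p (fun ω => ∑ i ∈ s, F i ω) ≠ ⊤ := by
    rw [hmomF]
    exact ENNReal.mul_ne_top
      (ne_top_of_le_ne_top ENNReal.ofReal_ne_top (tb_mom M hp hK hb l k))
      (ne_top_of_le_ne_top ENNReal.ofReal_ne_top (xb_mom M hp hK hb l))
  have hFm : ∀ i ∈ s, Measurable (F i) := fun i _ => (M.good_Z h _).meas.mul
    (Finset.measurable_fun_sum _ fun c _ => SX.meas_sh M h _ _)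
  have hJm : ∀ i ∈ s, Measurable (J i) := fun i _ =>
    (jd_mono M h _).2.1.comp (MP_daa227_pr.measurable_shift _)
  have key := fkg_mom (μ := M.μ) s (F := F) (J := J) (N := 2 * ((k + 2) * l)) (p := p) (j₀ := j₀)
    hFm
    (fun i _ ω => mul_nonneg (M.Z_nonneg h _ _) (Finset.sum_nonneg fun c _ => M.Z_nonneg h _ _))
    (fun i _ ω ω' hω => mul_le_mul (Z_mono M h _ hω)
      (Finset.sum_le_sum fun c _ => Z_mono M h _ (sh_mono _ hω))
      (Finset.sum_nonneg fun c _ => M.Z_nonneg h _ _) (M.Z_nonneg h _ _))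
    hJm
    (fun i _ ω => (jd_mono M h _).2.2.2.1 _)
    (fun i _ ω => (jd_mono M h _).2.2.2.2 _)
    (fun i _ ω ω' hω => (jd_mono M h _).1 (sh_mono _ hω))
    (fun i hi ω ω' hω => by
      obtain ⟨h1, h2⟩ := hmem i hi
      have h3 : M.Z h (2 * (k * l + i.1)) ω = M.Z h (2 * (k * l + i.1)) ω' :=
        (M.good_Z h (2 * (k * l + i.1))).depOn ω ω' fun j hj => hω j (by omega)
      simp only [hF]
      rw [h3]
      congr 1
      refine Finset.sum_congr rfl fun c hc => ?_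
      rw [Finset.mem_range] at hc
      exact SX.dep_sh M h (n := 2 * c) (k := 2 * ((k + 1) * l + i.2)) (N := 2 * ((k + 2) * l))
        (by omega) ω ω' hω)
    (fun i hi => by
      obtain ⟨h1, h2⟩ := hmem i hi
      exact J_dep M h (by omega))
    hp hj
    (fun i hi => by
      obtain ⟨h1, h2⟩ := hmem i hi
      have h3 := MP_daa227_pr.lintegral_shift M.μ (2 * (k * l + i.1))
        (Y := fun ω => ENNReal.ofReal (Jd M h (l + i.2 - i.1) ω))
        (jd_mono M h _).2.1.ennreal_ofReal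
      simp only [hJ]
      rw [h3]
      exact hjJ _ (by omega))
    hfin
  have hrec : ∀ ω, κ * ∑ i ∈ s, F i ω * J i ω ≤ TB M h l (k + 1) ω := by
    intro ω
    refine le_trans (le_of_eq ?_) (tb_rec2 M h k hκ0.le hKv ω)
    rw [hs, Finset.sum_product]
  have hmeasFJ : Measurable fun ω => ∑ i ∈ s, F i ω * J i ω :=
    Finset.measurable_fun_sum _ fun i hi => (hFm i hi).mul (hJm i hi)
  have h5 : ENNReal.ofReal (κ ^ p) * mom M.μ p (fun ω => ∑ i ∈ s, F i ω * J i ω) ≤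
      mom M.μ p (TB M h l (k + 1)) := by
    rw [← ENNReal.ofReal_rpow_of_pos hκ0, ← MP_daa227_pr.mom_const_mul hp0 hκ0.le hmeasFJ]
    exact MP_daa227_pr.mom_mono hp0 hrec
  rw [hmomF] at key
  calc ENNReal.ofReal ((κ * j₀) ^ p) * mom M.μ p (XB M h l) * mom M.μ p (TB M h l k)
      = ENNReal.ofReal (κ ^ p) * (ENNReal.ofReal (j₀ ^ p) *
        (mom M.μ p (TB M h l k) * mom M.μ p (XB M h l))) := by
        rw [Real.mul_rpow hκ0.le hj.le, ENNReal.ofReal_mul (Real.rpow_nonneg hκ0.le _)]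
        ring
    _ ≤ ENNReal.ofReal (κ ^ p) * mom M.μ p (fun ω => ∑ i ∈ s, F i ω * J i ω) := by
        gcongr
    _ ≤ _ := h5

end NBlk

/-- With `κ = c (2l)^(-3/2)` and `j₀` from `jd_mean`: `fkg_mom` (the functions
`Z (2(kl+y)) ω * ∑_c Z (2c) (shift ..)` are monotone: `zk_mono`; their sum is `TB k * XB (shift)`)
and independence give `mom (TB (k+1)) ≥ (κ j₀)^p mom (TB k) mom (XB)`; `tb_zero`, `tb_mom`,
`xb_mom`: the sequence `mom (TB k)` is bounded and at least `1` for `k = 0`, so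
`(κ j₀)^p mom (XB) ≤ 1`. -/
theorem blk_mom2 (M : Mod) {h p K c B : ℝ} (hh : 0 < h) (hp : 1 ≤ p) (hK : 0 ≤ K)
    (hb : ∀ n : ℕ, mom M.μ p (fun ω => M.Z h (2 * n) ω) ≤ ENNReal.ofReal K) (hc : 0 < c)
    (hlow : ∀ d : ℕ, 1 ≤ d →
      c * (d : ℝ) ^ (-(3 / 2 : ℝ)) ≤ Kv M.C (fun z => -h * M.φ z) (2 * d) 0)
    (hup : ∀ d : ℕ, 1 ≤ d → K0 M.C (2 * d) 0 ≤ B * (d : ℝ) ^ (-(3 / 2 : ℝ))) :
    ∃ A : ℝ, 0 < A ∧ ∀ l : ℕ, 1 ≤ l →
      mom M.μ p (XB M h l) ≤ ENNReal.ofReal ((A * (l : ℝ) ^ (3 / 2 : ℝ)) ^ p) := by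
  obtain ⟨j₀, hj, hjJ⟩ := jd_mean M hh hc hlow hup
  have hp0 : 0 ≤ p := zero_le_one.trans hp
  refine ⟨(c * j₀)⁻¹ * (2 : ℝ) ^ (3 / 2 : ℝ), by positivity, fun l hl => ?_⟩
  have hl1 : (0 : ℝ) < l := by exact_mod_cast hl
  have hl0 : (0 : ℝ) < 2 * l := by linarith
  set κ : ℝ := c * (2 * l : ℝ) ^ (-(3 / 2 : ℝ)) with hκ
  have hκ0 : 0 < κ := mul_pos hc (Real.rpow_pos_of_pos hl0 _)
  set q : ENNReal := ENNReal.ofReal ((κ * j₀) ^ p) * mom M.μ p (XB M h l) with hq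
  have hstep : ∀ k, q * mom M.μ p (TB M h l k) ≤ mom M.μ p (TB M h l (k + 1)) := fun k =>
    NBlk.step M hp hK hb hc hlow hj hjJ hl k
  have h0 : 1 ≤ mom M.μ p (TB M h l 0) := by
    have h1 := MP_daa227_pr.mom_mono (μ := M.μ) hp0 (F := fun _ => (1 : ℝ)) (G := TB M h l 0)
      (tb_zero M h hl)
    rw [MP_daa227_pr.mom_const, ENNReal.ofReal_one, ENNReal.one_rpow] at h1
    exact h1
  have hpow : ∀ k : ℕ, q ^ k ≤ mom M.μ p (TB M h l k) := by
    intro k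
    induction k with
    | zero =>
      rw [pow_zero]
      exact h0
    | succ k ih =>
      rw [pow_succ, mul_comm]
      exact (mul_le_mul_right ih q).trans (hstep k)
  have hq1 : q ≤ 1 := by
    by_contra hc1
    rw [not_le] at hc1
    have hlim := ENNReal.tendsto_pow_atTop_nhds_top_iff.2 hc1
    have h1 : ∀ k : ℕ, q ^ k ≤ ENNReal.ofReal ((l : ℝ) ^ p * K) := fun k =>
      (hpow k).trans (tb_mom M hp hK hb l k)
    have h2 := le_of_tendsto hlim (Eventually.of_forall h1)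
    exact absurd h2 (not_le.2 ENNReal.ofReal_lt_top)
  have hκj : 0 < κ * j₀ := mul_pos hκ0 hj
  have hinv : (c * j₀)⁻¹ * (2 : ℝ) ^ (3 / 2 : ℝ) * (l : ℝ) ^ (3 / 2 : ℝ) = (κ * j₀)⁻¹ := by
    rw [mul_assoc, ← Real.mul_rpow (by norm_num : (0 : ℝ) ≤ 2) hl1.le, hκ, mul_inv, mul_inv,
      mul_inv, ← Real.rpow_neg hl0.le, neg_neg]
    ring
  rw [hinv]
  have h2 : ((κ * j₀)⁻¹) ^ p * (κ * j₀) ^ p = 1 := by
    rw [← Real.mul_rpow (inv_nonneg.2 hκj.le) hκj.le, inv_mul_cancel₀ hκj.ne', Real.one_rpow]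
  calc mom M.μ p (XB M h l)
      = ENNReal.ofReal (((κ * j₀)⁻¹) ^ p) * q := by
        rw [hq, ← mul_assoc, ← ENNReal.ofReal_mul (by positivity), h2, ENNReal.ofReal_one, one_mul]
    _ ≤ ENNReal.ofReal (((κ * j₀)⁻¹) ^ p) * 1 := by
        gcongr
    _ = _ := mul_one _

end

end Pool.Agent.IG
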