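import Pool.Agent.Lib.MP_daa227_pr_IG.Defs
import Pool.Agent.Lib.MP_daa227_pr_AZ.Basic
import Pool.Agent.Lib.MP_daa227_pr_AZ.JenQ
import Pool.Agent.Lib.MP_daa227_pr_OT.KConv

/-!
# MP_daa227_pr, marginal case: penalised first passage weights are nonincreasing
-/

namespace Pool.Agent.IG

open MeasureTheory ProbabilityTheory Finset Filter Topology
open MP_daa227_pr (Chain Zk Zf Gk Gf KU K0 Ren shift seqLaw ExpMom DepOn Good GoodW mom)
open Pool.Agent.AZ (Mod Kv lmg)
open Pool.Agent.IOrd (Sys aS cv)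

noncomputable section

namespace NAnti

variable (C : Chain) (v : ℤ → ℝ)

theorem Kv_far (n : ℕ) (x : ℤ) (hx : 1 ≤ x) (h : (n : ℤ) < x) : Kv C v n x = 0 := by
  induction n generalizing x with
  | zero => rfl
  | succ n ih =>
    rw [Pool.Agent.AZ.Kv_succ]
    have h1 : (if n = 0 then C.p x 0 * Real.exp (v 0) else 0) = 0 := by
      split_ifs with h0
      · have h2 : C.p x 0 = 0 := by
          apply C.near
          rw [Finset.mem_Icc]
          push_cast at h
          omega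
        rw [h2, zero_mul]
      · rfl
    rw [h1, zero_add]
    refine Finset.sum_eq_zero fun z hz => ?_
    rw [Finset.mem_sdiff, Finset.mem_Icc, Finset.mem_singleton] at hz
    push_cast at h
    rw [ih z (by omega) (by omega), mul_zero]

theorem Kv_one (x : ℤ) : Kv C v 1 x = C.p x 0 * Real.exp (v 0) := by
  rw [Pool.Agent.AZ.Kv_succ, if_pos rfl]
  have h : ∀ z ∈ Finset.Icc (x - 1) (x + 1) \ {0},
      C.p x z * Real.exp (v z) * Kv C v 0 z = 0 := by
    intro z _
    rw [Pool.Agent.AZ.Kv_zero, mul_zero]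
  rw [Finset.sum_eq_zero h, add_zero]

theorem Kv_rec (n N : ℕ) (hn : 1 ≤ n) (hN : n ≤ N) (x : ℤ) (hx : 1 ≤ x) :
    Kv C v (n + 1) x = ∑ z ∈ Finset.Icc (1 : ℤ) N, C.p x z * Real.exp (v z) * Kv C v n z := by
  rw [Pool.Agent.AZ.Kv_succ, if_neg (by omega), zero_add]
  refine Finset.sum_congr_of_eq_on_inter ?_ ?_ (fun _ _ _ => rfl)
  · intro z hz hz2
    rw [Finset.mem_sdiff, Finset.mem_Icc, Finset.mem_singleton] at hz
    rw [Finset.mem_Icc] at hz2
    rw [Kv_far C v n z (by omega) (by omega), mul_zero]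
  · intro z hz hz2
    rw [Finset.mem_Icc] at hz
    rw [Finset.mem_sdiff, Finset.mem_singleton, not_and_or, not_not] at hz2
    rcases hz2 with h | h
    · rw [C.near x z h, zero_mul, zero_mul]
    · omega

/-- The scalar product of the penalised hitting weights. -/
def BB (N i j : ℕ) : ℝ :=
  ∑ x ∈ Finset.Icc (1 : ℤ) N, MP_daa227_pr.Rev.rv C x * Real.exp (v x) *
    (Kv C v (i + 1) x * Kv C v (j + 1) x)

theorem BB_succ (N i j : ℕ) (hi : i + 1 ≤ N) (hj : j + 1 ≤ N) :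
    BB C v N (i + 1) j = BB C v N i (j + 1) := by
  unfold BB
  have h1 : ∀ x ∈ Finset.Icc (1 : ℤ) N, MP_daa227_pr.Rev.rv C x * Real.exp (v x) *
      (Kv C v (i + 1 + 1) x * Kv C v (j + 1) x) = ∑ z ∈ Finset.Icc (1 : ℤ) N,
        (MP_daa227_pr.Rev.rv C x * C.p x z) * (Real.exp (v x) * Real.exp (v z)) *
          (Kv C v (i + 1) z * Kv C v (j + 1) x) := by
    intro x hx
    rw [Finset.mem_Icc] at hx
    rw [Kv_rec C v (i + 1) N (by omega) hi x hx.1, Finset.sum_mul, Finset.mul_sum]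
    refine Finset.sum_congr rfl fun z _ => ?_
    ring
  have h2 : ∀ x ∈ Finset.Icc (1 : ℤ) N, MP_daa227_pr.Rev.rv C x * Real.exp (v x) *
      (Kv C v (i + 1) x * Kv C v (j + 1 + 1) x) = ∑ z ∈ Finset.Icc (1 : ℤ) N,
        (MP_daa227_pr.Rev.rv C x * C.p x z) * (Real.exp (v x) * Real.exp (v z)) *
          (Kv C v (i + 1) x * Kv C v (j + 1) z) := by
    intro x hx
    rw [Finset.mem_Icc] at hx
    rw [Kv_rec C v (j + 1) N (by omega) hj x hx.1, Finset.mul_sum, Finset.mul_sum]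
    refine Finset.sum_congr rfl fun z _ => ?_
    ring
  rw [Finset.sum_congr rfl h1, Finset.sum_congr rfl h2, Finset.sum_comm]
  refine Finset.sum_congr rfl fun x _ => Finset.sum_congr rfl fun z _ => ?_
  rw [Pool.Agent.OT.K1.bal C z x, mul_comm (Real.exp (v z)) (Real.exp (v x))]

theorem BB_zero (N j : ℕ) (hN : 1 ≤ N) :
    BB C v N 0 j = MP_daa227_pr.Rev.rv C 1 * Real.exp (v 1) * (C.p 1 0 * Real.exp (v 0)) *
      Kv C v (j + 1) 1 := by
  unfold BB
  rw [Finset.sum_eq_single (1 : ℤ)]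
  · rw [Nat.zero_add, Kv_one]
    ring
  · intro x hx hx1
    rw [Finset.mem_Icc] at hx
    rw [Kv_far C v (0 + 1) x hx.1 (by push_cast; omega)]
    ring
  · intro h
    exfalso
    apply h
    rw [Finset.mem_Icc]
    omega

theorem BB_eq (N i j : ℕ) (h : i + j + 1 ≤ N) :
    BB C v N i j = MP_daa227_pr.Rev.rv C 1 * Real.exp (v 1) * (C.p 1 0 * Real.exp (v 0)) *
      Kv C v (i + j + 1) 1 := by
  induction i generalizing j with
  | zero =>
    rw [BB_zero C v N j (by omega), Nat.zero_add]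
  | succ i ih =>
    rw [BB_succ C v N i j (by omega) (by omega), ih (j + 1) (by omega)]
    congr 2
    omega

theorem cs (i j : ℕ) :
    Kv C v (i + j + 1) 1 ^ 2 ≤ Kv C v (i + i + 1) 1 * Kv C v (j + j + 1) 1 := by
  set R := MP_daa227_pr.Rev.rv C 1 * Real.exp (v 1) * (C.p 1 0 * Real.exp (v 0)) with hR
  have hR0 : 0 < R := by
    have h1 := C.down 1
    rw [sub_self] at h1
    exact mul_pos (mul_pos (MP_daa227_pr.Rev.rv_pos C 1) (Real.exp_pos _))
      (mul_pos h1 (Real.exp_pos _))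
  set N := i + i + j + j + 1 with hN
  have h1 := BB_eq C v N i j (by omega)
  have h2 := BB_eq C v N i i (by omega)
  have h3 := BB_eq C v N j j (by omega)
  have h4 : BB C v N i j ^ 2 ≤ BB C v N i i * BB C v N j j := by
    unfold BB
    refine Finset.sum_sq_le_sum_mul_sum_of_sq_le_mul _ ?_ ?_ ?_
    · intro x _
      exact mul_nonneg (mul_pos (MP_daa227_pr.Rev.rv_pos C x) (Real.exp_pos _)).le
        (mul_self_nonneg _)
    · intro x _
      exact mul_nonneg (mul_pos (MP_daa227_pr.Rev.rv_pos C x) (Real.exp_pos _)).le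
        (mul_self_nonneg _)
    · intro x _
      refine le_of_eq ?_
      ring
  rw [h1, h2, h3, ← hR] at h4
  have h5 : R ^ 2 * Kv C v (i + j + 1) 1 ^ 2 ≤
      R ^ 2 * (Kv C v (i + i + 1) 1 * Kv C v (j + j + 1) 1) := by nlinarith
  exact le_of_mul_le_mul_left h5 (by positivity)

theorem f_pos (k : ℕ) : 0 < Kv C v (2 * k + 1) 1 := by
  refine Pool.Agent.AZ.Kv_pos_of_K0 C v _ _ ?_
  have h := MP_daa227_pr.K0_up C k k le_rfl
  have h1 : k + 1 + k = 2 * k + 1 := by omega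
  have h2 : (k : ℤ) + 1 - k = 1 := by ring
  rwa [h1, h2] at h

theorem f_conv (k : ℕ) :
    Kv C v (2 * (k + 1) + 1) 1 ^ 2 ≤ Kv C v (2 * k + 1) 1 * Kv C v (2 * (k + 2) + 1) 1 := by
  have h := cs C v k (k + 2)
  have h1 : k + (k + 2) + 1 = 2 * (k + 1) + 1 := by omega
  have h2 : k + k + 1 = 2 * k + 1 := by omega
  have h3 : k + 2 + (k + 2) + 1 = 2 * (k + 2) + 1 := by omega
  rwa [h1, h2, h3] at h

end NAnti

/-- Copy of `OT.K1.BB_succ`, `BB_zero`, `BB_eq`, `cs`, `f_conv`, `anti` (Lib/MP_daa227_pr_OT/KConv.lean)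
with the kernel `p(x,z) e^(v z)`, which is reversible with respect to `rv x * e^(v x)`: the sequence
`k ↦ Kv C v (2 k + 1) 1` is logarithmically convex and at most `1` (`v ≤ 0`, `AZ.Kv_le_one`), hence
nonincreasing. -/
theorem kv_anti (C : Chain) (hnl : ∀ x, C.p x x = 0) {v : ℤ → ℝ} (hv : ∀ z, v z ≤ 0) (k : ℕ) :
    Kv C v (2 * (k + 1) + 1) 1 ≤ Kv C v (2 * k + 1) 1 :=
  Pool.Agent.OT.K1.anti (f := fun k => Kv C v (2 * k + 1) 1) (NAnti.f_pos C v)
    (NAnti.f_conv C v) (fun k => Pool.Agent.AZ.Kv_le_one C hv (2 * k + 1) 1) k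

end

end Pool.Agent.IG
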