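import Pool.Agent.Lib.MP_daa227_pr_IG.NGr
import Pool.Agent.Lib.MP_daa227_pr_IG.NAnti
import Pool.Agent.Lib.MP_daa227_pr_AZ.Fin
import Pool.Agent.Lib.MP_daa227_pr_AZ.Interp

/-!
# MP_daa227_pr, marginal case: the excursions penalised by a light potential
-/

namespace Pool.Agent.IG

open MeasureTheory ProbabilityTheory Finset Filter Topology
open MP_daa227_pr (Chain Zk Zf Gk Gf KU K0 Ren shift seqLaw ExpMom DepOn Good GoodW mom)
open Pool.Agent.AZ (Mod Kv lmg)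
open Pool.Agent.IOrd (Sys aS cv)

noncomputable section

namespace NPen

/-- parity -/
theorem par (C : Chain) (hnl : ∀ x, C.p x x = 0) : ∀ (n : ℕ) (x : ℤ), ¬ Even ((n : ℤ) + x) →
    K0 C n x = 0
  | 0, _, _ => rfl
  | n + 1, x, h => by
    rw [K0]
    have h1 : (if n = 0 then C.p x 0 else 0) = 0 := by
      split_ifs with hn
      · subst hn
        by_cases hx : x = 0
        · rw [hx]
          exact hnl 0
        · by_cases hx1 : (0 : ℤ) ∈ Finset.Icc (x - 1) (x + 1)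
          · exfalso
            rw [Finset.mem_Icc] at hx1
            have h2 : x = 1 ∨ x = -1 := by omega
            rcases h2 with rfl | rfl
            · exact h (by decide)
            · exact h (by decide)
          · exact C.near x 0 hx1
      · rfl
    rw [h1, zero_add]
    refine Finset.sum_eq_zero fun z hz => ?_
    rw [Finset.mem_sdiff, Finset.mem_Icc] at hz
    by_cases hzx : z = x
    · rw [hzx, hnl, zero_mul]
    · rw [par C hnl n z, mul_zero]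
      have h2 : z = x - 1 ∨ z = x + 1 := by omega
      rw [Int.not_even_iff_odd] at h ⊢
      obtain ⟨a, ha⟩ := h
      push_cast at ha
      rcases h2 with rfl | rfl
      · exact ⟨a - 1, by omega⟩
      · exact ⟨a, by omega⟩

theorem K0_even (C : Chain) (hnl : ∀ x, C.p x x = 0) (k : ℕ) : K0 C (2 * k) 1 = 0 := by
  refine par C hnl _ _ ?_
  rw [Int.not_even_iff_odd]
  exact ⟨k, by push_cast; ring⟩

theorem sum_even (C : Chain) (hnl : ∀ x, C.p x x = 0) (j : ℕ) :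
    ∑ m ∈ range (2 * j), K0 C m 1 = ∑ k ∈ range j, AZ.A24.fp C k := by
  induction j with
  | zero => simp
  | succ j ih =>
    rw [show 2 * (j + 1) = 2 * j + 1 + 1 by ring, Finset.sum_range_succ, Finset.sum_range_succ,
      Finset.sum_range_succ, ih, K0_even C hnl, add_zero]
    rfl

/-- the survival probability -/
theorem sv_fp (C : Chain) (hnl : ∀ x, C.p x x = 0) (n : ℕ) :
    sv C n 1 + ∑ k ∈ range ((n + 1) / 2), AZ.A24.fp C k = 1 := by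
  rw [← sv_eq C n 1]
  congr 1
  rcases Nat.even_or_odd' n with ⟨j, rfl | rfl⟩
  · rw [Finset.sum_range_succ, K0_even C hnl, add_zero, sum_even C hnl]
    congr 2
    omega
  · rw [show 2 * j + 1 + 1 = 2 * (j + 1) by ring, sum_even C hnl]
    congr 2
    omega

theorem sv_tend (C : Chain) (hrec : HasSum (fun n : ℕ => K0 C (n + 1) 0) 1) :
    Tendsto (fun m : ℕ => sv C m 1) atTop (𝓝 0) := by
  have h1 := AZ.HalfLine.tend C hrec 0
  have h0 : Finset.Icc (-((0 : ℕ) : ℤ)) (0 : ℕ) = {0} := by simp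
  rw [h0] at h1
  refine h1.congr fun m => ?_
  have h2 := AZ.HalfLine.Gf_K0 C m 1 (fun _ => 0)
  have h3 := sv_eq C m 1
  have h4 : (((0 : ℕ) : ℤ) + 1) = 1 := by norm_num
  rw [h4]
  linarith

/-- telescoping bound -/
theorem tele {k : ℕ} (hk : 1 ≤ k) :
    (k : ℝ) ^ (-(3 / 2 : ℝ)) ≤
      4 * ((k : ℝ) ^ (-(1 / 2 : ℝ)) - ((k + 1 : ℕ) : ℝ) ^ (-(1 / 2 : ℝ))) := by
  have hk0 : (1 : ℝ) ≤ k := by exact_mod_cast hk
  set x : ℝ := (k : ℝ) with hx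
  have hx0 : 0 < x := by linarith
  push_cast
  rw [← hx]
  have e1 : x ^ (-(3 / 2 : ℝ)) = (x * Real.sqrt x)⁻¹ := by
    rw [Real.rpow_neg hx0.le, Real.sqrt_eq_rpow]
    congr 1
    nth_rewrite 2 [← Real.rpow_one x]
    rw [← Real.rpow_add hx0]
    norm_num
  have e2 : ∀ y : ℝ, 0 < y → y ^ (-(1 / 2 : ℝ)) = (Real.sqrt y)⁻¹ := fun y hy => by
    rw [Real.rpow_neg hy.le, Real.sqrt_eq_rpow]
  rw [e1, e2 x hx0, e2 (x + 1) (by linarith)]
  set s := Real.sqrt x with hs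
  set r := Real.sqrt (x + 1) with hr
  have hs0 : 0 < s := Real.sqrt_pos.2 hx0
  have hr0 : 0 < r := Real.sqrt_pos.2 (by linarith)
  have hs2 : s ^ 2 = x := Real.sq_sqrt hx0.le
  have hr2 : r ^ 2 = x + 1 := Real.sq_sqrt (by linarith)
  have hsr : s ≤ r := Real.sqrt_le_sqrt (by linarith)
  have hr2s : r ^ 2 ≤ 2 * s ^ 2 := by linarith
  have h1 : s⁻¹ - r⁻¹ = 1 / (s * r * (r + s)) := by
    field_simp
    nlinarith
  rw [h1, ← hs2, inv_eq_one_div, mul_one_div, div_le_div_iff₀ (by positivity) (by positivity)]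
  have h2 : r * (r + s) ≤ 4 * s ^ 2 := by nlinarith
  nlinarith

theorem tail_le {f : ℕ → ℝ} {B : ℝ} (hB : 0 ≤ B)
    (h2 : ∀ n : ℕ, 1 ≤ n → f n ≤ B * (n : ℝ) ^ (-(3 / 2 : ℝ))) {j : ℕ} (hj : 1 ≤ j) (N : ℕ) :
    ∑ k ∈ range N, f (j + k) ≤
      4 * B * ((j : ℝ) ^ (-(1 / 2 : ℝ)) - ((j + N : ℕ) : ℝ) ^ (-(1 / 2 : ℝ))) := by
  induction N with
  | zero => simp
  | succ N ih =>
    rw [Finset.sum_range_succ]
    have h3 := h2 (j + N) (by omega)
    have h4 := mul_le_mul_of_nonneg_left (tele (k := j + N) (by omega)) hB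
    have h5 : j + (N + 1) = j + N + 1 := by ring
    rw [h5]
    nlinarith

theorem tail_ge {f : ℕ → ℝ} {c : ℝ} (hc : 0 < c)
    (h1 : ∀ n : ℕ, 1 ≤ n → c * (n : ℝ) ^ (-(3 / 2 : ℝ)) ≤ f n) {j : ℕ} (hj : 1 ≤ j) :
    c * 2 ^ (-(3 / 2 : ℝ)) * (j : ℝ) ^ (-(1 / 2 : ℝ)) ≤ ∑ k ∈ range j, f (j + k) := by
  have hj0 : (0 : ℝ) < j := by exact_mod_cast hj
  have h3 : ∀ k ∈ range j, c * (2 * j : ℝ) ^ (-(3 / 2 : ℝ)) ≤ f (j + k) := by
    intro k hk
    rw [Finset.mem_range] at hk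
    refine le_trans ?_ (h1 (j + k) (by omega))
    refine mul_le_mul_of_nonneg_left ?_ hc.le
    refine Real.rpow_le_rpow_of_nonpos ?_ ?_ (by norm_num)
    · push_cast
      have : (0 : ℝ) ≤ k := Nat.cast_nonneg k
      linarith
    · push_cast
      have : (k : ℝ) ≤ j := by exact_mod_cast hk.le
      linarith
  have h4 := Finset.sum_le_sum h3
  rw [Finset.sum_const, Finset.card_range, nsmul_eq_mul] at h4
  refine le_trans (le_of_eq ?_) h4
  rw [Real.mul_rpow (by norm_num) hj0.le]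
  have h5 : (j : ℝ) ^ (-(1 / 2 : ℝ)) = j * (j : ℝ) ^ (-(3 / 2 : ℝ)) := by
    nth_rewrite 2 [← Real.rpow_one (j : ℝ)]
    rw [← Real.rpow_add hj0]
    norm_num
  rw [h5]
  ring

end NPen

/-- `sv n 1 = ∑_{m>n} K0 m 1` (`sv_eq`, recurrence) and `K0 (2k+1) 1 = fp k`, `K0 (2k) 1 = 0`
(`hnl`) -/
theorem sv_half (C : Chain) (hnl : ∀ x, C.p x x = 0)
    (hrec : HasSum (fun n : ℕ => K0 C (n + 1) 0) 1) {c B : ℝ} (hc : 0 < c)
    (h1 : ∀ n : ℕ, 1 ≤ n → c * (n : ℝ) ^ (-(3 / 2 : ℝ)) ≤ AZ.A24.fp C n)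
    (h2 : ∀ n : ℕ, 1 ≤ n → AZ.A24.fp C n ≤ B * (n : ℝ) ^ (-(3 / 2 : ℝ))) :
    ∃ c' B' : ℝ, 0 < c' ∧ ∀ n : ℕ, 1 ≤ n → c' * (n : ℝ) ^ (-(1 / 2 : ℝ)) ≤ sv C n 1 ∧
      sv C n 1 ≤ B' * (n : ℝ) ^ (-(1 / 2 : ℝ)) := by
  have hB : 0 ≤ B := by
    have e1 := h1 1 le_rfl
    have e2 := h2 1 le_rfl
    rw [Nat.cast_one, Real.one_rpow, mul_one] at e1 e2
    linarith
  refine ⟨c * 2 ^ (-(3 / 2 : ℝ)), 4 * B * 2 ^ (1 / 2 : ℝ), by positivity, fun n hn => ?_⟩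
  have hn0 : (0 : ℝ) < n := by exact_mod_cast hn
  set j : ℕ := (n + 1) / 2 with hj
  have hj1 : 1 ≤ j := by omega
  have hj0 : (0 : ℝ) < j := by exact_mod_cast hj1
  have hsv := NPen.sv_fp C hnl n
  rw [← hj] at hsv
  constructor
  · have h3 := NPen.tail_ge hc h1 hj1
    have h4 := AZ.A24.sum_fp C (j + j)
    rw [Finset.sum_range_add] at h4
    have h5 : (n : ℝ) ^ (-(1 / 2 : ℝ)) ≤ (j : ℝ) ^ (-(1 / 2 : ℝ)) := by
      refine Real.rpow_le_rpow_of_nonpos hj0 ?_ (by norm_num)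
      have : j ≤ n := by omega
      exact_mod_cast this
    have h6 : c * 2 ^ (-(3 / 2 : ℝ)) * (n : ℝ) ^ (-(1 / 2 : ℝ)) ≤
        c * 2 ^ (-(3 / 2 : ℝ)) * (j : ℝ) ^ (-(1 / 2 : ℝ)) :=
      mul_le_mul_of_nonneg_left h5 (by positivity)
    linarith
  · have h3 : ∀ N : ℕ, sv C n 1 ≤ sv C (2 * (j + N)) 1 + 4 * B * (j : ℝ) ^ (-(1 / 2 : ℝ)) := by
      intro N
      have e1 := NPen.sv_fp C hnl (2 * (j + N))
      rw [show (2 * (j + N) + 1) / 2 = j + N by omega, Finset.sum_range_add] at e1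
      have e2 := NPen.tail_le hB h2 hj1 N
      have e3 : 0 ≤ 4 * B * ((j + N : ℕ) : ℝ) ^ (-(1 / 2 : ℝ)) := by positivity
      rw [mul_sub] at e2
      linarith
    have h4 : Tendsto (fun N : ℕ => sv C (2 * (j + N)) 1 + 4 * B * (j : ℝ) ^ (-(1 / 2 : ℝ))) atTop
        (𝓝 (0 + 4 * B * (j : ℝ) ^ (-(1 / 2 : ℝ)))) := by
      refine Tendsto.add_const _ ((NPen.sv_tend C hrec).comp ?_)
      exact tendsto_atTop_mono (fun N => by omega : ∀ N : ℕ, N ≤ 2 * (j + N)) tendsto_id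
    have h5 := ge_of_tendsto' h4 h3
    rw [zero_add] at h5
    refine h5.trans ?_
    rw [mul_assoc (4 * B)]
    refine mul_le_mul_of_nonneg_left ?_ (by positivity)
    have h6 : (j : ℝ) ^ (-(1 / 2 : ℝ)) ≤ ((n : ℝ) / 2) ^ (-(1 / 2 : ℝ)) := by
      refine Real.rpow_le_rpow_of_nonpos (by positivity) ?_ (by norm_num)
      rw [div_le_iff₀ (by norm_num)]
      have : n ≤ j * 2 := by omega
      exact_mod_cast this
    refine h6.trans (le_of_eq ?_)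
    rw [Real.div_rpow hn0.le (by norm_num), Real.rpow_neg (by norm_num : (0 : ℝ) ≤ 2),
      div_inv_eq_mul, mul_comm]

/-- `hs_le`, `sv_half`: `Hs n 1 ≤ L sv n 1` for `n ≥ 2` with a constant `L`; `nn_tan` with `tL`
instead of `L`: `Nn (-tφ) 1 n 1 ≥ e^(-tL) sv n 1 ≥ c n^(-1/2)`; `tail_pen`:
`∑_{m≥n} Kv (-tφ) m 1 ≥ c₁ n^(-1/2)`;
`∑_{m>An} Kv ≤ ∑_{m>An} K0 ≤ B' (An)^(-1/2) ≤ (c₁/2) n^(-1/2)` for `A` large, so
`∑_{n≤m≤An} Kv (-tφ) m 1 ≥ (c₁/2) n^(-1/2)`, and by `kv_anti` (`Kv (2k) 1 = 0` by parity)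
`Kv (-tφ) (2k+1) 1 ≥ c₂ k^(-3/2)`. Finally
`Kv (-tφ) (2n) 0 ≥ p(0,1) e^(-tφ 1) Kv (-tφ) (2n-1) 1`. -/
theorem pen_half (C : Chain) (hnl : ∀ x, C.p x x = 0)
    (hrec : HasSum (fun n : ℕ => K0 C (n + 1) 0) 1) {φ : ℤ → ℝ} {Φ : ℝ} (h0 : ∀ x, 0 ≤ φ x)
    (h1 : ∀ x, φ x ≤ Φ) (hV : VR C φ) {c B : ℝ} (hc : 0 < c)
    (hf1 : ∀ n : ℕ, 1 ≤ n → c * (n : ℝ) ^ (-(3 / 2 : ℝ)) ≤ AZ.A24.fp C n)
    (hf2 : ∀ n : ℕ, 1 ≤ n → AZ.A24.fp C n ≤ B * (n : ℝ) ^ (-(3 / 2 : ℝ))) {t : ℝ} (ht : 0 ≤ t) :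
    ∃ c' : ℝ, 0 < c' ∧ ∀ n : ℕ, 1 ≤ n →
      c' * (n : ℝ) ^ (-(3 / 2 : ℝ)) ≤ Kv C (fun z => -t * φ z) (2 * n) 0 := by
  have _ := h1
  obtain ⟨cs, Bs, hcs, hsv⟩ := sv_half C hnl hrec hc hf1 hf2
  obtain ⟨K, hK, hHs⟩ := hs_le C hrec h0 hV
  obtain ⟨c₁, hc₁, htail⟩ := tail_pen C hrec h0 hV ht
  set v : ℤ → ℝ := fun z => -t * φ z with hv
  have hv0 : ∀ z, v z ≤ 0 := fun z => by
    have := mul_nonneg ht (h0 z)
    rw [hv]
    dsimp only
    linarith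
  have hBs : 0 ≤ Bs := by
    have e := hsv 1 le_rfl
    rw [Nat.cast_one, Real.one_rpow, mul_one, mul_one] at e
    linarith [e.1, e.2]
  -- the potential seen by a surviving path
  set L0 : ℝ := K * (Bs * 3 ^ (1 / 2 : ℝ) / cs) with hL0
  have hL00 : 0 ≤ L0 := by positivity
  have hH : ∀ n : ℕ, 2 ≤ n → Hs C φ n 1 ≤ L0 * sv C n 1 := by
    intro n hn
    have hn0 : (0 : ℝ) < n := by
      have : 0 < n := by omega
      exact_mod_cast this
    refine (hHs n).trans ?_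
    rw [hL0, mul_assoc]
    refine mul_le_mul_of_nonneg_left ?_ hK
    refine (hsv (n / 2) (by omega)).2.trans ?_
    have e1 : ((n / 2 : ℕ) : ℝ) ^ (-(1 / 2 : ℝ)) ≤ 3 ^ (1 / 2 : ℝ) * (n : ℝ) ^ (-(1 / 2 : ℝ)) := by
      have e2 : ((n / 2 : ℕ) : ℝ) ^ (-(1 / 2 : ℝ)) ≤ ((n : ℝ) / 3) ^ (-(1 / 2 : ℝ)) := by
        refine Real.rpow_le_rpow_of_nonpos (by positivity) ?_ (by norm_num)
        rw [div_le_iff₀ (by norm_num)]
        have : n ≤ n / 2 * 3 := by omega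
        exact_mod_cast this
      refine e2.trans (le_of_eq ?_)
      rw [Real.div_rpow hn0.le (by norm_num), Real.rpow_neg (by norm_num : (0 : ℝ) ≤ 3),
        div_inv_eq_mul, mul_comm]
    have e3 : (n : ℝ) ^ (-(1 / 2 : ℝ)) ≤ sv C n 1 / cs := by
      rw [le_div_iff₀ hcs, mul_comm]
      exact (hsv n (by omega)).1
    calc Bs * ((n / 2 : ℕ) : ℝ) ^ (-(1 / 2 : ℝ))
        ≤ Bs * (3 ^ (1 / 2 : ℝ) * (sv C n 1 / cs)) := by gcongr; exact e1.trans (by gcongr)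
      _ = Bs * 3 ^ (1 / 2 : ℝ) / cs * sv C n 1 := by ring
  have hN : ∀ n : ℕ, 2 ≤ n → Real.exp (-(t * L0)) * sv C n 1 ≤ AS.Nn C v (fun _ => 1) n 1 := by
    intro n hn
    refine le_trans ?_ (nn_tan C ht (t * L0) n 1)
    refine mul_le_mul_of_nonneg_left ?_ (Real.exp_pos _).le
    have := mul_le_mul_of_nonneg_left (hH n hn) ht
    linarith
  set c₂ : ℝ := c₁ * (Real.exp (-(t * L0)) * cs) with hc₂
  have hc₂0 : 0 < c₂ := by positivity
  have htl : ∀ n : ℕ, 2 ≤ n → c₂ * (n : ℝ) ^ (-(1 / 2 : ℝ)) ≤ ∑' m : ℕ, Kv C v (n + m) 1 := by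
    intro n hn
    refine le_trans ?_ (htail n)
    rw [hc₂, mul_assoc, mul_assoc]
    refine mul_le_mul_of_nonneg_left ?_ hc₁.le
    exact (mul_le_mul_of_nonneg_left (hsv n (by omega)).1 (Real.exp_pos _).le).trans (hN n hn)
  -- comparison with the unpenalised kernel
  have hle : ∀ n, Kv C v n 1 ≤ K0 C n 1 := fun n => by
    rw [← AZ.Kv_K0]
    exact AZ.Kv_mono C hv0 n 1
  have hnn : ∀ n, 0 ≤ Kv C v n 1 := fun n => AZ.Kv_nonneg C v n 1
  have hK0 : ∀ n, 0 ≤ K0 C n 1 := fun n => MP_daa227_pr.K0_nonneg C n 1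
  have hsplit : ∀ n M J : ℕ, 1 ≤ n + M → ∑ m ∈ range J, Kv C v (n + m) 1 ≤
      ∑ m ∈ range M, Kv C v (n + m) 1 + sv C (n + M - 1) 1 := by
    intro n M J hnM
    have e1 : ∑ m ∈ range J, Kv C v (n + m) 1 ≤ ∑ m ∈ range (M + J), Kv C v (n + m) 1 :=
      Finset.sum_le_sum_of_subset_of_nonneg (Finset.range_mono (by omega)) fun _ _ _ => hnn _
    refine e1.trans ?_
    rw [Finset.sum_range_add]
    refine add_le_add le_rfl ?_
    have e2 : ∑ m ∈ range J, Kv C v (n + (M + m)) 1 ≤ ∑ m ∈ range J, K0 C (n + M + m) 1 :=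
      Finset.sum_le_sum fun m _ => by rw [← add_assoc]; exact hle _
    refine e2.trans ?_
    have e3 := sv_eq C (n + M - 1) 1
    rw [show n + M - 1 + 1 = n + M by omega] at e3
    have e4 := AZ.A24.sum_K0 C (n + M + J) 1
    rw [Finset.sum_range_add] at e4
    linarith
  obtain ⟨A, hA⟩ := exists_nat_ge ((2 * Bs / c₂) ^ 2 + 1)
  have hA1 : (1 : ℝ) ≤ A := by
    have : 0 ≤ (2 * Bs / c₂) ^ 2 := sq_nonneg _
    linarith
  have hA0 : (0 : ℝ) < A := by linarith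
  have hAn : 1 ≤ A := by exact_mod_cast hA1
  have hAB : Bs * (A : ℝ) ^ (-(1 / 2 : ℝ)) ≤ c₂ / 2 := by
    have e1 : 2 * Bs / c₂ ≤ Real.sqrt A := Real.le_sqrt_of_sq_le (by linarith)
    rw [Real.rpow_neg hA0.le, ← Real.sqrt_eq_rpow]
    have e2 : 0 < Real.sqrt A := Real.sqrt_pos.2 hA0
    rw [div_le_iff₀ hc₂0] at e1
    rw [← div_eq_mul_inv, div_le_iff₀ e2]
    linarith
  have hkey : ∀ k : ℕ, 1 ≤ k → c₂ / (2 * A) * ((2 * k + 1 : ℕ) : ℝ) ^ (-(3 / 2 : ℝ)) ≤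
      Kv C v (2 * k + 1) 1 := by
    intro k hk
    set n : ℕ := 2 * k + 1 with hn
    have hn2 : 2 ≤ n := by omega
    have hn0 : (0 : ℝ) < n := by
      have : 0 < n := by omega
      exact_mod_cast this
    have e1 : ∑' m : ℕ, Kv C v (n + m) 1 ≤
        ∑ m ∈ range (A * n), Kv C v (n + m) 1 + sv C (n + A * n - 1) 1 := by
      refine Real.tsum_le_of_sum_range_le (fun m => hnn _) fun J => hsplit n (A * n) J (by omega)
    have e2 : sv C (n + A * n - 1) 1 ≤ c₂ / 2 * (n : ℝ) ^ (-(1 / 2 : ℝ)) := by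
      refine (hsv _ (by omega)).2.trans ?_
      have e3 : ((n + A * n - 1 : ℕ) : ℝ) ^ (-(1 / 2 : ℝ)) ≤ ((A : ℝ) * n) ^ (-(1 / 2 : ℝ)) := by
        refine Real.rpow_le_rpow_of_nonpos (by positivity) ?_ (by norm_num)
        have : A * n ≤ n + A * n - 1 := by omega
        exact_mod_cast this
      rw [Real.mul_rpow hA0.le hn0.le] at e3
      calc Bs * ((n + A * n - 1 : ℕ) : ℝ) ^ (-(1 / 2 : ℝ))
          ≤ Bs * ((A : ℝ) ^ (-(1 / 2 : ℝ)) * (n : ℝ) ^ (-(1 / 2 : ℝ))) :=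
            mul_le_mul_of_nonneg_left e3 hBs
        _ = Bs * (A : ℝ) ^ (-(1 / 2 : ℝ)) * (n : ℝ) ^ (-(1 / 2 : ℝ)) := by ring
        _ ≤ _ := by gcongr
    have e4 := htl n hn2
    have e5 : ∀ i : ℕ, Kv C v (2 * (k + i) + 1) 1 ≤ Kv C v n 1 := by
      intro i
      induction i with
      | zero => exact le_rfl
      | succ i ih => exact (kv_anti C hnl hv0 (k + i)).trans ih
    have e6 : ∀ m ∈ range (A * n), Kv C v (n + m) 1 ≤ Kv C v n 1 := by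
      intro m _
      rcases Nat.even_or_odd' m with ⟨i, rfl | rfl⟩
      · rw [show n + 2 * i = 2 * (k + i) + 1 by omega]
        exact e5 i
      · have e7 := hle (n + (2 * i + 1))
        rw [show n + (2 * i + 1) = 2 * (k + i + 1) by omega] at e7 ⊢
        rw [NPen.K0_even C hnl] at e7
        exact e7.trans (hnn n)
    have e8 := Finset.sum_le_sum e6
    rw [Finset.sum_const, Finset.card_range, nsmul_eq_mul] at e8
    push_cast at e8
    have e9 : c₂ / 2 * (n : ℝ) ^ (-(1 / 2 : ℝ)) ≤ A * n * Kv C v n 1 := by linarith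
    have e10 : (n : ℝ) ^ (-(1 / 2 : ℝ)) = n * (n : ℝ) ^ (-(3 / 2 : ℝ)) := by
      nth_rewrite 2 [← Real.rpow_one (n : ℝ)]
      rw [← Real.rpow_add hn0]
      norm_num
    rw [e10] at e9
    have e11 : c₂ / (2 * A) * (n : ℝ) ^ (-(3 / 2 : ℝ)) * (A * n) ≤ Kv C v n 1 * (A * n) := by
      calc c₂ / (2 * A) * (n : ℝ) ^ (-(3 / 2 : ℝ)) * (A * n)
          = c₂ / 2 * (n * (n : ℝ) ^ (-(3 / 2 : ℝ))) := by field_simp
        _ ≤ A * n * Kv C v n 1 := e9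
        _ = _ := by ring
    exact le_of_mul_le_mul_right e11 (by positivity)
  -- the excursions
  have hp01 : 0 < C.p 0 1 := AZ.A24.p01 C
  have hp10 : 0 < C.p 1 0 := by
    have := C.down 1
    rwa [sub_self] at this
  have hfirst : ∀ n : ℕ, C.p 0 1 * Real.exp (v 1) * Kv C v (n + 1) 1 ≤ Kv C v (n + 2) 0 := by
    intro n
    rw [AZ.Kv_succ C v (n + 1) 0]
    have e1 : (1 : ℤ) ∈ Finset.Icc ((0 : ℤ) - 1) (0 + 1) \ {0} := by
      rw [Finset.mem_sdiff, Finset.mem_Icc, Finset.mem_singleton]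
      omega
    have e2 := Finset.single_le_sum (f := fun z => C.p 0 z * Real.exp (v z) * Kv C v (n + 1) z)
      (fun z _ => mul_nonneg (mul_nonneg (C.nonneg _ _) (Real.exp_pos _).le)
        (AZ.Kv_nonneg C v _ _)) e1
    have e3 : 0 ≤ (if n + 1 = 0 then C.p 0 0 * Real.exp (v 0) else 0) := by
      rw [if_neg (by omega)]
    linarith
  have hKv1 : C.p 1 0 * Real.exp (v 0) ≤ Kv C v 1 1 := by
    rw [AZ.Kv_succ C v 0 1, if_pos rfl]
    have e1 : 0 ≤ ∑ z ∈ Finset.Icc ((1 : ℤ) - 1) (1 + 1) \ {0},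
        C.p 1 z * Real.exp (v z) * Kv C v 0 z :=
      Finset.sum_nonneg fun z _ => mul_nonneg (mul_nonneg (C.nonneg _ _) (Real.exp_pos _).le)
        (AZ.Kv_nonneg C v _ _)
    linarith
  set q : ℝ := C.p 0 1 * Real.exp (v 1) with hq
  have hq0 : 0 < q := by positivity
  refine ⟨min (q * (C.p 1 0 * Real.exp (v 0))) (q * (c₂ / (2 * A) * 2 ^ (-(3 / 2 : ℝ)))),
    lt_min (by positivity) (by positivity), fun n hn => ?_⟩
  rcases eq_or_lt_of_le hn with h | h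
  · rw [← h, Nat.cast_one, Real.one_rpow, mul_one]
    refine (min_le_left _ _).trans ?_
    exact (mul_le_mul_of_nonneg_left hKv1 hq0.le).trans (hfirst 0)
  · obtain ⟨k, rfl⟩ : ∃ k, n = k + 1 := ⟨n - 1, by omega⟩
    have e1 := hkey k (by omega)
    have e2 := hfirst (2 * k)
    rw [show 2 * (k + 1) = 2 * k + 2 by ring]
    refine le_trans ?_ e2
    refine le_trans ?_ (mul_le_mul_of_nonneg_left e1 hq0.le)
    have e3 : ((2 : ℝ) * ((k + 1 : ℕ) : ℝ)) ^ (-(3 / 2 : ℝ)) ≤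
        ((2 * k + 1 : ℕ) : ℝ) ^ (-(3 / 2 : ℝ)) := by
      refine Real.rpow_le_rpow_of_nonpos (by positivity) ?_ (by norm_num)
      push_cast
      linarith
    rw [Real.mul_rpow (by norm_num) (Nat.cast_nonneg _)] at e3
    calc min (q * (C.p 1 0 * Real.exp (v 0))) (q * (c₂ / (2 * A) * 2 ^ (-(3 / 2 : ℝ)))) *
          ((k + 1 : ℕ) : ℝ) ^ (-(3 / 2 : ℝ))
        ≤ q * (c₂ / (2 * A) * 2 ^ (-(3 / 2 : ℝ))) * ((k + 1 : ℕ) : ℝ) ^ (-(3 / 2 : ℝ)) :=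
          mul_le_mul_of_nonneg_right (min_le_right _ _) (by positivity)
      _ = q * (c₂ / (2 * A) * (2 ^ (-(3 / 2 : ℝ)) * ((k + 1 : ℕ) : ℝ) ^ (-(3 / 2 : ℝ)))) := by ring
      _ ≤ _ := by gcongr

/-- `t ↦ Kv (-tφ) (2n)` is log-convex (`AZ.Interp.interp_K` with `0` and `-tφ`): if the bound holds
for `t = η > 0` it holds for all `t > 0` -/
theorem pen_all (C : Chain) {φ : ℤ → ℝ} (h0 : ∀ x, 0 ≤ φ x) {η c B : ℝ} (hη : 0 < η)
    (hc : 0 < c)
    (h1 : ∀ n : ℕ, 1 ≤ n →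
      c * (n : ℝ) ^ (-(3 / 2 : ℝ)) ≤ Kv C (fun z => -η * φ z) (2 * n) 0)
    (h2 : ∀ n : ℕ, 1 ≤ n → K0 C (2 * n) 0 ≤ B * (n : ℝ) ^ (-(3 / 2 : ℝ))) {t : ℝ} (ht : 0 < t) :
    ∃ c' : ℝ, 0 < c' ∧ ∀ n : ℕ, 1 ≤ n →
      c' * (n : ℝ) ^ (-(3 / 2 : ℝ)) ≤ Kv C (fun z => -t * φ z) (2 * n) 0 := by
  rcases le_total t η with h | h
  · refine ⟨c, hc, fun n hn => (h1 n hn).trans (AZ.Kv_mono C (fun z => ?_) _ _)⟩
    have := mul_le_mul_of_nonneg_right h (h0 z)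
    linarith
  · set s : ℝ := η / t with hs
    have hs0 : 0 < s := div_pos hη ht
    have hs1 : s ≤ 1 := (div_le_one ht).2 h
    have hB : 0 < B := by
      have e1 := h1 1 le_rfl
      have e2 := h2 1 le_rfl
      have e3 : Kv C (fun z => -η * φ z) (2 * 1) 0 ≤ K0 C (2 * 1) 0 := by
        rw [← AZ.Kv_K0]
        refine AZ.Kv_mono C (fun z => ?_) _ _
        have := mul_nonneg hη.le (h0 z)
        linarith
      rw [Nat.cast_one, Real.one_rpow, mul_one] at e1 e2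
      linarith
    refine ⟨(c / B ^ (1 - s)) ^ (1 / s), by positivity, fun n hn => ?_⟩
    have hn0 : (0 : ℝ) < n := by exact_mod_cast hn
    set y : ℝ := (n : ℝ) ^ (-(3 / 2 : ℝ)) with hy
    have hy0 : 0 < y := by positivity
    set x : ℝ := Kv C (fun z => -t * φ z) (2 * n) 0 with hx
    have hx0 : 0 ≤ x := AZ.Kv_nonneg C _ _ _
    have e1 := AZ.interp_K C (fun _ => 0) (fun z => -t * φ z) hs0.le hs1 (2 * n) 0
    have e2 : (fun z : ℤ => (1 - s) * (0 : ℝ) + s * (-t * φ z)) = fun z => -η * φ z := by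
      funext z
      rw [hs]
      field_simp
      ring
    rw [e2, AZ.Kv_K0, ← hx] at e1
    have e3 : c * y ≤ (B * y) ^ (1 - s) * x ^ s := by
      refine (h1 n hn).trans (e1.trans ?_)
      refine mul_le_mul_of_nonneg_right ?_ (by positivity)
      exact Real.rpow_le_rpow (MP_daa227_pr.K0_nonneg C _ _) (h2 n hn) (by linarith)
    have e4 : c / B ^ (1 - s) * y ^ s ≤ x ^ s := by
      rw [Real.mul_rpow hB.le hy0.le] at e3
      have e5 : y = y ^ (1 - s) * y ^ s := by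
        rw [← Real.rpow_add hy0, sub_add_cancel, Real.rpow_one]
      have hBs : 0 < B ^ (1 - s) := by positivity
      have hys : 0 < y ^ (1 - s) := by positivity
      rw [div_mul_eq_mul_div, div_le_iff₀ hBs]
      refine le_of_mul_le_mul_right ?_ hys
      calc c * y ^ s * y ^ (1 - s) = c * (y ^ (1 - s) * y ^ s) := by ring
        _ = c * y := by rw [← e5]
        _ ≤ _ := e3
        _ = _ := by ring
    have e6 := Real.rpow_le_rpow (by positivity) e4 (show (0 : ℝ) ≤ 1 / s by positivity)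
    rw [Real.mul_rpow (by positivity) (by positivity), ← Real.rpow_mul hy0.le,
      ← Real.rpow_mul hx0, mul_one_div_cancel hs0.ne', Real.rpow_one, Real.rpow_one] at e6
    exact e6

end

end Pool.Agent.IG
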