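import Pool.Agent.Lib.MP_daa227_pr_IG.Ord
import Pool.Agent.Lib.MP_daa227_pr_IG.MU
import Pool.Agent.Lib.MP_daa227_pr_IG.MTail
import Pool.Agent.Lib.MP_daa227_pr_IG.NCore
import Pool.Agent.Lib.MP_daa227_pr_IG.NPen

/-!
# MP_daa227_pr, marginal case: infinite order, potentials without compact support
-/

namespace Pool.Agent.IG

open MeasureTheory ProbabilityTheory Finset Filter Topology
open MP_daa227_pr (Chain Zk Zf Gk Gf KU K0 Ren shift seqLaw ExpMom DepOn Good GoodW mom)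
open Pool.Agent.AZ (Mod Kv lmg)
open Pool.Agent.IOrd (Sys aS cv)

noncomputable section

/-- marginal case: no moment of order larger than one is bounded at the critical point -/
theorem marg_unbd2 (M : Mod) {h₀ : ℝ} (h0 : 0 < h₀) (hcrit : ∀ h, 0 < M.Fr h ↔ h < h₀)
    (hF : FTail M.C (1 / 2)) (hF' : FTail (AZ.cneg M.C) (1 / 2)) {B : ℝ}
    (hup : ∀ n : ℕ, 1 ≤ n → K0 M.C (2 * n) 0 ≤ B * (n : ℝ) ^ (-(3 / 2 : ℝ)))
    (hlow : ∀ t : ℝ, 0 < t → ∃ c' : ℝ, 0 < c' ∧ ∀ n : ℕ, 1 ≤ n →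
      c' * (n : ℝ) ^ (-(3 / 2 : ℝ)) ≤ Kv M.C (fun z => -t * M.φ z) (2 * n) 0) : Unbd M h₀ := by
  intro p hp K
  by_contra hcon
  push Not at hcon
  have hg := bdd_sum hp hcon
  have hg1 : ∀ η : ℝ, 0 < η → ∃ N : ℕ, 1 - η ≤ ∑ n ∈ range N, M.g h₀ n := fun η hη =>
    bdd_one h0 hcrit hp hcon hη
  obtain ⟨A, _, hT⟩ := g_tail M h0 hg (bdd_ldec hp hcon) (a := 1 / 2) (by norm_num) (by norm_num) hF
    (fun _ => hF')
  obtain ⟨c₁, hc₁, h1⟩ := hlow h₀ h0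
  have hlow' : ∀ n : ℕ, 1 ≤ n → c₁ * (n : ℝ) ^ (-(3 / 2 : ℝ)) ≤ M.g h₀ (2 * n) := fun n hn => by
    refine (h1 n hn).trans (AZ.Kv_mono M.C (fun z => ?_) (2 * n) 0)
    have h2 : 0 ≤ lmg M.μ (M.β * M.φ z) := AZ.lmg_nonneg M.exp_mom M.mean _
    unfold Mod.v
    linarith
  obtain ⟨c₂, hc₂, hU⟩ := u_half M hg hg1 hT hc₁ hlow'
  exact marg_core2 M h0 hp hcon hc₁ h1 hup hc₂ hU

end

end Pool.Agent.IG
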