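import Pool.Agent.Lib.MP_daa227_pr_IG.KvB
import Pool.Agent.Lib.MP_daa227_pr_AZ.Grow

/-!
# MP_daa227_pr, order: bounded moments give kernels of mass at most one
-/

namespace Pool.Agent.IG

open MeasureTheory ProbabilityTheory Finset Filter Topology
open MP_daa227_pr (Chain Zk Zf Gk Gf KU K0 Ren shift seqLaw ExpMom DepOn Good GoodW mom)
open Pool.Agent.AZ (Mod Kv lmg)
open Pool.Agent.IOrd (Sys aS cv)

noncomputable section

namespace SumLe

theorem Zk_tilt (C : Chain) (s r : ℤ → ℝ) (l : ℝ) : ∀ (n : ℕ) (ω : ℕ → ℝ) (x y : ℤ),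
    Zk C (AZ.A3.Wg (fun z => s z + l) r) n ω x y =
      Real.exp (l * ∑ i ∈ Finset.range n, ω i) * Zk C (AZ.A3.Wg s r) n ω x y
  | 0, ω, x, y => by
    simp only [Zk, Finset.range_zero, Finset.sum_empty, mul_zero, Real.exp_zero, one_mul]
  | n + 1, ω, x, y => by
    have hW : ∀ z, AZ.A3.Wg (fun z => s z + l) r (ω 0) z =
        Real.exp (l * ω 0) * AZ.A3.Wg s r (ω 0) z := by
      intro z
      unfold AZ.A3.Wg
      rw [← Real.exp_add]
      congr 1
      ring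
    have ih := fun z => Zk_tilt C s r l n (shift 1 ω) z y
    have hE : Real.exp (l * ∑ i ∈ Finset.range (n + 1), ω i) =
        Real.exp (l * ∑ i ∈ Finset.range n, shift 1 ω i) * Real.exp (l * ω 0) := by
      rw [← Real.exp_add, Finset.sum_range_succ']
      congr 1
      simp only [MP_daa227_pr.shift_apply]
      ring
    rw [Zk, Zk, hE, Finset.mul_sum]
    refine Finset.sum_congr rfl fun z _ => ?_
    rw [ih z, hW]
    ring

theorem Zd_add_const (C : Chain) (u : ℤ → ℝ) (c : ℝ) : ∀ (n : ℕ) (x y : ℤ),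
    AZ.Zd C (fun z => u z + c) n x y = Real.exp (n * c) * AZ.Zd C u n x y
  | 0, x, y => by
    unfold AZ.Zd
    simp only [Zk, Nat.cast_zero, zero_mul, Real.exp_zero, one_mul]
  | n + 1, x, y => by
    have ih := fun z => Zd_add_const C u c n z y
    unfold AZ.Zd at ih ⊢
    rw [Zk, Zk, Finset.mul_sum]
    refine Finset.sum_congr rfl fun z _ => ?_
    have h1 := ih z
    have h2 : Real.exp (((n + 1 : ℕ) : ℝ) * c) = Real.exp c * Real.exp (n * c) := by
      rw [← Real.exp_add]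
      congr 1
      push_cast
      ring
    have h3 : shift 1 (fun _ : ℕ => (0 : ℝ)) = fun _ => 0 := rfl
    rw [h3, h1, h2, Real.exp_add]
    ring

end SumLe

/-- Otherwise `AZ.grow` gives an even `L` with `1 < Zd C v L 0 0`, and
`Zd (k L) ≥ Zd L ^ k` (`AZ.Zd_mul_le`) is unbounded. -/
theorem zd_bdd (C : Chain) (v : ℤ → ℝ) {K : ℝ} (hK : ∀ n : ℕ, AZ.Zd C v (2 * n) 0 0 ≤ K) (N : ℕ) :
    ∑ n ∈ range N, Kv C v n 0 ≤ 1 := by
  by_contra hcon
  push Not at hcon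
  obtain ⟨L, _, ⟨r, hr⟩, hL⟩ := AZ.grow C v hcon
  have hpow : ∀ k : ℕ, AZ.Zd C v L 0 0 ^ k ≤ AZ.Zd C v (k * L) 0 0 := by
    intro k
    induction k with
    | zero => rw [pow_zero, Nat.zero_mul, AZ.Zd_zero]
    | succ k ih =>
      have h1 := AZ.Zd_mul_le C v (k * L) L 0 0 0
      have h2 : (k + 1) * L = k * L + L := by ring
      rw [h2, pow_succ]
      exact (mul_le_mul_of_nonneg_right ih (AZ.Zd_nonneg C v L 0 0)).trans h1
  obtain ⟨k, hk⟩ := pow_unbounded_of_one_lt K hL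
  have h3 := hK (k * r)
  have h4 : 2 * (k * r) = k * L := by
    rw [hr]
    ring
  rw [h4] at h3
  linarith [hpow k]

/-- `mom_hold` with `F = M.Z h (2 n)`: `exp (lam ∑ ω) Zk (Wg s r) = Zk (Wg (s + lam) r)` (as
`AZ.A3.Gk_tilt`), its mean is `Zd` with the exponents `lmg (β φ z + lam) - h φ z`
(`AZ.A3.mom_Zk`, `AZ.Mod.A3_W`); subtracting the constant `lmg (q lam) / q` from the exponents
multiplies `Zd .. (2 n)` by `exp (-2 n lmg (q lam) / q)`. `zd_bdd` with `K ^ (1 / p)`. -/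
theorem zd_tilt (M : Mod) {h p q K : ℝ} (hpq : p.HolderConjugate q) (hK : 0 ≤ K)
    (hb : ∀ n : ℕ, mom M.μ p (fun ω => M.Z h (2 * n) ω) ≤ ENNReal.ofReal K) (lam : ℝ) (N : ℕ) :
    ∑ n ∈ range N, Kv M.C
      (fun z => lmg M.μ (M.β * M.φ z + lam) - h * M.φ z - lmg M.μ (q * lam) / q) n 0 ≤ 1 := by
  have hκ : 0 ≤ M.κ := M.κ_pos.le
  have hs : ∀ z, |M.β * M.φ z + lam| ≤ M.κ + |lam| := fun z =>
    (abs_add_le _ _).trans (by have := M.A3_abs z; linarith)
  have hp0 : 0 ≤ 1 / p := by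
    have := hpq.pos
    positivity
  refine zd_bdd M.C _ (K := K ^ (1 / p)) (fun n => ?_) N
  have h1 := mom_hold M.exp_mom hpq lam (2 * n) (F := fun ω => M.Z h (2 * n) ω)
    (M.good_Z h (2 * n)).meas (fun ω => M.Z_nonneg h (2 * n) ω)
  have h2 : mom M.μ 1 (fun ω => Real.exp (lam * ∑ i ∈ Finset.range (2 * n), ω i) *
      M.Z h (2 * n) ω) = ENNReal.ofReal (AZ.Zd M.C
        (fun z => lmg M.μ (M.β * M.φ z + lam) - h * M.φ z) (2 * n) 0 0) := by
    rw [← AZ.A3.mom_Zk (s := fun z => M.β * M.φ z + lam) (r := fun z => h * M.φ z) M.C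
      M.exp_mom hs]
    refine MP_daa227_pr.mom_congr fun ω => ?_
    rw [SumLe.Zk_tilt, AZ.Mod.Z, M.A3_W h]
  rw [h2] at h1
  have h3 : mom M.μ p (fun ω => M.Z h (2 * n) ω) ^ (1 / p) *
      ENNReal.ofReal (Real.exp ((2 * n : ℕ) * (lmg M.μ (q * lam) / q))) ≤
      ENNReal.ofReal (K ^ (1 / p) * Real.exp ((2 * n : ℕ) * (lmg M.μ (q * lam) / q))) := by
    rw [ENNReal.ofReal_mul (Real.rpow_nonneg hK _), ← ENNReal.ofReal_rpow_of_nonneg hK hp0]
    exact mul_le_mul_left (ENNReal.rpow_le_rpow (hb n) hp0) _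
  have h4 := (ENNReal.ofReal_le_ofReal_iff (mul_nonneg (Real.rpow_nonneg hK _)
    (Real.exp_pos _).le)).1 (h1.trans h3)
  have h5 : (fun z => lmg M.μ (M.β * M.φ z + lam) - h * M.φ z - lmg M.μ (q * lam) / q) =
      fun z => (lmg M.μ (M.β * M.φ z + lam) - h * M.φ z) + -(lmg M.μ (q * lam) / q) := by
    funext z
    ring
  rw [h5, SumLe.Zd_add_const]
  have h6 := mul_le_mul_of_nonneg_left h4
    (Real.exp_pos (((2 * n : ℕ) : ℝ) * -(lmg M.μ (q * lam) / q))).le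
  refine h6.trans (le_of_eq ?_)
  rw [mul_comm, mul_assoc, ← Real.exp_add]
  have h7 : ((2 * n : ℕ) : ℝ) * (lmg M.μ (q * lam) / q) +
      ((2 * n : ℕ) : ℝ) * -(lmg M.μ (q * lam) / q) = 0 := by ring
  rw [h7, Real.exp_zero, mul_one]

end

end Pool.Agent.IG
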