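import Pool.Agent.Lib.MP_daa227_pr_IG.Main3
import Pool.Agent.Lib.MP_daa227_pr_IG.BdsG
import Pool.Agent.Lib.MP_daa227_pr_IG.ExcAll
import Pool.Agent.Lib.MP_daa227_pr_IG.Hop
import Pool.Agent.Lib.MP_daa227_pr_IG.Crit
import Pool.Agent.Lib.MP_daa227_pr_IG.Unb
import Pool.Agent.Lib.MP_daa227_pr_IG.LeftDec
import Pool.Agent.Lib.MP_daa227_pr_IG.GTail
import Pool.Agent.Lib.MP_daa227_pr_IG.RelH
import Pool.Agent.Lib.MP_daa227_pr_IG.FinO

/-!
# MP_daa227_pr: the order of the transition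
-/

namespace Pool.Agent.IG

open MeasureTheory ProbabilityTheory Finset Filter Topology
open MP_daa227_pr (Chain Zk Zf Gk Gf KU K0 Ren shift seqLaw ExpMom DepOn Good GoodW mom)
open Pool.Agent.AZ (Mod Kv lmg)
open Pool.Agent.IOrd (Sys aS cv)

noncomputable section

/-- no moment of order larger than one of the pinned partition functions is bounded -/
def Unbd (M : Mod) (hc : ℝ) : Prop :=
  ∀ p : ℝ, 1 < p → ∀ C : ℝ, ∃ n : ℕ, ENNReal.ofReal C < mom M.μ p (fun ω => M.Z hc (2 * n) ω)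

/-- the quenched transition is of infinite order -/
def InfOrd (M : Mod) (hc : ℝ) : Prop :=
  ∀ q : ℝ, 0 < q → ∃ K : ℝ, ∀ δ : ℝ, 0 ≤ δ → δ ≤ 1 → M.Fr (hc - δ) ≤ K * δ ^ q

/-- if no moment of order larger than one is bounded at the critical point, the quenched transition
is of infinite order -/
theorem infOrd_of_unbd (M : Mod) (hP : PolyCost M) {hc : ℝ} (hc0 : 0 < hc)
    (hcrit : ∀ h, 0 < M.Fr h ↔ h < hc) (hU : Unbd M hc) : InfOrd M hc := by
  intro q hq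
  have hΦ := M.Φ_pos
  have hF0 : M.Fr hc ≤ 0 := by
    by_contra hcon
    push Not at hcon
    exact lt_irrefl _ ((hcrit hc).1 hcon)
  have hlip : ∀ δ, 0 ≤ δ → M.Fr (hc - δ) ≤ δ * M.Φ := fun δ hδ => by
    have h1 := M.Fr_lip (h := hc - δ) (h' := hc) (by linarith)
    have h2 : hc - (hc - δ) = δ := by ring
    rw [h2] at h1
    linarith
  have hFd : ∀ d, 0 ≤ d → 2 * M.Fr (hc - d / M.Φ) ≤ 2 * d := fun d hd => by
    have h1 := hlip (d / M.Φ) (by positivity)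
    rw [div_mul_cancel₀ _ hΦ.ne'] at h1
    linarith
  have hU' : ∀ p, 1 < p → ∀ C : ℝ, ∃ n, ENNReal.ofReal C < mom M.μ p (Zg M hc 0 n) := by
    intro p hp C
    obtain ⟨n, hn⟩ := hU p hp C
    refine ⟨n, ?_⟩
    have e : Zg M hc 0 n = fun ω => M.Z hc (2 * n) ω := by
      funext ω
      unfold Zg
      rw [zero_div, sub_zero]
    rw [e]
    exact hn
  obtain ⟨K, hK⟩ := main3 (sys M hc) (F := fun d => 2 * M.Fr (hc - d / M.Φ))
    (fun d _ => tendsto_F M hc d) hFd (h_zero M hP hc0 hF0) hU'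
    (fun s s₂ hs h12 h2 hS => by
      obtain ⟨c, R, K, hc', hR, hK, hE⟩ := exc_all M hc0 hs h12 h2 hS
      obtain ⟨c₁, A₁, hc₁, hA₁, hL⟩ := aS_low M hP hc hs (h12.le.trans h2)
      exact bdp M hs (h12.le.trans h2) hR hc' hK hE hc₁ hA₁ hL) hq
  refine ⟨max (K / 2) M.Φ * M.Φ ^ q, fun δ h0 h1 => ?_⟩
  have hpow : (δ * M.Φ) ^ q = δ ^ q * M.Φ ^ q := Real.mul_rpow h0 hΦ.le
  have hq0 : 0 ≤ (δ * M.Φ) ^ q := Real.rpow_nonneg (by positivity) q
  have hgoal : max (K / 2) M.Φ * M.Φ ^ q * δ ^ q = max (K / 2) M.Φ * (δ * M.Φ) ^ q := by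
    rw [hpow]; ring
  rw [hgoal]
  by_cases hd : δ * M.Φ ≤ 1
  · have h2 := hK (δ * M.Φ) (by positivity) hd
    rw [mul_div_cancel_right₀ _ hΦ.ne'] at h2
    have h3 : M.Fr (hc - δ) ≤ K / 2 * (δ * M.Φ) ^ q := by linarith
    exact h3.trans (mul_le_mul_of_nonneg_right (le_max_left _ _) hq0)
  · push Not at hd
    have h2 : 1 ≤ (δ * M.Φ) ^ q := Real.one_le_rpow hd.le hq.le
    have h3 : M.Fr (hc - δ) ≤ M.Φ := (hlip δ h0).trans (by nlinarith)
    have h4 : M.Φ ≤ max (K / 2) M.Φ := le_max_right _ _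
    have h5 : 0 ≤ max (K / 2) M.Φ := hΦ.le.trans h4
    calc M.Fr (hc - δ) ≤ M.Φ := h3
      _ ≤ max (K / 2) M.Φ * 1 := by rw [mul_one]; exact h4
      _ ≤ max (K / 2) M.Φ * (δ * M.Φ) ^ q := mul_le_mul_of_nonneg_left h2 h5

section Bounded

variable {M : Mod} {hc p K : ℝ}

/-- a bounded moment of order larger than one: the annealed excursions have mass at most one -/
theorem bdd_sum (hp : 1 < p)
    (hb : ∀ n : ℕ, mom M.μ p (fun ω => M.Z hc (2 * n) ω) ≤ ENNReal.ofReal K) (N : ℕ) :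
    ∑ n ∈ range N, M.g hc n ≤ 1 := by
  have hb' : ∀ n : ℕ, mom M.μ p (fun ω => M.Z hc (2 * n) ω) ≤ ENNReal.ofReal (max K 0) :=
    fun n => (hb n).trans (ENNReal.ofReal_le_ofReal (le_max_left _ _))
  have h := zd_tilt M (Real.HolderConjugate.conjExponent hp) (le_max_right K 0) hb' 0 N
  refine le_trans (le_of_eq ?_) h
  refine Finset.sum_congr rfl fun n _ => ?_
  unfold Mod.g
  congr 1
  funext z
  rw [add_zero, mul_zero, AZ.lmg_zero, zero_div, sub_zero]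
  rfl

theorem bdd_ldec (hp : 1 < p)
    (hb : ∀ n : ℕ, mom M.μ p (fun ω => M.Z hc (2 * n) ω) ≤ ENNReal.ofReal K) (hℓ : 0 < M.ℓ) :
    LDec M hc := by
  have hb' : ∀ n : ℕ, mom M.μ p (fun ω => M.Z hc (2 * n) ω) ≤ ENNReal.ofReal (max K 0) :=
    fun n => (hb n).trans (ENNReal.ofReal_le_ofReal (le_max_left _ _))
  exact left_dec M hℓ (Real.HolderConjugate.conjExponent hp) (le_max_right K 0) hb'
    (bdd_sum hp hb)

/-- a bounded moment of order larger than one: the annealed excursions have mass one -/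
theorem bdd_one (hc0 : 0 < hc) (hcrit : ∀ h, 0 < M.Fr h ↔ h < hc) (hp : 1 < p)
    (hb : ∀ n : ℕ, mom M.μ p (fun ω => M.Z hc (2 * n) ω) ≤ ENNReal.ofReal K) {η : ℝ}
    (hη : 0 < η) : ∃ N : ℕ, 1 - η ≤ ∑ n ∈ range N, M.g hc n := by
  obtain ⟨u, hu, B, hB⟩ := g_fin M hc0 (bdd_sum hp hb) (bdd_ldec hp hb)
  exact g_one M hcrit hu hB (bdd_sum hp hb) hη

/-- a bounded moment of order larger than one: the loop exponent is at most one half and the
transition is of finite order -/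
theorem bdd_fin (hP : PolyCost M) (hc0 : 0 < hc) (hcrit : ∀ h, 0 < M.Fr h ↔ h < hc) (hp : 1 < p)
    (hb : ∀ n : ℕ, mom M.μ p (fun ω => M.Z hc (2 * n) ω) ≤ ENNReal.ofReal K) {a : ℝ} (ha : 0 < a)
    (ha1 : a ≤ 1) (hF : FTail M.C a) (hF' : M.ℓ ≤ 0 → FTail (AZ.cneg M.C) a) :
    a ≤ 1 / 2 ∧ ∃ c B : ℝ, 0 < c ∧ 0 < B ∧ ∀ δ : ℝ, 0 < δ → δ ≤ 1 → c * δ ^ B ≤ M.Fr (hc - δ) := by
  have hg := bdd_sum hp hb
  have hdec := bdd_ldec hp hb
  have hg1 : ∀ η : ℝ, 0 < η → ∃ N : ℕ, 1 - η ≤ ∑ n ∈ range N, M.g hc n := fun η hη =>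
    bdd_one hc0 hcrit hp hb hη
  obtain ⟨A, _, hT⟩ := g_tail M hc0 hg hdec ha ha1 hF hF'
  refine ⟨?_, ?_⟩
  · by_contra hcon
    push Not at hcon
    exact no_bdd M hp hb hg1 hcon hT
  · obtain ⟨b, E, hb0, hE, hseq⟩ := fin_seq M hP hc0 (Real.HolderConjugate.conjExponent hp) hb hg
      hg1 ha hT
    exact fin_all (F := M.Fr) (fun h h' hh => M.Fr_anti hh) hcrit ha hb0 hE hseq

end Bounded

end

end Pool.Agent.IG
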