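import Pool.Agent.Lib.MP_daa227_pr_IG.Defs
import Pool.Agent.Lib.MP_daa227_pr_AZ.HalfLine
import Pool.Agent.Lib.MP_daa227_pr.Crit

/-!
# MP_daa227_pr, general potentials: recurrence at another site
-/

namespace Pool.Agent.IG

open MeasureTheory ProbabilityTheory Finset Filter Topology
open MP_daa227_pr (Chain Zk Zf Gk Gf KU K0 Ren shift seqLaw ExpMom DepOn Good GoodW mom)
open Pool.Agent.AZ (Mod Kv lmg)
open Pool.Agent.IOrd (Sys aS cv)

noncomputable section

/-- translation of the point to point kernel: induction on `n` -/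
theorem zk_ctr (C : Chain) (W : ℝ → ℤ → ℝ) (r : ℤ) : ∀ (n : ℕ) (ω : ℕ → ℝ) (x y : ℤ),
    Zk (AZ.ctr C r) (fun a z => W a (z + r)) n ω x y = Zk C W n ω (x + r) (y + r) := by
  intro n
  induction n with
  | zero =>
    intro ω x y
    rw [Zk, Zk]
    by_cases h : x = y
    · rw [if_pos h, if_pos (by rw [h])]
    · rw [if_neg h, if_neg (by omega)]
  | succ n ih =>
    intro ω x y
    rw [Zk, Zk, AZ.sum_nb, AZ.sum_nb, ih, ih, ih]
    have h1 : x - 1 + r = x + r - 1 := by ring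
    have h2 : x + 1 + r = x + r + 1 := by ring
    have h3 : ∀ a b : ℤ, (AZ.ctr C r).p a b = C.p (a + r) (b + r) := fun a b => rfl
    rw [h3, h3, h3, h1, h2]

namespace RecShift

theorem convPart (k u : ℕ → ℝ) (N : ℕ) :
    ∑ n ∈ range N, ∑ m ∈ range (n + 1), k m * u (n - m) =
      ∑ m ∈ range N, k m * ∑ j ∈ range (N - m), u j := by
  have h1 : ∑ n ∈ range N, ∑ m ∈ range (n + 1), k m * u (n - m) =
      ∑ m ∈ range N, ∑ n ∈ Ico m N, k m * u (n - m) := by
    refine Finset.sum_comm' ?_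
    intro n m
    rw [mem_range, mem_range, mem_Ico, mem_range]
    omega
  rw [h1]
  refine sum_congr rfl fun m _ => ?_
  rw [← mul_sum, sum_Ico_eq_sum_range]
  congr 1
  refine sum_congr rfl fun j _ => ?_
  rw [Nat.add_sub_cancel_left]

/-- a recurrent renewal sequence is not summable -/
theorem not_summable {k u : ℕ → ℝ} (hk : ∀ n, 0 ≤ k n) (hu : ∀ n, 0 ≤ u n) (hu0 : u 0 = 1)
    (hren : ∀ n, u (n + 1) = ∑ m ∈ range (n + 1), k m * u (n - m)) (hsum : HasSum k 1) :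
    ¬ Summable u := by
  intro hs
  have h1 : (∑' n, k n) * (∑' n, u n) = ∑' n, ∑ m ∈ range (n + 1), k m * u (n - m) :=
    tsum_mul_tsum_eq_tsum_sum_range_of_summable_norm
      (by simpa only [Real.norm_of_nonneg (hk _)] using hsum.summable)
      (by simpa only [Real.norm_of_nonneg (hu _)] using hs)
  have h2 : ∑' n, u n = u 0 + ∑' n, u (n + 1) := hs.tsum_eq_zero_add
  simp only [← hren] at h1
  rw [hsum.tsum_eq, one_mul] at h1
  rw [hu0] at h2
  linarith

/-- a transient renewal sequence is summable -/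
theorem hasSum_of {k u : ℕ → ℝ} (hk : ∀ n, 0 ≤ k n) (hu : ∀ n, 0 ≤ u n) (hu0 : u 0 = 1)
    (hren : ∀ n, u (n + 1) = ∑ m ∈ range (n + 1), k m * u (n - m))
    (hle : ∀ N, ∑ n ∈ range N, k n ≤ 1) (hns : ¬ Summable u) : HasSum k 1 := by
  have hsk : Summable k := summable_of_sum_range_le hk hle
  have hκ : ∑' n, k n ≤ 1 := hsk.tsum_le_of_sum_range_le hle
  rcases hκ.lt_or_eq with h | h
  · exfalso
    apply hns
    set κ := ∑' n, k n with hκd
    refine summable_of_sum_range_le (c := (1 - κ)⁻¹) hu fun N => ?_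
    have h1 : ∑ n ∈ range (N + 1), u n ≤ 1 + κ * ∑ n ∈ range (N + 1), u n := by
      have h2 : ∑ n ∈ range (N + 1), u n = ∑ n ∈ range N, u (n + 1) + 1 := by
        rw [sum_range_succ', hu0]
      have h3 : ∑ n ∈ range N, u (n + 1) ≤ κ * ∑ n ∈ range (N + 1), u n := by
        simp only [hren]
        rw [convPart]
        calc ∑ m ∈ range N, k m * ∑ j ∈ range (N - m), u j
            ≤ ∑ m ∈ range N, k m * ∑ j ∈ range (N + 1), u j := by
              refine sum_le_sum fun m _ => mul_le_mul_of_nonneg_left ?_ (hk m)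
              refine sum_le_sum_of_subset_of_nonneg ?_ fun _ _ _ => hu _
              intro j hj
              rw [mem_range] at hj ⊢
              omega
          _ = (∑ m ∈ range N, k m) * ∑ j ∈ range (N + 1), u j := by rw [sum_mul]
          _ ≤ κ * ∑ j ∈ range (N + 1), u j :=
              mul_le_mul_of_nonneg_right (hsk.sum_le_tsum _ fun _ _ => hk _)
                (sum_nonneg fun _ _ => hu _)
      rw [h2] at h3 ⊢
      linarith
    have h4 : ∑ n ∈ range N, u n ≤ ∑ n ∈ range (N + 1), u n := by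
      rw [sum_range_succ]
      linarith [hu N]
    have h5 : (1 - κ) * ∑ n ∈ range (N + 1), u n ≤ 1 := by linarith
    have h6 : 0 < 1 - κ := by linarith
    refine h4.trans ?_
    rw [← mul_one (1 - κ)⁻¹, le_inv_mul_iff₀ h6]
    exact h5
  · rw [← h]
    exact hsk.hasSum

theorem ren (C : Chain) (n : ℕ) : AZ.Zd C (fun _ => 0) (n + 1) 0 0 =
    ∑ m ∈ range (n + 1), K0 C (m + 1) 0 * AZ.Zd C (fun _ => 0) (n - m) 0 0 := by
  rw [AZ.Zd_renewal C _ (Nat.succ_ne_zero n)]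
  have h1 : Ioc 0 (n + 1) = (range (n + 1)).map (addRightEmbedding 1) := by
    rw [range_eq_Ico, map_add_right_Ico]
    ext i
    rw [mem_Ioc, mem_Ico]
    omega
  rw [h1, sum_map]
  refine sum_congr rfl fun m _ => ?_
  rw [addRightEmbedding_apply, AZ.Kv_K0]
  congr 2
  omega

theorem partial_le (C : Chain) (N : ℕ) : ∑ n ∈ range N, K0 C (n + 1) 0 ≤ 1 := by
  have h1 := AZ.HalfLine.Gf_K0 C N 0 (fun _ => 0)
  have h2 := AZ.HalfLine.Gf_nonneg C {0} N 0 (fun _ => 0)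
  rw [sum_range_succ'] at h1
  have h3 : K0 C 0 0 = 0 := rfl
  rw [h3, add_zero] at h1
  linarith

theorem to_zero (C : Chain) (r : ℤ) : 0 < AZ.Zd C (fun _ => 0) r.natAbs r 0 := by
  have hW : ∀ (a : ℝ) (z : ℤ), 0 < (fun (_ : ℝ) (_ : ℤ) => Real.exp 0) a z :=
    fun _ _ => Real.exp_pos _
  rcases le_or_gt 0 r with h | h
  · have := MP_daa227_pr.Zk_down_pos (C := C) hW (fun _ => 0) r r.natAbs
    rw [show r - (r.natAbs : ℤ) = 0 by omega] at this
    exact this
  · have := MP_daa227_pr.Zk_up_pos (C := C) hW (fun _ => 0) r r.natAbs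
    rw [show r + (r.natAbs : ℤ) = 0 by omega] at this
    exact this

theorem from_zero (C : Chain) (r : ℤ) : 0 < AZ.Zd C (fun _ => 0) r.natAbs 0 r :=
  MP_daa227_pr.Zk_from_zero_pos (C := C) (W := fun _ _ => Real.exp 0)
    (fun _ _ => Real.exp_pos _) (fun _ => 0) r

theorem zd_ctr (C : Chain) (r : ℤ) (n : ℕ) :
    AZ.Zd (AZ.ctr C r) (fun _ => 0) n 0 0 = AZ.Zd C (fun _ => 0) n r r := by
  have h := zk_ctr C (fun _ _ => Real.exp 0) r n (fun _ => 0) 0 0
  rw [zero_add] at h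
  exact h

end RecShift

/-- Let `u n = AZ.Zd C 0 n 0 0`, `u' n = AZ.Zd (ctr C r) 0 n 0 0 = AZ.Zd C 0 n r r`
(`zk_ctr`). `AZ.Zd_renewal` (`v = 0`, `AZ.Kv_K0`): if `∑ K0 = 1` then `∑ u` diverges
(else `S = 1 + S`). Since `u' (n + 2 |r|) ≥ c u n`, `c > 0` (paths `r → 0 → 0 → r`;
`AZ.Zd_mul_le`, positivity by `MP_daa227_pr.Zk_up_pos`, `Zk_down_pos`), `∑ u'` diverges.
If `κ = ∑ K0 (ctr C r) (n + 1) 0 < 1` (it is at most `1`: `AZ.HalfLine.Gf_K0`, `Gf_nonneg`)
then `∑_{n ≤ N} u' n ≤ 1 + κ ∑_{n ≤ N} u' n` is bounded, a contradiction. -/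
theorem rec_shift (C : Chain) (hrec : HasSum (fun n : ℕ => K0 C (n + 1) 0) 1) (r : ℤ) :
    HasSum (fun n : ℕ => K0 (AZ.ctr C r) (n + 1) 0) 1 := by
  have hns : ¬ Summable (fun n => AZ.Zd C (fun _ => 0) n 0 0) :=
    RecShift.not_summable (fun n => MP_daa227_pr.K0_nonneg C _ _) (fun n => AZ.Zd_nonneg C _ n 0 0)
      (AZ.Zd_zero C _ 0) (RecShift.ren C) hrec
  refine RecShift.hasSum_of (u := fun n => AZ.Zd (AZ.ctr C r) (fun _ => 0) n 0 0)
    (fun n => MP_daa227_pr.K0_nonneg _ _ _) (fun n => AZ.Zd_nonneg _ _ n 0 0)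
    (AZ.Zd_zero _ _ 0) (RecShift.ren _) (RecShift.partial_le _) fun hs => hns ?_
  set a := AZ.Zd C (fun _ => 0) r.natAbs r 0 with ha
  set b := AZ.Zd C (fun _ => 0) r.natAbs 0 r with hb
  have ha0 : 0 < a := RecShift.to_zero C r
  have hb0 : 0 < b := RecShift.from_zero C r
  have h1 : ∀ n, a * b * AZ.Zd C (fun _ => 0) n 0 0 ≤
      AZ.Zd (AZ.ctr C r) (fun _ => 0) (n + (r.natAbs + r.natAbs)) 0 0 := by
    intro n
    rw [RecShift.zd_ctr]
    have h2 := AZ.Zd_mul_le C (fun _ => 0) r.natAbs n r 0 0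
    have h3 := AZ.Zd_mul_le C (fun _ => 0) (r.natAbs + n) r.natAbs r 0 r
    rw [show n + (r.natAbs + r.natAbs) = r.natAbs + n + r.natAbs by omega]
    refine le_trans ?_ h3
    calc a * b * AZ.Zd C (fun _ => 0) n 0 0 = a * AZ.Zd C (fun _ => 0) n 0 0 * b := by ring
      _ ≤ _ := mul_le_mul_of_nonneg_right h2 hb0.le
  have h4 : Summable (fun n => AZ.Zd (AZ.ctr C r) (fun _ => 0) (n + (r.natAbs + r.natAbs)) 0 0) :=
    (summable_nat_add_iff (r.natAbs + r.natAbs)).2 hs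
  have h5 : Summable (fun n => a * b * AZ.Zd C (fun _ => 0) n 0 0) :=
    Summable.of_nonneg_of_le (fun n => mul_nonneg (mul_nonneg ha0.le hb0.le)
      (AZ.Zd_nonneg C _ n 0 0)) h1 h4
  exact (summable_mul_left_iff (mul_pos ha0 hb0).ne').1 h5

end

end Pool.Agent.IG
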