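import Pool.Agent.Lib.MP_daa227_pr_IG.Defs
import Pool.Agent.Lib.MP_daa227_pr_AZ.Strat

/-!
# MP_daa227_pr, general potentials: the strategy lemma with a general good event
-/

namespace Pool.Agent.IG

open MeasureTheory ProbabilityTheory Finset Filter Topology
open MP_daa227_pr (Chain Zk Zf Gk Gf KU K0 Ren shift seqLaw ExpMom DepOn Good GoodW mom)
open Pool.Agent.AZ (Mod Kv lmg)
open Pool.Agent.IOrd (Sys aS cv)

noncomputable section

namespace StratE

open Pool.Agent.AZ Pool.Agent.AZ.Strat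

/-- expected cost of the excursion over `k` bad blocks -/
theorem alk_ge (M : Mod) {h : ℝ} (hh : 0 < h) {n : ℕ} (hn : Even n) (hn0 : 0 < n)
    {b : (ℕ → ℝ) → ℝ} (hb : Measurable b) (hbd : DepOn n b) (h01 : ∀ ω, b ω = 0 ∨ b ω = 1)
    {p : ℝ} (hbi : ∫ ω, b ω ∂seqLaw M.μ = 1 - p) (hp0 : 0 < p)
    (hp1 : p ≤ 1 / 4) {c₀ c₁ : ℝ} (h0 : 0 ≤ c₀)
    (hQ : ∀ k : ℕ, 1 ≤ k → (1 + 2 * M.β * Real.sqrt p / h) *
      (-Real.log (Kv M.C (fun z => -h * M.φ z) (k * n) 0)) ≤ c₀ + c₁ * k) (k : ℕ) :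
    -((1 - p) ^ k * (c₀ + c₁ * k)) ≤
      ∫ ω, ab n b k ω * lk M h (k * n) ω ∂seqLaw M.μ := by
  cases k with
  | zero =>
    simp only [Nat.zero_mul, lk_zero, mul_zero, integral_zero]
    simp
    exact h0
  | succ j =>
    have hd : Even ((j + 1) * n) := hn.mul_left _
    have hd0 : 0 < (j + 1) * n := Nat.mul_pos (Nat.succ_pos j) hn0
    have hb0 : ∀ ω, 0 ≤ b ω := fun ω => by rcases h01 ω with h | h <;> simp [h]
    have hb1 : ∀ ω, b ω ≤ 1 := fun ω => by rcases h01 ω with h | h <;> simp [h]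
    have hpos := Kv_pos' M h hd hd0
    have hsum := oc_sum M.C M.φ_nonneg h ((j + 1) * n) 0 hpos
    have hQ' := hQ (j + 1) (by omega)
    have hoc : ∀ i, 0 ≤ oc M.C M.φ h ((j + 1) * n) i 0 := fun i => oc_nonneg M.C M.φ_nonneg h _ i 0
    set d := (j + 1) * n with hddef
    set Q := Kv M.C (fun z => -h * M.φ z) d 0 with hQdef
    have haI := ab_int (n := n) M.μ hb hb0 hb1 (j + 1)
    have ham := ab_meas (n := n) hb (j + 1)
    have hprod : ∀ i, Integrable (fun ω : ℕ → ℝ => ω i * ab n b (j + 1) ω) (seqLaw M.μ) :=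
      fun i => (integrable_coord M i).mul_bdd (c := 1) ham.aestronglyMeasurable
        (ae_of_all _ fun ω => by
          rw [Real.norm_of_nonneg (ab_nonneg hb0 _ ω)]
          exact ab_le_one hb0 hb1 _ ω)
    have h1 : ∫ ω, ab n b (j + 1) ω * lk M h d ω ∂seqLaw M.μ = Real.log Q * (1 - p) ^ (j + 1) +
        (∑ i ∈ Finset.range d, M.β * oc M.C M.φ h d i 0 *
          ∫ ω, ω i * ab n b (j + 1) ω ∂seqLaw M.μ) / Q := by
      have h2 : ∀ ω, ab n b (j + 1) ω * lk M h d ω = Real.log Q * ab n b (j + 1) ω +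
          (∑ i ∈ Finset.range d, M.β * oc M.C M.φ h d i 0 * (ω i * ab n b (j + 1) ω)) / Q := by
        intro ω
        unfold lk
        rw [mul_add, mul_comm (ab n b (j + 1) ω) (Real.log _), mul_div_assoc', Finset.mul_sum]
        congr 2
        refine Finset.sum_congr rfl fun i _ => ?_
        ring
      simp_rw [h2]
      rw [integral_add (haI.const_mul _) ((integrable_finsetSum _ fun i _ =>
        (hprod i).const_mul _).div_const Q), integral_const_mul, ab_integral M.μ hb hbd, hbi,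
        integral_div, integral_finsetSum _ fun i _ => (hprod i).const_mul _]
      congr 2
      refine Finset.sum_congr rfl fun i _ => ?_
      rw [integral_const_mul]
    rw [h1]
    have hcov := cov_ab (n := n) M.μ M.mean M.var M.exp_mom.integrable_id (sq_int M) hb hbd h01 hp0
      (by linarith) hbi j
    have hS : -(M.β * Real.sqrt p * (1 - p) ^ j * ∑ i ∈ Finset.range d, oc M.C M.φ h d i 0) ≤
        ∑ i ∈ Finset.range d, M.β * oc M.C M.φ h d i 0 *
          ∫ ω, ω i * ab n b (j + 1) ω ∂seqLaw M.μ := by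
      rw [Finset.mul_sum, ← Finset.sum_neg_distrib]
      refine Finset.sum_le_sum fun i hi => ?_
      have h3 := (abs_le.1 (hcov i (Finset.mem_range.1 hi))).1
      have h4 : 0 ≤ M.β * oc M.C M.φ h d i 0 := mul_nonneg M.β_pos.le (hoc i)
      have h5 := mul_le_mul_of_nonneg_left h3 h4
      refine le_trans (le_of_eq ?_) h5
      ring
    have hlog : ∑ i ∈ Finset.range d, oc M.C M.φ h d i 0 ≤ Q * (-Real.log Q) / h := by
      rw [le_div_iff₀ hh, mul_comm]
      exact hsum
    have hq0 : 0 < 1 - p := by linarith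
    have hs0 : 0 ≤ Real.sqrt p := Real.sqrt_nonneg p
    have hL0 : 0 ≤ -Real.log Q := by
      have h6 : 0 ≤ h * ∑ i ∈ Finset.range d, oc M.C M.φ h d i 0 :=
        mul_nonneg hh.le (Finset.sum_nonneg fun i _ => hoc i)
      have h7 := h6.trans hsum
      exact nonneg_of_mul_nonneg_right h7 hpos
    have hS2 : -(M.β * Real.sqrt p * (1 - p) ^ j * ((-Real.log Q) / h)) ≤
        (∑ i ∈ Finset.range d, M.β * oc M.C M.φ h d i 0 *
          ∫ ω, ω i * ab n b (j + 1) ω ∂seqLaw M.μ) / Q := by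
      rw [le_div_iff₀ hpos]
      refine le_trans ?_ hS
      rw [neg_mul]
      apply neg_le_neg
      calc M.β * Real.sqrt p * (1 - p) ^ j * ∑ i ∈ Finset.range d, oc M.C M.φ h d i 0
          ≤ M.β * Real.sqrt p * (1 - p) ^ j * (Q * (-Real.log Q) / h) :=
            mul_le_mul_of_nonneg_left hlog
              (mul_nonneg (mul_nonneg M.β_pos.le hs0) (pow_nonneg hq0.le _))
        _ = _ := by ring
    have hpow : (1 - p) ^ j ≤ 2 * (1 - p) ^ (j + 1) := by
      rw [pow_succ]
      nlinarith [pow_pos hq0 j]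
    have hS3 : M.β * Real.sqrt p * (1 - p) ^ j * ((-Real.log Q) / h) ≤
        (1 - p) ^ (j + 1) * (2 * M.β * Real.sqrt p / h * (-Real.log Q)) := by
      have h8 : 0 ≤ M.β * Real.sqrt p * ((-Real.log Q) / h) :=
        mul_nonneg (mul_nonneg M.β_pos.le hs0) (div_nonneg hL0 hh.le)
      calc M.β * Real.sqrt p * (1 - p) ^ j * ((-Real.log Q) / h)
          = (1 - p) ^ j * (M.β * Real.sqrt p * ((-Real.log Q) / h)) := by ring
        _ ≤ (2 * (1 - p) ^ (j + 1)) * (M.β * Real.sqrt p * ((-Real.log Q) / h)) :=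
            mul_le_mul_of_nonneg_right hpow h8
        _ = _ := by ring
    have h9 := mul_le_mul_of_nonneg_left hQ' (pow_nonneg hq0.le (j + 1))
    have h10 : (1 - p) ^ (j + 1) * ((1 + 2 * M.β * Real.sqrt p / h) * (-Real.log Q)) =
        -(Real.log Q * (1 - p) ^ (j + 1)) +
          (1 - p) ^ (j + 1) * (2 * M.β * Real.sqrt p / h * (-Real.log Q)) := by ring
    rw [h10] at h9
    push_cast at h9 ⊢
    linarith


end StratE

open Pool.Agent.AZ Pool.Agent.AZ.Strat in
/-- Copy of `AZ.Strat.alk_ge` and `AZ.Mod.strategy` (Lib/MP_daa227_pr_AZ/Strat.lean) with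
`AZ.Strat.bd M h n u` replaced by an arbitrary indicator `b` of the bad blocks: only `hb`, `hbd`,
`h01`, `hp` and `hgood` are used there. -/
theorem strategyE (M : Mod) {h : ℝ} (hh : 0 < h) {n : ℕ} (hn : Even n) (hn0 : 0 < n) (u : ℝ)
    {b : (ℕ → ℝ) → ℝ} (hb : Measurable b) (hbd : DepOn n b) (h01 : ∀ ω, b ω = 0 ∨ b ω = 1)
    (hgood : ∀ ω, b ω ≠ 1 → u ≤ Real.log (M.Z h n ω)) {p : ℝ}
    (hp : ∫ ω, b ω ∂seqLaw M.μ = 1 - p) (hp0 : 0 < p) (hp1 : p ≤ 1 / 4) {c₀ c₁ : ℝ} (h0 : 0 ≤ c₀)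
    (h1 : 0 ≤ c₁)
    (hQ : ∀ k : ℕ, 1 ≤ k → (1 + 2 * M.β * Real.sqrt p / h) *
      (-Real.log (Kv M.C (fun z => -h * M.φ z) (k * n) 0)) ≤ c₀ + c₁ * k) (T : ℕ) :
    T * (p * (u - c₀) - (1 - p) * c₁) - c₀ ≤ M.Ψ h (T * n) := by
  refine rec_sol hp0.le (by linarith) (fun T => M.Ψ h (T * n)) (fun T => ?_) T
  have hbi := hp
  have halk := StratE.alk_ge M hh hn hn0 hb hbd h01 hp hp0 hp1 h0 hQ
  have hb0 : ∀ ω, 0 ≤ b ω := fun ω => by rcases h01 ω with h | h <;> simp [h]
  have hb1 : ∀ ω, b ω ≤ 1 := fun ω => by rcases h01 ω with h | h <;> simp [h]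
  have hE : ∀ k, Even (k * n) := fun k => hn.mul_left k
  have hZpos : ∀ k ω, 0 < M.Z h (k * n) ω := fun k ω => M.Z_pos h (hE k) ω
  have hZn : ∀ ω, 0 < M.Z h n ω := fun ω => M.Z_pos h hn ω
  have hZint : ∀ k, Integrable (fun ω => Real.log (M.Z h (k * n) ω)) (seqLaw M.μ) := fun k =>
    M.integrable_logZ h (hE k)
  have hZmeas : ∀ k, Measurable (fun ω => Real.log (M.Z h (k * n) ω)) := fun k =>
    (M.good_Z h (k * n)).meas.log
  -- one good block after k bad ones
  have hpt1 : ∀ k < T, ∀ ω, b (shift (k * n) ω) ≠ 1 →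
      lk M h (k * n) ω + u + Real.log (M.Z h ((T - k - 1) * n) (shift ((k + 1) * n) ω)) ≤
        Real.log (M.Z h (T * n) ω) := by
    intro k hk ω hω
    have h2 := hgood _ hω
    have hT : T * n = k * n + (n + (T - k - 1) * n) := by
      obtain ⟨m, rfl⟩ : ∃ m, T = k + 1 + m := ⟨T - k - 1, by omega⟩
      rw [show k + 1 + m - k - 1 = m by omega]
      ring
    have h3 := M.Z_mul_le h n ((T - k - 1) * n) (shift (k * n) ω)
    rw [MP_daa227_pr.shift_shift, show n + k * n = (k + 1) * n by ring] at h3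
    have h4 : Real.log (M.Z h n (shift (k * n) ω)) +
        Real.log (M.Z h ((T - k - 1) * n) (shift ((k + 1) * n) ω)) ≤
        Real.log (M.Z h (n + (T - k - 1) * n) (shift (k * n) ω)) := by
      rw [← Real.log_mul (hZn _).ne' (hZpos _ _).ne']
      exact Real.log_le_log (mul_pos (hZn _) (hZpos _ _)) h3
    have hpos2 : 0 < M.Z h (n + (T - k - 1) * n) (shift (k * n) ω) :=
      (mul_pos (hZn _) (hZpos _ _)).trans_le h3
    rcases Nat.eq_zero_or_pos k with hk0 | hk0
    · subst hk0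
      rw [Nat.zero_mul, lk_zero]
      rw [Nat.zero_mul] at h4 h2 hT
      rw [zero_add] at hT
      rw [hT]
      simp only [MP_daa227_pr.shift_zero] at h4 h2
      linarith
    · obtain ⟨h5, h6⟩ := G_ge M h (hE k) (Nat.mul_pos hk0 hn0) ω
      have h7 := M.G_mul_Z_le h (n := n + (T - k - 1) * n) (Nat.mul_pos hk0 hn0) ω
      have h8 := Real.log_le_log (mul_pos h5 hpos2) h7
      rw [Real.log_mul h5.ne' hpos2.ne', ← hT] at h8
      linarith
  have hpt2 : ∀ ω, lk M h (T * n) ω ≤ Real.log (M.Z h (T * n) ω) := by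
    intro ω
    rcases Nat.eq_zero_or_pos T with hT | hT
    · subst hT
      rw [Nat.zero_mul, lk_zero]
      simp [Mod.Z, Zk]
    · obtain ⟨h5, h6⟩ := G_ge M h (hE T) (Nat.mul_pos hT hn0) ω
      have h7 := M.G_mul_Z_le h (n := 0) (Nat.mul_pos hT hn0) ω
      have h8 : M.Z h 0 (shift (T * n) ω) = 1 := by simp [Mod.Z, Zk]
      rw [h8, mul_one, add_zero] at h7
      exact h6.trans (Real.log_le_log h5 h7)
  have hpt : ∀ ω, ∑ k ∈ Finset.range T, ab n b k ω * (1 - b (shift (k * n) ω)) *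
      (lk M h (k * n) ω + u + Real.log (M.Z h ((T - k - 1) * n) (shift ((k + 1) * n) ω))) +
      ab n b T ω * lk M h (T * n) ω ≤ Real.log (M.Z h (T * n) ω) := by
    intro ω
    have h2 : Real.log (M.Z h (T * n) ω) = ∑ k ∈ Finset.range T,
        ab n b k ω * (1 - b (shift (k * n) ω)) * Real.log (M.Z h (T * n) ω) +
        ab n b T ω * Real.log (M.Z h (T * n) ω) := by
      rw [← Finset.sum_mul, ← add_mul, ab_sum, one_mul]
    rw [h2]
    refine add_le_add (Finset.sum_le_sum fun k hk => ?_)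
      (mul_le_mul_of_nonneg_left (hpt2 ω) (ab_nonneg hb0 T ω))
    rcases h01 (shift (k * n) ω) with h3 | h3
    · apply mul_le_mul_of_nonneg_left (hpt1 k (Finset.mem_range.1 hk) ω (by rw [h3]; norm_num))
      rw [h3, sub_zero, mul_one]
      exact ab_nonneg hb0 k ω
    · rw [h3, sub_self, mul_zero, zero_mul, zero_mul]
  -- expectations
  have hgm : Measurable (fun ω => 1 - b ω) := measurable_const.sub hb
  have hgI : Integrable (fun ω => 1 - b ω) (seqLaw M.μ) :=
    Integrable.of_bound hgm.aestronglyMeasurable 1 (ae_of_all _ fun ω => by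
      rw [Real.norm_of_nonneg (by linarith [hb1 ω])]
      linarith [hb0 ω])
  have hgi : ∫ ω, (1 - b ω) ∂seqLaw M.μ = p := by
    have hbI : Integrable b (seqLaw M.μ) :=
      Integrable.of_bound hb.aestronglyMeasurable 1 (ae_of_all _ fun ω => by
        rw [Real.norm_of_nonneg (hb0 ω)]
        exact hb1 ω)
    rw [integral_sub (integrable_const 1) hbI, hbi]
    simp
  have ham : ∀ k, Measurable (ab n b k) := fun k => ab_meas hb k
  have haI : ∀ k, Integrable (ab n b k) (seqLaw M.μ) := fun k => ab_int M.μ hb hb0 hb1 k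
  have hai : ∀ k, ∫ ω, ab n b k ω ∂seqLaw M.μ = (1 - p) ^ k := fun k => by
    rw [ab_integral M.μ hb hbd, hbi]
  have had : ∀ k, DepOn (k * n) (ab n b k) := fun k => ab_dep hbd k
  have hlI : ∀ k, Integrable (fun ω => ab n b k ω * lk M h (k * n) ω) (seqLaw M.μ) := fun k =>
    (lk_integrable M h (k * n)).bdd_mul (c := 1) (ham k).aestronglyMeasurable
      (ae_of_all _ fun ω => by
        rw [Real.norm_of_nonneg (ab_nonneg hb0 _ ω)]
        exact ab_le_one hb0 hb1 _ ω)
  have hlm : ∀ k, Measurable (fun ω => ab n b k ω * lk M h (k * n) ω) := fun k =>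
    (ham k).mul (lk_meas M h _)
  have hld : ∀ k, DepOn (k * n) (fun ω => ab n b k ω * lk M h (k * n) ω) := fun k ω ω' hω => by
    simp only
    rw [had k ω ω' hω, lk_dep M h _ ω ω' hω]
  set X : ℕ → (ℕ → ℝ) → ℝ := fun k ω => ab n b k ω * (1 - b (shift (k * n) ω)) with hX
  have hXm : ∀ k, Measurable (X k) := fun k =>
    (ham k).mul (hgm.comp (MP_daa227_pr.measurable_shift _))
  have hXd : ∀ k, DepOn ((k + 1) * n) (X k) := fun k ω ω' hω => by
    simp only [hX]
    rw [had k ω ω' fun i hi => hω i (by nlinarith),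
      hbd (shift (k * n) ω) (shift (k * n) ω') fun i hi => hω (i + k * n) (by
        rw [Nat.succ_mul]; omega)]
  have hXI : ∀ k, Integrable (X k) (seqLaw M.μ) := fun k =>
    integrable_mul_shift M.μ (ham k) (had k) hgm (haI k) hgI
  have hXi : ∀ k, ∫ ω, X k ω ∂seqLaw M.μ = (1 - p) ^ k * p := fun k => by
    have h2 := integral_mul_shift M.μ (ham k) (had k) hgm
    rw [hai, hgi] at h2
    exact h2
  have hterm : ∀ k < T, Integrable (fun ω => ab n b k ω * (1 - b (shift (k * n) ω)) *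
      (lk M h (k * n) ω + u + Real.log (M.Z h ((T - k - 1) * n) (shift ((k + 1) * n) ω))))
      (seqLaw M.μ) ∧ ∫ ω, ab n b k ω * (1 - b (shift (k * n) ω)) *
      (lk M h (k * n) ω + u + Real.log (M.Z h ((T - k - 1) * n) (shift ((k + 1) * n) ω)))
      ∂seqLaw M.μ = (∫ ω, ab n b k ω * lk M h (k * n) ω ∂seqLaw M.μ) * p +
        u * ((1 - p) ^ k * p) + (1 - p) ^ k * p * M.Ψ h ((T - k - 1) * n) := by
    intro k hk
    have h2 : ∀ ω, ab n b k ω * (1 - b (shift (k * n) ω)) *
      (lk M h (k * n) ω + u + Real.log (M.Z h ((T - k - 1) * n) (shift ((k + 1) * n) ω))) =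
      (ab n b k ω * lk M h (k * n) ω) * (1 - b (shift (k * n) ω)) + u * X k ω +
        X k ω * Real.log (M.Z h ((T - k - 1) * n) (shift ((k + 1) * n) ω)) := by
      intro ω
      simp only [hX]
      ring
    have i1 := integrable_mul_shift M.μ (hlm k) (hld k) hgm (hlI k) hgI
    have i2 := (hXI k).const_mul u
    have i3 := integrable_mul_shift M.μ (hXm k) (hXd k) (hZmeas (T - k - 1)) (hXI k)
      (hZint (T - k - 1))
    have e1 := integral_mul_shift M.μ (hlm k) (hld k) hgm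
    have e3 := integral_mul_shift M.μ (hXm k) (hXd k) (hZmeas (T - k - 1))
    simp_rw [h2]
    have i12 : Integrable (fun ω => (ab n b k ω * lk M h (k * n) ω) *
        (1 - b (shift (k * n) ω)) + u * X k ω) (seqLaw M.μ) := i1.add i2
    refine ⟨i12.add i3, ?_⟩
    rw [integral_add i12 i3, integral_add i1 i2, e1, e3, integral_const_mul, hgi, hXi]
    rfl
  have hlast := hlI T
  have hsI : Integrable (fun ω => ∑ k ∈ Finset.range T, ab n b k ω *
      (1 - b (shift (k * n) ω)) * (lk M h (k * n) ω + u +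
        Real.log (M.Z h ((T - k - 1) * n) (shift ((k + 1) * n) ω)))) (seqLaw M.μ) :=
    integrable_finsetSum _ fun k hk => (hterm k (Finset.mem_range.1 hk)).1
  have hfull : Integrable (fun ω => ∑ k ∈ Finset.range T, ab n b k ω *
      (1 - b (shift (k * n) ω)) * (lk M h (k * n) ω + u +
        Real.log (M.Z h ((T - k - 1) * n) (shift ((k + 1) * n) ω))) +
      ab n b T ω * lk M h (T * n) ω) (seqLaw M.μ) := hsI.add hlast
  have hmain := integral_mono hfull (hZint T) hpt
  rw [integral_add hsI hlast,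
    integral_finsetSum _ fun k hk => (hterm k (Finset.mem_range.1 hk)).1,
    Finset.sum_congr rfl fun k hk => (hterm k (Finset.mem_range.1 hk)).2] at hmain
  refine le_trans ?_ hmain
  have hL := halk T
  have hsum : ∑ k ∈ Finset.range T, p * (1 - p) ^ k * (-(c₀ + c₁ * k) + u +
      M.Ψ h ((T - k - 1) * n)) ≤ ∑ k ∈ Finset.range T,
      ((∫ ω, ab n b k ω * lk M h (k * n) ω ∂seqLaw M.μ) * p +
        u * ((1 - p) ^ k * p) + (1 - p) ^ k * p * M.Ψ h ((T - k - 1) * n)) := by
    refine Finset.sum_le_sum fun k _ => ?_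
    have h3 := mul_le_mul_of_nonneg_right (halk k) hp0.le
    nlinarith [h3]
  linarith

end

end Pool.Agent.IG
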