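import Pool.Agent.Lib.MP_daa227_pr_IG.STail
import Pool.Agent.Lib.MP_daa227_pr_AZ.Lmg

/-!
# MP_daa227_pr, entropy of the return time
-/

namespace Pool.Agent.IG

open MeasureTheory ProbabilityTheory Finset Filter Topology
open MP_daa227_pr (Chain Zk Zf Gk Gf KU K0 Ren shift seqLaw ExpMom DepOn Good GoodW mom)
open Pool.Agent.AZ (Mod Kv lmg)
open Pool.Agent.IOrd (Sys aS cv)

noncomputable section

namespace TEnt

theorem term_nonneg (C : Chain) (m : ℕ) : 0 ≤ K0 C m 0 * Real.log (1 / K0 C m 0) := by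
  have h0 := MP_daa227_pr.K0_nonneg C m 0
  have h1 := STail.le_one C m 0
  rcases eq_or_lt_of_le h0 with h | h
  · rw [← h, zero_mul]
  · exact mul_nonneg h0 (Real.log_nonneg ((one_le_div h).2 h1))

theorem log_bd {x δ : ℝ} (hx : 0 < x) (hδ : 0 < δ) :
    x * Real.log (1 / x) ≤ x ^ (1 - δ) / δ := by
  have h1 : Real.log (1 / x) ≤ (1 / x) ^ δ / δ :=
    Real.log_le_rpow_div (by positivity) hδ
  calc x * Real.log (1 / x) ≤ x * ((1 / x) ^ δ / δ) := mul_le_mul_of_nonneg_left h1 hx.le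
    _ = x ^ (1 - δ) / δ := by
        rw [one_div, Real.inv_rpow hx.le, Real.rpow_sub hx, Real.rpow_one]
        ring

end TEnt

/-- `x log (1/x)` is nondecreasing on `[0, 1/e]`; `K0 (2n) ≤ (2n)^(-(1+α/2))` eventually, odd terms are
`0` (`hnl`); `∑ (2n)^(-(1+α/2)) log (2n) < ∞`. All terms are `≥ 0` (`K0 ≤ 1`). -/
theorem ent_fin (C : Chain) (hnl : ∀ x, C.p x x = 0) {α : ℝ} (hα : 0 < α) (hU : KUp C α) :
    ∃ H : ℝ, 0 ≤ H ∧ ∀ N : ℕ, ∑ m ∈ range N, K0 C m 0 * Real.log (1 / K0 C m 0) ≤ H := by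
  obtain ⟨δ, hδ⟩ : ∃ δ : ℝ, δ = (α / 4) / (1 + α / 2) := ⟨_, rfl⟩
  have hp : 0 < 1 + α / 2 := by linarith
  have hδ0 : 0 < δ := by rw [hδ]; positivity
  have hδ1 : (1 + α / 2) * (1 - δ) = 1 + α / 4 := by
    rw [hδ]
    field_simp
    ring
  have hδ2 : 0 ≤ 1 - δ := by
    by_contra hcon
    push Not at hcon
    have := mul_neg_of_pos_of_neg hp hcon
    linarith
  have hs : Summable (fun m : ℕ => (m : ℝ) ^ (-(1 + α / 4)) / δ) :=
    (Real.summable_nat_rpow.2 (by linarith)).div_const δ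
  obtain ⟨N₀, hN₀⟩ := eventually_atTop.1 (hU (α / 2) (by linarith))
  have hsum : Summable (fun m : ℕ => K0 C m 0 * Real.log (1 / K0 C m 0)) := by
    refine Summable.of_norm_bounded_eventually_nat hs ?_
    filter_upwards [eventually_ge_atTop (2 * N₀ + 1)] with m hm
    rw [Real.norm_of_nonneg (TEnt.term_nonneg C m)]
    have hm0 : (0 : ℝ) < m := by
      have : 0 < m := by omega
      exact_mod_cast this
    have hnn : 0 ≤ (m : ℝ) ^ (-(1 + α / 4)) / δ :=
      div_nonneg (Real.rpow_nonneg hm0.le _) hδ0.le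
    rcases eq_or_lt_of_le (MP_daa227_pr.K0_nonneg C m 0) with h | h
    · rw [← h, zero_mul]
      exact hnn
    · rcases Nat.even_or_odd m with he | ho
      · obtain ⟨k, hk⟩ := he
        have hk2 : m = 2 * k := by omega
        have h1 := hN₀ k (by omega)
        rw [← hk2] at h1
        refine (TEnt.log_bd h hδ0).trans ?_
        refine div_le_div_of_nonneg_right ?_ hδ0.le
        refine (Real.rpow_le_rpow h.le h1 hδ2).trans (le_of_eq ?_)
        rw [← Real.rpow_mul hm0.le]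
        congr 1
        rw [show 1 + α - α / 2 = 1 + α / 2 by ring, neg_mul, hδ1]
      · exfalso
        have h0 : K0 C m 0 = 0 := by
          apply MP_daa227_pr.K0_parity hnl
          intro hcon
          obtain ⟨k, hk⟩ := ho
          obtain ⟨l, hl⟩ := hcon
          omega
        rw [h0] at h
        exact lt_irrefl _ h
  exact ⟨_, tsum_nonneg (TEnt.term_nonneg C), fun N =>
    hsum.sum_le_tsum _ fun m _ => TEnt.term_nonneg C m⟩

/-- `y = (p-1) H`, `L_m = log (1 / K0 m)`: `K0(m)^p = K0(m) e^(-(p-1) L_m) ≥ K0(m) e^(-y) (1 + y - (p-1) L_m)`;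
sum over `m < N`: at least `e^(-y) ((1 + y) S_N - y) → e^(-y)`, `S_N = ∑_{m<N} K0(m) → 1`. -/
theorem pow_sum (C : Chain) (hrec : HasSum (fun n : ℕ => K0 C (n + 1) 0) 1) {H : ℝ}
    (hH : ∀ N : ℕ, ∑ m ∈ range N, K0 C m 0 * Real.log (1 / K0 C m 0) ≤ H) {p c : ℝ} (hp : 1 ≤ p)
    (hc : (p - 1) * H < c) : ∃ N : ℕ, 1 < ∑ m ∈ range N, K0 C m 0 ^ p * Real.exp c := by
  obtain ⟨y, hy⟩ : ∃ y : ℝ, y = (p - 1) * H := ⟨_, rfl⟩
  rw [← hy] at hc
  have hS : HasSum (fun n : ℕ => K0 C n 0) 1 := by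
    have h1 := (hasSum_nat_add_iff (f := fun n : ℕ => K0 C n 0) 1).1 hrec
    rw [Finset.sum_range_one] at h1
    simpa [K0] using h1
  have hterm : ∀ m : ℕ, Real.exp (-y) * ((1 + y) * K0 C m 0 -
      (p - 1) * (K0 C m 0 * Real.log (1 / K0 C m 0))) ≤ K0 C m 0 ^ p := by
    intro m
    rcases eq_or_lt_of_le (MP_daa227_pr.K0_nonneg C m 0) with h | h
    · rw [← h, Real.zero_rpow (by linarith)]
      simp
    · have h1 : K0 C m 0 ^ p = K0 C m 0 * (Real.exp (-y) *
          Real.exp (y - (p - 1) * Real.log (1 / K0 C m 0))) := by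
        rw [← Real.exp_add]
        conv_lhs => rw [show p = 1 + (p - 1) by ring, Real.rpow_add h, Real.rpow_one,
          Real.rpow_def_of_pos h]
        congr 2
        rw [one_div, Real.log_inv]
        ring
      rw [h1]
      have h2 := Real.add_one_le_exp (y - (p - 1) * Real.log (1 / K0 C m 0))
      have h3 := mul_le_mul_of_nonneg_left h2 (mul_pos h (Real.exp_pos (-y))).le
      calc _ = K0 C m 0 * Real.exp (-y) * (y - (p - 1) * Real.log (1 / K0 C m 0) + 1) := by ring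
        _ ≤ _ := h3
        _ = _ := by ring
  have hsum : ∀ N : ℕ, Real.exp (-y) * ((1 + y) * ∑ m ∈ range N, K0 C m 0 - y) * Real.exp c ≤
      ∑ m ∈ range N, K0 C m 0 ^ p * Real.exp c := by
    intro N
    rw [← Finset.sum_mul]
    refine mul_le_mul_of_nonneg_right ?_ (Real.exp_pos c).le
    refine le_trans ?_ (Finset.sum_le_sum fun m _ => hterm m)
    rw [← Finset.mul_sum, Finset.sum_sub_distrib, ← Finset.mul_sum, ← Finset.mul_sum]
    refine mul_le_mul_of_nonneg_left ?_ (Real.exp_pos (-y)).le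
    have h1 := mul_le_mul_of_nonneg_left (hH N) (by linarith : 0 ≤ p - 1)
    rw [← hy] at h1
    linarith
  have hlim : Tendsto (fun N : ℕ => Real.exp (-y) *
      ((1 + y) * ∑ m ∈ range N, K0 C m 0 - y) * Real.exp c) atTop
      (𝓝 (Real.exp (-y) * ((1 + y) * 1 - y) * Real.exp c)) :=
    (((hS.tendsto_sum_nat.const_mul (1 + y)).sub_const y).const_mul (Real.exp (-y))).mul_const _
  have hgt : 1 < Real.exp (-y) * ((1 + y) * 1 - y) * Real.exp c := by
    rw [show (1 + y) * 1 - y = 1 by ring, mul_one, ← Real.exp_add]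
    exact Real.one_lt_exp_iff.2 (by linarith)
  obtain ⟨N, hN⟩ := (hlim.eventually (lt_mem_nhds hgt)).exists
  exact ⟨N, lt_of_lt_of_le hN (hsum N)⟩

end

end Pool.Agent.IG
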