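import Pool.Agent.Lib.MP_daa227_pr_IG.TCvx

/-!
# MP_daa227_pr, indicator potentials: moments increase with the set of the sites
-/

namespace Pool.Agent.IG

open MeasureTheory ProbabilityTheory Finset Filter Topology
open MP_daa227_pr (Chain Zk Zf Gk Gf KU K0 Ren shift seqLaw ExpMom DepOn Good GoodW mom)
open Pool.Agent.AZ (Mod Kv lmg)
open Pool.Agent.IOrd (Sys aS cv)

noncomputable section


namespace TSub

/-- the pointwise inequality -/
theorem point {B B' s x r : ℝ} (hB : 0 ≤ B) (hBB : B ≤ B') (hs : B' ≤ s) (hs0 : 0 < s)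
    (hx : 0 < x) (hr : 1 ≤ r) :
    (s - B + B * x) ^ r + r * s ^ (r - 1) * (B' - B) * x ≤
      (s - B' + B' * x) ^ r + r * s ^ (r - 1) * (B' - B) := by
  have hw : 0 < s - B + B * x := by
    rcases hB.eq_or_lt with h | h
    · rw [← h]
      simpa using hs0
    · have : 0 < B * x := mul_pos h hx
      linarith
  have ht : 0 ≤ s - B' + B' * x := by
    have : 0 ≤ B' * x := mul_nonneg (hB.trans hBB) hx.le
    linarith
  have h1 := TCvx.tangent hw ht hr
  have h2 : 0 ≤ ((s - B + B * x) ^ (r - 1) - s ^ (r - 1)) * (x - 1) := by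
    rcases le_total 1 x with h | h
    · refine mul_nonneg (sub_nonneg.2 ?_) (by linarith)
      exact Real.rpow_le_rpow hs0.le (by nlinarith) (by linarith)
    · refine mul_nonneg_of_nonpos_of_nonpos (sub_nonpos.2 ?_) (by linarith)
      exact Real.rpow_le_rpow hw.le (by nlinarith) (by linarith)
  have h3 : 0 ≤ r * (B' - B) * (((s - B + B * x) ^ (r - 1) - s ^ (r - 1)) * (x - 1)) :=
    mul_nonneg (mul_nonneg (by linarith) (by linarith)) h2
  nlinarith

end TSub

/-- `X = exp (b a - lmg b)` has mean one. If `B' = 0` trivial. Otherwise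
`s - B + B X = (1 - B/B') s + (B/B') (s - B' + B' X)`, so by convexity the left side is at most
`(1 - B/B') s^r + (B/B') ∫ (s - B' + B' X)^r`, and `s^r ≤ ∫ (s - B' + B' X)^r` (tangent at `s`). -/
theorem one_sub {μ : Measure ℝ} [IsProbabilityMeasure μ] (hμ : ExpMom μ) (b : ℝ)
    {s B B' r : ℝ} (hB : 0 ≤ B) (hBB : B ≤ B') (hs : B' ≤ s) (hr : 1 ≤ r) :
    ∫⁻ a, ENNReal.ofReal (s - B + B * Real.exp (b * a - lmg μ b)) ^ r ∂μ ≤
      ∫⁻ a, ENNReal.ofReal (s - B' + B' * Real.exp (b * a - lmg μ b)) ^ r ∂μ := by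
  rcases ((hB.trans hBB).trans hs).eq_or_lt with h0 | hs0
  · have h1 : B' = 0 := le_antisymm (h0 ▸ hs) (hB.trans hBB)
    have h2 : B = 0 := le_antisymm (h1 ▸ hBB) hB
    rw [h1, h2]
  obtain ⟨c, hc⟩ : ∃ c, c = r * s ^ (r - 1) * (B' - B) := ⟨_, rfl⟩
  have hc0 : 0 ≤ c := by
    rw [hc]
    have h1 : 0 ≤ r := by linarith
    have h2 : 0 ≤ B' - B := by linarith
    positivity
  have hp : ∀ a : ℝ, (s - B + B * Real.exp (b * a - lmg μ b)) ^ r +
      c * Real.exp (b * a - lmg μ b) ≤ (s - B' + B' * Real.exp (b * a - lmg μ b)) ^ r + c := by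
    intro a
    rw [hc]
    exact TSub.point hB hBB hs hs0 (Real.exp_pos _) hr
  have hm : Measurable fun a : ℝ => ENNReal.ofReal (Real.exp (b * a - lmg μ b)) := by
    fun_prop
  have key : ∫⁻ a, ENNReal.ofReal (s - B + B * Real.exp (b * a - lmg μ b)) ^ r ∂μ +
      ENNReal.ofReal c ≤
      ∫⁻ a, ENNReal.ofReal (s - B' + B' * Real.exp (b * a - lmg μ b)) ^ r ∂μ +
        ENNReal.ofReal c := by
    have h1 : ENNReal.ofReal c =
        ∫⁻ a, ENNReal.ofReal c * ENNReal.ofReal (Real.exp (b * a - lmg μ b)) ∂μ := by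
      rw [lintegral_const_mul _ hm, TCvx.lint_exp hμ, mul_one]
    have h1' : ENNReal.ofReal c = ∫⁻ _, ENNReal.ofReal c ∂μ := by
      rw [lintegral_const, measure_univ, mul_one]
    conv_lhs => rw [h1]
    conv_rhs => rw [h1']
    rw [← lintegral_add_right _ (hm.const_mul _), ← lintegral_add_right _ measurable_const]
    refine lintegral_mono fun a => ?_
    have hX : 0 < Real.exp (b * a - lmg μ b) := Real.exp_pos _
    have h2 : 0 ≤ s - B + B * Real.exp (b * a - lmg μ b) := by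
      have : 0 ≤ B * Real.exp (b * a - lmg μ b) := mul_nonneg hB hX.le
      linarith
    have h3 : 0 ≤ s - B' + B' * Real.exp (b * a - lmg μ b) := by
      have : 0 ≤ B' * Real.exp (b * a - lmg μ b) := mul_nonneg (hB.trans hBB) hX.le
      linarith
    dsimp only
    rw [ENNReal.ofReal_rpow_of_nonneg h2 (by linarith),
      ENNReal.ofReal_rpow_of_nonneg h3 (by linarith), ← ENNReal.ofReal_mul hc0,
      ← ENNReal.ofReal_add (by positivity) (by positivity),
      ← ENNReal.ofReal_add (by positivity) (by positivity)]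
    exact ENNReal.ofReal_le_ofReal (hp a)
  exact (ENNReal.add_le_add_iff_right ENNReal.ofReal_ne_top).1 key

/-- As `mom_cvx` (Lib/MP_daa227_pr_IG/TCvx.lean; same induction on `n` for all finite families of
nonnegative coefficients): given `shift 1 ω`, with `f z = Zk n (shift 1 ω) z y` the sum is
`∑_z d z W(z) f z = s - B + B X`, `s = ∑_z d z f z`, `B = ∑_{φ z = 1} d z f z`: `one_sub` for the last
step, the induction hypothesis for the step from `f` (for `φ`) to `f` (for `φ'`). -/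
theorem mom_sub {μ : Measure ℝ} [IsProbabilityMeasure μ] (hμ : ExpMom μ) (C : Chain)
    {φ φ' : ℤ → ℝ} (hφ : ∀ z, φ z = 0 ∨ φ z = 1) (hφ' : ∀ z, φ' z = 0 ∨ φ' z = 1)
    (hle : ∀ z, φ z ≤ φ' z) (b : ℝ) {r : ℝ} (hr : 1 ≤ r)
    (n : ℕ) (y : ℤ) (s : Finset ℤ) (c : ℤ → ℝ) (hc : ∀ x, 0 ≤ c x) :
    mom μ r (fun ω => ∑ x ∈ s, c x *
      Zk C (fun a z => Real.exp ((b * a - lmg μ b) * φ z)) n ω x y) ≤
    mom μ r (fun ω => ∑ x ∈ s, c x *
      Zk C (fun a z => Real.exp ((b * a - lmg μ b) * φ' z)) n ω x y) := by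
  have hr0 : 0 ≤ r := by linarith
  change mom μ r (fun ω => ∑ x ∈ s, c x * Zk C (TCvx.Wb μ φ b) n ω x y) ≤
    mom μ r (fun ω => ∑ x ∈ s, c x * Zk C (TCvx.Wb μ φ' b) n ω x y)
  induction n generalizing s c with
  | zero => exact le_rfl
  | succ n ih =>
    obtain ⟨S, hS⟩ : ∃ S, S = s.biUnion (fun x => Icc (x - 1) (x + 1)) := ⟨_, rfl⟩
    obtain ⟨d, hd⟩ : ∃ d : ℤ → ℝ, d = fun z => ∑ x ∈ s, c x * C.p x z := ⟨_, rfl⟩
    have hd0 : ∀ z, 0 ≤ d z := fun z => by
      rw [hd]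
      exact Finset.sum_nonneg fun x _ => mul_nonneg (hc x) (C.nonneg x z)
    have hst : ∀ ψ : ℤ → ℝ, (fun ω => ∑ x ∈ s, c x * Zk C (TCvx.Wb μ ψ b) (n + 1) ω x y) =
        fun ω => ∑ z ∈ S, d z * TCvx.Wb μ ψ b (ω 0) z *
          Zk C (TCvx.Wb μ ψ b) n (shift 1 ω) z y := by
      intro ψ
      funext ω
      rw [TCvx.step_eq, hS, hd]
    rw [hst, hst]
    have hmix : ∀ ψ ψ' : ℤ → ℝ, (∀ z, ψ z = 0 ∨ ψ z = 1) → (∀ z, ψ' z = 0 ∨ ψ' z = 1) →
        Measurable fun ω : ℕ → ℝ =>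
        ENNReal.ofReal (∑ z ∈ S, d z * TCvx.Wb μ ψ b (ω 0) z *
          Zk C (TCvx.Wb μ ψ' b) n (shift 1 ω) z y) ^ r := by
      intro ψ ψ' hψ hψ'
      refine (Measurable.ennreal_ofReal ?_).pow_const r
      refine Finset.measurable_sum _ fun z _ => ?_
      refine Measurable.mul (Measurable.const_mul ?_ _) ?_
      · exact ((TCvx.goodW μ hψ b).meas z).comp (measurable_pi_apply 0)
      · exact (TCvx.Zk_meas μ C hψ' b n z y).comp (MP_daa227_pr.measurable_shift 1)
    -- first step: change the weights of the remaining path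
    have h1 : mom μ r (fun ω => ∑ z ∈ S, d z * TCvx.Wb μ φ b (ω 0) z *
          Zk C (TCvx.Wb μ φ b) n (shift 1 ω) z y) ≤
        mom μ r (fun ω => ∑ z ∈ S, d z * TCvx.Wb μ φ b (ω 0) z *
          Zk C (TCvx.Wb μ φ' b) n (shift 1 ω) z y) := by
      unfold mom
      rw [MP_daa227_pr.lintegral_cons μ (hmix φ φ hφ hφ),
        MP_daa227_pr.lintegral_cons μ (hmix φ φ' hφ hφ')]
      refine lintegral_mono fun a => ?_
      simp only [MP_daa227_pr.shift_one_cons, MP_daa227_pr.cons_zero]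
      exact ih S (fun z => d z * TCvx.Wb μ φ b a z) fun z =>
        mul_nonneg (hd0 z) (Real.exp_pos _).le
    refine h1.trans ?_
    unfold mom
    rw [MP_daa227_pr.lintegral_cons_symm μ (hmix φ φ' hφ hφ'),
      MP_daa227_pr.lintegral_cons_symm μ (hmix φ' φ' hφ' hφ')]
    refine lintegral_mono fun ω => ?_
    simp only [MP_daa227_pr.shift_one_cons, MP_daa227_pr.cons_zero]
    obtain ⟨f, hf⟩ : ∃ f : ℤ → ℝ, f = fun z => d z * Zk C (TCvx.Wb μ φ' b) n ω z y := ⟨_, rfl⟩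
    have hf0 : ∀ z, 0 ≤ f z := fun z => by
      rw [hf]
      exact mul_nonneg (hd0 z) (TCvx.Zk_nn μ C hφ' b n z y ω)
    have hAB : ∀ (ψ : ℤ → ℝ) (_ : ∀ z, ψ z = 0 ∨ ψ z = 1) (a : ℝ),
        ∑ z ∈ S, d z * TCvx.Wb μ ψ b a z * Zk C (TCvx.Wb μ φ' b) n ω z y =
          ∑ z ∈ S, f z - ∑ z ∈ S, f z * ψ z +
            (∑ z ∈ S, f z * ψ z) * Real.exp (b * a - lmg μ b) := by
      intro ψ hψ a
      rw [← Finset.sum_sub_distrib, Finset.sum_mul, ← Finset.sum_add_distrib]
      refine Finset.sum_congr rfl fun z _ => ?_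
      rw [hf]
      unfold TCvx.Wb
      rcases hψ z with h | h
      · rw [h, mul_zero, Real.exp_zero]
        ring
      · rw [h, mul_one]
        ring
    simp_rw [hAB φ hφ, hAB φ' hφ']
    refine one_sub hμ b ?_ ?_ ?_ hr
    · refine Finset.sum_nonneg fun z _ => mul_nonneg (hf0 z) ?_
      rcases hφ z with h | h <;> rw [h]
      exact zero_le_one
    · exact Finset.sum_le_sum fun z _ => mul_le_mul_of_nonneg_left (hle z) (hf0 z)
    · refine Finset.sum_le_sum fun z _ => ?_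
      rcases hφ' z with h | h
      · rw [h, mul_zero]
        exact hf0 z
      · rw [h, mul_one]

end

end Pool.Agent.IG
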