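import Pool.Agent.Lib.MP_daa227_pr_IG.LBd
import Pool.Agent.Lib.MP_daa227_pr_IG.TSub
import Pool.Agent.Lib.MP_daa227_pr_IG.TPow
import Pool.Agent.Lib.MP_daa227_pr_IG.TEnt
import Pool.Agent.Lib.MP_daa227_pr_IG.TLmg
import Pool.Agent.Lib.MP_daa227_pr_IG.KvD

/-!
# MP_daa227_pr, indicator potentials: the threshold
-/

namespace Pool.Agent.IG

open MeasureTheory ProbabilityTheory Finset Filter Topology
open MP_daa227_pr (Chain Zk Zf Gk Gf KU K0 Ren shift seqLaw ExpMom DepOn Good GoodW mom)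
open Pool.Agent.AZ (Mod Kv lmg)
open Pool.Agent.IOrd (Sys aS cv)

noncomputable section

/-- at `h = lmg b` some moment of order larger than one of the pinned partition functions is
bounded -/
def WB (μ : Measure ℝ) (C : Chain) (φ : ℤ → ℝ) (b : ℝ) : Prop :=
  ∃ p K : ℝ, 1 < p ∧ ∀ n : ℕ, mom μ p (fun ω =>
    Zk C (fun a z => Real.exp ((b * a - lmg μ b) * φ z)) (2 * n) ω 0 0) ≤ ENNReal.ofReal K

theorem wb_down {μ : Measure ℝ} [IsProbabilityMeasure μ] (hμ : ExpMom μ) (C : Chain) {φ : ℤ → ℝ}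
    (hφ : ∀ z, φ z = 0 ∨ φ z = 1) {b b' : ℝ} (hb : 0 ≤ b) (hbb : b ≤ b') (h : WB μ C φ b') :
    WB μ C φ b := by
  obtain ⟨p, K, hp, hK⟩ := h
  refine ⟨p, K, hp, fun n => le_trans ?_ (hK n)⟩
  have h1 := mom_cvx hμ C hφ hb hbb hp.le (2 * n) 0 {0} (fun _ => 1) (fun _ => zero_le_one)
  simpa using h1

theorem wb_sub {μ : Measure ℝ} [IsProbabilityMeasure μ] (hμ : ExpMom μ) (C : Chain)
    {φ φ' : ℤ → ℝ} (hφ : ∀ z, φ z = 0 ∨ φ z = 1) (hφ' : ∀ z, φ' z = 0 ∨ φ' z = 1)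
    (hle : ∀ z, φ z ≤ φ' z) {b : ℝ} (h : WB μ C φ' b) : WB μ C φ b := by
  obtain ⟨p, K, hp, hK⟩ := h
  refine ⟨p, K, hp, fun n => le_trans ?_ (hK n)⟩
  have h1 := mom_sub hμ C hφ hφ' hle b hp.le (2 * n) 0 {0} (fun _ => 1) (fun _ => zero_le_one)
  simpa using h1

theorem ind_v (M : Mod) (hφ : ∀ z, M.φ z = 0 ∨ M.φ z = 1) (h : ℝ) (z : ℤ) :
    M.v h z = (lmg M.μ M.β - h) * M.φ z := by
  unfold Mod.v
  rcases hφ z with h1 | h1
  · rw [h1, mul_zero, mul_zero, mul_zero, AZ.lmg_zero, sub_zero]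
  · rw [h1, mul_one, mul_one, mul_one]

theorem ind_g (M : Mod) (hφ : ∀ z, M.φ z = 0 ∨ M.φ z = 1) (n : ℕ) :
    M.g (lmg M.μ M.β) n = K0 M.C n 0 := by
  unfold Mod.g
  have h1 : M.v (lmg M.μ M.β) = fun _ => (0 : ℝ) := by
    funext z
    rw [ind_v M hφ, sub_self, zero_mul]
  rw [h1, AZ.Kv_K0]

theorem k0_sum (C : Chain) (hrec : HasSum (fun n : ℕ => K0 C (n + 1) 0) 1) (N : ℕ) :
    ∑ n ∈ range N, K0 C n 0 ≤ 1 := by
  rcases N with _ | N
  · simp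
  · rw [Finset.sum_range_succ']
    have h0 : K0 C 0 0 = 0 := rfl
    rw [h0, add_zero]
    exact sum_le_hasSum _ (fun n _ => MP_daa227_pr.K0_nonneg C _ _) hrec

theorem k0_tend (C : Chain) (hrec : HasSum (fun n : ℕ => K0 C (n + 1) 0) 1) :
    Tendsto (fun N => ∑ n ∈ range N, K0 C n 0) atTop (𝓝 1) := by
  have h1 := hrec.tendsto_sum_nat
  rw [← tendsto_add_atTop_iff_nat 1]
  refine h1.congr fun N => ?_
  rw [Finset.sum_range_succ']
  have h0 : K0 C 0 0 = 0 := rfl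
  rw [h0, add_zero]

/-- strictly below `lmg β` the annealed excursions have mass larger than one -/
theorem ind_lt (M : Mod) (hφ : ∀ z, M.φ z = 0 ∨ M.φ z = 1) {h : ℝ} (hh : h < lmg M.μ M.β) :
    ∃ N : ℕ, 1 < ∑ n ∈ range N, M.g h n := by
  obtain ⟨x, hx⟩ := M.φ_ne
  obtain ⟨n, hn⟩ := kv_strict M.C (v := fun _ => 0) (w := M.v h) (fun z => by
    rw [ind_v M hφ]
    exact mul_nonneg (by linarith) (M.φ_nonneg z)) (x₀ := x) (by
    rw [ind_v M hφ]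
    exact mul_pos (by linarith) hx)
  rw [AZ.Kv_K0] at hn
  set d : ℝ := Kv M.C (M.v h) n 0 - K0 M.C n 0 with hd
  have hd0 : 0 < d := by rw [hd]; linarith
  have h1 := (k0_tend M.C M.hrec).eventually (lt_mem_nhds (show 1 - d < 1 by linarith))
  obtain ⟨N, hN1, hN2⟩ := (h1.and (eventually_gt_atTop n)).exists
  refine ⟨N, ?_⟩
  have h2 : ∑ m ∈ range N, K0 M.C m 0 + d ≤ ∑ m ∈ range N, M.g h m := by
    have hle : ∀ m, K0 M.C m 0 ≤ M.g h m := fun m => by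
      rw [← AZ.Kv_K0]
      refine AZ.Kv_mono M.C (fun z => ?_) m 0
      rw [ind_v M hφ]
      exact mul_nonneg (by linarith) (M.φ_nonneg z)
    rw [← Finset.add_sum_erase _ _ (Finset.mem_range.2 hN2),
      ← Finset.add_sum_erase _ (fun m => M.g h m) (Finset.mem_range.2 hN2)]
    have h3 := Finset.sum_le_sum (s := (range N).erase n) fun m _ => hle m
    have h4 : M.g h n = Kv M.C (M.v h) n 0 := rfl
    rw [h4]
    linarith
  linarith

/-- strictly above `lmg β` the annealed excursions have mass less than one -/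
theorem ind_gt (M : Mod) (hφ : ∀ z, M.φ z = 0 ∨ M.φ z = 1) {h : ℝ} (hh : lmg M.μ M.β < h) :
    ∃ d : ℝ, 0 < d ∧ ∀ N : ℕ, ∑ n ∈ range N, M.g h n ≤ 1 - d := by
  obtain ⟨x, hx⟩ := M.φ_ne
  obtain ⟨n, hn⟩ := kv_strict M.C (v := M.v h) (w := fun _ => 0) (fun z => by
    rw [ind_v M hφ]
    exact mul_nonpos_of_nonpos_of_nonneg (by linarith) (M.φ_nonneg z)) (x₀ := x) (by
    rw [ind_v M hφ]
    exact mul_neg_of_neg_of_pos (by linarith) hx)
  rw [AZ.Kv_K0] at hn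
  have hle : ∀ m, M.g h m ≤ K0 M.C m 0 := fun m => by
    rw [← AZ.Kv_K0]
    refine AZ.Kv_mono M.C (fun z => ?_) m 0
    rw [ind_v M hφ]
    exact mul_nonpos_of_nonpos_of_nonneg (by linarith) (M.φ_nonneg z)
  refine ⟨K0 M.C n 0 - Kv M.C (M.v h) n 0, by linarith, fun N => ?_⟩
  have key : ∀ N : ℕ, n < N → ∑ m ∈ range N, M.g h m ≤ 1 - (K0 M.C n 0 - Kv M.C (M.v h) n 0) := by
    intro N hN
    have h0 := k0_sum M.C M.hrec N
    rw [← Finset.add_sum_erase _ _ (Finset.mem_range.2 hN)] at h0 ⊢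
    have h3 := Finset.sum_le_sum (s := (range N).erase n) fun m _ => hle m
    have h4 : M.g h n = Kv M.C (M.v h) n 0 := rfl
    rw [h4]
    linarith
  refine le_trans ?_ (key (N + n + 1) (by omega))
  exact Finset.sum_le_sum_of_subset_of_nonneg (Finset.range_mono (by omega))
    fun m _ _ => AZ.Kv_nonneg _ _ _ _

/-- a bounded moment at the critical point: the critical point is `lmg β` -/
theorem ind_crit (M : Mod) (hφ : ∀ z, M.φ z = 0 ∨ M.φ z = 1) {hc p K : ℝ} (hc0 : 0 < hc)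
    (hcrit : ∀ h, 0 < M.Fr h ↔ h < hc) (hp : 1 < p)
    (hb : ∀ n : ℕ, mom M.μ p (fun ω => M.Z hc (2 * n) ω) ≤ ENNReal.ofReal K) :
    hc = lmg M.μ M.β := by
  rcases lt_trichotomy hc (lmg M.μ M.β) with h | h | h
  · obtain ⟨N, hN⟩ := ind_lt M hφ h
    have := bdd_sum hp hb N
    linarith
  · exact h
  · obtain ⟨d, hd, hN⟩ := ind_gt M hφ h
    obtain ⟨N, h1⟩ := bdd_one hc0 hcrit hp hb (half_pos hd)
    have := hN N
    linarith

theorem wb_of_bdd (M : Mod) (hφ : ∀ z, M.φ z = 0 ∨ M.φ z = 1) {hc : ℝ} (hc0 : 0 < hc)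
    (hcrit : ∀ h, 0 < M.Fr h ↔ h < hc) {p K : ℝ} (hp : 1 < p)
    (hb : ∀ n : ℕ, mom M.μ p (fun ω => M.Z hc (2 * n) ω) ≤ ENNReal.ofReal K) :
    WB M.μ M.C M.φ M.β := by
  have h1 := ind_crit M hφ hc0 hcrit hp hb
  subst h1
  exact ⟨p, K, hp, hb⟩

/-- a bounded moment at `lmg β`: it is the critical point -/
theorem wb_crit (M : Mod) (hφ : ∀ z, M.φ z = 0 ∨ M.φ z = 1) (hP : PolyCost M) {a : ℝ} (ha : 0 < a)
    (ha1 : a ≤ 1) (hF : FTail M.C a) (hF' : FTail (AZ.cneg M.C) a)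
    (h : WB M.μ M.C M.φ M.β) : ∀ h, 0 < M.Fr h ↔ h < lmg M.μ M.β := by
  obtain ⟨p, K, hp, hb⟩ := h
  have hl : 0 < lmg M.μ M.β := AZ.lmg_pos M.exp_mom M.mean M.var M.β_pos.ne'
  have hb' : ∀ n : ℕ, mom M.μ p (fun ω => M.Z (lmg M.μ M.β) (2 * n) ω) ≤ ENNReal.ofReal K := hb
  have hg : ∀ N : ℕ, ∑ n ∈ range N, M.g (lmg M.μ M.β) n ≤ 1 := bdd_sum hp hb'
  exact crit_of_bdd M hP hl hp hb' hg (fun h _ hh => ind_lt M hφ hh)
    (fun hℓ => bdd_ldec hp hb' hℓ) ha ha1 hF (fun _ => hF')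

/-- outside of the interval no moment of order larger than one is bounded at the critical point -/
theorem wb_unbd (M : Mod) (hφ : ∀ z, M.φ z = 0 ∨ M.φ z = 1) {hc : ℝ} (hc0 : 0 < hc)
    (hcrit : ∀ h, 0 < M.Fr h ↔ h < hc) (h : ¬ WB M.μ M.C M.φ M.β) : Unbd M hc := by
  intro p hp K
  by_contra hcon
  push Not at hcon
  exact h (wb_of_bdd M hφ hc0 hcrit hp hcon)

/-- small inverse temperatures belong to the interval if `α < 1/2` -/
theorem wb_small (M : Mod) (hφ : ∀ z, M.φ z = 0 ∨ M.φ z = 1) {α : ℝ} (hα0 : 0 < α)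
    (hα : α < 1 / 2) (hA : PolyA M α) (hU : KUp M.C α) (hR : VR M.C M.φ)
    (hL : VL M.C M.φ ∨ ExpLeft M.C) : ∃ β₀ : ℝ, 0 < β₀ ∧ ∀ b : ℝ, 0 < b → b ≤ β₀ →
      WB M.μ M.C M.φ b := by
  obtain ⟨β₀, hβ₀, h⟩ := small_beta M hα0 hα hA hU hR hL
  refine ⟨β₀, hβ₀, fun b hb hbb => ?_⟩
  obtain ⟨h₀, K, h0, hcrit, hm⟩ := h b hb hbb
  exact wb_of_bdd (withB M b hb) hφ h0 hcrit one_lt_two hm

/-- large inverse temperatures do not, if the charges have no atom at their essential supremum -/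
theorem wb_large (C : Chain) (hnl : ∀ x, C.p x x = 0)
    (hrec : HasSum (fun n : ℕ => K0 C (n + 1) 0) 1) {μ : Measure ℝ} [IsProbabilityMeasure μ]
    (hμ : ExpMom μ)
    (hat : ∀ ε : ℝ, 0 < ε → ∃ A : ℝ, 0 < μ (Set.Ioi A) ∧ μ (Set.Ioi A) ≤ ENNReal.ofReal ε)
    {φ : ℤ → ℝ} (hφ : ∀ z, φ z = 0 ∨ φ z = 1) (h0 : φ 0 = 1) {α : ℝ} (hα : 0 < α)
    (hU : KUp C α) : ∃ β₁ : ℝ, ∀ b : ℝ, β₁ ≤ b → ¬ WB μ C φ b := by
  obtain ⟨H, hH0, hH⟩ := ent_fin C hnl hα hU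
  obtain ⟨β₁, h1⟩ := eventually_atTop.1 (lmg_big hμ hat H)
  refine ⟨max β₁ 1, fun b hb hw => ?_⟩
  have hb0 : 0 < b := lt_of_lt_of_le one_pos ((le_max_right _ _).trans hb)
  have h2 := h1 b ((le_max_left _ _).trans hb)
  have hw' : WB μ C pin0 b := by
    refine wb_sub hμ C (fun z => ?_) hφ (fun z => ?_) hw
    · unfold pin0
      split_ifs
      · exact Or.inr rfl
      · exact Or.inl rfl
    · unfold pin0
      split_ifs with hz
      · rw [hz, h0]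
      · rcases hφ z with h3 | h3 <;> rw [h3]
        exact zero_le_one
  obtain ⟨p, K, hp, hK⟩ := hw'
  have h3 := lmg_slope_half hμ hb0 hp.le
  have h4 : (p - 1) * H < lmg μ (p * b) - p * lmg μ b := by
    refine lt_of_lt_of_le ?_ h3
    exact mul_lt_mul_of_pos_left h2 (by linarith)
  obtain ⟨N, hN⟩ := pow_sum C hrec hH hp.le h4
  obtain ⟨n, hn⟩ := pow_unbd C hnl hμ hp.le hN K
  exact absurd (hK n) (not_le.2 hn)

end

end Pool.Agent.IG
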